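import Pool.Agent.SawM2.Cnd
import Pool.Agent.SawDiff.Win

/-!
# The limiting law (module ERGL)
-/

set_option autoImplicit false

namespace Pool.Agent.SawM2

open Finset Filter Pool.Agent.Bub4 Pool.Agent.SawDiff

variable {S V : Type} [Fintype S] [AddCommGroup V] {Y : Sys S V} {Λ K : ℝ} {ρ : List S → ℝ}

variable {c₀ : ℝ} {H : ℕ → ℕ} {B : ℕ → List S → Prop} {a : ℕ → List S → ℝ}

/-- ultralimits of eventually equal sequences agree -/
private theorem ErgL_congr {x y : ℕ → ℝ} (h : ∀ᶠ n in atTop, x n = y n) :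
    Bubble.ul x = Bubble.ul y := by
  unfold Bubble.ul limUnder
  rw [Filter.map_congr (h.filter_mono Bubble.hyp_le)]

/-- bounded difference tending to zero -/
private theorem ErgL_abs {x y e : ℕ → ℝ} {C D : ℝ} (hx : ∀ n, |x n| ≤ C) (hy : ∀ n, |y n| ≤ D)
    (he : Tendsto e atTop (nhds 0)) (h : ∀ᶠ n in atTop, |x n - y n| ≤ e n) :
    Bubble.ul x = Bubble.ul y := by
  refine le_antisymm (Bubble.ul_le hx hy he ?_) (Bubble.ul_le hy hx he ?_)
  · filter_upwards [h] with n hn
    linarith [(abs_le.1 hn).2]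
  · filter_upwards [h] with n hn
    linarith [(abs_le.1 hn).1]

private theorem ErgL_Hpos (hC : Cen Y ρ c₀ H B a) (k : ℕ) : 0 < H k :=
  lt_of_lt_of_le (by positivity) (hC.H_ge k)

private theorem ErgL_x_nonneg (h : Bulk Y Λ ρ) (hc : 0 < c₀) (hC : Cen Y ρ c₀ H B a) (k : ℕ)
    (u : List S) : 0 ≤ cnd Y ρ H B k (av u (H k)) / Y.z ^ u.length := by
  refine div_nonneg ?_ (pow_pos Y.z_pos _).le
  rw [← cnd_const (B := B) (H := H) h hc hC k 0]
  exact cnd_mono h hc hC k fun w _ _ => av_nonneg _ _ _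

private theorem ErgL_x_le (h : Bulk Y Λ ρ) (hc : 0 < c₀) (hC : Cen Y ρ c₀ H B a) (k : ℕ)
    (u : List S) : |cnd Y ρ H B k (av u (H k)) / Y.z ^ u.length| ≤ Λ / c₀ := by
  rw [abs_of_nonneg (ErgL_x_nonneg h hc hC k u)]
  exact (cnd_av_le h hc hC k u).trans (div_le_div_of_nonneg_right (h.le_const u) hc.le)

private theorem ErgL_cnd_sum (k : ℕ) {ι : Type} (s : Finset ι) (F : ι → List S → ℝ) :
    cnd Y ρ H B k (fun w => ∑ i ∈ s, F i w) = ∑ i ∈ s, cnd Y ρ H B k (F i) := by
  classical
  induction s using Finset.induction_on with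
  | empty =>
    simp only [Finset.sum_empty]
    unfold cnd
    simp
  | insert i s hi ih =>
    simp only [Finset.sum_insert hi]
    rw [cnd_add, ih]

private theorem ErgL_cnd_congr (h : Bulk Y Λ ρ) (hc : 0 < c₀) (hC : Cen Y ρ c₀ H B a) (k : ℕ)
    {F G : List S → ℝ} (hFG : ∀ w, w.length = H k + k → F w = G w) :
    cnd Y ρ H B k F = cnd Y ρ H B k G :=
  le_antisymm (cnd_mono h hc hC k fun w hw _ => (hFG w hw).le)
    (cnd_mono h hc hC k fun w hw _ => (hFG w hw).ge)

/-- `|cnd F - cnd G| ≤ e` if `|F - G| ≤ e` on the event -/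
private theorem ErgL_cnd_abs (h : Bulk Y Λ ρ) (hc : 0 < c₀) (hC : Cen Y ρ c₀ H B a) (k : ℕ)
    {F G : List S → ℝ} {e : ℝ} (hFG : ∀ w, w.length = H k + k → B k w → |F w - G w| ≤ e) :
    |cnd Y ρ H B k F - cnd Y ρ H B k G| ≤ e := by
  have h1 : cnd Y ρ H B k F ≤ cnd Y ρ H B k G + e := by
    rw [← cnd_const (B := B) (H := H) h hc hC k e, ← cnd_add]
    exact cnd_mono h hc hC k fun w hw hB => by linarith [(abs_le.1 (hFG w hw hB)).2]
  have h2 : cnd Y ρ H B k G ≤ cnd Y ρ H B k F + e := by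
    rw [← cnd_const (B := B) (H := H) h hc hC k e, ← cnd_add]
    exact cnd_mono h hc hC k fun w hw hB => by linarith [(abs_le.1 (hFG w hw hB)).1]
  rw [abs_le]
  constructor <;> linarith

private theorem ErgL_occ_snoc (u : List S) {p : ℕ} {w : List S} (hw : p + u.length + 1 ≤ w.length) :
    ∑ s, occ (u ++ [s]) p w = occ u p w := by
  classical
  unfold occ
  by_cases hu : u <+: w.drop p
  · obtain ⟨t, ht⟩ := hu
    have ht0 : t ≠ [] := by
      rintro rfl
      have := congrArg List.length ht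
      simp at this
      omega
    obtain ⟨c, t', rfl⟩ := List.exists_cons_of_ne_nil ht0
    rw [if_pos ⟨_, ht⟩]
    have h1 : ∀ s, (u ++ [s] <+: w.drop p) ↔ s = c := by
      intro s
      rw [← ht, List.prefix_append_right_inj, List.cons_prefix_cons]
      simp
    simp only [h1]
    simp
  · rw [if_neg hu]
    refine Finset.sum_eq_zero fun s _ => ?_
    rw [if_neg]
    intro h1
    exact hu ((List.prefix_append u [s]).trans h1)

private theorem ErgL_occ_cons (u : List S) {p : ℕ} {w : List S} (hw : p < w.length) :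
    ∑ s, occ (s :: u) p w = occ u (p + 1) w := by
  classical
  unfold occ
  rw [List.drop_eq_getElem_cons hw]
  have h1 : ∀ s, (s :: u <+: w[p] :: w.drop (p + 1)) ↔ (s = w[p] ∧ u <+: w.drop (p + 1)) := by
    intro s
    exact List.cons_prefix_cons
  by_cases hu : u <+: w.drop (p + 1)
  · rw [if_pos hu]
    simp only [h1, hu, and_true]
    simp
  · rw [if_neg hu]
    simp only [h1, hu, and_false]
    simp

private theorem ErgL_av_snoc (u : List S) {L : ℕ} {w : List S} (hw : L + u.length ≤ w.length) :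
    ∑ s, av (u ++ [s]) L w = av u L w := by
  unfold av
  rw [← Finset.mul_sum, Finset.sum_comm]
  congr 1
  refine Finset.sum_congr rfl fun p hp => ?_
  rw [Finset.mem_range] at hp
  exact ErgL_occ_snoc u (by omega)

private theorem ErgL_av_cons (u : List S) {L : ℕ} (hL : 0 < L) {w : List S} (hw : L ≤ w.length) :
    |(∑ s, av (s :: u) L w) - av u L w| ≤ (L : ℝ)⁻¹ := by
  have hL' : (0 : ℝ) < L := by exact_mod_cast hL
  have h1 : (∑ s, av (s :: u) L w) = (L : ℝ)⁻¹ * ∑ p ∈ range L, occ u (p + 1) w := by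
    unfold av
    rw [← Finset.mul_sum, Finset.sum_comm]
    congr 1
    refine Finset.sum_congr rfl fun p hp => ?_
    rw [Finset.mem_range] at hp
    exact ErgL_occ_cons u (by omega)
  have h2 : (∑ p ∈ range L, occ u (p + 1) w) - ∑ p ∈ range L, occ u p w =
      occ u L w - occ u 0 w := by
    rw [← Finset.sum_sub_distrib, Finset.sum_range_sub (fun p => occ u p w)]
  rw [h1]
  unfold av
  rw [← mul_sub, h2, abs_mul, abs_of_pos (inv_pos.2 hL')]
  refine mul_le_of_le_one_right (inv_nonneg.2 hL'.le) ?_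
  have a1 := occ_nonneg u L w
  have a2 := occ_le_one u L w
  have a3 := occ_nonneg u 0 w
  have a4 := occ_le_one u 0 w
  rw [abs_le]
  constructor <;> linarith

private theorem ErgL_inv (hC : Cen Y ρ c₀ H B a) : Tendsto (fun k => ((H k : ℕ) : ℝ)⁻¹) atTop (nhds 0) := by
  have h1 : Tendsto (fun k : ℕ => H k) atTop atTop := by
    refine tendsto_atTop_mono (f := fun k : ℕ => k) (fun k => ?_) tendsto_id
    have := hC.H_ge k
    nlinarith
  exact tendsto_inv_atTop_zero.comp (tendsto_natCast_atTop_atTop.comp h1)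

/-- `E 1` as a sum over letters -/
private theorem ErgL_E1 (F : List S → ℝ) : Y.E 1 F = Y.z * ∑ s, F [s] := rfl

/-- ERGL. The limit is a stationary law. Bounds from `cnd_av_le` and `Bubble.ul_le_const`,
`Bubble.const_le_ul` (`|cnd (av u (H k)) / z^|u|| ≤ Λ / c₀`); `nil`: `av [] H w = 1`. `right`: by
induction on `n` it is enough to treat `n = 1`: `Σ_s occ (u ++ [s]) h w = occ u h w` when
`h + |u| + 1 ≤ |w|`, so for `|u| < k` the sum of the frequencies is exactly `av u (H k)`. `left`:
`Σ_s occ (s :: u) h w = occ u (h + 1) w`, the sum over `h < H k` differs from that of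
`occ u h w` by at most `1`, error `1 / H k → 0` (`Bubble.ul_le` twice). Finite sums and `ul`:
`SawDiff.E_ul`. -/
theorem bulk_eL (h : Bulk Y Λ ρ) (hc : 0 < c₀) (hC : Cen Y ρ c₀ H B a) :
    Bulk Y (Λ / c₀) (eL Y ρ H B) := by
  have h0 : Tendsto (fun _ : ℕ => (0 : ℝ)) atTop (nhds 0) := tendsto_const_nhds
  have hr1 : ∀ u : List S, Y.E 1 (fun v => eL Y ρ H B (u ++ v)) = eL Y ρ H B u := by
    intro u
    unfold eL
    rw [E_ul Y 1 (C := Λ / c₀)
      (fun k v => cnd Y ρ H B k (av (u ++ v) (H k)) / Y.z ^ (u ++ v).length)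
      (fun k v => ErgL_x_le h hc hC k _)]
    refine ErgL_congr ?_
    filter_upwards [eventually_ge_atTop u.length] with k hk
    rw [ErgL_E1]
    have h1 : cnd Y ρ H B k (av u (H k)) = ∑ s, cnd Y ρ H B k (av (u ++ [s]) (H k)) := by
      rw [← ErgL_cnd_sum]
      exact ErgL_cnd_congr h hc hC k fun w hw => (ErgL_av_snoc u (by omega)).symm
    rw [h1, Finset.mul_sum, Finset.sum_div]
    refine Finset.sum_congr rfl fun s _ => ?_
    have hz := Y.z_pos
    have hz' : Y.z ^ u.length ≠ 0 := (pow_pos hz _).ne'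
    rw [List.length_append, List.length_singleton, pow_succ]
    field_simp
  have hl1 : ∀ u : List S, Y.E 1 (fun v => eL Y ρ H B (v ++ u)) = eL Y ρ H B u := by
    intro u
    unfold eL
    rw [E_ul Y 1 (C := Λ / c₀)
      (fun k v => cnd Y ρ H B k (av (v ++ u) (H k)) / Y.z ^ (v ++ u).length)
      (fun k v => ErgL_x_le h hc hC k _)]
    have hb : ∀ k, |Y.E 1 (fun v => cnd Y ρ H B k (av (v ++ u) (H k)) / Y.z ^ (v ++ u).length)| ≤
        Y.E 1 fun _ => Λ / c₀ := fun k =>
      (Y.E_abs 1 _).trans (Y.E_mono fun v _ => ErgL_x_le h hc hC k _)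
    have he : Tendsto (fun k => ((H k : ℕ) : ℝ)⁻¹ / Y.z ^ u.length) atTop (nhds 0) := by
      have := (ErgL_inv hC).div_const (Y.z ^ u.length)
      rwa [zero_div] at this
    refine ErgL_abs hb (fun k => ErgL_x_le h hc hC k u) he (Eventually.of_forall fun k => ?_)
    rw [ErgL_E1]
    have hz := Y.z_pos
    have hz' : 0 < Y.z ^ u.length := pow_pos hz _
    have h1 : (Y.z * ∑ s, cnd Y ρ H B k (av ([s] ++ u) (H k)) / Y.z ^ ([s] ++ u).length) =
        cnd Y ρ H B k (fun w => ∑ s, av (s :: u) (H k) w) / Y.z ^ u.length := by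
      rw [ErgL_cnd_sum, Finset.mul_sum, Finset.sum_div]
      refine Finset.sum_congr rfl fun s _ => ?_
      rw [List.singleton_append, List.length_cons, pow_succ]
      field_simp
    rw [h1, ← sub_div, abs_div, abs_of_pos hz']
    refine div_le_div_of_nonneg_right ?_ hz'.le
    exact ErgL_cnd_abs h hc hC k fun w hw _ =>
      ErgL_av_cons u (ErgL_Hpos hC k) (by omega)
  refine ⟨fun u => ?_, fun u => ?_, ?_, ?_, ?_⟩
  · exact Bubble.const_le_ul (e := fun _ => 0) (fun k => ErgL_x_le h hc hC k u) h0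
      (Eventually.of_forall fun k => by rw [add_zero]; exact ErgL_x_nonneg h hc hC k u)
  · refine Bubble.ul_le_const (e := fun _ => 0) (fun k => ErgL_x_le h hc hC k u) h0
      (Eventually.of_forall fun k => ?_)
    rw [add_zero]
    refine (cnd_av_le h hc hC k u).trans ?_
    rw [div_mul_eq_mul_div]
    exact div_le_div_of_nonneg_right (h.le u) hc.le
  · unfold eL
    have h1 : ∀ k, cnd Y ρ H B k (av [] (H k)) / Y.z ^ ([] : List S).length = 1 := by
      intro k
      rw [List.length_nil, pow_zero, div_one]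
      have h2 : ∀ w : List S, av [] (H k) w = 1 := by
        intro w
        unfold av
        have h3 : ∀ p, occ ([] : List S) p w = 1 := fun p => by
          unfold occ
          rw [if_pos List.nil_prefix]
        simp only [h3]
        have h4 : ((H k : ℕ) : ℝ) ≠ 0 := by exact_mod_cast (ErgL_Hpos hC k).ne'
        simp [h4]
      have h5 : (av ([] : List S) (H k)) = fun _ => (1 : ℝ) := funext h2
      rw [h5, cnd_const h hc hC]
    simp only [h1]
    exact Bubble.ul_eq tendsto_const_nhds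
  · intro u n
    induction n with
    | zero => simp
    | succ n ih =>
      rw [Y.E_add n 1]
      rw [← ih]
      refine Y.E_congr fun v _ => ?_
      rw [← hr1 (u ++ v)]
      refine Y.E_congr fun s _ => ?_
      rw [List.append_assoc]
  · intro u n
    induction n generalizing u with
    | zero => simp
    | succ n ih =>
      rw [Nat.add_comm, Y.E_add 1 n, Y.E_comm]
      rw [← ih u]
      refine Y.E_congr fun v _ => ?_
      rw [← hl1 (v ++ u)]
      refine Y.E_congr fun s _ => ?_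
      rw [List.append_assoc]

/-- ERGL. The frequency of `u` under the limit law. -/
theorem eL_eq (h : Bulk Y Λ ρ) (hc : 0 < c₀) (hC : Cen Y ρ c₀ H B a) (u : List S) :
    Y.z ^ u.length * eL Y ρ H B u = Bubble.ul fun k => a k u := by
  have hz : 0 < Y.z ^ u.length := pow_pos Y.z_pos _
  have h1 : Y.z ^ u.length * eL Y ρ H B u =
      Bubble.ul fun k => cnd Y ρ H B k (av u (H k)) := by
    symm
    apply Bubble.ul_eq
    have h2 := (Bubble.tendsto_ul (x := fun k => cnd Y ρ H B k (av u (H k)) / Y.z ^ u.length)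
      (fun k => ErgL_x_le h hc hC k u)).const_mul (Y.z ^ u.length)
    refine h2.congr fun k => ?_
    field_simp
  rw [h1]
  have hb : ∀ k, |cnd Y ρ H B k (av u (H k))| ≤ Y.z ^ u.length * (Λ / c₀) := by
    intro k
    have h2 := ErgL_x_le h hc hC k u
    rwa [abs_div, abs_of_pos hz, div_le_iff₀ hz, mul_comm] at h2
  have hb' : ∀ k, |a k u| ≤ 1 := by
    intro k
    have := hC.mem k u
    rw [abs_le]
    constructor <;> linarith [this.1, this.2]
  have he : Tendsto (fun k : ℕ => 1 / ((k : ℝ) + 1)) atTop (nhds 0) :=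
    tendsto_one_div_add_atTop_nhds_zero_nat
  refine ErgL_abs hb hb' he ?_
  filter_upwards [eventually_ge_atTop u.length] with k hk
  have h3 : |cnd Y ρ H B k (av u (H k)) - cnd Y ρ H B k (fun _ => a k u)| ≤ 1 / ((k : ℝ) + 1) :=
    ErgL_cnd_abs h hc hC k fun w _ hB => hC.close k w u hB hk
  rwa [cnd_const h hc hC] at h3

/-- ERGM. A function of windows of length `ℓ` under the limit law: average over the places of the
big window. Proof: `E_ul` and `Σ_{|w| = ℓ} av w (H k) W * G w = (H k)⁻¹ Σ_{h < H k}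
G ((W.drop h).take ℓ)` for `|W| = H k + k`, `ℓ ≤ k` (exactly one word of length `ℓ` occurs at each
place). -/
theorem E_eL (h : Bulk Y Λ ρ) (hc : 0 < c₀) (hC : Cen Y ρ c₀ H B a) (ℓ : ℕ) {G : List S → ℝ}
    {C : ℝ} (hG : ∀ w, |G w| ≤ C) :
    (Y.E ℓ fun w => eL Y ρ H B w * G w) =
      Bubble.ul fun k => cnd Y ρ H B k fun W => ((H k : ℝ))⁻¹ *
        ∑ p ∈ range (H k), G ((W.drop p).take ℓ) := by
  classical
  have h1 : ∀ w : List S, eL Y ρ H B w * G w =
      Bubble.ul fun k => cnd Y ρ H B k (av w (H k)) / Y.z ^ w.length * G w := by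
    intro w
    symm
    apply Bubble.ul_eq
    exact (Bubble.tendsto_ul (x := fun k => cnd Y ρ H B k (av w (H k)) / Y.z ^ w.length)
      (fun k => ErgL_x_le h hc hC k w)).mul_const (G w)
  simp only [h1]
  have hb : ∀ k (w : List S), |cnd Y ρ H B k (av w (H k)) / Y.z ^ w.length * G w| ≤ Λ / c₀ * C := by
    intro k w
    rw [abs_mul]
    exact mul_le_mul (ErgL_x_le h hc hC k w) (hG w) (abs_nonneg _)
      ((abs_nonneg _).trans (ErgL_x_le h hc hC k w))
  rw [E_ul Y ℓ (C := Λ / c₀ * C)
    (fun k w => cnd Y ρ H B k (av w (H k)) / Y.z ^ w.length * G w) hb]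
  refine ErgL_congr ?_
  filter_upwards [eventually_ge_atTop ℓ] with k hk
  rw [Y.E_eq]
  have hz : 0 < Y.z ^ ℓ := pow_pos Y.z_pos _
  have h2 : ∀ w : Fin ℓ → S, Y.z ^ ℓ * (cnd Y ρ H B k (av (List.ofFn w) (H k)) /
      Y.z ^ (List.ofFn w).length * G (List.ofFn w)) =
      cnd Y ρ H B k fun W => G (List.ofFn w) * av (List.ofFn w) (H k) W := by
    intro w
    rw [cnd_mul_left, List.length_ofFn]
    field_simp
  simp only [h2]
  rw [← ErgL_cnd_sum]
  refine ErgL_cnd_congr h hc hC k fun W hW => ?_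
  unfold av
  have h3 : ∀ w : Fin ℓ → S, G (List.ofFn w) * (((H k : ℕ) : ℝ)⁻¹ *
      ∑ p ∈ range (H k), occ (List.ofFn w) p W) = ((H k : ℕ) : ℝ)⁻¹ *
      ∑ p ∈ range (H k), G (List.ofFn w) * occ (List.ofFn w) p W := by
    intro w
    rw [← Finset.mul_sum]
    ring
  simp only [h3]
  rw [← Finset.mul_sum, Finset.sum_comm]
  congr 1
  refine Finset.sum_congr rfl fun p hp => ?_
  rw [Finset.mem_range] at hp
  have hlen : ((W.drop p).take ℓ).length = ℓ := by
    rw [List.length_take, List.length_drop]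
    omega
  obtain ⟨w₀, hw₀⟩ : ∃ w₀ : Fin ℓ → S, List.ofFn w₀ = (W.drop p).take ℓ := by
    refine ⟨fun i => ((W.drop p).take ℓ).get (Fin.cast hlen.symm i), ?_⟩
    apply List.ext_get
    · simp [hlen]
    · intro n h1 h2
      simp
  rw [Finset.sum_eq_single w₀]
  · rw [hw₀]
    unfold occ
    rw [if_pos (List.take_prefix _ _), mul_one]
  · intro w _ hne
    unfold occ
    rw [if_neg, mul_zero]
    intro hpre
    apply hne
    have h4 : List.ofFn w = (W.drop p).take ℓ := by
      have h5 := List.prefix_iff_eq_take.1 hpre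
      rw [List.length_ofFn] at h5
      exact h5
    exact List.ofFn_injective (h4.trans hw₀.symm)
  · intro hne
    exact absurd (Finset.mem_univ _) hne

end Pool.Agent.SawM2
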