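import Pool.Agent.SawM2.ErgM

/-!
# Existence of an ergodic law (module ERGR)
-/

set_option autoImplicit false

namespace Pool.Agent.SawM2

open Finset Filter Pool.Agent.Bub4 Pool.Agent.SawDiff

variable {S V : Type} [Fintype S] [AddCommGroup V] {Y : Sys S V} {Λ K : ℝ} {ρ : List S → ℝ}

/-- ERGR. Existence of an ergodic law: `SawDiff.exists_bulk`, `exists_cen`, `bulk_eL`, `mf_eL`. -/
theorem exists_erg (h1 : ∀ n, 1 ≤ Y.a n) (hK : ∀ n, Y.a n ≤ K) :
    ∃ (Λ : ℝ) (ρ : List S → ℝ), Erg Y Λ K ρ := by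
  obtain ⟨ρ, h⟩ := exists_bulk h1 hK
  obtain ⟨c₀, hc, _, H, B, a, hC⟩ := exists_cen h h1 hK
  exact ⟨_, _, bulk_eL h hc hC, h1, hK, fun γ => mf_eL h hc hC γ⟩

private theorem ERGR_bulk (h : Bulk Y Λ ρ) : Bulk Y Λ (rv ρ) where
  nonneg u := h.nonneg _
  le u := by
    have := h.le u.reverse
    rwa [Y.sv_reverse] at this
  nil := h.nil
  right u n := by
    have h1 : (Y.E n fun v => rv ρ (u ++ v)) = Y.E n fun v => ρ (v.reverse ++ u.reverse) := by
      refine Y.E_congr fun v _ => ?_
      unfold rv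
      rw [List.reverse_append]
    rw [h1, Y.E_reverse n fun v => ρ (v ++ u.reverse)]
    exact h.left u.reverse n
  left u n := by
    have h1 : (Y.E n fun v => rv ρ (v ++ u)) = Y.E n fun v => ρ (u.reverse ++ v.reverse) := by
      refine Y.E_congr fun v _ => ?_
      unfold rv
      rw [List.reverse_append]
    rw [h1, Y.E_reverse n fun v => ρ (u.reverse ++ v)]
    exact h.right u.reverse n

/-- occurrences in the reversed word -/
private theorem ERGR_occ (γ w : List S) {H h : ℕ} (hw : w.length = H + γ.length) (hh : h < H) :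
    occ γ h w.reverse = occ γ.reverse (H - h) w := by
  unfold occ
  have key : γ <+: w.reverse.drop h ↔ γ.reverse <+: w.drop (H - h) := by
    rw [List.drop_reverse, hw]
    have h1 : γ <+: (w.take (H + γ.length - h)).reverse ↔
        γ.reverse <:+ w.take (H + γ.length - h) := by
      rw [← List.reverse_prefix, List.reverse_reverse]
    rw [h1, List.suffix_iff_eq_drop, List.prefix_iff_eq_take, List.length_take,
      List.length_reverse, hw, List.drop_take]
    have h2 : min (H + γ.length - h) (H + γ.length) - γ.length = H - h := by omega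
    rw [h2]
    have h3 : H + γ.length - h - (H - h) = γ.length := by omega
    rw [h3]
  by_cases h2 : γ <+: w.reverse.drop h
  · rw [if_pos h2, if_pos (key.1 h2)]
  · rw [if_neg h2, if_neg (fun h3 => h2 (key.2 h3))]

private theorem ERGR_av (γ w : List S) {H : ℕ} (hw : w.length = H + γ.length) :
    av γ H w.reverse = av γ.reverse H (w.drop 1) := by
  unfold av
  congr 1
  rw [← Finset.sum_range_reflect]
  refine Finset.sum_congr rfl fun j hj => ?_
  rw [Finset.mem_range] at hj
  rw [ERGR_occ γ w hw (by omega), occ_drop]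
  congr 1
  omega

private theorem ERGR_mf (h : Bulk Y Λ ρ) (γ : List S) (H : ℕ) :
    mf Y (rv ρ) γ H = mf Y ρ γ.reverse H := by
  have h1 : mf Y (rv ρ) γ H = Y.E (H + γ.length) fun w => ρ w * av γ.reverse H (w.drop 1) ^ 2 := by
    unfold mf rv
    rw [← Y.E_reverse (H + γ.length) fun w => ρ w * av γ.reverse H (w.drop 1) ^ 2]
    refine Y.E_congr fun w hw => ?_
    have h2 := ERGR_av γ w.reverse (H := H) (by rw [List.length_reverse]; exact hw)
    rw [List.reverse_reverse] at h2
    rw [h2]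
  have h2 := h.win_left (H + γ.length) 1 (fun w => av γ.reverse H (w.drop 1) ^ 2)
  have h3 := mf_win h γ.reverse (H := H) (N := H + γ.length + 1) (p := 1)
    (by rw [List.length_reverse]; omega)
  rw [h1, ← h2, ← h3]
  refine Y.E_congr fun w _ => ?_
  congr 2
  unfold av
  congr 1
  refine Finset.sum_congr rfl fun j hj => ?_
  rw [Finset.mem_range] at hj
  rw [occ_drop, occ_drop, occ_take]
  rw [List.length_reverse]
  omega

/-- ERGR. The reversed law is ergodic: `E_reverse`, `sv_reverse`; the frequency of `γ` in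
`w.reverse` is the frequency of `γ.reverse` in `w` in the window of the last `H` places, so
`mf (rv ρ) γ H = mf ρ γ.reverse H` by stationarity. -/
theorem Erg.rv (h : Erg Y Λ K ρ) : Erg Y Λ K (rv ρ) where
  bulk := ERGR_bulk h.bulk
  a_ge := h.a_ge
  a_le := h.a_le
  erg γ := by
    have h1 := h.erg γ.reverse
    rw [List.length_reverse] at h1
    refine h1.congr fun H => ?_
    exact (ERGR_mf h.bulk γ H).symm

/-- ERGR. Mean deviation of the frequencies, uniformly in the place and the length of the word. -/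
theorem Erg.freq (h : Erg Y Λ K ρ) (g : ℕ) {ε : ℝ} (hε : 0 < ε) : ∃ H₀ : ℕ, ∀ H ≥ H₀, ∀ p N : ℕ,
    p + H + g ≤ N → (Y.E g fun γ => (Y.z ^ g)⁻¹ * Y.E N fun w =>
      ρ w * |av γ H (w.drop p) - Y.z ^ g * ρ γ|) ≤ ε := by
  have hz : 0 < Y.z ^ g := pow_pos Y.z_pos g
  have hlim : Tendsto (fun H => Y.E g fun γ => (Y.z ^ g)⁻¹ *
      Real.sqrt (mf Y ρ γ H - (Y.z ^ g * ρ γ) ^ 2)) atTop (nhds 0) := by
    simp only [Y.E_eq]
    rw [show (0 : ℝ) = ∑ _w : Fin g → S, (0 : ℝ) by simp]
    apply tendsto_finsetSum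
    intro w _
    have h1 := h.erg (List.ofFn w)
    rw [List.length_ofFn] at h1
    have h2 : Tendsto (fun H => mf Y ρ (List.ofFn w) H - (Y.z ^ g * ρ (List.ofFn w)) ^ 2) atTop
        (nhds 0) := by
      have := h1.sub_const ((Y.z ^ g * ρ (List.ofFn w)) ^ 2)
      simpa using this
    have h3 := ((h2.sqrt).const_mul ((Y.z ^ g)⁻¹)).const_mul (Y.z ^ g)
    simpa using h3
  obtain ⟨H₀, hH₀⟩ := (hlim.eventually (ge_mem_nhds hε)).exists_forall_of_atTop
  refine ⟨max H₀ 1, fun H hH p N hN => ?_⟩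
  have hH1 : 0 < H := lt_of_lt_of_le one_pos ((le_max_right _ _).trans hH)
  refine le_trans ?_ (hH₀ H ((le_max_left _ _).trans hH))
  refine Y.E_mono fun γ hγ => ?_
  apply mul_le_mul_of_nonneg_left _ (inv_nonneg.mpr hz.le)
  obtain ⟨c, rfl⟩ := Nat.exists_eq_add_of_le hN
  have e2 : (Y.E (p + H + g + c) fun w => ρ w * av γ H (w.drop p) ^ 2) = mf Y ρ γ H :=
    mf_win h.bulk γ (by omega)
  have e1 : (Y.E (p + H + g + c) fun w => ρ w * av γ H (w.drop p)) = Y.z ^ g * ρ γ := by
    have h1 := h.bulk.win p (H + g) c (fun x => av γ H x)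
    have h2 := mean_av h.bulk γ (H := H) (N := H + g) hH1 (by omega)
    rw [hγ] at h2
    rw [h2, show p + (H + g) + c = p + H + g + c by ring] at h1
    rw [← h1]
    refine Y.E_congr fun w _ => ?_
    rw [av_take γ (by omega)]
  have e3 : (Y.E (p + H + g + c) fun w => ρ w * (av γ H (w.drop p) - Y.z ^ g * ρ γ) ^ 2) =
      mf Y ρ γ H - (Y.z ^ g * ρ γ) ^ 2 := by
    have h1 : (Y.E (p + H + g + c) fun w => ρ w * (av γ H (w.drop p) - Y.z ^ g * ρ γ) ^ 2) =
        Y.E (p + H + g + c) fun w => (ρ w * av γ H (w.drop p) ^ 2 -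
          (2 * (Y.z ^ g * ρ γ)) * (ρ w * av γ H (w.drop p))) + (Y.z ^ g * ρ γ) ^ 2 * ρ w :=
      Y.E_congr fun w _ => by ring
    rw [h1, Y.E_fadd, Y.E_fsub, Y.E_mul_left, Y.E_mul_left, e1, e2]
    have := h.bulk.mass (p + H + g + c)
    rw [show (Y.E (p + H + g + c) fun w => ρ w) = Y.E (p + H + g + c) ρ from rfl, this]
    ring
  have h4 := E_cs' Y (p + H + g + c) h.bulk.nonneg
    (fun w => |av γ H (w.drop p) - Y.z ^ g * ρ γ|) (fun _ => 1)
  simp only [mul_one, one_pow, sq_abs] at h4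
  rw [e3] at h4
  have h5 := h.bulk.mass (p + H + g + c)
  rw [show (Y.E (p + H + g + c) fun w => ρ w) = Y.E (p + H + g + c) ρ from rfl, h5,
    Real.sqrt_one, mul_one] at h4
  exact (le_abs_self _).trans h4

end Pool.Agent.SawM2
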