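import Pool.Agent.SawM2.UArm2
import Pool.Agent.SawM2.Ind

/-!
# The join of the laws of the arms: stopping, good words
-/

set_option autoImplicit false

namespace Pool.Agent.SawM2

open Finset Filter Topology Pool.Agent.Bub4 Pool.Agent.SawDiff

/-! ### The first prefix with a property -/

/-- the prefix of length `i` is the first one with the property `P` -/
def Fst {S : Type} (P : List S → Prop) (w : List S) (i : ℕ) : Prop :=
  P (w.take i) ∧ ∀ j < i, ¬ P (w.take j)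

theorem sum_Fst {S : Type} (P : List S → Prop) (w : List S) (n : ℕ) :
    ∑ i ∈ range (n + 1), ind (Fst P w i) = ind (∃ i ≤ n, P (w.take i)) := by
  classical
  by_cases h : ∃ i ≤ n, P (w.take i)
  · rw [ind_of h]
    have hex : ∃ i, P (w.take i) := ⟨h.choose, h.choose_spec.2⟩
    set k := Nat.find hex with hk
    have hk1 : P (w.take k) := Nat.find_spec hex
    have hk2 : ∀ j < k, ¬ P (w.take j) := fun j hj => Nat.find_min hex hj
    have hkn : k ≤ n := (Nat.find_min' hex h.choose_spec.2).trans h.choose_spec.1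
    rw [Finset.sum_eq_single k]
    · exact ind_of ⟨hk1, hk2⟩
    · intro i _ hik
      refine ind_not fun hi => ?_
      rcases lt_or_gt_of_ne hik with h1 | h1
      · exact hk2 i h1 hi.1
      · exact hi.2 k h1 hk1
    · intro hk3
      exact absurd (Finset.mem_range.2 (Nat.lt_succ_of_le hkn)) hk3
  · rw [ind_not h]
    refine Finset.sum_eq_zero fun i hi => ind_not fun h1 => h ⟨i, ?_, h1.1⟩
    exact Nat.lt_succ_iff.1 (Finset.mem_range.1 hi)

theorem Fst_append {S : Type} (P : List S → Prop) (u v : List S) :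
    Fst P (u ++ v) u.length ↔ Fst P u u.length := by
  unfold Fst
  rw [List.take_left, List.take_length]
  refine and_congr_right fun _ => forall₂_congr fun j hj => ?_
  rw [List.take_append_of_le_length hj.le]

variable {S V : Type} [Fintype S] [AddCommGroup V] {Y : Sys S V} {Λ K : ℝ} {ρ : List S → ℝ}

/-- sum over the words whose prefix of length `i` is the first one with the property `P` -/
theorem E_Fst (Y : Sys S V) {α : List S → ℝ} (P : List S → Prop)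
    (hα : ∀ x n, (Y.E n fun v => α (x ++ v)) = α x) {i n : ℕ} (hi : i ≤ n) :
    (Y.E n fun w => α w * ind (Fst P w i)) = Y.E i fun u => α u * ind (Fst P u i) := by
  obtain ⟨k, rfl⟩ := Nat.exists_eq_add_of_le hi
  rw [Y.E_add]
  refine Y.E_congr fun u hu => ?_
  subst hu
  have h1 : ∀ v : List S, α (u ++ v) * ind (Fst P (u ++ v) u.length) =
      α (u ++ v) * ind (Fst P u u.length) := fun v => by rw [ind_congr (Fst_append P u v)]
  simp only [h1, Y.E_mul_right, hα]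

/-- (U4a) -/
theorem UU_mass_le (h : Bulk Y Λ ρ) (hK : ∀ n, Y.a n ≤ K) {ε : ℝ} (hε : 0 < ε) :
    ∃ C : ℝ, 0 ≤ C ∧ ∀ (n : ℕ) (B : List S → Prop),
      (Y.E n fun w => UU Y ρ w * ind (B w)) ≤ C * (Y.E n fun w => ρ w * ind (B w)) + ε := by
  obtain ⟨U', C, hC, h0, h1, h2, h3, h4⟩ := UU_split h hK hε
  refine ⟨C, hC, fun n B => ?_⟩
  have h5 : (Y.E n fun w => UU Y ρ w - U' w) ≤ ε := by
    rw [Y.E_fsub]
    have e1 := UU_right h hK [] n
    have e2 := h2 [] n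
    simp only [List.nil_append] at e1 e2
    rw [e1, e2]
    exact h4
  rw [← Y.E_mul_left]
  refine le_trans ?_ (add_le_add_right h5 _)
  rw [← Y.E_fadd]
  refine Y.E_mono fun w _ => ?_
  have e1 := ind_nonneg (B w)
  have e2 := ind_le_one (B w)
  have e3 := mul_le_mul_of_nonneg_right (h3 w) e1
  have e4 := mul_le_mul_of_nonneg_left e2 (sub_nonneg.2 (h1 w))
  nlinarith

/-- (TAU) -/
theorem UU_tau (h : Bulk Y Λ ρ) (hK : ∀ n, Y.a n ≤ K) {ε : ℝ} (hε : 0 < ε) :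
    ∃ C₁ : ℝ, 1 ≤ C₁ ∧ ∀ n : ℕ,
      (Y.E n fun w => UU Y ρ w * ind (∃ i ≤ n, C₁ * ρ (w.take i) < UU Y ρ (w.take i))) ≤ ε := by
  obtain ⟨U', C, hC, h0, h1, h2, h3, h4⟩ := UU_split h hK (half_pos hε)
  refine ⟨2 * C + 1, by linarith, fun n => ?_⟩
  set P : List S → Prop := fun u => (2 * C + 1) * ρ u < UU Y ρ u with hP
  have hU : ∀ x n, (Y.E n fun v => UU Y ρ (x ++ v)) = UU Y ρ x := fun x n => UU_right h hK x n
  have hD : ∀ x n, (Y.E n fun v => UU Y ρ (x ++ v) - U' (x ++ v)) = UU Y ρ x - U' x := by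
    intro x n
    rw [Y.E_fsub, hU, h2]
  have h5 : ∀ u, P u → UU Y ρ u ≤ 2 * (UU Y ρ u - U' u) := by
    intro u hu
    have e1 := h3 u
    have e2 := h.nonneg u
    simp only [hP] at hu
    nlinarith
  have e0 : (Y.E n fun w => UU Y ρ w * ind (∃ i ≤ n, P (w.take i))) =
      ∑ i ∈ range (n + 1), Y.E n fun w => UU Y ρ w * ind (Fst P w i) := by
    rw [← Y.E_fsum]
    refine Y.E_congr fun w _ => ?_
    rw [← sum_Fst, Finset.mul_sum]
  have e1 : ∀ i ∈ range (n + 1), (Y.E n fun w => UU Y ρ w * ind (Fst P w i)) ≤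
      2 * Y.E n fun w => (UU Y ρ w - U' w) * ind (Fst P w i) := by
    intro i hi
    have hi' : i ≤ n := Nat.lt_succ_iff.1 (Finset.mem_range.1 hi)
    rw [E_Fst Y P hU hi', E_Fst Y (α := fun w => UU Y ρ w - U' w) P hD hi', ← Y.E_mul_left]
    refine Y.E_mono fun u hu => ?_
    by_cases hF : Fst P u i
    · rw [ind_of hF, mul_one, mul_one]
      have h6 : P u := by
        have := hF.1
        rwa [List.take_of_length_le hu.le] at this
      exact h5 u h6
    · rw [ind_not hF, mul_zero, mul_zero, mul_zero]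
  have e2 : (∑ i ∈ range (n + 1), 2 * Y.E n fun w => (UU Y ρ w - U' w) * ind (Fst P w i)) =
      2 * Y.E n fun w => (UU Y ρ w - U' w) * ind (∃ i ≤ n, P (w.take i)) := by
    rw [← Finset.mul_sum, ← Y.E_fsum]
    congr 1
    refine Y.E_congr fun w _ => ?_
    rw [← sum_Fst, Finset.mul_sum]
  have e3 : (Y.E n fun w => (UU Y ρ w - U' w) * ind (∃ i ≤ n, P (w.take i))) ≤ ε / 2 := by
    have e4 : (Y.E n fun w => UU Y ρ w - U' w) ≤ ε / 2 := by
      have := hD [] n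
      simp only [List.nil_append] at this
      rw [this]
      exact h4
    refine le_trans (Y.E_mono fun w _ => ?_) e4
    exact mul_le_of_le_one_right (sub_nonneg.2 (h1 w)) (ind_le_one _)
  rw [e0]
  refine (Finset.sum_le_sum e1).trans ?_
  rw [e2]
  linarith

/-! ### Good words -/

/-- `w` is good -/
def good (Y : Sys S V) (ρ : List S → ℝ) (κ : ℝ) (w : List S) : Prop := κ ≤ UU Y ρ w

/-- (U5) suffixes of good words are good -/
theorem good_suffix (h : Bulk Y Λ ρ) (hK : ∀ n, Y.a n ≤ K) {κ : ℝ} {y x : List S}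
    (hg : good Y ρ κ (y ++ x)) : good Y ρ κ x := le_trans hg (UU_append_le h hK y x)

/-- (U5) factorisation at a good prefix -/
theorem UU_mul_le (h : Bulk Y Λ ρ) (hK : ∀ n, Y.a n ≤ K) {κ : ℝ} (hκ : 0 < κ) {y : List S}
    (x : List S) (hg : good Y ρ κ y) : UU Y ρ (y ++ x) ≤ κ⁻¹ * (UU Y ρ y * UU Y ρ x) := by
  refine (UU_append_le h hK y x).trans ?_
  rw [inv_mul_eq_div, le_div_iff₀ hκ, mul_comm]
  exact mul_le_mul_of_nonneg_right hg (UU_nonneg h hK x)

/-- (U5) most words are good -/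
theorem bad_le (h : Bulk Y Λ ρ) (hK : ∀ n, Y.a n ≤ K) {κ : ℝ} (hκ : 0 ≤ κ) (n : ℕ) :
    (Y.E n fun w => ρ w * ind (¬ good Y ρ κ w)) ≤ κ * K := by
  have h1 : (Y.E n fun w => ρ w * ind (¬ good Y ρ κ w)) ≤ Y.E n fun w => κ * Y.sv w := by
    refine Y.E_mono fun w _ => ?_
    by_cases hg : good Y ρ κ w
    · rw [ind_not (not_not.2 hg), mul_zero]
      exact mul_nonneg hκ (Y.sv_nonneg w)
    · rw [ind_of hg, mul_one]
      by_cases hw : Y.Saw w
      · have : Y.sv w = 1 := by simp [Sys.sv, hw]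
        rw [this, mul_one]
        exact (le_UU h hK w).trans (not_le.1 hg).le
      · have e1 : Y.sv w = 0 := by simp [Sys.sv, hw]
        have e2 := h.le w
        rw [e1, mul_zero] at e2
        rw [e1, mul_zero]
        exact e2
  refine h1.trans ?_
  rw [Y.E_mul_left]
  exact mul_le_mul_of_nonneg_left (hK n) hκ

/-- (U6) probability that a word of length `n` is not good -/
noncomputable def bn (Y : Sys S V) (ρ : List S → ℝ) (κ : ℝ) (n : ℕ) : ℝ :=
  Y.E n fun w => ρ w * ind (¬ good Y ρ κ w)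

theorem bn_nonneg (h : Bulk Y Λ ρ) (κ : ℝ) (n : ℕ) : 0 ≤ bn Y ρ κ n :=
  Y.E_nonneg' fun w => mul_nonneg (h.nonneg w) (ind_nonneg _)

/-- (U6) locality of goodness -/
theorem bn_local (h : Bulk Y Λ ρ) (hK : ∀ n, Y.a n ≤ K) (κ : ℝ) (m j : ℕ) :
    (Y.E m fun u => Y.E j fun v => ρ (u ++ v) * (ind (good Y ρ κ v) - ind (good Y ρ κ (u ++ v)))) =
      bn Y ρ κ (m + j) - bn Y ρ κ j := by
  have hnot : ∀ w, ind (good Y ρ κ w) = 1 - ind (¬ good Y ρ κ w) := by
    intro w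
    by_cases hg : good Y ρ κ w
    · rw [ind_of hg, ind_not (not_not.2 hg), sub_zero]
    · rw [ind_not hg, ind_of hg, sub_self]
  have e1 : (Y.E m fun u => Y.E j fun v => ρ (u ++ v) * ind (¬ good Y ρ κ v)) = bn Y ρ κ j := by
    rw [Y.E_comm]
    refine Y.E_congr fun v _ => ?_
    rw [Y.E_mul_right, h.left]
  have e2 : (Y.E m fun u => Y.E j fun v => ρ (u ++ v) * ind (¬ good Y ρ κ (u ++ v))) =
      bn Y ρ κ (m + j) := (Y.E_add m j fun w => ρ w * ind (¬ good Y ρ κ w)).symm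
  rw [← e1, ← e2, ← Y.E_fsub]
  refine Y.E_congr fun u _ => ?_
  rw [← Y.E_fsub]
  refine Y.E_congr fun v _ => ?_
  rw [hnot, hnot]
  ring

theorem good_diff_nonneg (h : Bulk Y Λ ρ) (hK : ∀ n, Y.a n ≤ K) (κ : ℝ) (u v : List S) :
    0 ≤ ind (good Y ρ κ v) - ind (good Y ρ κ (u ++ v)) :=
  sub_nonneg.2 (ind_mono fun hg => good_suffix h hK hg)

theorem bn_mono (h : Bulk Y Λ ρ) (hK : ∀ n, Y.a n ≤ K) (κ : ℝ) : Monotone (bn Y ρ κ) := by
  intro j n hjn
  obtain ⟨m, rfl⟩ := Nat.exists_eq_add_of_le' hjn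
  have h1 := bn_local h hK κ m j
  have h2 : 0 ≤ Y.E m fun u => Y.E j fun v => ρ (u ++ v) *
      (ind (good Y ρ κ v) - ind (good Y ρ κ (u ++ v))) :=
    Y.E_nonneg' fun u => Y.E_nonneg' fun v =>
      mul_nonneg (h.nonneg _) (good_diff_nonneg h hK κ u v)
  linarith

/-- the limit of `bn` -/
noncomputable def bb (Y : Sys S V) (ρ : List S → ℝ) (κ : ℝ) : ℝ := ⨆ n, bn Y ρ κ n

theorem bn_bdd (h : Bulk Y Λ ρ) (hK : ∀ n, Y.a n ≤ K) {κ : ℝ} (hκ : 0 ≤ κ) :
    BddAbove (Set.range (bn Y ρ κ)) :=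
  ⟨κ * K, by rintro _ ⟨n, rfl⟩; exact bad_le h hK hκ n⟩

theorem bn_tendsto (h : Bulk Y Λ ρ) (hK : ∀ n, Y.a n ≤ K) {κ : ℝ} (hκ : 0 ≤ κ) :
    Tendsto (bn Y ρ κ) atTop (𝓝 (bb Y ρ κ)) :=
  tendsto_atTop_ciSup (bn_mono h hK κ) (bn_bdd h hK hκ)

theorem bn_le_bb (h : Bulk Y Λ ρ) (hK : ∀ n, Y.a n ≤ K) {κ : ℝ} (hκ : 0 ≤ κ) (n : ℕ) :
    bn Y ρ κ n ≤ bb Y ρ κ := le_ciSup (bn_bdd h hK hκ) n

theorem bb_le (h : Bulk Y Λ ρ) (hK : ∀ n, Y.a n ≤ K) {κ : ℝ} (hκ : 0 ≤ κ) :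
    bb Y ρ κ ≤ κ * K := ciSup_le fun n => bad_le h hK hκ n

end Pool.Agent.SawM2
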