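import Pool.Agent.SawM2.GLow

/-!
# Records (section 4a)
-/

set_option autoImplicit false

namespace Pool.Agent.SawM2

open Finset Filter Pool.Agent.Bub4 Pool.Agent.SawDiff

variable {S V : Type} [Fintype S] [AddCommGroup V] {Y : Sys S V} {Λ K : ℝ} {ρ : List S → ℝ}
  {k : ℕ} {π : V →+ Zk k} {κ a : ℝ}

/-- GREC. If `EE N / N ^ c` is unbounded, there are arbitrarily large records at which it is as
large as we like. Proof: `g N = EE N / N ^ c`, `B'` larger than `B` and than all `g M`,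
`1 ≤ M ≤ N₀`; take the least `N ≥ 1` with `g N ≥ B'`. -/
theorem exists_rec {c : ℝ}
    (hu : ∀ B : ℝ, ∃ N : ℕ, 1 ≤ N ∧ B * (N : ℝ) ^ c ≤ EE Y π ρ κ a N) (B : ℝ) (N₀ : ℕ) :
    ∃ N : ℕ, N₀ ≤ N ∧ 1 ≤ N ∧ B * (N : ℝ) ^ c ≤ EE Y π ρ κ a N ∧ Rec Y π ρ κ a c N := by
  classical
  obtain ⟨B', hB'⟩ : ∃ B' : ℝ, B' = |B| + 1 +
      ∑ M ∈ range (N₀ + 1), |EE Y π ρ κ a M / (M : ℝ) ^ c| := ⟨_, rfl⟩
  have hs : 0 ≤ ∑ M ∈ range (N₀ + 1), |EE Y π ρ κ a M / (M : ℝ) ^ c| :=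
    Finset.sum_nonneg fun _ _ => abs_nonneg _
  have hBB : B ≤ B' := by
    have := le_abs_self B
    rw [hB']
    linarith
  have hex : ∃ N : ℕ, 1 ≤ N ∧ B' * (N : ℝ) ^ c ≤ EE Y π ρ κ a N := hu B'
  obtain ⟨N, hNdef⟩ : ∃ N, N = Nat.find hex := ⟨_, rfl⟩
  have hN : 1 ≤ N ∧ B' * (N : ℝ) ^ c ≤ EE Y π ρ κ a N := by
    rw [hNdef]
    exact Nat.find_spec hex
  have hmin : ∀ M < N, 1 ≤ M → EE Y π ρ κ a M < B' * (M : ℝ) ^ c := by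
    intro M hM hM1
    rw [hNdef] at hM
    have := Nat.find_min hex hM
    by_contra hcon
    exact this ⟨hM1, not_lt.1 hcon⟩
  have hpos : ∀ M : ℕ, 1 ≤ M → 0 < (M : ℝ) ^ c := by
    intro M hM
    have : (0 : ℝ) < M := by exact_mod_cast hM
    exact Real.rpow_pos_of_pos this c
  have hNN : N₀ ≤ N := by
    by_contra hcon
    push Not at hcon
    have h1 : |EE Y π ρ κ a N / (N : ℝ) ^ c| ≤
        ∑ M ∈ range (N₀ + 1), |EE Y π ρ κ a M / (M : ℝ) ^ c| :=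
      Finset.single_le_sum (f := fun M : ℕ => |EE Y π ρ κ a M / (M : ℝ) ^ c|)
        (fun _ _ => abs_nonneg _) (Finset.mem_range.2 (by omega))
    have h2 : EE Y π ρ κ a N / (N : ℝ) ^ c < B' := by
      have := le_abs_self (EE Y π ρ κ a N / (N : ℝ) ^ c)
      have := abs_nonneg B
      rw [hB']
      linarith
    rw [div_lt_iff₀ (hpos N hN.1)] at h2
    linarith [hN.2]
  refine ⟨N, hNN, hN.1, ?_, ?_⟩
  · exact (mul_le_mul_of_nonneg_right hBB (hpos N hN.1).le).trans hN.2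
  · intro M hM1 hMN
    rcases hMN.eq_or_lt with rfl | hlt
    · exact le_rfl
    · have h1 := (hmin M hlt hM1).le
      calc EE Y π ρ κ a M * (N : ℝ) ^ c ≤ B' * (M : ℝ) ^ c * (N : ℝ) ^ c :=
            mul_le_mul_of_nonneg_right h1 (hpos N hN.1).le
        _ = B' * (N : ℝ) ^ c * (M : ℝ) ^ c := by ring
        _ ≤ EE Y π ρ κ a N * (M : ℝ) ^ c :=
            mul_le_mul_of_nonneg_right hN.2 (hpos M hM1).le

/-- GREC. Records from small displacements: if for arbitrarily large `N` the mean absolute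
displacement is at most `C N ^ ν` for all lengths less than `N`, and `c < 2 - k ν`, there are
arbitrarily large records at which the energy is as large as we like. Proof: `EE_ge` with
`A = C N^ν`, `16 k A + 3 ≤ (16 k C + 3) N^ν`, so `EE N ≥ c' N^(2 - k ν)`; `exists_rec`. -/
theorem exists_rec_of_small (h : Bulk Y Λ ρ) (hK : ∀ n, Y.a n ≤ K) (hκ : 0 < κ)
    (hκK : κ * K ≤ 1 / 8) (ha0 : 0 < a) (ha1 : a < 1) {c ν C : ℝ} (hν : 0 ≤ ν) (hC : 0 ≤ C)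
    (hc : c < 2 - k * ν)
    (hX : ∀ N₀ : ℕ, ∃ N ≥ N₀, ∀ n < N, ∀ i : Fin k,
      (Y.E n fun w => ρ w * |((π (Y.sm w) i : ℤ) : ℝ)|) ≤ C * (N : ℝ) ^ ν) (B : ℝ) (N₀ : ℕ) :
    ∃ N : ℕ, N₀ ≤ N ∧ 1 ≤ N ∧ B * (N : ℝ) ^ c ≤ EE Y π ρ κ a N ∧ Rec Y π ρ κ a c N := by
  refine exists_rec (fun B => ?_) B N₀
  obtain ⟨Q, hQ⟩ : ∃ Q : ℝ, Q = (16 * k * C + 3) ^ k := ⟨_, rfl⟩
  have hQ0 : 0 < Q := by rw [hQ]; positivity
  have ht : Tendsto (fun N : ℕ => (N : ℝ) ^ (2 - k * ν - c)) atTop atTop :=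
    (tendsto_rpow_atTop (by linarith)).comp tendsto_natCast_atTop_atTop
  obtain ⟨N₁, hN₁⟩ := (ht.eventually_ge_atTop (2 * Q * B)).exists_forall_of_atTop
  obtain ⟨N, hN, hN2⟩ := hX (max N₁ 1)
  have hNge : N₁ ≤ N := (le_max_left _ _).trans hN
  have hN1 : 1 ≤ N := (le_max_right _ _).trans hN
  have hNr : (1 : ℝ) ≤ N := by exact_mod_cast hN1
  have hNpos : (0 : ℝ) < N := by linarith
  refine ⟨N, hN1, ?_⟩
  have hpow1 : (1 : ℝ) ≤ (N : ℝ) ^ ν := Real.one_le_rpow hNr hν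
  have h1 := EE_ge (π := π) h hK hκ hκK ha0 ha1 (N := N) (A := C * (N : ℝ) ^ ν)
    (by positivity) hN2
  have hen := EE_nonneg (Y := Y) (π := π) (ρ := ρ) (κ := κ) ha0 ha1 N
  have h2 : (16 * k * (C * (N : ℝ) ^ ν) + 3) ^ k ≤ Q * (N : ℝ) ^ (k * ν) := by
    have h3 : 16 * k * (C * (N : ℝ) ^ ν) + 3 ≤ (16 * k * C + 3) * (N : ℝ) ^ ν := by nlinarith
    have h4 : (16 * k * (C * (N : ℝ) ^ ν) + 3) ^ k ≤ ((16 * k * C + 3) * (N : ℝ) ^ ν) ^ k :=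
      pow_le_pow_left₀ (by positivity) h3 k
    refine h4.trans (le_of_eq ?_)
    rw [mul_pow, ← hQ, ← Real.rpow_natCast ((N : ℝ) ^ ν) k, ← Real.rpow_mul hNpos.le,
      mul_comm ν (k : ℝ)]
  have h3 : 1 / 2 * (N : ℝ) ^ 2 ≤ Q * (N : ℝ) ^ (k * ν) * EE Y π ρ κ a N :=
    h1.trans (mul_le_mul_of_nonneg_right h2 hen)
  have h4 : 2 * Q * B ≤ (N : ℝ) ^ (2 - k * ν - c) := hN₁ N hNge
  have h5 : (N : ℝ) ^ (2 - k * ν - c) * (N : ℝ) ^ c * (N : ℝ) ^ (k * ν) = (N : ℝ) ^ 2 := by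
    rw [← Real.rpow_add hNpos, ← Real.rpow_add hNpos, ← Real.rpow_natCast (N : ℝ) 2]
    congr 1
    push_cast
    ring
  have hp1 : 0 < (N : ℝ) ^ c := Real.rpow_pos_of_pos hNpos c
  have hp2 : 0 < (N : ℝ) ^ (k * ν) := Real.rpow_pos_of_pos hNpos _
  have h6 : 2 * Q * B * (N : ℝ) ^ c * (N : ℝ) ^ (k * ν) ≤
      2 * (Q * (N : ℝ) ^ (k * ν) * EE Y π ρ κ a N) := by
    have h7 : 2 * Q * B * (N : ℝ) ^ c * (N : ℝ) ^ (k * ν) ≤
        (N : ℝ) ^ (2 - k * ν - c) * (N : ℝ) ^ c * (N : ℝ) ^ (k * ν) :=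
      mul_le_mul_of_nonneg_right (mul_le_mul_of_nonneg_right h4 hp1.le) hp2.le
    rw [h5] at h7
    linarith
  have hqp : 0 < 2 * (Q * (N : ℝ) ^ (k * ν)) := by positivity
  refine le_of_mul_le_mul_left ?_ hqp
  calc 2 * (Q * (N : ℝ) ^ (k * ν)) * (B * (N : ℝ) ^ c) =
      2 * Q * B * (N : ℝ) ^ c * (N : ℝ) ^ (k * ν) := by ring
    _ ≤ 2 * (Q * (N : ℝ) ^ (k * ν) * EE Y π ρ κ a N) := h6
    _ = 2 * (Q * (N : ℝ) ^ (k * ν)) * EE Y π ρ κ a N := by ring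

/-- GREC. `EE M ≤ (M / N) ^ c EE N` -/
theorem Rec.le {c : ℝ} {M N : ℕ} (hr : Rec Y π ρ κ a c N) (hM : 1 ≤ M) (hMN : M ≤ N) :
    EE Y π ρ κ a M ≤ ((M : ℝ) / N) ^ c * EE Y π ρ κ a N := by
  have h1 := hr M hM hMN
  have hN : (0 : ℝ) < N := by exact_mod_cast lt_of_lt_of_le hM hMN
  rw [Real.div_rpow (Nat.cast_nonneg M) hN.le, div_mul_eq_mul_div,
    le_div_iff₀ (Real.rpow_pos_of_pos hN c), mul_comm ((M : ℝ) ^ c)]
  exact h1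

/-- GREC. `EE_rv`. -/
theorem Rec.rv {c : ℝ} {N : ℕ} (hr : Rec Y π ρ κ a c N) : Rec Y π (rv ρ) κ a c N := by
  intro M hM hMN
  rw [EE_rv, EE_rv]
  exact hr M hM hMN

end Pool.Agent.SawM2
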