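import Pool.Agent.SawM2.TgA

/-!
# Choice of coordinates modulo tight directions (section 5)
-/

set_option autoImplicit false

namespace Pool.Agent.SawM2

open Finset Filter Topology Pool.Agent.Bub4 Pool.Agent.SawDiff

section
variable {S V : Type} [Fintype S] [AddCommGroup V] {Y : Sys S V} {Λ K : ℝ} {ρ : List S → ℝ}

theorem Tgt.zero (Y : Sys S V) (ρ : List S → ℝ) : Tgt Y ρ fun _ => (0 : ℝ) := by
  intro ε hε
  refine ⟨0, fun n => ?_⟩
  have : ∀ w : List S, ρ w * ind ((0 : ℝ) < |(0 : ℝ)|) = 0 := by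
    intro w
    rw [ind_not (by simp), mul_zero]
  simp only [this, Y.E_zero_fun]
  exact hε.le

theorem Tgt.add (h : Bulk Y Λ ρ) {f g : V → ℝ} (hf : Tgt Y ρ f) (hg : Tgt Y ρ g) :
    Tgt Y ρ fun v => f v + g v := by
  intro ε hε
  obtain ⟨R, hR⟩ := hf (ε / 2) (by positivity)
  obtain ⟨R', hR'⟩ := hg (ε / 2) (by positivity)
  refine ⟨R + R', fun n => ?_⟩
  have h1 : (Y.E n fun w => ρ w * ind (R + R' < |f (Y.sm w) + g (Y.sm w)|)) ≤
      (Y.E n fun w => ρ w * ind (R < |f (Y.sm w)|)) +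
        Y.E n fun w => ρ w * ind (R' < |g (Y.sm w)|) := by
    rw [← Y.E_fadd]
    refine Y.E_mono fun w _ => ?_
    rw [← mul_add]
    refine mul_le_mul_of_nonneg_left ?_ (h.nonneg w)
    refine le_trans (ind_mono fun h2 => ?_) (ind_or_le _ _)
    by_contra hcon
    push Not at hcon
    have := abs_add_le (f (Y.sm w)) (g (Y.sm w))
    linarith [hcon.1, hcon.2]
  linarith [hR n, hR' n]

theorem Tgt.smul (h : Bulk Y Λ ρ) {f : V → ℝ} (hf : Tgt Y ρ f) (c : ℝ) :
    Tgt Y ρ fun v => c * f v := by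
  intro ε hε
  obtain ⟨R, hR⟩ := hf ε hε
  refine ⟨|c| * R, fun n => ?_⟩
  refine le_trans (Y.E_mono fun w _ => mul_le_mul_of_nonneg_left (ind_mono fun h2 => ?_)
    (h.nonneg w)) (hR n)
  rw [abs_mul] at h2
  exact lt_of_mul_lt_mul_left h2 (abs_nonneg c)

theorem Tgt.congr {f g : V → ℝ} (hf : Tgt Y ρ f) (hfg : ∀ v, f v = g v) : Tgt Y ρ g := by
  have : f = g := funext hfg
  rwa [← this]

end

section
variable {S : Type} [Fintype S] {d : ℕ} {Y : Sys S (Fin d → ℤ)} {Λ K : ℝ} {ρ : List S → ℝ}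

/-- the coordinates with the indices `e i` -/
def cI {d k : ℕ} (e : Fin k → Fin d) : (Fin d → ℤ) →+ Zk k where
  toFun x i := x (e i)
  map_zero' := rfl
  map_add' _ _ := rfl

@[simp] theorem cI_apply {k : ℕ} (e : Fin k → Fin d) (x : Fin d → ℤ) (i : Fin k) :
    cI e x i = x (e i) := rfl

theorem stp_cI {k : ℕ} (e : Fin k → Fin d) (h : ∀ s i, |Y.vec s i| ≤ 1) : Stp Y (cI e) :=
  fun s i => h s (e i)

/-- the directions in which the displacement is tight -/
def TgS (h : Bulk Y Λ ρ) : Submodule ℝ (Fin d → ℝ) where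
  carrier := {a | Tgt Y ρ fun v => dt a v}
  zero_mem' := by
    simp only [Set.mem_setOf_eq, dt_zero_left]
    exact Tgt.zero Y ρ
  add_mem' := by
    intro a b ha hb
    simp only [Set.mem_setOf_eq] at ha hb ⊢
    exact (Tgt.add h ha hb).congr fun v => (dt_add_left a b v).symm
  smul_mem' := by
    intro c a ha
    simp only [Set.mem_setOf_eq] at ha ⊢
    exact (Tgt.smul h ha c).congr fun v => (dt_smul_left c a v).symm

theorem dt_single (j : Fin d) (c : ℝ) (v : Fin d → ℤ) : dt (Pi.single j c) v = c * (v j : ℝ) := by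
  unfold dt
  rw [Finset.sum_eq_single j]
  · simp
  · intro i _ hi
    simp [Pi.single_eq_of_ne hi]
  · simp

theorem dt_sum {ι : Type} (s : Finset ι) (a : ι → Fin d → ℝ) (v : Fin d → ℤ) :
    dt (∑ i ∈ s, a i) v = ∑ i ∈ s, dt (a i) v := by
  classical
  induction s using Finset.induction_on with
  | empty => simp
  | insert i s hi ih => rw [Finset.sum_insert hi, Finset.sum_insert hi, dt_add_left, ih]

/-- CHOICE OF COORDINATES: some coordinates such that no linear combination of them is tight, while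
every other coordinate is a linear combination of them up to a tight function. There is at least
one of them if the displacement is not tight. -/
theorem exists_coord (h : Bulk Y Λ ρ)
    (htr : ∀ (R : ℕ) (ε : ℝ), 0 < ε → ∃ n, (Y.E n fun w => ρ w * ind (∀ i, |Y.sm w i| ≤ (R : ℤ))) ≤ ε) :
    ∃ (k : ℕ) (e : Fin k → Fin d), Function.Injective e ∧ 1 ≤ k ∧ Ntg Y (cI e) ρ ∧
      ∀ j : Fin d, ∃ c : Rk k, Tgt Y ρ fun v => (v j : ℝ) - ∑ i, c i * (v (e i) : ℝ) := by
  classical
  set T := TgS h with hT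
  set q : Fin d → (Fin d → ℝ) ⧸ T := fun j => T.mkQ (Pi.single j 1) with hq
  obtain ⟨κ, a, hinj, hspan, hli⟩ := exists_linearIndependent' ℝ q
  have hfin : Finite κ := Finite.of_injective a hinj
  obtain ⟨k, ⟨φ⟩⟩ : ∃ k, Nonempty (Fin k ≃ κ) := by
    obtain ⟨k, ⟨φ⟩⟩ := Finite.exists_equiv_fin κ
    exact ⟨k, ⟨φ.symm⟩⟩
  set e : Fin k → Fin d := fun i => a (φ i) with he
  have heinj : Function.Injective e := hinj.comp φ.injective
  have hli' : LinearIndependent ℝ fun i => q (e i) := hli.comp φ φ.injective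
  have hrange : Set.range (q ∘ a) = Set.range fun i => q (e i) := by
    ext x
    constructor
    · rintro ⟨y, rfl⟩
      exact ⟨φ.symm y, by simp [he]⟩
    · rintro ⟨y, rfl⟩
      exact ⟨φ y, rfl⟩
  have hmem : ∀ j, q j ∈ Submodule.span ℝ (Set.range fun i => q (e i)) := by
    intro j
    rw [← hrange, hspan]
    exact Submodule.subset_span ⟨j, rfl⟩
  -- linear combinations
  have hcomb : ∀ (c : Rk k) (v : Fin d → ℤ),
      dt (∑ i, c i • (Pi.single (e i) (1 : ℝ) : Fin d → ℝ)) v = ∑ i, c i * (v (e i) : ℝ) := by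
    intro c v
    rw [dt_sum]
    refine Finset.sum_congr rfl fun i _ => ?_
    rw [dt_smul_left, dt_single, one_mul]
  have hother : ∀ j : Fin d, ∃ c : Rk k,
      Tgt Y ρ fun v => (v j : ℝ) - ∑ i, c i * (v (e i) : ℝ) := by
    intro j
    obtain ⟨c, hc⟩ := (Submodule.mem_span_range_iff_exists_fun ℝ).1 (hmem j)
    refine ⟨c, ?_⟩
    have h1 : (Pi.single j (1 : ℝ) : Fin d → ℝ) -
        ∑ i, c i • (Pi.single (e i) (1 : ℝ) : Fin d → ℝ) ∈ T := by
      rw [← Submodule.ker_mkQ T, LinearMap.mem_ker, map_sub, map_sum, sub_eq_zero]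
      simp only [map_smul]
      exact hc.symm
    have h2 : Tgt Y ρ fun v => dt ((Pi.single j (1 : ℝ) : Fin d → ℝ) -
        ∑ i, c i • (Pi.single (e i) (1 : ℝ) : Fin d → ℝ)) v := h1
    refine h2.congr fun v => ?_
    rw [dt_sub_left, hcomb, dt_single, one_mul]
  refine ⟨k, e, heinj, ?_, ?_, hother⟩
  · -- at least one coordinate
    by_contra hk
    have hk0 : k = 0 := by omega
    subst hk0
    have htight : ∀ j : Fin d, Tgt Y ρ fun v => (v j : ℝ) := by
      intro j
      obtain ⟨c, hc⟩ := hother j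
      exact hc.congr fun v => by simp
    have hε : (0 : ℝ) < 1 / (2 * ((d : ℝ) + 1)) := by positivity
    choose R hR using fun j => htight j _ hε
    obtain ⟨M, hM⟩ := exists_nat_ge (∑ j, |R j|)
    obtain ⟨n, hn⟩ := htr M (1 / 4) (by norm_num)
    have hRM : ∀ j, R j ≤ M := by
      intro j
      have h1 : |R j| ≤ ∑ j, |R j| :=
        Finset.single_le_sum (f := fun j => |R j|) (fun _ _ => abs_nonneg _) (Finset.mem_univ j)
      exact (le_abs_self _).trans (h1.trans hM)
    have h1 : (1 : ℝ) ≤ (Y.E n fun w => ρ w * ind (∀ i, |Y.sm w i| ≤ (M : ℤ))) +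
        ∑ j, Y.E n fun w => ρ w * ind (R j < |((Y.sm w j : ℤ) : ℝ)|) := by
      rw [← Y.E_fsum, ← Y.E_fadd, ← h.mass n]
      refine Y.E_mono fun w _ => ?_
      rw [← Finset.mul_sum, ← mul_add]
      refine le_mul_of_one_le_right (h.nonneg w) ?_
      by_cases hw : ∀ i, |Y.sm w i| ≤ (M : ℤ)
      · rw [ind_of hw]
        have : 0 ≤ ∑ j, ind (R j < |((Y.sm w j : ℤ) : ℝ)|) :=
          Finset.sum_nonneg fun _ _ => ind_nonneg _
        linarith
      · push Not at hw
        obtain ⟨j, hj⟩ := hw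
        have h2 : R j < |((Y.sm w j : ℤ) : ℝ)| := by
          have h3 : ((M : ℤ) : ℝ) < ((|Y.sm w j| : ℤ) : ℝ) := by exact_mod_cast hj
          rw [Int.cast_abs] at h3
          push_cast at h3
          exact lt_of_le_of_lt (hRM j) h3
        have h3 : ind (R j < |((Y.sm w j : ℤ) : ℝ)|) ≤
            ∑ j, ind (R j < |((Y.sm w j : ℤ) : ℝ)|) :=
          Finset.single_le_sum (f := fun j => ind (R j < |((Y.sm w j : ℤ) : ℝ)|))
            (fun _ _ => ind_nonneg _) (Finset.mem_univ j)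
        rw [ind_of h2] at h3
        linarith [ind_nonneg (∀ i, |Y.sm w i| ≤ (M : ℤ))]
    have h2 : (∑ j, Y.E n fun w => ρ w * ind (R j < |((Y.sm w j : ℤ) : ℝ)|)) ≤ 1 / 2 := by
      refine (Finset.sum_le_sum fun j _ => hR j n).trans ?_
      rw [Finset.sum_const, Finset.card_univ, Fintype.card_fin, nsmul_eq_mul]
      rw [mul_one_div, div_le_div_iff₀ (by positivity) (by norm_num)]
      linarith
    linarith
  · -- no tight combination
    intro c hc htc
    have h1 : Tgt Y ρ fun v => dt (∑ i, c i • (Pi.single (e i) (1 : ℝ) : Fin d → ℝ)) v := by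
      refine htc.congr fun v => ?_
      rw [hcomb]
      rfl
    have h2 : (∑ i, c i • (Pi.single (e i) (1 : ℝ) : Fin d → ℝ)) ∈ T := h1
    rw [← Submodule.ker_mkQ T, LinearMap.mem_ker, map_sum] at h2
    simp only [map_smul] at h2
    have h3 := (Fintype.linearIndependent_iff.1 hli') c h2
    exact hc (funext h3)

end

end Pool.Agent.SawM2
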