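import Pool.Agent.SawM2.Defs

/-!
# First facts on finite families of weighted lattice points
-/

set_option autoImplicit false

namespace Pool.Agent.SawM2

open Finset Pool.Agent.Bub4 Pool.Agent.SawDiff

section lattice

variable {k : ℕ}

@[simp] theorem n1_zero : n1 (0 : Zk k) = 0 := by simp [n1]

@[simp] theorem n1_neg (x : Zk k) : n1 (-x) = n1 x := by simp [n1]

theorem n1_sub_comm (x y : Zk k) : n1 (x - y) = n1 (y - x) := by rw [← n1_neg, neg_sub]

theorem n1_add_le (x y : Zk k) : n1 (x + y) ≤ n1 x + n1 y := by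
  unfold n1
  rw [← Finset.sum_add_distrib]
  exact Finset.sum_le_sum fun i _ => Int.natAbs_add_le _ _

theorem n1_sub_le (x y : Zk k) : n1 (x - y) ≤ n1 x + n1 y := by
  rw [sub_eq_add_neg]
  exact (n1_add_le _ _).trans (by rw [n1_neg])

theorem natAbs_le_n1 (x : Zk k) (i : Fin k) : (x i).natAbs ≤ n1 x :=
  Finset.single_le_sum (f := fun i => (x i).natAbs) (fun _ _ => Nat.zero_le _) (Finset.mem_univ i)

theorem n1_le_mul (x : Zk k) {m : ℕ} (h : ∀ i, (x i).natAbs ≤ m) : n1 x ≤ k * m := by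
  unfold n1
  refine (Finset.sum_le_sum fun i _ => h i).trans ?_
  simp

@[simp] theorem dt_zero_right (θ : Rk k) : dt θ 0 = 0 := by simp [dt]

@[simp] theorem dt_zero_left (x : Zk k) : dt (0 : Rk k) x = 0 := by simp [dt]

theorem dt_add_right (θ : Rk k) (x y : Zk k) : dt θ (x + y) = dt θ x + dt θ y := by
  simp [dt, mul_add, Finset.sum_add_distrib]

theorem dt_sub_right (θ : Rk k) (x y : Zk k) : dt θ (x - y) = dt θ x - dt θ y := by
  simp [dt, mul_sub, Finset.sum_sub_distrib]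

@[simp] theorem dt_neg_right (θ : Rk k) (x : Zk k) : dt θ (-x) = - dt θ x := by
  simp [dt]

theorem dt_add_left (θ η : Rk k) (x : Zk k) : dt (θ + η) x = dt θ x + dt η x := by
  simp [dt, add_mul, Finset.sum_add_distrib]

theorem dt_sub_left (θ η : Rk k) (x : Zk k) : dt (θ - η) x = dt θ x - dt η x := by
  simp [dt, sub_mul, Finset.sum_sub_distrib]

@[simp] theorem dt_neg_left (θ : Rk k) (x : Zk k) : dt (-θ) x = - dt θ x := by
  simp [dt]

theorem dt_smul_left (r : ℝ) (θ : Rk k) (x : Zk k) : dt (r • θ) x = r * dt θ x := by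
  simp [dt, mul_assoc, Finset.mul_sum]

theorem abs_dt_le {d : ℝ} {θ : Rk k} (h : ∀ i, |θ i| ≤ d) (x : Zk k) : |dt θ x| ≤ d * n1 x := by
  unfold dt n1
  refine (Finset.abs_sum_le_sum_abs _ _).trans ?_
  push_cast
  rw [Finset.mul_sum]
  refine Finset.sum_le_sum fun i _ => ?_
  rw [abs_mul]
  have h1 : |((x i : ℤ) : ℝ)| = (((x i).natAbs : ℕ) : ℝ) := by
    rw [Nat.cast_natAbs]; push_cast; rfl
  rw [h1]
  exact mul_le_mul_of_nonneg_right (h i) (Nat.cast_nonneg _)

variable {a : ℝ}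

theorem ker_nonneg (ha : 0 ≤ a) (x : Zk k) : 0 ≤ ker a x := pow_nonneg ha _

theorem ker_pos (ha : 0 < a) (x : Zk k) : 0 < ker a x := pow_pos ha _

theorem ker_le_one (ha : 0 ≤ a) (ha1 : a ≤ 1) (x : Zk k) : ker a x ≤ 1 := pow_le_one₀ ha ha1

@[simp] theorem ker_zero (a : ℝ) : ker a (0 : Zk k) = 1 := by simp [ker]

@[simp] theorem ker_neg (a : ℝ) (x : Zk k) : ker a (-x) = ker a x := by simp [ker]

theorem ker_sub_comm (a : ℝ) (x y : Zk k) : ker a (x - y) = ker a (y - x) := by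
  unfold ker; rw [n1_sub_comm]

theorem ker_le_of_n1 (ha : 0 ≤ a) (ha1 : a ≤ 1) {x y : Zk k} (h : n1 y ≤ n1 x) :
    ker a x ≤ ker a y := pow_le_pow_of_le_one ha ha1 h

theorem ker_mul_le_add (ha : 0 ≤ a) (ha1 : a ≤ 1) (x y : Zk k) :
    ker a x * ker a y ≤ ker a (x + y) := by
  unfold ker
  rw [← pow_add]
  exact pow_le_pow_of_le_one ha ha1 (n1_add_le x y)

/-- the kernel varies at most by the factor `a` per step -/
theorem ker_slo (ha : 0 ≤ a) (ha1 : a ≤ 1) (z : Zk k) : Slo a fun x => ker a (z - x) := by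
  intro x y
  have h := ker_mul_le_add ha ha1 (x - y) (z - x)
  have e : x - y + (z - x) = z - y := by abel
  rw [e] at h
  exact h

/-- `K p * K (p + r) ≤ K' p * K' r`, where `K'` is the kernel for `√a` -/
theorem ker_mul_ker_le (ha : 0 ≤ a) (ha1 : a ≤ 1) (p r : Zk k) :
    ker a p * ker a (p + r) ≤ ker (Real.sqrt a) p * ker (Real.sqrt a) r := by
  have hs0 : 0 ≤ Real.sqrt a := Real.sqrt_nonneg a
  have hs1 : Real.sqrt a ≤ 1 := by rw [Real.sqrt_le_one]; exact ha1
  have h1 : ∀ x : Zk k, ker a x = Real.sqrt a ^ (2 * n1 x) := by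
    intro x
    unfold ker
    rw [pow_mul, Real.sq_sqrt ha]
  rw [h1, h1]
  unfold ker
  rw [← pow_add, ← pow_add]
  refine pow_le_pow_of_le_one hs0 hs1 ?_
  have h2 : n1 r ≤ n1 (p + r) + n1 p := by
    have := n1_sub_le (p + r) p
    simpa using this
  omega

end lattice

section Lip

variable {k : ℕ} {L a : ℝ} {h : Zk k → ℝ}

theorem Lip.mono {L' : ℝ} (hl : Lip L h) (h0 : 0 < L') (hL : L' ≤ L) : Lip L' h := by
  intro x y
  refine (hl x y).trans ?_
  exact div_le_div_of_nonneg_left (Nat.cast_nonneg _) h0 hL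

theorem Lip.neg (hl : Lip L h) : Lip L fun x => - h x := by
  intro x y
  have := hl y x
  rw [n1_sub_comm]
  refine le_trans (le_of_eq ?_) this
  rw [show - h x - - h y = h y - h x by ring]

theorem Lip.shift (hl : Lip L h) (z : Zk k) : Lip L fun x => h (x + z) := by
  intro x y
  have := hl (x + z) (y + z)
  simpa using this

theorem Lip.const (L c : ℝ) (hL : 0 < L) : Lip L fun _ : Zk k => c := by
  intro x y
  simp only [sub_self, abs_zero]
  positivity

/-- a nonnegative slowly varying function bounded by `B` is Lipschitz -/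
theorem Slo.lip (hs : Slo a h) (ha : 0 ≤ a) (ha1 : a ≤ 1) {B : ℝ} (h0 : ∀ x, 0 ≤ h x)
    (hB : ∀ x, h x ≤ B) (x y : Zk k) : |h x - h y| ≤ B * (n1 (x - y) * (1 - a)) := by
  have hb : ∀ n : ℕ, 1 - a ^ n ≤ n * (1 - a) := by
    intro n
    have := one_add_mul_le_pow (a := a - 1) (by linarith) n
    rw [show (1 : ℝ) + (a - 1) = a by ring] at this
    linarith
  have key : ∀ x y : Zk k, h x - h y ≤ B * (n1 (x - y) * (1 - a)) := by
    intro x y
    have h1 := hs x y
    have h2 : h x - h y ≤ h x * (1 - a ^ n1 (x - y)) := by linarith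
    refine h2.trans ?_
    have h3 := hb (n1 (x - y))
    have h4 : 0 ≤ (n1 (x - y) : ℝ) * (1 - a) := mul_nonneg (Nat.cast_nonneg _) (by linarith)
    calc h x * (1 - a ^ n1 (x - y)) ≤ h x * (n1 (x - y) * (1 - a)) :=
          mul_le_mul_of_nonneg_left h3 (h0 x)
      _ ≤ B * (n1 (x - y) * (1 - a)) := mul_le_mul_of_nonneg_right (hB x) h4
  rw [abs_le]
  constructor
  · have := key y x
    rw [n1_sub_comm] at this
    linarith
  · exact key x y

end Lip

namespace Fm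

variable {k : ℕ} (μ ν : Fm k)

theorem pr_conv (h : Zk k → ℝ) :
    (conv μ ν).pr h = μ.pr fun x => ν.pr fun y => h (x + y) := by
  unfold pr conv
  rw [Fintype.sum_prod_type]
  refine Finset.sum_congr rfl fun i _ => ?_
  rw [Finset.mul_sum]
  refine Finset.sum_congr rfl fun j _ => ?_
  ring

theorem pr_add (h : Zk k → ℝ) : (add μ ν).pr h = μ.pr h + ν.pr h := by
  unfold pr add
  rw [Fintype.sum_sum_type]
  simp

theorem pr_smul (r : ℝ) (h : Zk k → ℝ) : (smul r μ).pr h = r * μ.pr h := by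
  unfold pr smul
  rw [Finset.mul_sum]
  exact Finset.sum_congr rfl fun i _ => by ring

theorem pr_sub (h : Zk k → ℝ) : (sub μ ν).pr h = μ.pr h - ν.pr h := by
  unfold sub
  rw [pr_add, pr_smul]; ring

theorem pr_bs {κ : Type} (s : Finset κ) (M : κ → Fm k) (h : Zk k → ℝ) :
    (bs s M).pr h = ∑ j ∈ s, (M j).pr h := by
  have h1 : (bs s M).pr h = ∑ j : s, (M j).pr h := by
    unfold pr bs
    rw [Fintype.sum_sigma]
  rw [h1]
  exact Finset.sum_coe_sort s fun j => (M j).pr h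

theorem mass_eq : μ.mass = μ.pr fun _ => 1 := by simp [mass, pr]

theorem mass_conv : (conv μ ν).mass = μ.mass * ν.mass := by
  rw [mass_eq, pr_conv]
  unfold mass pr
  rw [Finset.sum_mul]
  refine Finset.sum_congr rfl fun i _ => ?_
  simp

theorem mass_add : (add μ ν).mass = μ.mass + ν.mass := by
  rw [mass_eq, pr_add, ← mass_eq, ← mass_eq]

theorem mass_smul (r : ℝ) : (smul r μ).mass = r * μ.mass := by
  rw [mass_eq, pr_smul, ← mass_eq]

theorem mass_bs {κ : Type} (s : Finset κ) (M : κ → Fm k) :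
    (bs s M).mass = ∑ j ∈ s, (M j).mass := by
  rw [mass_eq, pr_bs]
  exact Finset.sum_congr rfl fun j _ => ((M j).mass_eq).symm

theorem pr_fadd (f g : Zk k → ℝ) : (μ.pr fun x => f x + g x) = μ.pr f + μ.pr g := by
  unfold pr
  rw [← Finset.sum_add_distrib]
  exact Finset.sum_congr rfl fun i _ => by ring

theorem pr_fsub (f g : Zk k → ℝ) : (μ.pr fun x => f x - g x) = μ.pr f - μ.pr g := by
  unfold pr
  rw [← Finset.sum_sub_distrib]
  exact Finset.sum_congr rfl fun i _ => by ring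

theorem pr_fneg (f : Zk k → ℝ) : (μ.pr fun x => - f x) = - μ.pr f := by
  unfold pr
  rw [← Finset.sum_neg_distrib]
  exact Finset.sum_congr rfl fun i _ => by ring

theorem pr_mul_left (c : ℝ) (f : Zk k → ℝ) : (μ.pr fun x => c * f x) = c * μ.pr f := by
  unfold pr
  rw [Finset.mul_sum]
  exact Finset.sum_congr rfl fun i _ => by ring

theorem pr_mul_right (c : ℝ) (f : Zk k → ℝ) : (μ.pr fun x => f x * c) = μ.pr f * c := by
  unfold pr
  rw [Finset.sum_mul]
  exact Finset.sum_congr rfl fun i _ => by ring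

theorem pr_const (c : ℝ) : (μ.pr fun _ => c) = μ.mass * c := by
  unfold pr mass
  rw [Finset.sum_mul]

theorem pr_fsum {κ : Type} (s : Finset κ) (f : κ → Zk k → ℝ) :
    (μ.pr fun x => ∑ j ∈ s, f j x) = ∑ j ∈ s, μ.pr (f j) := by
  unfold pr
  rw [Finset.sum_comm]
  exact Finset.sum_congr rfl fun i _ => by rw [Finset.mul_sum]

theorem pr_congr {f g : Zk k → ℝ} (h : ∀ x, f x = g x) : μ.pr f = μ.pr g := by
  unfold pr
  exact Finset.sum_congr rfl fun i _ => by rw [h]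

theorem pr_comm (F : Zk k → Zk k → ℝ) :
    (μ.pr fun x => ν.pr fun y => F x y) = ν.pr fun y => μ.pr fun x => F x y := by
  unfold pr
  simp only [Finset.mul_sum]
  rw [Finset.sum_comm]
  refine Finset.sum_congr rfl fun i _ => Finset.sum_congr rfl fun j _ => ?_
  ring

variable {μ ν}

theorem Nn.pr_mono (hμ : μ.Nn) {f g : Zk k → ℝ} (h : ∀ x, f x ≤ g x) : μ.pr f ≤ μ.pr g :=
  Finset.sum_le_sum fun i _ => mul_le_mul_of_nonneg_left (h _) (hμ i)

theorem Nn.pr_nonneg (hμ : μ.Nn) {f : Zk k → ℝ} (h : ∀ x, 0 ≤ f x) : 0 ≤ μ.pr f :=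
  Finset.sum_nonneg fun i _ => mul_nonneg (hμ i) (h _)

theorem Nn.mass_nonneg (hμ : μ.Nn) : 0 ≤ μ.mass := Finset.sum_nonneg fun i _ => hμ i

theorem Nn.pr_le (hμ : μ.Nn) {f : Zk k → ℝ} {B : ℝ} (h : ∀ x, f x ≤ B) : μ.pr f ≤ μ.mass * B := by
  rw [← pr_const]
  exact hμ.pr_mono h

theorem Nn.abs_pr_le (hμ : μ.Nn) (f : Zk k → ℝ) : |μ.pr f| ≤ μ.pr fun x => |f x| := by
  unfold pr
  refine (Finset.abs_sum_le_sum_abs _ _).trans (Finset.sum_le_sum fun i _ => ?_)
  rw [abs_mul, abs_of_nonneg (hμ i)]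

theorem Nn.conv (hμ : μ.Nn) (hν : ν.Nn) : (conv μ ν).Nn := fun i => mul_nonneg (hμ i.1) (hν i.2)

theorem Nn.add (hμ : μ.Nn) (hν : ν.Nn) : (add μ ν).Nn := by
  intro i
  cases i with
  | inl i => exact hμ i
  | inr i => exact hν i

theorem Nn.smul (hμ : μ.Nn) {r : ℝ} (hr : 0 ≤ r) : (smul r μ).Nn := fun i => mul_nonneg hr (hμ i)

theorem Nn.bs {κ : Type} {s : Finset κ} {M : κ → Fm k} (h : ∀ j ∈ s, (M j).Nn) : (bs s M).Nn :=
  fun i => h i.1 i.1.2 i.2

theorem Dom.refl (μ : Fm k) : μ.Dom μ := fun _ _ => le_rfl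

theorem Dom.trans {μ ν σ : Fm k} (h : μ.Dom ν) (h' : ν.Dom σ) : μ.Dom σ := fun f hf =>
  (h f hf).trans (h' f hf)

/-- convolution with a slowly varying kernel is slowly varying -/
theorem Nn.slo_pr (hμ : μ.Nn) {a : ℝ} {F : Zk k → Zk k → ℝ} (h : ∀ x, Slo a fun z => F z x) :
    Slo a fun z => μ.pr fun x => F z x := by
  intro z z'
  rw [← pr_mul_left]
  exact hμ.pr_mono fun x => h x z z'

section ft

theorem ft_conv (μ ν : Fm k) (θ : Rk k) : (Fm.conv μ ν).ft θ = μ.ft θ * ν.ft θ := by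
  unfold ft Fm.conv
  rw [Fintype.sum_prod_type, Finset.sum_mul_sum]
  refine Finset.sum_congr rfl fun i _ => Finset.sum_congr rfl fun j _ => ?_
  simp only [dt_add_right]
  push_cast
  rw [mul_add, Complex.exp_add]
  ring

theorem ft_add (μ ν : Fm k) (θ : Rk k) : (Fm.add μ ν).ft θ = μ.ft θ + ν.ft θ := by
  unfold ft Fm.add
  rw [Fintype.sum_sum_type]
  simp

theorem ft_smul (r : ℝ) (μ : Fm k) (θ : Rk k) : (Fm.smul r μ).ft θ = r * μ.ft θ := by
  unfold ft Fm.smul
  rw [Finset.mul_sum]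
  refine Finset.sum_congr rfl fun i _ => ?_
  push_cast
  ring

theorem ft_sub (μ ν : Fm k) (θ : Rk k) : (Fm.sub μ ν).ft θ = μ.ft θ - ν.ft θ := by
  unfold Fm.sub
  rw [ft_add, ft_smul]
  push_cast
  ring

theorem ft_bs {κ : Type} (s : Finset κ) (M : κ → Fm k) (θ : Rk k) :
    (Fm.bs s M).ft θ = ∑ j ∈ s, (M j).ft θ := by
  have h1 : (Fm.bs s M).ft θ = ∑ j : s, (M j).ft θ := by
    unfold ft Fm.bs
    rw [Fintype.sum_sigma]
  rw [h1]
  exact Finset.sum_coe_sort s fun j => (M j).ft θ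

theorem ft_zero (μ : Fm k) : μ.ft 0 = (μ.mass : ℂ) := by
  unfold ft mass
  push_cast
  exact Finset.sum_congr rfl fun i _ => by simp

theorem Nn.norm_ft_le (hμ : μ.Nn) (θ : Rk k) : ‖μ.ft θ‖ ≤ μ.mass := by
  unfold ft mass
  refine (norm_sum_le _ _).trans (Finset.sum_le_sum fun i _ => ?_)
  rw [norm_mul, mul_comm Complex.I, Complex.norm_exp_ofReal_mul_I, mul_one, Complex.norm_real,
    Real.norm_eq_abs, abs_of_nonneg (hμ i)]

theorem ft_neg (μ : Fm k) (θ : Rk k) : μ.ft (-θ) = (starRingEnd ℂ) (μ.ft θ) := by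
  unfold ft
  rw [map_sum]
  refine Finset.sum_congr rfl fun i _ => ?_
  rw [map_mul, Complex.conj_ofReal, ← Complex.exp_conj]
  simp

theorem continuous_ft (μ : Fm k) : Continuous μ.ft := by
  unfold ft dt
  fun_prop

/-- real part -/
theorem re_ft (μ : Fm k) (θ : Rk k) : (μ.ft θ).re = μ.pr fun x => Real.cos (dt θ x) := by
  unfold ft pr
  rw [Complex.re_sum]
  refine Finset.sum_congr rfl fun i _ => ?_
  rw [Complex.re_ofReal_mul, mul_comm Complex.I, Complex.exp_ofReal_mul_I_re]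

/-- imaginary part -/
theorem im_ft (μ : Fm k) (θ : Rk k) : (μ.ft θ).im = μ.pr fun x => Real.sin (dt θ x) := by
  unfold ft pr
  rw [Complex.im_sum]
  refine Finset.sum_congr rfl fun i _ => ?_
  rw [Complex.im_ofReal_mul, mul_comm Complex.I, Complex.exp_ofReal_mul_I_im]

end ft

end Fm

section words

variable {S V : Type} [Fintype S] [AddCommGroup V] {k : ℕ} (Y : Sys S V) (π : V →+ Zk k)

theorem pr_lw (F : List S → ℝ) (n : ℕ) (h : Zk k → ℝ) :
    (lw Y π F n).pr h = Y.E n fun w => F w * h (π (Y.sm w)) := by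
  rw [Y.E_eq]
  unfold Fm.pr lw
  exact Finset.sum_congr rfl fun w _ => by ring

theorem mass_lw (F : List S → ℝ) (n : ℕ) : (lw Y π F n).mass = Y.E n F := by
  rw [Fm.mass_eq, pr_lw]
  simp

theorem nn_lw {F : List S → ℝ} (hF : ∀ w, 0 ≤ F w) (n : ℕ) : (lw Y π F n).Nn := fun w =>
  mul_nonneg (pow_pos Y.z_pos n).le (hF _)

theorem dom_lw {F G : List S → ℝ} (n : ℕ) (h : ∀ w, w.length = n → F w ≤ G w) :
    (lw Y π F n).Dom (lw Y π G n) := by
  intro f hf
  rw [pr_lw, pr_lw]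
  exact Y.E_mono fun w hw => mul_le_mul_of_nonneg_right (h w hw) (hf _)

end words

end Pool.Agent.SawM2
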