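import Pool.Agent.SawM2.NTwo

/-!
# Concentration of the displacement at one length gives concentration at all smaller lengths
-/

set_option autoImplicit false

namespace Pool.Agent.SawM2

open Finset Filter Pool.Agent.Bub4 Pool.Agent.SawDiff

/-- cut-off: `0` for `|y| ≤ b`, `1` for `|y| ≥ b + R` -/
noncomputable def cf (b R y : ℝ) : ℝ := max 0 (min 1 ((|y| - b) / R))

theorem cf_nonneg (b R y : ℝ) : 0 ≤ cf b R y := le_max_left _ _

theorem cf_le_one (b R y : ℝ) : cf b R y ≤ 1 := max_le zero_le_one (min_le_left _ _)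

theorem cf_abs (b R y : ℝ) : |cf b R y| ≤ 1 := by
  rw [abs_of_nonneg (cf_nonneg _ _ _)]; exact cf_le_one _ _ _

theorem cf_le_ind {b R : ℝ} (hR : 0 < R) (y : ℝ) : cf b R y ≤ ind (b < |y|) := by
  by_cases h : b < |y|
  · rw [ind_of h]; exact cf_le_one _ _ _
  · rw [ind_not h]
    push Not at h
    unfold cf
    refine max_le le_rfl (le_trans (min_le_right _ _) ?_)
    exact div_nonpos_of_nonpos_of_nonneg (by linarith) hR.le

theorem ind_le_cf {b R : ℝ} (hR : 0 < R) (y : ℝ) : ind (b + R ≤ |y|) ≤ cf b R y := by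
  by_cases h : b + R ≤ |y|
  · rw [ind_of h]
    unfold cf
    refine le_trans ?_ (le_max_right _ _)
    refine le_min le_rfl ?_
    rw [le_div_iff₀ hR]
    linarith
  · rw [ind_not h]; exact cf_nonneg _ _ _

theorem cf_lip {b R : ℝ} (hR : 0 < R) (x y : ℝ) : |cf b R x - cf b R y| ≤ |x - y| / R := by
  unfold cf
  have h2 : |(|x| - b) / R - (|y| - b) / R| ≤ |x - y| / R := by
    rw [← sub_div, abs_div, abs_of_pos hR]
    refine div_le_div_of_nonneg_right ?_ hR.le
    have h1 : |x| - b - (|y| - b) = |x| - |y| := by ring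
    rw [h1]
    exact abs_abs_sub_abs_le_abs_sub x y
  have h3 : |min 1 ((|x| - b) / R) - min 1 ((|y| - b) / R)| ≤ |(|x| - b) / R - (|y| - b) / R| := by
    refine (abs_min_sub_min_le_max (1 : ℝ) ((|x| - b) / R) 1 ((|y| - b) / R)).trans ?_
    rw [sub_self, abs_zero]
    exact max_le (abs_nonneg _) le_rfl
  have h4 : |max 0 (min 1 ((|x| - b) / R)) - max 0 (min 1 ((|y| - b) / R))| ≤
      |min 1 ((|x| - b) / R) - min 1 ((|y| - b) / R)| := by
    refine (abs_max_sub_max_le_max (0 : ℝ) (min 1 ((|x| - b) / R)) 0 (min 1 ((|y| - b) / R))).trans ?_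
    rw [sub_self, abs_zero]
    exact max_le (abs_nonneg _) le_rfl
  exact h4.trans (h3.trans h2)

variable {S V : Type} [Fintype S] [AddCommGroup V] {Y : Sys S V} {Λ K : ℝ} {ρ : List S → ℝ}
  {k : ℕ} {π : V →+ Zk k}

/-- the `i`-th coordinate of the displacement -/
noncomputable def tc (Y : Sys S V) (π : V →+ Zk k) (i : Fin k) (w : List S) : ℝ :=
  ((π (Y.sm w) i : ℤ) : ℝ)

theorem tc_append (i : Fin k) (u v : List S) :
    tc Y π i (u ++ v) = tc Y π i u + tc Y π i v := by
  unfold tc
  rw [Y.sm_append, map_add, Pi.add_apply]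
  push_cast
  rfl

theorem cct_coord_le (x y : Zk k) (i : Fin k) : |((x i : ℤ) : ℝ) - ((y i : ℤ) : ℝ)| ≤ n1 (x - y) := by
  have h1 : ((x - y) i).natAbs ≤ n1 (x - y) := by
    unfold n1
    exact Finset.single_le_sum (f := fun i => ((x - y) i).natAbs) (fun _ _ => Nat.zero_le _)
      (Finset.mem_univ i)
  have h2 : |((x i : ℤ) : ℝ) - ((y i : ℤ) : ℝ)| = ((((x - y) i).natAbs : ℕ) : ℝ) := by
    rw [Nat.cast_natAbs]
    push_cast
    rw [Pi.sub_apply]
    push_cast
    rfl
  rw [h2]
  exact_mod_cast h1

/-- near independence, for functions of a sum of coordinates -/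
theorem con_near (h : Erg Y Λ K ρ) (hπ : Stp Y π) {ε : ℝ} (hε : 0 < ε) :
    ∃ R₀ : ℝ, 0 < R₀ ∧ ∀ R ≥ R₀, ∀ (m n : ℕ) (i : Fin k) (b c : ℝ),
      |(Y.E m fun u => Y.E n fun v => ρ (u ++ v) * cf b R (tc Y π i u + tc Y π i v - c)) -
        Y.E m fun u => Y.E n fun v => ρ u * ρ v * cf b R (tc Y π i u + tc Y π i v - c)| ≤ ε := by
  obtain ⟨L₀, hL₀, hn⟩ := near2 (π := π) h hπ hε
  refine ⟨L₀, hL₀, fun R hR m n i b c => ?_⟩
  have hR0 : 0 < R := lt_of_lt_of_le hL₀ hR
  have h1 := hn R hR m n (fun x v => cf b R (((x i : ℤ) : ℝ) + tc Y π i v - c))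
    (fun x v => cf_abs _ _ _) (fun v x y => ?_)
  · rw [← Y.E_fsub]
    refine le_trans (le_of_eq ?_) h1
    congr 1
    refine Y.E_congr fun u _ => ?_
    rw [← Y.E_fsub]
    refine Y.E_congr fun v _ => ?_
    show _ = (ρ (u ++ v) - ρ u * ρ v) * cf b R (tc Y π i u + tc Y π i v - c)
    ring
  · refine (cf_lip hR0 _ _).trans (div_le_div_of_nonneg_right ?_ hR0.le)
    have h2 : ((x i : ℤ) : ℝ) + tc Y π i v - c - (((y i : ℤ) : ℝ) + tc Y π i v - c) =
        ((x i : ℤ) : ℝ) - ((y i : ℤ) : ℝ) := by ring
    rw [h2]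
    exact cct_coord_le x y i

/-- a word of positive weight satisfying a likely property -/
theorem exists_of_bad_lt (h : Bulk Y Λ ρ) {n : ℕ} {P : List S → Prop}
    (hP : (Y.E n fun w => ρ w * ind (¬ P w)) < 1) : ∃ w, w.length = n ∧ P w := by
  by_contra hcon
  push Not at hcon
  have h1 : Y.E n (fun w => ρ w) = 1 := h.mass n
  have h2 : (Y.E n fun w => ρ w * ind (¬ P w)) = Y.E n fun w => ρ w := by
    refine Y.E_congr fun w hw => ?_
    rw [ind_of (hcon w hw), mul_one]
  rw [h2, h1] at hP
  exact lt_irrefl _ hP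

/-- finite stability of additive functions vanishing at the end -/
theorem stab {n : ℕ} {x : ℕ → ℝ} {B : ℝ} (h0 : x n = 0)
    (hx : ∀ m m', m + m' ≤ n → |x (m + m') - x m - x m'| ≤ B) : ∀ m ≤ n, |x m| ≤ 3 * B := by
  have hB : 0 ≤ B := (abs_nonneg _).trans (hx 0 0 (by omega))
  obtain ⟨M, hM, hmax⟩ := Finset.exists_max_image (range (n + 1)) (fun m => |x m|)
    ⟨0, Finset.mem_range.2 (by omega)⟩
  rw [Finset.mem_range] at hM
  have hle : ∀ m ≤ n, |x m| ≤ |x M| := fun m hm => hmax m (Finset.mem_range.2 (by omega))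
  have dbl : ∀ m, 2 * m ≤ n → 2 * |x m| - B ≤ |x M| := by
    intro m hm
    have h1 := hx m m (by omega)
    have h2 := hle (m + m) (by omega)
    have h3 : |x m + x m| = 2 * |x m| := by rw [← two_mul, abs_mul]; norm_num
    have h4 : |x m + x m| ≤ |x (m + m)| + |x (m + m) - x m - x m| := by
      have h5 := abs_sub_abs_le_abs_sub (x m + x m) (x (m + m))
      have h6 : |x m + x m - x (m + m)| = |x (m + m) - x m - x m| := by
        rw [← abs_neg]; congr 1; ring
      linarith
    linarith
  have key : |x M| ≤ 3 * B := by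
    rcases le_or_gt (2 * M) n with h1 | h1
    · have := dbl M h1
      linarith
    · have h2 := dbl (n - M) (by omega)
      have h3 := hx M (n - M) (by omega)
      have h4 : M + (n - M) = n := by omega
      rw [h4, h0] at h3
      have h5 : |x M| ≤ |x (n - M)| + |0 - x M - x (n - M)| := by
        have h6 := abs_add_le (-(x (n - M))) (-(0 - x M - x (n - M)))
        have h7 : -(x (n - M)) + -(0 - x M - x (n - M)) = x M := by ring
        rw [h7, abs_neg, abs_neg] at h6
        exact h6
      linarith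
  exact fun m hm => (hle m hm).trans key

/-- LEMMA CON. If at the length `n` a coordinate is at most `R` with probability at least `1 - η`,
then at all shorter lengths it is at most `23 R` with probability at least `1 - 2 η`. -/
theorem con (h : Erg Y Λ K ρ) (hπ : Stp Y π) {η : ℝ} (hη : 0 < η) (hη1 : η ≤ 1 / 8) :
    ∃ R₀ : ℝ, 0 < R₀ ∧ ∀ R ≥ R₀, ∀ (n : ℕ) (i : Fin k),
      (Y.E n fun w => ρ w * ind (R < |tc Y π i w|)) ≤ η →
      ∀ m ≤ n, (Y.E m fun w => ρ w * ind (23 * R < |tc Y π i w|)) ≤ 2 * η := by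
  obtain ⟨R₀, hR₀, hnear⟩ := con_near (π := π) h hπ (show 0 < η / 1 by positivity)
  rw [div_one] at hnear
  refine ⟨R₀, hR₀, fun R hR n i hn => ?_⟩
  have hR0 : 0 < R := lt_of_lt_of_le hR₀ hR
  have hb := h.bulk
  set t := tc Y π i with ht
  have htapp : ∀ u v, t (u ++ v) = t u + t v := tc_append i
  -- centres
  have hc : ∀ m, ∃ c : ℝ, (m ≤ n → (Y.E m fun w => ρ w * ind (2 * R ≤ |t w - c|)) ≤ 2 * η) ∧
      (m = n → c = 0) := by
    intro m
    rcases eq_or_ne m n with rfl | hmn
    · refine ⟨0, fun _ => ?_, fun _ => rfl⟩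
      refine le_trans (Y.E_mono fun w _ => mul_le_mul_of_nonneg_left (ind_mono fun h2 => ?_)
        (hb.nonneg w)) (hn.trans (by linarith))
      rw [sub_zero] at h2
      linarith
    · rcases Nat.lt_or_ge n m with hm | hm
      · exact ⟨0, fun h2 => absurd h2 (by omega), fun h2 => absurd h2 hmn⟩
      · obtain ⟨m', rfl⟩ : ∃ m', n = m + m' := ⟨n - m, by omega⟩
        have h1 := hnear R hR m m' i R 0
        have h2 : (Y.E m fun u => Y.E m' fun v => ρ (u ++ v) * cf R R (t u + t v - 0)) ≤ η := by
          refine le_trans ?_ hn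
          rw [Y.E_add]
          refine Y.E_mono fun u _ => Y.E_mono fun v _ => ?_
          refine mul_le_mul_of_nonneg_left ?_ (hb.nonneg _)
          rw [sub_zero]
          refine (cf_le_ind hR0 _).trans (le_of_eq ?_)
          rw [htapp]
        have h3 : (Y.E m fun u => Y.E m' fun v => ρ u * ρ v * cf R R (t u + t v - 0)) ≤ 2 * η := by
          have := abs_le.1 h1
          linarith [this.1]
        -- choose `v`
        have h4 : ∃ v : List S, (Y.E m fun u => ρ u * cf R R (t u + t v)) ≤ 2 * η := by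
          by_contra hcon
          push Not at hcon
          have h5 : (Y.E m fun u => Y.E m' fun v => ρ u * ρ v * cf R R (t u + t v - 0)) =
              Y.E m' fun v => ρ v * Y.E m fun u => ρ u * cf R R (t u + t v) := by
            rw [Y.E_comm]
            refine Y.E_congr fun v _ => ?_
            rw [← Y.E_mul_left]
            refine Y.E_congr fun u _ => ?_
            rw [sub_zero]
            ring
          rw [h5] at h3
          -- strict inequality: some word has positive weight
          have h6 : Y.E m' (fun v => ρ v) = 1 := hb.mass m'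
          have h7 : (Y.E m' fun v => ρ v * (Y.E m fun u => ρ u * cf R R (t u + t v)) -
              ρ v * (2 * η)) ≤ 0 := by
            rw [Y.E_fsub, Y.E_mul_right, h6]
            linarith
          have h8 : ∀ v : List S, 0 ≤ ρ v * (Y.E m fun u => ρ u * cf R R (t u + t v)) -
              ρ v * (2 * η) := by
            intro v
            have := mul_le_mul_of_nonneg_left (hcon v).le (hb.nonneg v)
            linarith
          have h9 : Y.E m' (fun v => ρ v * (Y.E m fun u => ρ u * cf R R (t u + t v)) -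
              ρ v * (2 * η)) = 0 := le_antisymm h7 (Y.E_nonneg' h8)
          have h11 : Y.E m' (fun v => ρ v) = 0 := by
            rw [← Y.E_zero_fun m']
            refine Y.E_congr fun v hv => ?_
            have h12 := E_eq_zero Y h8 h9 hv
            have h13 := hcon v
            have h14 : ρ v * ((Y.E m fun u => ρ u * cf R R (t u + t v)) - 2 * η) = 0 := by
              linarith
            rcases mul_eq_zero.1 h14 with h15 | h15
            · exact h15
            · linarith
          rw [h6] at h11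
          norm_num at h11
        obtain ⟨v, hv⟩ := h4
        refine ⟨- t v, fun _ => ?_, fun h2 => absurd h2 hmn⟩
        refine le_trans (Y.E_mono fun u _ => mul_le_mul_of_nonneg_left ?_ (hb.nonneg u)) hv
        have h5 : t u - - t v = t u + t v := by ring
        rw [h5, two_mul]
        exact ind_le_cf hR0 _
  choose c hc1 hc2 using hc
  -- almost additivity
  have hadd : ∀ m m', m + m' ≤ n → |c (m + m') - c m - c m'| ≤ 7 * R := by
    intro m m' hmm
    have h1 := hnear R hR m m' i (4 * R) (c m + c m')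
    have h2 : (Y.E m fun u => Y.E m' fun v => ρ u * ρ v *
        cf (4 * R) R (t u + t v - (c m + c m'))) ≤ 4 * η := by
      have h3 : ∀ u v : List S, ρ u * ρ v * cf (4 * R) R (t u + t v - (c m + c m')) ≤
          ρ u * ind (2 * R ≤ |t u - c m|) * ρ v + ρ u * (ρ v * ind (2 * R ≤ |t v - c m'|)) := by
        intro u v
        have h4 : cf (4 * R) R (t u + t v - (c m + c m')) ≤
            ind (2 * R ≤ |t u - c m|) + ind (2 * R ≤ |t v - c m'|) := by
          refine (cf_le_ind hR0 _).trans (le_trans (ind_mono fun h5 => ?_) (ind_or_le _ _))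
          by_contra hcon
          push Not at hcon
          have h6 := abs_add_le (t u - c m) (t v - c m')
          have h7 : t u - c m + (t v - c m') = t u + t v - (c m + c m') := by ring
          rw [h7] at h6
          linarith [hcon.1, hcon.2]
        have h5 := mul_le_mul_of_nonneg_left h4 (mul_nonneg (hb.nonneg u) (hb.nonneg v))
        refine h5.trans (le_of_eq ?_)
        ring
      refine (Y.E_mono fun u _ => Y.E_mono fun v _ => h3 u v).trans ?_
      simp only [Y.E_fadd, Y.E_mul_left, Y.E_mul_right]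
      have h6 : Y.E m' (fun v => ρ v) = 1 := hb.mass m'
      have h7 : Y.E m (fun v => ρ v) = 1 := hb.mass m
      rw [h6, h7]
      have h8 := hc1 m (by omega)
      have h9 := hc1 m' (by omega)
      linarith
    have h3 : (Y.E m fun u => Y.E m' fun v => ρ (u ++ v) *
        cf (4 * R) R (t u + t v - (c m + c m'))) ≤ 5 * η := by
      have := abs_le.1 h1
      linarith [this.2]
    have h4 : (Y.E (m + m') fun w => ρ w * ind (5 * R ≤ |t w - (c m + c m')|)) ≤ 5 * η := by
      refine le_trans ?_ h3
      rw [Y.E_add]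
      refine Y.E_mono fun u _ => Y.E_mono fun v _ => mul_le_mul_of_nonneg_left ?_ (hb.nonneg _)
      rw [htapp]
      have h5 : 5 * R = 4 * R + R := by ring
      rw [h5]
      exact ind_le_cf hR0 _
    have h5 := hc1 (m + m') hmm
    obtain ⟨w, -, hw⟩ := exists_of_bad_lt hb (n := m + m')
      (P := fun w => |t w - (c m + c m')| < 5 * R ∧ |t w - c (m + m')| < 2 * R) (by
        refine lt_of_le_of_lt (b := 7 * η) ?_ (by linarith)
        have h6 : (Y.E (m + m') fun w => ρ w *
            ind (¬ (|t w - (c m + c m')| < 5 * R ∧ |t w - c (m + m')| < 2 * R))) ≤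
            (Y.E (m + m') fun w => ρ w * ind (5 * R ≤ |t w - (c m + c m')|)) +
            Y.E (m + m') fun w => ρ w * ind (2 * R ≤ |t w - c (m + m')|) := by
          rw [← Y.E_fadd]
          refine Y.E_mono fun w _ => ?_
          rw [← mul_add]
          refine mul_le_mul_of_nonneg_left ?_ (hb.nonneg w)
          refine le_trans (ind_mono fun h7 => ?_) (ind_or_le _ _)
          by_contra hcon
          push Not at hcon
          exact h7 ⟨hcon.1, hcon.2⟩
        linarith)
    have h6 := abs_add_le (t w - (c m + c m')) (-(t w - c (m + m')))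
    rw [abs_neg] at h6
    have h7 : t w - (c m + c m') + -(t w - c (m + m')) = c (m + m') - c m - c m' := by ring
    rw [h7] at h6
    linarith [hw.1, hw.2]
  have hst := stab (hc2 n rfl) hadd
  intro m hm
  refine le_trans (Y.E_mono fun w _ => mul_le_mul_of_nonneg_left (ind_mono fun h2 => ?_)
    (hb.nonneg w)) (hc1 m hm)
  have h3 := hst m hm
  have h4 := abs_sub_abs_le_abs_sub (t w) (c m)
  have h5 : 23 * R < |t w| := h2
  linarith

end Pool.Agent.SawM2
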