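import Pool.Agent.SawM2.Mfl

/-!
# Neighbouring windows (module TWOW)
-/

set_option autoImplicit false

namespace Pool.Agent.SawM2

open Finset Filter Pool.Agent.Bub4 Pool.Agent.SawDiff

variable {S V : Type} [Fintype S] [AddCommGroup V] {Y : Sys S V} {Λ K : ℝ} {ρ : List S → ℝ}

/-- shifting a window by `g` places -/
private theorem twow_shift (γ : List S) {H g : ℕ} (hH : 0 < H) (w : List S) :
    |av γ H (w.drop (H + g)) - av γ H (w.drop H)| ≤ (g : ℝ) / H := by
  have hHr : (0 : ℝ) < H := by exact_mod_cast hH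
  have hb : ∀ (f : ℕ → ℝ), (∀ i, 0 ≤ f i) → (∀ i, f i ≤ 1) →
      |∑ i ∈ range H, f (g + i) - ∑ i ∈ range H, f i| ≤ g := by
    intro f hf0 hf1
    have h1 := Finset.sum_range_add f g H
    have h2 := Finset.sum_range_add f H g
    rw [add_comm g H] at h1
    have h3 : ∀ a : ℕ, 0 ≤ ∑ i ∈ range g, f (a + i) := fun a =>
      Finset.sum_nonneg fun i _ => hf0 _
    have h4 : ∀ a : ℕ, ∑ i ∈ range g, f (a + i) ≤ g := by
      intro a
      have := Finset.sum_le_card_nsmul (range g) (fun i => f (a + i)) 1 (fun i _ => hf1 _)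
      simpa using this
    have h5 := h3 H
    have h6 := h4 H
    have h7 := h3 0
    have h8 := h4 0
    simp only [Nat.zero_add] at h7 h8
    rw [abs_le]
    constructor <;> linarith
  have h1 := hb (fun i => occ γ (H + i) w) (fun i => occ_nonneg _ _ _) (fun i => occ_le_one _ _ _)
  have h2 : av γ H (w.drop (H + g)) - av γ H (w.drop H) =
      (H : ℝ)⁻¹ * (∑ i ∈ range H, occ γ (H + (g + i)) w - ∑ i ∈ range H, occ γ (H + i) w) := by
    unfold av
    rw [← mul_sub]
    congr 2
    · refine Finset.sum_congr rfl fun i _ => ?_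
      rw [occ_drop, Nat.add_assoc]
    · refine Finset.sum_congr rfl fun i _ => ?_
      rw [occ_drop]
  rw [h2, abs_mul, abs_of_pos (inv_pos.2 hHr), div_eq_inv_mul]
  exact mul_le_mul_of_nonneg_left h1 (inv_nonneg.2 hHr.le)

/-- two adjacent windows -/
private theorem twow_adj (h : Bulk Y Λ ρ) (γ : List S) {H N : ℕ} (hH : 0 < H)
    (hN : 2 * H + γ.length ≤ N) :
    (Y.E N fun w => ρ w * (av γ H w - av γ H (w.drop H)) ^ 2) =
      4 * (mf Y ρ γ H - mf Y ρ γ (2 * H)) := by
  have h1 : (Y.E N fun w => ρ w * (av γ H w - av γ H (w.drop H)) ^ 2) =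
      Y.E N fun w => (2 * (ρ w * av γ H (w.drop 0) ^ 2) + 2 * (ρ w * av γ H (w.drop H) ^ 2)) -
        4 * (ρ w * av γ (2 * H) (w.drop 0) ^ 2) := by
    refine Y.E_congr fun w _ => ?_
    have h2 := av_blocks γ hH (show 0 < 2 by norm_num) w
    rw [Finset.sum_range_succ, Finset.sum_range_one, zero_mul, one_mul, List.drop_zero] at h2
    push_cast at h2
    rw [List.drop_zero, h2]
    ring
  rw [h1, Y.E_fsub, Y.E_fadd, Y.E_mul_left, Y.E_mul_left, Y.E_mul_left,
    mf_win h γ (by omega), mf_win h γ (by omega), mf_win h γ (by omega)]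
  ring

/-- TWOW. The frequencies in two neighbouring windows. Proof: `mf_lim` and `block_var` with `k = 2`:
the mean of `(A_0 - A)² + (A_1 - A)²`, `A = (A_0 + A_1) / 2`, i.e. of `(A_0 - A_1)² / 2`, is
`2 (mf H - mf (2 H)) → 0`, for windows at the places `0` and `H`; the windows at the places `H` and
`H + g` (`|γ| ≤ g`) have frequencies which differ by at most `2 g / H`. The left word has the
window `0`, the right word the window at `H + g`. -/
theorem two_win (h : Bulk Y Λ ρ) (γ : List S) {g : ℕ} (hg : γ.length ≤ g) :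
    Tendsto (fun H : ℕ => Y.E (H + g) fun u => Y.E (H + g) fun v =>
      ρ (u ++ v) * (av γ H u - av γ H v) ^ 2) atTop (nhds 0) := by
  obtain ⟨m, hm, -⟩ := mf_lim h γ
  have hm2 : Tendsto (fun H : ℕ => mf Y ρ γ (2 * H)) atTop (nhds m) :=
    hm.comp (tendsto_id.const_mul_atTop' (by norm_num : 0 < 2))
  have hg0 : Tendsto (fun H : ℕ => (g : ℝ) / H) atTop (nhds 0) := tendsto_const_div_atTop_nhds_zero_nat (g : ℝ)
  have hup : Tendsto (fun H : ℕ => 2 * (4 * (mf Y ρ γ H - mf Y ρ γ (2 * H))) +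
      2 * ((g : ℝ) / H) ^ 2) atTop (nhds 0) := by
    have h1 := ((hm.sub hm2).const_mul 4).const_mul 2
    have h2 := (hg0.pow 2).const_mul 2
    have h3 := h1.add h2
    simpa using h3
  refine tendsto_of_tendsto_of_tendsto_of_le_of_le' tendsto_const_nhds hup
    (Eventually.of_forall fun H => ?_) ?_
  · exact Y.E_nonneg' fun u => Y.E_nonneg' fun v => mul_nonneg (h.nonneg _) (sq_nonneg _)
  · filter_upwards [eventually_gt_atTop 0] with H hH
    have e1 : (Y.E (H + g) fun u => Y.E (H + g) fun v =>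
        ρ (u ++ v) * (av γ H u - av γ H v) ^ 2) =
        Y.E ((H + g) + (H + g)) fun w => ρ w * (av γ H w - av γ H (w.drop (H + g))) ^ 2 := by
      rw [Y.E_add (H + g) (H + g)]
      refine Y.E_congr fun u hu => Y.E_congr fun v _ => ?_
      have h1 : (u ++ v).drop (H + g) = v := by rw [← hu, List.drop_left]
      have h2 : av γ H (u ++ v) = av γ H u := by
        rw [← av_take γ (show H + γ.length ≤ H + g by omega) (u ++ v), ← hu, List.take_left]
      rw [h1, h2]
    rw [e1]
    have h2 : (Y.E ((H + g) + (H + g)) fun w =>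
        ρ w * (av γ H w - av γ H (w.drop (H + g))) ^ 2) ≤
        Y.E ((H + g) + (H + g)) fun w => 2 * (ρ w * (av γ H w - av γ H (w.drop H)) ^ 2) +
          ρ w * (2 * ((g : ℝ) / H) ^ 2) := by
      refine Y.E_mono fun w _ => ?_
      have h3 := twow_shift γ (g := g) hH w
      have h4 : (av γ H (w.drop (H + g)) - av γ H (w.drop H)) ^ 2 ≤ ((g : ℝ) / H) ^ 2 :=
        sq_le_sq' (by linarith [(abs_le.1 h3).1]) (abs_le.1 h3).2
      have h5 : (av γ H w - av γ H (w.drop (H + g))) ^ 2 ≤
          2 * (av γ H w - av γ H (w.drop H)) ^ 2 + 2 * ((g : ℝ) / H) ^ 2 := by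
        have h6 : 0 ≤ ((av γ H w - av γ H (w.drop H)) +
          (av γ H (w.drop (H + g)) - av γ H (w.drop H))) ^ 2 := sq_nonneg _
        have h7 : ((av γ H w - av γ H (w.drop H)) +
          (av γ H (w.drop (H + g)) - av γ H (w.drop H))) ^ 2 +
          (av γ H w - av γ H (w.drop (H + g))) ^ 2 =
          2 * (av γ H w - av γ H (w.drop H)) ^ 2 +
            2 * (av γ H (w.drop (H + g)) - av γ H (w.drop H)) ^ 2 := by ring
        linarith
      have h8 := mul_le_mul_of_nonneg_left h5 (h.nonneg w)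
      calc _ ≤ _ := h8
        _ = _ := by ring
    rw [Y.E_fadd, Y.E_mul_left, twow_adj h γ hH (by omega), Y.E_mul_right, h.mass, one_mul] at h2
    exact h2

end Pool.Agent.SawM2
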