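import Pool.Agent.SawM2.Info
import Pool.Agent.SawM2.TwoW

/-!
# Concentration of the frequencies (module CENT)
-/

set_option autoImplicit false

namespace Pool.Agent.SawM2

open Finset Filter Pool.Agent.Bub4 Pool.Agent.SawDiff

variable {S V : Type} [Fintype S] [AddCommGroup V] {Y : Sys S V} {Λ K : ℝ} {ρ : List S → ℝ}

/-- a mean over a probability is attained -/
private theorem Cent_ex (h : Bulk Y Λ ρ) (n : ℕ) (G : List S → ℝ) {c : ℝ}
    (hc : c ≤ Y.E n fun w => ρ w * G w) : ∃ w, w.length = n ∧ c ≤ G w := by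
  by_contra hcon
  push Not at hcon
  have h0 : ∀ w, 0 ≤ ρ w * |c - G w| := fun w => mul_nonneg (h.nonneg w) (abs_nonneg _)
  have h2 : (Y.E n fun w => ρ w * |c - G w|) = c - Y.E n fun w => ρ w * G w := by
    have e : (Y.E n fun w => ρ w * |c - G w|) = Y.E n fun w => c * ρ w - ρ w * G w :=
      Y.E_congr fun w hw => by
        rw [abs_of_pos (sub_pos.2 (hcon w hw))]; ring
    rw [e, Y.E_fsub, Y.E_mul_left, h.mass, mul_one]
  have h3 : (Y.E n fun w => ρ w * |c - G w|) = 0 :=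
    le_antisymm (by rw [h2]; linarith) (Y.E_nonneg' h0)
  have h4 : ∀ w, w.length = n → ρ w = 0 := by
    intro w hw
    have h5 := E_eq_zero Y h0 h3 hw
    have h6 : |c - G w| ≠ 0 := (abs_pos.2 (sub_pos.2 (hcon w hw)).ne').ne'
    exact (mul_eq_zero.1 h5).resolve_right h6
  have h7 : Y.E n ρ = 0 := by
    rw [← Y.E_zero_fun n]
    exact Y.E_congr h4
  rw [h.mass] at h7
  exact one_ne_zero h7

open Classical in
/-- CENT. The frequencies of finitely many words concentrate near one point with a probability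
bounded below. Proof: `M` with `(2 log K + log Λ + 1) / log M ≤ 1/4`, `c₀ = 1 / (2 M)` (`M` depends
only on `K`, `Λ`). For `F u v = ind (∀ γ ∈ Γ, |av γ H u - av γ H v| ≤ δ)` and `H` large the
probability of `F` under `ρ (u ++ v)` is at least `3/4` (`two_win`, Chebyshev, finite union;
`Y.E .. ρ (u ++ v) = 1`), so by `info` `Y.E Y.E (ρ u ρ v F) ≥ 1 / (2 M)`; as `Y.E ρ = 1` there is a
word `u` with `Y.E (H + g) (fun v => ρ v * F u v) ≥ c₀`; `a γ = av γ H u`. -/
theorem center (h : Bulk Y Λ ρ) (h1 : ∀ n, 1 ≤ Y.a n) (hK : ∀ n, Y.a n ≤ K) :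
    ∃ c₀ : ℝ, 0 < c₀ ∧ c₀ ≤ 1 ∧ ∀ (g : ℕ) (δ : ℝ), 0 < δ → ∀ H₀ : ℕ, ∃ H : ℕ, H₀ ≤ H ∧
      ∃ a : List S → ℝ, (∀ γ, 0 ≤ a γ ∧ a γ ≤ 1) ∧
        c₀ ≤ Y.E (H + g) fun w => ρ w * ind (∀ γ : List S, γ.length ≤ g → |av γ H w - a γ| ≤ δ) := by
  have hK1 : 1 ≤ K := (h1 0).trans (hK 0)
  have hlK : 0 ≤ Real.log K := Real.log_nonneg hK1
  have hlL : 0 ≤ Real.log Λ := Real.log_nonneg h.one_le
  set D : ℝ := 2 * Real.log K + Real.log Λ + 1 with hD
  have hD0 : 0 < D := by rw [hD]; linarith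
  set M : ℝ := Real.exp (4 * D) with hM
  have hM1 : 1 < M := by
    rw [hM]; exact Real.one_lt_exp_iff.2 (by linarith)
  have hM0 : 0 < M := by linarith
  have hlM : D / Real.log M = 1 / 4 := by
    rw [hM, Real.log_exp]
    field_simp
  refine ⟨1 / (2 * M), by positivity, ?_, ?_⟩
  · rw [div_le_one (by positivity)]; linarith
  intro g δ hδ H₀
  set Γ : Finset (List S) := (List.finite_length_le S g).toFinset with hΓ
  have hmem : ∀ γ : List S, γ ∈ Γ ↔ γ.length ≤ g := by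
    intro γ
    rw [hΓ, Set.Finite.mem_toFinset]
    rfl
  set η : ℝ := δ ^ 2 / (4 * (Γ.card + 1)) with hη
  have hη0 : 0 < η := by positivity
  have hev : ∀ᶠ H : ℕ in atTop, ∀ γ ∈ Γ, (Y.E (H + g) fun u => Y.E (H + g) fun v =>
      ρ (u ++ v) * (av γ H u - av γ H v) ^ 2) ≤ η := by
    rw [Filter.eventually_all_finset]
    intro γ hγ
    have := two_win h γ ((hmem γ).1 hγ)
    exact (this.eventually (ge_mem_nhds hη0))
  obtain ⟨H, hH0, hHγ⟩ := (eventually_atTop.1 (hev.and (eventually_ge_atTop H₀))).imp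
    fun H hH => hH H le_rfl
  refine ⟨H, hHγ, ?_⟩
  set F : List S → List S → ℝ := fun u v =>
    ind (∀ γ : List S, γ.length ≤ g → |av γ H v - av γ H u| ≤ δ) with hF
  have hF0 : ∀ u v, 0 ≤ F u v := fun u v => ind_nonneg _
  have hF1 : ∀ u v, F u v ≤ 1 := fun u v => ind_le_one _
  have hmass : (Y.E (H + g) fun u => Y.E (H + g) fun v => ρ (u ++ v)) = 1 := by
    have := h.mass ((H + g) + (H + g))
    rwa [Y.E_add] at this
  have hpt : ∀ u v, 1 - F u v ≤ ∑ γ ∈ Γ, (av γ H u - av γ H v) ^ 2 * (δ ^ 2)⁻¹ := by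
    intro u v
    by_cases hc : ∀ γ : List S, γ.length ≤ g → |av γ H v - av γ H u| ≤ δ
    · have : F u v = 1 := ind_of hc
      rw [this, sub_self]
      exact Finset.sum_nonneg fun γ _ => by positivity
    · have : F u v = 0 := ind_not hc
      rw [this, sub_zero]
      push Not at hc
      obtain ⟨γ, hγ, hγ2⟩ := hc
      have h3 : (1 : ℝ) ≤ (av γ H u - av γ H v) ^ 2 * (δ ^ 2)⁻¹ := by
        rw [← div_eq_mul_inv, one_le_div (by positivity)]
        rw [← sq_abs (av γ H u - av γ H v), abs_sub_comm]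
        exact pow_le_pow_left₀ hδ.le hγ2.le 2
      exact h3.trans (Finset.single_le_sum (f := fun γ => (av γ H u - av γ H v) ^ 2 * (δ ^ 2)⁻¹)
        (fun γ _ => by positivity) ((hmem γ).2 hγ))
  have hbad : (Y.E (H + g) fun u => Y.E (H + g) fun v => ρ (u ++ v) * (1 - F u v)) ≤ 1 / 4 := by
    calc (Y.E (H + g) fun u => Y.E (H + g) fun v => ρ (u ++ v) * (1 - F u v))
        ≤ Y.E (H + g) fun u => Y.E (H + g) fun v =>
            ∑ γ ∈ Γ, (δ ^ 2)⁻¹ * (ρ (u ++ v) * (av γ H u - av γ H v) ^ 2) := by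
          refine Y.E_mono fun u _ => Y.E_mono fun v _ => ?_
          refine (mul_le_mul_of_nonneg_left (hpt u v) (h.nonneg _)).trans (le_of_eq ?_)
          rw [Finset.mul_sum]
          exact Finset.sum_congr rfl fun γ _ => by ring
      _ = ∑ γ ∈ Γ, (δ ^ 2)⁻¹ * (Y.E (H + g) fun u => Y.E (H + g) fun v =>
            ρ (u ++ v) * (av γ H u - av γ H v) ^ 2) := by
          simp only [Y.E_fsum, Y.E_mul_left]
      _ ≤ ∑ γ ∈ Γ, (δ ^ 2)⁻¹ * η := by
          refine Finset.sum_le_sum fun γ hγ => ?_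
          exact mul_le_mul_of_nonneg_left (hH0 γ hγ) (by positivity)
      _ ≤ 1 / 4 := by
          rw [Finset.sum_const, nsmul_eq_mul, hη]
          have hc : (0 : ℝ) ≤ Γ.card := Nat.cast_nonneg _
          have e : (Γ.card : ℝ) * ((δ ^ 2)⁻¹ * (δ ^ 2 / (4 * (Γ.card + 1)))) =
              (Γ.card : ℝ) / (4 * (Γ.card + 1)) := by
            field_simp
          rw [e, div_le_div_iff₀ (by positivity) (by norm_num)]
          linarith
  have hgood : 3 / 4 ≤ Y.E (H + g) fun u => Y.E (H + g) fun v => ρ (u ++ v) * F u v := by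
    have e : (Y.E (H + g) fun u => Y.E (H + g) fun v => ρ (u ++ v) * (1 - F u v)) =
        (Y.E (H + g) fun u => Y.E (H + g) fun v => ρ (u ++ v)) -
          Y.E (H + g) fun u => Y.E (H + g) fun v => ρ (u ++ v) * F u v := by
      rw [← Y.E_fsub]
      refine Y.E_congr fun u _ => ?_
      rw [← Y.E_fsub]
      refine Y.E_congr fun v _ => ?_
      ring
    rw [e, hmass] at hbad
    linarith
  have hinfo := info h h1 hK hM1 (H + g) (H + g) F hF0 hF1
  rw [← hD, hlM] at hinfo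
  have h5 : 1 / (2 * M) ≤ Y.E (H + g) fun u => Y.E (H + g) fun v => ρ u * ρ v * F u v := by
    rw [div_le_iff₀ (by positivity)]
    nlinarith [hgood, hinfo]
  have h6 : (Y.E (H + g) fun u => Y.E (H + g) fun v => ρ u * ρ v * F u v) =
      Y.E (H + g) fun u => ρ u * Y.E (H + g) fun v => ρ v * F u v := by
    refine Y.E_congr fun u _ => ?_
    rw [← Y.E_mul_left]
    exact Y.E_congr fun v _ => by ring
  rw [h6] at h5
  obtain ⟨u, -, hu⟩ := Cent_ex h (H + g) _ h5
  exact ⟨fun γ => av γ H u, fun γ => ⟨av_nonneg γ H u, av_le_one γ H u⟩, hu⟩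

end Pool.Agent.SawM2
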