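import Pool.Agent.SawM2.GIrr
import Pool.Agent.SawM2.GRec

/-!
# The energy of the regular good words at records (section 4e)
-/

set_option autoImplicit false

namespace Pool.Agent.SawM2

open Finset Filter Pool.Agent.Bub4 Pool.Agent.SawDiff

variable {S V : Type} [Fintype S] [AddCommGroup V] {Y : Sys S V} {Λ K : ℝ} {ρ : List S → ℝ}
  {k : ℕ} {π : V →+ Zk k} {κ a : ℝ}

private theorem GPR_pt (h : Bulk Y Λ ρ) (hK : ∀ n, Y.a n ≤ K) {C₁ : ℝ} (hC₁ : 1 ≤ C₁) {n : ℕ}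
    (w : List S) (hw : 4 * n ≤ w.length) :
    UU Y ρ w * ind (good Y ρ κ w) ≤
      UU Y ρ w * ind (good Y ρ κ w ∧ (2 * n ≤ w.length ∧ ¬ Rg Y ρ κ n w)) +
      UU Y ρ w * ind (good Y ρ κ w ∧ ∃ i ≤ w.length, C₁ * ρ (w.take i) < UU Y ρ (w.take i)) +
      C₁ * (ρ w * ind (good Y ρ κ w ∧ Rg Y ρ κ n w)) := by
  have hU := UU_nonneg h hK w
  have hr := h.nonneg w
  have i1 := ind_nonneg (good Y ρ κ w ∧ (2 * n ≤ w.length ∧ ¬ Rg Y ρ κ n w))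
  have i2 := ind_nonneg (good Y ρ κ w ∧ ∃ i ≤ w.length, C₁ * ρ (w.take i) < UU Y ρ (w.take i))
  have i3 := ind_nonneg (good Y ρ κ w ∧ Rg Y ρ κ n w)
  have t1 := mul_nonneg hU i1
  have t2 := mul_nonneg hU i2
  have t3 := mul_nonneg (by linarith : (0:ℝ) ≤ C₁) (mul_nonneg hr i3)
  by_cases hg : good Y ρ κ w
  · by_cases hR : Rg Y ρ κ n w
    · by_cases ht : ∃ i ≤ w.length, C₁ * ρ (w.take i) < UU Y ρ (w.take i)
      · rw [ind_of (show good Y ρ κ w ∧ ∃ i ≤ w.length, C₁ * ρ (w.take i) < UU Y ρ (w.take i)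
          from ⟨hg, ht⟩), ind_of hg]
        linarith
      · push Not at ht
        have h1 := ht w.length le_rfl
        rw [List.take_length] at h1
        rw [ind_of (show good Y ρ κ w ∧ Rg Y ρ κ n w from ⟨hg, hR⟩), ind_of hg] at *
        linarith
    · rw [ind_of (show good Y ρ κ w ∧ (2 * n ≤ w.length ∧ ¬ Rg Y ρ κ n w) from
        ⟨hg, by omega, hR⟩), ind_of hg]
      linarith
  · rw [ind_not hg]
    linarith

private theorem GPR_dom (h : Bulk Y Λ ρ) (hK : ∀ n, Y.a n ≤ K) {C₁ : ℝ} (hC₁ : 1 ≤ C₁) {n N : ℕ}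
    (hn : 4 * n ≤ N) :
    (GU Y π ρ κ N).Dom (Fm.add (Fm.add (GU Y π ρ κ (4 * n))
      (Fm.bs (range N) (lw Y π fun w => UU Y ρ w *
        ind (good Y ρ κ w ∧ (2 * n ≤ w.length ∧ ¬ Rg Y ρ κ n w)))))
      (Fm.add (Fm.bs (range N) (lw Y π fun w => UU Y ρ w *
        ind (good Y ρ κ w ∧ ∃ i ≤ w.length, C₁ * ρ (w.take i) < UU Y ρ (w.take i))))
        (Fm.smul C₁ (PR Y π ρ κ n N)))) := by
  intro f hf
  rw [Fm.pr_add, Fm.pr_add, Fm.pr_add, Fm.pr_smul]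
  unfold GU PR
  rw [Fm.pr_bs, Fm.pr_bs, Fm.pr_bs, Fm.pr_bs, Fm.pr_bs]
  have hsub : Ico (4 * n) N ⊆ range N := fun i hi => mem_range.2 (mem_Ico.1 hi).2
  rw [← Finset.sum_range_add_sum_Ico _ hn]
  have e1 : ∑ j ∈ Ico (4 * n) N, (lw Y π (fun w => UU Y ρ w *
        ind (good Y ρ κ w ∧ (2 * n ≤ w.length ∧ ¬ Rg Y ρ κ n w))) j).pr f ≤
      ∑ j ∈ range N, (lw Y π (fun w => UU Y ρ w *
        ind (good Y ρ κ w ∧ (2 * n ≤ w.length ∧ ¬ Rg Y ρ κ n w))) j).pr f :=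
    Finset.sum_le_sum_of_subset_of_nonneg hsub fun j _ _ =>
      (nn_lw Y π (fun w => mul_nonneg (UU_nonneg h hK w) (ind_nonneg _)) j).pr_nonneg hf
  have e2 : ∑ j ∈ Ico (4 * n) N, (lw Y π (fun w => UU Y ρ w *
        ind (good Y ρ κ w ∧ ∃ i ≤ w.length, C₁ * ρ (w.take i) < UU Y ρ (w.take i))) j).pr f ≤
      ∑ j ∈ range N, (lw Y π (fun w => UU Y ρ w *
        ind (good Y ρ κ w ∧ ∃ i ≤ w.length, C₁ * ρ (w.take i) < UU Y ρ (w.take i))) j).pr f :=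
    Finset.sum_le_sum_of_subset_of_nonneg hsub fun j _ _ =>
      (nn_lw Y π (fun w => mul_nonneg (UU_nonneg h hK w) (ind_nonneg _)) j).pr_nonneg hf
  have e3 : ∑ j ∈ Ico (4 * n) N, (lw Y π (fun w => UU Y ρ w * ind (good Y ρ κ w)) j).pr f ≤
      ∑ j ∈ Ico (4 * n) N, (lw Y π (fun w => UU Y ρ w *
        ind (good Y ρ κ w ∧ (2 * n ≤ w.length ∧ ¬ Rg Y ρ κ n w))) j).pr f +
      ∑ j ∈ Ico (4 * n) N, (lw Y π (fun w => UU Y ρ w *
        ind (good Y ρ κ w ∧ ∃ i ≤ w.length, C₁ * ρ (w.take i) < UU Y ρ (w.take i))) j).pr f +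
      C₁ * ∑ j ∈ Ico (4 * n) N, (lw Y π (fun w => ρ w *
        ind (good Y ρ κ w ∧ Rg Y ρ κ n w)) j).pr f := by
    rw [Finset.mul_sum, ← Finset.sum_add_distrib, ← Finset.sum_add_distrib]
    refine Finset.sum_le_sum fun j hj => ?_
    have hj' := (mem_Ico.1 hj).1
    rw [pr_lw, pr_lw, pr_lw, pr_lw, ← Y.E_mul_left, ← Y.E_fadd, ← Y.E_fadd]
    refine Y.E_mono fun w hw => ?_
    have h1 := mul_le_mul_of_nonneg_right (GPR_pt (κ := κ) h hK hC₁ (n := n) w (by omega))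
      (hf (π (Y.sm w)))
    linarith
  linarith

/-- GPR. (4e) LOWER BOUND AT RECORDS. `c₁` does not depend on `D`. Proof: with `n = N / D`, `GU N` is
dominated by the sum of `GU (4 n)`, of the irregular part (`nr_irr_le`, `ε = 1/8`), of the part of
`nr_tau_le` (`ε = 1/8`, constant `C₁`) and of `C₁` times `PR n N` (if `w` is good, regular, and has
no bad prefix, `U w ≤ C₁ ρ w`, take `i = |w|`). By `Rec.le` with `M = 4 n ≤ (4 / D) N`,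
`nr (GU (4 n)) ≤ 1/4 √(EE N) = 1/4 nr (GU N)` (the hypothesis `(4 / D) ^ c ≤ 1 / 16` forces
`c > 0`). Hence `C₁ nr (PR n N) ≥ 1/2 nr (GU N)`, `c₁ = 1 / (4 C₁²)`. `PR n N` is dominated by
`PR n (T N)`. `N₀`: `N / D ≥ n₀` and `N ≥ D`. -/
theorem en_PR_ge (h : Erg Y Λ K ρ) (hκ : 0 < κ) (hκK : κ * K ≤ 1 / 8) :
    ∃ c₁ : ℝ, 0 < c₁ ∧ ∀ D : ℕ, 4 ≤ D → ∃ N₀ : ℕ, ∀ N ≥ N₀, ∀ a c : ℝ, 0 < a → a < 1 →
      (4 / (D : ℝ)) ^ c ≤ 1 / 16 → Rec Y π ρ κ a c N →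
      EE Y π ρ κ a N = Fm.en a (GU Y π ρ κ N) (GU Y π ρ κ N) → ∀ T : ℕ, 1 ≤ T →
      c₁ * EE Y π ρ κ a N ≤ Fm.en a (PR Y π ρ κ (N / D) (T * N)) (PR Y π ρ κ (N / D) (T * N)) := by
  obtain ⟨n₀, hn₀⟩ := nr_irr_le (π := π) h hκ hκK (show (0:ℝ) < 1 / 8 by norm_num)
  obtain ⟨C₁, hC₁, hτ⟩ := nr_tau_le (π := π) h.bulk h.a_le hκ (show (0:ℝ) < 1 / 8 by norm_num)
  have hC0 : 0 < C₁ := by linarith
  refine ⟨1 / (4 * C₁ ^ 2), by positivity, fun D hD => ⟨D * (n₀ + 1), ?_⟩⟩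
  intro N hN a c ha0 ha1 hDc hrec hEE T hT
  obtain ⟨n, hndef⟩ : ∃ n, n = N / D := ⟨_, rfl⟩
  rw [← hndef]
  have hD0 : 0 < D := by omega
  have hn1 : n₀ + 1 ≤ n := by
    rw [hndef, Nat.le_div_iff_mul_le hD0, mul_comm]
    exact hN
  have hnD : n * D ≤ N := by rw [hndef]; exact Nat.div_mul_le_self N D
  have h4n : 4 * n ≤ N := by nlinarith
  have hNpos : 1 ≤ N := by omega
  have hNr : (0 : ℝ) < N := by exact_mod_cast hNpos
  have hDr : (4 : ℝ) ≤ D := by exact_mod_cast hD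
  have hbase : (4 : ℝ) / D ≤ 1 := by rw [div_le_one (by linarith)]; exact hDr
  have hbase0 : (0 : ℝ) < 4 / D := by positivity
  have hc : 0 < c := by
    by_contra hcon
    push Not at hcon
    have := Real.one_le_rpow_of_pos_of_le_one_of_nonpos hbase0 hbase hcon
    linarith
  have hE0 : 0 ≤ EE Y π ρ κ a N := EE_nonneg ha0 ha1 N
  -- the short words
  have s1 : Fm.nr a (GU Y π ρ κ (4 * n)) ≤ 1 / 4 * Fm.nr a (GU Y π ρ κ N) := by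
    have h1 := Rec.le hrec (M := 4 * n) (by omega) h4n
    have h2 : (((4 * n : ℕ) : ℝ) / N) ^ c ≤ 1 / 16 := by
      refine le_trans (Real.rpow_le_rpow (by positivity) ?_ hc.le) hDc
      rw [div_le_div_iff₀ hNr (by linarith)]
      have : ((n * D : ℕ) : ℝ) ≤ N := by exact_mod_cast hnD
      push_cast at this ⊢
      nlinarith
    have h3 : EE Y π ρ κ a (4 * n) ≤ 1 / 16 * EE Y π ρ κ a N :=
      h1.trans (mul_le_mul_of_nonneg_right h2 hE0)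
    refine (nr_GU_le ha0 ha1 _).trans ((Real.sqrt_le_sqrt h3).trans ?_)
    rw [Real.sqrt_mul (by norm_num), hEE]
    have : Real.sqrt (1 / 16 : ℝ) = 1 / 4 := by
      rw [show (1 / 16 : ℝ) = (1 / 4) ^ 2 by norm_num, Real.sqrt_sq (by norm_num)]
    rw [this]
    exact le_rfl
  have s2 := hn₀ n (by omega) N a ha0 ha1
  have s3 := hτ N a ha0 ha1
  have hnn : ∀ F : List S → ℝ, (∀ w, 0 ≤ F w) → (Fm.bs (range N) (lw Y π F)).Nn :=
    fun F hF => Fm.Nn.bs fun _ _ => nn_lw Y π hF _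
  have s4 := Fm.nr_mono ha0 (nn_GU h.bulk h.a_le N)
    (((nn_GU h.bulk h.a_le (4 * n)).add
      (hnn _ fun w => mul_nonneg (UU_nonneg h.bulk h.a_le w) (ind_nonneg _))).add
      ((hnn _ fun w => mul_nonneg (UU_nonneg h.bulk h.a_le w) (ind_nonneg _)).add
      ((nn_PR h.bulk n N).smul hC0.le)))
    (GPR_dom (π := π) (κ := κ) h.bulk h.a_le hC₁ h4n)
  have s5 := Fm.nr_add_le ha0 ha1 (Fm.add (GU Y π ρ κ (4 * n))
      (Fm.bs (range N) (lw Y π fun w => UU Y ρ w *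
        ind (good Y ρ κ w ∧ (2 * n ≤ w.length ∧ ¬ Rg Y ρ κ n w)))))
      (Fm.add (Fm.bs (range N) (lw Y π fun w => UU Y ρ w *
        ind (good Y ρ κ w ∧ ∃ i ≤ w.length, C₁ * ρ (w.take i) < UU Y ρ (w.take i))))
        (Fm.smul C₁ (PR Y π ρ κ n N)))
  have s6 := Fm.nr_add_le ha0 ha1 (GU Y π ρ κ (4 * n))
      (Fm.bs (range N) (lw Y π fun w => UU Y ρ w *
        ind (good Y ρ κ w ∧ (2 * n ≤ w.length ∧ ¬ Rg Y ρ κ n w))))
  have s7 := Fm.nr_add_le ha0 ha1 (Fm.bs (range N) (lw Y π fun w => UU Y ρ w *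
        ind (good Y ρ κ w ∧ ∃ i ≤ w.length, C₁ * ρ (w.take i) < UU Y ρ (w.take i))))
        (Fm.smul C₁ (PR Y π ρ κ n N))
  rw [Fm.nr_smul, abs_of_pos hC0] at s7
  have s8 : 1 / 2 * Fm.nr a (GU Y π ρ κ N) ≤ C₁ * Fm.nr a (PR Y π ρ κ n N) := by linarith
  have hn0 : 0 ≤ Fm.nr a (GU Y π ρ κ N) := Real.sqrt_nonneg _
  have s9 := mul_self_le_mul_self (by positivity) s8
  have q1 : Fm.nr a (GU Y π ρ κ N) ^ 2 = EE Y π ρ κ a N := by
    rw [hEE]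
    exact Real.sq_sqrt (Fm.en_nonneg ha0 ha1 _)
  have q2 : Fm.nr a (PR Y π ρ κ n N) ^ 2 = Fm.en a (PR Y π ρ κ n N) (PR Y π ρ κ n N) :=
    Real.sq_sqrt (Fm.en_nonneg ha0 ha1 _)
  have s10 : 1 / 4 * EE Y π ρ κ a N ≤ C₁ ^ 2 * Fm.en a (PR Y π ρ κ n N) (PR Y π ρ κ n N) := by
    rw [← q1, ← q2]
    nlinarith
  have s11 : 1 / (4 * C₁ ^ 2) * EE Y π ρ κ a N ≤ Fm.en a (PR Y π ρ κ n N) (PR Y π ρ κ n N) := by
    rw [div_mul_eq_mul_div, div_le_iff₀ (by positivity)]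
    linarith
  refine s11.trans ?_
  have hTN : N ≤ T * N := Nat.le_mul_of_pos_left N (by omega)
  have hdom : (PR Y π ρ κ n N).Dom (PR Y π ρ κ n (T * N)) :=
    dom_bs (Finset.Ico_subset_Ico_right hTN)
      (fun w => mul_nonneg (h.bulk.nonneg w) (ind_nonneg _)) fun _ _ _ _ => le_rfl
  have h1 := Fm.nr_mono ha0 (nn_PR h.bulk n N) (nn_PR h.bulk n (T * N)) hdom
  unfold Fm.nr at h1
  exact (Real.sqrt_le_sqrt_iff (Fm.en_nonneg ha0 ha1 _)).1 h1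

end Pool.Agent.SawM2
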