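import Pool.Agent.SawM2.GAv

/-!
# The volume of the set of small means (section 4h)
-/

set_option autoImplicit false

namespace Pool.Agent.SawM2

open Finset Filter MeasureTheory Pool.Agent.Bub4 Pool.Agent.SawDiff

variable {S V : Type} [Fintype S] [AddCommGroup V] {Y : Sys S V} {Λ K : ℝ} {ρ : List S → ℝ}
  {k : ℕ} {π : V →+ Zk k} {κ a : ℝ}

/-- GVAV. (4h) the volume of `{Av ≤ r}`. The box `[-π, π]^k` is covered by `(⌈2π/d⌉)^k ≤ (8 / d)^k`
cubes of side `d`; if such a cube contains a point `θ₀` with `Av θ₀ ≤ r`, then by `av_diff` the part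
of `{Av ≤ r}` in the cube is contained in `θ₀ + Th d (M / 2) (1 / 10)` (translation invariance). -/
theorem vol_av_le (h : Bulk Y Λ ρ) {d r : ℝ} (hf : Frq Y π ρ d r) {M : ℕ} (hM : 1 ≤ M) :
    volume (bx k ∩ {θ | Av Y π ρ M θ ≤ r}) ≤
      ENNReal.ofReal ((8 / d) ^ k) * volume (Th Y π ρ d (M / 2) (1 / 10)) := by
  have hd0 := hf.d_pos
  have hd1 := hf.d_le
  have hpi := Real.pi_pos
  have hpi4 : Real.pi < 3.15 := Real.pi_lt_d2
  set A : Set (Rk k) := {θ | Av Y π ρ M θ ≤ r} with hA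
  set N : ℕ := ⌊2 * Real.pi / d⌋₊ + 1 with hN
  have hNle : (N : ℝ) ≤ 8 / d := by
    have h1 : ((⌊2 * Real.pi / d⌋₊ : ℕ) : ℝ) ≤ 2 * Real.pi / d := Nat.floor_le (by positivity)
    have h2 : (1 : ℝ) ≤ 1 / d := by rw [le_div_iff₀ hd0]; linarith
    have h3 : 2 * Real.pi / d + 1 / d ≤ 8 / d := by
      rw [← add_div]
      exact div_le_div_of_nonneg_right (by linarith) hd0.le
    rw [hN]
    push_cast
    linarith
  -- the cubes
  set C : (Fin k → Fin N) → Set (Rk k) := fun j =>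
    {θ | ∀ i, -Real.pi + ((j i : ℕ) : ℝ) * d ≤ θ i ∧ θ i ≤ -Real.pi + (((j i : ℕ) : ℝ) + 1) * d}
    with hC
  have hcov : bx k ∩ A ⊆ ⋃ j, C j ∩ A := by
    rintro θ ⟨hθ, hθA⟩
    have hθ' : ∀ i, -Real.pi ≤ θ i ∧ θ i ≤ Real.pi := fun i => hθ i (Set.mem_univ i)
    have h0 : ∀ i, 0 ≤ (θ i + Real.pi) / d := fun i =>
      div_nonneg (by linarith [(hθ' i).1]) hd0.le
    have hlt : ∀ i, ⌊(θ i + Real.pi) / d⌋₊ < N := by
      intro i
      rw [hN, Nat.lt_succ_iff]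
      refine Nat.floor_le_floor ?_
      exact div_le_div_of_nonneg_right (by linarith [(hθ' i).2]) hd0.le
    rw [Set.mem_iUnion]
    refine ⟨fun i => ⟨⌊(θ i + Real.pi) / d⌋₊, hlt i⟩, ?_, hθA⟩
    intro i
    have h1 : ((⌊(θ i + Real.pi) / d⌋₊ : ℕ) : ℝ) ≤ (θ i + Real.pi) / d := Nat.floor_le (h0 i)
    have h2 : (θ i + Real.pi) / d < ((⌊(θ i + Real.pi) / d⌋₊ : ℕ) : ℝ) + 1 :=
      Nat.lt_floor_add_one _
    rw [le_div_iff₀ hd0] at h1
    rw [div_lt_iff₀ hd0] at h2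
    exact ⟨by simpa using by linarith, by simpa using by linarith⟩
  have hone : ∀ j, volume (C j ∩ A) ≤ volume (Th Y π ρ d (M / 2) (1 / 10)) := by
    intro j
    rcases Set.eq_empty_or_nonempty (C j ∩ A) with he | ⟨θ₀, hθ₀, hA₀⟩
    · rw [he]; simp
    have hsub : C j ∩ A ⊆ (fun θ => θ + (-θ₀)) ⁻¹' Th Y π ρ d (M / 2) (1 / 10) := by
      rintro θ ⟨hθ, hθA⟩
      have h3 := av_diff h hf hM (θ := θ) (θ' := θ₀) hθA hA₀ (fun i => by
        have e1 := hθ i
        have e2 := hθ₀ i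
        rw [abs_le]
        constructor <;> linarith [e1.1, e1.2, e2.1, e2.2])
      rwa [sub_eq_add_neg] at h3
    refine (measure_mono hsub).trans (le_of_eq ?_)
    exact measure_preimage_add_right _ _ _
  refine (measure_mono hcov).trans ((measure_iUnion_fintype_le _ _).trans ?_)
  refine (Finset.sum_le_sum fun j _ => hone j).trans ?_
  rw [Finset.sum_const, nsmul_eq_mul]
  refine mul_le_mul_left ?_ _
  have h4 : ((Finset.univ : Finset (Fin k → Fin N)).card : ℝ) ≤ (8 / d) ^ k := by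
    rw [Finset.card_univ, Fintype.card_fun, Fintype.card_fin, Fintype.card_fin]
    push_cast
    exact pow_le_pow_left₀ (Nat.cast_nonneg _) hNle k
  rw [← ENNReal.ofReal_natCast]
  exact ENNReal.ofReal_le_ofReal h4

end Pool.Agent.SawM2
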