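import Pool.Agent.SawM2.GStop

/-!
# Doubling and upper bounds (sections 4b, 4d)
-/

set_option autoImplicit false

namespace Pool.Agent.SawM2

open Finset Filter Pool.Agent.Bub4 Pool.Agent.SawDiff

variable {S V : Type} [Fintype S] [AddCommGroup V] {Y : Sys S V} {Λ K : ℝ} {ρ : List S → ℝ}
  {k : ℕ} {π : V →+ Zk k} {κ a : ℝ}

/-- GDBL. (4d) DOUBLING. Induction on `T`: `GU ((T + 1) N)` is dominated by the sum of `GU N` and of
the good words `w` with `N ≤ |w|`, `|w| < (T + 1) N`; for these `nr_stop` with `B w = (N ≤ |w|)`,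
`m = N`, `M = (T + 1) N`, `ε = Λ K` (`E_UU_le`), and `M - m = T N`. With `q = Λ K / κ`:
`nr (GU ((T+1) N)) ≤ nr (GU N) + q nr (GU (T N)) ≤ (1 + q (1 + q)^T) nr (GU N)`. For `T = 0` the left
side is `0`. -/
theorem nr_GU_mul_le (h : Bulk Y Λ ρ) (hK : ∀ n, Y.a n ≤ K) (hκ : 0 < κ) (ha0 : 0 < a)
    (ha1 : a < 1) (N T : ℕ) :
    Fm.nr a (GU Y π ρ κ (T * N)) ≤ (1 + Λ * K / κ) ^ T * Fm.nr a (GU Y π ρ κ N) := by
  have hUn : ∀ w, 0 ≤ UU Y ρ w := UU_nonneg h hK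
  have hΛK : 0 ≤ Λ * K := by
    have h1 := E_UU_le h hK 0
    rw [Y.E_zero] at h1
    exact (hUn []).trans h1
  have hq : 0 ≤ Λ * K / κ := div_nonneg hΛK hκ.le
  induction T with
  | zero =>
    rw [zero_mul, pow_zero, one_mul]
    exact Fm.nr_mono ha0 (nn_GU h hK _) (nn_GU h hK _) (dom_GU h hK (Nat.zero_le _))
  | succ T ih =>
    have h1 := nr_stop (π := π) h hK hκ ha0 ha1 (B := fun w => N ≤ w.length) (m := N)
      (M := (T + 1) * N) hΛK
      (fun w i hi => hi.trans (by rw [List.length_take]; exact min_le_right _ _)) (fun w hw => hw)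
      (fun n _ => (Y.E_mono fun w _ =>
        mul_le_of_le_one_right (hUn w) (ind_le_one _)).trans (E_UU_le h hK n))
    have h2 : (T + 1) * N - N = T * N := by
      rw [Nat.add_mul, one_mul, Nat.add_sub_cancel]
    rw [h2] at h1
    have hdom : (GU Y π ρ κ ((T + 1) * N)).Dom (Fm.add (GU Y π ρ κ N)
        (Fm.bs (range ((T + 1) * N)) (lw Y π fun w => UU Y ρ w *
          ind (good Y ρ κ w ∧ N ≤ w.length)))) := by
      intro f hf
      unfold GU
      rw [Fm.pr_add, Fm.pr_bs, Fm.pr_bs, Fm.pr_bs]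
      have e1 : ∀ n ∈ range ((T + 1) * N),
          (lw Y π (fun w => UU Y ρ w * ind (good Y ρ κ w)) n).pr f =
          (if n < N then (lw Y π (fun w => UU Y ρ w * ind (good Y ρ κ w)) n).pr f else 0) +
          (lw Y π (fun w => UU Y ρ w * ind (good Y ρ κ w ∧ N ≤ w.length)) n).pr f := by
        intro n _
        by_cases hn : n < N
        · rw [if_pos hn]
          have : (lw Y π (fun w => UU Y ρ w * ind (good Y ρ κ w ∧ N ≤ w.length)) n).pr f = 0 := by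
            rw [pr_lw, Y.E_congr (G := fun _ => 0), Y.E_zero_fun]
            intro w hw
            rw [ind_not (fun hc => by have := hc.2; omega)]
            simp
          rw [this, add_zero]
        · rw [if_neg hn, zero_add, pr_lw, pr_lw]
          refine Y.E_congr fun w hw => ?_
          rw [ind_congr (show (good Y ρ κ w ∧ N ≤ w.length) ↔ good Y ρ κ w from
            ⟨fun hc => hc.1, fun hc => ⟨hc, by omega⟩⟩)]
      rw [Finset.sum_congr rfl e1, Finset.sum_add_distrib]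
      refine add_le_add_left ?_ _
      rw [← Finset.sum_filter]
      refine Finset.sum_le_sum_of_subset_of_nonneg ?_ fun n _ _ =>
        (nn_lw Y π (fun w => mul_nonneg (hUn w) (ind_nonneg _)) n).pr_nonneg hf
      intro n hn
      rw [Finset.mem_filter] at hn
      exact Finset.mem_range.2 hn.2
    have hnn : (Fm.bs (range ((T + 1) * N)) (lw Y π fun w => UU Y ρ w *
          ind (good Y ρ κ w ∧ N ≤ w.length))).Nn := Fm.Nn.bs fun _ _ =>
      nn_lw Y π (fun w => mul_nonneg (hUn w) (ind_nonneg _)) _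
    have h3 := (Fm.nr_mono ha0 (nn_GU h hK _) ((nn_GU h hK _).add hnn) hdom).trans
      (Fm.nr_add_le ha0 ha1 _ _)
    have h4 : κ⁻¹ * (Λ * K) = Λ * K / κ := by rw [div_eq_inv_mul]
    rw [h4] at h1
    have h5 := mul_le_mul_of_nonneg_left ih hq
    have h0 : 0 ≤ Fm.nr a (GU Y π ρ κ N) := Real.sqrt_nonneg _
    have h6 : (1 : ℝ) ≤ (1 + Λ * K / κ) ^ T := one_le_pow₀ (by linarith)
    have h7 : Fm.nr a (GU Y π ρ κ N) ≤ (1 + Λ * K / κ) ^ T * Fm.nr a (GU Y π ρ κ N) :=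
      le_mul_of_one_le_left h0 h6
    rw [pow_succ]
    nlinarith

/-- GDBL. `Fm.en_nonneg`. -/
theorem EE_nonneg (ha0 : 0 < a) (ha1 : a < 1) (N : ℕ) : 0 ≤ EE Y π ρ κ a N :=
  le_max_of_le_left (Fm.en_nonneg ha0 ha1 _)

private theorem GDbl_rv (h : Bulk Y Λ ρ) : Bulk Y Λ (rv ρ) where
  nonneg u := h.nonneg _
  le u := by
    have := h.le u.reverse
    rwa [Y.sv_reverse] at this
  nil := h.nil
  right u n := by
    have h1 := h.left u.reverse n
    rw [← Y.E_reverse] at h1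
    refine Eq.trans (Y.E_congr fun v _ => ?_) h1
    simp [rv, List.reverse_append]
  left u n := by
    have h1 := h.right u.reverse n
    rw [← Y.E_reverse] at h1
    refine Eq.trans (Y.E_congr fun v _ => ?_) h1
    simp [rv, List.reverse_append]

private theorem GDbl_en_mono (ha0 : 0 < a) (ha1 : a < 1) {μ ν : Fm k} (hμ : μ.Nn) (hν : ν.Nn)
    (h : μ.Dom ν) : Fm.en a μ μ ≤ Fm.en a ν ν := by
  have h1 := Fm.nr_mono ha0 hμ hν h
  unfold Fm.nr at h1
  exact (Real.sqrt_le_sqrt_iff (Fm.en_nonneg ha0 ha1 ν)).1 h1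

/-- GDBL. `dom_GU`, `Fm.nr_mono`, squares; `bulk_rv`-type fact: `rv ρ` is again a `Bulk` (prove it:
`sv_reverse`, `E_reverse`; or take it from ERGR). -/
theorem EE_mono (h : Bulk Y Λ ρ) (hK : ∀ n, Y.a n ≤ K) (ha0 : 0 < a) (ha1 : a < 1) {M N : ℕ}
    (hMN : M ≤ N) : EE Y π ρ κ a M ≤ EE Y π ρ κ a N :=
  max_le_max (GDbl_en_mono ha0 ha1 (nn_GU h hK _) (nn_GU h hK _) (dom_GU h hK hMN))
    (GDbl_en_mono ha0 ha1 (nn_GU (GDbl_rv h) hK _) (nn_GU (GDbl_rv h) hK _)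
      (dom_GU (GDbl_rv h) hK hMN))

theorem EE_rv (N : ℕ) : EE Y π (rv ρ) κ a N = EE Y π ρ κ a N := by
  have h1 : rv (rv ρ) = ρ := by
    funext w
    simp [rv]
  unfold EE
  rw [h1, max_comm]

theorem nr_GU_le (ha0 : 0 < a) (ha1 : a < 1) (N : ℕ) :
    Fm.nr a (GU Y π ρ κ N) ≤ Real.sqrt (EE Y π ρ κ a N) :=
  Real.sqrt_le_sqrt (le_max_left _ _)

/-- GDBL. (4b) SUP, domination. For a regular word of length `l ≥ 4 n`:
`1 ≤ (2 / n) Σ_{i ∈ [n, 2n)} ind (good (w.take i))` (`Rg_iff`, `ng`), `UU_mul_le` at the good prefix,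
`good_suffix`; for `i ∈ [n, 2n)` the lengths `l - i` are distinct and less than `M`. -/
theorem dom_PU_conv (h : Bulk Y Λ ρ) (hK : ∀ n, Y.a n ≤ K) (hκ : 0 < κ) {n : ℕ} (hn : 1 ≤ n)
    (M : ℕ) : (PU Y π ρ κ n M).Dom
      (Fm.smul (2 / (κ * n)) (Fm.conv (GU Y π ρ κ (2 * n)) (GU Y π ρ κ M))) := by
  have hUn : ∀ w, 0 ≤ UU Y ρ w := UU_nonneg h hK
  have hn' : (0 : ℝ) < n := by exact_mod_cast hn
  intro f hf
  set T : ℕ → ℕ → ℝ := fun i j => Y.E i fun u => UU Y ρ u * ind (good Y ρ κ u) *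
    Y.E j fun v => UU Y ρ v * ind (good Y ρ κ v) * f (π (Y.sm u) + π (Y.sm v)) with hT
  have hTn : ∀ i j, 0 ≤ T i j := fun i j => Y.E_nonneg' fun u =>
    mul_nonneg (mul_nonneg (hUn u) (ind_nonneg _)) (Y.E_nonneg' fun v =>
      mul_nonneg (mul_nonneg (hUn v) (ind_nonneg _)) (hf _))
  have hR : (Fm.smul (2 / (κ * n)) (Fm.conv (GU Y π ρ κ (2 * n)) (GU Y π ρ κ M))).pr f =
      2 / (κ * n) * ∑ i ∈ range (2 * n), ∑ j ∈ range M, T i j := by
    rw [Fm.pr_smul, Fm.pr_conv]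
    congr 1
    unfold GU
    rw [Fm.pr_bs]
    refine Finset.sum_congr rfl fun i _ => ?_
    rw [pr_lw]
    simp only [hT]
    rw [← Y.E_fsum]
    refine Y.E_congr fun u _ => ?_
    rw [← Finset.mul_sum]
    congr 1
    rw [Fm.pr_bs]
    refine Finset.sum_congr rfl fun j _ => ?_
    rw [pr_lw]
  have hL : ∀ l ∈ Ico (4 * n) M,
      (lw Y π (fun w => UU Y ρ w * ind (good Y ρ κ w ∧ Rg Y ρ κ n w)) l).pr f ≤
      2 / (κ * n) * ∑ i ∈ Ico n (2 * n), T i (l - i) := by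
    intro l hl
    rw [Finset.mem_Ico] at hl
    rw [pr_lw]
    have h1 : ∀ w : List S, w.length = l →
        UU Y ρ w * ind (good Y ρ κ w ∧ Rg Y ρ κ n w) * f (π (Y.sm w)) ≤
        ∑ i ∈ Ico n (2 * n), 2 / n * (UU Y ρ w * ind (good Y ρ κ w) *
          ind (good Y ρ κ (w.take i)) * f (π (Y.sm w))) := by
      intro w _
      have e1 : ∑ i ∈ Ico n (2 * n), 2 / n * (UU Y ρ w * ind (good Y ρ κ w) *
          ind (good Y ρ κ (w.take i)) * f (π (Y.sm w))) =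
          UU Y ρ w * ind (good Y ρ κ w) * f (π (Y.sm w)) * (2 / n * ng Y ρ κ n n w) := by
        unfold ng
        rw [← two_mul, Finset.mul_sum, Finset.mul_sum]
        refine Finset.sum_congr rfl fun i _ => ?_
        ring
      rw [e1]
      have e2 : 0 ≤ UU Y ρ w * ind (good Y ρ κ w) * f (π (Y.sm w)) :=
        mul_nonneg (mul_nonneg (hUn w) (ind_nonneg _)) (hf _)
      have e3 : 0 ≤ 2 / (n : ℝ) * ng Y ρ κ n n w :=
        mul_nonneg (by positivity) (ng_nonneg κ n n w)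
      by_cases hr : Rg Y ρ κ n w
      · rw [ind_congr (show (good Y ρ κ w ∧ Rg Y ρ κ n w) ↔ good Y ρ κ w from
          ⟨fun hc => hc.1, fun hc => ⟨hc, hr⟩⟩)]
        refine le_mul_of_one_le_right e2 ?_
        rw [Rg_iff] at hr
        rw [div_mul_eq_mul_div, one_le_div hn']
        exact hr
      · rw [ind_not (fun hc => hr hc.2)]
        rw [mul_zero, zero_mul]
        exact mul_nonneg e2 e3
    refine (Y.E_mono h1).trans ?_
    rw [Y.E_fsum, Finset.mul_sum]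
    refine Finset.sum_le_sum fun i hi => ?_
    rw [Finset.mem_Ico] at hi
    have h2 : i + (l - i) = l := by omega
    have h3 := Y.E_add i (l - i) fun w => 2 / n * (UU Y ρ w * ind (good Y ρ κ w) *
          ind (good Y ρ κ (w.take i)) * f (π (Y.sm w)))
    rw [h2] at h3
    rw [h3]
    simp only [hT]
    rw [← Y.E_mul_left]
    refine Y.E_mono fun u hu => ?_
    rw [← mul_assoc, ← Y.E_mul_left]
    refine Y.E_mono fun v _ => ?_
    have h4 : (u ++ v).take i = u := by rw [← hu, List.take_left]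
    rw [h4]
    by_cases hg : good Y ρ κ u
    · rw [ind_of hg, mul_one, mul_one]
      have h6 := UU_mul_le h hK hκ v hg
      have h7 : ind (good Y ρ κ (u ++ v)) ≤ ind (good Y ρ κ v) :=
        ind_mono fun hx => good_suffix h hK hx
      have h8 : f (π (Y.sm (u ++ v))) = f (π (Y.sm u) + π (Y.sm v)) := by
        rw [Y.sm_append, map_add]
      rw [h8]
      have h9 := hf (π (Y.sm u) + π (Y.sm v))
      have h10 := hUn (u ++ v)
      have h11 := ind_nonneg (good Y ρ κ (u ++ v))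
      calc 2 / (n : ℝ) * (UU Y ρ (u ++ v) * ind (good Y ρ κ (u ++ v)) *
            f (π (Y.sm u) + π (Y.sm v))) ≤
          2 / (n : ℝ) * ((κ⁻¹ * (UU Y ρ u * UU Y ρ v)) * ind (good Y ρ κ v) *
            f (π (Y.sm u) + π (Y.sm v))) :=
            mul_le_mul_of_nonneg_left (mul_le_mul_of_nonneg_right
              (mul_le_mul h6 h7 h11 (h10.trans h6)) h9) (by positivity)
        _ = 2 / (κ * n) * UU Y ρ u * (UU Y ρ v * ind (good Y ρ κ v) *
            f (π (Y.sm u) + π (Y.sm v))) := by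
            field_simp
    · rw [ind_not hg]
      simp
  rw [hR]
  unfold PU
  rw [Fm.pr_bs]
  refine (Finset.sum_le_sum hL).trans ?_
  rw [← Finset.mul_sum]
  refine mul_le_mul_of_nonneg_left ?_ (by positivity)
  rw [Finset.sum_comm]
  have hsub : ∑ i ∈ Ico n (2 * n), ∑ l ∈ Ico (4 * n) M, T i (l - i) ≤
      ∑ i ∈ Ico n (2 * n), ∑ j ∈ range M, T i j := by
    refine Finset.sum_le_sum fun i hi => ?_
    rw [Finset.mem_Ico] at hi
    have e1 : ∑ l ∈ Ico (4 * n) M, T i (l - i) =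
        ∑ j ∈ (Ico (4 * n) M).image (fun l => l - i), T i j := by
      rw [Finset.sum_image]
      intro x hx y hy hxy
      have hx' := Finset.mem_Ico.1 hx
      have hy' := Finset.mem_Ico.1 hy
      simp only at hxy
      omega
    rw [e1]
    refine Finset.sum_le_sum_of_subset_of_nonneg ?_ fun j _ _ => hTn i j
    intro j hj
    rw [Finset.mem_image] at hj
    obtain ⟨l, hl, rfl⟩ := hj
    rw [Finset.mem_Ico] at hl
    rw [Finset.mem_range]
    omega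
  refine hsub.trans ?_
  refine Finset.sum_le_sum_of_subset_of_nonneg ?_ fun i _ _ =>
    Finset.sum_nonneg fun j _ => hTn i j
  intro i hi
  rw [Finset.mem_Ico] at hi
  rw [Finset.mem_range]
  omega

/-- GDBL. `dom_PU_conv`, `Fm.sm_mono`, `Fm.sm_conv_le`, `nr (GU (2 n)) ≤ nr (GU N)`,
`nr_GU_mul_le`, `N / D ≥ N / (2 D)` as real numbers. (4b) SUP: for `D ≥ 2`, `N ≥ D` and all `T`. -/
theorem sm_PU_le (h : Bulk Y Λ ρ) (hK : ∀ n, Y.a n ≤ K) (hκ : 0 < κ) (ha0 : 0 < a)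
    (ha1 : a < 1) {D N : ℕ} (hD : 2 ≤ D) (hN : D ≤ N) (T : ℕ) (z : Zk k) :
    Fm.sm a (PU Y π ρ κ (N / D) (T * N)) z ≤
      4 * D * (1 + Λ * K / κ) ^ T / κ * (EE Y π ρ κ a N / N) := by
  have hUn : ∀ w, 0 ≤ UU Y ρ w := UU_nonneg h hK
  have hΛK : 0 ≤ Λ * K := by
    have h1 := E_UU_le h hK 0
    rw [Y.E_zero] at h1
    exact (hUn []).trans h1
  have hq : 0 ≤ Λ * K / κ := div_nonneg hΛK hκ.le
  have hD0 : 0 < D := by omega
  have hn : 1 ≤ N / D := (Nat.one_le_div_iff hD0).2 hN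
  have hN0 : 0 < N := by omega
  have hNR : (0 : ℝ) < N := by exact_mod_cast hN0
  have hDR : (0 : ℝ) < D := by exact_mod_cast hD0
  have hnR : (0 : ℝ) < (N / D : ℕ) := by exact_mod_cast hn
  have hn2 : (N : ℝ) ≤ 2 * D * (N / D : ℕ) := by
    have e1 : N < D * (N / D) + D := by
      have := Nat.lt_mul_div_succ N hD0
      rw [Nat.mul_add, mul_one] at this
      exact this
    have e2 : D ≤ D * (N / D) := Nat.le_mul_of_pos_right D hn
    have e3 : N ≤ 2 * (D * (N / D)) := by omega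
    have e4 : (N : ℝ) ≤ 2 * (D * (N / D : ℕ)) := by exact_mod_cast e3
    linarith
  have h1 := Fm.sm_mono (a := a) ha0 (dom_PU_conv (π := π) h hK hκ hn (T * N)) z
  refine h1.trans ?_
  have h2 : Fm.sm a (Fm.smul (2 / (κ * (N / D : ℕ)))
      (Fm.conv (GU Y π ρ κ (2 * (N / D))) (GU Y π ρ κ (T * N)))) z =
      2 / (κ * (N / D : ℕ)) * Fm.sm a
        (Fm.conv (GU Y π ρ κ (2 * (N / D))) (GU Y π ρ κ (T * N))) z := by
    unfold Fm.sm
    rw [Fm.pr_smul]
  rw [h2]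
  have h3 := (le_abs_self _).trans
    (Fm.sm_conv_le ha0 ha1 (GU Y π ρ κ (2 * (N / D))) (GU Y π ρ κ (T * N)) z)
  have h4 : 2 * (N / D) ≤ N := by
    have e1 : D * (N / D) ≤ N := Nat.mul_div_le N D
    have e2 : 2 * (N / D) ≤ D * (N / D) := Nat.mul_le_mul_right _ hD
    omega
  have h5 : Fm.nr a (GU Y π ρ κ (2 * (N / D))) ≤ Fm.nr a (GU Y π ρ κ N) :=
    Fm.nr_mono ha0 (nn_GU h hK _) (nn_GU h hK _) (dom_GU h hK h4)
  have h6 := nr_GU_mul_le (π := π) h hK hκ ha0 ha1 N T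
  have h7 := nr_GU_le (Y := Y) (π := π) (ρ := ρ) (κ := κ) ha0 ha1 N
  have hE := EE_nonneg (Y := Y) (π := π) (ρ := ρ) (κ := κ) ha0 ha1 N
  have h0 : 0 ≤ Fm.nr a (GU Y π ρ κ N) := Real.sqrt_nonneg _
  have h8 : Fm.nr a (GU Y π ρ κ N) * Fm.nr a (GU Y π ρ κ N) ≤ EE Y π ρ κ a N := by
    have := mul_le_mul h7 h7 h0 (Real.sqrt_nonneg _)
    rwa [Real.mul_self_sqrt hE] at this
  have hC : 0 ≤ (1 + Λ * K / κ) ^ T := by positivity
  have h9 : Fm.sm a (Fm.conv (GU Y π ρ κ (2 * (N / D))) (GU Y π ρ κ (T * N))) z ≤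
      (1 + Λ * K / κ) ^ T * EE Y π ρ κ a N := by
    refine h3.trans ?_
    refine (mul_le_mul h5 h6 (Real.sqrt_nonneg _) h0).trans ?_
    calc Fm.nr a (GU Y π ρ κ N) * ((1 + Λ * K / κ) ^ T * Fm.nr a (GU Y π ρ κ N)) =
          (1 + Λ * K / κ) ^ T * (Fm.nr a (GU Y π ρ κ N) * Fm.nr a (GU Y π ρ κ N)) := by ring
      _ ≤ _ := mul_le_mul_of_nonneg_left h8 hC
  refine (mul_le_mul_of_nonneg_left h9 (by positivity)).trans ?_
  have h10 : 2 / (κ * (N / D : ℕ)) ≤ 4 * D / (κ * N) := by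
    rw [div_le_div_iff₀ (by positivity) (by positivity)]
    nlinarith
  have h11 : 0 ≤ (1 + Λ * K / κ) ^ T * EE Y π ρ κ a N := mul_nonneg hC hE
  refine (mul_le_mul_of_nonneg_right h10 h11).trans (le_of_eq ?_)
  field_simp

theorem sm_PR_le (h : Bulk Y Λ ρ) (hK : ∀ n, Y.a n ≤ K) (hκ : 0 < κ) (ha0 : 0 < a)
    (ha1 : a < 1) {D N : ℕ} (hD : 2 ≤ D) (hN : D ≤ N) (T : ℕ) (z : Zk k) :
    Fm.sm a (PR Y π ρ κ (N / D) (T * N)) z ≤
      4 * D * (1 + Λ * K / κ) ^ T / κ * (EE Y π ρ κ a N / N) :=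
  (Fm.sm_mono ha0 (dom_PR_PU h hK _ _) z).trans (sm_PU_le h hK hκ ha0 ha1 hD hN T z)

theorem en_PR_le (h : Bulk Y Λ ρ) (hK : ∀ n, Y.a n ≤ K) (hκ : 0 < κ) (ha0 : 0 < a)
    (ha1 : a < 1) (n N T : ℕ) :
    Fm.en a (PR Y π ρ κ n (T * N)) (PR Y π ρ κ n (T * N)) ≤
      (1 + Λ * K / κ) ^ (2 * T) * EE Y π ρ κ a N := by
  have h1 := GDbl_en_mono ha0 ha1 (nn_PR (π := π) (κ := κ) h n (T * N)) (nn_GU h hK (T * N))
    ((dom_PR_PU h hK n (T * N)).trans (dom_PU_GU h hK n (T * N)))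
  refine h1.trans ?_
  have h2 := nr_GU_mul_le (π := π) h hK hκ ha0 ha1 N T
  have hE := EE_nonneg (Y := Y) (π := π) (ρ := ρ) (κ := κ) ha0 ha1 N
  have h7 := nr_GU_le (Y := Y) (π := π) (ρ := ρ) (κ := κ) ha0 ha1 N
  have hq : 0 ≤ 1 + Λ * K / κ := by
    have h3 := E_UU_le h hK 0
    rw [Y.E_zero] at h3
    have h4 := (UU_nonneg h hK []).trans h3
    positivity
  have h8 : Fm.nr a (GU Y π ρ κ (T * N)) ≤ (1 + Λ * K / κ) ^ T * Real.sqrt (EE Y π ρ κ a N) :=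
    h2.trans (mul_le_mul_of_nonneg_left h7 (pow_nonneg hq T))
  have h9 := mul_le_mul h8 h8 (Real.sqrt_nonneg _)
    (mul_nonneg (pow_nonneg hq T) (Real.sqrt_nonneg _))
  unfold Fm.nr at h9
  rw [Real.mul_self_sqrt (Fm.en_nonneg ha0 ha1 _)] at h9
  refine h9.trans (le_of_eq ?_)
  rw [pow_mul' (1 + Λ * K / κ) 2 T]
  have h10 := Real.mul_self_sqrt hE
  calc (1 + Λ * K / κ) ^ T * Real.sqrt (EE Y π ρ κ a N) *
        ((1 + Λ * K / κ) ^ T * Real.sqrt (EE Y π ρ κ a N)) =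
        ((1 + Λ * K / κ) ^ T) ^ 2 * (Real.sqrt (EE Y π ρ κ a N) *
          Real.sqrt (EE Y π ρ κ a N)) := by ring
    _ = _ := by rw [h10]

end Pool.Agent.SawM2
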