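import Pool.Agent.SawM2.GAv
import Pool.Agent.SawM2.GDbl

/-!
# Upper bound of the volumes (section 4i)
-/

set_option autoImplicit false

namespace Pool.Agent.SawM2

open Finset Filter MeasureTheory Pool.Agent.Bub4 Pool.Agent.SawDiff

variable {S V : Type} [Fintype S] [AddCommGroup V] {Y : Sys S V} {Λ K : ℝ} {ρ : List S → ℝ}
  {k : ℕ} {π : V →+ Zk k} {κ a : ℝ}

/-- GVLE. (4i) VOL≤. Let `G` be the measure with weight `ρ ind (good)` and lengths `< M` (dominated by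
`GU M`, so `en G ≤ EE M`, `Fm.nr_mono`). For `θ ∈ Th d M (1/10)`:
`‖ft G θ‖ ≥ re (ft G θ) ≥ Σ_{n < M} (re φ_n - bn n) ≥ M (9/10 - 1/8) ≥ M / 2` (`Fm.re_ft`, `bad_le`).
`Fm.en_self_fourier`, `Th ⊆ bx` (coordinates at most `1 - a ≤ 1`), `hk_ge` on `Th`:
`(2π)^k EE M ≥ (1 / (2 (1 - a)))^k (M / 2)² vol Th`. -/
theorem vol_Th_le (h : Bulk Y Λ ρ) (hK : ∀ n, Y.a n ≤ K) (hκ : 0 < κ) (hκK : κ * K ≤ 1 / 8)
    (ha0 : 0 < a) (ha1 : a < 1) {d : ℝ} {M : ℕ} (hM : 1 ≤ M)
    (hs : ∀ θ ∈ Th Y π ρ d M (1 / 10), ∀ i, |θ i| ≤ 1 - a) :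
    volume (Th Y π ρ d M (1 / 10)) ≤
      ENNReal.ofReal ((4 * Real.pi) ^ k * 4 * ((1 - a) ^ k * EE Y π ρ κ a M / (M : ℝ) ^ 2)) := by
  set T : Set (Rk k) := Th Y π ρ d M (1 / 10) with hT
  set G : Fm k := Fm.bs (range M) (lw Y π fun w => ρ w * ind (good Y ρ κ w)) with hG
  have hMpos : (0 : ℝ) < M := by exact_mod_cast hM
  have ha1' : 0 < 1 - a := by linarith
  have hGn : G.Nn :=
    Fm.Nn.bs fun _ _ => nn_lw Y π (fun w => mul_nonneg (h.nonneg w) (ind_nonneg _)) _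
  have hdom : G.Dom (GU Y π ρ κ M) :=
    dom_bs subset_rfl (fun w => mul_nonneg (UU_nonneg h hK w) (ind_nonneg _)) fun _ _ w _ =>
      mul_le_mul_of_nonneg_right (le_UU h hK w) (ind_nonneg _)
  have hnr : Fm.nr a G ≤ Real.sqrt (EE Y π ρ κ a M) :=
    (Fm.nr_mono ha0 hGn (nn_GU h hK M) hdom).trans (nr_GU_le ha0 ha1 M)
  have hen : Fm.en a G G ≤ EE Y π ρ κ a M := by
    have h1 : Fm.nr a G ^ 2 = Fm.en a G G := Real.sq_sqrt (Fm.en_nonneg ha0 ha1 G)
    rw [← h1]
    have h2 := pow_le_pow_left₀ (Real.sqrt_nonneg _) hnr 2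
    rwa [Real.sq_sqrt (EE_nonneg ha0 ha1 M)] at h2
  -- the transform on `Th`
  have hft : ∀ θ ∈ T, (M : ℝ) / 2 ≤ ‖G.ft θ‖ := by
    intro θ hθ
    have h2 : ∀ n ∈ range M,
        (1 : ℝ) / 2 ≤ ((lw Y π (fun w => ρ w * ind (good Y ρ κ w)) n).ft θ).re := by
      intro n hn
      have h3 := hθ.2 n (Finset.mem_range.1 hn).le
      have h4 : 9 / 10 ≤ (ph Y π ρ n θ).re := by
        have h5 := (Complex.abs_re_le_norm (1 - ph Y π ρ n θ)).trans h3
        rw [Complex.sub_re, Complex.one_re] at h5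
        have := (abs_le.1 h5).2
        linarith
      have h5 : (ph Y π ρ n θ).re = Y.E n fun w => ρ w * Real.cos (dt θ (π (Y.sm w))) := by
        unfold ph
        rw [Fm.re_ft, pr_lw]
      have h6 : (Y.E n fun w => ρ w * Real.cos (dt θ (π (Y.sm w)))) ≤
          (Y.E n fun w => ρ w * ind (good Y ρ κ w) * Real.cos (dt θ (π (Y.sm w)))) +
            Y.E n fun w => ρ w * ind (¬ good Y ρ κ w) := by
        rw [← Y.E_fadd]
        refine Y.E_mono fun w _ => ?_
        by_cases hg : good Y ρ κ w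
        · rw [ind_of hg, ind_not (not_not.2 hg)]
          simp
        · rw [ind_not hg, ind_of hg]
          have := mul_le_mul_of_nonneg_left (Real.cos_le_one (dt θ (π (Y.sm w)))) (h.nonneg w)
          simpa using this
      have h7 := bad_le h hK hκ.le n
      rw [Fm.re_ft, pr_lw]
      linarith
    have h8 : (M : ℝ) / 2 ≤ (G.ft θ).re := by
      rw [hG, Fm.ft_bs, Complex.re_sum]
      have := Finset.card_nsmul_le_sum (range M)
        (fun n => ((lw Y π (fun w => ρ w * ind (good Y ρ κ w)) n).ft θ).re) (1 / 2) h2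
      rw [Finset.card_range, nsmul_eq_mul] at this
      linarith
    exact h8.trans (Complex.re_le_norm _)
  -- inclusion
  have hTb : T ⊆ bx k := by
    intro θ hθ
    rw [bx, Set.mem_univ_pi]
    intro i
    have h1 := abs_le.1 (hs θ hθ i)
    have h2 := Real.pi_gt_three
    exact ⟨by linarith [h1.1], by linarith [h1.2]⟩
  have hcomp : IsCompact (bx k) := isCompact_univ_pi fun _ => isCompact_Icc
  have hTc : IsCompact T := hcomp.of_isClosed_subset (isClosed_Th d M _) hTb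
  have hcont : Continuous fun θ : Rk k => hk a θ * ‖G.ft θ‖ ^ 2 :=
    (continuous_hk ha0 ha1).mul (G.continuous_ft.norm.pow 2)
  have hint : IntegrableOn (fun θ : Rk k => hk a θ * ‖G.ft θ‖ ^ 2) (bx k) volume :=
    hcont.continuousOn.integrableOn_compact hcomp
  set c : ℝ := (1 / (2 * (1 - a))) ^ k * ((M : ℝ) / 2) ^ 2 with hc
  have hcpos : 0 < c := by positivity
  have hTfin : volume T ≠ ⊤ := hTc.measure_lt_top.ne
  have h1 : c * (volume T).toReal ≤ (2 * Real.pi) ^ k * Fm.en a G G := by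
    rw [Fm.en_self_fourier ha0 ha1]
    have h2 : ∫ θ in T, c ≤ ∫ θ in T, hk a θ * ‖G.ft θ‖ ^ 2 := by
      refine setIntegral_mono_on ?_ (hint.mono_set hTb) hTc.measurableSet ?_
      · exact integrableOn_const hTfin
      · intro θ hθ
        have h3 := hk_ge ha0 ha1 (hs θ hθ)
        have h4 := pow_le_pow_left₀ (by positivity : (0 : ℝ) ≤ M / 2) (hft θ hθ) 2
        exact mul_le_mul h3 h4 (by positivity) (hk_pos ha0 ha1 θ).le
    have h5 : ∫ θ in T, hk a θ * ‖G.ft θ‖ ^ 2 ≤ ∫ θ in bx k, hk a θ * ‖G.ft θ‖ ^ 2 := by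
      refine setIntegral_mono_set hint ?_ hTb.eventuallyLE
      exact Eventually.of_forall fun θ => mul_nonneg (hk_pos ha0 ha1 θ).le (by positivity)
    rw [setIntegral_const, smul_eq_mul, mul_comm] at h2
    exact h2.trans h5
  have h6 : c * (volume T).toReal ≤ (2 * Real.pi) ^ k * EE Y π ρ κ a M :=
    h1.trans (mul_le_mul_of_nonneg_left hen (by positivity))
  have h7 : (volume T).toReal ≤
      (4 * Real.pi) ^ k * 4 * ((1 - a) ^ k * EE Y π ρ κ a M / (M : ℝ) ^ 2) := by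
    have h8 : (volume T).toReal ≤ (2 * Real.pi) ^ k * EE Y π ρ κ a M / c := by
      rw [le_div_iff₀ hcpos, mul_comm]
      exact h6
    refine h8.trans (le_of_eq ?_)
    rw [hc, one_div, inv_pow, mul_pow 2 (1 - a), show (4 : ℝ) * Real.pi = 2 * (2 * Real.pi) by ring,
      mul_pow 2 (2 * Real.pi)]
    generalize (1 - a) ^ k = y at *
    field_simp
    ring
  rw [← ENNReal.ofReal_toReal hTfin]
  exact ENNReal.ofReal_le_ofReal h7

end Pool.Agent.SawM2
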