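import Pool.Agent.SawM2.GEav
import Pool.Agent.SawM2.GVav
import Pool.Agent.SawM2.GVle
import Pool.Agent.SawM2.GPr

/-!
# Concentration of the energy, lower bound of the volumes (sections 4h, 4i)
-/

set_option autoImplicit false

namespace Pool.Agent.SawM2

open Finset Filter MeasureTheory Pool.Agent.Bub4 Pool.Agent.SawDiff

variable {S V : Type} [Fintype S] [AddCommGroup V] {Y : Sys S V} {Λ K : ℝ} {ρ : List S → ℝ}
  {k : ℕ} {π : V →+ Zk k} {κ a : ℝ}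

private theorem GOut_compact : IsCompact (bx k) := isCompact_univ_pi fun _ => isCompact_Icc

private theorem GOut_meas : MeasurableSet (bx k) := GOut_compact.measurableSet

private theorem GOut_int (ha0 : 0 < a) (ha1 : a < 1) (μ : Fm k) :
    IntegrableOn (fun θ => hk a θ * ‖μ.ft θ‖ ^ 2) (bx k) :=
  ((continuous_hk ha0 ha1).mul ((Fm.continuous_ft μ).norm.pow 2)).continuousOn.integrableOn_compact
    GOut_compact

private theorem GOut_nn (ha0 : 0 < a) (ha1 : a < 1) (μ : Fm k) (θ : Rk k) :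
    0 ≤ hk a θ * ‖μ.ft θ‖ ^ 2 := mul_nonneg (hk_pos ha0 ha1 θ).le (by positivity)

/-- a set integral is at most the upper bound times the volume -/
private theorem GOut_le {f : Rk k → ℝ} {s : Set (Rk k)} {c : ℝ} (hs : MeasurableSet s)
    (hsub : s ⊆ bx k) (hf : IntegrableOn f (bx k)) (hle : ∀ θ ∈ s, f θ ≤ c) :
    ∫ θ in s, f θ ≤ c * volume.real s := by
  have hfin : volume s ≠ ⊤ :=
    ((measure_mono hsub).trans_lt GOut_compact.measure_lt_top).ne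
  have h1 : ∫ θ in s, f θ ≤ ∫ _ in s, c :=
    setIntegral_mono_on (hf.mono_set hsub) (integrableOn_const hfin) hs hle
  rw [setIntegral_const, smul_eq_mul, mul_comm] at h1
  exact h1

private theorem GOut_ft_PR (h : Bulk Y Λ ρ) (n M : ℕ) (θ : Rk k) :
    ‖(PR Y π ρ κ n M).ft θ‖ ^ 2 ≤ (M : ℝ) ^ 2 :=
  pow_le_pow_left₀ (norm_nonneg _)
    (((nn_PR h n M).norm_ft_le θ).trans (mass_PR_le h n M)) 2

/-- GOUT. (4h) THE ENERGY OUTSIDE `Th`. Proof: `M = 2 (N / q)`, so `M / 2 = N / q`,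
`M / N ≤ 2 / q`. The set `bx \ Th` is the union of its part in `{Av > r}` (`energy_av`,
`q` large and `ε` small: at most `ω / 2 EE N`) and of its part in `{Av ≤ r}`, where some
`|θ i| > d` (`av_low`); there `hk ≤ (2 / (1 - a))^k (1 - a)² π² / (2 d²)` (`hk_high`, `a ≥ 1/2`),
`‖ft P‖ ≤ T N` (`mass_PR_le`), and the volume is at most `(8 / d)^k vol Th (N / q) (1/10)`
(`vol_av_le`) `≤ (8 / d)^k (4π)^k 4 (1 - a)^k EE N / (N / q)²` (`vol_Th_le`, `hf.shrink` with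
`e = 1 - a` for `N / q ≥ M₀(a)`, `EE_mono`). Product: at most `C' q² (1 - a)² EE N ≤ ω / 2 EE N`
for `a` near `1`. -/
theorem energy_out (h : Erg Y Λ K ρ) (hπ : Stp Y π) (hκ : 0 < κ) (hκK : κ * K ≤ 1 / 8) {D : ℕ}
    (hD : 4 ≤ D) (T : ℕ) {d r : ℝ} (hf : Frq Y π ρ d r) {ω : ℝ} (hω : 0 < ω) :
    ∃ q : ℕ, 1 ≤ q ∧ ∃ a₀ : ℝ, a₀ < 1 ∧ ∀ a : ℝ, a₀ ≤ a → 0 < a → a < 1 →
      ∃ N₀ : ℕ, ∀ N ≥ N₀,
      (∫ θ in bx k \ Th Y π ρ d (N / q) (12 * r),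
        hk a θ * ‖(PR Y π ρ κ (N / D) (T * N)).ft θ‖ ^ 2) ≤ ω * EE Y π ρ κ a N := by
  obtain ⟨C, hC, hCe⟩ := energy_av (π := π) h hπ hκ hκK hD T hf.r_pos
  obtain ⟨a₁, ha₁, N₁, hN₁⟩ := hCe (ω / (8 * C)) (by positivity)
  obtain ⟨q, hq⟩ : ∃ q : ℕ, q = ⌈16 * C / ω⌉₊ + 1 := ⟨_, rfl⟩
  have hq1 : 1 ≤ q := by omega
  have hqr : 16 * C / ω ≤ (q : ℝ) := by
    rw [hq]
    push_cast
    have := Nat.le_ceil (16 * C / ω)
    linarith
  have hqpos : (0 : ℝ) < q := by exact_mod_cast hq1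
  have hd := hf.d_pos
  -- the constant
  obtain ⟨C', hC'⟩ : ∃ C' : ℝ, C' = 2 ^ k * (Real.pi ^ 2 / (2 * d ^ 2)) * (T : ℝ) ^ 2 *
    ((8 / d) ^ k * ((4 * Real.pi) ^ k * 4)) * 4 * (q : ℝ) ^ 2 := ⟨_, rfl⟩
  have hC'0 : 0 ≤ C' := by rw [hC']; positivity
  obtain ⟨a₂, ha₂⟩ : ∃ a₂ : ℝ, a₂ = 1 - ω / (2 * (C' + 1)) := ⟨_, rfl⟩
  refine ⟨q, hq1, max (max (1 / 2) a₁) a₂, ?_, ?_⟩
  · refine max_lt (max_lt (by norm_num) ha₁) ?_
    rw [ha₂]
    have : 0 < ω / (2 * (C' + 1)) := by positivity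
    linarith
  intro a haa ha0 ha1
  have hah : 1 / 2 ≤ a := (le_max_left _ _).trans ((le_max_left _ _).trans haa)
  have haa1 : a₁ ≤ a := (le_max_right _ _).trans ((le_max_left _ _).trans haa)
  have haa2 : a₂ ≤ a := (le_max_right _ _).trans haa
  have h1a : 0 < 1 - a := by linarith
  obtain ⟨M₀, hM₀⟩ := hf.shrink (1 - a) h1a
  refine ⟨max N₁ (q * (M₀ + 1)), fun N hN => ?_⟩
  have hNN₁ : N₁ ≤ N := (le_max_left _ _).trans hN
  have hNq : q * (M₀ + 1) ≤ N := (le_max_right _ _).trans hN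
  obtain ⟨m, hm⟩ : ∃ m : ℕ, m = N / q := ⟨_, rfl⟩
  have hmM : M₀ + 1 ≤ m := by
    rw [hm, Nat.le_div_iff_mul_le (by omega), mul_comm]
    exact hNq
  have hm1 : 1 ≤ m := by omega
  have hmN : m ≤ N := by rw [hm]; exact Nat.div_le_self _ _
  have hmq : m * q ≤ N := by rw [hm]; exact Nat.div_mul_le_self _ _
  have hN2 : N ≤ 2 * q * m := by
    have h1 : N < q * (N / q + 1) := Nat.lt_mul_div_succ N (by omega)
    rw [← hm] at h1
    nlinarith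
  have hmpos : (0 : ℝ) < m := by exact_mod_cast hm1
  have hNpos : (0 : ℝ) < N := lt_of_lt_of_le hmpos (by exact_mod_cast hmN)
  rw [← hm]
  obtain ⟨f, hfdef⟩ : ∃ f : Rk k → ℝ,
      f = fun θ => hk a θ * ‖(PR Y π ρ κ (N / D) (T * N)).ft θ‖ ^ 2 := ⟨_, rfl⟩
  have hfint : IntegrableOn f (bx k) := by rw [hfdef]; exact GOut_int ha0 ha1 _
  have hfnn : ∀ θ, 0 ≤ f θ := by rw [hfdef]; exact GOut_nn ha0 ha1 _
  have hEN := EE_nonneg (Y := Y) (π := π) (ρ := ρ) (κ := κ) ha0 ha1 N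
  -- the part where the mean is large
  have hAvm : MeasurableSet {θ : Rk k | r < Av Y π ρ (2 * m) θ} :=
    (isOpen_lt continuous_const (continuous_Av (2 * m))).measurableSet
  have hThm : MeasurableSet (Th Y π ρ d m (12 * r)) := (isClosed_Th d m (12 * r)).measurableSet
  have hp1 := hN₁ a haa1 ha0 ha1 N hNN₁ (2 * m) (by omega)
  have hbd1 : C * (((2 * m : ℕ) : ℝ) / N + ω / (8 * C)) ≤ ω / 4 := by
    have h1 : ((2 * m : ℕ) : ℝ) / N ≤ 2 / q := by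
      rw [div_le_div_iff₀ hNpos hqpos]
      push_cast
      have h2 : (m : ℝ) * q ≤ N := by exact_mod_cast hmq
      nlinarith
    have h2 : C * (2 / q) ≤ ω / 8 := by
      rw [mul_div_assoc', div_le_iff₀ hqpos]
      have h3 : 16 * C ≤ q * ω := by rwa [div_le_iff₀ hω] at hqr
      linarith
    have h3 : C * (ω / (8 * C)) = ω / 8 := by field_simp
    calc C * (((2 * m : ℕ) : ℝ) / N + ω / (8 * C)) ≤ C * (2 / q + ω / (8 * C)) :=
          mul_le_mul_of_nonneg_left (by linarith) hC.le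
      _ = C * (2 / q) + C * (ω / (8 * C)) := by ring
      _ ≤ ω / 4 := by rw [h3]; linarith
  have hp1' : ∫ θ in bx k ∩ {θ | r < Av Y π ρ (2 * m) θ}, f θ ≤ ω / 4 * EE Y π ρ κ a N := by
    rw [hfdef]
    exact hp1.trans (mul_le_mul_of_nonneg_right hbd1 hEN)
  -- splitting
  have hsplit := integral_inter_add_sdiff (μ := volume) (f := f)
    (s := bx k \ Th Y π ρ d m (12 * r)) hAvm (hfint.mono_set Set.sdiff_subset)
  have hq1' : ∫ θ in (bx k \ Th Y π ρ d m (12 * r)) ∩ {θ | r < Av Y π ρ (2 * m) θ}, f θ ≤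
      ∫ θ in bx k ∩ {θ | r < Av Y π ρ (2 * m) θ}, f θ := by
    refine setIntegral_mono_set (hfint.mono_set Set.inter_subset_left)
      (Filter.Eventually.of_forall fun θ => hfnn θ) ?_
    exact (Set.inter_subset_inter_left _ Set.sdiff_subset).eventuallyLE
  -- the part where the mean is small
  obtain ⟨B, hB⟩ : ∃ B : Set (Rk k),
      B = (bx k \ Th Y π ρ d m (12 * r)) \ {θ | r < Av Y π ρ (2 * m) θ} := ⟨_, rfl⟩
  have hBm : MeasurableSet B := by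
    rw [hB]
    exact (GOut_meas.diff hThm).diff hAvm
  have hBbx : B ⊆ bx k := by
    rw [hB]
    exact Set.sdiff_subset.trans Set.sdiff_subset
  have hBav : B ⊆ bx k ∩ {θ | Av Y π ρ (2 * m) θ ≤ r} := by
    rw [hB]
    rintro θ ⟨⟨h1, _⟩, h2⟩
    have h3 : ¬ r < Av Y π ρ (2 * m) θ := h2
    exact ⟨h1, not_lt.1 h3⟩
  have h2m : 2 * m / 2 = m := by omega
  have hfB : ∀ θ ∈ B, f θ ≤ (2 / (1 - a)) ^ k * ((1 - a) ^ 2 * Real.pi ^ 2 / (2 * d ^ 2)) *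
      (T * N : ℝ) ^ 2 := by
    intro θ hθ
    have hθ1 : θ ∈ bx k := hBbx hθ
    have hθ2 : Av Y π ρ (2 * m) θ ≤ r := (hBav hθ).2
    have hθ3 : θ ∉ Th Y π ρ d m (12 * r) := by
      rw [hB] at hθ
      exact hθ.1.2
    have hex : ∃ i, d < |θ i| := by
      by_contra hcon
      push Not at hcon
      have := av_low hf (M := 2 * m) (by omega) hcon hθ2
      rw [h2m] at this
      exact hθ3 this
    obtain ⟨i, hi⟩ := hex
    have h1 := hk_high hah ha1 hd hθ1 hi.le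
    have h2 := GOut_ft_PR (π := π) (κ := κ) h.bulk (N / D) (T * N) θ
    push_cast at h2
    rw [hfdef]
    exact mul_le_mul h1 h2 (by positivity) (by positivity)
  have hvol : volume.real B ≤ (8 / d) ^ k *
      ((4 * Real.pi) ^ k * 4 * ((1 - a) ^ k * EE Y π ρ κ a N / (m : ℝ) ^ 2)) := by
    have h1 : volume B ≤ ENNReal.ofReal ((8 / d) ^ k) * volume (Th Y π ρ d m (1 / 10)) := by
      refine (measure_mono hBav).trans ?_
      have := vol_av_le (π := π) h.bulk hf (M := 2 * m) (by omega)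
      rwa [h2m] at this
    have h2 := vol_Th_le (π := π) h.bulk h.a_le hκ hκK ha0 ha1 (d := d) (M := m) hm1
      (fun θ hθ i => hM₀ m (by omega) θ hθ i)
    have h3 : ENNReal.ofReal ((8 / d) ^ k) * volume (Th Y π ρ d m (1 / 10)) ≤
        ENNReal.ofReal ((8 / d) ^ k * ((4 * Real.pi) ^ k * 4 *
          ((1 - a) ^ k * EE Y π ρ κ a m / (m : ℝ) ^ 2))) := by
      rw [ENNReal.ofReal_mul (by positivity)]
      gcongr
    have hEm := EE_nonneg (Y := Y) (π := π) (ρ := ρ) (κ := κ) ha0 ha1 m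
    have h4 : volume.real B ≤ (8 / d) ^ k * ((4 * Real.pi) ^ k * 4 *
          ((1 - a) ^ k * EE Y π ρ κ a m / (m : ℝ) ^ 2)) :=
      ENNReal.toReal_le_of_le_ofReal (by positivity) (h1.trans h3)
    refine h4.trans ?_
    have h5 := EE_mono (π := π) (κ := κ) h.bulk h.a_le ha0 ha1 hmN
    gcongr
  have hp2 : ∫ θ in B, f θ ≤ ω / 2 * EE Y π ρ κ a N := by
    have h1 := GOut_le hBm hBbx hfint hfB
    have h2 : (2 / (1 - a)) ^ k * ((1 - a) ^ 2 * Real.pi ^ 2 / (2 * d ^ 2)) *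
        (T * N : ℝ) ^ 2 * volume.real B ≤
        (2 / (1 - a)) ^ k * ((1 - a) ^ 2 * Real.pi ^ 2 / (2 * d ^ 2)) *
        (T * N : ℝ) ^ 2 * ((8 / d) ^ k *
      ((4 * Real.pi) ^ k * 4 * ((1 - a) ^ k * EE Y π ρ κ a N / (m : ℝ) ^ 2))) :=
      mul_le_mul_of_nonneg_left hvol (by positivity)
    have h3 : (2 / (1 - a)) ^ k * ((1 - a) ^ 2 * Real.pi ^ 2 / (2 * d ^ 2)) *
        (T * N : ℝ) ^ 2 * ((8 / d) ^ k *
      ((4 * Real.pi) ^ k * 4 * ((1 - a) ^ k * EE Y π ρ κ a N / (m : ℝ) ^ 2))) =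
        2 ^ k * (Real.pi ^ 2 / (2 * d ^ 2)) * (T : ℝ) ^ 2 *
          ((8 / d) ^ k * ((4 * Real.pi) ^ k * 4)) * ((N : ℝ) ^ 2 / (m : ℝ) ^ 2) *
          ((1 - a) ^ 2 * EE Y π ρ κ a N) := by
      have hk1 : (1 - a) ^ k ≠ 0 := (pow_pos h1a k).ne'
      rw [div_pow 2 (1 - a) k]
      field_simp
    have h4 : (N : ℝ) ^ 2 / (m : ℝ) ^ 2 ≤ 4 * (q : ℝ) ^ 2 := by
      rw [div_le_iff₀ (by positivity)]
      have h5 : (N : ℝ) ≤ 2 * q * m := by exact_mod_cast hN2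
      calc (N : ℝ) ^ 2 ≤ (2 * q * m) ^ 2 := pow_le_pow_left₀ hNpos.le h5 2
        _ = 4 * (q : ℝ) ^ 2 * (m : ℝ) ^ 2 := by ring
    have h5 : 2 ^ k * (Real.pi ^ 2 / (2 * d ^ 2)) * (T : ℝ) ^ 2 *
          ((8 / d) ^ k * ((4 * Real.pi) ^ k * 4)) * ((N : ℝ) ^ 2 / (m : ℝ) ^ 2) ≤ C' := by
      rw [hC', mul_assoc (2 ^ k * (Real.pi ^ 2 / (2 * d ^ 2)) * (T : ℝ) ^ 2 *
          ((8 / d) ^ k * ((4 * Real.pi) ^ k * 4))) 4]
      exact mul_le_mul_of_nonneg_left h4 (by positivity)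
    have h6 : C' * ((1 - a) ^ 2 * EE Y π ρ κ a N) ≤ ω / 2 * EE Y π ρ κ a N := by
      rw [← mul_assoc]
      refine mul_le_mul_of_nonneg_right ?_ hEN
      have h7 : 1 - a ≤ ω / (2 * (C' + 1)) := by
        rw [ha₂] at haa2
        linarith
      have h8 : (1 - a) ^ 2 ≤ ω / (2 * (C' + 1)) := by
        refine le_trans ?_ h7
        rw [sq]
        exact mul_le_of_le_one_left h1a.le (by linarith)
      calc C' * (1 - a) ^ 2 ≤ (C' + 1) * (ω / (2 * (C' + 1))) :=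
            mul_le_mul (by linarith) h8 (by positivity) (by positivity)
        _ = ω / 2 := by field_simp
    calc ∫ θ in B, f θ ≤ _ := h1
      _ ≤ _ := h2
      _ = _ := h3
      _ ≤ C' * ((1 - a) ^ 2 * EE Y π ρ κ a N) :=
          mul_le_mul_of_nonneg_right h5 (by positivity)
      _ ≤ _ := h6
  rw [← hB] at hsplit
  have hgoal : ∫ θ in bx k \ Th Y π ρ d m (12 * r), f θ ≤ ω * EE Y π ρ κ a N := by
    rw [← hsplit]
    nlinarith
  rw [hfdef] at hgoal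
  exact hgoal

/-- GOUT. (4i) VOL≥. `en_PR_ge` with `T = 1`, `Fm.en_self_fourier`, `energy_out` with
`ω = (2π)^k c₁ / 2`, and on `Th ⊆ bx`: `hk ≤ (2 / (1 - a))^k`, `‖ft P‖ ≤ N`. -/
theorem vol_Th_ge (h : Erg Y Λ K ρ) (hπ : Stp Y π) (hκ : 0 < κ) (hκK : κ * K ≤ 1 / 8) {D : ℕ}
    (hD : 4 ≤ D) {d r : ℝ} (hf : Frq Y π ρ d r) :
    ∃ q : ℕ, 1 ≤ q ∧ ∃ c₂ : ℝ, 0 < c₂ ∧ ∃ a₀ : ℝ, a₀ < 1 ∧ ∀ a : ℝ, a₀ ≤ a → 0 < a → a < 1 →
      ∃ N₀ : ℕ, ∀ N ≥ N₀, ∀ c : ℝ, (4 / (D : ℝ)) ^ c ≤ 1 / 16 → Rec Y π ρ κ a c N →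
      EE Y π ρ κ a N = Fm.en a (GU Y π ρ κ N) (GU Y π ρ κ N) →
      ENNReal.ofReal (c₂ * ((1 - a) ^ k * EE Y π ρ κ a N / (N : ℝ) ^ 2)) ≤
        volume (Th Y π ρ d (N / q) (12 * r)) := by
  obtain ⟨c₁, hc₁, hen⟩ := en_PR_ge (π := π) h hκ hκK
  obtain ⟨N₁, hN₁⟩ := hen D hD
  obtain ⟨q, hq, a₀, ha₀, hout⟩ := energy_out (π := π) h hπ hκ hκK hD 1 hf
    (ω := (2 * Real.pi) ^ k * c₁ / 2) (by positivity)
  refine ⟨q, hq, Real.pi ^ k * c₁ / 2, by positivity, a₀, ha₀, fun a haa ha0 ha1 => ?_⟩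
  obtain ⟨N₂, hN₂⟩ := hout a haa ha0 ha1
  have h1a : 0 < 1 - a := by linarith
  refine ⟨max (max N₁ N₂) 1, fun N hN c hc hrec hE => ?_⟩
  have hNN₁ : N₁ ≤ N := (le_max_left _ _).trans ((le_max_left _ _).trans hN)
  have hNN₂ : N₂ ≤ N := (le_max_right _ _).trans ((le_max_left _ _).trans hN)
  have hN1 : 1 ≤ N := (le_max_right _ _).trans hN
  have hNpos : (0 : ℝ) < N := by exact_mod_cast hN1
  have h1 := hN₁ N hNN₁ a c ha0 ha1 hc hrec hE 1 le_rfl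
  have h2 := hN₂ N hNN₂
  obtain ⟨f, hfdef⟩ : ∃ f : Rk k → ℝ,
      f = fun θ => hk a θ * ‖(PR Y π ρ κ (N / D) (1 * N)).ft θ‖ ^ 2 := ⟨_, rfl⟩
  have hfint : IntegrableOn f (bx k) := by rw [hfdef]; exact GOut_int ha0 ha1 _
  have hThm : MeasurableSet (Th Y π ρ d (N / q) (12 * r)) :=
    (isClosed_Th d (N / q) (12 * r)).measurableSet
  have hsplit := integral_inter_add_sdiff (μ := volume) (f := f) (s := bx k) hThm hfint
  have hself := Fm.en_self_fourier ha0 ha1 (PR Y π ρ κ (N / D) (1 * N))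
  have h2' : ∫ θ in bx k \ Th Y π ρ d (N / q) (12 * r), f θ ≤
      (2 * Real.pi) ^ k * c₁ / 2 * EE Y π ρ κ a N := by
    rw [hfdef]
    exact h2
  have hself' : (2 * Real.pi) ^ k *
      Fm.en a (PR Y π ρ κ (N / D) (1 * N)) (PR Y π ρ κ (N / D) (1 * N)) = ∫ θ in bx k, f θ := by
    rw [hfdef]
    exact hself
  have hp : 0 < (2 * Real.pi) ^ k := by positivity
  have h3 : (2 * Real.pi) ^ k * (c₁ * EE Y π ρ κ a N) ≤ ∫ θ in bx k, f θ := by
    rw [← hself']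
    exact mul_le_mul_of_nonneg_left h1 hp.le
  have h4 : (2 * Real.pi) ^ k * c₁ / 2 * EE Y π ρ κ a N ≤
      ∫ θ in bx k ∩ Th Y π ρ d (N / q) (12 * r), f θ := by
    have : (2 * Real.pi) ^ k * (c₁ * EE Y π ρ κ a N) =
      (2 * Real.pi) ^ k * c₁ / 2 * EE Y π ρ κ a N +
        (2 * Real.pi) ^ k * c₁ / 2 * EE Y π ρ κ a N := by ring
    linarith
  have h5 : ∀ θ ∈ bx k ∩ Th Y π ρ d (N / q) (12 * r), f θ ≤ (2 / (1 - a)) ^ k * (N : ℝ) ^ 2 := by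
    intro θ _
    have h6 := GOut_ft_PR (π := π) (κ := κ) h.bulk (N / D) (1 * N) θ
    rw [one_mul] at h6
    rw [hfdef, one_mul]
    exact mul_le_mul (hk_le ha0 ha1 θ) h6 (by positivity) (by positivity)
  have h6 := GOut_le (GOut_meas.inter hThm) Set.inter_subset_left hfint h5
  have h7 := h4.trans h6
  have hfin : volume (bx k ∩ Th Y π ρ d (N / q) (12 * r)) ≠ ⊤ :=
    ((measure_mono Set.inter_subset_left).trans_lt GOut_compact.measure_lt_top).ne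
  have h8 : Real.pi ^ k * c₁ / 2 * ((1 - a) ^ k * EE Y π ρ κ a N / (N : ℝ) ^ 2) ≤
      volume.real (bx k ∩ Th Y π ρ d (N / q) (12 * r)) := by
    have hX : 0 < (2 / (1 - a)) ^ k * (N : ℝ) ^ 2 := by positivity
    refine le_of_mul_le_mul_left ?_ hX
    refine le_trans (le_of_eq ?_) h7
    rw [div_pow 2 (1 - a) k, mul_pow 2 Real.pi k]
    have hk1 : (1 - a) ^ k ≠ 0 := (pow_pos h1a k).ne'
    field_simp
  calc ENNReal.ofReal (Real.pi ^ k * c₁ / 2 * ((1 - a) ^ k * EE Y π ρ κ a N / (N : ℝ) ^ 2)) ≤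
      ENNReal.ofReal (volume.real (bx k ∩ Th Y π ρ d (N / q) (12 * r))) :=
        ENNReal.ofReal_le_ofReal h8
    _ = volume (bx k ∩ Th Y π ρ d (N / q) (12 * r)) := ENNReal.ofReal_toReal hfin
    _ ≤ volume (Th Y π ρ d (N / q) (12 * r)) := measure_mono Set.inter_subset_right

end Pool.Agent.SawM2
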