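import Mathlib

/-!
# Almost multiplicative sequences, averages (module SEQB)
-/

set_option autoImplicit false

namespace Pool.Agent.SawM2

open Finset

/-- SEQB (averages). Proof: the number of `m < M` with `‖1 - φ m‖ > 5 α` is less than `M / 5`
(or `α = 0`, then none, or `M = 0`, `n = 0`: `φ`-value at `0` needs the hypothesis `h00`). For
`2 n ≤ M`, `1 ≤ M`, among the `m < M - n` there is one with `m` and `m + n` both outside the
exceptional set: the exceptional ones are less than `2 M / 5 < M / 2 ≤ M - n`. Then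
`φ n = (φ (m + n) - (error ≤ e)) / φ m`, `‖1 - φ n‖ ≤ (5 α + 5 α + e) / (1 - 5 α) ≤ 12 α`. -/
theorem avg_seq {φ : ℕ → ℂ} {e α : ℝ} (h : ∀ m n, ‖φ (m + n) - φ m * φ n‖ ≤ e) {M : ℕ}
    (hM : 1 ≤ M) (hα : 0 ≤ α) (hα1 : α ≤ 1 / 100) (he : e ≤ α)
    (h1 : ∑ m ∈ range M, ‖1 - φ m‖ ≤ M * α) {n : ℕ} (hn : 2 * n ≤ M) : ‖1 - φ n‖ ≤ 12 * α := by
  set B : Finset ℕ := (range M).filter (fun m => 5 * α < ‖1 - φ m‖) with hB
  have hcard : 5 * B.card < M := by
    rcases Nat.eq_zero_or_pos B.card with h0 | h0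
    · omega
    · have h2 : (B.card : ℝ) * (5 * α) < ∑ m ∈ B, ‖1 - φ m‖ := by
        rw [← nsmul_eq_mul, ← sum_const]
        refine sum_lt_sum_of_nonempty (card_pos.1 h0) ?_
        intro m hm
        exact (mem_filter.1 hm).2
      have h3 : ∑ m ∈ B, ‖1 - φ m‖ ≤ ∑ m ∈ range M, ‖1 - φ m‖ :=
        sum_le_sum_of_subset_of_nonneg (filter_subset _ _) (fun _ _ _ => norm_nonneg _)
      have h4 : (B.card : ℝ) * (5 * α) < M * α := by linarith
      have h5 : 0 < α := by
        rcases hα.lt_or_eq with h6 | h6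
        · exact h6
        · rw [← h6] at h4; simp at h4
      have h6 : (5 * B.card : ℝ) < M := by
        have : (5 * B.card : ℝ) * α < M * α := by linarith
        exact lt_of_mul_lt_mul_right this hα
      exact_mod_cast h6
  have hex : ∃ m, m < M - n ∧ m ∉ B ∧ m + n ∉ B := by
    by_contra hcon
    push Not at hcon
    have h2 : range (M - n) ⊆ B ∪ (B.image (fun k => k - n)) := by
      intro m hm
      rw [mem_union]
      by_cases hmB : m ∈ B
      · exact Or.inl hmB
      · right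
        rw [mem_image]
        exact ⟨m + n, hcon m (mem_range.1 hm) hmB, by simp⟩
    have h3 := (card_le_card h2).trans (card_union_le _ _)
    have h4 := card_image_le (s := B) (f := fun k => k - n)
    rw [card_range] at h3
    omega
  obtain ⟨m, hm, hm1, hm2⟩ := hex
  have g1 : ‖1 - φ m‖ ≤ 5 * α := by
    by_contra hc
    exact hm1 (mem_filter.2 ⟨mem_range.2 (by omega), not_le.1 hc⟩)
  have g2 : ‖1 - φ (m + n)‖ ≤ 5 * α := by
    by_contra hc
    exact hm2 (mem_filter.2 ⟨mem_range.2 (by omega), not_le.1 hc⟩)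
  have g3 := h m n
  have g4 : (1 - φ n) * φ m = -(1 - φ m) + ((1 - φ (m + n)) + (φ (m + n) - φ m * φ n)) := by ring
  have g5 : ‖(1 - φ n) * φ m‖ ≤ 5 * α + (5 * α + e) := by
    rw [g4]
    refine (norm_add_le _ _).trans (add_le_add (by rw [norm_neg]; exact g1) ?_)
    exact (norm_add_le _ _).trans (add_le_add g2 g3)
  rw [norm_mul] at g5
  have g6 : 95 / 100 ≤ ‖φ m‖ := by
    have h7 : ‖(1 : ℂ)‖ - ‖φ m‖ ≤ ‖1 - φ m‖ := norm_sub_norm_le _ _
    rw [norm_one] at h7
    linarith
  have g7 := mul_le_mul_of_nonneg_left g6 (norm_nonneg (1 - φ n))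
  linarith

end Pool.Agent.SawM2
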