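import Pool.Agent.SawM2.Basic

/-!
# Characteristic functions near one (module SUMA)
-/

set_option autoImplicit false

namespace Pool.Agent.SawM2

open Finset MeasureTheory

variable {k : ℕ}

namespace Fm

/-- the mean of `|1 - exp (i ξ · x)|` -/
noncomputable def dv (μ : Fm k) (ξ : Rk k) : ℝ :=
  μ.pr fun x => ‖(1 : ℂ) - Complex.exp (Complex.I * (dt ξ x : ℝ))‖

private theorem SumA_sq (y : ℝ) :
    ‖(1 : ℂ) - Complex.exp (Complex.I * (y : ℝ))‖ ^ 2 = 2 * (1 - Real.cos y) := by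
  rw [Complex.sq_norm, Complex.normSq_apply, mul_comm Complex.I, Complex.sub_re, Complex.sub_im,
    Complex.exp_ofReal_mul_I_re, Complex.exp_ofReal_mul_I_im, Complex.one_re, Complex.one_im]
  have := Real.sin_sq_add_cos_sq y
  nlinarith

private theorem SumA_norm (y : ℝ) : ‖Complex.exp (Complex.I * (y : ℝ))‖ = 1 := by
  rw [mul_comm, Complex.norm_exp_ofReal_mul_I]

/-- SUMA. `ft - mass` is a mean of `exp - 1`. -/
theorem norm_le_dv {μ : Fm k} (hμ : μ.Nn) (h1 : μ.mass = 1) (ξ : Rk k) :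
    ‖1 - μ.ft ξ‖ ≤ μ.dv ξ := by
  have h2 : (1 : ℂ) = ∑ i, (μ.c i : ℂ) := by
    rw [← Complex.ofReal_one, ← h1]; unfold mass; push_cast; rfl
  have h : 1 - μ.ft ξ =
      ∑ i, (μ.c i : ℂ) * ((1 : ℂ) - Complex.exp (Complex.I * (dt ξ (μ.x i) : ℝ))) := by
    unfold ft
    simp only [mul_sub, mul_one, Finset.sum_sub_distrib]
    rw [← h2]
  rw [h]
  unfold dv pr
  refine (norm_sum_le _ _).trans (Finset.sum_le_sum fun i _ => ?_)
  rw [norm_mul, Complex.norm_real, Real.norm_eq_abs, abs_of_nonneg (hμ i)]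

/-- SUMA. `|1 - e^{iy}|² = 2 (1 - cos y)`, so by Cauchy-Schwarz (or Jensen)
`(dv)² ≤ mass · pr (2 (1 - cos)) = 2 re (1 - ft) ≤ 2 ‖1 - ft‖` (`re_ft`). -/
theorem dv_le {μ : Fm k} (hμ : μ.Nn) (h1 : μ.mass = 1) (ξ : Rk k) :
    μ.dv ξ ≤ Real.sqrt (2 * ‖1 - μ.ft ξ‖) := by
  refine Real.le_sqrt_of_sq_le ?_
  set f : Zk k → ℝ := fun x => ‖(1 : ℂ) - Complex.exp (Complex.I * (dt ξ x : ℝ))‖ with hf
  have hd : μ.dv ξ = μ.pr f := rfl
  set t := μ.pr f with ht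
  have h2 : 0 ≤ μ.pr fun x => (f x - t) ^ 2 := hμ.pr_nonneg fun x => sq_nonneg _
  have h3 : (μ.pr fun x => (f x - t) ^ 2) = (μ.pr fun x => f x ^ 2) - t ^ 2 := by
    have e1 : (μ.pr fun x => (f x - t) ^ 2) =
        μ.pr fun x => (f x ^ 2 + (-2 * t) * f x) + t ^ 2 :=
      pr_congr μ fun x => by ring
    rw [e1, pr_fadd, pr_fadd, pr_const, h1, pr_mul_left, ← ht]
    ring
  have h4 : (μ.pr fun x => f x ^ 2) = 2 * (1 - (μ.ft ξ).re) := by
    have e1 : (μ.pr fun x => f x ^ 2) = μ.pr fun x => 2 * (1 - Real.cos (dt ξ x)) :=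
      pr_congr μ fun x => SumA_sq _
    rw [e1, pr_mul_left, pr_fsub, pr_const, h1, re_ft]
    ring
  have h5 : 1 - (μ.ft ξ).re ≤ ‖1 - μ.ft ξ‖ := by
    have := Complex.re_le_norm (1 - μ.ft ξ)
    rwa [Complex.sub_re, Complex.one_re] at this
  rw [hd]
  nlinarith

/-- SUMA. `|1 - e^{i(y + y')}| ≤ |1 - e^{iy}| + |1 - e^{iy'}|`. -/
theorem dv_add_le {μ : Fm k} (hμ : μ.Nn) (ξ η : Rk k) : μ.dv (ξ + η) ≤ μ.dv ξ + μ.dv η := by
  unfold dv
  rw [← pr_fadd]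
  refine hμ.pr_mono fun x => ?_
  rw [dt_add_left]
  have e : (1 : ℂ) - Complex.exp (Complex.I * ((dt ξ x + dt η x : ℝ) : ℂ)) =
      (1 - Complex.exp (Complex.I * (dt ξ x : ℝ))) +
        Complex.exp (Complex.I * (dt ξ x : ℝ)) * (1 - Complex.exp (Complex.I * (dt η x : ℝ))) := by
    push_cast
    rw [mul_add, Complex.exp_add]
    ring
  rw [e]
  refine (norm_add_le _ _).trans ?_
  rw [norm_mul, SumA_norm, one_mul]

/-- SUMA. `|1 - e^{-iy}| = |1 - e^{iy}|`. -/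
theorem dv_neg (μ : Fm k) (ξ : Rk k) : μ.dv (-ξ) = μ.dv ξ := by
  unfold dv
  refine pr_congr μ fun x => ?_
  rw [← Real.sqrt_sq (norm_nonneg ((1 : ℂ) - Complex.exp (Complex.I * (dt (-ξ) x : ℝ)))),
    ← Real.sqrt_sq (norm_nonneg ((1 : ℂ) - Complex.exp (Complex.I * (dt ξ x : ℝ)))),
    SumA_sq, SumA_sq, dt_neg_left, Real.cos_neg]

theorem dv_nonneg {μ : Fm k} (hμ : μ.Nn) (ξ : Rk k) : 0 ≤ μ.dv ξ :=
  hμ.pr_nonneg fun _ => norm_nonneg _

/-- SUMA. Induction on the finite set. -/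
theorem dv_sum_le {μ : Fm k} (hμ : μ.Nn) {κ : Type} (s : Finset κ) (ξ : κ → Rk k) :
    μ.dv (∑ j ∈ s, ξ j) ≤ ∑ j ∈ s, μ.dv (ξ j) := by
  classical
  induction s using Finset.induction_on with
  | empty =>
    simp only [Finset.sum_empty]
    unfold dv
    simp [pr]
  | insert j s hj ih =>
    rw [Finset.sum_insert hj, Finset.sum_insert hj]
    exact (dv_add_le hμ _ _).trans (by linarith)

end Fm

end Pool.Agent.SawM2
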