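import Pool.Agent.SawM2.Mult
import Pool.Agent.SawM2.SumA
import Pool.Agent.SawM2.SeqB

/-!
# Means of the characteristic functions (section 4h)
-/

set_option autoImplicit false

namespace Pool.Agent.SawM2

open Finset Filter Pool.Agent.Bub4 Pool.Agent.SawDiff

variable {S V : Type} [Fintype S] [AddCommGroup V] {Y : Sys S V} {Λ K : ℝ} {ρ : List S → ℝ}
  {k : ℕ} {π : V →+ Zk k} {κ a : ℝ}

/-- the mean of `|1 - φ_m|` over `m < M` -/
noncomputable def Av (Y : Sys S V) (π : V →+ Zk k) (ρ : List S → ℝ) (M : ℕ) (θ : Rk k) : ℝ :=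
  (M : ℝ)⁻¹ * ∑ m ∈ range M, ‖1 - ph Y π ρ m θ‖

/-- Assumptions on the frequency threshold `d` (sections 4h and 5): almost multiplicativity with
error `r` at frequencies at most `d`, and shrinking of the sets `Th`. -/
structure Frq (Y : Sys S V) (π : V →+ Zk k) (ρ : List S → ℝ) (d r : ℝ) : Prop where
  d_pos : 0 < d
  d_le : d ≤ 1
  r_pos : 0 < r
  r_le : r ≤ 1 / 160000
  mul : ∀ θ : Rk k, (∀ i, |θ i| ≤ d) → ∀ m n,
    ‖ph Y π ρ (m + n) θ - ph Y π ρ m θ * ph Y π ρ n θ‖ ≤ r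
  shrink : ∀ e : ℝ, 0 < e → ∃ M₀ : ℕ, ∀ M ≥ M₀, ∀ θ ∈ Th Y π ρ d M (1 / 10), ∀ i, |θ i| ≤ e

private theorem gav_sum {M : ℕ} (hM : 1 ≤ M) {θ : Rk k} {r : ℝ} (h1 : Av Y π ρ M θ ≤ r) :
    ∑ m ∈ range M, ‖1 - ph Y π ρ m θ‖ ≤ M * r := by
  have hM0 : (0 : ℝ) < M := by exact_mod_cast hM
  unfold Av at h1
  rw [inv_mul_le_iff₀ hM0] at h1
  exact h1

private theorem gav_mass (h : Bulk Y Λ ρ) (n : ℕ) : (lw Y π ρ n).mass = 1 := by
  rw [mass_lw]
  have := h.right [] n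
  simpa [h.nil] using this

/-- GAV. (4h) low frequencies: `avg_seq` with `α = e = r`. -/
theorem av_low {d r : ℝ} (hf : Frq Y π ρ d r) {M : ℕ} (hM : 1 ≤ M) {θ : Rk k}
    (hθ : ∀ i, |θ i| ≤ d) (h1 : Av Y π ρ M θ ≤ r) : θ ∈ Th Y π ρ d (M / 2) (12 * r) := by
  refine ⟨hθ, fun n hn => ?_⟩
  have hM0 : (0 : ℝ) < M := by exact_mod_cast hM
  have h2 : ∑ m ∈ range M, ‖1 - ph Y π ρ m θ‖ ≤ M * r := gav_sum hM h1
  exact avg_seq (φ := fun m => ph Y π ρ m θ) (e := r) (α := r) (hf.mul θ hθ) hM hf.r_pos.le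
    (hf.r_le.trans (by norm_num)) le_rfl h2 (by omega)

/-- GAV. (4h) differences: `‖1 - φ_m (θ - θ')‖ ≤ dv (θ - θ') ≤ √(2 ‖1 - φ_m θ‖) + √(2 ‖1 - φ_m θ'‖)`
(`Fm.norm_le_dv`, `dv_add_le`, `dv_neg`, `dv_le` for `lw Y π ρ m`, a probability law), mean over
`m < M` by Cauchy-Schwarz: at most `2 √(2 r) ≤ 1/120`; `avg_seq` with `α = 2 √(2 r)`, `e = r`:
`12 α ≤ 1/10`. -/
theorem av_diff (h : Bulk Y Λ ρ) {d r : ℝ} (hf : Frq Y π ρ d r) {M : ℕ} (hM : 1 ≤ M)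
    {θ θ' : Rk k} (h1 : Av Y π ρ M θ ≤ r) (h2 : Av Y π ρ M θ' ≤ r)
    (hd : ∀ i, |θ i - θ' i| ≤ d) : θ - θ' ∈ Th Y π ρ d (M / 2) (1 / 10) := by
  have hd' : ∀ i, |(θ - θ') i| ≤ d := fun i => by simpa using hd i
  refine ⟨hd', fun n hn => ?_⟩
  have hr0 := hf.r_pos
  have hr1 := hf.r_le
  have hM0 : (0 : ℝ) < M := by exact_mod_cast hM
  have hx := gav_sum hM h1
  have hx' := gav_sum hM h2
  have hs : ∀ θ : Rk k, ∑ m ∈ range M, ‖1 - ph Y π ρ m θ‖ ≤ M * r →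
      ∑ m ∈ range M, Real.sqrt (2 * ‖1 - ph Y π ρ m θ‖) ≤ M * Real.sqrt (2 * r) := by
    intro θ hθ
    refine le_of_sq_le_sq ?_ (by positivity)
    have h3 := Finset.sum_mul_sq_le_sq_mul_sq (range M) (fun _ => (1 : ℝ))
      (fun m => Real.sqrt (2 * ‖1 - ph Y π ρ m θ‖))
    simp only [one_mul, one_pow, Finset.sum_const, Finset.card_range, nsmul_eq_mul, mul_one] at h3
    refine h3.trans ?_
    have h4 : ∑ m ∈ range M, Real.sqrt (2 * ‖1 - ph Y π ρ m θ‖) ^ 2 =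
        2 * ∑ m ∈ range M, ‖1 - ph Y π ρ m θ‖ := by
      rw [Finset.mul_sum]
      exact Finset.sum_congr rfl fun m _ => Real.sq_sqrt (by positivity)
    rw [h4, mul_pow, Real.sq_sqrt (by positivity)]
    nlinarith
  have key : ∑ m ∈ range M, ‖1 - ph Y π ρ m (θ - θ')‖ ≤ M * (2 * Real.sqrt (2 * r)) := by
    have h5 : ∀ m ∈ range M, ‖1 - ph Y π ρ m (θ - θ')‖ ≤
        Real.sqrt (2 * ‖1 - ph Y π ρ m θ‖) + Real.sqrt (2 * ‖1 - ph Y π ρ m θ'‖) := by
      intro m _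
      have hn := nn_lw Y π h.nonneg m
      have hm := gav_mass (π := π) h m
      have e1 := Fm.norm_le_dv hn hm (θ - θ')
      have e2 := Fm.dv_add_le hn θ (-θ')
      rw [Fm.dv_neg, ← sub_eq_add_neg] at e2
      have e3 := Fm.dv_le hn hm θ
      have e4 := Fm.dv_le hn hm θ'
      unfold ph
      linarith
    refine (Finset.sum_le_sum h5).trans ?_
    rw [Finset.sum_add_distrib]
    have := hs θ hx
    have := hs θ' hx'
    linarith
  have hsq : Real.sqrt (2 * r) ≤ 1 / 240 := by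
    rw [Real.sqrt_le_left (by norm_num)]
    linarith
  have hsr : r ≤ 2 * Real.sqrt (2 * r) := by
    have h6 : r ≤ Real.sqrt (2 * r) := by
      refine Real.le_sqrt_of_sq_le ?_
      nlinarith
    have := Real.sqrt_nonneg (2 * r)
    linarith
  have := avg_seq (φ := fun m => ph Y π ρ m (θ - θ')) (e := r) (α := 2 * Real.sqrt (2 * r))
    (hf.mul _ hd') hM (by positivity) (by linarith) hsr key (n := n) (by omega)
  refine this.trans ?_
  linarith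

/-- GAV. -/
theorem continuous_Av (M : ℕ) : Continuous (Av Y π ρ M) := by
  unfold Av
  refine continuous_const.mul (continuous_finsetSum _ fun m _ => ?_)
  exact (continuous_const.sub (continuous_ph m)).norm

/-- GAV. `Th` is closed (`continuous_ph`) and decreasing in `M`, increasing in `r`. -/
theorem isClosed_Th (d : ℝ) (M : ℕ) (r : ℝ) : IsClosed (Th Y π ρ d M r) := by
  have h1 : Th Y π ρ d M r = (⋂ i, {θ : Rk k | |θ i| ≤ d}) ∩
      ⋂ n, ⋂ (_ : n ≤ M), {θ : Rk k | ‖1 - ph Y π ρ n θ‖ ≤ r} := by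
    ext θ
    simp [Th]
  rw [h1]
  refine IsClosed.inter (isClosed_iInter fun i => ?_) (isClosed_iInter fun n =>
    isClosed_iInter fun _ => ?_)
  · exact isClosed_le (continuous_apply i).abs continuous_const
  · exact isClosed_le (continuous_const.sub (continuous_ph n)).norm continuous_const

theorem Th_subset {d r r' : ℝ} {M M' : ℕ} (hM : M' ≤ M) (hr : r ≤ r') :
    Th Y π ρ d M r ⊆ Th Y π ρ d M' r' :=
  fun _ hθ => ⟨hθ.1, fun n hn => (hθ.2 n (hn.trans hM)).trans hr⟩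

end Pool.Agent.SawM2
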