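import Pool.Agent.SawM2.TgB
import Pool.Agent.SawM2.GAv

/-!
# Choice of the frequency threshold (section 5)
-/

set_option autoImplicit false

namespace Pool.Agent.SawM2

open Finset Filter Topology Pool.Agent.Bub4 Pool.Agent.SawDiff

variable {S V : Type} [Fintype S] [AddCommGroup V] {Y : Sys S V} {Λ K : ℝ} {ρ : List S → ℝ}
  {k : ℕ} {π : V →+ Zk k}

/-- for every small `r` there is a frequency threshold -/
theorem exists_frq (h : Erg Y Λ K ρ) (hπ : Stp Y π) (hN : Ntg Y π ρ) {r : ℝ} (hr : 0 < r)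
    (hr1 : r ≤ 1 / 160000) : ∃ d : ℝ, Frq Y π ρ d r := by
  obtain ⟨d₁, hd₁, hm⟩ := ph_mul (π := π) h hπ hr
  obtain ⟨d₂, hd₂, hs⟩ := th_shrink h hπ hN
  refine ⟨min 1 (min d₁ d₂), lt_min one_pos (lt_min hd₁ hd₂), min_le_left _ _, hr, hr1, ?_, ?_⟩
  · intro θ hθ
    exact hm θ fun i => (hθ i).trans ((min_le_right _ _).trans (min_le_left _ _))
  · intro e he
    obtain ⟨N₀, hN₀⟩ := hs _ ((min_le_right 1 (min d₁ d₂)).trans (min_le_right _ _)) e he
    exact ⟨N₀, fun M hM θ hθ => hN₀ M hM _ le_rfl θ hθ⟩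

/-- the reversed law has the same characteristic functions, hence the same tight directions -/
theorem Ntg.rv (hN : Ntg Y π ρ) : Ntg Y π (rv ρ) := by
  intro a ha ht
  refine hN a ha fun ε hε => ?_
  obtain ⟨R, hR⟩ := ht ε hε
  refine ⟨R, fun n => le_trans (le_of_eq ?_) (hR n)⟩
  rw [← Y.E_reverse]
  refine Y.E_congr fun w _ => ?_
  simp [SawM2.rv]

/-- the same threshold works for the reversed law -/
theorem Frq.rv {d r : ℝ} (hf : Frq Y π ρ d r) : Frq Y π (rv ρ) d r where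
  d_pos := hf.d_pos
  d_le := hf.d_le
  r_pos := hf.r_pos
  r_le := hf.r_le
  mul := by
    intro θ hθ m n
    rw [ph_rv, ph_rv, ph_rv]
    exact hf.mul θ hθ m n
  shrink := by
    intro e he
    obtain ⟨M₀, hM₀⟩ := hf.shrink e he
    refine ⟨M₀, fun M hM θ hθ => hM₀ M hM θ ⟨hθ.1, fun n hn => ?_⟩⟩
    have := hθ.2 n hn
    rwa [ph_rv] at this

end Pool.Agent.SawM2
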