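import Pool.Agent.SawM2.ThA

/-!
# `Th` is a parallelepiped up to constants (sections 6c, 6d)
-/

set_option autoImplicit false

namespace Pool.Agent.SawM2

open Finset MeasureTheory Filter Pool.Agent.SawHole Pool.Agent.Bub4 Pool.Agent.SawDiff

/-- (6c), the numbers: `2 (2 - c) < k + 1`, so `C (B j²)^(2-c) < c₀ j^(k+1)` for some `j`. -/
theorem exists_j {k : ℕ} {c C c₀ B : ℝ} (hkc : 2 * (2 - c) < k + 1)
    (hc₀ : 0 < c₀) (hB : 0 < B) :
    ∃ j : ℕ, 1 ≤ j ∧ C * (B * (j : ℝ) ^ 2) ^ (2 - c) < c₀ * (j : ℝ) ^ (k + 1) := by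
  have h1 : Tendsto (fun j : ℕ => ((j : ℝ)) ^ ((k : ℝ) + 1 - 2 * (2 - c))) atTop atTop :=
    (tendsto_rpow_atTop (by linarith)).comp tendsto_natCast_atTop_atTop
  obtain ⟨j, hj, hj1⟩ :=
    ((h1.eventually_gt_atTop (C * B ^ (2 - c) / c₀)).and (eventually_ge_atTop 1)).exists
  refine ⟨j, hj1, ?_⟩
  have hj0 : (0 : ℝ) < j := by exact_mod_cast hj1
  have h2 : (B * (j : ℝ) ^ 2) ^ (2 - c) = B ^ (2 - c) * (j : ℝ) ^ (2 * (2 - c)) := by
    rw [Real.mul_rpow hB.le (by positivity)]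
    congr 1
    rw [← Real.rpow_natCast, ← Real.rpow_mul hj0.le]
    norm_num
  have h3 : (j : ℝ) ^ (k + 1) = (j : ℝ) ^ ((k : ℝ) + 1 - 2 * (2 - c)) *
      (j : ℝ) ^ (2 * (2 - c)) := by
    rw [← Real.rpow_add hj0, ← Real.rpow_natCast]
    congr 1
    push_cast
    ring
  rw [h2, h3]
  rw [div_lt_iff₀ hc₀] at hj
  have h4 : 0 < (j : ℝ) ^ (2 * (2 - c)) := Real.rpow_pos_of_pos hj0 _
  calc C * (B ^ (2 - c) * (j : ℝ) ^ (2 * (2 - c)))
      = (C * B ^ (2 - c)) * (j : ℝ) ^ (2 * (2 - c)) := by ring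
    _ < ((j : ℝ) ^ ((k : ℝ) + 1 - 2 * (2 - c)) * c₀) * (j : ℝ) ^ (2 * (2 - c)) :=
        mul_lt_mul_of_pos_right hj h4
    _ = _ := by ring

variable {S V : Type} [Fintype S] [AddCommGroup V] {Y : Sys S V} {Λ K : ℝ} {ρ : List S → ℝ}
  {k : ℕ} {π : V →+ Zk k}

/-- upper bound for the volume of `Th` at the times in `[N / s, N]` -/
def VolU (Y : Sys S V) (π : V →+ Zk k) (ρ : List S → ℝ) (d C c v : ℝ) (N s : ℕ) : Prop :=
  ∀ M : ℕ, M ≤ N → N ≤ s * M →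
    volume (Th Y π ρ d M (1 / 10)) ≤ ENNReal.ofReal (C * ((N : ℝ) / M) ^ (2 - c) * v)

/-- `Th d M r` shrinks to `0` -/
def Shr (Y : Sys S V) (π : V →+ Zk k) (ρ : List S → ℝ) (d : ℝ) : Prop :=
  ∀ η : ℝ, 0 < η → ∃ M₀ : ℕ, ∀ M ≥ M₀, ∀ θ ∈ Th Y π ρ d M (1 / 10), ∀ i, |θ i| ≤ η

theorem VolU.mono {d C c v : ℝ} {N s s' : ℕ} (h : VolU Y π ρ d C c v N s') (hs : s ≤ s') :
    VolU Y π ρ d C c v N s := fun M hM hN => h M hM (hN.trans (Nat.mul_le_mul_right M hs))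

/-- (6c), (6d): at a scale `N` at which the volume of `Th` at the times `N / D ≤ M ≤ N` is at most
`C (N / M)^(2 - c) v` and the volume of `Th d (N / b) r` is at least `c₀ v`, the set
`A = Th d (N / b) r` is comparable with the parallelepiped spanned by a system of maximal
determinant. `D` depends only on the constants. -/
theorem body (h : Erg Y Λ K ρ) (hπ : Stp Y π) {d r : ℝ} (hd : 0 < d) (hr : 0 < r)
    (hr1 : r ≤ 1 / 10) (hsh : Shr Y π ρ d) {c C c₀ : ℝ} (hc : c ≤ 2)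
    (hkc : 2 * (2 - c) < k + 1) (hC : 0 ≤ C) (hc₀ : 0 < c₀) {b : ℕ} (hb : 1 ≤ b) :
    ∃ D : ℕ, b ≤ D ∧ ∃ N₀ : ℕ, ∀ N ≥ N₀, ∀ v : ℝ, 0 < v → VolU Y π ρ d C c v N D →
      ENNReal.ofReal (c₀ * v) ≤ volume (Th Y π ρ d (N / b) r) →
      ∀ T : Fin k → Rk k, MaxDet (Th Y π ρ d (N / b) r) T →
        Th Y π ρ d (N / b) r ⊆ pp T 1 ∧ pp T 1 ⊆ Th Y π ρ d (N / D) r ∧
        c₀ * v ≤ 2 ^ k * |(Matrix.of T).det| ∧
        2 ^ k * |(Matrix.of T).det| ≤ C * (D : ℝ) ^ (2 - c) * v := by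
  have hb0 : (0 : ℝ) < b := by exact_mod_cast hb
  -- choice of `j`
  set B : ℝ := 2 * b * (6 * (20 * (k + 1)) ^ 2 / r + 1) with hB
  have hB0 : 0 < B := by positivity
  obtain ⟨j, hj1, hj⟩ := exists_j (C := C) hkc hc₀ hB0
  have hj1' : (1 : ℝ) ≤ j := by exact_mod_cast hj1
  set J : ℕ := 20 * j * (k + 1) with hJ
  set q : ℕ := ⌈6 * (J : ℝ) ^ 2 / r⌉₊ with hq
  have hqle : 6 * (J : ℝ) ^ 2 / r ≤ q := Nat.le_ceil _
  have hJ1 : 1 ≤ J := by
    rw [hJ]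
    have : 0 < 20 * j * (k + 1) := by positivity
    omega
  have hq1 : 1 ≤ q := by
    rw [hq]
    apply Nat.ceil_pos.2
    have : (0 : ℝ) < J := by exact_mod_cast hJ1
    positivity
  have hqB : (2 * b * q : ℝ) ≤ B * (j : ℝ) ^ 2 := by
    have h1 : (q : ℝ) ≤ 6 * (J : ℝ) ^ 2 / r + 1 := (Nat.ceil_lt_add_one (by positivity)).le
    have h2 : 6 * (J : ℝ) ^ 2 / r + 1 ≤ (6 * (20 * (k + 1)) ^ 2 / r + 1) * (j : ℝ) ^ 2 := by
      rw [hJ]
      push_cast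
      have h3 : (1 : ℝ) ≤ (j : ℝ) ^ 2 := one_le_pow₀ hj1'
      have h4 : 6 * (20 * (j : ℝ) * (k + 1)) ^ 2 / r =
          6 * (20 * ((k : ℝ) + 1)) ^ 2 / r * (j : ℝ) ^ 2 := by ring
      rw [h4]
      linarith
    rw [hB]
    calc (2 * b * q : ℝ) ≤ 2 * b * ((6 * (20 * (k + 1)) ^ 2 / r + 1) * (j : ℝ) ^ 2) :=
          mul_le_mul_of_nonneg_left (h1.trans h2) (by positivity)
      _ = _ := by ring
  obtain ⟨η, hη, hms⟩ := ms_Th (π := π) h hπ hd hr hr1 J hq1 hqle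
  obtain ⟨M₀, hM₀⟩ := hsh η hη
  refine ⟨2 * b * q, ?_, max (b * q) (b * M₀), ?_⟩
  · nlinarith
  intro N hN v hv hU hL T hT
  have hNbq : b * q ≤ N := (le_max_left _ _).trans hN
  have hNb : M₀ ≤ N / b := by
    rw [Nat.le_div_iff_mul_le hb, mul_comm]
    exact (le_max_right _ _).trans hN
  set A := Th Y π ρ d (N / b) r with hA
  have hAsh : ∀ θ ∈ A, ∀ i, |θ i| ≤ η := fun θ hθ => hM₀ _ hNb θ (Th_mono _ hr1 hθ)
  have hmsA : ms A J ⊆ Th Y π ρ d (N / b / q) r := hms _ hAsh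
  have hA0 : (0 : Rk k) ∈ A := Th_zero h hd.le _ hr.le
  -- the time `N / b / q`
  set M := N / b / q with hM
  have hMe : M = N / (b * q) := by rw [hM, Nat.div_div_eq_div_mul]
  have hbq : 0 < b * q := Nat.mul_pos hb hq1
  have hM1 : 1 ≤ M := by
    rw [hMe]; exact (Nat.one_le_div_iff hbq).2 hNbq
  have hMN : M ≤ N := by rw [hMe]; exact Nat.div_le_self _ _
  have hNM : N ≤ 2 * b * q * M := by
    have h1 : N < b * q * (N / (b * q) + 1) := by
      have := Nat.lt_mul_div_succ N hbq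
      exact this
    rw [← hMe] at h1
    nlinarith
  have hM0 : (0 : ℝ) < M := by exact_mod_cast hM1
  have hratio : (N : ℝ) / M ≤ 2 * b * q := by
    rw [div_le_iff₀ hM0]
    exact_mod_cast hNM
  have hVM : volume (Th Y π ρ d M r) ≤ ENNReal.ofReal (C * (2 * b * q : ℝ) ^ (2 - c) * v) := by
    refine (measure_mono (Th_mono M hr1)).trans ((hU M hMN hNM).trans ?_)
    apply ENNReal.ofReal_le_ofReal
    apply mul_le_mul_of_nonneg_right _ hv.le
    apply mul_le_mul_of_nonneg_left _ hC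
    exact Real.rpow_le_rpow (by positivity) hratio (by linarith)
  -- no hole
  have hnh : volume (ms A (13 * j)) < (j : ENNReal) ^ (k + 1) * volume A := by
    have h1 : ms A (13 * j) ⊆ ms A J := ms_mono hA0 (by rw [hJ]; nlinarith)
    have h2 : volume (ms A (13 * j)) ≤ ENNReal.ofReal (C * (B * (j : ℝ) ^ 2) ^ (2 - c) * v) := by
      refine (measure_mono (h1.trans hmsA)).trans (hVM.trans ?_)
      apply ENNReal.ofReal_le_ofReal
      apply mul_le_mul_of_nonneg_right _ hv.le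
      apply mul_le_mul_of_nonneg_left _ hC
      exact Real.rpow_le_rpow (by positivity) hqB (by linarith)
    have h3 : ENNReal.ofReal (C * (B * (j : ℝ) ^ 2) ^ (2 - c) * v) <
        ENNReal.ofReal (c₀ * (j : ℝ) ^ (k + 1) * v) := by
      apply (ENNReal.ofReal_lt_ofReal_iff (by positivity)).2
      exact mul_lt_mul_of_pos_right hj hv
    have h4 : ENNReal.ofReal (c₀ * (j : ℝ) ^ (k + 1) * v) =
        (j : ENNReal) ^ (k + 1) * ENNReal.ofReal (c₀ * v) := by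
      rw [show c₀ * (j : ℝ) ^ (k + 1) * v = (j : ℝ) ^ (k + 1) * (c₀ * v) by ring,
        ENNReal.ofReal_mul (by positivity), ENNReal.ofReal_pow (by positivity),
        ENNReal.ofReal_natCast]
    calc volume (ms A (13 * j)) ≤ _ := h2
      _ < _ := h3
      _ = (j : ENNReal) ^ (k + 1) * ENNReal.ofReal (c₀ * v) := h4
      _ ≤ _ := mul_le_mul_of_nonneg_left hL (by positivity)
  have hst := star (Th_isCompact d _ r) (fun x hx => Th_neg hx) (Th_mem_nhds h hd _ hr) hj1 hnh hT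
  have hppM : pp T 1 ⊆ Th Y π ρ d M r :=
    hst.2.trans ((ms_mono hA0 (by rw [hJ]; nlinarith)).trans hmsA)
  have hvp := volume_pp T (R := 1) zero_le_one
  rw [mul_one] at hvp
  refine ⟨hst.1, ?_, ?_, ?_⟩
  · refine hppM.trans (Th_anti ?_ r)
    rw [hMe]
    exact Nat.div_le_div_left (by nlinarith) hbq
  · have h1 := hL.trans (measure_mono hst.1)
    rw [hvp] at h1
    exact (ENNReal.ofReal_le_ofReal_iff (by positivity)).1 h1
  · have h1 := (measure_mono hppM).trans hVM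
    rw [hvp] at h1
    have h2 : (0 : ℝ) ≤ C * (2 * b * q : ℝ) ^ (2 - c) * v := by positivity
    have h3 := (ENNReal.ofReal_le_ofReal_iff h2).1 h1
    push_cast
    exact h3

/-- (6d), comparison of determinants: the set at a larger fraction of the scale is contained in a
multiple of the parallelepiped. -/
theorem body_le (h : Erg Y Λ K ρ) (hπ : Stp Y π) {d r : ℝ} (hd : 0 < d) (hr : 0 < r)
    (hr1 : r ≤ 1 / 10) (hsh : Shr Y π ρ d) {c C c₀ : ℝ} (hc : c ≤ 2)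
    (hkc : 2 * (2 - c) < k + 1) (hC : 0 ≤ C) (hc₀ : 0 < c₀) {b b' : ℕ} (hb : 1 ≤ b)
    (hbb : b ≤ b') :
    ∃ D : ℕ, b' ≤ D ∧ ∃ N₀ : ℕ, ∀ N ≥ N₀, ∀ v : ℝ, 0 < v → VolU Y π ρ d C c v N D →
      ENNReal.ofReal (c₀ * v) ≤ volume (Th Y π ρ d (N / b) r) →
      ∀ T : Fin k → Rk k, MaxDet (Th Y π ρ d (N / b) r) T →
        Th Y π ρ d (N / b') r ⊆ pp T (C * (D : ℝ) ^ (2 - c) / c₀) := by
  obtain ⟨D, hD, N₀, hN₀⟩ := body (b := b') h hπ hd hr hr1 hsh hc hkc hC hc₀ (hb.trans hbb)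
  refine ⟨D, hD, N₀, fun N hN v hv hU hL T hT θ hθ => ?_⟩
  have hsub : Th Y π ρ d (N / b) r ⊆ Th Y π ρ d (N / b') r :=
    Th_anti (Nat.div_le_div_left hbb hb) r
  obtain ⟨T', hT'⟩ := exists_maxDet (Th_isCompact (Y := Y) (π := π) (ρ := ρ) d (N / b') r)
    ⟨0, Th_zero h hd.le _ hr.le⟩
  obtain ⟨-, -, -, h2⟩ := hN₀ N hN v hv hU (hL.trans (measure_mono hsub)) T' hT'
  have hdet : (Matrix.of T).det ≠ 0 := hT.det_ne_zero (Th_mem_nhds h hd _ hr)
  obtain ⟨e, he, hθe⟩ := hT'.coord (fun i => hsub (hT.1 i)) hdet hθ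
  refine ⟨e, fun i => (he i).trans ?_, hθe⟩
  -- lower bound for `det T`
  have h3 : c₀ * v ≤ 2 ^ k * |(Matrix.of T).det| := by
    have h4 : Th Y π ρ d (N / b) r ⊆ pp T 1 := by
      intro x hx
      obtain ⟨e', he', hx'⟩ := hT.coord hT.1 hdet hx
      exact ⟨e', fun i => (he' i).trans (by rw [div_self (abs_ne_zero.2 hdet)]), hx'⟩
    have h5 := hL.trans (measure_mono h4)
    have hvp := volume_pp T (R := 1) zero_le_one
    rw [mul_one] at hvp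
    rw [hvp] at h5
    exact (ENNReal.ofReal_le_ofReal_iff (by positivity)).1 h5
  have h4 : 0 < |(Matrix.of T).det| := abs_pos.2 hdet
  have h5 : (0 : ℝ) < 2 ^ k := by positivity
  rw [div_le_div_iff₀ h4 hc₀]
  have h6 : 0 ≤ C * (D : ℝ) ^ (2 - c) := by positivity
  -- |det T'| * c₀ ≤ C D^(2-c) |det T|
  have h7 : 2 ^ k * (|(Matrix.of T').det| * c₀) * v ≤
      2 ^ k * (C * (D : ℝ) ^ (2 - c) * |(Matrix.of T).det|) * v := by
    calc 2 ^ k * (|(Matrix.of T').det| * c₀) * v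
        = (2 ^ k * |(Matrix.of T').det|) * (c₀ * v) := by ring
      _ ≤ (C * (D : ℝ) ^ (2 - c) * v) * (2 ^ k * |(Matrix.of T).det|) :=
          mul_le_mul h2 h3 (by positivity) (by positivity)
      _ = _ := by ring
  have h8 := le_of_mul_le_mul_right h7 hv
  exact le_of_mul_le_mul_left h8 h5

end Pool.Agent.SawM2
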