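import Pool.Agent.SawM2.Mult

/-!
# Laws of the displacement: blocks and small changes of the length (module WDA)
-/

set_option autoImplicit false

namespace Pool.Agent.SawM2

open Finset Filter Pool.Agent.Bub4 Pool.Agent.SawDiff

variable {S V : Type} [Fintype S] [AddCommGroup V] {Y : Sys S V} {Λ K : ℝ} {ρ : List S → ℝ}
  {k : ℕ} {π : V →+ Zk k} {κ a : ℝ}

/-- WDA. `pr_lw`; `E (n + s) = E n E s` (`Y.E_add`), `E n ρ u f (X u) = E n E s ρ (uv) f (X u)`
(`h.right`), `|f (X u + X v) - f (X u)| ≤ n1 (X v) / L ≤ k s / L` (`n1_sm_le`), mass `1`. -/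
theorem lw_step (h : Bulk Y Λ ρ) (hπ : Stp Y π) (n s : ℕ) {L : ℝ} (hL : 0 < L) {f : Zk k → ℝ}
    (hf : Lip L f) : |(lw Y π ρ (n + s)).pr f - (lw Y π ρ n).pr f| ≤ k * s / L := by
  rw [pr_lw, pr_lw]
  have e1 : (Y.E (n + s) fun w => ρ w * f (π (Y.sm w))) - (Y.E n fun w => ρ w * f (π (Y.sm w))) =
      Y.E n fun u => Y.E s fun v => ρ (u ++ v) * (f (π (Y.sm u) + π (Y.sm v)) - f (π (Y.sm u))) := by
    rw [Y.E_add, ← Y.E_fsub]
    refine Y.E_congr fun u _ => ?_
    rw [← h.right u s, ← Y.E_mul_right, ← Y.E_fsub]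
    refine Y.E_congr fun v _ => ?_
    rw [Y.sm_append, map_add]
    ring
  have e2 : (Y.E n fun u => Y.E s fun v => ρ (u ++ v) * ((k : ℝ) * s / L)) = k * s / L := by
    rw [show (Y.E n fun u => Y.E s fun v => ρ (u ++ v) * ((k : ℝ) * s / L)) =
      Y.E n fun u => ρ u * ((k : ℝ) * s / L) from Y.E_congr fun u _ => by
        rw [Y.E_mul_right, h.right]]
    rw [Y.E_mul_right, h.mass, one_mul]
  rw [e1]
  refine (Y.E_abs _ _).trans (le_trans ?_ e2.le)
  refine Y.E_mono fun u _ => (Y.E_abs _ _).trans (Y.E_mono fun v hv => ?_)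
  rw [abs_mul, abs_of_nonneg (h.nonneg _)]
  refine mul_le_mul_of_nonneg_left ?_ (h.nonneg _)
  refine (hf _ _).trans ?_
  rw [add_sub_cancel_left]
  refine div_le_div_of_nonneg_right ?_ hL.le
  have := n1_sm_le hπ v
  rw [hv] at this
  exact_mod_cast this

/-- the displacement of a word is the sum of the displacements of its blocks -/
private theorem lw_sum (n j : ℕ) (w : List S) (hw : w.length = j * n) :
    ∑ l : Fin j, π (Y.sm ((w.drop ((l : ℕ) * n)).take n)) = π (Y.sm w) := by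
  induction j generalizing w with
  | zero =>
    have : w = [] := List.eq_nil_of_length_eq_zero (by simpa using hw)
    simp [this]
  | succ j ih =>
    rw [Fin.sum_univ_succ]
    have h1 : (w.drop n).length = j * n := by
      rw [List.length_drop, hw, Nat.succ_mul, Nat.add_sub_cancel]
    have h2 := ih (w.drop n) h1
    have h3 : ∑ l : Fin j, π (Y.sm ((w.drop (((Fin.succ l : Fin (j + 1)) : ℕ) * n)).take n)) =
        π (Y.sm (w.drop n)) := by
      rw [← h2]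
      refine Finset.sum_congr rfl fun l _ => ?_
      rw [List.drop_drop, Fin.val_succ, Nat.succ_mul, Nat.add_comm n]
    rw [h3]
    simp only [Fin.val_zero, Nat.zero_mul, List.drop_zero]
    rw [← map_add, ← Y.sm_append, List.take_append_drop]

/-- every block has the law of the words of length `n` -/
private theorem lw_block (h : Bulk Y Λ ρ) (n j : ℕ) (l : Fin j) (g : Zk k → ℝ) :
    (Y.E (j * n) fun w => ρ w * g (π (Y.sm ((w.drop ((l : ℕ) * n)).take n)))) =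
      (lw Y π ρ n).pr g := by
  rw [pr_lw]
  have h1 : j * n = (l : ℕ) * n + n + (j - l - 1) * n := by
    have h2 : j = (l : ℕ) + 1 + (j - l - 1) := by have := l.2; omega
    nth_rewrite 1 [h2]
    ring
  rw [h1]
  exact h.win _ _ _ fun w => g (π (Y.sm w))

/-- WDA. `near_prod` for the product; `X w = Σ X (block)`; every block has the law `lw n`
(stationarity, `Bulk.win`). The hypothesis for `x l = X (block l)`. -/
theorem lw_ind (h : Erg Y Λ K ρ) (hπ : Stp Y π) {ε : ℝ} (hε : 0 < ε) :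
    ∃ L₀ : ℝ, 0 < L₀ ∧ ∀ L ≥ L₀, ∀ (n j : ℕ) (f G bad : Zk k → ℝ), (∀ x, 0 ≤ f x) →
      (∀ x, f x ≤ 1) → Lip L f → (∀ x, 0 ≤ bad x) →
      (∀ x : Fin j → Zk k, G (∑ l, x l) ≤ (∏ l, f (x l)) + ∑ l, bad (x l)) →
        (lw Y π ρ (j * n)).pr G ≤ ((lw Y π ρ n).pr f) ^ j + j * (lw Y π ρ n).pr bad + j * ε := by
  obtain ⟨L₀, hL₀, hN⟩ := near_prod (π := π) h hπ hε
  refine ⟨L₀, hL₀, fun L hL n j f G bad hf hf1 hl hbad hG => ?_⟩
  have hb := h.bulk
  have h1 := (abs_le.1 (hN L hL n j f hf hf1 hl)).2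
  rw [← pr_lw (π := π) (F := ρ) (n := n) (h := f)] at h1
  have h2 : (lw Y π ρ (j * n)).pr G ≤ Y.E (j * n) fun w =>
      ρ w * ((∏ i ∈ range j, f (π (Y.sm ((w.drop (i * n)).take n)))) +
        ∑ l : Fin j, bad (π (Y.sm ((w.drop ((l : ℕ) * n)).take n)))) := by
    rw [pr_lw]
    refine Y.E_mono fun w hw => mul_le_mul_of_nonneg_left ?_ (hb.nonneg w)
    have h3 := hG fun l => π (Y.sm ((w.drop ((l : ℕ) * n)).take n))
    rw [lw_sum n j w hw] at h3
    refine h3.trans (le_of_eq ?_)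
    rw [Fin.prod_univ_eq_prod_range fun i => f (π (Y.sm ((w.drop (i * n)).take n)))]
  have h4 : (Y.E (j * n) fun w =>
      ρ w * ((∏ i ∈ range j, f (π (Y.sm ((w.drop (i * n)).take n)))) +
        ∑ l : Fin j, bad (π (Y.sm ((w.drop ((l : ℕ) * n)).take n))))) =
      (Y.E (j * n) fun w => ρ w * ∏ i ∈ range j, f (π (Y.sm ((w.drop (i * n)).take n)))) +
        j * (lw Y π ρ n).pr bad := by
    simp only [mul_add, Finset.mul_sum]
    rw [Y.E_fadd, Y.E_fsum_univ]
    congr 1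
    rw [Finset.sum_congr rfl fun l _ => lw_block hb n j l bad]
    simp
  linarith

theorem lw_ind' (h : Erg Y Λ K ρ) (hπ : Stp Y π) {ε : ℝ} (hε : 0 < ε) :
    ∃ L₀ : ℝ, 0 < L₀ ∧ ∀ L ≥ L₀, ∀ (n j : ℕ) (f G : Zk k → ℝ), (∀ x, 0 ≤ f x) →
      (∀ x, f x ≤ 1) → Lip L f →
      (∀ x : Fin j → Zk k, (∏ l, f (x l)) ≤ G (∑ l, x l)) →
        ((lw Y π ρ n).pr f) ^ j ≤ (lw Y π ρ (j * n)).pr G + j * ε := by
  obtain ⟨L₀, hL₀, hN⟩ := near_prod (π := π) h hπ hε
  refine ⟨L₀, hL₀, fun L hL n j f G hf hf1 hl hG => ?_⟩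
  have hb := h.bulk
  have h1 := (abs_le.1 (hN L hL n j f hf hf1 hl)).1
  rw [← pr_lw (π := π) (F := ρ) (n := n) (h := f)] at h1
  have h2 : (Y.E (j * n) fun w => ρ w * ∏ i ∈ range j, f (π (Y.sm ((w.drop (i * n)).take n)))) ≤
      (lw Y π ρ (j * n)).pr G := by
    rw [pr_lw]
    refine Y.E_mono fun w hw => mul_le_mul_of_nonneg_left ?_ (hb.nonneg w)
    have h3 := hG fun l => π (Y.sm ((w.drop ((l : ℕ) * n)).take n))
    rw [lw_sum n j w hw] at h3
    rw [Fin.prod_univ_eq_prod_range fun i => f (π (Y.sm ((w.drop (i * n)).take n)))] at h3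
    exact h3
  linarith

end Pool.Agent.SawM2
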