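import Pool.Agent.SawM2.Shift

/-!
# Near independence of displacements (module NTWO)
-/

set_option autoImplicit false

namespace Pool.Agent.SawM2

open Finset Filter Pool.Agent.Bub4 Pool.Agent.SawDiff

variable {S V : Type} [Fintype S] [AddCommGroup V] {Y : Sys S V} {Λ K : ℝ} {ρ : List S → ℝ}
  {k : ℕ} {π : V →+ Zk k}

/-- N2, abstract form -/
theorem near_gen (hE : Erg Y Λ K ρ) {ε : ℝ} (hε : 0 < ε) :
    ∃ H₀ : ℕ, ∀ H ≥ H₀, ∀ (m n : ℕ) (Ψ : List S → List S → ℝ), (∀ u v, |Ψ u v| ≤ 1) →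
      Slow H ε m Ψ →
      |(Y.E m fun u => Y.E n fun v => (ρ (u ++ v) - ρ u * ρ v) * Ψ u v)| ≤ 3 * ε := by
  have h := hE.bulk
  obtain ⟨g, hg⟩ := near_indep h hE.a_ge hE.a_le hε
  have hb : ∀ g' : ℕ, ∃ H₀ : ℕ, ∀ H ≥ H₀, bet Y ρ g' H ≤ ε := fun g' => bet_small hE g' hε
  choose H₁ hH₁ using hb
  refine ⟨1 + ∑ g' ∈ range (g + 1), H₁ g', fun H hH m n Ψ hΨ hs => ?_⟩
  have hHpos : 0 < H := by omega
  have hb2 : ∀ g' ≤ g, bet Y ρ g' H ≤ ε := by
    intro g' hg'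
    refine hH₁ g' H ?_
    have : H₁ g' ≤ ∑ g' ∈ range (g + 1), H₁ g' :=
      Finset.single_le_sum (f := H₁) (fun _ _ => Nat.zero_le _) (Finset.mem_range.2 (by omega))
    omega
  rcases le_or_gt n g with hn | hn
  · refine (near_short h hHpos hΨ hs).trans ?_
    have := hb2 n hn
    linarith
  · obtain ⟨n', rfl⟩ : ∃ n', n = g + n' := ⟨n - g, by omega⟩
    set Φ : List S → List S → ℝ := fun u γ => Y.E n' fun v => ρ (γ ++ v) / ρ γ * Ψ u (γ ++ v)
      with hΦ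
    have hΦw : ∀ γ : List S, (Y.E n' fun v => ρ (γ ++ v) / ρ γ) ≤ 1 := by
      intro γ
      simp only [div_eq_mul_inv, Y.E_mul_right, h.right]
      by_cases h0 : ρ γ = 0
      · rw [h0]; norm_num
      · rw [mul_inv_cancel₀ h0]
    have hq : ∀ γ v : List S, 0 ≤ ρ (γ ++ v) / ρ γ := fun γ v =>
      div_nonneg (h.nonneg _) (h.nonneg _)
    have hΦ1 : ∀ u γ, |Φ u γ| ≤ 1 := by
      intro u γ
      refine (Y.E_abs _ _).trans (le_trans (Y.E_mono fun v _ => ?_) (hΦw γ))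
      rw [abs_mul, abs_of_nonneg (hq γ v)]
      exact mul_le_of_le_one_right (hq γ v) (hΨ _ _)
    have hΦs : Slow H ε m Φ := by
      intro W γ hW j hj
      rw [hΦ]
      simp only
      rw [← Y.E_fsub]
      refine (Y.E_abs _ _).trans ?_
      have hε0 := hε.le
      calc (Y.E n' fun v => |ρ (γ ++ v) / ρ γ * Ψ ((W.drop j).take m) (γ ++ v) -
            ρ (γ ++ v) / ρ γ * Ψ (W.take m) (γ ++ v)|)
          ≤ Y.E n' fun v => ρ (γ ++ v) / ρ γ * ε := by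
            refine Y.E_mono fun v _ => ?_
            rw [← mul_sub, abs_mul, abs_of_nonneg (hq γ v)]
            exact mul_le_mul_of_nonneg_left (hs W (γ ++ v) hW j hj) (hq γ v)
        _ = (Y.E n' fun v => ρ (γ ++ v) / ρ γ) * ε := by rw [Y.E_mul_right]
        _ ≤ 1 * ε := mul_le_mul_of_nonneg_right (hΦw γ) hε0
        _ = ε := one_mul _
    have hmain := near_short (g := g) h hHpos hΦ1 hΦs
    have hdev := hg g le_rfl m n'
    have e1 : (Y.E m fun u => Y.E (g + n') fun v => (ρ (u ++ v) - ρ u * ρ v) * Ψ u v) =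
        (Y.E m fun u => Y.E g fun γ => (ρ (u ++ γ) - ρ u * ρ γ) * Φ u γ) +
        Y.E m fun u => Y.E g fun γ => Y.E n' fun v =>
          (ρ (u ++ γ ++ v) - ρ (u ++ γ) * ρ (γ ++ v) / ρ γ) * Ψ u (γ ++ v) := by
      rw [← Y.E_fadd]
      refine Y.E_congr fun u _ => ?_
      rw [Y.E_add, ← Y.E_fadd]
      refine Y.E_congr fun γ _ => ?_
      rw [hΦ]
      simp only
      rw [← Y.E_mul_left, ← Y.E_fadd]
      refine Y.E_congr fun v _ => ?_
      rw [List.append_assoc]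
      by_cases h0 : ρ γ = 0
      · have h2 : ρ (γ ++ v) = 0 := h.eq_zero_left h0
        rw [h2, h0]
        simp
      · field_simp
        ring
    have e2 : |Y.E m fun u => Y.E g fun γ => Y.E n' fun v =>
          (ρ (u ++ γ ++ v) - ρ (u ++ γ) * ρ (γ ++ v) / ρ γ) * Ψ u (γ ++ v)| ≤ dev Y ρ m g n' := by
      unfold dev
      refine (Y.E_abs _ _).trans (Y.E_mono fun u _ => ?_)
      refine (Y.E_abs _ _).trans (Y.E_mono fun γ _ => ?_)
      refine (Y.E_abs _ _).trans (Y.E_mono fun v _ => ?_)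
      rw [abs_mul]
      exact mul_le_of_le_one_right (abs_nonneg _) (hΨ _ _)
    rw [e1]
    have h3 := hb2 g le_rfl
    refine (abs_add_le _ _).trans ?_
    linarith

/-- NTWO. Near independence of the displacement of the left word and of the whole right word. -/
theorem near2 (h : Erg Y Λ K ρ) (hπ : Stp Y π) {ε : ℝ} (hε : 0 < ε) :
    ∃ L₀ : ℝ, 0 < L₀ ∧ ∀ L ≥ L₀, ∀ (m n : ℕ) (Ψ : Zk k → List S → ℝ),
      (∀ x v, |Ψ x v| ≤ 1) → (∀ v, Lip L fun x => Ψ x v) →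
      |Y.E m fun u => Y.E n fun v => (ρ (u ++ v) - ρ u * ρ v) * Ψ (π (Y.sm u)) v| ≤ ε := by
  obtain ⟨H₀, hH⟩ := near_gen h (show 0 < ε / 3 by positivity)
  refine ⟨2 * k * H₀ / (ε / 3) + 1, by positivity, fun L hL m n Ψ hΨ hl => ?_⟩
  have hL0 : 0 < L := lt_of_lt_of_le (by positivity) hL
  have h2 : 2 * (k : ℝ) * H₀ ≤ ε / 3 * L := by
    have h3 : 2 * (k : ℝ) * H₀ / (ε / 3) ≤ L := by linarith
    rw [div_le_iff₀ (by positivity)] at h3
    linarith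
  have h4 := hH H₀ le_rfl m n (fun u v => Ψ (π (Y.sm u)) v) (fun u v => hΨ _ _)
    (slow_of_lip hπ hL0 h2 hl)
  linarith

/-- NTWO. Mirror image (`near2` for `rv ρ`, `E_reverse`, `sm_reverse`, `E_comm`). -/
theorem near2' (h : Erg Y Λ K ρ) (hπ : Stp Y π) {ε : ℝ} (hε : 0 < ε) :
    ∃ L₀ : ℝ, 0 < L₀ ∧ ∀ L ≥ L₀, ∀ (m n : ℕ) (Ψ : List S → Zk k → ℝ),
      (∀ u x, |Ψ u x| ≤ 1) → (∀ u, Lip L (Ψ u)) →
      |Y.E m fun u => Y.E n fun v => (ρ (u ++ v) - ρ u * ρ v) * Ψ u (π (Y.sm v))| ≤ ε := by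
  obtain ⟨L₀, hL₀, hH⟩ := near2 (π := π) h.rv hπ hε
  refine ⟨L₀, hL₀, fun L hL m n Ψ hΨ hl => ?_⟩
  have h2 := hH L hL n m (fun x u => Ψ u.reverse x) (fun x u => hΨ _ _) (fun u => hl _)
  have h3 : (Y.E n fun u => Y.E m fun v => (rv ρ (u ++ v) - rv ρ u * rv ρ v) *
      Ψ v.reverse (π (Y.sm u))) =
      Y.E m fun u => Y.E n fun v => (ρ (u ++ v) - ρ u * ρ v) * Ψ u (π (Y.sm v)) := by
    rw [Y.E_comm n m, ← Y.E_reverse m]
    refine Y.E_congr fun u _ => ?_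
    rw [← Y.E_reverse n]
    refine Y.E_congr fun v _ => ?_
    simp only [rv, List.reverse_append, List.reverse_reverse, Y.sm_reverse]
    ring
  rwa [h3] at h2

end Pool.Agent.SawM2
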