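import Pool.Agent.SawM2.ErgR

/-!
# Many good prefixes
-/

set_option autoImplicit false

namespace Pool.Agent.SawM2

open Finset Filter Topology Pool.Agent.Bub4 Pool.Agent.SawDiff

variable {S V : Type} [Fintype S] [AddCommGroup V] {Y : Sys S V} {Λ K : ℝ} {ρ : List S → ℝ}

/-- the sum over all words of a given length of the frequencies -/
private theorem U7_sum_av (Y : Sys S V) (g H : ℕ) (w : List S) (hw : H + g ≤ w.length)
    (f : List S → ℝ) : (H : ℝ)⁻¹ * ∑ j ∈ range H, f ((w.drop j).take g) =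
      Y.E g fun γ => (Y.z ^ g)⁻¹ * av γ H w * f γ := by
  classical
  have hz : Y.z ^ g ≠ 0 := (pow_pos Y.z_pos g).ne'
  have key : ∀ j ∈ range H, f ((w.drop j).take g) =
      Y.E g fun γ => (Y.z ^ g)⁻¹ * occ γ j w * f γ := by
    intro j hj
    rw [Finset.mem_range] at hj
    rw [Y.E_eq]
    set u := (w.drop j).take g with hu
    have hul : u.length = g := by simp [hu]; omega
    have h1 : ∀ γ : Fin g → S, occ (List.ofFn γ) j w = if List.ofFn γ = u then 1 else 0 := by
      intro γ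
      unfold occ
      have : List.ofFn γ <+: w.drop j ↔ List.ofFn γ = u := by
        constructor
        · intro h
          have := List.prefix_iff_eq_take.1 h
          rw [List.length_ofFn] at this
          exact this
        · intro h
          rw [h, hu]
          exact List.take_prefix _ _
      simp only [this]
    simp only [h1]
    have h2 : ∃ γ₀ : Fin g → S, List.ofFn γ₀ = u := by
      refine ⟨fun i => u.get (i.cast hul.symm), ?_⟩
      apply List.ext_get
      · simp [hul]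
      · intro n h3 h4
        simp
    obtain ⟨γ₀, hγ₀⟩ := h2
    rw [Finset.sum_eq_single γ₀]
    · rw [if_pos hγ₀, hγ₀]
      field_simp
    · intro b _ hb
      rw [if_neg]
      · ring
      · intro hb2
        apply hb
        apply List.ofFn_injective
        rw [hb2, hγ₀]
    · intro h; exact absurd (Finset.mem_univ _) h
  rw [Finset.sum_congr rfl key, ← Y.E_fsum, ← Y.E_mul_left]
  refine Y.E_congr fun γ _ => ?_
  unfold av
  rw [← Finset.sum_mul, ← Finset.mul_sum]
  ring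

/-- the number of good prefixes with length in `[s, s + l)` -/
noncomputable def ng (Y : Sys S V) (ρ : List S → ℝ) (κ : ℝ) (s l : ℕ) (w : List S) : ℝ :=
  ∑ i ∈ Ico s (s + l), ind (good Y ρ κ (w.take i))

theorem ng_nonneg (κ : ℝ) (s l : ℕ) (w : List S) : 0 ≤ ng Y ρ κ s l w :=
  Finset.sum_nonneg fun _ _ => ind_nonneg _

theorem ng_append (κ : ℝ) {s l : ℕ} {w : List S} (hw : s + l ≤ w.length) (v : List S) :
    ng Y ρ κ s l (w ++ v) = ng Y ρ κ s l w := by
  unfold ng
  refine Finset.sum_congr rfl fun i hi => ?_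
  rw [List.take_append_of_le_length (by have := (Finset.mem_Ico.1 hi).2; omega)]

/-- (U7) -/
theorem many_good (h : Erg Y Λ K ρ) {κ : ℝ} (hκ : 0 ≤ κ)
    (hκK : κ * K ≤ 1 / 8) {δ : ℝ} (hδ : 0 < δ) :
    ∃ n₀ : ℕ, ∀ s ≥ n₀, ∀ l ≥ n₀, ∀ n, s + l ≤ n →
      (Y.E n fun w => ρ w * ind (2 * ng Y ρ κ s l w < l)) ≤ δ := by
  have hb := h.bulk
  have hK := h.a_le
  -- the local goodness
  have h1 := (bn_tendsto hb hK hκ).eventually (lt_mem_nhds
    (show bb Y ρ κ - δ / 16 < bb Y ρ κ by linarith))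
  obtain ⟨j, hj⟩ := h1.exists
  obtain ⟨H₀, hH₀⟩ := h.freq j (show (0 : ℝ) < δ / 16 by positivity)
  refine ⟨max (j + 1) (H₀ + 1), fun s hs l hl n hn => ?_⟩
  have hsj : j + 1 ≤ s := (le_max_left _ _).trans hs
  have hl0 : H₀ ≤ l := by have := (le_max_right (j + 1) (H₀ + 1)).trans hl; omega
  have hl1 : 1 ≤ l := by have := (le_max_right (j + 1) (H₀ + 1)).trans hl; omega
  have hlR : (0 : ℝ) < l := by exact_mod_cast hl1
  have hbet := hH₀ l hl0 (s - j) (s + l) (by omega)
  -- reduction to n = s + l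
  have hred : (Y.E n fun w => ρ w * ind (2 * ng Y ρ κ s l w < l)) =
      Y.E (s + l) fun w => ρ w * ind (2 * ng Y ρ κ s l w < l) := by
    obtain ⟨r, rfl⟩ := Nat.exists_eq_add_of_le hn
    rw [Y.E_add]
    refine Y.E_congr fun w hw => ?_
    have e1 : ∀ v : List S, ρ (w ++ v) * ind (2 * ng Y ρ κ s l (w ++ v) < l) =
        ρ (w ++ v) * ind (2 * ng Y ρ κ s l w < l) := by
      intro v
      rw [ng_append κ hw.ge]
    simp only [e1, Y.E_mul_right, hb.right]
  rw [hred]
  -- the two functionals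
  set β : List S → ℝ := fun w =>
    Y.E j fun γ => |(Y.z ^ j)⁻¹ * av γ l (w.drop (s - j)) - ρ γ| with hβ
  set D : List S → ℝ := fun w => ∑ i ∈ Ico s (s + l),
    (ind (good Y ρ κ ((w.take i).drop (i - j))) - ind (good Y ρ κ (w.take i))) with hD
  have hDnn : ∀ w, 0 ≤ D w := fun w => Finset.sum_nonneg fun i _ => by
    have := good_diff_nonneg hb hK κ ((w.take i).take (i - j)) ((w.take i).drop (i - j))
    rwa [List.take_append_drop] at this
  have hβnn : ∀ w, 0 ≤ β w := fun w => Y.E_nonneg' fun γ => abs_nonneg _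
  have key : ∀ w : List S, w.length = s + l → ind (2 * ng Y ρ κ s l w < l) ≤
      8 * β w + 8 / l * D w := by
    intro w hw
    have hb0 := hβnn w
    have hd0 := hDnn w
    have hd1 : 0 ≤ 8 / l * D w := by positivity
    by_cases hc : 2 * ng Y ρ κ s l w < l
    · rw [ind_of hc]
      -- number of bad prefixes
      have e1 : ∑ i ∈ Ico s (s + l), ind (¬ good Y ρ κ ((w.take i).drop (i - j))) =
          l - ng Y ρ κ s l w - D w := by
        simp only [ind_compl, hD, ng, Finset.sum_sub_distrib, Finset.sum_const, Nat.card_Ico,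
          nsmul_eq_mul, mul_one]
        rw [Nat.add_sub_cancel_left]
        ring
      have e2 : ∑ i ∈ Ico s (s + l), ind (¬ good Y ρ κ ((w.take i).drop (i - j))) =
          ∑ p ∈ range l, ind (¬ good Y ρ κ (((w.drop (s - j)).drop p).take j)) := by
        rw [Finset.sum_Ico_eq_sum_range, Nat.add_sub_cancel_left]
        refine Finset.sum_congr rfl fun p _ => ?_
        rw [List.drop_drop, List.drop_take]
        have a1 : s + p - j = s - j + p := by omega
        have a2 : s + p - (s + p - j) = j := by omega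
        rw [a2, a1]
      have e3 := U7_sum_av Y j l (w.drop (s - j)) (by rw [List.length_drop, hw]; omega)
        fun γ => ind (¬ good Y ρ κ γ)
      have e4 : (Y.E j fun γ => (Y.z ^ j)⁻¹ * av γ l (w.drop (s - j)) * ind (¬ good Y ρ κ γ)) ≤
          bn Y ρ κ j + β w := by
        simp only [hβ, bn]
        rw [← Y.E_fadd]
        refine Y.E_mono fun γ _ => ?_
        have b1 := ind_nonneg (¬ good Y ρ κ γ)
        have b2 := ind_le_one (¬ good Y ρ κ γ)
        have b3 := le_abs_self ((Y.z ^ j)⁻¹ * av γ l (w.drop (s - j)) - ρ γ)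
        have b4 := abs_nonneg ((Y.z ^ j)⁻¹ * av γ l (w.drop (s - j)) - ρ γ)
        nlinarith
      rw [← e2, e1] at e3
      rw [← e3] at e4
      have e5 : bn Y ρ κ j ≤ 1 / 8 := (bad_le hb hK hκ j).trans hκK
      have e6 : (l : ℝ)⁻¹ * (l - ng Y ρ κ s l w - D w) =
          1 - (l : ℝ)⁻¹ * ng Y ρ κ s l w - (l : ℝ)⁻¹ * D w := by
        field_simp
      have e7 : (l : ℝ)⁻¹ * ng Y ρ κ s l w ≤ 1 / 2 := by
        rw [inv_mul_le_iff₀ hlR]
        linarith
      have e8 : 8 / l * D w = 8 * ((l : ℝ)⁻¹ * D w) := by ring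
      rw [e8]
      rw [e6] at e4
      nlinarith
    · rw [ind_not hc]
      linarith
  refine (Y.E_mono (G := fun w => 8 * (ρ w * β w) + 8 / l * (ρ w * D w)) fun w hw => ?_).trans ?_
  · have := mul_le_mul_of_nonneg_left (key w hw) (hb.nonneg w)
    refine this.trans (le_of_eq (by ring))
  rw [Y.E_fadd, Y.E_mul_left, Y.E_mul_left]
  have f1 : (Y.E (s + l) fun w => ρ w * β w) ≤ δ / 16 := by
    refine le_trans (le_of_eq ?_) hbet
    have hz : 0 < (Y.z ^ j)⁻¹ := inv_pos.2 (pow_pos Y.z_pos j)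
    have g0 : ∀ γ : List S, (Y.z ^ j)⁻¹ * (Y.E (s + l) fun w =>
        ρ w * |av γ l (w.drop (s - j)) - Y.z ^ j * ρ γ|) =
        Y.E (s + l) fun w => ρ w * |(Y.z ^ j)⁻¹ * av γ l (w.drop (s - j)) - ρ γ| := by
      intro γ
      rw [← Y.E_mul_left]
      refine Y.E_congr fun w _ => ?_
      have g1 : (Y.z ^ j)⁻¹ * av γ l (w.drop (s - j)) - ρ γ =
          (Y.z ^ j)⁻¹ * (av γ l (w.drop (s - j)) - Y.z ^ j * ρ γ) := by
        have : Y.z ^ j ≠ 0 := (pow_pos Y.z_pos j).ne'
        field_simp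
      rw [g1, abs_mul, abs_of_pos hz]
      ring
    simp only [g0]
    rw [Y.E_comm j (s + l)]
    refine Y.E_congr fun w _ => ?_
    rw [Y.E_mul_left]
  have f2 : (Y.E (s + l) fun w => ρ w * D w) ≤ l * (δ / 16) := by
    have g1 : (Y.E (s + l) fun w => ρ w * D w) = ∑ i ∈ Ico s (s + l),
        Y.E (s + l) fun w => ρ w * (ind (good Y ρ κ ((w.take i).drop (i - j))) -
          ind (good Y ρ κ (w.take i))) := by
      rw [← Y.E_fsum]
      exact Y.E_congr fun w _ => Finset.mul_sum _ _ _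
    rw [g1]
    have g2 : ∀ i ∈ Ico s (s + l), (Y.E (s + l) fun w => ρ w *
        (ind (good Y ρ κ ((w.take i).drop (i - j))) - ind (good Y ρ κ (w.take i)))) ≤ δ / 16 := by
      intro i hi
      rw [Finset.mem_Ico] at hi
      have g3 := hb.win_left i (s + l - i) fun w =>
        (ind (good Y ρ κ (w.drop (i - j))) - ind (good Y ρ κ w))
      have g4 : i + (s + l - i) = s + l := by omega
      rw [g4] at g3
      rw [g3]
      obtain ⟨m, rfl⟩ : ∃ m, i = m + j := ⟨i - j, by omega⟩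
      have g5 := bn_local hb hK κ m j
      rw [Y.E_add]
      have g6 : (Y.E m fun u => Y.E j fun v => ρ (u ++ v) *
          (ind (good Y ρ κ ((u ++ v).drop (m + j - j))) - ind (good Y ρ κ (u ++ v)))) =
          bn Y ρ κ (m + j) - bn Y ρ κ j := by
        rw [← g5]
        refine Y.E_congr fun u hu => Y.E_congr fun v _ => ?_
        rw [Nat.add_sub_cancel, ← hu, List.drop_left]
      rw [g6]
      have := bn_le_bb hb hK hκ (m + j)
      linarith
    refine (Finset.sum_le_sum g2).trans ?_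
    rw [Finset.sum_const, Nat.card_Ico, nsmul_eq_mul, Nat.add_sub_cancel_left]
  have f3 : 8 / (l : ℝ) * (Y.E (s + l) fun w => ρ w * D w) ≤ δ / 2 := by
    have := mul_le_mul_of_nonneg_left f2 (show 0 ≤ 8 / (l : ℝ) by positivity)
    refine this.trans (le_of_eq ?_)
    field_simp
    ring
  linarith

/-- `Rg` in terms of `ng` -/
theorem Rg_iff (κ : ℝ) (n : ℕ) (w : List S) : Rg Y ρ κ n w ↔ (n : ℝ) ≤ 2 * ng Y ρ κ n n w := by
  classical
  unfold Rg ng
  have h1 : ∑ i ∈ Ico n (n + n), ind (good Y ρ κ (w.take i)) =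
      (((Finset.Ico n (2 * n)).filter fun i => good Y ρ κ (w.take i)).card : ℝ) := by
    rw [← two_mul, Finset.card_filter]
    push_cast
    refine Finset.sum_congr rfl fun i _ => ?_
    by_cases hg : good Y ρ κ (w.take i)
    · rw [ind_of hg, if_pos hg]
    · rw [ind_not hg, if_neg hg]
  rw [h1]
  constructor
  · intro h
    exact_mod_cast h
  · intro h
    exact_mod_cast h

/-- regularity depends only on the first `2 n` letters -/
theorem Rg_append {κ : ℝ} {n : ℕ} {u : List S} (hu : 2 * n ≤ u.length) (v : List S) :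
    Rg Y ρ κ n (u ++ v) ↔ Rg Y ρ κ n u := by
  rw [Rg_iff, Rg_iff, ng_append κ (by omega)]

/-- (U7) in terms of `Rg` -/
theorem irr_le (h : Erg Y Λ K ρ) {κ : ℝ} (hκ : 0 ≤ κ) (hκK : κ * K ≤ 1 / 8) {δ : ℝ}
    (hδ : 0 < δ) : ∃ n₀ : ℕ, ∀ n ≥ n₀, ∀ N, 2 * n ≤ N →
      (Y.E N fun w => ρ w * ind (¬ Rg Y ρ κ n w)) ≤ δ := by
  obtain ⟨n₀, h1⟩ := many_good h hκ hκK hδ
  refine ⟨n₀, fun n hn N hN => ?_⟩
  have h2 := h1 n hn n hn N (by omega)
  refine le_trans (le_of_eq ?_) h2
  refine Y.E_congr fun w _ => ?_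
  rw [ind_congr (show ¬ Rg Y ρ κ n w ↔ 2 * ng Y ρ κ n n w < n by rw [Rg_iff, not_le])]

/-- (U7) for the join of the arms -/
theorem irr_UU_le (h : Erg Y Λ K ρ) {κ : ℝ} (hκ : 0 ≤ κ) (hκK : κ * K ≤ 1 / 8) {δ : ℝ}
    (hδ : 0 < δ) : ∃ n₀ : ℕ, ∀ n ≥ n₀, ∀ N, 2 * n ≤ N →
      (Y.E N fun w => UU Y ρ w * ind (¬ Rg Y ρ κ n w)) ≤ δ := by
  obtain ⟨C, hC, h1⟩ := UU_mass_le h.bulk h.a_le (half_pos hδ)
  obtain ⟨n₀, hn₀⟩ := irr_le h hκ hκK (show 0 < δ / 2 / (C + 1) by positivity)
  refine ⟨n₀, fun n hn N hN => (h1 N _).trans ?_⟩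
  have h2 := mul_le_mul_of_nonneg_left (hn₀ n hn N hN) hC
  have h3 : C * (δ / 2 / (C + 1)) ≤ δ / 2 := by
    rw [mul_div_assoc', div_le_iff₀ (by positivity)]
    nlinarith
  linarith

end Pool.Agent.SawM2
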