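import Pool.Agent.SawM2.NTwo

/-!
# Goodness and displacement
-/

set_option autoImplicit false

namespace Pool.Agent.SawM2

open Finset Filter Topology Pool.Agent.Bub4 Pool.Agent.SawDiff

variable {S V : Type} [Fintype S] [AddCommGroup V] {Y : Sys S V} {Λ K : ℝ} {ρ : List S → ℝ}
  {k : ℕ} {π : V →+ Zk k}

theorem ind_good_eq (Y : Sys S V) (ρ : List S → ℝ) (κ : ℝ) (w : List S) :
    ind (good Y ρ κ w) = 1 - ind (¬ good Y ρ κ w) := by
  rw [ind_compl, sub_sub_cancel]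

/-- (U9) -/
theorem good_disp (hE : Erg Y Λ K ρ) (hπ : Stp Y π) {κ : ℝ} (hκ : 0 ≤ κ) {ε : ℝ} (hε : 0 < ε) :
    ∃ L₀ : ℝ, 0 < L₀ ∧ ∃ n₀ : ℕ, ∀ L ≥ L₀, ∀ n ≥ n₀, ∀ f : Zk k → ℝ,
      (∀ x, |f x| ≤ 1) → Lip L f →
      |(Y.E n fun w => ρ w * ind (good Y ρ κ w) * f (π (Y.sm w))) -
        (1 - bb Y ρ κ) * (Y.E n fun w => ρ w * f (π (Y.sm w)))| ≤ ε := by
  have h := hE.bulk
  have hK := hE.a_le
  obtain ⟨j, hj⟩ := ((bn_tendsto h hK hκ).eventually (lt_mem_nhds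
    (show bb Y ρ κ - ε / 5 < bb Y ρ κ by linarith))).exists
  obtain ⟨L₀, hL₀, hN⟩ := near2 hE hπ (show 0 < ε / 5 by positivity)
  refine ⟨max L₀ (5 * (k * j) / ε + 1), lt_max_of_lt_left hL₀, j, fun L hL n hn f hf hl => ?_⟩
  have hL1 : L₀ ≤ L := (le_max_left _ _).trans hL
  have hL2 : 5 * ((k : ℝ) * j) / ε + 1 ≤ L := (le_max_right _ _).trans hL
  have hLpos : 0 < L := lt_of_lt_of_le hL₀ hL1
  have hkj : (k : ℝ) * j / L ≤ ε / 5 := by
    rw [div_le_iff₀ hLpos]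
    have : 5 * ((k : ℝ) * j) / ε ≤ L := by linarith
    rw [div_le_iff₀ hε] at this
    linarith
  have hkj0 : 0 ≤ (k : ℝ) * j / L := by positivity
  obtain ⟨m, rfl⟩ : ∃ m, n = m + j := ⟨n - j, by omega⟩
  have habs : ∀ w, |f w| ≤ 1 := hf
  -- the difference of the displacements
  have hshift : ∀ u v : List S, v.length = j →
      |f (π (Y.sm (u ++ v))) - f (π (Y.sm u))| ≤ k * j / L := by
    intro u v hv
    refine (hl _ _).trans ?_
    rw [Y.sm_append, map_add, add_sub_cancel_left]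
    refine div_le_div_of_nonneg_right ?_ hLpos.le
    have := n1_sm_le hπ v
    rw [hv] at this
    exact_mod_cast this
  -- (a) replace the goodness of the word by that of its end
  have A : |(Y.E (m + j) fun w => ρ w * ind (good Y ρ κ w) * f (π (Y.sm w))) -
      Y.E m fun u => Y.E j fun v => ρ (u ++ v) * ind (good Y ρ κ v) * f (π (Y.sm (u ++ v)))| ≤
      ε / 5 := by
    rw [Y.E_add, ← Y.E_fsub]
    refine (Y.E_abs _ _).trans ?_
    have g5 := bn_local h hK κ m j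
    have g6 : bn Y ρ κ (m + j) - bn Y ρ κ j ≤ ε / 5 := by
      have := bn_le_bb h hK hκ (m + j)
      linarith
    refine le_trans (Y.E_mono fun u _ => ?_) (g5.le.trans g6)
    rw [← Y.E_fsub]
    refine (Y.E_abs _ _).trans (Y.E_mono fun v _ => ?_)
    have g7 := good_diff_nonneg h hK κ u v
    have g8 := h.nonneg (u ++ v)
    have g9 : ρ (u ++ v) * ind (good Y ρ κ (u ++ v)) * f (π (Y.sm (u ++ v))) -
        ρ (u ++ v) * ind (good Y ρ κ v) * f (π (Y.sm (u ++ v))) =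
        -(ρ (u ++ v) * (ind (good Y ρ κ v) - ind (good Y ρ κ (u ++ v))) *
          f (π (Y.sm (u ++ v)))) := by ring
    rw [g9, abs_neg, abs_mul, abs_of_nonneg (mul_nonneg g8 g7)]
    exact mul_le_of_le_one_right (mul_nonneg g8 g7) (habs _)
  -- (b) near independence
  have B : |(Y.E m fun u => Y.E j fun v => ρ (u ++ v) * ind (good Y ρ κ v) *
        f (π (Y.sm (u ++ v)))) -
      Y.E m fun u => Y.E j fun v => ρ u * ρ v * ind (good Y ρ κ v) * f (π (Y.sm (u ++ v)))| ≤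
      ε / 5 := by
    have g1 := hN L hL1 m j (fun x v => ind (good Y ρ κ v) * f (x + π (Y.sm v)))
      (fun x v => by
        rw [abs_mul, abs_of_nonneg (ind_nonneg _)]
        exact mul_le_one₀ (ind_le_one _) (abs_nonneg _) (habs _))
      (fun v x y => by
        rw [← mul_sub, abs_mul, abs_of_nonneg (ind_nonneg _)]
        refine (mul_le_of_le_one_left (abs_nonneg _) (ind_le_one _)).trans ?_
        refine (hl _ _).trans (le_of_eq ?_)
        rw [add_sub_add_right_eq_sub])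
    rw [← Y.E_fsub]
    refine le_trans (le_of_eq ?_) g1
    congr 1
    refine Y.E_congr fun u _ => ?_
    rw [← Y.E_fsub]
    refine Y.E_congr fun v _ => ?_
    rw [Y.sm_append, map_add]
    ring
  -- (c) the displacement of the end is negligible
  have C : |(Y.E m fun u => Y.E j fun v => ρ u * ρ v * ind (good Y ρ κ v) *
        f (π (Y.sm (u ++ v)))) - (1 - bn Y ρ κ j) * Y.E m fun u => ρ u * f (π (Y.sm u))| ≤
      ε / 5 := by
    have e1 : (1 - bn Y ρ κ j) * (Y.E m fun u => ρ u * f (π (Y.sm u))) =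
        Y.E m fun u => Y.E j fun v => ρ u * ρ v * ind (good Y ρ κ v) * f (π (Y.sm u)) := by
      have e2 : (1 - bn Y ρ κ j) = Y.E j fun v => ρ v * ind (good Y ρ κ v) := by
        simp only [ind_good_eq, mul_sub, mul_one]
        rw [Y.E_fsub, h.mass]
        rfl
      rw [e2, ← Y.E_mul_left]
      refine Y.E_congr fun u _ => ?_
      rw [← Y.E_mul_right]
      refine Y.E_congr fun v _ => ?_
      ring
    rw [e1, ← Y.E_fsub]
    refine (Y.E_abs _ _).trans ?_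
    have e3 : ∀ u : List S, u.length = m →
        |(Y.E j fun v => ρ u * ρ v * ind (good Y ρ κ v) * f (π (Y.sm (u ++ v)))) -
          (Y.E j fun v => ρ u * ρ v * ind (good Y ρ κ v) * f (π (Y.sm u)))| ≤
        ρ u * (k * j / L) := by
      intro u _
      rw [← Y.E_fsub]
      refine (Y.E_abs _ _).trans ?_
      have e4 : (Y.E j fun v => ρ v * (ρ u * (k * j / L))) = ρ u * (k * j / L) := by
        rw [Y.E_mul_right, h.mass, one_mul]
      rw [← e4]
      refine Y.E_mono fun v hv => ?_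
      have e5 : ρ u * ρ v * ind (good Y ρ κ v) * f (π (Y.sm (u ++ v))) -
          ρ u * ρ v * ind (good Y ρ κ v) * f (π (Y.sm u)) =
          (ρ v * ρ u) * (ind (good Y ρ κ v) * (f (π (Y.sm (u ++ v))) - f (π (Y.sm u)))) := by ring
      have e6 : 0 ≤ ρ v * ρ u := mul_nonneg (h.nonneg _) (h.nonneg _)
      rw [e5, abs_mul, abs_of_nonneg e6, ← mul_assoc]
      refine mul_le_mul_of_nonneg_left ?_ e6
      rw [abs_mul, abs_of_nonneg (ind_nonneg _)]
      exact (mul_le_of_le_one_left (abs_nonneg _) (ind_le_one _)).trans (hshift u v hv)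
    refine (Y.E_mono e3).trans ?_
    rw [Y.E_mul_right, h.mass, one_mul]
    exact hkj
  -- (d) the same for the whole word
  have D : |(Y.E m fun u => ρ u * f (π (Y.sm u))) - Y.E (m + j) fun w => ρ w * f (π (Y.sm w))| ≤
      ε / 5 := by
    have e1 : (Y.E m fun u => ρ u * f (π (Y.sm u))) =
        Y.E m fun u => Y.E j fun v => ρ (u ++ v) * f (π (Y.sm u)) := by
      refine Y.E_congr fun u _ => ?_
      rw [Y.E_mul_right, h.right]
    rw [e1, Y.E_add, ← Y.E_fsub]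
    refine (Y.E_abs _ _).trans ?_
    have e2 : ∀ u : List S, u.length = m →
        |(Y.E j fun v => ρ (u ++ v) * f (π (Y.sm u))) -
          (Y.E j fun v => ρ (u ++ v) * f (π (Y.sm (u ++ v))))| ≤ ρ u * (k * j / L) := by
      intro u _
      rw [← Y.E_fsub]
      refine (Y.E_abs _ _).trans ?_
      have e4 : (Y.E j fun v => ρ (u ++ v) * (k * j / L)) = ρ u * (k * j / L) := by
        rw [Y.E_mul_right, h.right]
      rw [← e4]
      refine Y.E_mono fun v hv => ?_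
      rw [← mul_sub, abs_mul, abs_of_nonneg (h.nonneg _)]
      refine mul_le_mul_of_nonneg_left ?_ (h.nonneg _)
      rw [abs_sub_comm]
      exact hshift u v hv
    refine (Y.E_mono e2).trans ?_
    rw [Y.E_mul_right, h.mass, one_mul]
    exact hkj
  -- conclusion
  set a₁ := Y.E (m + j) fun w => ρ w * ind (good Y ρ κ w) * f (π (Y.sm w)) with ha₁
  set a₂ := Y.E m fun u => Y.E j fun v => ρ (u ++ v) * ind (good Y ρ κ v) *
    f (π (Y.sm (u ++ v))) with ha₂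
  set a₃ := Y.E m fun u => Y.E j fun v => ρ u * ρ v * ind (good Y ρ κ v) *
    f (π (Y.sm (u ++ v))) with ha₃
  set b₁ := Y.E m fun u => ρ u * f (π (Y.sm u)) with hb₁
  set b₂ := Y.E (m + j) fun w => ρ w * f (π (Y.sm w)) with hb₂
  have hbn0 : 0 ≤ bn Y ρ κ j := bn_nonneg h κ j
  have hbn1 : bn Y ρ κ j ≤ 1 := by
    have : bn Y ρ κ j ≤ Y.E j ρ := Y.E_mono fun w _ =>
      mul_le_of_le_one_right (h.nonneg w) (ind_le_one _)
    rwa [h.mass] at this
  have hbb := bn_le_bb h hK hκ j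
  have hb2 : |b₂| ≤ 1 := by
    rw [hb₂]
    refine (Y.E_abs _ _).trans ?_
    rw [← h.mass (m + j)]
    refine Y.E_mono fun w _ => ?_
    rw [abs_mul, abs_of_nonneg (h.nonneg w)]
    exact mul_le_of_le_one_right (h.nonneg w) (habs _)
  have hD' : |(1 - bn Y ρ κ j) * (b₁ - b₂)| ≤ ε / 5 := by
    rw [abs_mul, abs_of_nonneg (show 0 ≤ 1 - bn Y ρ κ j by linarith)]
    exact (mul_le_of_le_one_left (abs_nonneg _) (by linarith)).trans D
  have hF : |(bb Y ρ κ - bn Y ρ κ j) * b₂| ≤ ε / 5 := by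
    rw [abs_mul, abs_of_nonneg (show 0 ≤ bb Y ρ κ - bn Y ρ κ j by linarith)]
    refine (mul_le_of_le_one_right (by linarith) hb2).trans ?_
    linarith
  have e : a₁ - (1 - bb Y ρ κ) * b₂ = (a₁ - a₂) + (a₂ - a₃) + (a₃ - (1 - bn Y ρ κ j) * b₁) +
      (1 - bn Y ρ κ j) * (b₁ - b₂) + (bb Y ρ κ - bn Y ρ κ j) * b₂ := by ring
  rw [e]
  have t1 := abs_add_le ((a₁ - a₂) + (a₂ - a₃) + (a₃ - (1 - bn Y ρ κ j) * b₁) +
    (1 - bn Y ρ κ j) * (b₁ - b₂)) ((bb Y ρ κ - bn Y ρ κ j) * b₂)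
  have t2 := abs_add_le ((a₁ - a₂) + (a₂ - a₃) + (a₃ - (1 - bn Y ρ κ j) * b₁))
    ((1 - bn Y ρ κ j) * (b₁ - b₂))
  have t3 := abs_add_le ((a₁ - a₂) + (a₂ - a₃)) (a₃ - (1 - bn Y ρ κ j) * b₁)
  have t4 := abs_add_le (a₁ - a₂) (a₂ - a₃)
  linarith

/-- (U9) for the reversed law -/
theorem good_disp_rv (hE : Erg Y Λ K ρ) (hπ : Stp Y π) {κ : ℝ} (hκ : 0 ≤ κ)
    {ε : ℝ} (hε : 0 < ε) :
    ∃ L₀ : ℝ, 0 < L₀ ∧ ∃ n₀ : ℕ, ∀ L ≥ L₀, ∀ n ≥ n₀, ∀ f : Zk k → ℝ,
      (∀ x, |f x| ≤ 1) → Lip L f →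
      |(Y.E n fun w => rv ρ w * ind (good Y (rv ρ) κ w) * f (π (Y.sm w))) -
        (1 - bb Y (rv ρ) κ) * (Y.E n fun w => ρ w * f (π (Y.sm w)))| ≤ ε := by
  obtain ⟨L₀, hL₀, n₀, hn⟩ := good_disp hE.rv hπ hκ hε
  refine ⟨L₀, hL₀, n₀, fun L hL n hn' f hf hl => ?_⟩
  have h2 := hn L hL n hn' f hf hl
  have h3 : (Y.E n fun w => rv ρ w * f (π (Y.sm w))) = Y.E n fun w => ρ w * f (π (Y.sm w)) := by
    rw [← Y.E_reverse n fun w => ρ w * f (π (Y.sm w))]
    refine Y.E_congr fun w _ => ?_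
    rw [Y.sm_reverse]
    rfl
  rwa [h3] at h2

end Pool.Agent.SawM2
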