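import Pool.Agent.SawM2.GStop
import Pool.Agent.SawM2.U7
import Pool.Agent.SawM2.U9
import Pool.Agent.SawM2.NTwo

/-!
# Convolutions of the laws of the good regular words (module WDB)
-/

set_option autoImplicit false

namespace Pool.Agent.SawM2

open Finset Filter Pool.Agent.Bub4 Pool.Agent.SawDiff

variable {S V : Type} [Fintype S] [AddCommGroup V] {Y : Sys S V} {Λ K : ℝ} {ρ : List S → ℝ}
  {k : ℕ} {π : V →+ Zk k} {κ a : ℝ}

/-- WDB. One pair of lengths. With `F x = E m (ρ v f (x + X v))` (again Lipschitz, values in `[0,1]`):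
`E l (ρ ind (good ∧ Rg) F (X)) ≤ E l (ρ ind good F (X)) ≤ (1 - bb) E l (ρ F (X)) + ε/4`
(`good_disp`), and
`E (l + m) (ρ ind (good ∧ Rg) f (X)) ≥ E (l + m) (ρ ind good f (X)) - ε/4` (`irr_le`)
`≥ (1 - bb) E (l + m) (ρ f (X)) - ε/2` (`good_disp`), `E (l + m) (ρ f (X)) ≥ E l E m (ρ u ρ v
f (X u + X v)) - ε/4` (`near2`), `0 ≤ 1 - bb ≤ 1`. All `m` (also small): only `l ≥ 4 n` is large. -/
theorem shift_len (h : Erg Y Λ K ρ) (hπ : Stp Y π) (hκ : 0 < κ) (hκK : κ * K ≤ 1 / 8) {ε : ℝ}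
    (hε : 0 < ε) : ∃ L₀ : ℝ, 0 < L₀ ∧ ∃ n₀ : ℕ, ∀ L ≥ L₀, ∀ n ≥ n₀, ∀ l ≥ 4 * n, ∀ (m : ℕ)
      (f : Zk k → ℝ), (∀ x, 0 ≤ f x) → (∀ x, f x ≤ 1) → Lip L f →
      (Y.E l fun u => ρ u * ind (good Y ρ κ u ∧ Rg Y ρ κ n u) *
        Y.E m fun v => ρ v * f (π (Y.sm u) + π (Y.sm v))) ≤
      (Y.E (l + m) fun w => ρ w * ind (good Y ρ κ w ∧ Rg Y ρ κ n w) * f (π (Y.sm w))) + ε := by
  have hb := h.bulk
  obtain ⟨L₁, hL₁, h1⟩ := near2 (π := π) h hπ (show 0 < ε / 4 by positivity)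
  obtain ⟨L₂, hL₂, n₂, h2⟩ := good_disp (π := π) h hπ hκ.le (show 0 < ε / 4 by positivity)
  obtain ⟨n₃, h3⟩ := irr_le h hκ.le hκK (show 0 < ε / 4 by positivity)
  refine ⟨max L₁ L₂, lt_max_of_lt_left hL₁, max n₂ n₃, fun L hL n hn l hl m f hf hf1 hlip => ?_⟩
  have hL1 : L₁ ≤ L := (le_max_left _ _).trans hL
  have hL2 : L₂ ≤ L := (le_max_right _ _).trans hL
  have hn2 : n₂ ≤ n := (le_max_left _ _).trans hn
  have hn3 : n₃ ≤ n := (le_max_right _ _).trans hn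
  have hbb0 : 0 ≤ bb Y ρ κ := (bn_nonneg hb κ 0).trans (bn_le_bb hb h.a_le hκ.le 0)
  have hbb1 : bb Y ρ κ ≤ 1 := (bb_le hb h.a_le hκ.le).trans (by linarith)
  set F : Zk k → ℝ := fun x => Y.E m fun v => ρ v * f (x + π (Y.sm v)) with hF
  have hF0 : ∀ x, 0 ≤ F x := fun x => Y.E_nonneg' fun v => mul_nonneg (hb.nonneg v) (hf _)
  have hF1 : ∀ x, F x ≤ 1 := by
    intro x
    rw [← hb.mass m]
    exact Y.E_mono fun v _ => mul_le_of_le_one_right (hb.nonneg v) (hf1 _)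
  have hFl : Lip L F := by
    intro x y
    have e1 : F x - F y = Y.E m fun v => ρ v * (f (x + π (Y.sm v)) - f (y + π (Y.sm v))) := by
      rw [hF]
      simp only
      rw [← Y.E_fsub]
      exact Y.E_congr fun v _ => by ring
    rw [e1]
    refine (Y.E_abs _ _).trans ?_
    have e2 : (Y.E m fun v => ρ v * ((n1 (x - y) : ℝ) / L)) = n1 (x - y) / L := by
      rw [Y.E_mul_right, hb.mass, one_mul]
    rw [← e2]
    refine Y.E_mono fun v _ => ?_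
    rw [abs_mul, abs_of_nonneg (hb.nonneg v)]
    refine mul_le_mul_of_nonneg_left ?_ (hb.nonneg v)
    refine (hlip _ _).trans (le_of_eq ?_)
    rw [add_sub_add_right_eq_sub]
  -- step 1
  have s1 : (Y.E l fun u => ρ u * ind (good Y ρ κ u ∧ Rg Y ρ κ n u) * F (π (Y.sm u))) ≤
      Y.E l fun u => ρ u * ind (good Y ρ κ u) * F (π (Y.sm u)) :=
    Y.E_mono fun u _ => mul_le_mul_of_nonneg_right
      (mul_le_mul_of_nonneg_left (ind_mono fun hw => hw.1) (hb.nonneg u)) (hF0 _)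
  have s2 := (abs_le.1 (h2 L hL2 l (by omega) F (fun x => by
    rw [abs_of_nonneg (hF0 x)]; exact hF1 x) hFl)).2
  -- step 2
  have s3 : (Y.E l fun u => ρ u * F (π (Y.sm u))) ≤
      (Y.E (l + m) fun w => ρ w * f (π (Y.sm w))) + ε / 4 := by
    have g1 := (abs_le.1 (h1 L hL1 l m (fun x v => f (x + π (Y.sm v)))
      (fun x v => by rw [abs_of_nonneg (hf _)]; exact hf1 _)
      (fun v x y => by
        refine (hlip _ _).trans (le_of_eq ?_)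
        rw [add_sub_add_right_eq_sub]))).1
    have e1 : (Y.E l fun u => Y.E m fun v => (ρ (u ++ v) - ρ u * ρ v) *
        f (π (Y.sm u) + π (Y.sm v))) =
        (Y.E (l + m) fun w => ρ w * f (π (Y.sm w))) -
          Y.E l fun u => ρ u * F (π (Y.sm u)) := by
      rw [Y.E_add, ← Y.E_fsub]
      refine Y.E_congr fun u _ => ?_
      rw [hF]
      simp only
      rw [← Y.E_mul_left, ← Y.E_fsub]
      refine Y.E_congr fun v _ => ?_
      rw [Y.sm_append, map_add]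
      ring
    rw [e1] at g1
    linarith
  -- step 3
  have s4 := (abs_le.1 (h2 L hL2 (l + m) (by omega) f (fun x => by
    rw [abs_of_nonneg (hf x)]; exact hf1 x) hlip)).1
  -- step 4
  have s5 : (Y.E (l + m) fun w => ρ w * ind (good Y ρ κ w) * f (π (Y.sm w))) ≤
      (Y.E (l + m) fun w => ρ w * ind (good Y ρ κ w ∧ Rg Y ρ κ n w) * f (π (Y.sm w))) +
        Y.E (l + m) fun w => ρ w * ind (¬ Rg Y ρ κ n w) := by
    rw [← Y.E_fadd]
    refine Y.E_mono fun w _ => ?_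
    rw [ind_and, ind_compl]
    have g1 := hb.nonneg w
    have g2 := ind_nonneg (good Y ρ κ w)
    have g3 := ind_le_one (good Y ρ κ w)
    have g4 := ind_le_one (Rg Y ρ κ n w)
    have g5 := hf (π (Y.sm w))
    have g6 := hf1 (π (Y.sm w))
    have g7 : ind (good Y ρ κ w) * f (π (Y.sm w)) ≤ 1 := mul_le_one₀ g3 g5 g6
    have g8 : 0 ≤ ρ w * (1 - ind (Rg Y ρ κ n w)) := mul_nonneg g1 (by linarith)
    nlinarith [mul_le_mul_of_nonneg_left g7 g8]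
  have s6 := h3 n hn3 (l + m) (by omega)
  have s7 : (1 - bb Y ρ κ) * (Y.E l fun u => ρ u * F (π (Y.sm u))) ≤
      (1 - bb Y ρ κ) * ((Y.E (l + m) fun w => ρ w * f (π (Y.sm w))) + ε / 4) :=
    mul_le_mul_of_nonneg_left s3 (by linarith)
  have s8 : (1 - bb Y ρ κ) * (ε / 4) ≤ ε / 4 := mul_le_of_le_one_left (by positivity) (by linarith)
  have s9 : (Y.E l fun u => ρ u * ind (good Y ρ κ u ∧ Rg Y ρ κ n u) *
        Y.E m fun v => ρ v * f (π (Y.sm u) + π (Y.sm v))) =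
      Y.E l fun u => ρ u * ind (good Y ρ κ u ∧ Rg Y ρ κ n u) * F (π (Y.sm u)) := rfl
  rw [s9]
  rw [mul_add] at s7
  linarith

/-- WDB. Sum `shift_len` over `l ∈ [4 n, T N)`, `n = N / D`; the numbers `l + m < 2 T N` are
distinct; the terms are nonnegative. -/
theorem PR_shift (h : Erg Y Λ K ρ) (hπ : Stp Y π) (hκ : 0 < κ) (hκK : κ * K ≤ 1 / 8) {D : ℕ}
    (hD : 1 ≤ D) (T : ℕ) {ε : ℝ} (hε : 0 < ε) :
    ∃ L₀ : ℝ, 0 < L₀ ∧ ∃ N₀ : ℕ, ∀ L ≥ L₀, ∀ N ≥ N₀, ∀ m : ℕ, m ≤ T * N → ∀ f : Zk k → ℝ,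
      (∀ x, 0 ≤ f x) → (∀ x, f x ≤ 1) → Lip L f →
      (Fm.conv (PR Y π ρ κ (N / D) (T * N)) (lw Y π ρ m)).pr f ≤
        (PR Y π ρ κ (N / D) (2 * T * N)).pr f + ε * N := by
  have hb := h.bulk
  have hT : (0 : ℝ) < T + 1 := by positivity
  obtain ⟨L₀, hL₀, n₀, h1⟩ := shift_len (π := π) h hπ hκ hκK (show 0 < ε / (T + 1) by positivity)
  refine ⟨L₀, hL₀, n₀ * D, fun L hL N hN m hm f hf hf1 hlip => ?_⟩
  have hn : n₀ ≤ N / D := (Nat.le_div_iff_mul_le hD).2 hN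
  set n := N / D with hndef
  set g : ℕ → ℝ := fun i => Y.E i fun w =>
    ρ w * ind (good Y ρ κ w ∧ Rg Y ρ κ n w) * f (π (Y.sm w)) with hg
  have hg0 : ∀ i, 0 ≤ g i := fun i => Y.E_nonneg' fun w =>
    mul_nonneg (mul_nonneg (hb.nonneg w) (ind_nonneg _)) (hf _)
  have e1 : (PR Y π ρ κ n (2 * T * N)).pr f = ∑ i ∈ Ico (4 * n) (2 * T * N), g i := by
    unfold PR
    rw [Fm.pr_bs]
    exact Finset.sum_congr rfl fun i _ => pr_lw _ _ _ _ _
  have e2 : (Fm.conv (PR Y π ρ κ n (T * N)) (lw Y π ρ m)).pr f =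
      ∑ l ∈ Ico (4 * n) (T * N), Y.E l fun u => ρ u * ind (good Y ρ κ u ∧ Rg Y ρ κ n u) *
        Y.E m fun v => ρ v * f (π (Y.sm u) + π (Y.sm v)) := by
    rw [Fm.pr_conv]
    unfold PR
    rw [Fm.pr_bs]
    refine Finset.sum_congr rfl fun l _ => ?_
    rw [pr_lw]
    refine Y.E_congr fun u _ => ?_
    rw [pr_lw]
  rw [e1, e2]
  have s1 : ∀ l ∈ Ico (4 * n) (T * N), (Y.E l fun u => ρ u *
      ind (good Y ρ κ u ∧ Rg Y ρ κ n u) * Y.E m fun v => ρ v * f (π (Y.sm u) + π (Y.sm v))) ≤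
      g (l + m) + ε / (T + 1) := fun l hl =>
    h1 L hL n hn l (Finset.mem_Ico.1 hl).1 m f hf hf1 hlip
  refine (Finset.sum_le_sum s1).trans ?_
  rw [Finset.sum_add_distrib, Finset.sum_const, nsmul_eq_mul]
  have s2 : ∑ l ∈ Ico (4 * n) (T * N), g (l + m) ≤ ∑ i ∈ Ico (4 * n) (2 * T * N), g i := by
    rw [← Finset.sum_image (f := g) (g := fun l => l + m) (fun x _ y _ hxy => by simpa using hxy)]
    refine Finset.sum_le_sum_of_subset_of_nonneg ?_ fun i _ _ => hg0 i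
    intro i hi
    rw [Finset.mem_image] at hi
    obtain ⟨l, hl, rfl⟩ := hi
    rw [Finset.mem_Ico] at hl ⊢
    have : 2 * T * N = T * N + T * N := by ring
    omega
  have s3 : (((Ico (4 * n) (T * N)).card : ℕ) : ℝ) * (ε / (T + 1)) ≤ ε * N := by
    have c1 : (((Ico (4 * n) (T * N)).card : ℕ) : ℝ) ≤ T * N := by
      rw [Nat.card_Ico]
      exact_mod_cast Nat.sub_le _ _
    have c2 : (0 : ℝ) ≤ ε / (T + 1) := by positivity
    refine (mul_le_mul_of_nonneg_right c1 c2).trans ?_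
    rw [mul_div_assoc', div_le_iff₀ hT]
    have : 0 ≤ ε * (N : ℝ) := by positivity
    nlinarith
  linarith

/-- WDB. Sum `shift_len` over `l`, `m ∈ [4 n, T N)` (`ρ v ind (..) ≤ ρ v`); every length
`l + m < 2 T N` occurs for at most `T N` pairs. -/
theorem PR_conv (h : Erg Y Λ K ρ) (hπ : Stp Y π) (hκ : 0 < κ) (hκK : κ * K ≤ 1 / 8) {D : ℕ}
    (hD : 1 ≤ D) (T : ℕ) {ε : ℝ} (hε : 0 < ε) :
    ∃ L₀ : ℝ, 0 < L₀ ∧ ∃ N₀ : ℕ, ∀ L ≥ L₀, ∀ N ≥ N₀, ∀ f : Zk k → ℝ,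
      (∀ x, 0 ≤ f x) → (∀ x, f x ≤ 1) → Lip L f →
      (Fm.conv (PR Y π ρ κ (N / D) (T * N)) (PR Y π ρ κ (N / D) (T * N))).pr f ≤
        T * N * (PR Y π ρ κ (N / D) (2 * T * N)).pr f + ε * (N : ℝ) ^ 2 := by
  have hb := h.bulk
  have hT : (0 : ℝ) < T + 1 := by positivity
  obtain ⟨L₀, hL₀, N₀, h1⟩ := PR_shift (π := π) h hπ hκ hκK hD T
    (show 0 < ε / (T + 1) by positivity)
  refine ⟨L₀, hL₀, N₀, fun L hL N hN f hf hf1 hlip => ?_⟩
  set n := N / D with hndef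
  set P := PR Y π ρ κ n (T * N) with hP
  have hPn : P.Nn := nn_PR hb n (T * N)
  have e1 : (Fm.conv P P).pr f ≤ ∑ m ∈ Ico (4 * n) (T * N), (Fm.conv P (lw Y π ρ m)).pr f := by
    rw [Fm.pr_conv]
    have e2 : ∑ m ∈ Ico (4 * n) (T * N), (Fm.conv P (lw Y π ρ m)).pr f =
        P.pr fun x => ∑ m ∈ Ico (4 * n) (T * N), (lw Y π ρ m).pr fun y => f (x + y) := by
      rw [Fm.pr_fsum]
      exact Finset.sum_congr rfl fun m _ => Fm.pr_conv _ _ _
    rw [e2]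
    refine hPn.pr_mono fun x => ?_
    rw [hP]
    unfold PR
    rw [Fm.pr_bs]
    refine Finset.sum_le_sum fun m _ => ?_
    exact dom_lw Y π m (fun w _ => mul_le_of_le_one_right (hb.nonneg w) (ind_le_one _)) _
      fun y => hf _
  have s1 : ∀ m ∈ Ico (4 * n) (T * N), (Fm.conv P (lw Y π ρ m)).pr f ≤
      (PR Y π ρ κ n (2 * T * N)).pr f + ε / (T + 1) * N := fun m hm =>
    h1 L hL N hN m (Finset.mem_Ico.1 hm).2.le f hf hf1 hlip
  refine e1.trans ((Finset.sum_le_sum s1).trans ?_)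
  rw [Finset.sum_const, nsmul_eq_mul]
  have c1 : (((Ico (4 * n) (T * N)).card : ℕ) : ℝ) ≤ T * N := by
    rw [Nat.card_Ico]
    exact_mod_cast Nat.sub_le _ _
  have c2 : 0 ≤ (PR Y π ρ κ n (2 * T * N)).pr f := (nn_PR hb n (2 * T * N)).pr_nonneg hf
  have c3 : (0 : ℝ) ≤ ε / (T + 1) * N := by positivity
  refine (mul_le_mul_of_nonneg_right c1 (by linarith)).trans ?_
  rw [mul_add]
  have c4 : (T : ℝ) * N * (ε / (T + 1) * N) ≤ ε * (N : ℝ) ^ 2 := by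
    have c5 : (T : ℝ) * N * (ε / (T + 1) * N) = T * ε * (N : ℝ) ^ 2 / (T + 1) := by
      field_simp
    rw [c5, div_le_iff₀ hT]
    have : 0 ≤ ε * (N : ℝ) ^ 2 := by positivity
    nlinarith
  linarith

end Pool.Agent.SawM2
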