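import Pool.Agent.SawM2.GStop
import Pool.Agent.SawM2.U7
import Pool.Agent.SawM2.U9

/-!
# Lower bound for the law of the good regular words (module WDC)
-/

set_option autoImplicit false

namespace Pool.Agent.SawM2

open Finset Filter Pool.Agent.Bub4 Pool.Agent.SawDiff

variable {S V : Type} [Fintype S] [AddCommGroup V] {Y : Sys S V} {Λ K : ℝ} {ρ : List S → ℝ}
  {k : ℕ} {π : V →+ Zk k} {κ a : ℝ}

/-- WDC. For `l ∈ [N/2, N)` (`4 (N / D) ≤ N / 2` as `D ≥ 8`):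
`E l (ρ ind (good ∧ Rg) f (X)) ≥ E l (ρ ind good f (X)) - ε/2` (`irr_le`)
`≥ (1 - bb) E l (ρ f (X)) - ε` (`good_disp`), `bb ≤ κ K ≤ 1/8` (`bb_le`). -/
theorem PR_ge (h : Erg Y Λ K ρ) (hπ : Stp Y π) (hκ : 0 < κ) (hκK : κ * K ≤ 1 / 8) {D : ℕ}
    (hD : 8 ≤ D) {ε : ℝ} (hε : 0 < ε) :
    ∃ L₀ : ℝ, 0 < L₀ ∧ ∃ N₀ : ℕ, ∀ L ≥ L₀, ∀ N ≥ N₀, ∀ f : Zk k → ℝ,
      (∀ x, 0 ≤ f x) → (∀ x, f x ≤ 1) → Lip L f →
      1 / 2 * (∑ l ∈ Ico (N / 2) N, (lw Y π ρ l).pr f) - ε * N ≤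
        (PR Y π ρ κ (N / D) N).pr f := by
  have hb := h.bulk
  have hK := h.a_le
  obtain ⟨L₀, hL₀, n₁, hgd⟩ := good_disp (π := π) h hπ hκ.le (half_pos hε)
  obtain ⟨n₂, hirr⟩ := irr_le h hκ.le hκK (half_pos hε)
  refine ⟨L₀, hL₀, 2 * n₁ + D * n₂ + 1, fun L hL N hN f hf0 hf1 hfL => ?_⟩
  have hN1 : n₁ ≤ N / 2 := by
    rw [Nat.le_div_iff_mul_le (by norm_num)]
    have : 0 ≤ D * n₂ := Nat.zero_le _
    omega
  have hN2 : n₂ ≤ N / D := by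
    rw [Nat.le_div_iff_mul_le (by omega)]
    have : n₂ * D = D * n₂ := mul_comm _ _
    omega
  have h8 : N / D ≤ N / 8 := Nat.div_le_div_left hD (by norm_num)
  have h4 : 4 * (N / D) ≤ N / 2 := by omega
  have h2 : 2 * (N / D) ≤ N / 2 := by omega
  have hbb : bb Y ρ κ ≤ 1 / 8 := (bb_le hb hK hκ.le).trans hκK
  have habs : ∀ x, |f x| ≤ 1 := fun x => by rw [abs_of_nonneg (hf0 x)]; exact hf1 x
  -- one length
  have key : ∀ l ∈ Ico (N / 2) N, 1 / 2 * (lw Y π ρ l).pr f - ε ≤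
      (lw Y π (fun w => ρ w * ind (good Y ρ κ w ∧ Rg Y ρ κ (N / D) w)) l).pr f := by
    intro l hl
    have hl1 := (Finset.mem_Ico.1 hl).1
    rw [pr_lw, pr_lw]
    have g1 := hgd L hL l (hN1.trans hl1) f habs hfL
    have g2 := hirr (N / D) hN2 l (h2.trans hl1)
    have g3 : (Y.E l fun w => ρ w * ind (good Y ρ κ w) * f (π (Y.sm w))) ≤
        (Y.E l fun w => ρ w * ind (good Y ρ κ w ∧ Rg Y ρ κ (N / D) w) * f (π (Y.sm w))) +
          Y.E l fun w => ρ w * ind (¬ Rg Y ρ κ (N / D) w) := by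
      rw [← Y.E_fadd]
      refine Y.E_mono fun w _ => ?_
      have hw := hb.nonneg w
      have hfw := hf0 (π (Y.sm w))
      have hfw1 := hf1 (π (Y.sm w))
      rw [ind_and, ind_compl]
      have i1 := ind_nonneg (good Y ρ κ w)
      have i2 := ind_le_one (good Y ρ κ w)
      have i3 := ind_nonneg (Rg Y ρ κ (N / D) w)
      have i4 := ind_le_one (Rg Y ρ κ (N / D) w)
      have e : ρ w * (ind (good Y ρ κ w) * ind (Rg Y ρ κ (N / D) w)) * f (π (Y.sm w)) +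
          ρ w * (1 - ind (Rg Y ρ κ (N / D) w)) - ρ w * ind (good Y ρ κ w) * f (π (Y.sm w)) =
          ρ w * (1 - ind (Rg Y ρ κ (N / D) w)) * (1 - ind (good Y ρ κ w) * f (π (Y.sm w))) := by
        ring
      have h5 : 0 ≤ 1 - ind (good Y ρ κ w) * f (π (Y.sm w)) := by nlinarith
      have h6 : 0 ≤ ρ w * (1 - ind (Rg Y ρ κ (N / D) w)) *
          (1 - ind (good Y ρ κ w) * f (π (Y.sm w))) :=
        mul_nonneg (mul_nonneg hw (by linarith)) h5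
      linarith
    have g4 := (abs_sub_le_iff.1 g1).2
    have g5 : 0 ≤ Y.E l fun w => ρ w * f (π (Y.sm w)) :=
      Y.E_nonneg' fun w => mul_nonneg (hb.nonneg w) (hf0 _)
    nlinarith
  -- the sum
  have h5 : ∑ l ∈ Ico (N / 2) N, (1 / 2 * (lw Y π ρ l).pr f - ε) ≤
      (PR Y π ρ κ (N / D) N).pr f := by
    unfold PR
    rw [Fm.pr_bs]
    refine (Finset.sum_le_sum key).trans ?_
    refine Finset.sum_le_sum_of_subset_of_nonneg ?_ fun l _ _ => ?_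
    · exact Finset.Ico_subset_Ico_left h4
    · exact (nn_lw Y π (fun w => mul_nonneg (hb.nonneg w) (ind_nonneg _)) l).pr_nonneg hf0
  refine le_trans ?_ h5
  rw [Finset.sum_sub_distrib, ← Finset.mul_sum, Finset.sum_const, Nat.card_Ico, nsmul_eq_mul]
  have h6 : ((N - N / 2 : ℕ) : ℝ) ≤ N := by exact_mod_cast Nat.sub_le _ _
  nlinarith

end Pool.Agent.SawM2
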