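import Pool.Agent.SawM2.SvK
import Pool.Agent.SawM2.WdA
import Pool.Agent.SawM2.WdB
import Pool.Agent.SawM2.WdC
import Pool.Agent.SawM2.GOut
import Pool.Agent.SawM2.ThB
import Pool.Agent.SawM2.TgC

/-!
# Records along an ultrafilter: preparations
-/

set_option autoImplicit false

namespace Pool.Agent.SawM2

open Finset Filter MeasureTheory Pool.Agent.Bub4 Pool.Agent.SawDiff

variable {S V : Type} [Fintype S] [AddCommGroup V] {Y : Sys S V} {Λ K : ℝ} {ρ : List S → ℝ}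
  {k : ℕ} {π : V →+ Zk k} {κ a : ℝ}

/-- record of sign `+` for the kernel with parameter `1 - 1 / L` -/
def RP (Y : Sys S V) (π : V →+ Zk k) (ρ : List S → ℝ) (κ c L : ℝ) (N : ℕ) : Prop :=
  Rec Y π ρ κ (1 - 1 / L) c N ∧
    EE Y π ρ κ (1 - 1 / L) N = Fm.en (1 - 1 / L) (GU Y π ρ κ N) (GU Y π ρ κ N)

/-- pairs `(L, N)`: `L` large, `N` a record of sign `+`, large depending on `L` -/
def RF (Y : Sys S V) (π : V →+ Zk k) (ρ : List S → ℝ) (κ c : ℝ) : Filter (ℝ × ℕ) :=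
  (atTop : Filter ℝ).bind fun L => ((atTop : Filter ℕ) ⊓ 𝓟 {N | RP Y π ρ κ c L N}).map (Prod.mk L)

theorem eventually_RF {c : ℝ} {Q : ℝ × ℕ → Prop} :
    (∀ᶠ x in RF Y π ρ κ c, Q x) ↔
      ∀ᶠ L in (atTop : Filter ℝ), ∀ᶠ N in (atTop : Filter ℕ), RP Y π ρ κ c L N → Q (L, N) := by
  unfold RF
  rw [Filter.eventually_bind]
  refine Filter.eventually_congr (Filter.Eventually.of_forall fun L => ?_)
  rw [Filter.eventually_map, Filter.eventually_inf_principal]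
  rfl

theorem RF_of {c : ℝ} {Q : ℝ × ℕ → Prop}
    (h : ∀ᶠ L in (atTop : Filter ℝ), ∀ᶠ N in (atTop : Filter ℕ), RP Y π ρ κ c L N → Q (L, N)) :
    ∀ᶠ x in RF Y π ρ κ c, Q x := eventually_RF.2 h

theorem RF_of_L {c : ℝ} {Q : ℝ → Prop} (h : ∀ᶠ L in (atTop : Filter ℝ), Q L) :
    ∀ᶠ x in RF Y π ρ κ c, Q x.1 :=
  RF_of (h.mono fun _ hL => Filter.Eventually.of_forall fun _ _ => hL)

theorem RF_of_N {c : ℝ} {Q : ℕ → Prop} (h : ∀ᶠ N in (atTop : Filter ℕ), Q N) :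
    ∀ᶠ x in RF Y π ρ κ c, Q x.2 :=
  RF_of (Filter.Eventually.of_forall fun _ => h.mono fun _ hN _ => hN)

theorem RF_fst {c : ℝ} : Tendsto Prod.fst (RF Y π ρ κ c) atTop :=
  tendsto_atTop.2 fun b => RF_of_L (eventually_ge_atTop b)

theorem RF_snd {c : ℝ} : Tendsto Prod.snd (RF Y π ρ κ c) atTop :=
  tendsto_atTop.2 fun b => RF_of_N (eventually_ge_atTop b)

theorem RF_rp {c : ℝ} : ∀ᶠ x in RF Y π ρ κ c, RP Y π ρ κ c x.1 x.2 :=
  RF_of (Filter.Eventually.of_forall fun _ => Filter.Eventually.of_forall fun _ h => h)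

theorem par_sub {L : ℝ} : 1 - (1 - 1 / L) = 1 / L := by ring

theorem par_inv {L : ℝ} : 1 / (1 - (1 - 1 / L)) = L := by rw [par_sub, one_div_one_div]

theorem par_pos {L : ℝ} (h : 1 < L) : 0 < 1 - 1 / L := by
  have : 1 / L < 1 := by rw [div_lt_one (by linarith)]; exact h
  linarith

theorem par_lt {L : ℝ} (h : 0 < L) : 1 - 1 / L < 1 := by
  have : 0 < 1 / L := by positivity
  linarith

theorem par_half {L : ℝ} (h : 2 < L) : 1 / 2 < 1 - 1 / L := by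
  have : 1 / L < 1 / 2 := by
    apply one_div_lt_one_div_of_lt (by norm_num) h
  linarith

theorem par_ge {a₀ : ℝ} (h : a₀ < 1) : ∀ᶠ L : ℝ in atTop, a₀ ≤ 1 - 1 / L := by
  filter_upwards [eventually_ge_atTop (1 / (1 - a₀)), eventually_gt_atTop (0 : ℝ)] with L hL hL0
  have h1 : 0 < 1 - a₀ := by linarith
  rw [div_le_iff₀ h1] at hL
  have : 1 / L ≤ 1 - a₀ := by
    rw [div_le_iff₀ hL0]; linarith
  linarith

/-- a statement for `a ≥ a₀`, `N ≥ N₀(a)` -/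
theorem RF_of_a {c : ℝ} {Q : ℝ → ℕ → Prop} {a₀ : ℝ} (h₀ : a₀ < 1)
    (h : ∀ a, a₀ ≤ a → 0 < a → a < 1 → ∃ N₀ : ℕ, ∀ N ≥ N₀, Rec Y π ρ κ a c N →
      EE Y π ρ κ a N = Fm.en a (GU Y π ρ κ N) (GU Y π ρ κ N) → Q a N) :
    ∀ᶠ x in RF Y π ρ κ c, Q (1 - 1 / x.1) x.2 := by
  refine RF_of ?_
  filter_upwards [par_ge h₀, eventually_gt_atTop (1 : ℝ)] with L hL hL1
  obtain ⟨N₀, hN₀⟩ := h _ hL (par_pos hL1) (par_lt (by linarith))
  filter_upwards [eventually_ge_atTop N₀] with N hN hR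
  exact hN₀ N hN hR.1 hR.2

/-- a statement for `L ≥ L₀`, `N ≥ N₀` -/
theorem RF_of_LN {c : ℝ} {Q : ℝ → ℕ → Prop} {L₀ : ℝ} {N₀ : ℕ}
    (h : ∀ L ≥ L₀, ∀ N ≥ N₀, Q L N) :
    ∀ᶠ x in RF Y π ρ κ c, Q x.1 x.2 := by
  refine RF_of ?_
  filter_upwards [eventually_ge_atTop L₀] with L hL
  filter_upwards [eventually_ge_atTop N₀] with N hN _
  exact h L hL N hN

/-- coordinates of the displacement -/
theorem abs_coord_le (hπ : Stp Y π) (w : List S) (i : Fin k) :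
    |((π (Y.sm w) i : ℤ) : ℝ)| ≤ k * w.length := by
  have h1 := natAbs_le_n1 (π (Y.sm w)) i
  have h2 := n1_sm_le hπ w
  have h3 : |((π (Y.sm w) i : ℤ) : ℝ)| = ((π (Y.sm w) i).natAbs : ℝ) := by
    rw [Nat.cast_natAbs]; push_cast; rfl
  rw [h3]
  calc ((π (Y.sm w) i).natAbs : ℝ) ≤ (n1 (π (Y.sm w)) : ℝ) := by exact_mod_cast h1
    _ ≤ ((k * w.length : ℕ) : ℝ) := by exact_mod_cast h2
    _ = k * w.length := by push_cast; ring

/-- the energy is positive -/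
theorem EE_pos (h : Erg Y Λ K ρ) (hπ : Stp Y π) (hκ : 0 < κ) (hκK : κ * K ≤ 1 / 8) (ha0 : 0 < a)
    (ha1 : a < 1) {N : ℕ} (hN : 1 ≤ N) : 0 < EE Y π ρ κ a N := by
  have h1 := EE_ge (π := π) h.bulk h.a_le hκ hκK ha0 ha1 (N := N) (A := k * N) (by positivity)
    (fun n hn i => by
      have h2 : (Y.E n fun w => ρ w * |((π (Y.sm w) i : ℤ) : ℝ)|) ≤
          Y.E n fun w => ρ w * ((k : ℝ) * N) := by
        refine Y.E_mono fun w hw => mul_le_mul_of_nonneg_left ?_ (h.bulk.nonneg w)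
        refine (abs_coord_le hπ w i).trans ?_
        rw [hw]
        exact mul_le_mul_of_nonneg_left (by exact_mod_cast hn.le) (Nat.cast_nonneg _)
      rw [Y.E_mul_right, h.bulk.mass, one_mul] at h2
      exact h2)
  have h3 : (0 : ℝ) < 1 / 2 * (N : ℝ) ^ 2 := by
    have : (1 : ℝ) ≤ N := by exact_mod_cast hN
    positivity
  by_contra hcon
  push Not at hcon
  have h4 : (0 : ℝ) ≤ (16 * k * (k * N) + 3) ^ k := by positivity
  have := mul_nonpos_of_nonneg_of_nonpos h4 hcon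
  linarith

/-- integrability of the energy density -/
theorem intOn_bx (ha0 : 0 < a) (ha1 : a < 1) (μ : Fm k) :
    IntegrableOn (fun θ => hk a θ * ‖μ.ft θ‖ ^ 2) (bx k) := by
  have hc : Continuous fun θ : Rk k => hk a θ * ‖μ.ft θ‖ ^ 2 :=
    (continuous_hk ha0 ha1).mul (μ.continuous_ft.norm.pow 2)
  have hcomp : IsCompact (bx k) := isCompact_univ_pi fun _ => isCompact_Icc
  exact hc.continuousOn.integrableOn_compact hcomp

theorem measurableSet_bx : MeasurableSet (bx k) :=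
  (isCompact_univ_pi fun _ => isCompact_Icc).measurableSet

end Pool.Agent.SawM2
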