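import Pool.Agent.SawM2.CmpA

/-!
# Volumes at records
-/

set_option autoImplicit false

namespace Pool.Agent.SawM2

open Finset Filter MeasureTheory Pool.Agent.Bub4 Pool.Agent.SawDiff

variable {S V : Type} [Fintype S] [AddCommGroup V] {Y : Sys S V} {Λ K : ℝ} {ρ : List S → ℝ}
  {k : ℕ} {π : V →+ Zk k} {κ a : ℝ}

/-- normalised energy -/
noncomputable def vN (Y : Sys S V) (π : V →+ Zk k) (ρ : List S → ℝ) (κ a : ℝ) (N : ℕ) : ℝ :=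
  (1 - a) ^ k * EE Y π ρ κ a N / (N : ℝ) ^ 2

/-- the constant of `vol_Th_le` -/
noncomputable def cV (k : ℕ) : ℝ := (4 * Real.pi) ^ k * 4

theorem cV_pos (k : ℕ) : 0 < cV k := by unfold cV; positivity

/-- (4i), upper bound at records, in the form of section 6 -/
theorem volU_rec (h : Bulk Y Λ ρ) (hK : ∀ n, Y.a n ≤ K) (hκ : 0 < κ) (hκK : κ * K ≤ 1 / 8)
    (ha0 : 0 < a) (ha1 : a < 1) {d c : ℝ} {N s : ℕ} (hN : 1 ≤ N)
    (hr : Rec Y π ρ κ a c N)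
    (hsh : ∀ M : ℕ, N ≤ s * M → ∀ θ ∈ Th Y π ρ d M (1 / 10), ∀ i, |θ i| ≤ 1 - a) :
    VolU Y π ρ d (cV k) c (vN Y π ρ κ a N) N s := by
  intro M hM hNM
  have hM1 : 1 ≤ M := by
    rcases Nat.eq_zero_or_pos M with h0 | h0
    · rw [h0, mul_zero] at hNM; omega
    · exact h0
  have hM0 : (0 : ℝ) < M := by exact_mod_cast hM1
  have hN0 : (0 : ℝ) < N := by exact_mod_cast hN
  refine (vol_Th_le h hK hκ hκK ha0 ha1 hM1 (hsh M hNM)).trans (ENNReal.ofReal_le_ofReal ?_)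
  have h1 := hr.le hM1 hM
  unfold cV vN
  have h2 : (1 - a) ^ k * EE Y π ρ κ a M / (M : ℝ) ^ 2 ≤
      ((N : ℝ) / M) ^ (2 - c) * ((1 - a) ^ k * EE Y π ρ κ a N / (N : ℝ) ^ 2) := by
    have h3 : ((N : ℝ) / M) ^ (2 - c) = ((M : ℝ) / N) ^ c * ((N : ℝ) / M) ^ 2 := by
      rw [show (M : ℝ) / N = ((N : ℝ) / M)⁻¹ by rw [inv_div], Real.inv_rpow (by positivity),
        ← Real.rpow_neg (by positivity), ← Real.rpow_natCast ((N : ℝ) / M) 2,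
        ← Real.rpow_add (by positivity)]
      congr 1
      push_cast; ring
    rw [h3]
    have h4 : (1 - a) ^ k * EE Y π ρ κ a M / (M : ℝ) ^ 2 ≤
        (1 - a) ^ k * (((M : ℝ) / N) ^ c * EE Y π ρ κ a N) / (M : ℝ) ^ 2 := by
      have : 0 ≤ (1 - a) ^ k := pow_nonneg (by linarith) _
      gcongr
    refine h4.trans (le_of_eq ?_)
    field_simp
  have h5 : (0 : ℝ) ≤ (4 * Real.pi) ^ k * 4 := by positivity
  calc (4 * Real.pi) ^ k * 4 * ((1 - a) ^ k * EE Y π ρ κ a M / (M : ℝ) ^ 2)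
      ≤ (4 * Real.pi) ^ k * 4 *
        (((N : ℝ) / M) ^ (2 - c) * ((1 - a) ^ k * EE Y π ρ κ a N / (N : ℝ) ^ 2)) :=
        mul_le_mul_of_nonneg_left h2 h5
    _ = _ := by ring

/-- upper volume bound, eventually -/
theorem volU_ev (h : Erg Y Λ K ρ) (hκ : 0 < κ) (hκK : κ * K ≤ 1 / 8) {d r c : ℝ}
    (hf : Frq Y π ρ d r) {s : ℕ} (hs : 1 ≤ s) :
    ∀ᶠ x in RF Y π ρ κ c,
      VolU Y π ρ d (cV k) c (vN Y π ρ κ (1 - 1 / x.1) x.2) x.2 s := by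
  refine RF_of_a (a₀ := 0) (by norm_num) (Q := fun a N => VolU Y π ρ d (cV k) c
    (vN Y π ρ κ a N) N s) fun a _ ha0 ha1 => ?_
  obtain ⟨M₀, hM₀⟩ := hf.shrink (1 - a) (by linarith)
  refine ⟨s * M₀ + 1, fun N hN hr _ => volU_rec h.bulk h.a_le hκ hκK ha0 ha1 (by omega) hr
    fun M hNM θ hθ i => hM₀ M ?_ θ hθ i⟩
  by_contra hcon
  push Not at hcon
  have : s * M ≤ s * M₀ := Nat.mul_le_mul_left s hcon.le
  omega

/-- the normalised energy is positive -/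
theorem vN_pos (h : Erg Y Λ K ρ) (hπ : Stp Y π) (hκ : 0 < κ) (hκK : κ * K ≤ 1 / 8) (ha0 : 0 < a)
    (ha1 : a < 1) {N : ℕ} (hN : 1 ≤ N) : 0 < vN Y π ρ κ a N := by
  unfold vN
  have h1 := EE_pos (π := π) h hπ hκ hκK ha0 ha1 hN
  have h2 : (0 : ℝ) < N := by exact_mod_cast hN
  have h3 : 0 < (1 - a) ^ k := pow_pos (by linarith) _
  positivity

/-- vectors of maximal determinant -/
noncomputable def mD (Y : Sys S V) (π : V →+ Zk k) (ρ : List S → ℝ) (h : Erg Y Λ K ρ) {d r : ℝ}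
    (hd : 0 ≤ d) (hr : 0 ≤ r) (M : ℕ) : Fin k → Rk k :=
  (exists_maxDet (Th_isCompact (Y := Y) (π := π) (ρ := ρ) d M r) ⟨0, Th_zero h hd _ hr⟩).choose

theorem mD_spec (h : Erg Y Λ K ρ) {d r : ℝ} (hd : 0 ≤ d) (hr : 0 ≤ r) (M : ℕ) :
    MaxDet (Th Y π ρ d M r) (mD Y π ρ h hd hr M) :=
  (exists_maxDet (Th_isCompact (Y := Y) (π := π) (ρ := ρ) d M r) ⟨0, Th_zero h hd _ hr⟩).choose_spec

/-- (6a), (6c), (6d), (6e) along records -/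
theorem body_ev (h : Erg Y Λ K ρ) (hπ : Stp Y π) (hκ : 0 < κ) (hκK : κ * K ≤ 1 / 8) {D : ℕ}
    (hD : 4 ≤ D) {d r c : ℝ} (hf : Frq Y π ρ d r) (hc2 : c ≤ 2) (hkc : 2 * (2 - c) < k + 1)
    (hDc : (4 / (D : ℝ)) ^ c ≤ 1 / 16) :
    ∃ (b : ℕ) (c₀ : ℝ), 1 ≤ b ∧ 0 < c₀ ∧
      (∀ᶠ x in RF Y π ρ κ c,
        ENNReal.ofReal (c₀ * vN Y π ρ κ (1 - 1 / x.1) x.2) ≤
          volume (Th Y π ρ d (x.2 / b) (12 * r))) ∧
      (∃ D' : ℕ, 1 ≤ D' ∧ ∀ᶠ x in RF Y π ρ κ c, ∀ T : Fin k → Rk k,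
        MaxDet (Th Y π ρ d (x.2 / b) (12 * r)) T →
          pp T 1 ⊆ Th Y π ρ d (x.2 / D') (12 * r) ∧
          c₀ * vN Y π ρ κ (1 - 1 / x.1) x.2 ≤ 2 ^ k * |(Matrix.of T).det| ∧
          2 ^ k * |(Matrix.of T).det| ≤
            cV k * (D' : ℝ) ^ (2 - c) * vN Y π ρ κ (1 - 1 / x.1) x.2) ∧
      ∀ b' : ℕ, b ≤ b' → ∃ R : ℝ, 0 < R ∧ ∀ᶠ x in RF Y π ρ κ c, ∀ T : Fin k → Rk k,
        MaxDet (Th Y π ρ d (x.2 / b) (12 * r)) T →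
          Th Y π ρ d (x.2 / b') (12 * r) ⊆ pp T R := by
  obtain ⟨b, hb, c₀, hc₀, a₀, ha₀, hv⟩ := vol_Th_ge h hπ hκ hκK hD hf
  have hr1 : 12 * r ≤ 1 / 10 := by have := hf.r_le; linarith
  have hr0 : 0 < 12 * r := by have := hf.r_pos; linarith
  have hvol : ∀ᶠ x in RF Y π ρ κ c,
        ENNReal.ofReal (c₀ * vN Y π ρ κ (1 - 1 / x.1) x.2) ≤
          volume (Th Y π ρ d (x.2 / b) (12 * r)) := by
    refine RF_of_a ha₀ (Q := fun a N => ENNReal.ofReal (c₀ * vN Y π ρ κ a N) ≤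
          volume (Th Y π ρ d (N / b) (12 * r))) fun a haa ha0 ha1 => ?_
    obtain ⟨N₀, hN₀⟩ := hv a haa ha0 ha1
    exact ⟨N₀, fun N hN hr hE => hN₀ N hN c hDc hr hE⟩
  have hvpos : ∀ᶠ x in RF Y π ρ κ c, 0 < vN Y π ρ κ (1 - 1 / x.1) x.2 := by
    refine RF_of_a (a₀ := 0) (by norm_num) (Q := fun a N => 0 < vN Y π ρ κ a N)
      fun a _ ha0 ha1 => ⟨1, fun N hN _ _ => vN_pos h hπ hκ hκK ha0 ha1 hN⟩
  have hsh : Shr Y π ρ d := hf.shrink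
  refine ⟨b, c₀, hb, hc₀, hvol, ?_, fun b' hbb => ?_⟩
  · obtain ⟨D', hbD, N₀, hN₀⟩ := body h hπ hf.d_pos hr0 hr1 hsh hc2 hkc (cV_pos k).le hc₀ hb
    refine ⟨D', hb.trans hbD, ?_⟩
    filter_upwards [hvol, hvpos, volU_ev h hκ hκK hf (hb.trans hbD),
      RF_of_N (eventually_ge_atTop N₀)] with x h1 h2 h3 h4 T hT
    exact (hN₀ x.2 h4 _ h2 h3 h1 T hT).2
  · obtain ⟨D', hbD, N₀, hN₀⟩ := body_le h hπ hf.d_pos hr0 hr1 hsh hc2 hkc (cV_pos k).le hc₀ hb hbb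
    refine ⟨cV k * (D' : ℝ) ^ (2 - c) / c₀ + 1, ?_, ?_⟩
    · have : 0 ≤ cV k * (D' : ℝ) ^ (2 - c) / c₀ :=
        div_nonneg (mul_nonneg (cV_pos k).le (Real.rpow_nonneg (Nat.cast_nonneg _) _)) hc₀.le
      linarith
    · filter_upwards [hvol, hvpos, volU_ev h hκ hκK hf (hb.trans (hbb.trans hbD)),
        RF_of_N (eventually_ge_atTop N₀)] with x h1 h2 h3 h4 T hT
      exact (hN₀ x.2 h4 _ h2 h3 h1 T hT).trans (pp_mono T (by linarith))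

end Pool.Agent.SawM2
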