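import Pool.Agent.SawM2.CmpB

/-!
# The data along records
-/

set_option autoImplicit false

namespace Pool.Agent.SawM2

open Finset Filter MeasureTheory Pool.Agent.Bub4 Pool.Agent.SawDiff

variable {S V : Type} [Fintype S] [AddCommGroup V] {Y : Sys S V} {Λ K : ℝ} {ρ : List S → ℝ}
  {k : ℕ} {π : V →+ Zk k} {κ a : ℝ}

/-- kernel parameter -/
noncomputable def aX (x : ℝ × ℕ) : ℝ := 1 - 1 / x.1

theorem aX_inv (x : ℝ × ℕ) : 1 / (1 - aX x) = x.1 := par_inv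

/-- `√a` versus `a` for the energies -/
theorem EE_wide (ha0 : 0 < a) (ha1 : a < 1) (N : ℕ) :
    EE Y π ρ κ (Real.sqrt a) N ≤ 4 ^ k * EE Y π ρ κ a N := by
  unfold EE
  refine max_le ((Fm.en_wide ha0 ha1 _).trans ?_) ((Fm.en_wide ha0 ha1 _).trans ?_)
  · exact mul_le_mul_of_nonneg_left (le_max_left _ _) (by positivity)
  · exact mul_le_mul_of_nonneg_left (le_max_right _ _) (by positivity)

theorem RF_a {c : ℝ} : ∀ᶠ x in RF Y π ρ κ c, 1 / 2 < aX x ∧ aX x < 1 :=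
  RF_of_L (Q := fun L => 1 / 2 < 1 - 1 / L ∧ 1 - 1 / L < 1) <| by
    filter_upwards [eventually_gt_atTop (2 : ℝ)] with L hL
    exact ⟨par_half hL, par_lt (by linarith)⟩

/-- characteristic functions on the parallelepiped for small times -/
theorem near_one_ev (h : Erg Y Λ K ρ) (hπ : Stp Y π) {d r c : ℝ} (hf : Frq Y π ρ d r) {D' : ℕ}
    (hD' : 1 ≤ D') {q : ℕ} (hq : 1 ≤ q) :
    ∀ᶠ x in RF Y π ρ κ c, ∀ T : Fin k → Rk k, pp T 1 ⊆ Th Y π ρ d (x.2 / D') (12 * r) →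
      ∀ e : Rk k, (∀ l, |e l| ≤ 1) → ∀ n : ℕ, (n * q : ℝ) ≤ 1 / (D' : ℝ) * x.2 →
        ‖1 - (lw Y π ρ n).ft (cmb T e)‖ ≤ 3 * (12 * r) / q := by
  have hr0 : 0 < r := hf.r_pos
  have hr1 : 12 * r ≤ 1 / 10 := by have := hf.r_le; linarith
  have hq0 : (0 : ℝ) < q := by exact_mod_cast hq
  have hD0 : (0 : ℝ) < D' := by exact_mod_cast hD'
  obtain ⟨δ, hδ, hmul⟩ := ph_mul (π := π) h hπ (ε := 12 * r / (4 * q)) (by positivity)
  obtain ⟨M₀, hM₀⟩ := hf.shrink δ hδ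
  refine RF_of_N (Q := fun N => ∀ T : Fin k → Rk k, pp T 1 ⊆ Th Y π ρ d (N / D') (12 * r) →
      ∀ e : Rk k, (∀ l, |e l| ≤ 1) → ∀ n : ℕ, (n * q : ℝ) ≤ 1 / (D' : ℝ) * N →
        ‖1 - (lw Y π ρ n).ft (cmb T e)‖ ≤ 3 * (12 * r) / q) ?_
  filter_upwards [eventually_ge_atTop (D' * M₀)] with N hN T hT e he n hn
  have hmem : cmb T e ∈ Th Y π ρ d (N / D') (12 * r) := hT ⟨e, he, rfl⟩
  have hM : M₀ ≤ N / D' := (Nat.le_div_iff_mul_le hD').2 (by rw [mul_comm]; exact hN)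
  have hsmall := hM₀ _ hM _ (Th_mono _ hr1 hmem)
  have hqe : (q : ℝ) * (12 * r / (4 * q)) = 3 * r := by field_simp; ring
  have hn' : n ≤ N / D' / q := by
    rw [Nat.le_div_iff_mul_le hq, Nat.le_div_iff_mul_le hD']
    have : (n * q : ℝ) * D' ≤ N := by
      rw [one_div, inv_mul_eq_div, le_div_iff₀ hD0] at hn
      exact hn
    exact_mod_cast this
  have h1 := Th_small h hq (r := 12 * r) (e := 12 * r / (4 * q)) (by linarith)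
    (by rw [hqe]; linarith) hmem (hmul _ hsmall) hn'
  rw [hqe] at h1
  refine h1.trans ?_
  have : 2 * (12 * r + 3 * r) ≤ 3 * (12 * r) := by linarith
  gcongr

/-- (D10) -/
theorem vol_ev (h : Erg Y Λ K ρ) (hκ : 0 < κ) (hκK : κ * K ≤ 1 / 8)
    {d r c c₀ : ℝ} (hf : Frq Y π ρ d r) (hc2 : c ≤ 2) (hc₀ : 0 < c₀) {D' : ℕ} (hD' : 1 ≤ D')
    {j : ℕ} (hj : 1 ≤ j) :
    ∀ᶠ x in RF Y π ρ κ c, ∀ T : Fin k → Rk k,
      c₀ * vN Y π ρ κ (aX x) x.2 ≤ 2 ^ k * |(Matrix.of T).det| →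
      volume {θ : Rk k | (∀ l, |θ l| ≤ d) ∧ ∀ n : ℕ, (n * j : ℝ) ≤ 1 / (D' : ℝ) * x.2 →
        ‖1 - (lw Y π ρ n).ft θ‖ ≤ 12 * r} ≤
      ENNReal.ofReal (cV k * (2 * D') ^ (2 - c) * 2 ^ k / c₀ * (j : ℝ) ^ (2 - c) *
        |(Matrix.of T).det|) := by
  have hr1 : 12 * r ≤ 1 / 10 := by have := hf.r_le; linarith
  have hD0 : (0 : ℝ) < D' := by exact_mod_cast hD'
  have hj0 : (0 : ℝ) < j := by exact_mod_cast hj
  have hDj : 1 ≤ D' * j := Nat.mul_pos hD' hj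
  filter_upwards [volU_ev h hκ hκK hf (s := 2 * (D' * j)) (by omega),
    RF_of_N (Q := fun N => D' * j ≤ N) (eventually_ge_atTop _)] with x hU hN T hT
  set N := x.2 with hNdef
  have hM1 : 1 ≤ N / (D' * j) := (Nat.le_div_iff_mul_le hDj).2 (by rw [one_mul]; exact hN)
  have hlt : N < D' * j * (N / (D' * j) + 1) := Nat.lt_mul_div_succ N hDj
  have hNM : N ≤ 2 * (D' * j) * (N / (D' * j)) := by
    have : D' * j * (N / (D' * j) + 1) ≤ 2 * (D' * j) * (N / (D' * j)) := by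
      calc D' * j * (N / (D' * j) + 1) ≤ D' * j * (N / (D' * j) + N / (D' * j)) :=
            Nat.mul_le_mul_left _ (by omega)
        _ = _ := by ring
    omega
  have hsub : {θ : Rk k | (∀ l, |θ l| ≤ d) ∧ ∀ n : ℕ, (n * j : ℝ) ≤ 1 / (D' : ℝ) * N →
        ‖1 - (lw Y π ρ n).ft θ‖ ≤ 12 * r} ⊆ Th Y π ρ d (N / (D' * j)) (1 / 10) := by
    intro θ hθ
    refine ⟨hθ.1, fun n hn => (hθ.2 n ?_).trans hr1⟩
    rw [Nat.le_div_iff_mul_le hDj] at hn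
    rw [one_div, inv_mul_eq_div, le_div_iff₀ hD0]
    have : ((n * (D' * j) : ℕ) : ℝ) ≤ N := by exact_mod_cast hn
    push_cast at this
    linarith
  refine (measure_mono hsub).trans ((hU _ (Nat.div_le_self _ _) hNM).trans
    (ENNReal.ofReal_le_ofReal ?_))
  have hM0 : (0 : ℝ) < (N / (D' * j) : ℕ) := by exact_mod_cast hM1
  have hNM' : (N : ℝ) / (N / (D' * j) : ℕ) ≤ 2 * D' * j := by
    rw [div_le_iff₀ hM0]
    have : (N : ℝ) ≤ ((2 * (D' * j) * (N / (D' * j)) : ℕ) : ℝ) := by exact_mod_cast hNM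
    push_cast at this
    linarith
  have h1 : ((N : ℝ) / (N / (D' * j) : ℕ)) ^ (2 - c) ≤ (2 * D') ^ (2 - c) * (j : ℝ) ^ (2 - c) := by
    rw [← Real.mul_rpow (by positivity) (by positivity)]
    exact Real.rpow_le_rpow (by positivity) hNM' (by linarith)
  have h2 : vN Y π ρ κ (aX x) N ≤ 2 ^ k / c₀ * |(Matrix.of T).det| := by
    rw [div_mul_eq_mul_div, le_div_iff₀ hc₀]
    linarith
  have h3 : 0 ≤ (2 * (D' : ℝ)) ^ (2 - c) * (j : ℝ) ^ (2 - c) := by positivity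
  have h4 : 0 ≤ 2 ^ k / c₀ * |(Matrix.of T).det| := by positivity
  have hV := cV_pos k
  calc cV k * ((N : ℝ) / (N / (D' * j) : ℕ)) ^ (2 - c) * vN Y π ρ κ (1 - 1 / x.1) N
      ≤ cV k * ((N : ℝ) / (N / (D' * j) : ℕ)) ^ (2 - c) *
          (2 ^ k / c₀ * |(Matrix.of T).det|) := by
        refine mul_le_mul_of_nonneg_left h2 (mul_nonneg hV.le (Real.rpow_nonneg (by positivity) _))
    _ ≤ cV k * ((2 * (D' : ℝ)) ^ (2 - c) * (j : ℝ) ^ (2 - c)) *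
          (2 ^ k / c₀ * |(Matrix.of T).det|) := by
        refine mul_le_mul_of_nonneg_right (mul_le_mul_of_nonneg_left h1 hV.le) h4
    _ = _ := by ring

/-- (D12) -/
theorem small_ev {d r c : ℝ} (hf : Frq Y π ρ d r) {b : ℕ} (hb : 1 ≤ b)
    {ε : ℝ} (hε : 0 < ε) :
    ∀ᶠ x in RF Y π ρ κ c, ∀ θ ∈ Th Y π ρ d (x.2 / b) (12 * r), ∀ m, |θ m| ≤ ε * (1 - aX x) := by
  have hr1 : 12 * r ≤ 1 / 10 := by have := hf.r_le; linarith
  refine RF_of_a (a₀ := 0) (by norm_num) (Q := fun a N => ∀ θ ∈ Th Y π ρ d (N / b) (12 * r),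
    ∀ m, |θ m| ≤ ε * (1 - a)) fun a _ ha0 ha1 => ?_
  obtain ⟨M₀, hM₀⟩ := hf.shrink (ε * (1 - a)) (mul_pos hε (by linarith))
  refine ⟨b * M₀, fun N hN _ _ θ hθ m => hM₀ _ ?_ θ (Th_mono _ hr1 hθ) m⟩
  exact (Nat.le_div_iff_mul_le hb).2 (by rw [mul_comm]; exact hN)

/-- (D13) -/
theorem tail_ev (h : Erg Y Λ K ρ) (hπ : Stp Y π) (hκ : 0 < κ) (hκK : κ * K ≤ 1 / 8) {D : ℕ}
    (hD : 4 ≤ D) {d r c : ℝ} (hf : Frq Y π ρ d r) {b : ℕ}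
    (hb : ∀ b' : ℕ, b ≤ b' → ∃ R : ℝ, 0 < R ∧ ∀ᶠ x in RF Y π ρ κ c, ∀ T : Fin k → Rk k,
        MaxDet (Th Y π ρ d (x.2 / b) (12 * r)) T →
          Th Y π ρ d (x.2 / b') (12 * r) ⊆ pp T R) (T : ℕ) {ε : ℝ} (hε : 0 < ε) :
    ∃ R : ℝ, 0 < R ∧ ∀ᶠ x in RF Y π ρ κ c, ∀ A : Fin k → Rk k,
      MaxDet (Th Y π ρ d (x.2 / b) (12 * r)) A →
        ∫ θ in bx k \ pp A R, hk (aX x) θ * ‖(PR Y π ρ κ (x.2 / D) (T * x.2)).ft θ‖ ^ 2 ≤
          ε * EE Y π ρ κ (aX x) x.2 := by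
  obtain ⟨q, hq, a₀, ha₀, hE⟩ := energy_out h hπ hκ hκK hD T hf hε
  obtain ⟨R, hR, hR'⟩ := hb (max b q) (le_max_left _ _)
  refine ⟨R, hR, ?_⟩
  have h1 : ∀ᶠ x in RF Y π ρ κ c, (∫ θ in bx k \ Th Y π ρ d (x.2 / q) (12 * r),
      hk (aX x) θ * ‖(PR Y π ρ κ (x.2 / D) (T * x.2)).ft θ‖ ^ 2) ≤
        ε * EE Y π ρ κ (aX x) x.2 := by
    refine RF_of_a ha₀ (Q := fun a N => (∫ θ in bx k \ Th Y π ρ d (N / q) (12 * r),
      hk a θ * ‖(PR Y π ρ κ (N / D) (T * N)).ft θ‖ ^ 2) ≤ ε * EE Y π ρ κ a N)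
      fun a haa ha0 ha1 => ?_
    obtain ⟨N₀, hN₀⟩ := hE a haa ha0 ha1
    exact ⟨N₀, fun N hN _ _ => hN₀ N hN⟩
  filter_upwards [h1, hR', RF_a] with x h2 h3 ha A hA
  have ha0 : 0 < aX x := by linarith [ha.1]
  refine le_trans ?_ h2
  have hsub : Th Y π ρ d (x.2 / q) (12 * r) ⊆ pp A R :=
    (Th_anti (Nat.div_le_div_left (le_max_right b q) hq) _).trans (h3 A hA)
  refine setIntegral_mono_set ?_ ?_ ?_
  · exact (intOn_bx ha0 ha.2 _).mono_set Set.sdiff_subset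
  · exact Filter.Eventually.of_forall fun θ =>
      mul_nonneg (hk_pos ha0 ha.2 θ).le (by positivity)
  · exact (Set.sdiff_subset_sdiff_right hsub).eventuallyLE

end Pool.Agent.SawM2
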