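import Pool.Agent.SawM2.CmpC

/-!
# Uniform positivity at records
-/

set_option autoImplicit false

namespace Pool.Agent.SawM2

open Finset Filter MeasureTheory Pool.Agent.Bub4 Pool.Agent.SawDiff

variable {S V : Type} [Fintype S] [AddCommGroup V] {Y : Sys S V} {Λ K : ℝ} {ρ : List S → ℝ}
  {k : ℕ} {π : V →+ Zk k} {κ a : ℝ}

/-- THE DATA ALONG RECORDS: every ultrafilter finer than `RF` carries the data of section 7. -/
theorem exists_dg (h : Erg Y Λ K ρ) (hπ : Stp Y π) (hκ : 0 < κ) (hκK : κ * K ≤ 1 / 8) {D : ℕ}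
    (hD : 8 ≤ D) {d r c : ℝ} (hf : Frq Y π ρ d r) (hk : 1 ≤ k) (hrk : 12 * r ≤ 1 / (100 * k))
    (hc2 : c ≤ 2) (hkc : 2 * (2 - c) < k + 1) (hDc : (4 / (D : ℝ)) ^ c ≤ 1 / 16)
    (F : Ultrafilter (ℝ × ℕ)) (hF : (F : Filter (ℝ × ℕ)) ≤ RF Y π ρ κ c) :
    ∃ (A : ℝ × ℕ → Fin k → Rk k) (r' t g d' : ℝ),
      Dg k F (lw Y π ρ) aX Prod.snd (fun x => EE Y π ρ κ (aX x) x.2)
        (fun T x => PR Y π ρ κ (x.2 / D) (T * x.2)) A r' t g d' := by
  have hb := h.bulk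
  have hK := h.a_le
  have hD4 : 4 ≤ D := by omega
  have hD2 : 2 ≤ D := by omega
  have hr0 : 0 < r := hf.r_pos
  obtain ⟨b, c₀, hb1, hc₀, hvol, ⟨D', hD', hbody⟩, htl⟩ :=
    body_ev h hπ hκ hκK hD4 hf hc2 hkc hDc
  have hmd : ∀ x : ℝ × ℕ, MaxDet (Th Y π ρ d (x.2 / b) (12 * r))
      (mD Y π ρ h hf.d_pos.le (by linarith : (0 : ℝ) ≤ 12 * r) (x.2 / b)) :=
    fun x => mD_spec h hf.d_pos.le (by linarith) _
  set A : ℝ × ℕ → Fin k → Rk k := fun x =>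
    mD Y π ρ h hf.d_pos.le (by linarith : (0 : ℝ) ≤ 12 * r) (x.2 / b) with hA
  have ev : ∀ {Q : ℝ × ℕ → Prop}, (∀ᶠ x in RF Y π ρ κ c, Q x) → ∀ᶠ x in (F : Filter _), Q x :=
    fun hQ => hF hQ
  have hDpos : (0 : ℝ) < D' := by exact_mod_cast hD'
  refine ⟨A, 12 * r, 1 / (D' : ℝ), 2 - c, d, ?_⟩
  refine
    { k_pos := hk
      p_nn := fun n => nn_lw Y π hb.nonneg n
      p_mass := fun n => mass_lw_one h n
      a_pos := ev (RF_a.mono fun x hx => hx.1)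
      a_lt := ev (RF_a.mono fun x hx => hx.2)
      a_lim := ?_
      N_lim := RF_snd.mono_left hF
      E_pos := ?_
      P_nn := fun T x => nn_PR hb _ _
      P_mono := ?_
      P_en := ?_
      P_sup := ?_
      P_mass := ?_
      P_conv := ?_
      P_shift := ?_
      p_ind := ?_
      p_ind' := ?_
      p_step := fun n s L f hL hf' => lw_step hb hπ n s hL hf'
      P_ge := ?_
      t_pos := by positivity
      t_le := by
        rw [div_le_one hDpos]; exact_mod_cast hD'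
      r_pos := by linarith
      r_le := hrk
      near_one := ?_
      d_pos := hf.d_pos
      g_lt := by linarith
      vol := ?_
      det_ne := ?_
      det_cmp := ?_
      A_lim := ?_
      tail := ?_ }
  · -- a_lim
    have h1 : Tendsto (fun x : ℝ × ℕ => 1 - 1 / x.1) (F : Filter _) (nhds (1 - 0)) := by
      refine Tendsto.sub tendsto_const_nhds ?_
      have h2 : Tendsto (fun L : ℝ => 1 / L) atTop (nhds 0) := by
        simpa using tendsto_inv_atTop_zero (𝕜 := ℝ)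
      exact h2.comp (RF_fst.mono_left hF)
    rw [sub_zero] at h1
    exact h1
  · -- E_pos
    exact ev (RF_of_a (a₀ := 0) (by norm_num) (Q := fun a N => 0 < EE Y π ρ κ a N)
      fun a _ ha0 ha1 => ⟨1, fun N hN _ _ => EE_pos h hπ hκ hκK ha0 ha1 hN⟩)
  · -- P_mono
    intro T T' x hT
    refine dom_bs (fun i hi => ?_) (fun w => mul_nonneg (hb.nonneg w) (ind_nonneg _))
      fun _ _ _ _ => le_rfl
    rw [Finset.mem_Ico] at hi ⊢
    exact ⟨hi.1, hi.2.trans_le (Nat.mul_le_mul_right _ hT)⟩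
  · -- P_en
    intro T
    have hΛ : 0 ≤ Λ * K / κ := by
      have h1 := E_UU_le hb hK 0
      have h2 : 0 ≤ Y.E 0 fun w => UU Y ρ w := Y.E_nonneg fun w _ => UU_nonneg hb hK w
      exact div_nonneg (h2.trans h1) hκ.le
    refine ⟨(1 + Λ * K / κ) ^ (2 * T), by positivity, ev (RF_a.mono fun x hx => ?_)⟩
    exact en_PR_le hb hK hκ (by linarith [hx.1]) hx.2 _ _ _
  · -- P_sup
    intro T
    have hΛ : 0 ≤ Λ * K / κ := by
      have h1 := E_UU_le hb hK 0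
      have h2 : 0 ≤ Y.E 0 fun w => UU Y ρ w := Y.E_nonneg fun w _ => UU_nonneg hb hK w
      exact div_nonneg (h2.trans h1) hκ.le
    have hD0 : (0 : ℝ) < D := by exact_mod_cast (by omega : 0 < D)
    refine ⟨4 * D * (1 + Λ * K / κ) ^ T / κ * 4 ^ k, by positivity, ev ?_⟩
    filter_upwards [RF_a, RF_of_N (Q := fun N => D ≤ N) (eventually_ge_atTop _)] with x hx hN z
    have ha0 : 0 < aX x := by linarith [hx.1]
    have hs0 : 0 < Real.sqrt (aX x) := Real.sqrt_pos.2 ha0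
    have hs1 : Real.sqrt (aX x) < 1 := by
      rw [Real.sqrt_lt' one_pos]; simpa using hx.2
    refine (sm_PR_le hb hK hκ hs0 hs1 hD2 hN T z).trans ?_
    have h1 := EE_wide (Y := Y) (π := π) (ρ := ρ) (κ := κ) ha0 hx.2 x.2
    have hN0 : (0 : ℝ) < x.2 := by
      have : 0 < x.2 := by omega
      exact_mod_cast this
    calc 4 * D * (1 + Λ * K / κ) ^ T / κ * (EE Y π ρ κ (Real.sqrt (aX x)) x.2 / x.2)
        ≤ 4 * D * (1 + Λ * K / κ) ^ T / κ * (4 ^ k * EE Y π ρ κ (aX x) x.2 / x.2) := by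
          refine mul_le_mul_of_nonneg_left ?_ (by positivity)
          exact div_le_div_of_nonneg_right h1 hN0.le
      _ = _ := by ring
  · -- P_mass
    intro T x
    have := mass_PR_le (π := π) (κ := κ) hb (x.2 / D) (T * x.2)
    push_cast at this
    exact this
  · -- P_conv
    intro T ε hε
    obtain ⟨L₀, _, N₀, h1⟩ := PR_conv h hπ hκ hκK (by omega : 1 ≤ D) T hε
    refine ev ((RF_of_LN h1).mono fun x hx f hf0 hf1 hfL => ?_)
    rw [aX_inv] at hfL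
    exact hx f hf0 hf1 hfL
  · -- P_shift
    intro T ε hε
    obtain ⟨L₀, _, N₀, h1⟩ := PR_shift h hπ hκ hκK (by omega : 1 ≤ D) T hε
    refine ev ((RF_of_LN h1).mono fun x hx n hn f hf0 hf1 hfL => ?_)
    rw [aX_inv] at hfL
    exact hx n hn f hf0 hf1 hfL
  · -- p_ind
    intro ε hε
    obtain ⟨L₀, _, h1⟩ := lw_ind h hπ hε
    refine ev ((RF_of_L (Q := fun L => L₀ ≤ L) (eventually_ge_atTop L₀)).mono
      fun x hx n j f G bad hf0 hf1 hfL hbad hG => ?_)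
    rw [aX_inv] at hfL
    exact h1 x.1 hx n j f G bad hf0 hf1 hfL hbad hG
  · -- p_ind'
    intro ε hε
    obtain ⟨L₀, _, h1⟩ := lw_ind' h hπ hε
    refine ev ((RF_of_L (Q := fun L => L₀ ≤ L) (eventually_ge_atTop L₀)).mono
      fun x hx n j f G hf0 hf1 hfL hG => ?_)
    rw [aX_inv] at hfL
    exact h1 x.1 hx n j f G hf0 hf1 hfL hG
  · -- P_ge
    intro ε hε
    obtain ⟨L₀, _, N₀, h1⟩ := PR_ge h hπ hκ hκK hD hε
    refine ev ((RF_of_LN h1).mono fun x hx f hf0 hf1 hfL => ?_)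
    rw [aX_inv] at hfL
    simp only [one_mul]
    exact hx f hf0 hf1 hfL
  · -- near_one
    intro q hq
    refine ev ?_
    filter_upwards [near_one_ev (κ := κ) (c := c) h hπ hf hD' hq, hbody] with x h1 h2 e he n hn
    exact h1 _ (h2 _ (hmd x)).1 e he n hn
  · -- vol
    refine ⟨cV k * (2 * D') ^ (2 - c) * 2 ^ k / c₀, ?_, fun j hj => ev ?_⟩
    · have := cV_pos k; positivity
    · filter_upwards [vol_ev h hκ hκK hf hc2 hc₀ hD' hj, hbody] with x h1 h2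
      exact h1 _ (h2 _ (hmd x)).2.1
  · -- det_ne
    refine ev (Filter.Eventually.of_forall fun x => (hmd x).det_ne_zero ?_)
    exact Th_mem_nhds h hf.d_pos _ (by linarith)
  · -- det_cmp
    refine ⟨max (cV k * (D' : ℝ) ^ (2 - c)) (2 ^ k / c₀), lt_max_of_lt_right (by positivity),
      ev ?_⟩
    have hvp : ∀ᶠ x in RF Y π ρ κ c, 0 < vN Y π ρ κ (1 - 1 / x.1) x.2 :=
      RF_of_a (a₀ := 0) (by norm_num) (Q := fun a N => 0 < vN Y π ρ κ a N)
        fun a _ ha0 ha1 => ⟨1, fun N hN _ _ => vN_pos h hπ hκ hκK ha0 ha1 hN⟩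
    filter_upwards [hbody, hvp] with x h1 hv
    obtain ⟨-, h2, h3⟩ := h1 _ (hmd x)
    have hdet : (0 : ℝ) ≤ |(Matrix.of (A x)).det| := abs_nonneg _
    have h2k : (1 : ℝ) ≤ 2 ^ k := one_le_pow₀ (by norm_num)
    constructor
    · calc |(Matrix.of (A x)).det| ≤ 2 ^ k * |(Matrix.of (A x)).det| := by nlinarith
        _ ≤ cV k * (D' : ℝ) ^ (2 - c) * vN Y π ρ κ (1 - 1 / x.1) x.2 := h3
        _ ≤ _ := mul_le_mul_of_nonneg_right (le_max_left _ _) hv.le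
    · have h4 : vN Y π ρ κ (1 - 1 / x.1) x.2 ≤ 2 ^ k / c₀ * |(Matrix.of (A x)).det| := by
        rw [div_mul_eq_mul_div, le_div_iff₀ hc₀]
        linarith
      exact h4.trans (mul_le_mul_of_nonneg_right (le_max_right _ _) hdet)
  · -- A_lim
    intro ε hε
    exact ev ((small_ev (κ := κ) (c := c) hf hb1 hε).mono fun x hx l m => hx _ ((hmd x).1 l) m)
  · -- tail
    intro T ε hε
    obtain ⟨R, hR, h1⟩ := tail_ev h hπ hκ hκK hD4 hf htl T hε
    exact ⟨R, hR, ev (h1.mono fun x hx => hx _ (hmd x))⟩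

/-- UNIFORM POSITIVITY -/
theorem cmp (h : Erg Y Λ K ρ) (hπ : Stp Y π) (hκ : 0 < κ) (hκK : κ * K ≤ 1 / 8) {D : ℕ}
    (hD : 8 ≤ D) {d r c : ℝ} (hf : Frq Y π ρ d r) (hk : 1 ≤ k) (hrk : 12 * r ≤ 1 / (100 * k))
    (hc2 : c ≤ 2) (hkc : 2 * (2 - c) < k + 1) (hDc : (4 / (D : ℝ)) ^ c ≤ 1 / 16) :
    ∃ (T : ℕ) (c₂ : ℝ), 0 < c₂ ∧ ∀ᶠ L in (atTop : Filter ℝ), ∀ᶠ N in (atTop : Filter ℕ),
      Rec Y π ρ κ (1 - 1 / L) c N →
      EE Y π ρ κ (1 - 1 / L) N = Fm.en (1 - 1 / L) (GU Y π ρ κ N) (GU Y π ρ κ N) →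
      c₂ * EE Y π ρ κ (1 - 1 / L) N ≤ Fm.sm (1 - 1 / L)
        (Fm.conv (PR Y π ρ κ (N / D) (T * N)) (PR Y π ρ κ (N / D) (T * N))) 0 := by
  by_contra hcon
  push Not at hcon
  -- the bad sets
  set Bad : ℕ → Set (ℝ × ℕ) := fun T => {x | 0 < EE Y π ρ κ (aX x) x.2 ∧ 0 < aX x ∧
    Fm.sm (aX x) (Fm.conv (PR Y π ρ κ (x.2 / D) (T * x.2)) (PR Y π ρ κ (x.2 / D) (T * x.2))) 0 <
      1 / ((T : ℝ) + 1) * EE Y π ρ κ (aX x) x.2} with hBad
  have hmono : ∀ {T T' : ℕ} (x : ℝ × ℕ), T ≤ T' → 0 < aX x →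
      Fm.sm (aX x) (Fm.conv (PR Y π ρ κ (x.2 / D) (T * x.2)) (PR Y π ρ κ (x.2 / D) (T * x.2))) 0 ≤
      Fm.sm (aX x) (Fm.conv (PR Y π ρ κ (x.2 / D) (T' * x.2))
        (PR Y π ρ κ (x.2 / D) (T' * x.2))) 0 := by
    intro T T' x hT ha
    have hdom : (PR Y π ρ κ (x.2 / D) (T * x.2)).Dom (PR Y π ρ κ (x.2 / D) (T' * x.2)) := by
      refine dom_bs (fun i hi => ?_) (fun w => mul_nonneg (h.bulk.nonneg w) (ind_nonneg _))
        fun _ _ _ _ => le_rfl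
      rw [Finset.mem_Ico] at hi ⊢
      exact ⟨hi.1, hi.2.trans_le (Nat.mul_le_mul_right _ hT)⟩
    have hn1 := nn_PR (π := π) (κ := κ) h.bulk (x.2 / D) (T * x.2)
    have hn2 := nn_PR (π := π) (κ := κ) h.bulk (x.2 / D) (T' * x.2)
    refine Fm.sm_mono ha (fun f hf0 => ?_) 0
    rw [Fm.pr_conv, Fm.pr_conv]
    refine le_trans (hdom _ fun x => hn1.pr_nonneg fun y => hf0 _) ?_
    exact hn2.pr_mono fun x => hdom _ fun y => hf0 _
  have hanti : ∀ {T T' : ℕ}, T ≤ T' → Bad T' ⊆ Bad T := by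
    intro T T' hT x hx
    obtain ⟨h1, h2, h3⟩ := hx
    refine ⟨h1, h2, (hmono x hT h2).trans_lt (h3.trans_le ?_)⟩
    refine mul_le_mul_of_nonneg_right ?_ h1.le
    apply one_div_le_one_div_of_le (by positivity)
    have : (T : ℝ) ≤ T' := by exact_mod_cast hT
    linarith
  -- each bad set is frequent
  have hne : ∀ T : ℕ, (RF Y π ρ κ c ⊓ 𝓟 (Bad T)).NeBot := by
    intro T
    rw [← Filter.frequently_mem_iff_neBot]
    intro hnot
    rw [eventually_RF] at hnot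
    have h1 := hcon T (1 / ((T : ℝ) + 1)) (by positivity)
    have h2 : ∀ᶠ L in (atTop : Filter ℝ), ∀ᶠ N in (atTop : Filter ℕ),
        0 < EE Y π ρ κ (1 - 1 / L) N ∧ 0 < 1 - 1 / L := by
      filter_upwards [eventually_gt_atTop (1 : ℝ)] with L hL
      filter_upwards [eventually_ge_atTop 1] with N hN
      exact ⟨EE_pos h hπ hκ hκK (par_pos hL) (par_lt (by linarith)) hN, par_pos hL⟩
    obtain ⟨L, hL1, hL2, hL3⟩ := (h1.and_eventually (h2.and hnot)).exists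
    obtain ⟨N, hN1, hN2, hN3⟩ := (hL1.and_eventually (hL2.and hL3)).exists
    exact hN3 ⟨hN1.1, hN1.2.1⟩ ⟨hN2.1, hN2.2, hN1.2.2⟩
  have hne' : (⨅ T : ℕ, RF Y π ρ κ c ⊓ 𝓟 (Bad T)).NeBot := by
    refine Filter.iInf_neBot_of_directed' ?_ hne
    intro T T'
    refine ⟨max T T', ?_, ?_⟩
    · exact inf_le_inf_left _ (Filter.principal_mono.2 (hanti (le_max_left _ _)))
    · exact inf_le_inf_left _ (Filter.principal_mono.2 (hanti (le_max_right _ _)))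
  set F : Ultrafilter (ℝ × ℕ) := Ultrafilter.of (⨅ T : ℕ, RF Y π ρ κ c ⊓ 𝓟 (Bad T)) with hFdef
  have hFle : (F : Filter (ℝ × ℕ)) ≤ ⨅ T : ℕ, RF Y π ρ κ c ⊓ 𝓟 (Bad T) := Ultrafilter.of_le _
  have hF1 : (F : Filter (ℝ × ℕ)) ≤ RF Y π ρ κ c := hFle.trans ((iInf_le _ 0).trans inf_le_left)
  have hF2 : ∀ T, Bad T ∈ F := fun T =>
    Filter.le_principal_iff.1 (hFle.trans ((iInf_le _ T).trans inf_le_right))
  obtain ⟨A, r', t, g, d', hDg⟩ := exists_dg h hπ hκ hκK hD hf hk hrk hc2 hkc hDc F hF1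
  obtain ⟨T, c', hc', hpos⟩ := pos hDg
  obtain ⟨T₁, hT₁⟩ := exists_nat_gt (1 / c')
  have hmem := hF2 (max T T₁)
  obtain ⟨x, hx1, hx2⟩ := (hpos.and (show ∀ᶠ x in (F : Filter _), x ∈ Bad (max T T₁) from hmem)).exists
  obtain ⟨hE, ha, hlt⟩ := hx2
  have h1 := hmono x (le_max_left T T₁) ha
  have h2 : 1 / (((max T T₁ : ℕ) : ℝ) + 1) ≤ c' := by
    rw [div_le_iff₀ (by positivity)]
    have h3 : (T₁ : ℝ) ≤ ((max T T₁ : ℕ) : ℝ) := by exact_mod_cast le_max_right T T₁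
    have h4 : 1 < c' * T₁ := by
      rw [div_lt_iff₀ hc'] at hT₁; linarith
    nlinarith
  have h3 := mul_le_mul_of_nonneg_right h2 hE.le
  linarith

end Pool.Agent.SawM2
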