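import Pool.Agent.SawM2.Cent
import Pool.Agent.Bubble.Ul

/-!
# Conditional laws (module CND)
-/

set_option autoImplicit false

namespace Pool.Agent.SawM2

open Finset Filter Pool.Agent.Bub4 Pool.Agent.SawDiff

variable {S V : Type} [Fintype S] [AddCommGroup V] {Y : Sys S V} {Λ K : ℝ} {ρ : List S → ℝ}

variable {c₀ : ℝ} {H : ℕ → ℕ} {B : ℕ → List S → Prop} {a : ℕ → List S → ℝ}

/-- windows `H k`, events `B k` on words of length `H k + k` of probability at least `c₀` on which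
the frequencies of all words of length at most `k` are within `1 / (k + 1)` of the numbers `a k` -/
structure Cen (Y : Sys S V) (ρ : List S → ℝ) (c₀ : ℝ) (H : ℕ → ℕ) (B : ℕ → List S → Prop)
    (a : ℕ → List S → ℝ) : Prop where
  H_ge : ∀ k, (k + 1) ^ 2 ≤ H k
  prob : ∀ k, c₀ ≤ Y.E (H k + k) fun w => ρ w * ind (B k w)
  close : ∀ k w γ, B k w → γ.length ≤ k → |av γ (H k) w - a k γ| ≤ 1 / (k + 1)
  mem : ∀ k γ, 0 ≤ a k γ ∧ a k γ ≤ 1

/-- conditional expectation given the `k`-th event -/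
noncomputable def cnd (Y : Sys S V) (ρ : List S → ℝ) (H : ℕ → ℕ) (B : ℕ → List S → Prop) (k : ℕ)
    (F : List S → ℝ) : ℝ :=
  (Y.E (H k + k) fun w => ρ w * ind (B k w) * F w) / Y.E (H k + k) fun w => ρ w * ind (B k w)

/-- the limiting law -/
noncomputable def eL (Y : Sys S V) (ρ : List S → ℝ) (H : ℕ → ℕ) (B : ℕ → List S → Prop)
    (u : List S) : ℝ :=
  Bubble.ul fun k => cnd Y ρ H B k (av u (H k)) / Y.z ^ u.length

/-- CND. Choice of the windows from `center` (`g = k`, `δ = 1 / (k + 1)`, `H₀ = (k + 1)²`,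
`B k w = ∀ γ, |γ| ≤ k → |av γ (H k) w - a k γ| ≤ 1 / (k + 1)`). -/
theorem exists_cen (h : Bulk Y Λ ρ) (h1 : ∀ n, 1 ≤ Y.a n) (hK : ∀ n, Y.a n ≤ K) :
    ∃ c₀ : ℝ, 0 < c₀ ∧ c₀ ≤ 1 ∧ ∃ H B a, Cen Y ρ c₀ H B a := by
  obtain ⟨c₀, hc0, hc1, hc⟩ := center h h1 hK
  have hk : ∀ k : ℕ, ∃ H : ℕ, (k + 1) ^ 2 ≤ H ∧
      ∃ a : List S → ℝ, (∀ γ, 0 ≤ a γ ∧ a γ ≤ 1) ∧
        c₀ ≤ Y.E (H + k) fun w => ρ w * ind (∀ γ : List S, γ.length ≤ k →
          |av γ H w - a γ| ≤ 1 / ((k : ℝ) + 1)) := fun k =>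
    hc k (1 / ((k : ℝ) + 1)) (by positivity) ((k + 1) ^ 2)
  choose H hH a ha hp using hk
  exact ⟨c₀, hc0, hc1, H, fun k w => ∀ γ : List S, γ.length ≤ k →
    |av γ (H k) w - a k γ| ≤ 1 / ((k : ℝ) + 1), a,
    ⟨hH, hp, fun k w γ hB hγ => hB γ hγ, ha⟩⟩

/-- CND. Elementary: monotone, additive, `cnd 1 = 1` (`c₀ > 0`). -/
theorem cnd_mono (h : Bulk Y Λ ρ) (hc : 0 < c₀) (hC : Cen Y ρ c₀ H B a) (k : ℕ)
    {F G : List S → ℝ} (hFG : ∀ w, w.length = H k + k → B k w → F w ≤ G w) :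
    cnd Y ρ H B k F ≤ cnd Y ρ H B k G := by
  unfold cnd
  refine div_le_div_of_nonneg_right ?_ (hc.le.trans (hC.prob k))
  refine Y.E_mono fun w hw => ?_
  by_cases hB : B k w
  · exact mul_le_mul_of_nonneg_left (hFG w hw hB) (mul_nonneg (h.nonneg w) (ind_nonneg _))
  · rw [ind_not hB]; simp

theorem cnd_add (k : ℕ) (F G : List S → ℝ) :
    cnd Y ρ H B k (fun w => F w + G w) = cnd Y ρ H B k F + cnd Y ρ H B k G := by
  unfold cnd
  rw [← add_div, ← Y.E_fadd]
  congr 1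
  exact Y.E_congr fun w _ => by ring

theorem cnd_const (h : Bulk Y Λ ρ) (hc : 0 < c₀) (hC : Cen Y ρ c₀ H B a) (k : ℕ) (c : ℝ) :
    cnd Y ρ H B k (fun _ => c) = c := by
  unfold cnd
  rw [Y.E_mul_right, mul_comm, mul_div_assoc, div_self (hc.trans_le (hC.prob k)).ne', mul_one]

theorem cnd_mul_left (k : ℕ) (c : ℝ) (F : List S → ℝ) :
    cnd Y ρ H B k (fun w => c * F w) = c * cnd Y ρ H B k F := by
  unfold cnd
  rw [← mul_div_assoc, ← Y.E_mul_left]
  congr 1
  exact Y.E_congr fun w _ => by ring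

/-- CND. For `F ≥ 0`: `cnd F ≤ c₀⁻¹ E ρ F`. -/
theorem cnd_le (h : Bulk Y Λ ρ) (hc : 0 < c₀) (hC : Cen Y ρ c₀ H B a) (k : ℕ)
    {F : List S → ℝ} (hF : ∀ w, 0 ≤ F w) :
    cnd Y ρ H B k F ≤ c₀⁻¹ * Y.E (H k + k) fun w => ρ w * F w := by
  unfold cnd
  have h1 : (Y.E (H k + k) fun w => ρ w * ind (B k w) * F w) ≤
      Y.E (H k + k) fun w => ρ w * F w := by
    refine Y.E_mono fun w _ => ?_
    refine mul_le_mul_of_nonneg_right ?_ (hF w)
    exact mul_le_of_le_one_right (h.nonneg w) (ind_le_one _)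
  have h2 : 0 ≤ Y.E (H k + k) fun w => ρ w * F w :=
    Y.E_nonneg' fun w => mul_nonneg (h.nonneg w) (hF w)
  rw [inv_mul_eq_div]
  exact div_le_div₀ h2 h1 hc (hC.prob k)

/-- the mean of an occurrence -/
private theorem Cnd_occ (h : Bulk Y Λ ρ) (u : List S) {p N : ℕ} (hN : p + u.length ≤ N) :
    (Y.E N fun w => ρ w * occ u p w) = Y.z ^ u.length * ρ u := by
  obtain ⟨b, rfl⟩ := Nat.exists_eq_add_of_le hN
  have h1 : (Y.E (p + u.length + b) fun w => ρ w * occ u p w) =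
      Y.E u.length fun w => ρ w * occ u 0 w := by
    rw [← h.win p u.length b (fun x => occ u 0 x)]
    refine Y.E_congr fun w _ => ?_
    rw [occ_take u (by omega), occ_drop]
    rfl
  have h2 : (Y.E u.length fun w => ρ w * occ u 0 w) =
      Y.E (u.length + 1) fun w => ρ w * av u 1 w := by
    rw [← h.win_left u.length 1 (fun x => occ u 0 x)]
    refine Y.E_congr fun w _ => ?_
    rw [occ_take u (by omega)]
    simp [av]
  rw [h1, h2]
  exact mean_av h u one_pos (by omega)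

/-- the mean of an occurrence, upper bound for all places -/
private theorem Cnd_occ_le (h : Bulk Y Λ ρ) (u : List S) (p N : ℕ) :
    (Y.E N fun w => ρ w * occ u p w) ≤ Y.z ^ u.length * ρ u := by
  by_cases hN : p + u.length ≤ N
  · exact (Cnd_occ h u hN).le
  · rcases Nat.eq_zero_or_pos u.length with hu | hu
    · have hu' : u = [] := List.length_eq_zero_iff.1 hu
      subst hu'
      rw [h.nil, List.length_nil, pow_zero, mul_one, ← h.mass N]
      exact Y.E_mono fun w _ => mul_le_of_le_one_right (h.nonneg w) (occ_le_one _ _ _)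
    · have h1 : (Y.E N fun w => ρ w * occ u p w) = 0 := by
        rw [← Y.E_zero_fun N]
        refine Y.E_congr fun w hw => ?_
        have h2 : occ u p w = 0 := by
          unfold occ
          rw [if_neg]
          intro h3
          have h4 := h3.length_le
          rw [List.length_drop, hw] at h4
          omega
        rw [h2, mul_zero]
      rw [h1]
      exact mul_nonneg (pow_pos Y.z_pos _).le (h.nonneg u)

/-- CND. `cnd (av u (H k)) / z^|u| ≤ ρ u / c₀` for all `u` and `k` (`cnd_le`, `mean_av` for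
`|u| ≤ k`; if `|u| > k` some occurrences do not fit into the word and are not counted: every
summand `occ u h w` has mean `z^|u| ρ u` or `0`). -/
theorem cnd_av_le (h : Bulk Y Λ ρ) (hc : 0 < c₀) (hC : Cen Y ρ c₀ H B a) (k : ℕ) (u : List S) :
    cnd Y ρ H B k (av u (H k)) / Y.z ^ u.length ≤ ρ u / c₀ := by
  have hz : 0 < Y.z ^ u.length := pow_pos Y.z_pos _
  have hH : 0 < H k := lt_of_lt_of_le (by positivity) (hC.H_ge k)
  have hH' : (0 : ℝ) < H k := by exact_mod_cast hH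
  have h1 := cnd_le h hc hC k (F := av u (H k)) (fun w => av_nonneg _ _ _)
  have h2 : (Y.E (H k + k) fun w => ρ w * av u (H k) w) ≤ Y.z ^ u.length * ρ u := by
    have e : (Y.E (H k + k) fun w => ρ w * av u (H k) w) =
        ((H k : ℕ) : ℝ)⁻¹ * ∑ p ∈ range (H k), Y.E (H k + k) fun w => ρ w * occ u p w := by
      rw [← Y.E_fsum, ← Y.E_mul_left]
      refine Y.E_congr fun w _ => ?_
      unfold av
      rw [← Finset.mul_sum]
      ring
    rw [e, inv_mul_le_iff₀ hH']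
    refine (Finset.sum_le_card_nsmul _ _ _ fun p _ => Cnd_occ_le h u p _).trans ?_
    rw [Finset.card_range, nsmul_eq_mul]
  rw [div_le_div_iff₀ hz hc]
  have h3 : cnd Y ρ H B k (av u (H k)) ≤ c₀⁻¹ * (Y.z ^ u.length * ρ u) :=
    h1.trans (mul_le_mul_of_nonneg_left h2 (inv_nonneg.2 hc.le))
  calc cnd Y ρ H B k (av u (H k)) * c₀ ≤ c₀⁻¹ * (Y.z ^ u.length * ρ u) * c₀ :=
        mul_le_mul_of_nonneg_right h3 hc.le
    _ = ρ u * Y.z ^ u.length := by
        field_simp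

end Pool.Agent.SawM2
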