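import Pool.Agent.SawM2.FinB

/-!
# Bounded amplitude forces concentration of the endpoint at a positive fraction of dyadic scales
-/

set_option autoImplicit false

namespace Pool.Agent.SawM2

open Finset Filter Pool.Agent.Bub4 Pool.Agent.SawDiff Pool.Agent.SubBall

section Gen

variable {S V : Type} [Fintype S] [AddCommGroup V] {Y : Sys S V} {Λ : ℝ} {ρ : List S → ℝ}

/-- weighted triangle inequality for the second moments -/
theorem V2_add (h : Bulk Y Λ ρ) (xs : V →+ ℝ) (m n : ℕ) {t : ℝ} (ht : 0 < t) :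
    V2 Y ρ xs (m + n) ≤ (1 + t) * V2 Y ρ xs m + (1 + 1 / t) * V2 Y ρ xs n := by
  have h1 : V2 Y ρ xs (m + n) =
      Y.E m fun u => Y.E n fun v => ρ (u ++ v) * (xs (Y.sm (u ++ v))) ^ 2 := by
    unfold V2
    rw [Y.E_add]
  have h2 : (Y.E m fun u => Y.E n fun v => ρ (u ++ v) * ((1 + t) * (xs (Y.sm u)) ^ 2)) =
      (1 + t) * V2 Y ρ xs m := by
    simp only [Y.E_mul_right, h.right]
    unfold V2
    rw [← Y.E_mul_left]
    exact Y.E_congr fun u _ => by ring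
  have h3 : (Y.E m fun u => Y.E n fun v => ρ (u ++ v) * ((1 + 1 / t) * (xs (Y.sm v)) ^ 2)) =
      (1 + 1 / t) * V2 Y ρ xs n := by
    rw [Y.E_comm]
    simp only [Y.E_mul_right, h.left]
    unfold V2
    rw [← Y.E_mul_left]
    exact Y.E_congr fun u _ => by ring
  rw [h1, ← h2, ← h3, ← Y.E_fadd]
  refine Y.E_mono fun u _ => ?_
  rw [← Y.E_fadd]
  refine Y.E_mono fun v _ => ?_
  rw [← mul_add]
  refine mul_le_mul_of_nonneg_left ?_ (h.nonneg _)
  rw [Y.sm_append, map_add]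
  have h4 : (1 + t) * xs (Y.sm u) ^ 2 + (1 + 1 / t) * xs (Y.sm v) ^ 2 -
      (xs (Y.sm u) + xs (Y.sm v)) ^ 2 = (t * xs (Y.sm u) - xs (Y.sm v)) ^ 2 / t := by
    field_simp
    ring
  have h5 : 0 ≤ (t * xs (Y.sm u) - xs (Y.sm v)) ^ 2 / t := by positivity
  linarith

/-- the second moment at `n < k * 2 ^ J` in terms of the second moments at the scales `k * 2 ^ j` -/
theorem V2_bin (h : Bulk Y Λ ρ) {xs : V →+ ℝ} (hx : ∀ s, |xs (Y.vec s)| ≤ 1) (k J : ℕ) :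
    ∀ n < k * 2 ^ J, V2 Y ρ xs n ≤
      ((J : ℝ) + 1) * ((k : ℝ) ^ 2 + ∑ j ∈ range J, V2 Y ρ xs (k * 2 ^ j)) := by
  induction J with
  | zero =>
    intro n hn
    have hn' : n ≤ k := by
      rw [pow_zero, mul_one] at hn
      exact hn.le
    have h0 : V2 Y ρ xs 0 = 0 := by
      unfold V2
      refine (Y.E_congr (G := fun _ => 0) fun u hu => ?_).trans (Y.E_zero_fun 0)
      rw [List.length_eq_zero_iff.1 hu]
      simp [Sys.sm]
    have h1 := V2_step h hx 0 n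
    rw [h0, Real.sqrt_zero, mul_zero, zero_add, zero_add, sub_zero,
      abs_of_nonneg (h.V2_nonneg _ _)] at h1
    rw [Finset.range_zero, Finset.sum_empty, add_zero]
    push_cast
    rw [zero_add, one_mul]
    refine h1.trans (pow_le_pow_left₀ (Nat.cast_nonneg n) ?_ 2)
    exact_mod_cast hn'
  | succ J ih =>
    intro n hn
    have hs : 0 ≤ ∑ j ∈ range J, V2 Y ρ xs (k * 2 ^ j) :=
      Finset.sum_nonneg fun j _ => h.V2_nonneg _ _
    have hJ : (0 : ℝ) ≤ J := Nat.cast_nonneg J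
    have hk : (0 : ℝ) ≤ (k : ℝ) ^ 2 := by positivity
    have hV := h.V2_nonneg xs (k * 2 ^ J)
    rw [Finset.sum_range_succ]
    push_cast
    rcases lt_or_ge n (k * 2 ^ J) with h1 | h1
    · refine (ih n h1).trans ?_
      refine mul_le_mul (by linarith) (by linarith) (by positivity) (by linarith)
    · obtain ⟨n', rfl⟩ : ∃ n', n = k * 2 ^ J + n' := ⟨n - k * 2 ^ J, by omega⟩
      have h2 : n' < k * 2 ^ J := by
        rw [pow_succ, ← mul_assoc] at hn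
        omega
      have h3 := V2_add h xs (k * 2 ^ J) n' (t := (J : ℝ) + 1) (by linarith)
      have h4 := ih n' h2
      have h5 := mul_le_mul_of_nonneg_left h4
        (by positivity : (0 : ℝ) ≤ 1 + 1 / ((J : ℝ) + 1))
      have h6 : (1 + 1 / ((J : ℝ) + 1)) *
          (((J : ℝ) + 1) * ((k : ℝ) ^ 2 + ∑ j ∈ range J, V2 Y ρ xs (k * 2 ^ j))) =
          ((J : ℝ) + 1 + 1) * ((k : ℝ) ^ 2 + ∑ j ∈ range J, V2 Y ρ xs (k * 2 ^ j)) := by
        field_simp
      rw [h6] at h5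
      have h7 : (1 + ((J : ℝ) + 1)) * V2 Y ρ xs (k * 2 ^ J) =
          ((J : ℝ) + 1 + 1) * V2 Y ρ xs (k * 2 ^ J) := by ring
      rw [h7] at h3
      have h8 : ((J : ℝ) + 1 + 1) * ((k : ℝ) ^ 2 +
          (∑ j ∈ range J, V2 Y ρ xs (k * 2 ^ j) + V2 Y ρ xs (k * 2 ^ J))) =
          ((J : ℝ) + 1 + 1) * V2 Y ρ xs (k * 2 ^ J) +
          ((J : ℝ) + 1 + 1) * ((k : ℝ) ^ 2 + ∑ j ∈ range J, V2 Y ρ xs (k * 2 ^ j)) := by ring
      rw [h8]
      linarith

end Gen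

/-- growth along the dyadic scales -/
theorem conc_growth {F : ℕ → ℝ} {θ : ℝ} (hθ : 0 ≤ θ) {j₀ : ℕ} {P : ℕ → Prop} [DecidablePred P]
    (hF0 : ∀ j, 0 ≤ F j) (h4 : ∀ j, F (j + 1) ≤ 4 * F j)
    (h2 : ∀ j ≥ j₀, ¬ P j → F (j + 1) ≤ (2 + θ) * F j) (J : ℕ) (hJ : j₀ ≤ J) :
    F J ≤ F j₀ * ((2 + θ) ^ J * 2 ^ ((range J).filter P).card) := by
  induction J, hJ using Nat.le_induction with
  | base =>
    have h1 : (1 : ℝ) ≤ (2 + θ) ^ j₀ := one_le_pow₀ (by linarith)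
    have h3 : (1 : ℝ) ≤ 2 ^ ((range j₀).filter P).card := one_le_pow₀ (by norm_num)
    exact le_mul_of_one_le_right (hF0 _) (one_le_mul_of_one_le_of_one_le h1 h3)
  | succ J hJ ih =>
    have hc : (range (J + 1)).filter P = if P J then insert J ((range J).filter P)
        else (range J).filter P := by
      rw [Finset.range_add_one, Finset.filter_insert]
    have hnot : J ∉ (range J).filter P := by simp
    have hq : 0 ≤ F j₀ * ((2 + θ) ^ J * 2 ^ ((range J).filter P).card) := by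
      have := hF0 j₀
      positivity
    by_cases hP : P J
    · rw [hc, if_pos hP, Finset.card_insert_of_notMem hnot, pow_succ, pow_succ]
      have h5 := h4 J
      have h6 : F j₀ * ((2 + θ) ^ J * (2 + θ) * (2 ^ ((range J).filter P).card * 2)) =
          (2 * (2 + θ)) * (F j₀ * ((2 + θ) ^ J * 2 ^ ((range J).filter P).card)) := by ring
      rw [h6]
      nlinarith
    · rw [hc, if_neg hP, pow_succ]
      have h5 := h2 J hJ hP
      have h6 : F j₀ * ((2 + θ) ^ J * (2 + θ) * 2 ^ ((range J).filter P).card) =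
          (2 + θ) * (F j₀ * ((2 + θ) ^ J * 2 ^ ((range J).filter P).card)) := by ring
      rw [h6]
      exact h5.trans (mul_le_mul_of_nonneg_left ih (by linarith))

/-- the bound at all scales up to `J` -/
theorem conc_growth' {F : ℕ → ℝ} {θ : ℝ} (hθ : 0 ≤ θ) {j₀ : ℕ} {P : ℕ → Prop} [DecidablePred P]
    (hF0 : ∀ j, 0 ≤ F j) (h4 : ∀ j, F (j + 1) ≤ 4 * F j)
    (h2 : ∀ j ≥ j₀, ¬ P j → F (j + 1) ≤ (2 + θ) * F j) (J j : ℕ) (hj : j ≤ J) :
    F j ≤ (∑ i ∈ range (j₀ + 1), F i) * ((2 + θ) ^ J * 2 ^ ((range J).filter P).card) := by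
  have hone : (1 : ℝ) ≤ (2 + θ) ^ J * 2 ^ ((range J).filter P).card :=
    one_le_mul_of_one_le_of_one_le (one_le_pow₀ (by linarith)) (one_le_pow₀ (by norm_num))
  have hle : ∀ i ≤ j₀, F i ≤ ∑ i ∈ range (j₀ + 1), F i := fun i hi =>
    Finset.single_le_sum (f := F) (fun k _ => hF0 k) (Finset.mem_range.2 (by omega))
  have hs : 0 ≤ ∑ i ∈ range (j₀ + 1), F i := Finset.sum_nonneg fun i _ => hF0 i
  rcases le_total j j₀ with h | h
  · exact (hle j h).trans (le_mul_of_one_le_right hs hone)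
  · refine (conc_growth hθ hF0 h4 h2 j h).trans ?_
    refine mul_le_mul (hle j₀ le_rfl) ?_ (by positivity) hs
    refine mul_le_mul (pow_le_pow_right₀ (by linarith) hj) ?_ (by positivity) (by positivity)
    refine pow_le_pow_right₀ (by norm_num) (Finset.card_le_card ?_)
    exact Finset.filter_subset_filter _ (Finset.range_subset_range.2 hj)

/-- a geometric sequence beats a square -/
theorem conc_beats {q K : ℝ} (hq : 1 < q) (hK : 0 ≤ K) :
    ∀ᶠ J : ℕ in atTop, K * ((J : ℝ) + 1) ^ 2 < q ^ J := by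
  have h1 := tendsto_pow_const_div_const_pow_of_one_lt 2 hq
  have h2 : (0 : ℝ) < 1 / (4 * K + 1) := by positivity
  filter_upwards [h1.eventually_lt_const h2, eventually_ge_atTop 1] with J hJ hJ1
  have h3 : (0 : ℝ) < q ^ J := by positivity
  rw [div_lt_div_iff₀ h3 (by positivity)] at hJ
  have h4 : (1 : ℝ) ≤ J := by exact_mod_cast hJ1
  have h5 : ((J : ℝ) + 1) ^ 2 ≤ 4 * (J : ℝ) ^ 2 := by nlinarith
  have h6 := mul_le_mul_of_nonneg_left h5 hK
  have h7 : 0 < (J : ℝ) ^ 2 := by positivity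
  nlinarith

open Classical in
/-- In dimensions two and three a bounded amplitude forces the concentration of the endpoint at a
fraction `1 / d` of the scales `k * 2 ^ j`. -/
theorem conc_words (m : ℕ) (hm : m ≤ 1) {μ A : ℝ} (hμ : 0 < μ)
    (h1 : ∀ n, 1 ≤ Bubble.an (stv m) μ n) (hA : ∀ n, Bubble.an (stv m) μ n ≤ A) :
    ∃ η : ℝ, 0 < η ∧ ∀ k : ℕ, 1 ≤ k → ∀ δ : ℝ, 0 < δ → ∀ ε : ℝ, 0 < ε → ∀ᶠ J : ℕ in atTop,
      (1 / ((m + 2 : ℕ) : ℝ) - ε) * J ≤ (((range J).filter fun j =>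
        η * ((saws (stv m) (k * 2 ^ j)).card : ℝ) <
          (((saws (stv m) (k * 2 ^ j)).filter (fun w => ∑ i : Fin (m + 2),
            ((SubBall.pos (stv m) w (k * 2 ^ j) i : ℤ) : ℝ) ^ 2 ≤
              δ * ms m (k * 2 ^ j))).card : ℝ)).card : ℝ) := by
  have hA1 : 1 ≤ A := (h1 0).trans (hA 0)
  have hA0 : 0 < A := by linarith
  set Y := lat m hμ with hY
  have ha1 : ∀ n, 1 ≤ Y.a n := fun n => by rw [hY, lat_a]; exact h1 n
  have haA : ∀ n, Y.a n ≤ A := fun n => by rw [hY, lat_a]; exact hA n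
  have hstep : ∀ (s : St m) (i : Fin (m + 2)), |Y.vec s i| ≤ 1 := by
    rintro ⟨j, b⟩ i
    show |stv m (j, b) i| ≤ 1
    unfold stv
    by_cases hij : i = j
    · subst hij
      cases b <;> simp
    · cases b <;> simp [hij]
  obtain ⟨Λ, ρ, hE⟩ := exists_erg ha1 haA
  have h := hE.bulk
  have hΛ := h.pos
  set R2 : ℕ → ℝ := fun n => ∑ i : Fin (m + 2), Y.M (Sys.coord i) n with hR2
  have hcard : ∀ n, (0 : ℝ) < (saws (stv m) n).card := by
    intro n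
    have h2 := h1 n
    unfold Bubble.an at h2
    rw [one_le_div (pow_pos hμ n)] at h2
    exact lt_of_lt_of_le (pow_pos hμ n) h2
  have hms0 : ∀ n, 0 ≤ ms m n := fun n =>
    div_nonneg (Finset.sum_nonneg fun _ _ => Finset.sum_nonneg fun _ _ => sq_nonneg _) (hcard n).le
  have hR2e : ∀ n, R2 n = Bubble.an (stv m) μ n * ms m n := fun n => sumM_eq m hμ n (hcard n)
  have hR2ge : ∀ n, ms m n ≤ R2 n := fun n => by
    rw [hR2e]
    exact le_mul_of_one_le_left (hms0 n) (h1 n)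
  have hR2le : ∀ n, R2 n ≤ A * ms m n := fun n => by
    rw [hR2e]
    exact mul_le_mul_of_nonneg_right (hA n) (hms0 n)
  have hR : Tendsto R2 atTop atTop := tendsto_atTop_mono hR2ge (lat_low m)
  have hMnn : ∀ (i : Fin (m + 2)) n, 0 ≤ Y.M (Sys.coord i) n := fun i n =>
    Y.E_nonneg' fun u => mul_nonneg (Y.sv_nonneg u) (sq_nonneg _)
  have hM : ∀ (i : Fin (m + 2)) n, Y.M (Sys.coord i) n ≤ R2 n := fun i n =>
    Finset.single_le_sum (f := fun i => Y.M (Sys.coord i) n) (fun j _ => hMnn j n)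
      (Finset.mem_univ i)
  have hV : ∀ ε : ℝ, 0 < ε → ∃ n₀ : ℕ, ∀ n ≥ n₀, R2 n ≤ ε * (n : ℝ) ^ 2 := by
    intro ε hε
    obtain ⟨n₀, hn₀⟩ := lat_up m (ε / A) (div_pos hε hA0)
    refine ⟨n₀, fun n hn => (hR2le n).trans ?_⟩
    refine (mul_le_mul_of_nonneg_left (hn₀ n hn) hA0.le).trans (le_of_eq ?_)
    field_simp
  -- the total second moment
  set f : ℕ → ℝ := fun n => ∑ i : Fin (m + 2), V2 Y ρ (Sys.coord i) n with hf
  have hVnn : ∀ (i : Fin (m + 2)) n, 0 ≤ V2 Y ρ (Sys.coord i) n := fun i n => h.V2_nonneg _ n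
  have hf0 : ∀ n, 0 ≤ f n := fun n => Finset.sum_nonneg fun i _ => hVnn i n
  have hfE : ∀ n, f n = Y.E n fun u => ρ u * nq (Y.sm u) := by
    intro n
    simp only [hf]
    unfold V2
    rw [← Y.E_fsum]
    refine Y.E_congr fun u _ => ?_
    unfold nq
    rw [Finset.mul_sum]
    rfl
  have hf4 : ∀ n, f (2 * n) ≤ 4 * f n := by
    intro n
    simp only [hf, Finset.mul_sum]
    exact Finset.sum_le_sum fun i _ => V2_two h _ n
  have hfbin : ∀ k J n : ℕ, n < k * 2 ^ J → f n ≤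
      ((J : ℝ) + 1) * (((m + 2 : ℕ) : ℝ) * (k : ℝ) ^ 2 + ∑ j ∈ range J, f (k * 2 ^ j)) := by
    intro k J n hn
    have h2 : ((m + 2 : ℕ) : ℝ) * (k : ℝ) ^ 2 + ∑ j ∈ range J, f (k * 2 ^ j) =
        ∑ i : Fin (m + 2), ((k : ℝ) ^ 2 + ∑ j ∈ range J, V2 Y ρ (Sys.coord i) (k * 2 ^ j)) := by
      rw [Finset.sum_add_distrib, Finset.sum_const, Finset.card_univ, Fintype.card_fin,
        nsmul_eq_mul]
      congr 1
      simp only [hf]
      rw [Finset.sum_comm]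
    rw [h2, Finset.mul_sum]
    exact Finset.sum_le_sum fun i _ => V2_bin h (Pool.Agent.SawDiff.abs_coord_le m hμ i) k J n hn
  refine ⟨1 / (2 * Λ * A), by positivity, fun k hk δ hδ ε hε => ?_⟩
  set P : ℕ → Prop := fun j => 1 / (2 * Λ * A) * ((saws (stv m) (k * 2 ^ j)).card : ℝ) <
          (((saws (stv m) (k * 2 ^ j)).filter (fun w => ∑ i : Fin (m + 2),
            ((SubBall.pos (stv m) w (k * 2 ^ j) i : ℤ) : ℝ) ^ 2 ≤ δ * ms m (k * 2 ^ j))).card : ℝ) with hP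
  -- at a scale which is not concentrated
  have hlow : ∀ j, ¬ P j → δ / 2 * ms m (k * 2 ^ j) ≤ f (k * 2 ^ j) := by
    intro j hj
    have hn : (((saws (stv m) (k * 2 ^ j)).filter (fun w => ∑ i : Fin (m + 2),
            ((SubBall.pos (stv m) w (k * 2 ^ j) i : ℤ) : ℝ) ^ 2 ≤ δ * ms m (k * 2 ^ j))).card : ℝ) ≤
        1 / (2 * Λ * A) * ((saws (stv m) (k * 2 ^ j)).card : ℝ) := not_lt.1 hj
    have h2 := ncv h (nq (m := m)) nq_nonneg (k * 2 ^ j) (t := δ * ms m (k * 2 ^ j))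
      (mul_nonneg hδ.le (hms0 _))
    rw [← hfE, hY, lat_small] at h2
    have h3 : (((saws (stv m) (k * 2 ^ j)).filter (fun w => ∑ i : Fin (m + 2),
        ((SubBall.pos (stv m) w (k * 2 ^ j) i : ℤ) : ℝ) ^ 2 ≤ δ * ms m (k * 2 ^ j))).card : ℝ) /
        μ ^ (k * 2 ^ j) ≤ 1 / (2 * Λ * A) * A := by
      have h4 : (((saws (stv m) (k * 2 ^ j)).filter (fun w => ∑ i : Fin (m + 2),
        ((SubBall.pos (stv m) w (k * 2 ^ j) i : ℤ) : ℝ) ^ 2 ≤ δ * ms m (k * 2 ^ j))).card : ℝ) /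
          μ ^ (k * 2 ^ j) ≤ 1 / (2 * Λ * A) * (saws (stv m) (k * 2 ^ j)).card / μ ^ (k * 2 ^ j) :=
        div_le_div_of_nonneg_right hn (pow_pos hμ _).le
      refine h4.trans ?_
      rw [mul_div_assoc]
      exact mul_le_mul_of_nonneg_left (hA _) (by positivity)
    have h5 : 1 / (2 * Λ * A) * A = 1 / (2 * Λ) := by field_simp
    rw [h5] at h3
    have h6 := mul_le_mul_of_nonneg_left h3 hΛ.le
    have h7 : Λ * (1 / (2 * Λ)) = 1 / 2 := by field_simp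
    rw [h7] at h6
    have h8 : 0 ≤ δ * ms m (k * 2 ^ j) := mul_nonneg hδ.le (hms0 _)
    nlinarith
  -- the exponents
  set κ : ℝ := 1 / ((m + 2 : ℕ) : ℝ) with hκ
  have hd2 : (0 : ℝ) < ((m + 2 : ℕ) : ℝ) := by positivity
  have hκ0 : 0 < κ := by positivity
  have hκ1 : (1 + κ) / 2 ≤ 2 / ((m + 2 : ℕ) : ℝ) ∧
      (1 + κ) / 2 ≤ (((m + 2 : ℕ) : ℝ) + 1) / (2 * ((m + 2 : ℕ) : ℝ)) := by
    rw [hκ]
    rcases Nat.le_one_iff_eq_zero_or_eq_one.1 hm with rfl | rfl <;> norm_num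
  set ε' : ℝ := min ε 1 with hε'
  have hε'0 : 0 < ε' := lt_min hε one_pos
  have hε'1 : ε' ≤ 1 := min_le_right _ _
  set θ : ℝ := 2 * (2 : ℝ) ^ (ε' / 4) - 2 with hθ
  have h2θ : 2 + θ = 2 * (2 : ℝ) ^ (ε' / 4) := by rw [hθ]; ring
  have hθ0 : 0 < θ := by
    have : (1 : ℝ) < (2 : ℝ) ^ (ε' / 4) := Real.one_lt_rpow (by norm_num) (by positivity)
    rw [hθ]
    linarith
  set ν : ℝ := (1 + κ) / 2 - ε' / 8 with hν
  have hν0 : 0 ≤ ν := by rw [hν]; linarith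
  have hrho := fin_rho hE hstep (fun r => by
    obtain ⟨D, hD1, hD2⟩ := Pool.Agent.SawNice.lat_nice hμ haA r
    exact ⟨D, hD1, hD2⟩) hν0 (by rw [hν]; linarith [hκ1.1]) (by rw [hν]; linarith [hκ1.2])
    (C := 1) (δ := 1) zero_le_one one_pos
  have htwo : Tendsto (fun J : ℕ => k * 2 ^ J) atTop (atTop : Filter ℕ) :=
    (tendsto_pow_atTop_atTop_of_one_lt (by norm_num)).const_mul_atTop' (by omega)
  -- doubling
  have hdbl : ∀ᶠ n : ℕ in atTop, |f (2 * n) - 2 * f n| ≤ θ * δ / (2 * A) * R2 n := by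
    have h2 : ∀ i : Fin (m + 2), ∀ᶠ n in atTop,
        |V2 Y ρ (Sys.coord i) (2 * n) - 2 * V2 Y ρ (Sys.coord i) n| ≤
          (θ * δ / (2 * A * (m + 2 : ℕ))) * R2 n := fun i =>
      coord_dbl h ha1 haA (Pool.Agent.SawDiff.abs_coord_le m hμ i) hR (hM i) hV (by positivity)
    filter_upwards [eventually_all.2 h2] with n hn
    have h3 : |f (2 * n) - 2 * f n| ≤
        ∑ i : Fin (m + 2), (θ * δ / (2 * A * (m + 2 : ℕ))) * R2 n := by
      have h4 : f (2 * n) - 2 * f n =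
          ∑ i : Fin (m + 2), (V2 Y ρ (Sys.coord i) (2 * n) - 2 * V2 Y ρ (Sys.coord i) n) := by
        simp only [hf, Finset.sum_sub_distrib, Finset.mul_sum]
      rw [h4]
      exact (Finset.abs_sum_le_sum_abs _ _).trans (Finset.sum_le_sum fun i _ => hn i)
    refine h3.trans (le_of_eq ?_)
    rw [Finset.sum_const, Finset.card_univ, Fintype.card_fin, nsmul_eq_mul]
    field_simp
  obtain ⟨j₀, hj₀⟩ := eventually_atTop.1 (htwo.eventually hdbl)
  have hpow : ∀ j : ℕ, k * 2 ^ (j + 1) = 2 * (k * 2 ^ j) := fun j => by rw [pow_succ]; ring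
  have hgr : ∀ j ≥ j₀, ¬ P j → f (k * 2 ^ (j + 1)) ≤ (2 + θ) * f (k * 2 ^ j) := by
    intro j hj hPj
    have h2 := (abs_le.1 (hj₀ j hj)).2
    have h3 := hlow j hPj
    have h4 := hR2le (k * 2 ^ j)
    have h5 : θ * δ / (2 * A) * R2 (k * 2 ^ j) ≤ θ * f (k * 2 ^ j) := by
      calc θ * δ / (2 * A) * R2 (k * 2 ^ j) ≤ θ * δ / (2 * A) * (A * ms m (k * 2 ^ j)) :=
            mul_le_mul_of_nonneg_left h4 (by positivity)
        _ = θ * (δ / 2 * ms m (k * 2 ^ j)) := by field_simp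
        _ ≤ θ * f (k * 2 ^ j) := mul_le_mul_of_nonneg_left h3 hθ0.le
    rw [hpow]
    linarith
  have hgrow := conc_growth' (F := fun j => f (k * 2 ^ j)) (P := P) hθ0.le (fun j => hf0 _)
    (fun j => by rw [hpow]; exact hf4 _) hgr
  set C₀ : ℝ := ∑ i ∈ range (j₀ + 1), f (k * 2 ^ i) with hC₀
  have hC₀0 : 0 ≤ C₀ := Finset.sum_nonneg fun i _ => hf0 _
  set C₁ : ℝ := ((m + 2 : ℕ) : ℝ) * (k : ℝ) ^ 2 + C₀ with hC₁
  have hC₁0 : 0 ≤ C₁ := by positivity
  -- the ratio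
  have hq : (1 : ℝ) < (2 : ℝ) ^ (ε' / 2) := Real.one_lt_rpow (by norm_num) (by positivity)
  filter_upwards [conc_beats hq (by positivity : (0 : ℝ) ≤ 4 / 3 * C₁), htwo.eventually hrho]
    with J hJ1 hJ2
  by_contra hcon
  push Not at hcon
  set c : ℕ := ((range J).filter P).card with hc
  have hJ0 : (0 : ℝ) ≤ J := Nat.cast_nonneg J
  -- the number of concentrated scales
  have hc2 : (2 : ℝ) ^ c ≤ (2 : ℝ) ^ ((κ - ε') * J) := by
    rw [← Real.rpow_natCast]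
    refine Real.rpow_le_rpow_of_exponent_le (by norm_num) (hcon.le.trans ?_)
    exact mul_le_mul_of_nonneg_right (by linarith [min_le_left ε 1]) hJ0
  -- a length with a large displacement
  obtain ⟨n, hn1, hn2⟩ := hJ2 (range (k * 2 ^ J)) (fun n hn => Finset.mem_range.1 hn) (by simp)
  rw [Finset.mem_range] at hn1
  rw [one_mul] at hn2
  set L : ℝ := (2 : ℝ) ^ (ν * J) with hLe
  have hL0 : 0 < L := by rw [hLe]; positivity
  have hLL : L ≤ ((k * 2 ^ J : ℕ) : ℝ) ^ ν := by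
    have h3 : L = ((2 : ℝ) ^ J) ^ ν := by
      rw [hLe, ← Real.rpow_natCast, ← Real.rpow_mul (by norm_num), mul_comm]
    rw [h3]
    refine Real.rpow_le_rpow (by positivity) ?_ hν0
    push_cast
    exact le_mul_of_one_le_left (by positivity) (by exact_mod_cast hk)
  have hn3 : 3 / 4 < Y.E n fun w => ρ w *
      ind (¬ ∀ i : Fin (m + 2), |((Y.sm w i : ℤ) : ℝ)| ≤ L) := by
    refine hn2.trans_le (Y.E_mono fun w _ => mul_le_mul_of_nonneg_left (ind_mono fun h3 h4 => ?_)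
      (h.nonneg w))
    exact h3 fun i => (h4 i).trans hLL
  have h3 : 3 / 4 * L ^ 2 ≤ f n := by
    have h4 : (Y.E n fun w => ρ w * ind (¬ ∀ i : Fin (m + 2), |((Y.sm w i : ℤ) : ℝ)| ≤ L)) ≤
        (1 / L ^ 2) * f n := by
      rw [hfE, ← Y.E_mul_left]
      refine Y.E_mono fun w _ => ?_
      have h5 : ind (¬ ∀ i : Fin (m + 2), |((Y.sm w i : ℤ) : ℝ)| ≤ L) ≤
          1 / L ^ 2 * nq (Y.sm w) := by
        by_cases h6 : ∀ i : Fin (m + 2), |((Y.sm w i : ℤ) : ℝ)| ≤ L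
        · rw [ind_not (not_not.2 h6)]
          exact mul_nonneg (by positivity) (nq_nonneg _)
        · rw [ind_of h6]
          push Not at h6
          obtain ⟨i, hi⟩ := h6
          have h7 : L ^ 2 ≤ nq (Y.sm w) := by
            have h8 : L ^ 2 ≤ ((Y.sm w i : ℤ) : ℝ) ^ 2 := by
              rw [← sq_abs ((Y.sm w i : ℤ) : ℝ)]
              exact pow_le_pow_left₀ hL0.le hi.le 2
            refine h8.trans ?_
            unfold nq
            exact Finset.single_le_sum (f := fun i => ((Y.sm w i : ℤ) : ℝ) ^ 2)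
              (fun j _ => sq_nonneg _) (Finset.mem_univ i)
          rw [one_div, inv_mul_eq_div, le_div_iff₀ (by positivity), one_mul]
          exact h7
      calc ρ w * ind (¬ ∀ i : Fin (m + 2), |((Y.sm w i : ℤ) : ℝ)| ≤ L) ≤
            ρ w * (1 / L ^ 2 * nq (Y.sm w)) := mul_le_mul_of_nonneg_left h5 (h.nonneg w)
        _ = 1 / L ^ 2 * (ρ w * nq (Y.sm w)) := by ring
    have h5 := hn3.le.trans h4
    rw [one_div, inv_mul_eq_div, le_div_iff₀ (by positivity)] at h5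
    exact h5
  -- the upper bound
  have h4 : f n ≤ C₁ * ((J : ℝ) + 1) ^ 2 * ((2 + θ) ^ J * (2 : ℝ) ^ c) := by
    refine (hfbin k J n hn1).trans ?_
    set G : ℝ := (2 + θ) ^ J * (2 : ℝ) ^ c with hG
    have hG1 : 1 ≤ G := one_le_mul_of_one_le_of_one_le (one_le_pow₀ (by linarith))
      (one_le_pow₀ (by norm_num))
    have h5 : ∑ j ∈ range J, f (k * 2 ^ j) ≤ J * (C₀ * G) := by
      refine (Finset.sum_le_sum fun j hj => hgrow J j (Finset.mem_range.1 hj).le).trans ?_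
      rw [Finset.sum_const, Finset.card_range, nsmul_eq_mul]
    have h6 : 0 ≤ C₀ * G := by positivity
    have h7 : ((m + 2 : ℕ) : ℝ) * (k : ℝ) ^ 2 ≤
        ((J : ℝ) + 1) * (((m + 2 : ℕ) : ℝ) * (k : ℝ) ^ 2 * G) := by
      have h8 : ((m + 2 : ℕ) : ℝ) * (k : ℝ) ^ 2 ≤ ((m + 2 : ℕ) : ℝ) * (k : ℝ) ^ 2 * G :=
        le_mul_of_one_le_right (by positivity) hG1
      have h9 : 0 ≤ (J : ℝ) * (((m + 2 : ℕ) : ℝ) * (k : ℝ) ^ 2 * G) := by positivity
      linarith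
    have h8 : ((m + 2 : ℕ) : ℝ) * (k : ℝ) ^ 2 + ∑ j ∈ range J, f (k * 2 ^ j) ≤
        ((J : ℝ) + 1) * (C₁ * G) := by
      rw [hC₁]
      linarith
    calc ((J : ℝ) + 1) * (((m + 2 : ℕ) : ℝ) * (k : ℝ) ^ 2 + ∑ j ∈ range J, f (k * 2 ^ j)) ≤
          ((J : ℝ) + 1) * (((J : ℝ) + 1) * (C₁ * G)) :=
          mul_le_mul_of_nonneg_left h8 (by linarith)
      _ = _ := by ring
  have h5 : (2 + θ) ^ J * (2 : ℝ) ^ c ≤ (2 : ℝ) ^ ((1 + ε' / 4) * J) * (2 : ℝ) ^ ((κ - ε') * J) := by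
    have h6 : (2 + θ) ^ J = (2 : ℝ) ^ ((1 + ε' / 4) * J) := by
      have h7 : 2 + θ = (2 : ℝ) ^ (1 + ε' / 4) := by
        rw [h2θ, Real.rpow_add (by norm_num), Real.rpow_one]
      rw [h7, ← Real.rpow_natCast, ← Real.rpow_mul (by norm_num)]
    rw [h6]
    exact mul_le_mul_of_nonneg_left hc2 (by positivity)
  have h6 : L ^ 2 = (2 : ℝ) ^ ((1 + ε' / 4) * J) * (2 : ℝ) ^ ((κ - ε') * J) *
      ((2 : ℝ) ^ (ε' / 2)) ^ J := by
    rw [hLe, ← Real.rpow_natCast ((2 : ℝ) ^ (ν * J)) 2, ← Real.rpow_mul (by norm_num),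
      ← Real.rpow_natCast ((2 : ℝ) ^ (ε' / 2)) J, ← Real.rpow_mul (by norm_num),
      ← Real.rpow_add (by norm_num), ← Real.rpow_add (by norm_num)]
    congr 1
    rw [hν]
    push_cast
    ring
  have h7 : 0 < (2 : ℝ) ^ ((1 + ε' / 4) * J) * (2 : ℝ) ^ ((κ - ε') * J) := by positivity
  have h8 : 3 / 4 * L ^ 2 ≤ C₁ * ((J : ℝ) + 1) ^ 2 *
      ((2 : ℝ) ^ ((1 + ε' / 4) * J) * (2 : ℝ) ^ ((κ - ε') * J)) :=
    h3.trans (h4.trans (mul_le_mul_of_nonneg_left h5 (by positivity)))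
  rw [h6] at h8
  have h9 : 3 / 4 * ((2 : ℝ) ^ (ε' / 2)) ^ J ≤ C₁ * ((J : ℝ) + 1) ^ 2 := by
    refine le_of_mul_le_mul_right ?_ h7
    linarith
  linarith

end Pool.Agent.SawM2
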