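import Pool.Agent.SawM2.UArm3
import Pool.Agent.SawDiff.Erg

/-!
# Displacement of self-avoiding walks of bounded amplitude: definitions
-/

set_option autoImplicit false

namespace Pool.Agent.SawM2

open Finset Pool.Agent.Bub4 Pool.Agent.SawDiff

/-- the lattice -/
abbrev Zk (k : ℕ) := Fin k → ℤ

/-- frequencies -/
abbrev Rk (k : ℕ) := Fin k → ℝ

/-- `ℓ¹` norm on the lattice -/
def n1 {k : ℕ} (x : Zk k) : ℕ := ∑ i, (x i).natAbs

/-- the pairing `θ · x` -/
noncomputable def dt {k : ℕ} (θ : Rk k) (x : Zk k) : ℝ := ∑ i, θ i * (x i : ℝ)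

/-- the kernel `a ^ |x|` -/
noncomputable def ker {k : ℕ} (a : ℝ) (x : Zk k) : ℝ := a ^ n1 x

/-- the Fourier transform of the kernel -/
noncomputable def hk {k : ℕ} (a : ℝ) (θ : Rk k) : ℝ :=
  ∏ i, (1 - a ^ 2) / (1 - 2 * a * Real.cos (θ i) + a ^ 2)

/-- the box `[-π, π]^k` -/
def bx (k : ℕ) : Set (Rk k) := Set.pi Set.univ fun _ => Set.Icc (-Real.pi) Real.pi

/-- `h` is Lipschitz with constant `1 / L` (`ℓ¹` norm) -/
def Lip {k : ℕ} (L : ℝ) (h : Zk k → ℝ) : Prop := ∀ x y, |h x - h y| ≤ n1 (x - y) / L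

/-- `h` varies at most by the factor `a` per step -/
def Slo {k : ℕ} (a : ℝ) (h : Zk k → ℝ) : Prop := ∀ x y, a ^ n1 (x - y) * h x ≤ h y

/-- A finite family of weighted points (a finite signed measure on the lattice). -/
structure Fm (k : ℕ) where
  ι : Type
  [fin : Fintype ι]
  c : ι → ℝ
  x : ι → Zk k

attribute [instance] Fm.fin

namespace Fm

variable {k : ℕ}

/-- integral of a function -/
noncomputable def pr (μ : Fm k) (h : Zk k → ℝ) : ℝ := ∑ i, μ.c i * h (μ.x i)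

/-- total mass -/
noncomputable def mass (μ : Fm k) : ℝ := ∑ i, μ.c i

/-- Fourier transform -/
noncomputable def ft (μ : Fm k) (θ : Rk k) : ℂ :=
  ∑ i, (μ.c i : ℂ) * Complex.exp (Complex.I * (dt θ (μ.x i) : ℝ))

/-- nonnegative weights -/
def Nn (μ : Fm k) : Prop := ∀ i, 0 ≤ μ.c i

/-- domination -/
def Dom (μ ν : Fm k) : Prop := ∀ h : Zk k → ℝ, (∀ x, 0 ≤ h x) → μ.pr h ≤ ν.pr h

/-- convolution -/
def conv (μ ν : Fm k) : Fm k := ⟨μ.ι × ν.ι, fun i => μ.c i.1 * ν.c i.2, fun i => μ.x i.1 + ν.x i.2⟩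

/-- sum -/
def add (μ ν : Fm k) : Fm k := ⟨μ.ι ⊕ ν.ι, Sum.elim μ.c ν.c, Sum.elim μ.x ν.x⟩

/-- scalar multiple -/
def smul (r : ℝ) (μ : Fm k) : Fm k := ⟨μ.ι, fun i => r * μ.c i, μ.x⟩

/-- difference -/
def sub (μ ν : Fm k) : Fm k := μ.add (ν.smul (-1))

/-- sum over a finite set of indices -/
def bs {κ : Type} (s : Finset κ) (μ : κ → Fm k) : Fm k :=
  ⟨Σ j : s, (μ j).ι, fun i => (μ i.1).c i.2, fun i => (μ i.1).x i.2⟩

/-- smoothing by the kernel: `(K * μ) z` -/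
noncomputable def sm (a : ℝ) (μ : Fm k) (z : Zk k) : ℝ := μ.pr fun x => ker a (z - x)

/-- energy form `Σ μ x ν y K (x - y)` -/
noncomputable def en (a : ℝ) (μ ν : Fm k) : ℝ := μ.pr fun x => ν.pr fun y => ker a (x - y)

/-- norm -/
noncomputable def nr (a : ℝ) (μ : Fm k) : ℝ := Real.sqrt (en a μ μ)

end Fm

section words

variable {S V : Type} [Fintype S] [AddCommGroup V] {k : ℕ}

/-- the law of the displacement (under `π`) of words of length `n` with weight `F` -/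
noncomputable def lw (Y : Sys S V) (π : V →+ Zk k) (F : List S → ℝ) (n : ℕ) : Fm k :=
  ⟨Fin n → S, fun w => Y.z ^ n * F (List.ofFn w), fun w => π (Y.sm (List.ofFn w))⟩

/-- characteristic function of the displacement of words of length `n` -/
noncomputable def ph (Y : Sys S V) (π : V →+ Zk k) (ρ : List S → ℝ) (n : ℕ) (θ : Rk k) : ℂ :=
  (lw Y π ρ n).ft θ

/-- the reversed weight -/
def rv (ρ : List S → ℝ) : List S → ℝ := fun w => ρ w.reverse

open Classical in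
/-- at least half of the prefixes with length in `[n, 2 n)` are good -/
def Rg (Y : Sys S V) (ρ : List S → ℝ) (κ : ℝ) (n : ℕ) (w : List S) : Prop :=
  n ≤ 2 * ((Finset.Ico n (2 * n)).filter fun i => good Y ρ κ (w.take i)).card

/-- all good words of length less than `M`, weight `U` -/
noncomputable def GU (Y : Sys S V) (π : V →+ Zk k) (ρ : List S → ℝ) (κ : ℝ) (M : ℕ) : Fm k :=
  Fm.bs (range M) (lw Y π fun w => UU Y ρ w * ind (good Y ρ κ w))

/-- good regular words of length in `[4 n, M)`, weight `U` -/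
noncomputable def PU (Y : Sys S V) (π : V →+ Zk k) (ρ : List S → ℝ) (κ : ℝ) (n M : ℕ) : Fm k :=
  Fm.bs (Ico (4 * n) M) (lw Y π fun w => UU Y ρ w * ind (good Y ρ κ w ∧ Rg Y ρ κ n w))

/-- good regular words of length in `[4 n, M)`, weight `ρ` -/
noncomputable def PR (Y : Sys S V) (π : V →+ Zk k) (ρ : List S → ℝ) (κ : ℝ) (n M : ℕ) : Fm k :=
  Fm.bs (Ico (4 * n) M) (lw Y π fun w => ρ w * ind (good Y ρ κ w ∧ Rg Y ρ κ n w))

/-- the larger of the energies of `ρ` and of its reversal -/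
noncomputable def EE (Y : Sys S V) (π : V →+ Zk k) (ρ : List S → ℝ) (κ a : ℝ) (N : ℕ) : ℝ :=
  max (Fm.en a (GU Y π ρ κ N) (GU Y π ρ κ N)) (Fm.en a (GU Y π (rv ρ) κ N) (GU Y π (rv ρ) κ N))

/-- `N` is a record for the exponent `c` -/
def Rec (Y : Sys S V) (π : V →+ Zk k) (ρ : List S → ℝ) (κ a c : ℝ) (N : ℕ) : Prop :=
  ∀ M : ℕ, 1 ≤ M → M ≤ N → EE Y π ρ κ a M * (N : ℝ) ^ c ≤ EE Y π ρ κ a N * (M : ℝ) ^ c

/-- frequencies near `0` on which the characteristic functions are near `1` up to time `M` -/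
def Th (Y : Sys S V) (π : V →+ Zk k) (ρ : List S → ℝ) (d : ℝ) (M : ℕ) (r : ℝ) : Set (Rk k) :=
  {θ | (∀ i, |θ i| ≤ d) ∧ ∀ n ≤ M, ‖1 - ph Y π ρ n θ‖ ≤ r}

/-- The standing assumptions: an ergodic stationary law on self-avoiding words, bounded
amplitudes. -/
structure Erg (Y : Sys S V) (Λ K : ℝ) (ρ : List S → ℝ) : Prop where
  bulk : Bulk Y Λ ρ
  a_ge : ∀ n, 1 ≤ Y.a n
  a_le : ∀ n, Y.a n ≤ K
  erg : ∀ γ : List S, Filter.Tendsto (fun H => mf Y ρ γ H) Filter.atTop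
    (nhds ((Y.z ^ γ.length * ρ γ) ^ 2))

/-- one step changes every coordinate by at most `1` -/
def Stp (Y : Sys S V) (π : V →+ Zk k) : Prop := ∀ s i, |π (Y.vec s) i| ≤ 1

end words

end Pool.Agent.SawM2
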