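import Pool.Agent.SawM2.EnB

/-!
# Convolutions and monotonicity (module ENC)
-/

set_option autoImplicit false

namespace Pool.Agent.SawM2

open Finset MeasureTheory

variable {k : ℕ} {a : ℝ}

namespace Fm

/-- reflected and shifted family -/
private noncomputable def ENC_refl (ν : Fm k) (z : Zk k) : Fm k := ⟨ν.ι, ν.c, fun j => z - ν.x j⟩

/-- shifted family -/
private noncomputable def ENC_shift (ν : Fm k) (z : Zk k) : Fm k := ⟨ν.ι, ν.c, fun j => z + ν.x j⟩

private theorem ENC_refl_pr (ν : Fm k) (z : Zk k) (h : Zk k → ℝ) :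
    (ENC_refl ν z).pr h = ν.pr fun y => h (z - y) := rfl

private theorem ENC_shift_pr (ν : Fm k) (z : Zk k) (h : Zk k → ℝ) :
    (ENC_shift ν z).pr h = ν.pr fun y => h (z + y) := rfl

private theorem ENC_refl_en (a : ℝ) (ν : Fm k) (z : Zk k) :
    en a (ENC_refl ν z) (ENC_refl ν z) = en a ν ν := by
  unfold en
  rw [ENC_refl_pr]
  refine pr_congr _ fun x => ?_
  rw [ENC_refl_pr]
  refine pr_congr _ fun y => ?_
  rw [show z - x - (z - y) = y - x by abel, ker_sub_comm]

private theorem ENC_shift_en (a : ℝ) (ν : Fm k) (z : Zk k) :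
    en a (ENC_shift ν z) (ENC_shift ν z) = en a ν ν := by
  unfold en
  rw [ENC_shift_pr]
  refine pr_congr _ fun x => ?_
  rw [ENC_shift_pr]
  refine pr_congr _ fun y => ?_
  rw [show z + x - (z + y) = x - y by abel]

/-- ENC. `(K * μ * ν) z` is at most the product of the norms: Fourier representation
`sm_conv_fourier`, `|re (..)| ≤ ‖ft μ‖ ‖ft ν‖`, Cauchy-Schwarz for the integral (or
`2 x y ≤ t x² + y² / t`), `en_self_fourier`. -/
theorem sm_conv_le (ha0 : 0 < a) (ha1 : a < 1) (μ ν : Fm k) (z : Zk k) :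
    |sm a (conv μ ν) z| ≤ nr a μ * nr a ν := by
  have h1 : sm a (conv μ ν) z = en a μ (ENC_refl ν z) := by
    unfold sm en
    rw [pr_conv]
    refine pr_congr _ fun x => ?_
    rw [ENC_refl_pr]
    refine pr_congr _ fun y => ?_
    rw [show x - (z - y) = -(z - (x + y)) by abel, ker_neg]
  have h2 : nr a (ENC_refl ν z) = nr a ν := by
    unfold nr
    rw [ENC_refl_en]
  rw [h1, ← h2]
  exact en_cs ha0 ha1 μ _

/-- ENC. Convolution with a nonnegative family multiplies the norm at most by its mass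
(`‖ft Q‖ ≤ mass`, `Nn.norm_ft_le`, `en_self_fourier`, `ft_conv`). -/
theorem nr_conv_le (ha0 : 0 < a) (ha1 : a < 1) {Q : Fm k} (hQ : Q.Nn) (μ : Fm k) :
    nr a (conv Q μ) ≤ Q.mass * nr a μ := by
  have h0 : 0 ≤ nr a μ := Real.sqrt_nonneg _
  have h1 : en a (conv Q μ) (conv Q μ) =
      Q.pr fun q => Q.pr fun q' => en a (ENC_shift μ q) (ENC_shift μ q') := by
    unfold en
    rw [pr_conv]
    refine pr_congr _ fun q => ?_
    have h2 : (μ.pr fun y => (conv Q μ).pr fun y' => ker a (q + y - y')) =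
        μ.pr fun y => Q.pr fun q' => μ.pr fun y' => ker a (q + y - (q' + y')) :=
      pr_congr _ fun y => pr_conv _ _ _
    rw [h2, pr_comm]
    refine pr_congr _ fun q' => ?_
    rw [ENC_shift_pr]
    rfl
  have h2 : ∀ q, nr a (ENC_shift μ q) = nr a μ := by
    intro q
    unfold nr
    rw [ENC_shift_en]
  have h3 : en a (conv Q μ) (conv Q μ) ≤ (Q.mass * nr a μ) ^ 2 := by
    rw [h1]
    have h4 : ∀ q, (Q.pr fun q' => en a (ENC_shift μ q) (ENC_shift μ q')) ≤
        Q.mass * (nr a μ * nr a μ) := by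
      intro q
      refine hQ.pr_le fun q' => ?_
      have := (le_abs_self _).trans (en_cs ha0 ha1 (ENC_shift μ q) (ENC_shift μ q'))
      rwa [h2, h2] at this
    refine (hQ.pr_le h4).trans (le_of_eq ?_)
    ring
  unfold nr at *
  refine (Real.sqrt_le_sqrt h3).trans (le_of_eq ?_)
  exact Real.sqrt_sq (mul_nonneg hQ.mass_nonneg h0)

theorem sm_mono (ha0 : 0 < a) {μ ν : Fm k} (h : Dom μ ν) (z : Zk k) : sm a μ z ≤ sm a ν z :=
  h _ fun _ => ker_nonneg ha0.le _

/-- ENC. Monotonicity: all kernels are nonnegative. -/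
theorem nr_mono (ha0 : 0 < a) {μ ν : Fm k} (hμ : μ.Nn) (hν : ν.Nn) (h : Dom μ ν) :
    nr a μ ≤ nr a ν := by
  unfold nr
  apply Real.sqrt_le_sqrt
  unfold en
  calc (μ.pr fun x => μ.pr fun y => ker a (x - y)) ≤ ν.pr fun x => μ.pr fun y => ker a (x - y) :=
        h _ fun x => hμ.pr_nonneg fun y => ker_nonneg ha0.le _
    _ ≤ ν.pr fun x => ν.pr fun y => ker a (x - y) := by
        refine hν.pr_mono fun x => ?_
        exact h _ fun y => ker_nonneg ha0.le _

/-- ENC. The wide kernel (`hk_wide`, `en_self_fourier`). -/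
theorem en_wide (ha0 : 0 < a) (ha1 : a < 1) (μ : Fm k) :
    en (Real.sqrt a) μ μ ≤ 4 ^ k * en a μ μ := by
  have hs0 : 0 < Real.sqrt a := Real.sqrt_pos.mpr ha0
  have hs1 : Real.sqrt a < 1 := by
    rw [Real.sqrt_lt' one_pos]
    linarith
  have hc : IsCompact (bx k) := isCompact_univ_pi fun _ => isCompact_Icc
  have hint : ∀ b : ℝ, 0 < b → b < 1 →
      IntegrableOn (fun θ => hk b θ * ‖μ.ft θ‖ ^ 2) (bx k) := by
    intro b hb0 hb1
    apply ContinuousOn.integrableOn_compact hc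
    exact ((continuous_hk hb0 hb1).mul ((continuous_ft μ).norm.pow 2)).continuousOn
  have h1 := en_self_fourier hs0 hs1 μ
  have h2 := en_self_fourier ha0 ha1 μ
  have h3 : ∫ θ in bx k, hk (Real.sqrt a) θ * ‖μ.ft θ‖ ^ 2 ≤
      ∫ θ in bx k, 4 ^ k * (hk a θ * ‖μ.ft θ‖ ^ 2) := by
    apply setIntegral_mono (hint _ hs0 hs1) ((hint a ha0 ha1).const_mul _)
    intro θ
    simp only
    rw [← mul_assoc]
    exact mul_le_mul_of_nonneg_right (hk_wide ha0 ha1 θ) (by positivity)
  rw [integral_const_mul] at h3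
  rw [← h1, ← h2] at h3
  have hp : 0 < (2 * Real.pi) ^ k := by positivity
  have h4 : (2 * Real.pi) ^ k * en (Real.sqrt a) μ μ ≤
      (2 * Real.pi) ^ k * (4 ^ k * en a μ μ) := by
    refine h3.trans (le_of_eq ?_)
    ring
  exact le_of_mul_le_mul_left h4 hp

/-- ENC. Lower bound of the energy by the mass in a box. `K (x - y) ≥ 1` for `x = y` and `≥ 0`
otherwise: `en a μ μ ≥ Σ_{x ∈ box} (Σ_{i : x_i = x} c_i)²`, Cauchy-Schwarz over the `(2 R + 1)^k`
points of the box. -/
theorem en_ge_box (ha0 : 0 < a) {μ : Fm k} (hμ : μ.Nn) (R : ℕ) :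
    (μ.pr fun x => ind (∀ i, |x i| ≤ (R : ℤ))) ^ 2 ≤ (2 * (R : ℝ) + 1) ^ k * en a μ μ := by
  classical
  obtain ⟨B, hB⟩ : ∃ B : Finset (Zk k),
      B = Fintype.piFinset fun _ => Finset.Icc (-(R : ℤ)) (R : ℤ) := ⟨_, rfl⟩
  have hmem : ∀ x : Zk k, x ∈ B ↔ ∀ i, |x i| ≤ (R : ℤ) := by
    intro x
    rw [hB, Fintype.mem_piFinset]
    refine forall_congr' fun i => ?_
    rw [Finset.mem_Icc, abs_le]
  have hcard : (B.card : ℝ) = (2 * (R : ℝ) + 1) ^ k := by
    rw [hB, Fintype.card_piFinset_const, Int.card_Icc]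
    have : (((R : ℤ) + 1 - -(R : ℤ)).toNat) = 2 * R + 1 := by omega
    rw [this]
    push_cast
    ring
  -- the mass at a point
  have h1 : (μ.pr fun x => ind (∀ i, |x i| ≤ (R : ℤ))) =
      ∑ z ∈ B, μ.pr fun x => if x = z then 1 else 0 := by
    rw [← pr_fsum]
    refine pr_congr _ fun x => ?_
    rw [Finset.sum_ite_eq]
    unfold ind
    by_cases hx : x ∈ B
    · rw [if_pos ((hmem x).mp hx), if_pos hx]
    · rw [if_neg fun h => hx ((hmem x).mpr h), if_neg hx]
  have h2 : ∑ z ∈ B, (μ.pr fun x => if x = z then 1 else 0) ^ 2 ≤ en a μ μ := by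
    have h3 : ∀ z, (μ.pr fun x => if x = z then 1 else 0) ^ 2 =
        μ.pr fun x => μ.pr fun y => (if x = z then 1 else 0) * (if y = z then 1 else 0) := by
      intro z
      rw [sq, ← pr_mul_right]
      refine pr_congr _ fun x => ?_
      rw [pr_mul_left]
    simp only [h3]
    rw [← pr_fsum]
    unfold en
    refine hμ.pr_mono fun x => ?_
    rw [← pr_fsum]
    refine hμ.pr_mono fun y => ?_
    by_cases hxy : x = y
    · subst hxy
      rw [sub_self, ker_zero]
      have h4 : ∀ z ∈ B, ((if x = z then (1 : ℝ) else 0) * if x = z then 1 else 0) =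
          if x = z then 1 else 0 := by
        intro z _
        split_ifs <;> simp
      rw [Finset.sum_congr rfl h4, Finset.sum_ite_eq]
      split_ifs <;> norm_num
    · rw [Finset.sum_eq_zero]
      · exact ker_nonneg ha0.le _
      · intro z _
        by_cases hz : x = z
        · rw [if_neg (show ¬ y = z from fun h => hxy (hz.trans h.symm)), mul_zero]
        · rw [if_neg hz, zero_mul]
  rw [h1, ← hcard]
  refine (sq_sum_le_card_mul_sum_sq).trans ?_
  exact mul_le_mul_of_nonneg_left h2 (Nat.cast_nonneg _)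

end Fm

end Pool.Agent.SawM2
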