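import Pool.Agent.SawM2.Basic
import Pool.Agent.SawHole.Hole

/-!
# Parallelepipeds (module PARV)
-/

set_option autoImplicit false

namespace Pool.Agent.SawM2

open Finset MeasureTheory Pool.Agent.SawHole

/-- the parallelepiped `{Σ c_i T_i : |c_i| ≤ R}` -/
def pp {k : ℕ} (T : Fin k → Rk k) (R : ℝ) : Set (Rk k) :=
  {x | ∃ c : Rk k, (∀ i, |c i| ≤ R) ∧ x = ∑ i, c i • T i}

/-- PARV. Image of a set of coefficient vectors under `c ↦ Σ c_i T_i`: the volume is multiplied by
`|det T|` (`MeasureTheory.Measure.addHaar_image_linearMap`). -/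
theorem volume_comb {k : ℕ} (T : Fin k → Rk k) (Q : Set (Rk k)) :
    volume ((fun c : Rk k => ∑ i, c i • T i) '' Q) =
      ENNReal.ofReal |(Matrix.of T).det| * volume Q := by
  have h1 : (fun c : Rk k => ∑ i, c i • T i) =
      (Matrix.toLin' (Matrix.of T).transpose : (Fin k → ℝ) →ₗ[ℝ] (Fin k → ℝ)) := by
    funext c
    ext j
    rw [Matrix.toLin'_apply, Matrix.mulVec, dotProduct, Finset.sum_apply]
    refine Finset.sum_congr rfl fun i _ => ?_
    rw [Pi.smul_apply, smul_eq_mul, Matrix.transpose_apply, Matrix.of_apply, mul_comm]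
  rw [h1, MeasureTheory.Measure.addHaar_image_linearMap, LinearMap.det_toLin',
    Matrix.det_transpose]

/-- PARV. Volume of the parallelepiped. -/
theorem volume_pp {k : ℕ} (T : Fin k → Rk k) {R : ℝ} (hR : 0 ≤ R) :
    volume (pp T R) = ENNReal.ofReal ((2 * R) ^ k * |(Matrix.of T).det|) := by
  have h1 : pp T R = (fun c : Rk k => ∑ i, c i • T i) '' Set.Icc (fun _ => -R) (fun _ => R) := by
    ext x
    constructor
    · rintro ⟨c, hc, rfl⟩
      exact ⟨c, ⟨fun i => (abs_le.1 (hc i)).1, fun i => (abs_le.1 (hc i)).2⟩, rfl⟩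
    · rintro ⟨c, ⟨hc1, hc2⟩, rfl⟩
      exact ⟨c, fun i => abs_le.2 ⟨hc1 i, hc2 i⟩, rfl⟩
  rw [h1, volume_comb, Real.volume_Icc_pi]
  simp only [sub_neg_eq_add, Finset.prod_const, Finset.card_univ, Fintype.card_fin]
  rw [← ENNReal.ofReal_pow (by linarith), mul_comm, ← ENNReal.ofReal_mul (by positivity),
    two_mul]

/-- PARV. Elementary. -/
theorem pp_mono {k : ℕ} (T : Fin k → Rk k) {R R' : ℝ} (h : R ≤ R') : pp T R ⊆ pp T R' := by
  rintro x ⟨c, hc, rfl⟩
  exact ⟨c, fun i => (hc i).trans h, rfl⟩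

/-- PARV. `n`-fold sums of elements of `pp T 1` form `pp T n`; in particular
`pp T R ⊆ ms (pp T 1) n` if `R ≤ n`. -/
theorem pp_subset_ms {k : ℕ} (T : Fin k → Rk k) {R : ℝ} {n : ℕ} (h : R ≤ n) :
    pp T R ⊆ ms (pp T 1) n := by
  rintro x ⟨c, hc, rfl⟩
  rcases Nat.eq_zero_or_pos n with hn | hn
  · subst hn
    rw [mem_ms_zero]
    refine Finset.sum_eq_zero fun i _ => ?_
    have h1 : |c i| ≤ 0 := (hc i).trans (by exact_mod_cast h)
    rw [abs_nonpos_iff.1 h1, zero_smul]
  · have hn' : (0 : ℝ) < n := by exact_mod_cast hn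
    have h1 : ∑ i, c i • T i = n • ∑ i, (c i / n) • T i := by
      rw [Finset.smul_sum]
      refine Finset.sum_congr rfl fun i _ => ?_
      rw [← Nat.cast_smul_eq_nsmul ℝ, smul_smul]
      congr 1
      field_simp
    rw [h1]
    have h2 : (∑ i, (c i / n) • T i) ∈ pp T 1 := by
      refine ⟨fun i => c i / n, fun i => ?_, rfl⟩
      show |c i / n| ≤ 1
      rw [abs_div, abs_of_pos hn', div_le_one hn']
      exact (hc i).trans h
    exact nsmul_mem_ms h2 n

end Pool.Agent.SawM2
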