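import Pool.Agent.SawM2.Latt
import Pool.Agent.SawM2.ParV
import Pool.Agent.SawM2.EnC

/-!
# Data along records (section 7)
-/

set_option autoImplicit false

namespace Pool.Agent.SawM2

open Finset Filter MeasureTheory

/-- linear combination of the vectors of `T` -/
noncomputable def cmb {k : ℕ} (T : Fin k → Rk k) (c : Rk k) : Rk k := ∑ i, c i • T i

/-- scalar product -/
noncomputable def ip {k : ℕ} (u x : Rk k) : ℝ := ∑ i, u i * x i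

/-- Data along a family of records. `p n`: law of the displacement after `n` steps; `a i`: kernel
parameter; `N i`: the record; `E i`: its energy; `P T i`: the law of the good regular words of
length at most `T N i`; `A i`: the vectors of maximal determinant; `r`, `t`, `g`, `d`: constants.
`F` is an ultrafilter on the index set. -/
structure Dg {I : Type} (k : ℕ) (F : Ultrafilter I) (p : ℕ → Fm k) (a : I → ℝ) (N : I → ℕ)
    (E : I → ℝ) (P : ℕ → I → Fm k) (A : I → Fin k → Rk k) (r t g d : ℝ) : Prop where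
  k_pos : 1 ≤ k
  p_nn : ∀ n, (p n).Nn
  p_mass : ∀ n, (p n).mass = 1
  a_pos : ∀ᶠ i in (F : Filter I), 1 / 2 < a i
  a_lt : ∀ᶠ i in (F : Filter I), a i < 1
  a_lim : Tendsto a F (nhds 1)
  N_lim : Tendsto N F atTop
  E_pos : ∀ᶠ i in (F : Filter I), 0 < E i
  P_nn : ∀ T i, (P T i).Nn
  /-- (D1) the laws increase with the horizon -/
  P_mono : ∀ T T' i, T ≤ T' → (P T i).Dom (P T' i)
  /-- (D2) energies -/
  P_en : ∀ T, ∃ C : ℝ, 0 < C ∧ ∀ᶠ i in (F : Filter I), Fm.en (a i) (P T i) (P T i) ≤ C * E i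
  /-- (D3) sup bound, wide kernel -/
  P_sup : ∀ T, ∃ C : ℝ, 0 < C ∧ ∀ᶠ i in (F : Filter I), ∀ z,
    Fm.sm (Real.sqrt (a i)) (P T i) z ≤ C * E i / N i
  /-- (D4) mass -/
  P_mass : ∀ T i, (P T i).mass ≤ T * N i
  /-- (D5) convolution of two laws -/
  P_conv : ∀ (T : ℕ) (ε : ℝ), 0 < ε → ∀ᶠ i in (F : Filter I), ∀ f : Zk k → ℝ,
    (∀ x, 0 ≤ f x) → (∀ x, f x ≤ 1) → Lip (1 / (1 - a i)) f →
      (Fm.conv (P T i) (P T i)).pr f ≤ T * N i * (P (2 * T) i).pr f + ε * (N i : ℝ) ^ 2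
  /-- (D6) convolution with `p n` -/
  P_shift : ∀ (T : ℕ) (ε : ℝ), 0 < ε → ∀ᶠ i in (F : Filter I), ∀ n : ℕ, n ≤ T * N i →
    ∀ f : Zk k → ℝ, (∀ x, 0 ≤ f x) → (∀ x, f x ≤ 1) → Lip (1 / (1 - a i)) f →
      (Fm.conv (P T i) (p n)).pr f ≤ (P (2 * T) i).pr f + ε * N i
  /-- (D7) near independence of `j` consecutive blocks of length `n` -/
  p_ind : ∀ ε : ℝ, 0 < ε → ∀ᶠ i in (F : Filter I), ∀ (n j : ℕ) (h G bad : Zk k → ℝ),
    (∀ x, 0 ≤ h x) → (∀ x, h x ≤ 1) → Lip (1 / (1 - a i)) h → (∀ x, 0 ≤ bad x) →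
    (∀ x : Fin j → Zk k, G (∑ l, x l) ≤ (∏ l, h (x l)) + ∑ l, bad (x l)) →
      (p (j * n)).pr G ≤ ((p n).pr h) ^ j + j * (p n).pr bad + j * ε
  /-- (D7') the same from below -/
  p_ind' : ∀ ε : ℝ, 0 < ε → ∀ᶠ i in (F : Filter I), ∀ (n j : ℕ) (h G : Zk k → ℝ),
    (∀ x, 0 ≤ h x) → (∀ x, h x ≤ 1) → Lip (1 / (1 - a i)) h →
    (∀ x : Fin j → Zk k, (∏ l, h (x l)) ≤ G (∑ l, x l)) →
      ((p n).pr h) ^ j ≤ (p (j * n)).pr G + j * ε
  /-- (D14) a few more steps -/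
  p_step : ∀ (n s : ℕ) (L : ℝ) (f : Zk k → ℝ), 0 < L → Lip L f →
    |(p (n + s)).pr f - (p n).pr f| ≤ k * s / L
  /-- (D8) lower bound for the law of the good regular words -/
  P_ge : ∀ ε : ℝ, 0 < ε → ∀ᶠ i in (F : Filter I), ∀ f : Zk k → ℝ,
    (∀ x, 0 ≤ f x) → (∀ x, f x ≤ 1) → Lip (1 / (1 - a i)) f →
      1 / 2 * (∑ n ∈ Ico (N i / 2) (N i), (p n).pr f) - ε * N i ≤ (P 1 i).pr f
  /-- (D9) characteristic functions on the parallelepiped for small times -/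
  t_pos : 0 < t
  t_le : t ≤ 1
  r_pos : 0 < r
  r_le : r ≤ 1 / (100 * k)
  near_one : ∀ q : ℕ, 1 ≤ q → ∀ᶠ i in (F : Filter I), ∀ c : Rk k, (∀ l, |c l| ≤ 1) → ∀ n : ℕ,
    (n * q : ℝ) ≤ t * N i → ‖1 - (p n).ft (cmb (A i) c)‖ ≤ 3 * r / q
  /-- (D10) volume of the set of frequencies where the characteristic functions are near one -/
  d_pos : 0 < d
  g_lt : g < ((k : ℝ) + 1) / 2
  vol : ∃ C : ℝ, 0 < C ∧ ∀ j : ℕ, 1 ≤ j → ∀ᶠ i in (F : Filter I),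
    volume {θ : Rk k | (∀ l, |θ l| ≤ d) ∧ ∀ n : ℕ, (n * j : ℝ) ≤ t * N i →
      ‖1 - (p n).ft θ‖ ≤ r} ≤ ENNReal.ofReal (C * (j : ℝ) ^ g * |(Matrix.of (A i)).det|)
  /-- (D11) the determinant is comparable with the energy -/
  det_ne : ∀ᶠ i in (F : Filter I), (Matrix.of (A i)).det ≠ 0
  det_cmp : ∃ C : ℝ, 0 < C ∧ ∀ᶠ i in (F : Filter I),
    |(Matrix.of (A i)).det| ≤ C * ((1 - a i) ^ k * E i / (N i : ℝ) ^ 2) ∧
      (1 - a i) ^ k * E i / (N i : ℝ) ^ 2 ≤ C * |(Matrix.of (A i)).det|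
  /-- (D12) the vectors are small compared with `1 - a i` -/
  A_lim : ∀ ε : ℝ, 0 < ε → ∀ᶠ i in (F : Filter I), ∀ l m, |A i l m| ≤ ε * (1 - a i)
  /-- (D13) no energy far out -/
  tail : ∀ (T : ℕ) (ε : ℝ), 0 < ε → ∃ R : ℝ, 0 < R ∧ ∀ᶠ i in (F : Filter I),
    ∫ θ in bx k \ pp (A i) R, hk (a i) θ * ‖(P T i).ft θ‖ ^ 2 ≤ ε * E i

section defs

variable {I : Type} {k : ℕ} (F : Ultrafilter I) (p : ℕ → Fm k) (a : I → ℝ) (N : I → ℕ)
  (E : I → ℝ) (P : ℕ → I → Fm k) (A : I → Fin k → Rk k)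

/-- points with positive rescaled density -/
def Wt (T : ℕ) : Set (Rk k) :=
  {x | ∃ c : ℝ, 0 < c ∧ ∃ η : ℝ, 0 < η ∧ ∀ᶠ i in (F : Filter I), ∀ z : Zk k,
    (∀ l, |rs (A i) z l - x l| ≤ η) →
      c * E i ≤ Fm.sm (a i) (Fm.conv (P T i) (P T i)) z}

/-- `x` is charged along the times `n i` -/
def Chg (n : I → ℕ) (x : Rk k) : Prop :=
  ∀ η : ℝ, 0 < η → ∃ c : ℝ, 0 < c ∧ ∀ᶠ i in (F : Filter I),
    c ≤ (p (n i)).pr fun z => ind (∀ l, |rs (A i) z l - x l| ≤ η)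

/-- the rescaled displacements have asymptotically no mass in bounded parts of `{u · x < 0}` -/
def Hlf (u : Rk k) : Prop :=
  ∀ (T : ℕ) (R η ε : ℝ), 0 < η → 0 < ε → ∀ᶠ i in (F : Filter I), ∀ n : ℕ, n ≤ T * N i →
    ((p n).pr fun z => ind ((∀ l, |rs (A i) z l| ≤ R) ∧ ip u (rs (A i) z) ≤ -η)) ≤ ε

end defs

end Pool.Agent.SawM2
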