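import Pool.Agent.SawM2.Basic

/-!
# Bounds for the transform of the kernel (module KERC)
-/

set_option autoImplicit false

namespace Pool.Agent.SawM2

open Finset MeasureTheory

variable {k : ℕ} {a : ℝ}

private theorem kerC_den (ha0 : 0 < a) (t : ℝ) :
    (1 - a) ^ 2 ≤ 1 - 2 * a * Real.cos t + a ^ 2 := by
  nlinarith [mul_nonneg ha0.le (sub_nonneg.2 (Real.cos_le_one t))]

private theorem kerC_den_pos (ha0 : 0 < a) (ha1 : a < 1) (t : ℝ) :
    0 < 1 - 2 * a * Real.cos t + a ^ 2 :=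
  lt_of_lt_of_le (pow_pos (sub_pos.2 ha1) 2) (kerC_den ha0 t)

private theorem kerC_num_pos (ha0 : 0 < a) (ha1 : a < 1) : 0 < 1 - a ^ 2 := by nlinarith

private theorem kerC_pos (ha0 : 0 < a) (ha1 : a < 1) (t : ℝ) :
    0 < (1 - a ^ 2) / (1 - 2 * a * Real.cos t + a ^ 2) :=
  div_pos (kerC_num_pos ha0 ha1) (kerC_den_pos ha0 ha1 t)

private theorem kerC_zero (ha1 : a < 1) :
    (1 - a ^ 2) / (1 - 2 * a * Real.cos 0 + a ^ 2) = (1 + a) / (1 - a) := by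
  have h : 1 - a ≠ 0 := (sub_pos.2 ha1).ne'
  rw [Real.cos_zero, show 1 - 2 * a * 1 + a ^ 2 = (1 - a) * (1 - a) by ring,
    show 1 - a ^ 2 = (1 + a) * (1 - a) by ring]
  exact mul_div_mul_right _ _ h

private theorem kerC_le_zero (ha0 : 0 < a) (ha1 : a < 1) (t : ℝ) :
    (1 - a ^ 2) / (1 - 2 * a * Real.cos t + a ^ 2) ≤ (1 + a) / (1 - a) := by
  have h1 := kerC_den ha0 (a := a) t
  have h2 : 0 < 1 - a := sub_pos.2 ha1
  rw [div_le_div_iff₀ (kerC_den_pos ha0 ha1 t) h2]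
  have h3 : (1 - a ^ 2) * (1 - a) = (1 + a) * (1 - a) ^ 2 := by ring
  rw [h3]
  exact mul_le_mul_of_nonneg_left h1 (by linarith)

private theorem kerC_le (ha0 : 0 < a) (ha1 : a < 1) (t : ℝ) :
    (1 - a ^ 2) / (1 - 2 * a * Real.cos t + a ^ 2) ≤ 2 / (1 - a) := by
  refine (kerC_le_zero ha0 ha1 t).trans ?_
  have h2 : 0 < 1 - a := sub_pos.2 ha1
  exact div_le_div_of_nonneg_right (by linarith) h2.le

/-- KERC. `1 - 2 a cos t + a² = (1 - a)² + 2 a (1 - cos t)` is positive. -/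
theorem hk_pos (ha0 : 0 < a) (ha1 : a < 1) (θ : Rk k) : 0 < hk a θ := by
  exact Finset.prod_pos fun i _ => kerC_pos ha0 ha1 _

theorem continuous_hk (ha0 : 0 < a) (ha1 : a < 1) : Continuous (hk (k := k) a) := by
  unfold hk
  refine continuous_finsetProd _ fun i _ => ?_
  refine Continuous.div (by fun_prop) (by fun_prop) fun θ => ?_
  exact (kerC_den_pos ha0 ha1 _).ne'

/-- every factor is at most `(1 - a²) / (1 - a)² = (1 + a) / (1 - a) ≤ 2 / (1 - a)` -/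
theorem hk_le (ha0 : 0 < a) (ha1 : a < 1) (θ : Rk k) : hk a θ ≤ (2 / (1 - a)) ^ k := by
  unfold hk
  calc ∏ i, (1 - a ^ 2) / (1 - 2 * a * Real.cos (θ i) + a ^ 2)
      ≤ ∏ _i : Fin k, 2 / (1 - a) :=
        Finset.prod_le_prod (fun i _ => (kerC_pos ha0 ha1 _).le) fun i _ => kerC_le ha0 ha1 _
    _ = (2 / (1 - a)) ^ k := by rw [Finset.prod_const, Finset.card_univ, Fintype.card_fin]

/-- `hk a 0 = ((1 + a) / (1 - a))^k` -/
theorem hk_zero (ha0 : 0 < a) (ha1 : a < 1) : hk a (0 : Rk k) = ((1 + a) / (1 - a)) ^ k := by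
  unfold hk
  have h : ∀ i : Fin k, (1 - a ^ 2) / (1 - 2 * a * Real.cos ((0 : Rk k) i) + a ^ 2) =
      (1 + a) / (1 - a) := fun i => kerC_zero ha1
  rw [Finset.prod_congr rfl fun i _ => h i, Finset.prod_const, Finset.card_univ,
    Fintype.card_fin]

/-- If `|θ_i| ≤ 1 - a`, then `1 - cos θ_i ≤ θ_i² / 2 ≤ (1 - a)² / 2`, so the denominator is at most
`2 (1 - a)²` and the factor at least `(1 + a) / (2 (1 - a)) ≥ 1 / (2 (1 - a))`. -/
theorem hk_ge (ha0 : 0 < a) (ha1 : a < 1) {θ : Rk k} (h : ∀ i, |θ i| ≤ 1 - a) :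
    (1 / (2 * (1 - a))) ^ k ≤ hk a θ := by
  unfold hk
  calc (1 / (2 * (1 - a))) ^ k = ∏ _i : Fin k, 1 / (2 * (1 - a)) := by simp
    _ ≤ ∏ i, (1 - a ^ 2) / (1 - 2 * a * Real.cos (θ i) + a ^ 2) := by
        refine Finset.prod_le_prod (fun i _ => ?_) fun i _ => ?_
        · have : 0 < 1 - a := sub_pos.2 ha1
          positivity
        · have h2 : 0 < 1 - a := sub_pos.2 ha1
          rw [div_le_div_iff₀ (by positivity) (kerC_den_pos ha0 ha1 _)]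
          have h3 := Real.one_sub_sq_div_two_le_cos (x := θ i)
          have h4 : (θ i) ^ 2 ≤ (1 - a) ^ 2 := by
            rw [← sq_abs (θ i)]
            exact pow_le_pow_left₀ (abs_nonneg _) (h i) 2
          nlinarith [mul_le_mul_of_nonneg_left h3 ha0.le, mul_le_mul_of_nonneg_left h4 ha0.le,
            mul_pos ha0 h2, sq_nonneg (1 - a), mul_pos (mul_pos ha0 h2) h2, pow_pos h2 2]

/-- If `δ ≤ |θ_i| ≤ π` for one `i`, then `1 - cos θ_i ≥ 2 θ_i² / π²` (Jordan,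
`Real.one_sub_cos ..`, or `1 - cos t = 2 sin² (t/2)` and `Real.mul_le_sin`), so this factor is at
most `(1 - a²) π² / (4 a δ²) ≤ (1 - a) π² / δ²` (`a ≥ 1/2`); the other factors are at most
`2 / (1 - a)`. -/
theorem hk_high (ha0 : 1 / 2 ≤ a) (ha1 : a < 1) {δ : ℝ} (hδ : 0 < δ) {θ : Rk k} (hθ : θ ∈ bx k)
    {i : Fin k} (h : δ ≤ |θ i|) :
    hk a θ ≤ (2 / (1 - a)) ^ k * ((1 - a) ^ 2 * Real.pi ^ 2 / (2 * δ ^ 2)) := by
  have ha : 0 < a := by linarith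
  have h2 : 0 < 1 - a := sub_pos.2 ha1
  have hpi : 0 < Real.pi := Real.pi_pos
  have hi : (1 - a ^ 2) / (1 - 2 * a * Real.cos (θ i) + a ^ 2) ≤
      2 / (1 - a) * ((1 - a) ^ 2 * Real.pi ^ 2 / (2 * δ ^ 2)) := by
    have e : 2 / (1 - a) * ((1 - a) ^ 2 * Real.pi ^ 2 / (2 * δ ^ 2)) =
        (1 - a) * Real.pi ^ 2 / δ ^ 2 := by
      field_simp
    rw [e, div_le_div_iff₀ (kerC_den_pos ha ha1 _) (by positivity)]
    have hm : θ i ∈ Set.Icc (-Real.pi) Real.pi := hθ i (Set.mem_univ _)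
    have h3 := Real.cos_le_one_sub_mul_cos_sq (abs_le.2 hm)
    have h4 : δ ^ 2 ≤ (θ i) ^ 2 := by
      rw [← sq_abs (θ i)]
      exact pow_le_pow_left₀ hδ.le h 2
    have h5 : 2 * (θ i) ^ 2 ≤ (1 - Real.cos (θ i)) * Real.pi ^ 2 := by
      have h6 : 2 / Real.pi ^ 2 * (θ i) ^ 2 ≤ 1 - Real.cos (θ i) := by linarith
      have h7 := mul_le_mul_of_nonneg_right h6 (sq_nonneg Real.pi)
      have h8 : 2 / Real.pi ^ 2 * (θ i) ^ 2 * Real.pi ^ 2 = 2 * (θ i) ^ 2 := by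
        field_simp
      rw [h8] at h7
      exact h7
    have h9 : 2 * δ ^ 2 ≤ (1 - Real.cos (θ i)) * Real.pi ^ 2 := by linarith
    have h10 : (1 + a) * δ ^ 2 ≤ (1 - 2 * a * Real.cos (θ i) + a ^ 2) * Real.pi ^ 2 := by
      have h11 : 2 * a * (2 * δ ^ 2) ≤ 2 * a * ((1 - Real.cos (θ i)) * Real.pi ^ 2) :=
        mul_le_mul_of_nonneg_left h9 (by linarith)
      nlinarith [sq_nonneg δ, mul_nonneg (sq_nonneg (1 - a)) (sq_nonneg Real.pi)]
    have h12 := mul_le_mul_of_nonneg_left h10 h2.le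
    nlinarith
  unfold hk
  rw [← Finset.mul_prod_erase _ _ (Finset.mem_univ i)]
  have hp : ∏ j ∈ Finset.univ.erase i, (1 - a ^ 2) / (1 - 2 * a * Real.cos (θ j) + a ^ 2) ≤
      (2 / (1 - a)) ^ (k - 1) := by
    calc ∏ j ∈ Finset.univ.erase i, (1 - a ^ 2) / (1 - 2 * a * Real.cos (θ j) + a ^ 2)
        ≤ ∏ _j ∈ Finset.univ.erase i, 2 / (1 - a) :=
          Finset.prod_le_prod (fun i _ => (kerC_pos ha ha1 _).le) fun i _ => kerC_le ha ha1 _
      _ = (2 / (1 - a)) ^ (k - 1) := by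
          rw [Finset.prod_const, Finset.card_erase_of_mem (Finset.mem_univ i), Finset.card_univ,
            Fintype.card_fin]
  have hk1 : 1 ≤ k := by
    rcases Nat.eq_zero_or_pos k with h0 | h0
    · subst h0
      exact i.elim0
    · exact h0
  have hpow : (2 / (1 - a)) ^ k = 2 / (1 - a) * (2 / (1 - a)) ^ (k - 1) := by
    rw [← pow_succ']
    congr 1
    omega
  rw [hpow]
  have hb : 0 ≤ 2 / (1 - a) * ((1 - a) ^ 2 * Real.pi ^ 2 / (2 * δ ^ 2)) := by positivity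
  refine (mul_le_mul hi hp (Finset.prod_nonneg fun j _ => (kerC_pos ha ha1 _).le) hb).trans ?_
  apply le_of_eq
  ring

/-- Every factor for `√a` is at most `4` times the factor for `a`: with `s = √a`,
`(1 - s²) ((1 - a)² + 2 a (1 - cos)) ≤ 4 (1 - a²) ((1 - s)² + 2 s (1 - cos))`, because
`(1 - a)² = (1 - s)² (1 + s)² ≤ 4 (1 - s)²`, `a ≤ s` and `1 - s² = 1 - a ≤ 1 - a²`. -/
theorem hk_wide (ha0 : 0 < a) (ha1 : a < 1) (θ : Rk k) :
    hk (Real.sqrt a) θ ≤ 4 ^ k * hk a θ := by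
  have hs0 : 0 < Real.sqrt a := Real.sqrt_pos.2 ha0
  have hsq : Real.sqrt a ^ 2 = a := Real.sq_sqrt ha0.le
  have hs1 : Real.sqrt a < 1 := by
    rw [Real.sqrt_lt' one_pos]
    linarith
  set s := Real.sqrt a with hs
  have h2 : 0 < 1 - a := sub_pos.2 ha1
  have has : a ≤ s := by nlinarith
  have hf : ∀ t : ℝ, (1 - s ^ 2) / (1 - 2 * s * Real.cos t + s ^ 2) ≤
      4 * ((1 - a ^ 2) / (1 - 2 * a * Real.cos t + a ^ 2)) := by
    intro t
    rw [← mul_div_assoc, div_le_div_iff₀ (kerC_den_pos hs0 hs1 _) (kerC_den_pos ha0 ha1 _)]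
    have hc := Real.cos_le_one t
    have h3 : (1 - a) ^ 2 ≤ 4 * (1 - s) ^ 2 := by
      have : (1 - a) ^ 2 = (1 - s) ^ 2 * (1 + s) ^ 2 := by rw [← hsq]; ring
      rw [this]
      nlinarith [mul_nonneg (sq_nonneg (1 - s)) (by nlinarith : 0 ≤ 4 - (1 + s) ^ 2)]
    have h4 : 1 - 2 * a * Real.cos t + a ^ 2 ≤ 4 * (1 - 2 * s * Real.cos t + s ^ 2) := by
      have h5 : a * (1 - Real.cos t) ≤ s * (1 - Real.cos t) :=
        mul_le_mul_of_nonneg_right has (by linarith)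
      nlinarith [mul_nonneg hs0.le (by linarith : 0 ≤ 1 - Real.cos t)]
    have h6 : 1 - s ^ 2 = 1 - a := by rw [hsq]
    rw [h6]
    have h7 : 0 < 1 - 2 * s * Real.cos t + s ^ 2 := kerC_den_pos hs0 hs1 _
    calc (1 - a) * (1 - 2 * a * Real.cos t + a ^ 2)
        ≤ (1 - a) * (4 * (1 - 2 * s * Real.cos t + s ^ 2)) :=
          mul_le_mul_of_nonneg_left h4 h2.le
      _ ≤ 4 * (1 - a ^ 2) * (1 - 2 * s * Real.cos t + s ^ 2) := by
          nlinarith [mul_nonneg (mul_nonneg ha0.le h2.le) h7.le]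
  unfold hk
  calc ∏ i, (1 - s ^ 2) / (1 - 2 * s * Real.cos (θ i) + s ^ 2)
      ≤ ∏ i, 4 * ((1 - a ^ 2) / (1 - 2 * a * Real.cos (θ i) + a ^ 2)) :=
        Finset.prod_le_prod (fun i _ => (kerC_pos hs0 hs1 _).le) fun i _ => hf _
    _ = 4 ^ k * ∏ i, (1 - a ^ 2) / (1 - 2 * a * Real.cos (θ i) + a ^ 2) := by
        rw [Finset.prod_mul_distrib]
        simp

/-- Near `0` the transform is flat: `(1 - a)² / ((1 - a)² + 2 a (1 - cos t)) ≥
1 / (1 + t² / (1 - a)²) ≥ 1 - e²` if `|t| ≤ e (1 - a)`; Bernoulli for the product. -/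
theorem hk_flat (ha0 : 0 < a) (ha1 : a < 1) {e : ℝ} (he0 : 0 ≤ e) (he1 : e ≤ 1) {θ : Rk k}
    (h : ∀ i, |θ i| ≤ e * (1 - a)) : (1 - k * e ^ 2) * hk a (0 : Rk k) ≤ hk a θ := by
  have h2 : 0 < 1 - a := sub_pos.2 ha1
  have hf : ∀ i, (1 - e ^ 2) * ((1 + a) / (1 - a)) ≤
      (1 - a ^ 2) / (1 - 2 * a * Real.cos (θ i) + a ^ 2) := by
    intro i
    rw [← mul_div_assoc, div_le_div_iff₀ h2 (kerC_den_pos ha0 ha1 _)]
    have h3 := Real.one_sub_sq_div_two_le_cos (x := θ i)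
    have h4 : (θ i) ^ 2 ≤ (e * (1 - a)) ^ 2 := by
      rw [← sq_abs (θ i)]
      exact pow_le_pow_left₀ (abs_nonneg _) (h i) 2
    have h5 : 1 - 2 * a * Real.cos (θ i) + a ^ 2 ≤ (1 + e ^ 2) * (1 - a) ^ 2 := by
      have h6 : 2 * a * (1 - Real.cos (θ i)) ≤ a * (e * (1 - a)) ^ 2 := by
        nlinarith [mul_le_mul_of_nonneg_left h3 ha0.le, mul_le_mul_of_nonneg_left h4 ha0.le]
      have h7 : a * (e * (1 - a)) ^ 2 ≤ 1 * (e * (1 - a)) ^ 2 :=
        mul_le_mul_of_nonneg_right ha1.le (sq_nonneg _)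
      nlinarith
    have h8 : 0 ≤ 1 - e ^ 2 := by nlinarith
    calc (1 - e ^ 2) * (1 + a) * (1 - 2 * a * Real.cos (θ i) + a ^ 2)
        ≤ (1 - e ^ 2) * (1 + a) * ((1 + e ^ 2) * (1 - a) ^ 2) :=
          mul_le_mul_of_nonneg_left h5 (mul_nonneg h8 (by linarith))
      _ = (1 - e ^ 4) * ((1 - a ^ 2) * (1 - a)) := by ring
      _ ≤ 1 * ((1 - a ^ 2) * (1 - a)) := by
          refine mul_le_mul_of_nonneg_right ?_
            (mul_nonneg (kerC_num_pos ha0 ha1).le h2.le)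
          have : 0 ≤ e ^ 4 := by positivity
          linarith
      _ = (1 - a ^ 2) * (1 - a) := one_mul _
  rw [hk_zero ha0 ha1]
  have hq : 0 ≤ (1 + a) / (1 - a) := by positivity
  have h8 : 0 ≤ 1 - e ^ 2 := by nlinarith
  have hber : 1 - k * e ^ 2 ≤ (1 - e ^ 2) ^ k := by
    have := one_add_mul_le_pow (a := -e ^ 2) (by nlinarith) k
    have e1 : (1 : ℝ) + k * (-e ^ 2) = 1 - k * e ^ 2 := by ring
    have e2 : (1 : ℝ) + -e ^ 2 = 1 - e ^ 2 := by ring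
    rw [e1, e2] at this
    exact this
  calc (1 - k * e ^ 2) * ((1 + a) / (1 - a)) ^ k
      ≤ (1 - e ^ 2) ^ k * ((1 + a) / (1 - a)) ^ k :=
        mul_le_mul_of_nonneg_right hber (pow_nonneg hq k)
    _ = ∏ _i : Fin k, (1 - e ^ 2) * ((1 + a) / (1 - a)) := by
        rw [← mul_pow]
        simp
    _ ≤ ∏ i, (1 - a ^ 2) / (1 - 2 * a * Real.cos (θ i) + a ^ 2) :=
        Finset.prod_le_prod (fun i _ => mul_nonneg h8 hq) fun i _ => hf i

/-- `hk a θ ≤ hk a 0` -/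
theorem hk_le_zero (ha0 : 0 < a) (ha1 : a < 1) (θ : Rk k) : hk a θ ≤ hk a (0 : Rk k) := by
  rw [hk_zero ha0 ha1]
  unfold hk
  calc ∏ i, (1 - a ^ 2) / (1 - 2 * a * Real.cos (θ i) + a ^ 2)
      ≤ ∏ _i : Fin k, (1 + a) / (1 - a) :=
        Finset.prod_le_prod (fun i _ => (kerC_pos ha0 ha1 _).le) fun i _ => kerC_le_zero ha0 ha1 _
    _ = ((1 + a) / (1 - a)) ^ k := by
        rw [Finset.prod_const, Finset.card_univ, Fintype.card_fin]

end Pool.Agent.SawM2
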