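import Pool.Agent.SawM2.KerA
import Pool.Agent.SawM2.KerC

/-!
# Energies and Fourier transforms (module ENA)
-/

set_option autoImplicit false

namespace Pool.Agent.SawM2

open Finset MeasureTheory

variable {k : ℕ} {a : ℝ}

namespace Fm

private theorem EnA_int (ha0 : 0 < a) (ha1 : a < 1) (x : Zk k) :
    IntegrableOn (fun θ : Rk k => ((hk a θ : ℝ) : ℂ) * Complex.exp (Complex.I * (dt θ x : ℝ)))
      (bx k) := by
  have hc : IsCompact (bx k) := isCompact_univ_pi fun _ => isCompact_Icc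
  have h1 : Continuous fun θ : Rk k => ((hk a θ : ℝ) : ℂ) :=
    Complex.continuous_ofReal.comp (continuous_hk ha0 ha1)
  have h2 : Continuous fun θ : Rk k => Complex.exp (Complex.I * (dt θ x : ℝ)) := by
    unfold dt
    fun_prop
  exact (h1.mul h2).continuousOn.integrableOn_compact hc

private theorem EnA_int2 (ha0 : 0 < a) (ha1 : a < 1) (σ : Fm k) :
    IntegrableOn (fun θ : Rk k => ((hk a θ : ℝ) : ℂ) * σ.ft θ) (bx k) := by
  have hc : IsCompact (bx k) := isCompact_univ_pi fun _ => isCompact_Icc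
  have h1 : Continuous fun θ : Rk k => ((hk a θ : ℝ) : ℂ) :=
    Complex.continuous_ofReal.comp (continuous_hk ha0 ha1)
  exact (h1.mul (continuous_ft σ)).continuousOn.integrableOn_compact hc

private theorem EnA_fam (ha0 : 0 < a) (ha1 : a < 1) (σ : Fm k) :
    ∫ θ in bx k, ((hk a θ : ℝ) : ℂ) * σ.ft θ =
      (((2 * Real.pi) ^ k * σ.pr (ker a) : ℝ) : ℂ) := by
  have h1 : ∀ θ : Rk k, ((hk a θ : ℝ) : ℂ) * σ.ft θ =
      ∑ i, (σ.c i : ℂ) * (((hk a θ : ℝ) : ℂ) * Complex.exp (Complex.I * (dt θ (σ.x i) : ℝ))) := by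
    intro θ
    unfold ft
    rw [Finset.mul_sum]
    exact Finset.sum_congr rfl fun i _ => by ring
  rw [integral_congr_ae (Filter.Eventually.of_forall h1),
    integral_finsetSum _ fun i _ => (EnA_int ha0 ha1 (σ.x i)).const_mul _]
  unfold pr
  rw [Finset.mul_sum]
  push_cast
  refine Finset.sum_congr rfl fun i _ => ?_
  rw [integral_const_mul, ker_fourier ha0 ha1]
  push_cast
  ring

private theorem EnA_re (ha0 : 0 < a) (ha1 : a < 1) (σ : Fm k) :
    ∫ θ in bx k, hk a θ * (σ.ft θ).re = (2 * Real.pi) ^ k * σ.pr (ker a) := by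
  have h1 := integral_re (EnA_int2 ha0 ha1 σ)
  rw [EnA_fam ha0 ha1 σ] at h1
  have h2 : ∀ θ : Rk k, hk a θ * (σ.ft θ).re =
      RCLike.re (((hk a θ : ℝ) : ℂ) * σ.ft θ) := by
    intro θ
    exact (Complex.re_ofReal_mul _ _).symm
  rw [integral_congr_ae (Filter.Eventually.of_forall h2), h1]
  exact Complex.ofReal_re _

/-- reflected family -/
private def EnA_ng (ν : Fm k) : Fm k := ⟨ν.ι, ν.c, fun i => - ν.x i⟩

private theorem EnA_ft_ng (ν : Fm k) (θ : Rk k) :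
    (EnA_ng ν).ft θ = (starRingEnd ℂ) (ν.ft θ) := by
  rw [← ft_neg]
  unfold ft EnA_ng
  refine Finset.sum_congr rfl fun i _ => ?_
  rw [dt_neg_right, dt_neg_left]

private theorem EnA_pr_ng (ν : Fm k) (h : Zk k → ℝ) : (EnA_ng ν).pr h = ν.pr fun y => h (-y) := rfl

/-- translated family -/
private def EnA_tr (ν : Fm k) (z : Zk k) : Fm k := ⟨ν.ι, ν.c, fun i => ν.x i - z⟩

private theorem EnA_ft_tr (ν : Fm k) (z : Zk k) (θ : Rk k) :
    (EnA_tr ν z).ft θ = ν.ft θ * Complex.exp (-(Complex.I * (dt θ z : ℝ))) := by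
  unfold ft EnA_tr
  rw [Finset.sum_mul]
  refine Finset.sum_congr rfl fun i _ => ?_
  rw [dt_sub_right, mul_assoc, ← Complex.exp_add]
  congr 2
  push_cast
  ring

private theorem EnA_pr_tr (ν : Fm k) (z : Zk k) (h : Zk k → ℝ) :
    (EnA_tr ν z).pr h = ν.pr fun y => h (y - z) := rfl

/-- ENA. Energy and Fourier transform. Proof: expand `μ.ft θ * conj (ν.ft θ)` as the double sum of
`c_i d_j exp (I dt θ (x_i - y_j))`, exchange the finite sums with the integral
(`MeasureTheory.integral_finset_sum`, integrability: continuous functions on the compact `bx k`,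
`ContinuousOn.integrableOn_compact`, `isCompact_univ_pi`), and use `ker_fourier` (take real parts:
`integral_re`/`Complex.reCLM.integral_comp_comm`). -/
theorem en_fourier (ha0 : 0 < a) (ha1 : a < 1) (μ ν : Fm k) :
    (2 * Real.pi) ^ k * en a μ ν =
      ∫ θ in bx k, hk a θ * (μ.ft θ * (starRingEnd ℂ) (ν.ft θ)).re := by
  have h1 : ∀ θ : Rk k, hk a θ * (μ.ft θ * (starRingEnd ℂ) (ν.ft θ)).re =
      hk a θ * ((conv μ (EnA_ng ν)).ft θ).re := by
    intro θ
    rw [ft_conv, EnA_ft_ng]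
  rw [integral_congr_ae (Filter.Eventually.of_forall h1), EnA_re ha0 ha1, pr_conv]
  unfold en
  rfl

/-- ENA. The smoothed convolution at a point. Same proof: `sm a (conv μ ν) z = Σ c_i d_j
K (z - x_i - y_j)`, and `K` is even. -/
theorem sm_conv_fourier (ha0 : 0 < a) (ha1 : a < 1) (μ ν : Fm k) (z : Zk k) :
    (2 * Real.pi) ^ k * sm a (conv μ ν) z =
      ∫ θ in bx k, hk a θ *
        (μ.ft θ * ν.ft θ * Complex.exp (-(Complex.I * (dt θ z : ℝ)))).re := by
  have h1 : ∀ θ : Rk k, hk a θ *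
      (μ.ft θ * ν.ft θ * Complex.exp (-(Complex.I * (dt θ z : ℝ)))).re =
      hk a θ * ((EnA_tr (conv μ ν) z).ft θ).re := by
    intro θ
    rw [EnA_ft_tr, ft_conv]
  rw [integral_congr_ae (Filter.Eventually.of_forall h1), EnA_re ha0 ha1, EnA_pr_tr]
  unfold sm
  congr 1
  exact pr_congr _ fun x => ker_sub_comm a z x

/-- ENA. `μ = ν`: the integrand is `hk ‖ft‖²`. -/
theorem en_self_fourier (ha0 : 0 < a) (ha1 : a < 1) (μ : Fm k) :
    (2 * Real.pi) ^ k * en a μ μ = ∫ θ in bx k, hk a θ * ‖μ.ft θ‖ ^ 2 := by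
  rw [en_fourier ha0 ha1]
  refine integral_congr_ae (Filter.Eventually.of_forall fun θ => ?_)
  show hk a θ * (μ.ft θ * (starRingEnd ℂ) (μ.ft θ)).re = hk a θ * ‖μ.ft θ‖ ^ 2
  rw [Complex.mul_conj, Complex.ofReal_re, Complex.normSq_eq_norm_sq]

/-- ENA. `ft (μ - ν * μ) = (1 - ft ν) ft μ` (`ft_sub`, `ft_conv`). -/
theorem en_sub_conv (ha0 : 0 < a) (ha1 : a < 1) (μ ν : Fm k) :
    (2 * Real.pi) ^ k * en a (sub μ (conv ν μ)) (sub μ (conv ν μ)) =
      ∫ θ in bx k, hk a θ * (‖1 - ν.ft θ‖ ^ 2 * ‖μ.ft θ‖ ^ 2) := by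
  rw [en_self_fourier ha0 ha1]
  refine integral_congr_ae (Filter.Eventually.of_forall fun θ => ?_)
  show hk a θ * ‖(sub μ (conv ν μ)).ft θ‖ ^ 2 = hk a θ * (‖1 - ν.ft θ‖ ^ 2 * ‖μ.ft θ‖ ^ 2)
  rw [ft_sub, ft_conv, show μ.ft θ - ν.ft θ * μ.ft θ = (1 - ν.ft θ) * μ.ft θ by ring, norm_mul,
    mul_pow]

end Fm

end Pool.Agent.SawM2
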