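import Pool.Agent.SawM2.EnA

/-!
# Cauchy-Schwarz and triangle inequality (module ENB)
-/

set_option autoImplicit false

namespace Pool.Agent.SawM2

open Finset MeasureTheory

variable {k : ℕ} {a : ℝ}

namespace Fm

/-- ENB. Symmetry (`pr_comm`, `ker_sub_comm`). -/
theorem en_comm (μ ν : Fm k) : en a μ ν = en a ν μ := by
  unfold en
  rw [pr_comm]
  exact pr_congr _ fun y => pr_congr _ fun x => ker_sub_comm a x y

/-- ENB. From `en_self_fourier` (`hk > 0`). -/
theorem en_nonneg (ha0 : 0 < a) (ha1 : a < 1) (μ : Fm k) : 0 ≤ en a μ μ := by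
  have h1 := en_self_fourier ha0 ha1 μ
  have h2 : 0 ≤ ∫ θ in bx k, hk a θ * ‖μ.ft θ‖ ^ 2 :=
    integral_nonneg fun θ => mul_nonneg (hk_pos ha0 ha1 θ).le (sq_nonneg _)
  rw [← h1] at h2
  exact nonneg_of_mul_nonneg_right h2 (pow_pos (by positivity) k)

/-- ENB. Bilinearity: `en a (add μ ν) σ = en a μ σ + en a ν σ` (`pr_add`). -/
theorem en_add_left (μ ν σ : Fm k) : en a (add μ ν) σ = en a μ σ + en a ν σ := by
  unfold en
  exact pr_add μ ν _

theorem en_smul_left (r : ℝ) (μ σ : Fm k) : en a (smul r μ) σ = r * en a μ σ := by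
  unfold en
  exact pr_smul μ r _

private theorem EnB_sq (μ ν : Fm k) (t : ℝ) :
    en a (add μ (smul t ν)) (add μ (smul t ν)) =
      en a ν ν * (t * t) + 2 * en a μ ν * t + en a μ μ := by
  rw [en_add_left, en_smul_left, en_comm μ (add μ (smul t ν)), en_comm ν (add μ (smul t ν)),
    en_add_left, en_add_left, en_smul_left, en_smul_left, en_comm ν μ]
  ring

/-- ENB. Cauchy-Schwarz for the energy form: the quadratic polynomial
`t ↦ en (μ + t ν) (μ + t ν)` is nonnegative (`en_nonneg`, bilinearity); or from the Fourier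
representation. -/
theorem en_cs (ha0 : 0 < a) (ha1 : a < 1) (μ ν : Fm k) :
    |en a μ ν| ≤ nr a μ * nr a ν := by
  have h1 : ∀ t : ℝ, 0 ≤ en a ν ν * (t * t) + 2 * en a μ ν * t + en a μ μ := fun t => by
    rw [← EnB_sq]
    exact en_nonneg ha0 ha1 _
  have h2 := discrim_le_zero h1
  unfold discrim at h2
  have h3 : en a μ ν ^ 2 ≤ en a μ μ * en a ν ν := by nlinarith
  unfold nr
  rw [← Real.sqrt_mul (en_nonneg ha0 ha1 μ)]
  exact Real.abs_le_sqrt h3

/-- ENB. Triangle inequality (from `en_cs`). -/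
theorem nr_add_le (ha0 : 0 < a) (ha1 : a < 1) (μ ν : Fm k) :
    nr a (add μ ν) ≤ nr a μ + nr a ν := by
  have h1 := en_nonneg ha0 ha1 μ
  have h2 := en_nonneg ha0 ha1 ν
  have h3 := (le_abs_self _).trans (en_cs ha0 ha1 μ ν)
  have h4 : en a (add μ ν) (add μ ν) = en a μ μ + 2 * en a μ ν + en a ν ν := by
    rw [en_add_left, en_comm μ (add μ ν), en_comm ν (add μ ν), en_add_left, en_add_left,
      en_comm ν μ]
    ring
  have h5 : 0 ≤ nr a μ := Real.sqrt_nonneg _
  have h6 : 0 ≤ nr a ν := Real.sqrt_nonneg _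
  have h7 : nr a μ ^ 2 = en a μ μ := Real.sq_sqrt h1
  have h8 : nr a ν ^ 2 = en a ν ν := Real.sq_sqrt h2
  rw [nr, Real.sqrt_le_left (by linarith)]
  rw [h4, ← h7, ← h8]
  nlinarith

theorem nr_smul (r : ℝ) (μ : Fm k) : nr a (smul r μ) = |r| * nr a μ := by
  have h1 : en a (smul r μ) (smul r μ) = r ^ 2 * en a μ μ := by
    rw [en_smul_left, en_comm, en_smul_left]
    ring
  unfold nr
  rw [h1, Real.sqrt_mul (sq_nonneg r), Real.sqrt_sq_eq_abs]

/-- ENB. `sub = add (smul (-1))`. -/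
theorem nr_sub_le (ha0 : 0 < a) (ha1 : a < 1) (μ ν : Fm k) :
    nr a (sub μ ν) ≤ nr a μ + nr a ν := by
  have h1 := nr_add_le ha0 ha1 μ (smul (-1) ν)
  rw [nr_smul, abs_neg, abs_one, one_mul] at h1
  exact h1

/-- ENB. `nr a μ - nr a ν ≤ nr a (μ - ν)`: `μ` and `ν + (μ - ν)` have the same integrals. -/
theorem nr_le_sub (ha0 : 0 < a) (ha1 : a < 1) (μ ν : Fm k) :
    nr a μ ≤ nr a ν + nr a (sub μ ν) := by
  have h1 := nr_add_le ha0 ha1 ν (sub μ ν)
  have h2 : ∀ h : Zk k → ℝ, (add ν (sub μ ν)).pr h = μ.pr h := by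
    intro h
    rw [pr_add, pr_sub]
    ring
  have h3 : nr a (add ν (sub μ ν)) = nr a μ := by
    unfold nr en
    rw [h2]
    congr 1
    exact pr_congr _ fun x => h2 _
  rw [h3] at h1
  exact h1

end Fm

end Pool.Agent.SawM2
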