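import Pool.Agent.SawM2.EnB

/-!
# Sup times L1 (module END)
-/

set_option autoImplicit false

namespace Pool.Agent.SawM2

open Finset MeasureTheory

variable {k : ℕ} {a : ℝ}

namespace Fm

/-- END. SUP TIMES L1. If the two smoothed measures are bounded by `B` and the difference is at
most `δ` on Lipschitz functions bounded by `1`, then the energy of the difference is at most
`B δ`. Proof: if `B = 0` everything vanishes (`B ≥ 0` follows from `0 ≤ sm`); otherwise let
`D = μ - ν`, `h = sm a D / B`: `|h| ≤ 1` (difference of two numbers in `[0, B]`), and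
`|h x - h y| ≤ 2 (1 - a) |x - y|` by `Slo.lip` for `sm a μ` and `sm a ν` (`ker_slo`,
`Nn.slo_pr`), so `h` is Lipschitz with `L = 1 / (2 (1 - a))`. Now
`en a D D = D.pr (sm a D) = B (μ.pr h - ν.pr h)` (`pr_sub`). -/
theorem dual (ha0 : 0 < a) (ha1 : a < 1) {μ ν : Fm k} (hμ : μ.Nn) (hν : ν.Nn) {B δ : ℝ}
    (hB : ∀ z, sm a μ z ≤ B) (hB' : ∀ z, sm a ν z ≤ B)
    (hd : ∀ h : Zk k → ℝ, (∀ x, |h x| ≤ 1) → Lip (1 / (2 * (1 - a))) h → μ.pr h - ν.pr h ≤ δ) :
    en a (sub μ ν) (sub μ ν) ≤ B * δ := by
  have hsmp : ∀ {σ : Fm k}, σ.Nn → ∀ z, 0 ≤ sm a σ z := fun hσ z =>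
    hσ.pr_nonneg fun x => ker_nonneg ha0.le _
  have hB0 : 0 ≤ B := (hsmp hμ 0).trans (hB 0)
  have hsub : ∀ z, sm a (sub μ ν) z = sm a μ z - sm a ν z := fun z => pr_sub _ _ _
  have hen : en a (sub μ ν) (sub μ ν) = (sub μ ν).pr (sm a (sub μ ν)) := by
    unfold en
    refine pr_congr _ fun x => ?_
    rfl
  rcases hB0.eq_or_lt with h0 | hpos
  · have hz : ∀ z, sm a (sub μ ν) z = 0 := by
      intro z
      rw [hsub]
      have h1 := hB z
      have h2 := hB' z
      have h3 := hsmp hμ z
      have h4 := hsmp hν z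
      linarith
    rw [hen, ← h0, zero_mul]
    have : (sub μ ν).pr (sm a (sub μ ν)) = (sub μ ν).pr fun _ => 0 := pr_congr _ hz
    rw [this, pr_const, mul_zero]
  · have h1a : 0 < 1 - a := by linarith
    have hslo : ∀ {σ : Fm k}, σ.Nn → Slo a (sm a σ) := fun hσ =>
      hσ.slo_pr (F := fun z x => ker a (z - x)) fun x => by
        have := ker_slo (k := k) ha0.le ha1.le x
        intro z z'
        have h2 := this z z'
        simpa only [ker_sub_comm a x] using h2
    have hlip : ∀ {σ : Fm k}, σ.Nn → (∀ z, sm a σ z ≤ B) → ∀ x y,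
        |sm a σ x - sm a σ y| ≤ B * (n1 (x - y) * (1 - a)) := fun hσ hb x y =>
      (hslo hσ).lip ha0.le ha1.le (hsmp hσ) hb x y
    have hh := hd (fun z => sm a (sub μ ν) z / B) ?_ ?_
    · have h2 : (sub μ ν).pr (sm a (sub μ ν)) =
          B * (μ.pr (fun z => sm a (sub μ ν) z / B) - ν.pr fun z => sm a (sub μ ν) z / B) := by
        rw [← pr_sub, ← pr_mul_left]
        refine pr_congr _ fun z => ?_
        field_simp
      rw [hen, h2]
      exact mul_le_mul_of_nonneg_left hh hB0
    · intro x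
      rw [abs_div, abs_of_pos hpos, div_le_one hpos, hsub, abs_le]
      have h1 := hB x
      have h2 := hB' x
      have h3 := hsmp hμ x
      have h4 := hsmp hν x
      constructor <;> linarith
    · intro x y
      have h1 := hlip hμ hB x y
      have h2 := hlip hν hB' x y
      have h3 : sm a (sub μ ν) x / B - sm a (sub μ ν) y / B =
          ((sm a μ x - sm a μ y) - (sm a ν x - sm a ν y)) / B := by
        rw [hsub, hsub]
        ring
      rw [h3, abs_div, abs_of_pos hpos, div_le_iff₀ hpos]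
      have h4 := abs_sub (sm a μ x - sm a μ y) (sm a ν x - sm a ν y)
      calc |(sm a μ x - sm a μ y) - (sm a ν x - sm a ν y)| ≤
            |sm a μ x - sm a μ y| + |sm a ν x - sm a ν y| := h4
        _ ≤ B * (n1 (x - y) * (1 - a)) + B * (n1 (x - y) * (1 - a)) := add_le_add h1 h2
        _ = n1 (x - y) / (1 / (2 * (1 - a))) * B := by
            field_simp
            ring

end Fm

end Pool.Agent.SawM2
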