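import Pool.Agent.SawM2.Basic

/-!
# Sums over words of bounded length; one arm with two good cuts
-/

set_option autoImplicit false

namespace Pool.Agent.SawM2

open Finset Filter Topology Pool.Agent.Bub4 Pool.Agent.SawDiff

section GS
variable {S V : Type} [Fintype S] [AddCommGroup V] (Y : Sys S V)

/-- weighted sum over the words of length `< n` -/
noncomputable def GS (n : ℕ) (F : List S → ℝ) : ℝ := ∑ t ∈ range n, Y.E t F

theorem GS_mono {n : ℕ} {F G : List S → ℝ} (h : ∀ w, F w ≤ G w) : GS Y n F ≤ GS Y n G :=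
  Finset.sum_le_sum fun _ _ => Y.E_mono fun w _ => h w

theorem GS_nonneg {n : ℕ} {F : List S → ℝ} (h : ∀ w, 0 ≤ F w) : 0 ≤ GS Y n F :=
  Finset.sum_nonneg fun _ _ => Y.E_nonneg' h

theorem GS_mul_left (n : ℕ) (c : ℝ) (F : List S → ℝ) :
    GS Y n (fun w => c * F w) = c * GS Y n F := by
  unfold GS
  simp only [Y.E_mul_left, Finset.mul_sum]

theorem GS_mul_right (n : ℕ) (c : ℝ) (F : List S → ℝ) :
    GS Y n (fun w => F w * c) = GS Y n F * c := by
  simp only [mul_comm _ c, GS_mul_left]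

theorem GS_fadd (n : ℕ) (F G : List S → ℝ) :
    GS Y n (fun w => F w + G w) = GS Y n F + GS Y n G := by
  unfold GS
  simp only [Y.E_fadd, Finset.sum_add_distrib]

theorem GS_E_comm (n m : ℕ) (F : List S → List S → ℝ) :
    GS Y n (fun x => Y.E m fun u => F x u) = Y.E m fun u => GS Y n fun x => F x u := by
  unfold GS
  rw [Y.E_fsum]
  exact Finset.sum_congr rfl fun t _ => Y.E_comm t m F

theorem GS_comm (n m : ℕ) (F : List S → List S → ℝ) :
    GS Y n (fun x => GS Y m fun u => F x u) = GS Y m fun u => GS Y n fun x => F x u := by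
  unfold GS
  simp only [Y.E_fsum]
  rw [Finset.sum_comm]
  exact Finset.sum_congr rfl fun s _ => Finset.sum_congr rfl fun t _ => Y.E_comm t s F

theorem GS_congr {n : ℕ} {F G : List S → ℝ} (h : ∀ w, F w = G w) : GS Y n F = GS Y n G := by
  have : F = G := funext h
  rw [this]

/-- sums over pairs of times `t ≤ t'` of a finite set -/
theorem sum_pairs_le {J : Finset ℕ} {n : ℕ} (hJ : ∀ t ∈ J, t < n) {g : ℕ → ℕ → ℝ}
    (hg : ∀ t s, 0 ≤ g t s) :
    ∑ t ∈ J, ∑ t' ∈ J with t ≤ t', g t (t' - t) ≤ ∑ t ∈ range n, ∑ s ∈ range n, g t s := by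
  have h1 : ∀ t ∈ J, ∑ t' ∈ J with t ≤ t', g t (t' - t) ≤ ∑ s ∈ range n, g t s := by
    intro t ht
    have h2 : ∑ t' ∈ J with t ≤ t', g t (t' - t) =
        ∑ s ∈ (J.filter fun t' => t ≤ t').image (fun t' => t' - t), g t s := by
      rw [Finset.sum_image]
      intro x hx y hy hxy
      have hx' := (Finset.mem_filter.1 hx).2
      have hy' := (Finset.mem_filter.1 hy).2
      simp only at hxy
      omega
    rw [h2]
    refine Finset.sum_le_sum_of_subset_of_nonneg ?_ fun s _ _ => hg t s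
    intro s hs
    obtain ⟨t', ht', rfl⟩ := Finset.mem_image.1 hs
    have := hJ t' (Finset.mem_filter.1 ht').1
    rw [Finset.mem_range]
    omega
  refine (Finset.sum_le_sum h1).trans ?_
  refine Finset.sum_le_sum_of_subset_of_nonneg ?_ fun t _ _ => Finset.sum_nonneg fun s _ => hg t s
  intro t ht
  rw [Finset.mem_range]
  exact hJ t ht

end GS

section cut
variable {S V : Type} [Fintype S] [AddCommGroup V] {Y : Sys S V} {Λ K : ℝ} {α : List S → ℝ}

/-- weight of the good words -/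
noncomputable def gw (Y : Sys S V) (α : List S → ℝ) (κ : ℝ) (x : List S) : ℝ :=
  UU Y α x * ind (good Y α κ x)

theorem gw_nonneg (h : Bulk Y Λ α) (hK : ∀ n, Y.a n ≤ K) (κ : ℝ) (x : List S) :
    0 ≤ gw Y α κ x := mul_nonneg (UU_nonneg h hK x) (ind_nonneg _)

theorem two_cut_one (h : Bulk Y Λ α) (hK : ∀ n, Y.a n ≤ K) {κ : ℝ} (hκ : 0 < κ)
    {Q : List S → Prop} (hQ : ∀ x, Q x → good Y α κ x) (t s r : ℕ)
    {F : List S → List S → ℝ} (hF : ∀ x x', 0 ≤ F x x') :
    (Y.E (t + (s + r)) fun p => α p * (ind (Q (p.take t)) * ind (Q (p.take (t + s))) *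
      F (p.take t) ((p.take (t + s)).drop t))) ≤
      κ⁻¹ * Y.E t fun x => Y.E s fun x' => gw Y α κ x * gw Y α κ x' * F x x' := by
  rw [Y.E_add, ← Y.E_mul_left]
  refine Y.E_mono fun x hx => ?_
  rw [Y.E_add, ← Y.E_mul_left]
  refine Y.E_mono fun x' hx' => ?_
  have e1 : ∀ x'' : List S, (x ++ (x' ++ x'')).take t = x := by
    intro x''; rw [← hx, List.take_left]
  have e2 : ∀ x'' : List S, (x ++ (x' ++ x'')).take (t + s) = x ++ x' := by
    intro x''
    rw [← List.append_assoc, ← hx, ← hx', ← List.length_append, List.take_left]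
  have e3 : (x ++ x').drop t = x' := by rw [← hx, List.drop_left]
  simp only [e1, e2, e3]
  rw [Y.E_mul_right]
  have e4 : (Y.E r fun x'' => α (x ++ (x' ++ x''))) = α (x ++ x') := by
    rw [← h.right (x ++ x') r]
    simp only [List.append_assoc]
  rw [e4]
  by_cases hx1 : Q x
  · by_cases hx2 : Q (x ++ x')
    · rw [ind_of hx1, ind_of hx2]
      have g1 := hQ _ hx1
      have g2 := hQ _ hx2
      have g3 : good Y α κ x' := good_suffix h hK g2
      unfold gw
      rw [ind_of g1, ind_of g3]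
      have h1 : α (x ++ x') ≤ κ⁻¹ * (UU Y α x * UU Y α x') :=
        (le_UU h hK _).trans (UU_mul_le h hK hκ x' g1)
      have h2 := hF x x'
      nlinarith
    · rw [ind_not hx2]
      have h1 := gw_nonneg h hK κ x
      have h2 := gw_nonneg h hK κ x'
      have h3 := hF x x'
      have h4 : 0 < κ⁻¹ := inv_pos.2 hκ
      have : 0 ≤ κ⁻¹ * (gw Y α κ x * gw Y α κ x' * F x x') := by positivity
      linarith
  · rw [ind_not hx1]
    have h1 := gw_nonneg h hK κ x
    have h2 := gw_nonneg h hK κ x'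
    have h3 := hF x x'
    have h4 : 0 < κ⁻¹ := inv_pos.2 hκ
    have : 0 ≤ κ⁻¹ * (gw Y α κ x * gw Y α κ x' * F x x') := by positivity
    linarith

/-- one arm with two good cuts -/
theorem two_cut (h : Bulk Y Λ α) (hK : ∀ n, Y.a n ≤ K) {κ : ℝ} (hκ : 0 < κ)
    {Q : List S → Prop} (hQ : ∀ x, Q x → good Y α κ x) {J : Finset ℕ} {n : ℕ}
    (hJ : ∀ t ∈ J, t ≤ n) {F : List S → List S → ℝ} (hF : ∀ x x', 0 ≤ F x x') :
    (Y.E n fun p => α p * ∑ t ∈ J, ∑ t' ∈ J with t ≤ t', ind (Q (p.take t)) *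
      ind (Q (p.take t')) * F (p.take t) ((p.take t').drop t)) ≤
      κ⁻¹ * GS Y (n + 1) fun x => GS Y (n + 1) fun x' => gw Y α κ x * gw Y α κ x' * F x x' := by
  have h1 : (Y.E n fun p => α p * ∑ t ∈ J, ∑ t' ∈ J with t ≤ t', ind (Q (p.take t)) *
      ind (Q (p.take t')) * F (p.take t) ((p.take t').drop t)) ≤
      ∑ t ∈ J, ∑ t' ∈ J with t ≤ t', κ⁻¹ * Y.E t fun x => Y.E (t' - t) fun x' =>
        gw Y α κ x * gw Y α κ x' * F x x' := by
    simp only [Finset.mul_sum, Y.E_fsum]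
    refine Finset.sum_le_sum fun t ht => Finset.sum_le_sum fun t' ht' => ?_
    have h2 := (Finset.mem_filter.1 ht').2
    have h3 := hJ t' (Finset.mem_filter.1 ht').1
    have h4 := two_cut_one h hK hκ hQ t (t' - t) (n - t') hF
    have e1 : t + (t' - t + (n - t')) = n := by omega
    have e2 : t + (t' - t) = t' := by omega
    rw [e1, e2] at h4
    exact h4
  refine h1.trans ?_
  have h0 : ∀ t s : ℕ, 0 ≤ κ⁻¹ * Y.E t fun x => Y.E s fun x' =>
      gw Y α κ x * gw Y α κ x' * F x x' := fun t s =>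
    mul_nonneg (inv_pos.2 hκ).le (Y.E_nonneg' fun x => Y.E_nonneg' fun x' =>
      mul_nonneg (mul_nonneg (gw_nonneg h hK κ x) (gw_nonneg h hK κ x')) (hF x x'))
  refine (sum_pairs_le (fun t ht => Nat.lt_succ_of_le (hJ t ht)) h0).trans (le_of_eq ?_)
  unfold GS
  simp only [Y.E_fsum, Finset.mul_sum]

end cut

end Pool.Agent.SawM2
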