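import Pool.Agent.SawM2.End1

/-!
# The second moment of the number of near-misses between two independent arms
-/

set_option autoImplicit false

namespace Pool.Agent.SawM2

open Finset Filter Topology Pool.Agent.Bub4 Pool.Agent.SawDiff

section sums

theorem sum_sym {J : Finset ℕ} {g : ℕ → ℕ → ℝ} (hg : ∀ t s, 0 ≤ g t s) :
    ∑ t ∈ J, ∑ t' ∈ J, g t t' ≤ ∑ t ∈ J, ∑ t' ∈ J with t ≤ t', (g t t' + g t' t) := by
  have h1 : ∑ t ∈ J, ∑ t' ∈ J, g t t' ≤
      ∑ t ∈ J, ∑ t' ∈ J, ((if t ≤ t' then g t t' else 0) + if t' ≤ t then g t t' else 0) := by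
    refine Finset.sum_le_sum fun t _ => Finset.sum_le_sum fun t' _ => ?_
    have := hg t t'
    rcases le_total t t' with h | h
    · rw [if_pos h]
      split_ifs <;> linarith
    · rw [if_pos h]
      split_ifs <;> linarith
  refine h1.trans (le_of_eq ?_)
  simp only [Finset.sum_add_distrib, Finset.sum_filter]
  congr 1
  rw [Finset.sum_comm]

theorem sq_sum_le {J : Finset ℕ} {c : ℕ → ℕ → ℝ} (hc : ∀ t s, 0 ≤ c t s) :
    (∑ t ∈ J, ∑ s ∈ J, c t s) ^ 2 ≤ 2 * ∑ t ∈ J, ∑ t' ∈ J with t ≤ t', ∑ s ∈ J,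
      ∑ s' ∈ J with s ≤ s', (c t s * c t' s' + c t s' * c t' s) := by
  have h1 : (∑ t ∈ J, ∑ s ∈ J, c t s) ^ 2 =
      ∑ t ∈ J, ∑ t' ∈ J, ∑ s ∈ J, ∑ s' ∈ J, c t s * c t' s' := by
    rw [sq, Finset.sum_mul]
    refine Finset.sum_congr rfl fun t _ => ?_
    rw [Finset.mul_sum]
    refine Finset.sum_congr rfl fun t' _ => ?_
    rw [Finset.sum_mul_sum]
  rw [h1]
  have h2 : ∀ t t', 0 ≤ ∑ s ∈ J, ∑ s' ∈ J, c t s * c t' s' := fun t t' =>
    Finset.sum_nonneg fun s _ => Finset.sum_nonneg fun s' _ => mul_nonneg (hc _ _) (hc _ _)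
  refine (sum_sym h2).trans ?_
  rw [Finset.mul_sum]
  refine Finset.sum_le_sum fun t _ => ?_
  rw [Finset.mul_sum]
  refine Finset.sum_le_sum fun t' _ => ?_
  have h3 : ∑ s ∈ J, ∑ s' ∈ J, c t' s * c t s' = ∑ s ∈ J, ∑ s' ∈ J, c t s * c t' s' := by
    rw [Finset.sum_comm]
    exact Finset.sum_congr rfl fun s _ => Finset.sum_congr rfl fun s' _ => mul_comm _ _
  rw [h3, ← two_mul]
  exact mul_le_mul_of_nonneg_left (sum_sym fun s s' => mul_nonneg (hc _ _) (hc _ _)) zero_le_two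

end sums

section HH
variable {S V : Type} [Fintype S] [AddCommGroup V] {k : ℕ}

/-- weighted number of near-misses between the arms `p` and `q`, when the word between them has
the coarse displacement `z` -/
noncomputable def HH (Y : Sys S V) (π : V →+ Zk k) (J : Finset ℕ)
    (Qm Qp : List S → Prop) (a : ℝ) (p : List S) (z : Zk k) (q : List S) : ℝ :=
  ∑ t ∈ J, ∑ s ∈ J, ind (Qm (p.take t)) * ind (Qp (q.take s)) *
    ker a (π (Y.sm (p.take t)) + z + π (Y.sm (q.take s)))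

variable {Y : Sys S V} {π : V →+ Zk k} {Λ K : ℝ} {ρ : List S → ℝ}

theorem HH_nonneg (J : Finset ℕ) (Qm Qp : List S → Prop) {a : ℝ} (ha : 0 ≤ a) (p : List S)
    (z : Zk k) (q : List S) : 0 ≤ HH Y π J Qm Qp a p z q :=
  Finset.sum_nonneg fun _ _ => Finset.sum_nonneg fun _ _ =>
    mul_nonneg (mul_nonneg (ind_nonneg _) (ind_nonneg _)) (ker_nonneg ha _)

theorem sm_take_split (Y : Sys S V) (π : V →+ Zk k) (p : List S) {t t' : ℕ} (h : t ≤ t') :
    π (Y.sm (p.take t')) = π (Y.sm (p.take t)) + π (Y.sm ((p.take t').drop t)) := by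
  have h1 : p.take t' = p.take t ++ (p.take t').drop t := by
    conv_lhs => rw [← List.take_append_drop t (p.take t')]
    rw [List.take_take, min_eq_left h]
  conv_lhs => rw [h1, Y.sm_append, map_add]

theorem HH_sq_le (J : Finset ℕ) (Qm Qp : List S → Prop) {a : ℝ} (ha : 0 ≤ a) (ha1 : a ≤ 1)
    (p : List S) (z : Zk k) (q : List S) :
    HH Y π J Qm Qp a p z q ^ 2 ≤ 2 * ∑ t ∈ J, ∑ t' ∈ J with t ≤ t',
      ind (Qm (p.take t)) * ind (Qm (p.take t')) * ∑ s ∈ J, ∑ s' ∈ J with s ≤ s',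
        ind (Qp (q.take s)) * ind (Qp (q.take s')) *
          (ker (Real.sqrt a) (π (Y.sm (p.take t)) + z + π (Y.sm (q.take s))) *
            ker (Real.sqrt a) (π (Y.sm ((p.take t').drop t)) + π (Y.sm ((q.take s').drop s))) +
          ker (Real.sqrt a) (π (Y.sm (p.take t)) + (z + π (Y.sm ((q.take s').drop s))) + π (Y.sm (q.take s))) *
            ker (Real.sqrt a) (π (Y.sm ((p.take t').drop t)) - π (Y.sm ((q.take s').drop s)))) := by
  refine (sq_sum_le fun t s => mul_nonneg (mul_nonneg (ind_nonneg _) (ind_nonneg _))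
    (ker_nonneg ha _)).trans ?_
  refine mul_le_mul_of_nonneg_left ?_ zero_le_two
  refine Finset.sum_le_sum fun t _ => Finset.sum_le_sum fun t' ht' => ?_
  have htt := (Finset.mem_filter.1 ht').2
  rw [Finset.mul_sum]
  refine Finset.sum_le_sum fun s _ => ?_
  rw [Finset.mul_sum]
  refine Finset.sum_le_sum fun s' hs' => ?_
  have hss := (Finset.mem_filter.1 hs').2
  have i1 := ind_nonneg (Qm (p.take t))
  have i2 := ind_nonneg (Qm (p.take t'))
  have i3 := ind_nonneg (Qp (q.take s))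
  have i4 := ind_nonneg (Qp (q.take s'))
  have e1 := sm_take_split Y π p htt
  have e2 := sm_take_split Y π q hss
  set x := π (Y.sm (p.take t)) with hx
  set x' := π (Y.sm ((p.take t').drop t)) with hx'
  set y := π (Y.sm (q.take s)) with hy
  set y' := π (Y.sm ((q.take s').drop s)) with hy'
  rw [e1, e2]
  have k1 : ker a (x + z + y) * ker a (x + x' + z + (y + y')) ≤
      ker (Real.sqrt a) (x + z + y) * ker (Real.sqrt a) (x' + y') := by
    have h := ker_mul_ker_le ha ha1 (x + z + y) (x' + y')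
    have e : x + z + y + (x' + y') = x + x' + z + (y + y') := by abel
    rwa [e] at h
  have k2 : ker a (x + z + (y + y')) * ker a (x + x' + z + y) ≤
      ker (Real.sqrt a) (x + (z + y') + y) * ker (Real.sqrt a) (x' - y') := by
    have h := ker_mul_ker_le ha ha1 (x + (z + y') + y) (x' - y')
    have e : x + (z + y') + y + (x' - y') = x + x' + z + y := by abel
    have e' : x + (z + y') + y = x + z + (y + y') := by abel
    rw [e, e'] at h
    rw [e']
    exact h
  have hi : 0 ≤ ind (Qm (p.take t)) * ind (Qm (p.take t')) *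
      (ind (Qp (q.take s)) * ind (Qp (q.take s'))) := by positivity
  calc ind (Qm (p.take t)) * ind (Qp (q.take s)) * ker a (x + z + y) *
        (ind (Qm (p.take t')) * ind (Qp (q.take s')) * ker a (x + x' + z + (y + y'))) +
      ind (Qm (p.take t)) * ind (Qp (q.take s')) * ker a (x + z + (y + y')) *
        (ind (Qm (p.take t')) * ind (Qp (q.take s)) * ker a (x + x' + z + y))
      = ind (Qm (p.take t)) * ind (Qm (p.take t')) *
        (ind (Qp (q.take s)) * ind (Qp (q.take s'))) *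
          (ker a (x + z + y) * ker a (x + x' + z + (y + y')) +
          ker a (x + z + (y + y')) * ker a (x + x' + z + y)) := by ring
    _ ≤ ind (Qm (p.take t)) * ind (Qm (p.take t')) *
        (ind (Qp (q.take s)) * ind (Qp (q.take s'))) *
          (ker (Real.sqrt a) (x + z + y) * ker (Real.sqrt a) (x' + y') + ker (Real.sqrt a) (x + (z + y') + y) * ker (Real.sqrt a) (x' - y')) :=
        mul_le_mul_of_nonneg_left (add_le_add k1 k2) hi
    _ = _ := by ring

/-- two arms with two good cuts each -/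
theorem four_cut (h : Bulk Y Λ ρ) (hr : Bulk Y Λ (rv ρ)) (hK : ∀ n, Y.a n ≤ K) {κ : ℝ}
    (hκ : 0 < κ) {Qm Qp : List S → Prop} (hQm : ∀ x, Qm x → good Y (rv ρ) κ x)
    (hQp : ∀ x, Qp x → good Y ρ κ x) {J : Finset ℕ} {n : ℕ} (hJ : ∀ t ∈ J, t ≤ n) (m : ℕ)
    {F : List S → List S → List S → List S → List S → ℝ} (hF : ∀ x x' b y y', 0 ≤ F x x' b y y') :
    (Y.E n fun p => Y.E m fun b => Y.E n fun q => rv ρ p * ρ b * ρ q *
      ∑ t ∈ J, ∑ t' ∈ J with t ≤ t', ind (Qm (p.take t)) * ind (Qm (p.take t')) *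
        ∑ s ∈ J, ∑ s' ∈ J with s ≤ s', ind (Qp (q.take s)) * ind (Qp (q.take s')) *
          F (p.take t) ((p.take t').drop t) b (q.take s) ((q.take s').drop s)) ≤
    κ⁻¹ ^ 2 * Y.E m fun b => ρ b * GS Y (n + 1) fun x => GS Y (n + 1) fun x' =>
      GS Y (n + 1) fun y => GS Y (n + 1) fun y' =>
        gw Y (rv ρ) κ x * gw Y (rv ρ) κ x' * (gw Y ρ κ y * gw Y ρ κ y') * F x x' b y y' := by
  have hκ' : 0 < κ⁻¹ := inv_pos.2 hκ
  rw [Y.E_comm, ← Y.E_mul_left]
  refine Y.E_mono fun b _ => ?_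
  rw [Y.E_comm]
  have hb := h.nonneg b
  -- first the left arm
  have h1 : ∀ q : List S, (Y.E n fun p => rv ρ p * ρ b * ρ q *
      ∑ t ∈ J, ∑ t' ∈ J with t ≤ t', ind (Qm (p.take t)) * ind (Qm (p.take t')) *
        ∑ s ∈ J, ∑ s' ∈ J with s ≤ s', ind (Qp (q.take s)) * ind (Qp (q.take s')) *
          F (p.take t) ((p.take t').drop t) b (q.take s) ((q.take s').drop s)) ≤
      ρ b * (κ⁻¹ * GS Y (n + 1) fun x => GS Y (n + 1) fun x' =>
        gw Y (rv ρ) κ x * gw Y (rv ρ) κ x' * (ρ q *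
          ∑ s ∈ J, ∑ s' ∈ J with s ≤ s', ind (Qp (q.take s)) * ind (Qp (q.take s')) *
            F x x' b (q.take s) ((q.take s').drop s))) := by
    intro q
    have hq := h.nonneg q
    have h2 := two_cut hr hK hκ hQm hJ (F := fun x x' => ρ q *
          ∑ s ∈ J, ∑ s' ∈ J with s ≤ s', ind (Qp (q.take s)) * ind (Qp (q.take s')) *
            F x x' b (q.take s) ((q.take s').drop s))
      (fun x x' => mul_nonneg hq (Finset.sum_nonneg fun s _ => Finset.sum_nonneg fun s' _ =>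
        mul_nonneg (mul_nonneg (ind_nonneg _) (ind_nonneg _)) (hF _ _ _ _ _)))
    refine le_trans (le_of_eq ?_) (mul_le_mul_of_nonneg_left h2 hb)
    rw [← Y.E_mul_left]
    refine Y.E_congr fun p _ => ?_
    have e : ∀ c : ℕ → ℕ → ℝ, ∀ d : ℕ → ℕ → ℝ,
        rv ρ p * ρ b * ρ q * ∑ t ∈ J, ∑ t' ∈ J with t ≤ t', c t t' * d t t' =
          ρ b * (rv ρ p * ∑ t ∈ J, ∑ t' ∈ J with t ≤ t', c t t' * (ρ q * d t t')) := by
      intro c d
      simp only [Finset.mul_sum]
      refine Finset.sum_congr rfl fun t _ => Finset.sum_congr rfl fun t' _ => ?_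
      ring
    exact e _ _
  refine (Y.E_mono fun q _ => h1 q).trans ?_
  rw [Y.E_mul_left]
  rw [← mul_assoc (κ⁻¹ ^ 2), mul_comm (κ⁻¹ ^ 2) (ρ b), mul_assoc]
  refine mul_le_mul_of_nonneg_left ?_ hb
  rw [Y.E_mul_left, sq, mul_assoc]
  refine mul_le_mul_of_nonneg_left ?_ hκ'.le
  -- the right arm
  rw [← GS_E_comm, ← GS_mul_left]
  refine GS_mono Y fun x => ?_
  rw [← GS_E_comm, ← GS_mul_left]
  refine GS_mono Y fun x' => ?_
  rw [Y.E_mul_left]
  have hx := gw_nonneg hr hK κ x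
  have hx' := gw_nonneg hr hK κ x'
  have h3 := two_cut h hK hκ hQp hJ (F := fun y y' => F x x' b y y') (fun y y' => hF _ _ _ _ _)
  refine (mul_le_mul_of_nonneg_left h3 (mul_nonneg hx hx')).trans (le_of_eq ?_)
  have e1 : (GS Y (n + 1) fun y => GS Y (n + 1) fun y' =>
        gw Y (rv ρ) κ x * gw Y (rv ρ) κ x' * (gw Y ρ κ y * gw Y ρ κ y') * F x x' b y y') =
      gw Y (rv ρ) κ x * gw Y (rv ρ) κ x' * GS Y (n + 1) fun y => GS Y (n + 1) fun y' =>
        gw Y ρ κ y * gw Y ρ κ y' * F x x' b y y' := by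
    rw [← GS_mul_left]
    refine GS_congr Y fun y => ?_
    rw [← GS_mul_left]
    exact GS_congr Y fun y' => by ring
  rw [e1]
  ring

theorem GS_swap (Y : Sys S V) (n : ℕ) (F : List S → List S → List S → List S → ℝ) :
    (GS Y n fun x => GS Y n fun x' => GS Y n fun y => GS Y n fun y' => F x x' y y') =
      GS Y n fun x' => GS Y n fun y' => GS Y n fun x => GS Y n fun y => F x x' y y' := by
  rw [GS_comm]
  refine GS_congr Y fun x' => ?_
  have e : (GS Y n fun x => GS Y n fun y => GS Y n fun y' => F x x' y y') =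
      GS Y n fun x => GS Y n fun y' => GS Y n fun y => F x x' y y' :=
    GS_congr Y fun x => GS_comm Y n n _
  rw [e, GS_comm]

theorem second_moment (h : Bulk Y Λ ρ) (hr : Bulk Y Λ (rv ρ)) (hK : ∀ n, Y.a n ≤ K) {κ : ℝ}
    (hκ : 0 < κ) {Qm Qp : List S → Prop} (hQm : ∀ x, Qm x → good Y (rv ρ) κ x)
    (hQp : ∀ x, Qp x → good Y ρ κ x) {J : Finset ℕ} {n : ℕ} (hJ : ∀ t ∈ J, t ≤ n) (m : ℕ)
    {a : ℝ} (ha : 0 ≤ a) (ha1 : a ≤ 1) {M₁ : ℝ} (hM : 0 ≤ M₁)
    (S2 : ∀ z, (GS Y (n + 1) fun x => GS Y (n + 1) fun y => gw Y (rv ρ) κ x * gw Y ρ κ y *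
      ker (Real.sqrt a) (π (Y.sm x) + z + π (Y.sm y))) ≤ M₁)
    (S2' : (GS Y (n + 1) fun x => GS Y (n + 1) fun y => gw Y (rv ρ) κ x * gw Y ρ κ y *
      ker (Real.sqrt a) (π (Y.sm x) - π (Y.sm y))) ≤ M₁) :
    (Y.E n fun p => Y.E m fun b => Y.E n fun q => rv ρ p * ρ b * ρ q *
      HH Y π J Qm Qp a p (π (Y.sm b)) q ^ 2) ≤ 4 * κ⁻¹ ^ 2 * M₁ ^ 2 := by
  have hκ' : 0 < κ⁻¹ := inv_pos.2 hκ
  have g1 := gw_nonneg hr hK κ
  have g2 := gw_nonneg h hK κ
  set F : List S → List S → List S → List S → List S → ℝ := fun x x' b y y' =>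
    ker (Real.sqrt a) (π (Y.sm x) + π (Y.sm b) + π (Y.sm y)) * ker (Real.sqrt a) (π (Y.sm x') + π (Y.sm y')) +
      ker (Real.sqrt a) (π (Y.sm x) + (π (Y.sm b) + π (Y.sm y')) + π (Y.sm y)) *
        ker (Real.sqrt a) (π (Y.sm x') - π (Y.sm y')) with hFdef
  have hF : ∀ x x' b y y', 0 ≤ F x x' b y y' := fun x x' b y y' =>
    add_nonneg (mul_nonneg (ker_nonneg (Real.sqrt_nonneg a) _) (ker_nonneg (Real.sqrt_nonneg a) _))
      (mul_nonneg (ker_nonneg (Real.sqrt_nonneg a) _) (ker_nonneg (Real.sqrt_nonneg a) _))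
  have h1 : (Y.E n fun p => Y.E m fun b => Y.E n fun q => rv ρ p * ρ b * ρ q *
      HH Y π J Qm Qp a p (π (Y.sm b)) q ^ 2) ≤
      2 * (Y.E n fun p => Y.E m fun b => Y.E n fun q => rv ρ p * ρ b * ρ q *
      ∑ t ∈ J, ∑ t' ∈ J with t ≤ t', ind (Qm (p.take t)) * ind (Qm (p.take t')) *
        ∑ s ∈ J, ∑ s' ∈ J with s ≤ s', ind (Qp (q.take s)) * ind (Qp (q.take s')) *
          F (p.take t) ((p.take t').drop t) b (q.take s) ((q.take s').drop s)) := by
    rw [← Y.E_mul_left]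
    refine Y.E_mono fun p _ => ?_
    rw [← Y.E_mul_left]
    refine Y.E_mono fun b _ => ?_
    rw [← Y.E_mul_left]
    refine Y.E_mono fun q _ => ?_
    have hw : 0 ≤ rv ρ p * ρ b * ρ q :=
      mul_nonneg (mul_nonneg (hr.nonneg p) (h.nonneg b)) (h.nonneg q)
    have h2 := mul_le_mul_of_nonneg_left (HH_sq_le (Y := Y) (π := π) J Qm Qp ha ha1 p
      (π (Y.sm b)) q) hw
    refine h2.trans (le_of_eq ?_)
    simp only [hFdef]
    ring
  refine h1.trans ?_
  have h2 := four_cut h hr hK hκ hQm hQp hJ m hF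
  refine (mul_le_mul_of_nonneg_left h2 zero_le_two).trans ?_
  -- evaluation
  have h3 : ∀ b : List S, (GS Y (n + 1) fun x => GS Y (n + 1) fun x' =>
      GS Y (n + 1) fun y => GS Y (n + 1) fun y' =>
        gw Y (rv ρ) κ x * gw Y (rv ρ) κ x' * (gw Y ρ κ y * gw Y ρ κ y') * F x x' b y y') ≤
      2 * M₁ ^ 2 := by
    intro b
    rw [GS_swap]
    set f : List S → List S → List S → List S → ℝ := fun x' y' x y =>
      (gw Y (rv ρ) κ x' * gw Y ρ κ y' * ker (Real.sqrt a) (π (Y.sm x') + π (Y.sm y'))) *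
        (gw Y (rv ρ) κ x * gw Y ρ κ y * ker (Real.sqrt a) (π (Y.sm x) + π (Y.sm b) + π (Y.sm y))) with hf
    set g : List S → List S → List S → List S → ℝ := fun x' y' x y =>
      (gw Y (rv ρ) κ x' * gw Y ρ κ y' * ker (Real.sqrt a) (π (Y.sm x') - π (Y.sm y'))) *
        (gw Y (rv ρ) κ x * gw Y ρ κ y *
          ker (Real.sqrt a) (π (Y.sm x) + (π (Y.sm b) + π (Y.sm y')) + π (Y.sm y))) with hg
    have e1 : (GS Y (n + 1) fun x' => GS Y (n + 1) fun y' => GS Y (n + 1) fun x =>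
        GS Y (n + 1) fun y => gw Y (rv ρ) κ x * gw Y (rv ρ) κ x' *
          (gw Y ρ κ y * gw Y ρ κ y') * F x x' b y y') =
        (GS Y (n + 1) fun x' => GS Y (n + 1) fun y' => GS Y (n + 1) fun x =>
          GS Y (n + 1) fun y => f x' y' x y) +
        GS Y (n + 1) fun x' => GS Y (n + 1) fun y' => GS Y (n + 1) fun x =>
          GS Y (n + 1) fun y => g x' y' x y := by
      rw [← GS_fadd]
      refine GS_congr Y fun x' => ?_
      rw [← GS_fadd]
      refine GS_congr Y fun y' => ?_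
      rw [← GS_fadd]
      refine GS_congr Y fun x => ?_
      rw [← GS_fadd]
      refine GS_congr Y fun y => ?_
      simp only [hFdef, hf, hg]
      ring
    rw [e1]
    have e2 : (GS Y (n + 1) fun x' => GS Y (n + 1) fun y' => GS Y (n + 1) fun x =>
          GS Y (n + 1) fun y => f x' y' x y) ≤ M₁ * M₁ := by
      have e3 : (GS Y (n + 1) fun x' => GS Y (n + 1) fun y' => GS Y (n + 1) fun x =>
          GS Y (n + 1) fun y => f x' y' x y) ≤
          GS Y (n + 1) fun x' => GS Y (n + 1) fun y' =>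
            (gw Y (rv ρ) κ x' * gw Y ρ κ y' * ker (Real.sqrt a) (π (Y.sm x') + 0 + π (Y.sm y'))) * M₁ := by
        refine GS_mono Y fun x' => GS_mono Y fun y' => ?_
        simp only [hf, GS_mul_left]
        rw [add_zero]
        exact mul_le_mul_of_nonneg_left (S2 (π (Y.sm b)))
          (mul_nonneg (mul_nonneg (g1 _) (g2 _)) (ker_nonneg (Real.sqrt_nonneg a) _))
      refine e3.trans ?_
      simp only [GS_mul_right]
      exact mul_le_mul_of_nonneg_right (S2 0) hM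
    have e4 : (GS Y (n + 1) fun x' => GS Y (n + 1) fun y' => GS Y (n + 1) fun x =>
          GS Y (n + 1) fun y => g x' y' x y) ≤ M₁ * M₁ := by
      have e3 : (GS Y (n + 1) fun x' => GS Y (n + 1) fun y' => GS Y (n + 1) fun x =>
          GS Y (n + 1) fun y => g x' y' x y) ≤
          GS Y (n + 1) fun x' => GS Y (n + 1) fun y' =>
            (gw Y (rv ρ) κ x' * gw Y ρ κ y' * ker (Real.sqrt a) (π (Y.sm x') - π (Y.sm y'))) * M₁ := by
        refine GS_mono Y fun x' => GS_mono Y fun y' => ?_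
        simp only [hg, GS_mul_left]
        exact mul_le_mul_of_nonneg_left (S2 (π (Y.sm b) + π (Y.sm y')))
          (mul_nonneg (mul_nonneg (g1 _) (g2 _)) (ker_nonneg (Real.sqrt_nonneg a) _))
      refine e3.trans ?_
      simp only [GS_mul_right]
      exact mul_le_mul_of_nonneg_right S2' hM
    nlinarith
  have h4 : (Y.E m fun b => ρ b * GS Y (n + 1) fun x => GS Y (n + 1) fun x' =>
      GS Y (n + 1) fun y => GS Y (n + 1) fun y' =>
        gw Y (rv ρ) κ x * gw Y (rv ρ) κ x' * (gw Y ρ κ y * gw Y ρ κ y') * F x x' b y y') ≤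
      2 * M₁ ^ 2 := by
    have h5 : (Y.E m fun b => ρ b * GS Y (n + 1) fun x => GS Y (n + 1) fun x' =>
      GS Y (n + 1) fun y => GS Y (n + 1) fun y' =>
        gw Y (rv ρ) κ x * gw Y (rv ρ) κ x' * (gw Y ρ κ y * gw Y ρ κ y') * F x x' b y y') ≤
        Y.E m fun b => ρ b * (2 * M₁ ^ 2) :=
      Y.E_mono fun b _ => mul_le_mul_of_nonneg_left (h3 b) (h.nonneg b)
    refine h5.trans (le_of_eq ?_)
    rw [Y.E_mul_right]
    have h6 := h.right [] m
    simp only [List.nil_append] at h6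
    rw [h6, h.nil, one_mul]
  have h7 : 0 ≤ κ⁻¹ ^ 2 := by positivity
  nlinarith [mul_le_mul_of_nonneg_left h4 h7]

end HH

end Pool.Agent.SawM2
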