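import Pool.Agent.SawM2.End2

/-!
# From independent arms to the arms of one word
-/

set_option autoImplicit false

namespace Pool.Agent.SawM2

open Finset Filter Topology Pool.Agent.Bub4 Pool.Agent.SawDiff

variable {S V : Type} [Fintype S] [AddCommGroup V] {k : ℕ}

/-- average over three words `p.reverse`, `b`, `v` under the product law -/
noncomputable def EP (Y : Sys S V) (π : V →+ Zk k) (ρ : List S → ℝ) (n m : ℕ)
    (F : List S → Zk k → List S → ℝ) : ℝ :=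
  Y.E n fun p => Y.E m fun b => Y.E n fun v => rv ρ p * ρ b * ρ v * F p (π (Y.sm b)) v

/-- average over the word `p.reverse ++ β.reverse ++ v` -/
noncomputable def ER (Y : Sys S V) (ρ : List S → ℝ) (n m : ℕ)
    (F : List S → List S → List S → ℝ) : ℝ :=
  Y.E n fun p => Y.E m fun β => Y.E n fun v => ρ (p.reverse ++ β.reverse ++ v) * F p β v

/-- average over `β ++ p` and `v` under the product of the arm measures -/
noncomputable def EU (Y : Sys S V) (ρ : List S → ℝ) (n m : ℕ)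
    (F : List S → List S → List S → ℝ) : ℝ :=
  Y.E n fun p => Y.E m fun β => Y.E n fun v => UU Y (rv ρ) (β ++ p) * UU Y ρ v * F p β v

variable {Y : Sys S V} {π : V →+ Zk k} {Λ K : ℝ} {ρ : List S → ℝ}

theorem EP_mono (h : Bulk Y Λ ρ) (hr : Bulk Y Λ (rv ρ)) {n m : ℕ}
    {F G : List S → Zk k → List S → ℝ} (hFG : ∀ p z v, F p z v ≤ G p z v) :
    EP Y π ρ n m F ≤ EP Y π ρ n m G :=
  Y.E_mono fun p _ => Y.E_mono fun b _ => Y.E_mono fun v _ =>
    mul_le_mul_of_nonneg_left (hFG _ _ _)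
      (mul_nonneg (mul_nonneg (hr.nonneg p) (h.nonneg b)) (h.nonneg v))

theorem ER_mono (h : Bulk Y Λ ρ) {n m : ℕ} {F G : List S → List S → List S → ℝ}
    (hFG : ∀ p β v, F p β v ≤ G p β v) : ER Y ρ n m F ≤ ER Y ρ n m G :=
  Y.E_mono fun _ _ => Y.E_mono fun _ _ => Y.E_mono fun _ _ =>
    mul_le_mul_of_nonneg_left (hFG _ _ _) (h.nonneg _)

theorem EU_mono (h : Bulk Y Λ ρ) (hr : Bulk Y Λ (rv ρ)) (hK : ∀ n, Y.a n ≤ K) {n m : ℕ}
    {F G : List S → List S → List S → ℝ} (hFG : ∀ p β v, F p β v ≤ G p β v) :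
    EU Y ρ n m F ≤ EU Y ρ n m G :=
  Y.E_mono fun _ _ => Y.E_mono fun _ _ => Y.E_mono fun _ _ =>
    mul_le_mul_of_nonneg_left (hFG _ _ _) (mul_nonneg (UU_nonneg hr hK _) (UU_nonneg h hK _))

theorem EU_fadd {n m : ℕ} (F G : List S → List S → List S → ℝ) :
    EU Y ρ n m (fun p β v => F p β v + G p β v) = EU Y ρ n m F + EU Y ρ n m G := by
  unfold EU
  simp only [mul_add, Y.E_fadd]

theorem EU_mul_left {n m : ℕ} (c : ℝ) (F : List S → List S → List S → ℝ) :
    EU Y ρ n m (fun p β v => c * F p β v) = c * EU Y ρ n m F := by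
  unfold EU
  simp only [← Y.E_mul_left]
  refine Y.E_congr fun p _ => Y.E_congr fun b _ => Y.E_congr fun v _ => by ring

theorem ER_fadd {n m : ℕ} (F G : List S → List S → List S → ℝ) :
    ER Y ρ n m (fun p β v => F p β v + G p β v) = ER Y ρ n m F + ER Y ρ n m G := by
  unfold ER
  simp only [mul_add, Y.E_fadd]

theorem ER_mul_left {n m : ℕ} (c : ℝ) (F : List S → List S → List S → ℝ) :
    ER Y ρ n m (fun p β v => c * F p β v) = c * ER Y ρ n m F := by
  unfold ER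
  simp only [← Y.E_mul_left]
  refine Y.E_congr fun p _ => Y.E_congr fun b _ => Y.E_congr fun v _ => by ring

/-- from the average over the random length of the middle word to one length -/
theorem transfer {H m n : ℕ} (hH : 0 < H) {ε : ℝ} {Ψ : List S → Zk k → List S → ℝ}
    (hN : |(H : ℝ)⁻¹ * (∑ j ∈ range H, Y.E n fun u => Y.E (m + j) fun b => Y.E n fun v =>
          ρ (u ++ b ++ v) * Ψ u.reverse (π (Y.sm b)) v) -
        Y.E n fun u => Y.E m fun b => Y.E n fun v =>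
          ρ u * ρ b * ρ v * Ψ u.reverse (π (Y.sm b)) v| ≤ ε) :
    ∃ j < H, EP Y π ρ n m Ψ - ε ≤ ER Y ρ n (m + j) fun p β v => Ψ p (π (Y.sm β)) v := by
  have e1 : (Y.E n fun u => Y.E m fun b => Y.E n fun v =>
          ρ u * ρ b * ρ v * Ψ u.reverse (π (Y.sm b)) v) = EP Y π ρ n m Ψ := by
    unfold EP
    rw [← Y.E_reverse n (fun p => Y.E m fun b => Y.E n fun v =>
      rv ρ p * ρ b * ρ v * Ψ p (π (Y.sm b)) v)]
    refine Y.E_congr fun u _ => Y.E_congr fun b _ => Y.E_congr fun v _ => ?_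
    simp only [rv, List.reverse_reverse]
  have e2 : ∀ j, (Y.E n fun u => Y.E (m + j) fun b => Y.E n fun v =>
          ρ (u ++ b ++ v) * Ψ u.reverse (π (Y.sm b)) v) =
      ER Y ρ n (m + j) fun p β v => Ψ p (π (Y.sm β)) v := by
    intro j
    unfold ER
    rw [← Y.E_reverse n (fun p => Y.E (m + j) fun β => Y.E n fun v =>
      ρ (p.reverse ++ β.reverse ++ v) * Ψ p (π (Y.sm β)) v)]
    refine Y.E_congr fun u _ => ?_
    rw [← Y.E_reverse (m + j) (fun β => Y.E n fun v =>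
      ρ (u.reverse.reverse ++ β.reverse ++ v) * Ψ u.reverse (π (Y.sm β)) v)]
    refine Y.E_congr fun b _ => Y.E_congr fun v _ => ?_
    simp only [List.reverse_reverse, Y.sm_reverse]
  rw [e1] at hN
  simp only [e2] at hN
  by_contra hcon
  push Not at hcon
  have hH' : (0 : ℝ) < H := by exact_mod_cast hH
  have h1 : ∑ j ∈ range H, ER Y ρ n (m + j) (fun p β v => Ψ p (π (Y.sm β)) v) <
      ∑ _j ∈ range H, (EP Y π ρ n m Ψ - ε) := by
    refine Finset.sum_lt_sum_of_nonempty ⟨0, Finset.mem_range.2 hH⟩ fun j hj => ?_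
    exact hcon j (Finset.mem_range.1 hj)
  rw [Finset.sum_const, Finset.card_range, nsmul_eq_mul] at h1
  have h2 := (abs_sub_le_iff.1 hN).2
  have h3 : (H : ℝ)⁻¹ * ∑ j ∈ range H, ER Y ρ n (m + j) (fun p β v => Ψ p (π (Y.sm β)) v) <
      EP Y π ρ n m Ψ - ε := by
    rw [inv_mul_lt_iff₀ hH']
    exact h1
  linarith

/-- truncation by the second moment -/
theorem EP_min (h : Bulk Y Λ ρ) (hr : Bulk Y Λ (rv ρ)) {n m : ℕ}
    {F : List S → Zk k → List S → ℝ} (hF : ∀ p z v, 0 ≤ F p z v) {m₁ M₂ : ℝ} (hm : 0 < m₁)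
    (hM : 0 < M₂) (h1 : m₁ ≤ EP Y π ρ n m F) (h2 : EP Y π ρ n m (fun p z v => F p z v ^ 2) ≤ M₂) :
    m₁ ^ 2 / (4 * M₂) ≤ EP Y π ρ n m fun p z v => min (F p z v / (2 * M₂ / m₁)) 1 := by
  set c : ℝ := 2 * M₂ / m₁ with hc
  have hc0 : 0 < c := by positivity
  have h3 : ∀ x : ℝ, 0 ≤ x → x / c - x ^ 2 / c ^ 2 ≤ min (x / c) 1 := by
    intro x hx
    have e : x / c - x ^ 2 / c ^ 2 = x / c - (x / c) ^ 2 := by rw [div_pow x c 2]
    rw [e]
    refine le_min ?_ ?_
    · have := sq_nonneg (x / c); linarith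
    · nlinarith [sq_nonneg (x / c - 1)]
  have h4 : EP Y π ρ n m (fun p z v => F p z v / c - F p z v ^ 2 / c ^ 2) ≤
      EP Y π ρ n m fun p z v => min (F p z v / c) 1 :=
    EP_mono h hr fun p z v => h3 _ (hF p z v)
  have h5 : EP Y π ρ n m (fun p z v => F p z v / c - F p z v ^ 2 / c ^ 2) =
      EP Y π ρ n m F / c - EP Y π ρ n m (fun p z v => F p z v ^ 2) / c ^ 2 := by
    unfold EP
    simp only [div_eq_mul_inv, ← Y.E_mul_right, ← Y.E_fsub]
    refine Y.E_congr fun p _ => Y.E_congr fun b _ => Y.E_congr fun v _ => by ring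
  rw [h5] at h4
  refine le_trans ?_ h4
  have h6 : m₁ / c ≤ EP Y π ρ n m F / c := div_le_div_of_nonneg_right h1 hc0.le
  have h7 : EP Y π ρ n m (fun p z v => F p z v ^ 2) / c ^ 2 ≤ M₂ / c ^ 2 :=
    div_le_div_of_nonneg_right h2 (by positivity)
  have h8 : m₁ / c - M₂ / c ^ 2 = m₁ ^ 2 / (4 * M₂) := by
    rw [hc]
    field_simp
    ring
  linarith

/-- the event that the left arm is not too unlikely -/
theorem ER_min_le (h : Bulk Y Λ ρ) (hr : Bulk Y Λ (rv ρ)) (hK : ∀ n, Y.a n ≤ K) {κ₁ : ℝ}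
    (hκ : 0 < κ₁) (n m : ℕ) {F : List S → List S → List S → ℝ}
    {G : List S → List S → List S → ℝ} (hG : ∀ p β v, 0 ≤ G p β v)
    {B : List S → List S → List S → ℝ} (hB : ∀ p β v, 0 ≤ B p β v) {c : ℝ} (hc : 0 < c)
    (hFGB : ∀ p β v, F p β v ≤ G p β v + B p β v) :
    ER Y ρ n m (fun p β v => min (F p β v / c) 1) ≤
      κ₁ * K + c⁻¹ * ER Y ρ n m G + κ₁⁻¹ * c⁻¹ * EU Y ρ n m B := by
  have hκ' : 0 < κ₁⁻¹ := inv_pos.2 hκ
  have hc' : 0 < c⁻¹ := inv_pos.2 hc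
  have h1 : ER Y ρ n m (fun p β v => min (F p β v / c) 1) ≤
      ER Y ρ n m (fun p β _ => ind (¬ good Y (rv ρ) κ₁ (β ++ p))) +
        c⁻¹ * ER Y ρ n m G + κ₁⁻¹ * c⁻¹ * EU Y ρ n m B := by
    unfold ER EU
    simp only [← Y.E_mul_left, ← Y.E_fadd]
    refine Y.E_mono fun p _ => Y.E_mono fun β _ => Y.E_mono fun v _ => ?_
    have hρ := h.nonneg (p.reverse ++ β.reverse ++ v)
    have hG' := hG p β v
    have hB' := hB p β v
    have hU1 := UU_nonneg hr hK (β ++ p)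
    have hU2 := UU_nonneg h hK v
    by_cases hg : good Y (rv ρ) κ₁ (β ++ p)
    · have h2 : ρ (p.reverse ++ β.reverse ++ v) ≤ UU Y ρ v :=
        (le_ss h _ v).trans (ss_le_UU h hK v)
      have h3 : ρ (p.reverse ++ β.reverse ++ v) ≤ κ₁⁻¹ * (UU Y (rv ρ) (β ++ p) * UU Y ρ v) := by
        refine h2.trans ?_
        rw [inv_mul_eq_div, le_div_iff₀ hκ, mul_comm]
        exact mul_le_mul_of_nonneg_right hg hU2
      have h4 : min (F p β v / c) 1 ≤ (G p β v + B p β v) * c⁻¹ := by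
        refine (min_le_left _ _).trans ?_
        rw [div_eq_mul_inv]
        exact mul_le_mul_of_nonneg_right (hFGB p β v) hc'.le
      have h5 := mul_le_mul_of_nonneg_left h4 hρ
      have h6 : ρ (p.reverse ++ β.reverse ++ v) * (B p β v * c⁻¹) ≤
          κ₁⁻¹ * (UU Y (rv ρ) (β ++ p) * UU Y ρ v) * (B p β v * c⁻¹) :=
        mul_le_mul_of_nonneg_right h3 (mul_nonneg hB' hc'.le)
      have h7 := ind_nonneg (¬ good Y (rv ρ) κ₁ (β ++ p))
      have h8 := mul_nonneg hρ h7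
      nlinarith
    · rw [ind_not (P := good Y (rv ρ) κ₁ (β ++ p)) hg |> fun _ => ind_of hg]
      have h4 : min (F p β v / c) 1 ≤ 1 := min_le_right _ _
      have h5 := mul_le_mul_of_nonneg_left h4 hρ
      have h6 : 0 ≤ c⁻¹ * (ρ (p.reverse ++ β.reverse ++ v) * G p β v) := by positivity
      have h7 : 0 ≤ κ₁⁻¹ * c⁻¹ * (UU Y (rv ρ) (β ++ p) * UU Y ρ v * B p β v) := by positivity
      linarith
  have h2 : ER Y ρ n m (fun p β _ => ind (¬ good Y (rv ρ) κ₁ (β ++ p))) ≤ κ₁ * K := by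
    have h3 : ER Y ρ n m (fun p β _ => ind (¬ good Y (rv ρ) κ₁ (β ++ p))) =
        Y.E (m + n) fun ξ => rv ρ ξ * ind (¬ good Y (rv ρ) κ₁ ξ) := by
      rw [Y.E_add, Y.E_comm]
      unfold ER
      refine Y.E_congr fun p _ => Y.E_congr fun β _ => ?_
      rw [Y.E_mul_right]
      congr 1
      rw [h.right]
      simp [rv]
    rw [h3]
    exact bad_le hr hK hκ.le (m + n)
  linarith

end Pool.Agent.SawM2
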