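import Pool.Agent.SawM2.End3

/-!
# The exceptional pairs
-/

set_option autoImplicit false

namespace Pool.Agent.SawM2

open Finset Filter Topology Pool.Agent.Bub4 Pool.Agent.SawDiff

variable {S V : Type} [Fintype S] [AddCommGroup V] {k : ℕ}

variable {Y : Sys S V} {π : V →+ Zk k} {Λ K : ℝ} {ρ : List S → ℝ}

/-- a function of a prefix -/
theorem E_take (h : Bulk Y Λ ρ) (hK : ∀ n, Y.a n ≤ K) {t n : ℕ} (htn : t ≤ n) (u : List S)
    (G : List S → ℝ) :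
    (Y.E n fun p => UU Y ρ (u ++ p) * G (p.take t)) = Y.E t fun x => UU Y ρ (u ++ x) * G x := by
  obtain ⟨r, rfl⟩ := Nat.exists_eq_add_of_le htn
  rw [Y.E_add]
  refine Y.E_congr fun x hx => ?_
  have e : ∀ w : List S, (x ++ w).take t = x := by
    intro w
    rw [← hx, List.take_left]
  simp only [e]
  rw [Y.E_mul_right]
  congr 1
  rw [← UU_right h hK (u ++ x) r]
  simp only [List.append_assoc]

theorem EU_pair (h : Bulk Y Λ ρ) (hr : Bulk Y Λ (rv ρ)) (hK : ∀ n, Y.a n ≤ K) {n : ℕ} (m : ℕ)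
    {t s : ℕ} (ht : t ≤ n) (hs : s ≤ n) {G : List S → List S → List S → ℝ}
    (hG : ∀ β x y, 0 ≤ G β x y) :
    EU Y ρ n m (fun p β v => G β (p.take t) (v.take s)) ≤
      Y.E m fun β => Y.sv β * Y.E t fun x => Y.E s fun y =>
        UU Y (rv ρ) x * UU Y ρ y * G β x y := by
  unfold EU
  rw [Y.E_comm]
  refine Y.E_mono fun β _ => ?_
  have e1 : ∀ p : List S, (Y.E n fun v => UU Y (rv ρ) (β ++ p) * UU Y ρ v *
      G β (p.take t) (v.take s)) = UU Y (rv ρ) (β ++ p) *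
        Y.E s fun y => UU Y ρ y * G β (p.take t) y := by
    intro p
    have h1 := E_take h hK hs [] (fun y => G β (p.take t) y)
    simp only [List.nil_append] at h1
    rw [← h1, ← Y.E_mul_left]
    exact Y.E_congr fun v _ => by ring
  simp only [e1]
  rw [E_take hr hK ht β (fun x => Y.E s fun y => UU Y ρ y * G β x y), ← Y.E_mul_left]
  refine Y.E_mono fun x _ => ?_
  have e2 : (Y.E s fun y => UU Y (rv ρ) x * UU Y ρ y * G β x y) =
      UU Y (rv ρ) x * Y.E s fun y => UU Y ρ y * G β x y := by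
    rw [← Y.E_mul_left]
    exact Y.E_congr fun v _ => by ring
  rw [e2, ← mul_assoc]
  exact mul_le_mul_of_nonneg_right (UU_append_le' hr hK β x)
    (Y.E_nonneg' fun y => mul_nonneg (UU_nonneg h hK y) (hG _ _ _))

theorem EU_fsum {ι : Type} (s : Finset ι) {n m : ℕ} (F : ι → List S → List S → List S → ℝ) :
    EU Y ρ n m (fun p β v => ∑ i ∈ s, F i p β v) = ∑ i ∈ s, EU Y ρ n m (F i) := by
  unfold EU
  simp only [Finset.mul_sum, Y.E_fsum]

theorem E_sv_le (hK : ∀ n, Y.a n ≤ K) (m : ℕ) {c : ℝ} (hc : 0 ≤ c) {F : List S → ℝ}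
    (hF : ∀ β, F β ≤ c) : (Y.E m fun β => Y.sv β * F β) ≤ K * c := by
  have h1 : (Y.E m fun β => Y.sv β * F β) ≤ Y.E m fun β => Y.sv β * c :=
    Y.E_mono fun β _ => mul_le_mul_of_nonneg_left (hF β) (Y.sv_nonneg β)
  refine h1.trans ?_
  rw [Y.E_mul_right]
  exact mul_le_mul_of_nonneg_right (hK m) hc

/-- all pairs -/
theorem EU_all (h : Bulk Y Λ ρ) (hr : Bulk Y Λ (rv ρ)) (hK : ∀ n, Y.a n ≤ K) {κ : ℝ}
    {Qm Qp : List S → Prop} (hQm : ∀ x, Qm x → good Y (rv ρ) κ x)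
    (hQp : ∀ x, Qp x → good Y ρ κ x) {J : Finset ℕ} {n : ℕ} (hJ : ∀ t ∈ J, t ≤ n) (m : ℕ)
    {a : ℝ} (ha : 0 ≤ a) {M₁ : ℝ} (hM : 0 ≤ M₁)
    (S2 : ∀ z, (GS Y (n + 1) fun x => GS Y (n + 1) fun y => gw Y (rv ρ) κ x * gw Y ρ κ y *
      ker a (π (Y.sm x) + z + π (Y.sm y))) ≤ M₁) :
    EU Y ρ n m (fun p β v => HH Y π J Qm Qp a p (π (Y.sm β)) v) ≤ K * M₁ := by
  have h0 : ∀ β x y, 0 ≤ ind (Qm x) * ind (Qp y) * ker a (π (Y.sm x) + π (Y.sm β) + π (Y.sm y)) :=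
    fun β x y => mul_nonneg (mul_nonneg (ind_nonneg _) (ind_nonneg _)) (ker_nonneg ha _)
  have h1 : EU Y ρ n m (fun p β v => HH Y π J Qm Qp a p (π (Y.sm β)) v) ≤
      ∑ t ∈ J, ∑ s ∈ J, Y.E m fun β => Y.sv β * Y.E t fun x => Y.E s fun y =>
        UU Y (rv ρ) x * UU Y ρ y * (ind (Qm x) * ind (Qp y) *
          ker a (π (Y.sm x) + π (Y.sm β) + π (Y.sm y))) := by
    unfold HH
    simp only [EU_fsum]
    refine Finset.sum_le_sum fun t ht => Finset.sum_le_sum fun s hs => ?_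
    exact EU_pair h hr hK m (hJ t ht) (hJ s hs) (G := fun β x y => ind (Qm x) * ind (Qp y) *
      ker a (π (Y.sm x) + π (Y.sm β) + π (Y.sm y))) h0
  refine h1.trans ?_
  have h2 : ∑ t ∈ J, ∑ s ∈ J, (Y.E m fun β => Y.sv β * Y.E t fun x => Y.E s fun y =>
        UU Y (rv ρ) x * UU Y ρ y * (ind (Qm x) * ind (Qp y) *
          ker a (π (Y.sm x) + π (Y.sm β) + π (Y.sm y)))) =
      Y.E m fun β => Y.sv β * ∑ t ∈ J, ∑ s ∈ J, Y.E t fun x => Y.E s fun y =>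
        UU Y (rv ρ) x * UU Y ρ y * (ind (Qm x) * ind (Qp y) *
          ker a (π (Y.sm x) + π (Y.sm β) + π (Y.sm y))) := by
    simp only [Finset.mul_sum, Y.E_fsum]
  rw [h2]
  refine E_sv_le hK m hM fun β => ?_
  refine le_trans ?_ (S2 (π (Y.sm β)))
  unfold GS
  simp only [Y.E_fsum]
  have hn : ∀ x y, 0 ≤ gw Y (rv ρ) κ x * gw Y ρ κ y *
      ker a (π (Y.sm x) + π (Y.sm β) + π (Y.sm y)) := fun x y =>
    mul_nonneg (mul_nonneg (gw_nonneg hr hK κ x) (gw_nonneg h hK κ y)) (ker_nonneg ha _)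
  have h3 : ∑ t ∈ J, ∑ s ∈ J, (Y.E t fun x => Y.E s fun y =>
        UU Y (rv ρ) x * UU Y ρ y * (ind (Qm x) * ind (Qp y) *
          ker a (π (Y.sm x) + π (Y.sm β) + π (Y.sm y)))) ≤
      ∑ t ∈ J, ∑ s ∈ J, Y.E t fun x => Y.E s fun y => gw Y (rv ρ) κ x * gw Y ρ κ y *
        ker a (π (Y.sm x) + π (Y.sm β) + π (Y.sm y)) := by
    refine Finset.sum_le_sum fun t _ => Finset.sum_le_sum fun s _ => Y.E_mono fun x _ =>
      Y.E_mono fun y _ => ?_
    have i1 := ind_mono (hQm x)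
    have i2 := ind_mono (hQp y)
    have i3 := mul_le_mul i1 i2 (ind_nonneg _) (ind_nonneg _)
    have hk := ker_nonneg ha (π (Y.sm x) + π (Y.sm β) + π (Y.sm y))
    have hU := mul_nonneg (UU_nonneg hr hK x) (UU_nonneg h hK y)
    unfold gw
    calc UU Y (rv ρ) x * UU Y ρ y * (ind (Qm x) * ind (Qp y) *
          ker a (π (Y.sm x) + π (Y.sm β) + π (Y.sm y))) ≤
        UU Y (rv ρ) x * UU Y ρ y * (ind (good Y (rv ρ) κ x) * ind (good Y ρ κ y) *
          ker a (π (Y.sm x) + π (Y.sm β) + π (Y.sm y))) :=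
        mul_le_mul_of_nonneg_left (mul_le_mul_of_nonneg_right i3 hk) hU
      _ = _ := by ring
  refine h3.trans ?_
  have hsub : J ⊆ range (n + 1) := fun t ht => Finset.mem_range.2 (Nat.lt_succ_of_le (hJ t ht))
  have h4 : ∀ t s, 0 ≤ Y.E t fun x => Y.E s fun y => gw Y (rv ρ) κ x * gw Y ρ κ y *
        ker a (π (Y.sm x) + π (Y.sm β) + π (Y.sm y)) := fun t s =>
    Y.E_nonneg' fun x => Y.E_nonneg' fun y => hn x y
  refine (Finset.sum_le_sum fun t _ => Finset.sum_le_sum_of_subset_of_nonneg hsub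
    fun s _ _ => h4 t s).trans ?_
  refine (Finset.sum_le_sum_of_subset_of_nonneg hsub fun t _ _ =>
    Finset.sum_nonneg fun s _ => h4 t s).trans (le_of_eq ?_)
  rfl

/-- pairs for which an event about the left arm holds -/
theorem EU_left (h : Bulk Y Λ ρ) (hr : Bulk Y Λ (rv ρ)) (hK : ∀ n, Y.a n ≤ K)
    (Qm : List S → Prop) {Qp : List S → Prop} {J : Finset ℕ} {n : ℕ} (hJ : ∀ t ∈ J, t ≤ n) (m : ℕ)
    {a : ℝ} (ha : 0 ≤ a) {M₃ ε : ℝ} (hM : 0 ≤ M₃)
    (S1 : ∀ z, ∑ s ∈ J, (Y.E s fun y => UU Y ρ y * ind (Qp y) * ker a (z + π (Y.sm y))) ≤ M₃)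
    {B : List S → ℕ → Prop}
    (hB : ∀ t ∈ J, (Y.E (m + n) fun ξ => UU Y (rv ρ) ξ * ind (B ξ (m + t))) ≤ ε) :
    EU Y ρ n m (fun p β v => ∑ t ∈ J, ∑ s ∈ J, ind (Qm (p.take t)) * ind (Qp (v.take s)) *
      ker a (π (Y.sm (p.take t)) + π (Y.sm β) + π (Y.sm (v.take s))) *
        ind (B (β ++ p) (m + t))) ≤ J.card * (ε * M₃) := by
  rw [EU_fsum, ← nsmul_eq_mul, ← Finset.sum_const]
  refine Finset.sum_le_sum fun t ht => ?_
  have h1 : EU Y ρ n m (fun p β v => ∑ s ∈ J, ind (Qm (p.take t)) * ind (Qp (v.take s)) *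
      ker a (π (Y.sm (p.take t)) + π (Y.sm β) + π (Y.sm (v.take s))) *
        ind (B (β ++ p) (m + t))) ≤
      Y.E n fun p => Y.E m fun β => UU Y (rv ρ) (β ++ p) * ind (B (β ++ p) (m + t)) * M₃ := by
    unfold EU
    refine Y.E_mono fun p _ => Y.E_mono fun β _ => ?_
    have hU := UU_nonneg hr hK (β ++ p)
    have hi := ind_nonneg (B (β ++ p) (m + t))
    have h2 : (Y.E n fun v => UU Y (rv ρ) (β ++ p) * UU Y ρ v *
        ∑ s ∈ J, ind (Qm (p.take t)) * ind (Qp (v.take s)) *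
          ker a (π (Y.sm (p.take t)) + π (Y.sm β) + π (Y.sm (v.take s))) *
          ind (B (β ++ p) (m + t))) =
        UU Y (rv ρ) (β ++ p) * ind (B (β ++ p) (m + t)) * (ind (Qm (p.take t)) *
          ∑ s ∈ J, Y.E s fun y => UU Y ρ y * ind (Qp y) *
            ker a ((π (Y.sm (p.take t)) + π (Y.sm β)) + π (Y.sm y))) := by
      have e1 : ∀ s ∈ J, (Y.E s fun y => UU Y ρ y * ind (Qp y) *
            ker a ((π (Y.sm (p.take t)) + π (Y.sm β)) + π (Y.sm y))) =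
          Y.E n fun v => UU Y ρ v * (ind (Qp (v.take s)) *
            ker a ((π (Y.sm (p.take t)) + π (Y.sm β)) + π (Y.sm (v.take s)))) := by
        intro s hs
        have h3 := E_take h hK (hJ s hs) [] (fun y => ind (Qp y) *
            ker a ((π (Y.sm (p.take t)) + π (Y.sm β)) + π (Y.sm y)))
        simp only [List.nil_append] at h3
        rw [h3]
        exact Y.E_congr fun y _ => by ring
      rw [Finset.sum_congr rfl e1, ← Y.E_fsum, ← Y.E_mul_left, ← Y.E_mul_left]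
      refine Y.E_congr fun v _ => ?_
      simp only [Finset.mul_sum]
      exact Finset.sum_congr rfl fun s _ => by ring
    rw [h2]
    refine mul_le_mul_of_nonneg_left ?_ (mul_nonneg hU hi)
    refine le_trans ?_ (S1 (π (Y.sm (p.take t)) + π (Y.sm β)))
    refine mul_le_of_le_one_left ?_ (ind_le_one _)
    exact Finset.sum_nonneg fun s _ => Y.E_nonneg' fun y =>
      mul_nonneg (mul_nonneg (UU_nonneg h hK y) (ind_nonneg _)) (ker_nonneg ha _)
  refine h1.trans ?_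
  rw [Y.E_comm]
  have h2 : (Y.E m fun β => Y.E n fun p => UU Y (rv ρ) (β ++ p) *
      ind (B (β ++ p) (m + t)) * M₃) =
      (Y.E (m + n) fun ξ => UU Y (rv ρ) ξ * ind (B ξ (m + t))) * M₃ := by
    rw [Y.E_add, ← Y.E_mul_right]
    refine Y.E_congr fun β _ => ?_
    rw [Y.E_mul_right]
  rw [h2]
  exact mul_le_mul_of_nonneg_right (hB t ht) hM

/-- pairs for which an event about the prefix of the right arm holds -/
theorem EU_right (h : Bulk Y Λ ρ) (hr : Bulk Y Λ (rv ρ)) (hK : ∀ n, Y.a n ≤ K)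
    {Qm : List S → Prop} (Qp : List S → Prop) {J : Finset ℕ} {n : ℕ} (hJ : ∀ t ∈ J, t ≤ n) (m : ℕ)
    {a : ℝ} (ha : 0 ≤ a) {M₃ ε : ℝ} (hM : 0 ≤ M₃) (hε : 0 ≤ ε)
    (S1 : ∀ z, ∑ t ∈ J, (Y.E t fun x => UU Y (rv ρ) x * ind (Qm x) * ker a (z + π (Y.sm x))) ≤ M₃)
    {B : List S → Prop} (hB : ∀ s ∈ J, (Y.E s fun y => UU Y ρ y * ind (B y)) ≤ ε) :
    EU Y ρ n m (fun p β v => ∑ t ∈ J, ∑ s ∈ J, ind (Qm (p.take t)) * ind (Qp (v.take s)) *
      ker a (π (Y.sm (p.take t)) + π (Y.sm β) + π (Y.sm (v.take s))) *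
        ind (B (v.take s))) ≤ J.card * (K * (ε * M₃)) := by
  have h0 : ∀ β x y, 0 ≤ ind (Qm x) * ind (Qp y) *
      ker a (π (Y.sm x) + π (Y.sm β) + π (Y.sm y)) * ind (B y) :=
    fun β x y => mul_nonneg (mul_nonneg (mul_nonneg (ind_nonneg _) (ind_nonneg _))
      (ker_nonneg ha _)) (ind_nonneg _)
  have h1 : EU Y ρ n m (fun p β v => ∑ t ∈ J, ∑ s ∈ J, ind (Qm (p.take t)) * ind (Qp (v.take s)) *
      ker a (π (Y.sm (p.take t)) + π (Y.sm β) + π (Y.sm (v.take s))) *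
        ind (B (v.take s))) ≤
      ∑ t ∈ J, ∑ s ∈ J, Y.E m fun β => Y.sv β * Y.E t fun x => Y.E s fun y =>
        UU Y (rv ρ) x * UU Y ρ y * (ind (Qm x) * ind (Qp y) *
          ker a (π (Y.sm x) + π (Y.sm β) + π (Y.sm y)) * ind (B y)) := by
    simp only [EU_fsum]
    refine Finset.sum_le_sum fun t ht => Finset.sum_le_sum fun s hs => ?_
    exact EU_pair h hr hK m (hJ t ht) (hJ s hs) (G := fun β x y => ind (Qm x) * ind (Qp y) *
      ker a (π (Y.sm x) + π (Y.sm β) + π (Y.sm y)) * ind (B y)) h0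
  refine h1.trans ?_
  rw [Finset.sum_comm, ← nsmul_eq_mul, ← Finset.sum_const]
  refine Finset.sum_le_sum fun s hs => ?_
  have h2 : ∑ t ∈ J, (Y.E m fun β => Y.sv β * Y.E t fun x => Y.E s fun y =>
        UU Y (rv ρ) x * UU Y ρ y * (ind (Qm x) * ind (Qp y) *
          ker a (π (Y.sm x) + π (Y.sm β) + π (Y.sm y)) * ind (B y))) =
      Y.E m fun β => Y.sv β * ∑ t ∈ J, Y.E t fun x => Y.E s fun y =>
        UU Y (rv ρ) x * UU Y ρ y * (ind (Qm x) * ind (Qp y) *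
          ker a (π (Y.sm x) + π (Y.sm β) + π (Y.sm y)) * ind (B y)) := by
    simp only [Finset.mul_sum, Y.E_fsum]
  rw [h2]
  refine E_sv_le hK m (mul_nonneg hε hM) fun β => ?_
  have h3 : ∑ t ∈ J, (Y.E t fun x => Y.E s fun y =>
        UU Y (rv ρ) x * UU Y ρ y * (ind (Qm x) * ind (Qp y) *
          ker a (π (Y.sm x) + π (Y.sm β) + π (Y.sm y)) * ind (B y))) =
      Y.E s fun y => UU Y ρ y * ind (B y) * (ind (Qp y) * ∑ t ∈ J, Y.E t fun x =>
        UU Y (rv ρ) x * ind (Qm x) * ker a ((π (Y.sm β) + π (Y.sm y)) + π (Y.sm x))) := by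
    simp only [Y.E_comm _ s]
    rw [← Y.E_fsum]
    refine Y.E_congr fun y _ => ?_
    rw [Finset.mul_sum, Finset.mul_sum]
    refine Finset.sum_congr rfl fun t _ => ?_
    rw [← Y.E_mul_left, ← Y.E_mul_left]
    refine Y.E_congr fun x _ => ?_
    have e : π (Y.sm x) + π (Y.sm β) + π (Y.sm y) = (π (Y.sm β) + π (Y.sm y)) + π (Y.sm x) := by
      abel
    rw [e]
    ring
  rw [h3]
  have h4 : (Y.E s fun y => UU Y ρ y * ind (B y) * (ind (Qp y) * ∑ t ∈ J, Y.E t fun x =>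
        UU Y (rv ρ) x * ind (Qm x) * ker a ((π (Y.sm β) + π (Y.sm y)) + π (Y.sm x)))) ≤
      Y.E s fun y => UU Y ρ y * ind (B y) * M₃ := by
    refine Y.E_mono fun y _ => mul_le_mul_of_nonneg_left ?_
      (mul_nonneg (UU_nonneg h hK y) (ind_nonneg _))
    refine le_trans ?_ (S1 (π (Y.sm β) + π (Y.sm y)))
    refine mul_le_of_le_one_left ?_ (ind_le_one _)
    exact Finset.sum_nonneg fun t _ => Y.E_nonneg' fun x =>
      mul_nonneg (mul_nonneg (UU_nonneg hr hK x) (ind_nonneg _)) (ker_nonneg ha _)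
  refine h4.trans ?_
  rw [Y.E_mul_right]
  exact mul_le_mul_of_nonneg_right (hB s hs) hM

end Pool.Agent.SawM2
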