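import Pool.Agent.SawM2.End4
import Pool.Agent.SawNice.Box

/-!
# Nice pairs
-/

set_option autoImplicit false

namespace Pool.Agent.SawM2

open Finset Filter Topology Pool.Agent.Bub4 Pool.Agent.SawDiff Pool.Agent.SawNice

variable {S : Type} [Fintype S] {d : ℕ} {Y : Sys S (Zk d)} {Λ K : ℝ} {ρ : List S → ℝ}

/-- the word `ξ` comes back near its place at time `τ` at a time which is at least `l` away -/
def Ret (Y : Sys S (Zk d)) (R l : ℕ) (ξ : List S) (τ : ℕ) : Prop :=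
  ∃ τ' ≤ ξ.length, (τ' + l ≤ τ ∨ τ + l ≤ τ') ∧
    ∀ i, |Y.sm (ξ.take τ') i - Y.sm (ξ.take τ) i| ≤ R

theorem pa_reverse (Y : Sys S (Zk d)) (ξ : List S) (τ : ℕ) (hτ : τ ≤ ξ.length) :
    pa Y ξ.reverse (ξ.length - τ) = - Y.sm (ξ.take τ) := by
  unfold pa
  rw [List.drop_reverse]
  have e : ξ.length - (ξ.length - τ) = τ := by omega
  rw [e, Y.sm_reverse]

theorem pa_reverse' (Y : Sys S (Zk d)) (ξ : List S) (k : ℕ) :
    pa Y ξ.reverse k = - Y.sm (ξ.take (ξ.length - k)) := by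
  unfold pa
  rw [List.drop_reverse, Y.sm_reverse]

theorem nice_of (hstep : ∀ s i, |Y.vec s i| ≤ 1) {D : Finset (Zk d)} {R₀ R l : ℕ}
    (hD1 : ∀ x : Zk d, (∀ i, |x i| ≤ R₀ + 1) → x ∈ D)
    (hD2 : ∀ x ∈ D, ∀ y ∈ D, ∀ i, |x i - y i| ≤ R) {ξ v : List S} {s : ℕ} {τ : ℕ} (hτ1 : 1 ≤ τ) (hτ : τ ≤ ξ.length)
    (hret : ¬ Ret Y R l ξ τ) (hnear : ∀ i, |Y.sm (ξ.take τ) i + Y.sm (v.take s) i| ≤ R₀) :
    ∃ i j, i < j ∧ j ≤ ξ.length ∧ j ≤ i + 2 * l ∧
      pa Y ξ.reverse i - fu Y v s ∈ D ∧ pa Y ξ.reverse j - fu Y v s ∈ D ∧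
      ∀ k ≤ ξ.length, pa Y ξ.reverse k - fu Y v s ∈ D → i ≤ k ∧ k ≤ j := by
  classical
  set W := (range (ξ.length + 1)).filter fun k => pa Y ξ.reverse k - fu Y v s ∈ D with hW
  have hin : ∀ τ' ≤ ξ.length, (∀ i, |Y.sm (ξ.take τ') i + Y.sm (v.take s) i| ≤ R₀ + 1) →
      ξ.length - τ' ∈ W := by
    intro τ' hτ' hh
    rw [hW, Finset.mem_filter, Finset.mem_range]
    refine ⟨by omega, hD1 _ fun i => ?_⟩
    rw [pa_reverse Y ξ τ' hτ']
    show |(-Y.sm (ξ.take τ')) i - (Y.sm (v.take s)) i| ≤ _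
    have e : (-Y.sm (ξ.take τ')) i - (Y.sm (v.take s)) i =
        -(Y.sm (ξ.take τ') i + Y.sm (v.take s) i) := by
      rw [Pi.neg_apply]; ring
    rw [e, abs_neg]
    exact hh i
  have m0 : ξ.length - τ ∈ W := hin τ hτ fun i => (hnear i).trans (by linarith)
  have m1 : ξ.length - (τ - 1) ∈ W := by
    refine hin (τ - 1) (by omega) fun i => ?_
    have e1 : ξ.take τ = ξ.take (τ - 1) ++ (ξ.drop (τ - 1)).take 1 := by
      rw [← List.take_add]
      congr 1
      omega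
    obtain ⟨c, hc⟩ : ∃ c, (ξ.drop (τ - 1)).take 1 = [c] := by
      have hl : ((ξ.drop (τ - 1)).take 1).length = 1 := by
        rw [List.length_take, List.length_drop]
        omega
      exact List.length_eq_one_iff.1 hl
    have e2 : Y.sm (ξ.take τ) = Y.sm (ξ.take (τ - 1)) + Y.vec c := by
      rw [e1, hc, Y.sm_append]
      congr 1
      simp [Sys.sm]
    have h1 := hnear i
    rw [e2, Pi.add_apply] at h1
    have h2 := hstep c i
    have e3 : Y.sm (ξ.take (τ - 1)) i + Y.sm (v.take s) i =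
        (Y.sm (ξ.take (τ - 1)) i + Y.vec c i + Y.sm (v.take s) i) + - Y.vec c i := by ring
    rw [e3]
    refine (abs_add_le _ _).trans ?_
    rw [abs_neg]
    exact add_le_add h1 h2
  have hloc : ∀ k ∈ W, ξ.length - τ < k + l ∧ k < ξ.length - τ + l := by
    intro k hk
    rw [hW, Finset.mem_filter, Finset.mem_range] at hk
    have h1 := (Finset.mem_filter.1 m0).2
    by_contra hcon
    apply hret
    refine ⟨ξ.length - k, by omega, ?_, fun i => ?_⟩
    · omega
    · have h2 := hD2 _ h1 _ hk.2 i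
      rw [pa_reverse Y ξ τ hτ, pa_reverse' Y ξ k] at h2
      have e : (-Y.sm (ξ.take τ) - fu Y v s) i - (-Y.sm (ξ.take (ξ.length - k)) - fu Y v s) i =
          Y.sm (ξ.take (ξ.length - k)) i - Y.sm (ξ.take τ) i := by
        simp only [Pi.sub_apply, Pi.neg_apply]
        ring
      rw [e] at h2
      exact h2
  have hne : W.Nonempty := ⟨_, m0⟩
  have hmin := W.min'_mem hne
  have hmax := W.max'_mem hne
  have h1 := W.min'_le _ m0
  have h2 := W.le_max' _ m1
  refine ⟨W.min' hne, W.max' hne, by omega, ?_, ?_, (Finset.mem_filter.1 hmin).2,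
    (Finset.mem_filter.1 hmax).2, fun k hk hkD => ?_⟩
  · have := Finset.mem_range.1 (Finset.mem_filter.1 hmax).1
    omega
  · have h3 := hloc _ hmin
    have h4 := hloc _ hmax
    omega
  · have hkW : k ∈ W := Finset.mem_filter.2 ⟨Finset.mem_range.2 (by omega), hkD⟩
    exact ⟨W.min'_le _ hkW, W.le_max' _ hkW⟩

theorem nice_count (hstep : ∀ s i, |Y.vec s i| ≤ 1) {D : Finset (Zk d)} {R₀ R l : ℕ}
    (hD1 : ∀ x : Zk d, (∀ i, |x i| ≤ R₀ + 1) → x ∈ D)
    (hD2 : ∀ x ∈ D, ∀ y ∈ D, ∀ i, |x i - y i| ≤ R) {p β v : List S} {n m : ℕ}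
    (hp : p.length = n) (hβ : β.length = m) (hv : v.length = n) {s : ℕ}
    (hs1 : 1 ≤ s) (hs : s ≤ n) {J : Finset ℕ} (hJ : ∀ t ∈ J, 1 ≤ t ∧ t ≤ n) {P : ℕ → Prop}
    (hP : ∀ t ∈ J, P t → ¬ Ret Y R l (β ++ p) (m + t) ∧
      ∀ i, |Y.sm ((β ++ p).take (m + t)) i + Y.sm (v.take s) i| ≤ R₀) :
    ∑ t ∈ J, ind (P t) ≤ (2 * l + 1 : ℕ) * ind (Nice Y D (2 * l) (p.reverse ++ β.reverse) v s) := by
  classical
  have hξ : (β ++ p).length = m + n := by rw [List.length_append, hβ, hp]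
  have hU : p.reverse ++ β.reverse = (β ++ p).reverse := by rw [List.reverse_append]
  rw [hU]
  by_cases hex : ∃ t ∈ J, P t
  · obtain ⟨t₀, ht₀, hPt₀⟩ := hex
    obtain ⟨h1, h2⟩ := hP t₀ ht₀ hPt₀
    have hJ0 := hJ t₀ ht₀
    obtain ⟨i, j, hij, hj, hji, hiD, hjD, hall⟩ := nice_of hstep hD1 hD2 (ξ := β ++ p) (v := v)
      (s := s) (τ := m + t₀) (by omega) (by omega) h1 h2
    have hN : Nice Y D (2 * l) (β ++ p).reverse v s := by
      refine ⟨hs1, by omega, i, j, hij, by rw [List.length_reverse]; exact hj, hji, hiD, hjD, ?_⟩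
      intro k hk
      rw [List.length_reverse] at hk
      exact hall k hk
    rw [ind_of hN, mul_one]
    have h3 : ∑ t ∈ J, ind (P t) = ((J.filter P).card : ℝ) := by
      rw [Finset.card_filter]
      push_cast
      refine Finset.sum_congr rfl fun t _ => ?_
      unfold ind
      split_ifs <;> simp
    rw [h3]
    have h4 : (J.filter P).card ≤ (Finset.Icc (n - j) (n - i)).card := by
      refine Finset.card_le_card fun t ht => ?_
      obtain ⟨htJ, hPt⟩ := Finset.mem_filter.1 ht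
      obtain ⟨g1, g2⟩ := hP t htJ hPt
      have hJt := hJ t htJ
      have g3 : pa Y (β ++ p).reverse ((β ++ p).length - (m + t)) - fu Y v s ∈ D := by
        refine hD1 _ fun i => ?_
        rw [pa_reverse Y (β ++ p) (m + t) (by omega)]
        show |(-Y.sm ((β ++ p).take (m + t))) i - (Y.sm (v.take s)) i| ≤ _
        have e : (-Y.sm ((β ++ p).take (m + t))) i - (Y.sm (v.take s)) i =
            -(Y.sm ((β ++ p).take (m + t)) i + Y.sm (v.take s) i) := by
          rw [Pi.neg_apply]; ring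
        rw [e, abs_neg]
        exact (g2 i).trans (by linarith)
      have g4 := hall _ (by omega) g3
      rw [hξ] at g4
      rw [Finset.mem_Icc]
      omega
    rw [Nat.card_Icc] at h4
    have h5 : (J.filter P).card ≤ 2 * l + 1 := by omega
    exact_mod_cast h5
  · have h3 : ∑ t ∈ J, ind (P t) = 0 :=
      Finset.sum_eq_zero fun t ht => ind_not fun h => hex ⟨t, ht, h⟩
    rw [h3]
    exact mul_nonneg (Nat.cast_nonneg _) (ind_nonneg _)

/-- the expected number of nice pairs is bounded -/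
theorem ER_nice (h : Bulk Y Λ ρ) (hstep : ∀ s i, |Y.vec s i| ≤ 1) {D : Finset (Zk d)}
    {R₀ R l : ℕ} (hD1 : ∀ x : Zk d, (∀ i, |x i| ≤ R₀ + 1) → x ∈ D)
    (hD2 : ∀ x ∈ D, ∀ y ∈ D, ∀ i, |x i - y i| ≤ R) {C : ℝ}
    (hN : open Classical in ∀ n n', (Y.E n fun u => Y.E n' fun v => Y.sv (u ++ v) *
        (((range (n' + 1)).filter fun t => Nice Y D (2 * l) u v t).card : ℝ)) ≤ C)
    {n m : ℕ} {J : Finset ℕ} (hJ : ∀ t ∈ J, 1 ≤ t ∧ t ≤ n)
    {P : List S → List S → List S → ℕ → ℕ → Prop}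
    (hP : ∀ p β v : List S, p.length = n → β.length = m → v.length = n → ∀ t ∈ J, ∀ s ∈ J,
      P p β v t s → ¬ Ret Y R l (β ++ p) (m + t) ∧
        ∀ i, |Y.sm ((β ++ p).take (m + t)) i + Y.sm (v.take s) i| ≤ R₀) :
    ER Y ρ n m (fun p β v => ∑ t ∈ J, ∑ s ∈ J, ind (P p β v t s)) ≤
      Λ * (2 * l + 1 : ℕ) * C := by
  classical
  have h1 : ER Y ρ n m (fun p β v => ∑ t ∈ J, ∑ s ∈ J, ind (P p β v t s)) ≤
      Y.E n fun p => Y.E m fun β => Y.E n fun v => Λ * (2 * l + 1 : ℕ) *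
        (Y.sv (p.reverse ++ β.reverse ++ v) * (((range (n + 1)).filter fun t =>
          Nice Y D (2 * l) (p.reverse ++ β.reverse) v t).card : ℝ)) := by
    unfold ER
    refine Y.E_mono fun p hp => Y.E_mono fun β hβ => Y.E_mono fun v hv => ?_
    have h2 : ∑ t ∈ J, ∑ s ∈ J, ind (P p β v t s) ≤ (2 * l + 1 : ℕ) *
        (((range (n + 1)).filter fun t =>
          Nice Y D (2 * l) (p.reverse ++ β.reverse) v t).card : ℝ) := by
      rw [Finset.sum_comm]
      have h3 : ∀ s ∈ J, ∑ t ∈ J, ind (P p β v t s) ≤ (2 * l + 1 : ℕ) *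
          ind (Nice Y D (2 * l) (p.reverse ++ β.reverse) v s) := fun s hs =>
        nice_count hstep hD1 hD2 hp hβ hv (hJ s hs).1 (hJ s hs).2 hJ
          fun t ht hPt => hP p β v hp hβ hv t ht s hs hPt
      refine (Finset.sum_le_sum h3).trans ?_
      rw [← Finset.mul_sum]
      refine mul_le_mul_of_nonneg_left ?_ (Nat.cast_nonneg _)
      have h4 : ∑ s ∈ J, ind (Nice Y D (2 * l) (p.reverse ++ β.reverse) v s) ≤
          ∑ s ∈ range (n + 1), ind (Nice Y D (2 * l) (p.reverse ++ β.reverse) v s) := by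
        refine Finset.sum_le_sum_of_subset_of_nonneg ?_ fun s _ _ => ind_nonneg _
        intro s hs
        exact Finset.mem_range.2 (Nat.lt_succ_of_le (hJ s hs).2)
      refine h4.trans (le_of_eq ?_)
      rw [Finset.card_filter]
      push_cast
      refine Finset.sum_congr rfl fun t _ => ?_
      unfold ind
      split_ifs <;> simp
    have h5 := h.le (p.reverse ++ β.reverse ++ v)
    have h6 := h.nonneg (p.reverse ++ β.reverse ++ v)
    have h7 : (0 : ℝ) ≤ (((range (n + 1)).filter fun t =>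
          Nice Y D (2 * l) (p.reverse ++ β.reverse) v t).card : ℝ) := Nat.cast_nonneg _
    have h8 : (0 : ℝ) ≤ ((2 * l + 1 : ℕ) : ℝ) := Nat.cast_nonneg _
    calc ρ (p.reverse ++ β.reverse ++ v) * ∑ t ∈ J, ∑ s ∈ J, ind (P p β v t s)
        ≤ ρ (p.reverse ++ β.reverse ++ v) * ((2 * l + 1 : ℕ) *
        (((range (n + 1)).filter fun t =>
          Nice Y D (2 * l) (p.reverse ++ β.reverse) v t).card : ℝ)) :=
          mul_le_mul_of_nonneg_left h2 h6
      _ ≤ (Λ * Y.sv (p.reverse ++ β.reverse ++ v)) * ((2 * l + 1 : ℕ) *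
        (((range (n + 1)).filter fun t =>
          Nice Y D (2 * l) (p.reverse ++ β.reverse) v t).card : ℝ)) :=
          mul_le_mul_of_nonneg_right h5 (mul_nonneg h8 h7)
      _ = _ := by ring
  refine h1.trans ?_
  have h2 : (Y.E n fun p => Y.E m fun β => Y.E n fun v => Λ * (2 * l + 1 : ℕ) *
        (Y.sv (p.reverse ++ β.reverse ++ v) * (((range (n + 1)).filter fun t =>
          Nice Y D (2 * l) (p.reverse ++ β.reverse) v t).card : ℝ))) =
      Λ * (2 * l + 1 : ℕ) * Y.E (n + m) fun u => Y.E n fun v => Y.sv (u ++ v) *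
        (((range (n + 1)).filter fun t => Nice Y D (2 * l) u v t).card : ℝ) := by
    simp only [Y.E_mul_left]
    congr 1
    rw [Y.E_add]
    rw [← Y.E_reverse n (fun u => Y.E m fun w => Y.E n fun v => Y.sv (u ++ w ++ v) *
        (((range (n + 1)).filter fun t => Nice Y D (2 * l) (u ++ w) v t).card : ℝ))]
    refine Y.E_congr fun p _ => ?_
    rw [← Y.E_reverse m (fun w => Y.E n fun v => Y.sv (p.reverse ++ w ++ v) *
        (((range (n + 1)).filter fun t => Nice Y D (2 * l) (p.reverse ++ w) v t).card : ℝ))]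
  rw [h2]
  refine mul_le_mul_of_nonneg_left (hN (n + m) n) ?_
  have hΛ : 0 ≤ Λ := h.pos.le
  positivity

end Pool.Agent.SawM2
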