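import Pool.Agent.SawM2.End5

/-!
# The main inequality of the last section
-/

set_option autoImplicit false

namespace Pool.Agent.SawM2

open Finset Filter Topology Pool.Agent.Bub4 Pool.Agent.SawDiff Pool.Agent.SawNice

variable {S : Type} [Fintype S] {d k : ℕ} {Y : Sys S (Zk d)} {π : Zk d →+ Zk k} {Λ K : ℝ}
  {ρ : List S → ℝ}

theorem ker_far {a : ℝ} (ha : 0 ≤ a) (ha1 : a ≤ 1) {R : ℕ} {x : Zk k} (hx : R ≤ n1 x) :
    ker a x ≤ Real.sqrt a ^ R * ker (Real.sqrt a) x := by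
  have hs0 : 0 ≤ Real.sqrt a := Real.sqrt_nonneg a
  have hs1 : Real.sqrt a ≤ 1 := by rw [Real.sqrt_le_one]; exact ha1
  unfold ker
  rw [← pow_add]
  have e : a ^ n1 x = Real.sqrt a ^ (n1 x + n1 x) := by
    rw [← two_mul, pow_mul, Real.sq_sqrt ha]
  rw [e]
  exact pow_le_pow_of_le_one hs0 hs1 (by omega)

/-- a slowly varying nonnegative function, cut off at `c`, is Lipschitz -/
theorem lip_min {H : Zk k → ℝ} {a : ℝ} (ha : 0 ≤ a) (ha1 : a < 1) (h : Slo a H)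
    (h0 : ∀ x, 0 ≤ H x) {c : ℝ} (hc : 0 < c) : Lip (1 - a)⁻¹ fun x => min (H x / c) 1 := by
  have h1 : Slo a fun x => min (H x / c) 1 := by
    intro x y
    have hq0 : 0 ≤ a ^ n1 (x - y) := pow_nonneg ha _
    have hq1 : a ^ n1 (x - y) ≤ 1 := pow_le_one₀ ha ha1.le
    refine le_min ?_ ?_
    · calc a ^ n1 (x - y) * min (H x / c) 1 ≤ a ^ n1 (x - y) * (H x / c) :=
            mul_le_mul_of_nonneg_left (min_le_left _ _) hq0
        _ = (a ^ n1 (x - y) * H x) / c := by ring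
        _ ≤ H y / c := div_le_div_of_nonneg_right (h x y) hc.le
    · calc a ^ n1 (x - y) * min (H x / c) 1 ≤ 1 * 1 :=
            mul_le_mul hq1 (min_le_right _ _) (le_min (div_nonneg (h0 x) hc.le) zero_le_one)
              zero_le_one
        _ = 1 := one_mul 1
  intro x y
  have h2 := h1.lip ha ha1.le (B := 1)
    (fun x => le_min (div_nonneg (h0 x) hc.le) zero_le_one) (fun x => min_le_right _ _) x y
  refine h2.trans (le_of_eq ?_)
  rw [div_inv_eq_mul, one_mul]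

theorem HH_slo (J : Finset ℕ) (Qm Qp : List S → Prop) {a : ℝ} (ha : 0 ≤ a) (ha1 : a ≤ 1)
    (p q : List S) : Slo a fun z => HH Y π J Qm Qp a p z q := by
  intro x y
  simp only [HH, Finset.mul_sum]
  refine Finset.sum_le_sum fun t _ => Finset.sum_le_sum fun s _ => ?_
  have h := ker_mul_le_add ha ha1 (y - x) (π (Y.sm (p.take t)) + x + π (Y.sm (q.take s)))
  have e : y - x + (π (Y.sm (p.take t)) + x + π (Y.sm (q.take s))) =
      π (Y.sm (p.take t)) + y + π (Y.sm (q.take s)) := by abel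
  rw [e] at h
  have h2 : ker a (y - x) = a ^ n1 (x - y) := by
    unfold ker
    rw [n1_sub_comm]
  rw [h2] at h
  have hi : 0 ≤ ind (Qm (p.take t)) * ind (Qp (q.take s)) :=
    mul_nonneg (ind_nonneg _) (ind_nonneg _)
  calc a ^ n1 (x - y) * (ind (Qm (p.take t)) * ind (Qp (q.take s)) *
        ker a (π (Y.sm (p.take t)) + x + π (Y.sm (q.take s)))) =
      ind (Qm (p.take t)) * ind (Qp (q.take s)) * (a ^ n1 (x - y) *
        ker a (π (Y.sm (p.take t)) + x + π (Y.sm (q.take s)))) := by ring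
    _ ≤ _ := mul_le_mul_of_nonneg_left h hi

/-- decomposition of the number of near-misses -/
theorem HH_split (J : Finset ℕ) (Qm Qp : List S → Prop) {a : ℝ} (ha : 0 ≤ a) (ha1 : a ≤ 1)
    (R₁ : ℕ) (T : List S → Prop) (B : List S → ℕ → Prop) (m : ℕ) (p β v : List S) :
    HH Y π J Qm Qp a p (π (Y.sm β)) v ≤
      (∑ t ∈ J, ∑ s ∈ J, ind (n1 (π (Y.sm (p.take t)) + π (Y.sm β) + π (Y.sm (v.take s))) < R₁ ∧
        ¬ B (β ++ p) (m + t) ∧ ¬ T ((β ++ p).take (m + t)) ∧ ¬ T (v.take s))) +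
      (Real.sqrt a ^ R₁ * HH Y π J Qm Qp (Real.sqrt a) p (π (Y.sm β)) v +
      (∑ t ∈ J, ∑ s ∈ J, ind (Qm (p.take t)) * ind (Qp (v.take s)) *
        ker a (π (Y.sm (p.take t)) + π (Y.sm β) + π (Y.sm (v.take s))) *
          ind (B (β ++ p) (m + t))) +
      (∑ t ∈ J, ∑ s ∈ J, ind (Qm (p.take t)) * ind (Qp (v.take s)) *
        ker a (π (Y.sm (p.take t)) + π (Y.sm β) + π (Y.sm (v.take s))) *
          ind (T ((β ++ p).take (m + t)))) +
      (∑ t ∈ J, ∑ s ∈ J, ind (Qm (p.take t)) * ind (Qp (v.take s)) *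
        ker a (π (Y.sm (p.take t)) + π (Y.sm β) + π (Y.sm (v.take s))) *
          ind (T (v.take s)))) := by
  unfold HH
  simp only [Finset.mul_sum, ← Finset.sum_add_distrib]
  refine Finset.sum_le_sum fun t _ => Finset.sum_le_sum fun s _ => ?_
  set x := π (Y.sm (p.take t)) + π (Y.sm β) + π (Y.sm (v.take s)) with hx
  have i1 := ind_nonneg (Qm (p.take t))
  have i2 := ind_nonneg (Qp (v.take s))
  have i1' := ind_le_one (Qm (p.take t))
  have i2' := ind_le_one (Qp (v.take s))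
  have i12 : 0 ≤ ind (Qm (p.take t)) * ind (Qp (v.take s)) := mul_nonneg i1 i2
  have i12' : ind (Qm (p.take t)) * ind (Qp (v.take s)) ≤ 1 := by nlinarith
  have k1 := ker_nonneg ha x
  have k2 := ker_le_one ha ha1 x
  have hs0 : 0 ≤ Real.sqrt a := Real.sqrt_nonneg a
  have k3 := ker_nonneg hs0 x
  have hp0 : 0 ≤ Real.sqrt a ^ R₁ := pow_nonneg hs0 _
  have hT : 0 ≤ ind (Qm (p.take t)) * ind (Qp (v.take s)) * ker a x := mul_nonneg i12 k1
  have hT' : 0 ≤ Real.sqrt a ^ R₁ * (ind (Qm (p.take t)) * ind (Qp (v.take s)) *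
    ker (Real.sqrt a) x) := mul_nonneg hp0 (mul_nonneg i12 k3)
  have g1 := mul_nonneg hT (ind_nonneg (B (β ++ p) (m + t)))
  have g2 := mul_nonneg hT (ind_nonneg (T ((β ++ p).take (m + t))))
  have g3 := mul_nonneg hT (ind_nonneg (T (v.take s)))
  have g0 := ind_nonneg (n1 x < R₁ ∧ ¬ B (β ++ p) (m + t) ∧ ¬ T ((β ++ p).take (m + t)) ∧
    ¬ T (v.take s))
  by_cases c1 : n1 x < R₁
  · by_cases c2 : B (β ++ p) (m + t)
    · rw [ind_of c2] at g1 ⊢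
      linarith
    · by_cases c3 : T ((β ++ p).take (m + t))
      · rw [ind_of c3] at g2 ⊢
        linarith
      · by_cases c4 : T (v.take s)
        · rw [ind_of c4] at g3 ⊢
          linarith
        · have hind : ind (n1 x < R₁ ∧ ¬ B (β ++ p) (m + t) ∧ ¬ T ((β ++ p).take (m + t)) ∧
              ¬ T (v.take s)) = 1 := ind_of ⟨c1, c2, c3, c4⟩
          rw [hind]
          have : ind (Qm (p.take t)) * ind (Qp (v.take s)) * ker a x ≤ 1 := by nlinarith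
          linarith
  · have h1 := ker_far ha ha1 (R := R₁) (x := x) (not_lt.1 c1)
    have h2 := mul_le_mul_of_nonneg_left h1 i12
    have e : ind (Qm (p.take t)) * ind (Qp (v.take s)) * (Real.sqrt a ^ R₁ *
        ker (Real.sqrt a) x) = Real.sqrt a ^ R₁ * (ind (Qm (p.take t)) * ind (Qp (v.take s)) *
        ker (Real.sqrt a) x) := by ring
    rw [e] at h2
    linarith

/-- THE MAIN INEQUALITY. -/
theorem main_ineq (h : Bulk Y Λ ρ) (hr : Bulk Y Λ (rv ρ)) (hK : ∀ n, Y.a n ≤ K)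
    (hstep : ∀ s i, |Y.vec s i| ≤ 1) {κ : ℝ} (hκ : 0 < κ) {κ₁ : ℝ} (hκ₁ : 0 < κ₁)
    {Qm Qp : List S → Prop} (hQm : ∀ x, Qm x → good Y (rv ρ) κ x)
    (hQp : ∀ x, Qp x → good Y ρ κ x) {n : ℕ} {J : Finset ℕ} (hJ : ∀ t ∈ J, 1 ≤ t ∧ t ≤ n)
    {a : ℝ} (ha : 0 ≤ a) (ha1 : a < 1) {m₁ M₁ M₃ ε₁ : ℝ} (hm₁ : 0 < m₁) (hM₁ : 0 < M₁)
    (hM₃ : 0 ≤ M₃) (hε₁ : 0 ≤ ε₁)
    (S1p : ∀ z, ∑ s ∈ J, (Y.E s fun y => UU Y ρ y * ind (Qp y) * ker a (z + π (Y.sm y))) ≤ M₃)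
    (S1m : ∀ z, ∑ t ∈ J, (Y.E t fun x => UU Y (rv ρ) x * ind (Qm x) *
      ker a (z + π (Y.sm x))) ≤ M₃)
    (S2 : ∀ z, (GS Y (n + 1) fun x => GS Y (n + 1) fun y => gw Y (rv ρ) κ x * gw Y ρ κ y *
      ker (Real.sqrt a) (π (Y.sm x) + z + π (Y.sm y))) ≤ M₁)
    (S2' : (GS Y (n + 1) fun x => GS Y (n + 1) fun y => gw Y (rv ρ) κ x * gw Y ρ κ y *
      ker (Real.sqrt a) (π (Y.sm x) - π (Y.sm y))) ≤ M₁)
    {m : ℕ} (S3 : m₁ ≤ EP Y π ρ n m (HH Y π J Qm Qp a))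
    {H : ℕ} (hH : 0 < H) {ε : ℝ}
    (N3 : ∀ Ψ : List S → Zk k → List S → ℝ, (∀ u x v, |Ψ u x v| ≤ 1) →
      (∀ u v, Lip (1 - a)⁻¹ fun x => Ψ u x v) →
      |(H : ℝ)⁻¹ * (∑ j ∈ range H, Y.E n fun u => Y.E (m + j) fun b => Y.E n fun v =>
          ρ (u ++ b ++ v) * Ψ u (π (Y.sm b)) v) -
        Y.E n fun u => Y.E m fun b => Y.E n fun v =>
          ρ u * ρ b * ρ v * Ψ u (π (Y.sm b)) v| ≤ ε)
    {D : Finset (Zk d)} {R₀ R l R₁ : ℕ} (hD1 : ∀ x : Zk d, (∀ i, |x i| ≤ R₀ + 1) → x ∈ D)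
    (hD2 : ∀ x ∈ D, ∀ y ∈ D, ∀ i, |x i - y i| ≤ R) {C : ℝ}
    (hN : open Classical in ∀ n n', (Y.E n fun u => Y.E n' fun v => Y.sv (u ++ v) *
        (((range (n' + 1)).filter fun t => Nice Y D (2 * l) u v t).card : ℝ)) ≤ C)
    {T : List S → Prop}
    (hgeo : ∀ x y : List S, n1 (π (Y.sm x) + π (Y.sm y)) < R₁ → ¬ T x → ¬ T y →
      ∀ i, |Y.sm x i + Y.sm y i| ≤ R₀)
    (hRet : ∀ j < H, ∀ t ∈ J, (Y.E (m + j + n) fun ξ => UU Y (rv ρ) ξ *
      ind (Ret Y R l ξ (m + j + t))) ≤ ε₁)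
    (hTm : ∀ j < H, ∀ t ∈ J, (Y.E (m + j + n) fun ξ => UU Y (rv ρ) ξ *
      ind (T (ξ.take (m + j + t)))) ≤ ε₁)
    (hTp : ∀ s ∈ J, (Y.E s fun y => UU Y ρ y * ind (T y)) ≤ ε₁) :
    m₁ ^ 2 / (4 * (4 * κ⁻¹ ^ 2 * M₁ ^ 2)) - ε ≤
      κ₁ * K + (2 * (4 * κ⁻¹ ^ 2 * M₁ ^ 2) / m₁)⁻¹ * (Λ * (2 * l + 1 : ℕ) * C) +
      κ₁⁻¹ * (2 * (4 * κ⁻¹ ^ 2 * M₁ ^ 2) / m₁)⁻¹ *
        (Real.sqrt a ^ R₁ * (K * M₁) + J.card * (ε₁ * M₃) + J.card * (ε₁ * M₃) +
          J.card * (K * (ε₁ * M₃))) := by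
  have hJ' : ∀ t ∈ J, t ≤ n := fun t ht => (hJ t ht).2
  set M₂ : ℝ := 4 * κ⁻¹ ^ 2 * M₁ ^ 2 with hM₂
  have hM₂0 : 0 < M₂ := by positivity
  set c : ℝ := 2 * M₂ / m₁ with hc
  have hc0 : 0 < c := by positivity
  have hs0 : 0 ≤ Real.sqrt a := Real.sqrt_nonneg a
  -- second moment
  have h1 : EP Y π ρ n m (fun p z v => HH Y π J Qm Qp a p z v ^ 2) ≤ M₂ :=
    second_moment h hr hK hκ hQm hQp hJ' m ha ha1.le hM₁.le S2 S2'
  have h2 := EP_min h hr (F := HH Y π J Qm Qp a) (fun p z v => HH_nonneg J Qm Qp ha p z v)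
    hm₁ hM₂0 S3 h1
  -- transfer
  have h3 : ∀ u v : List S, Lip (1 - a)⁻¹ fun x =>
      min (HH Y π J Qm Qp a u x v / c) 1 := fun u v =>
    lip_min ha ha1 (HH_slo J Qm Qp ha ha1.le u v) (fun x => HH_nonneg J Qm Qp ha u x v) hc0
  have h4 : ∀ (u : List S) (x : Zk k) (v : List S),
      |min (HH Y π J Qm Qp a u x v / c) 1| ≤ 1 := by
    intro u x v
    rw [abs_of_nonneg (le_min (div_nonneg (HH_nonneg J Qm Qp ha u x v) hc0.le) zero_le_one)]
    exact min_le_right _ _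
  have h5 := N3 (fun u x v => min (HH Y π J Qm Qp a u.reverse x v / c) 1)
    (fun u x v => h4 u.reverse x v) (fun u v => h3 u.reverse v)
  obtain ⟨j, hj, h6⟩ := transfer (π := π) (Ψ := fun u x v => min (HH Y π J Qm Qp a u x v / c) 1)
    hH h5
  -- decomposition
  have h7 := ER_min_le h hr hK hκ₁ n (m + j)
    (F := fun p β v => HH Y π J Qm Qp a p (π (Y.sm β)) v)
    (G := fun p β v => ∑ t ∈ J, ∑ s ∈ J,
      ind (n1 (π (Y.sm (p.take t)) + π (Y.sm β) + π (Y.sm (v.take s))) < R₁ ∧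
        ¬ Ret Y R l (β ++ p) (m + j + t) ∧ ¬ T ((β ++ p).take (m + j + t)) ∧ ¬ T (v.take s)))
    (fun p β v => Finset.sum_nonneg fun _ _ => Finset.sum_nonneg fun _ _ => ind_nonneg _)
    (B := fun p β v => (Real.sqrt a ^ R₁ * HH Y π J Qm Qp (Real.sqrt a) p (π (Y.sm β)) v +
      (∑ t ∈ J, ∑ s ∈ J, ind (Qm (p.take t)) * ind (Qp (v.take s)) *
        ker a (π (Y.sm (p.take t)) + π (Y.sm β) + π (Y.sm (v.take s))) *
          ind (Ret Y R l (β ++ p) (m + j + t))) +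
      (∑ t ∈ J, ∑ s ∈ J, ind (Qm (p.take t)) * ind (Qp (v.take s)) *
        ker a (π (Y.sm (p.take t)) + π (Y.sm β) + π (Y.sm (v.take s))) *
          ind (T ((β ++ p).take (m + j + t)))) +
      (∑ t ∈ J, ∑ s ∈ J, ind (Qm (p.take t)) * ind (Qp (v.take s)) *
        ker a (π (Y.sm (p.take t)) + π (Y.sm β) + π (Y.sm (v.take s))) *
          ind (T (v.take s)))))
    (fun p β v => by
      have hk : ∀ x : Zk k, 0 ≤ ker a x := fun x => ker_nonneg ha x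
      refine add_nonneg (add_nonneg (add_nonneg (mul_nonneg (pow_nonneg hs0 _)
        (HH_nonneg J Qm Qp hs0 _ _ _)) ?_) ?_) ?_
      all_goals
        exact Finset.sum_nonneg fun _ _ => Finset.sum_nonneg fun _ _ =>
          mul_nonneg (mul_nonneg (mul_nonneg (ind_nonneg _) (ind_nonneg _)) (hk _)) (ind_nonneg _))
    hc0 (fun p β v => HH_split J Qm Qp ha ha1.le R₁ T (Ret Y R l) (m + j) p β v)
  -- nice pairs
  have h8 := ER_nice (m := m + j) h hstep hD1 hD2 hN hJ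
    (P := fun p β v t s => n1 (π (Y.sm (p.take t)) + π (Y.sm β) + π (Y.sm (v.take s))) < R₁ ∧
        ¬ Ret Y R l (β ++ p) (m + j + t) ∧ ¬ T ((β ++ p).take (m + j + t)) ∧ ¬ T (v.take s))
    (fun p β v hp hβ hv t ht s hs hP => by
      refine ⟨hP.2.1, ?_⟩
      refine hgeo _ _ ?_ hP.2.2.1 hP.2.2.2
      have e : (β ++ p).take (m + j + t) = β ++ p.take t := by
        rw [← hβ, List.take_length_add_append]
      rw [e, Y.sm_append, map_add]
      have e2 : π (Y.sm β) + π (Y.sm (p.take t)) = π (Y.sm (p.take t)) + π (Y.sm β) :=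
        add_comm _ _
      rw [e2]
      exact hP.1)
  -- exceptional pairs
  have b1 := EU_all h hr hK hQm hQp hJ' (m + j) hs0 hM₁.le S2
  have b2 := EU_left (π := π) h hr hK Qm hJ' (m + j) ha hM₃ S1p (B := Ret Y R l)
    (fun t ht => hRet j hj t ht)
  have b3 := EU_left (π := π) h hr hK Qm hJ' (m + j) ha hM₃ S1p
    (B := fun ξ τ => T (ξ.take τ)) (fun t ht => hTm j hj t ht)
  have b4 := EU_right (π := π) h hr hK Qp hJ' (m + j) ha hM₃ hε₁ S1m (B := T) hTp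
  have h9 : EU Y ρ n (m + j) (fun p β v => (Real.sqrt a ^ R₁ *
      HH Y π J Qm Qp (Real.sqrt a) p (π (Y.sm β)) v +
      (∑ t ∈ J, ∑ s ∈ J, ind (Qm (p.take t)) * ind (Qp (v.take s)) *
        ker a (π (Y.sm (p.take t)) + π (Y.sm β) + π (Y.sm (v.take s))) *
          ind (Ret Y R l (β ++ p) (m + j + t))) +
      (∑ t ∈ J, ∑ s ∈ J, ind (Qm (p.take t)) * ind (Qp (v.take s)) *
        ker a (π (Y.sm (p.take t)) + π (Y.sm β) + π (Y.sm (v.take s))) *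
          ind (T ((β ++ p).take (m + j + t)))) +
      (∑ t ∈ J, ∑ s ∈ J, ind (Qm (p.take t)) * ind (Qp (v.take s)) *
        ker a (π (Y.sm (p.take t)) + π (Y.sm β) + π (Y.sm (v.take s))) *
          ind (T (v.take s))))) ≤
      Real.sqrt a ^ R₁ * (K * M₁) + J.card * (ε₁ * M₃) + J.card * (ε₁ * M₃) +
        J.card * (K * (ε₁ * M₃)) := by
    rw [EU_fadd, EU_fadd, EU_fadd, EU_mul_left]
    exact add_le_add (add_le_add (add_le_add
      (mul_le_mul_of_nonneg_left b1 (pow_nonneg hs0 _)) b2) b3) b4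
  have hκ' : 0 < κ₁⁻¹ := inv_pos.2 hκ₁
  have hc' : 0 < c⁻¹ := inv_pos.2 hc0
  have h10 := mul_le_mul_of_nonneg_left h9 (mul_pos hκ' hc').le
  have h11 := mul_le_mul_of_nonneg_left h8 hc'.le
  exact le_trans (sub_le_sub_right h2 ε)
    (h6.trans (h7.trans (add_le_add (add_le_add le_rfl h11) h10)))

end Pool.Agent.SawM2
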