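import Pool.Agent.SawM2.UArm3

/-!
# Transience of self-avoiding words
-/

set_option autoImplicit false

namespace Pool.Agent.SawM2

open Finset Filter Topology Pool.Agent.Bub4 Pool.Agent.SawDiff

section
variable {S V : Type} [Fintype S] [AddCommGroup V] {Y : Sys S V} {Λ K : ℝ} {ρ : List S → ℝ}

/-- a self-avoiding word visits a point at most once -/
theorem visits_le_one {w : List S} (hw : Y.Saw w) (z : V) (n : ℕ) :
    ∑ t ∈ range n, (if t ≤ w.length then dl (Y.sm (w.take t) - z) else 0) ≤ 1 := by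
  classical
  by_cases h : ∃ t ∈ range n, t ≤ w.length ∧ Y.sm (w.take t) = z
  · obtain ⟨t, ht, htw, htz⟩ := h
    have h1 : ∀ s ∈ range n, s ≠ t → (if s ≤ w.length then dl (Y.sm (w.take s) - z) else 0) = 0 := by
      intro s _ hst
      split_ifs with hs
      · refine dl_of_ne fun h0 => ?_
        have hsz : Y.sm (w.take s) = Y.sm (w.take t) := by
          rw [htz]
          exact sub_eq_zero.1 h0
        -- the factor between the two places
        have key : ∀ a b : ℕ, a < b → b ≤ w.length → Y.sm (w.take a) = Y.sm (w.take b) → False := by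
          intro a b hab hb hab2
          have e1 : w.take b = w.take a ++ (w.take b).drop a := by
            conv_lhs => rw [← List.take_append_drop a (w.take b)]
            rw [List.take_take, Nat.min_eq_left hab.le]
          have e2 : Y.sm ((w.take b).drop a) = 0 := by
            have := congrArg Y.sm e1
            rw [Y.sm_append, ← hab2] at this
            exact (left_eq_add.1 this)
          have e3 : (w.take b).drop a <:+: w :=
            ((List.drop_suffix a (w.take b)).isInfix).trans (List.take_prefix b w).isInfix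
          have e4 : (w.take b).drop a ≠ [] := by
            intro h5
            have := congrArg List.length h5
            rw [List.length_drop, List.length_take, List.length_nil] at this
            omega
          exact hw _ e3 e4 e2
        rcases lt_or_gt_of_ne hst with h2 | h2
        · exact key s t h2 htw hsz
        · exact key t s h2 hs hsz.symm
      · rfl
    rw [Finset.sum_eq_single t h1 (fun h2 => absurd ht h2), if_pos htw]
    exact dl_le_one _
  · push Not at h
    rw [Finset.sum_eq_zero]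
    · norm_num
    · intro s hs
      split_ifs with h1
      · exact dl_of_ne (sub_ne_zero.2 (h s hs h1))
      · rfl

/-- probability of the displacement `z` after `t` letters -/
noncomputable def pz (Y : Sys S V) (ρ : List S → ℝ) (z : V) (t : ℕ) : ℝ :=
  Y.E t fun w => ρ w * dl (Y.sm w - z)

theorem pz_nonneg (h : Bulk Y Λ ρ) (z : V) (t : ℕ) : 0 ≤ pz Y ρ z t :=
  Y.E_nonneg' fun w => mul_nonneg (h.nonneg w) (dl_nonneg _)

theorem sum_pz_le (h : Bulk Y Λ ρ) (z : V) (n : ℕ) : ∑ t ∈ range n, pz Y ρ z t ≤ 1 := by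
  have h1 : ∀ t ∈ range n, pz Y ρ z t =
      Y.E n fun w => ρ w * (if t ≤ w.length then dl (Y.sm (w.take t) - z) else 0) := by
    intro t ht
    have htn : t ≤ n := (Finset.mem_range.1 ht).le
    obtain ⟨k, hk⟩ := Nat.exists_eq_add_of_le htn
    subst hk
    rw [Y.E_add]
    unfold pz
    refine Y.E_congr fun u hu => ?_
    have e1 : ∀ v : List S, v.length = k → ρ (u ++ v) *
        (if t ≤ (u ++ v).length then dl (Y.sm ((u ++ v).take t) - z) else 0) =
        ρ (u ++ v) * dl (Y.sm u - z) := by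
      intro v hv
      rw [if_pos (by rw [List.length_append, hu]; omega), ← hu, List.take_left]
    rw [Y.E_congr e1, Y.E_mul_right, h.right]
  rw [Finset.sum_congr rfl h1, ← Y.E_fsum]
  refine le_trans (Y.E_mono (G := ρ) fun w _ => ?_) (h.mass n).le
  rw [← Finset.mul_sum]
  by_cases hw : Y.Saw w
  · exact mul_le_of_le_one_right (h.nonneg w) (visits_le_one hw z n)
  · have e1 : Y.sv w = 0 := by simp [Sys.sv, hw]
    have e2 := h.le w
    rw [e1, mul_zero] at e2
    have e3 : ρ w = 0 := le_antisymm e2 (h.nonneg w)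
    rw [e3, zero_mul]

theorem summable_pz (h : Bulk Y Λ ρ) (z : V) : Summable (pz Y ρ z) :=
  summable_of_sum_range_le (pz_nonneg h z) (sum_pz_le h z)

end

section
variable {S : Type} [Fintype S] {d : ℕ} {Y : Sys S (Fin d → ℤ)} {Λ K : ℝ} {ρ : List S → ℝ}

/-- the points of the box of radius `R` -/
noncomputable def boxF (d R : ℕ) : Finset (Fin d → ℤ) :=
  Fintype.piFinset fun _ => Finset.Icc (-(R : ℤ)) R

theorem mem_boxF {R : ℕ} {x : Fin d → ℤ} : x ∈ boxF d R ↔ ∀ i, |x i| ≤ R := by
  simp only [boxF, Fintype.mem_piFinset, Finset.mem_Icc, abs_le]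

/-- (U8) -/
theorem transience (h : Bulk Y Λ ρ) (R : ℕ) {ε : ℝ} (hε : 0 < ε) :
    ∃ l : ℕ, ∀ n, (Y.E n fun w => ρ w * ind (∃ t, l ≤ t ∧ t ≤ n ∧ Y.sm (w.take t) ∈ boxF d R)) ≤
      ε := by
  classical
  have h1 : Summable fun t => ∑ z ∈ boxF d R, pz Y ρ z t := summable_sum fun z _ => summable_pz h z
  have h2 := tendsto_sum_nat_add (fun t => ∑ z ∈ boxF d R, pz Y ρ z t)
  obtain ⟨l, hl⟩ := (h2.eventually (gt_mem_nhds hε)).exists
  refine ⟨l, fun n => ?_⟩
  refine le_trans ?_ hl.le
  have hnn : ∀ t, 0 ≤ ∑ z ∈ boxF d R, pz Y ρ z t := fun t =>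
    Finset.sum_nonneg fun z _ => pz_nonneg h z t
  -- union bound
  have h3 : (Y.E n fun w => ρ w * ind (∃ t, l ≤ t ∧ t ≤ n ∧ Y.sm (w.take t) ∈ boxF d R)) ≤
      ∑ t ∈ Ico l (n + 1), ∑ z ∈ boxF d R, pz Y ρ z t := by
    have e1 : ∀ t ∈ Ico l (n + 1), (∑ z ∈ boxF d R, pz Y ρ z t) =
        Y.E n fun w => ρ w * ∑ z ∈ boxF d R, dl (Y.sm (w.take t) - z) := by
      intro t ht
      have htn : t ≤ n := Nat.lt_succ_iff.1 (Finset.mem_Ico.1 ht).2
      obtain ⟨k, hk⟩ := Nat.exists_eq_add_of_le htn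
      subst hk
      rw [Y.E_add]
      unfold pz
      rw [← Y.E_fsum]
      refine Y.E_congr fun u hu => ?_
      subst hu
      have e3 : ∀ v : List S, v.length = k → ρ (u ++ v) *
          ∑ z ∈ boxF d R, dl (Y.sm ((u ++ v).take u.length) - z) =
          ρ (u ++ v) * ∑ z ∈ boxF d R, dl (Y.sm u - z) := by
        intro v _
        rw [List.take_left]
      rw [Y.E_congr e3, Y.E_mul_right, h.right, Finset.mul_sum]
    rw [Finset.sum_congr rfl e1, ← Y.E_fsum]
    refine Y.E_mono fun w _ => ?_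
    rw [← Finset.mul_sum]
    refine mul_le_mul_of_nonneg_left ?_ (h.nonneg w)
    have hnn2 : ∀ t, 0 ≤ ∑ z ∈ boxF d R, dl (Y.sm (w.take t) - z) := fun t =>
      Finset.sum_nonneg fun z _ => dl_nonneg _
    by_cases hw : ∃ t, l ≤ t ∧ t ≤ n ∧ Y.sm (w.take t) ∈ boxF d R
    · rw [ind_of hw]
      obtain ⟨t, ht1, ht2, ht3⟩ := hw
      have e2 : (1 : ℝ) ≤ ∑ z ∈ boxF d R, dl (Y.sm (w.take t) - z) := by
        have := Finset.single_le_sum (f := fun z => dl (Y.sm (w.take t) - z))
          (fun z _ => dl_nonneg _) ht3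
        simpa using this
      exact e2.trans (Finset.single_le_sum
        (f := fun t => ∑ z ∈ boxF d R, dl (Y.sm (w.take t) - z)) (fun t _ => hnn2 t)
        (Finset.mem_Ico.2 ⟨ht1, Nat.lt_succ_of_le ht2⟩))
    · rw [ind_not hw]
      exact Finset.sum_nonneg fun t _ => hnn2 t
  refine h3.trans ?_
  have h4 : ∑ t ∈ Ico l (n + 1), ∑ z ∈ boxF d R, pz Y ρ z t =
      ∑ k ∈ range (n + 1 - l), ∑ z ∈ boxF d R, pz Y ρ z (k + l) := by
    rw [Finset.sum_Ico_eq_sum_range]
    refine Finset.sum_congr rfl fun k _ => ?_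
    rw [add_comm]
  rw [h4]
  exact (h1.comp_injective (add_left_injective l)).sum_le_tsum _ fun k _ => hnn _

/-- (U8) for the join of the arms -/
theorem transience_UU (h : Bulk Y Λ ρ) (hK : ∀ n, Y.a n ≤ K) (R : ℕ) {ε : ℝ} (hε : 0 < ε) :
    ∃ l : ℕ, ∀ n, (Y.E n fun w => UU Y ρ w *
      ind (∃ t, l ≤ t ∧ t ≤ n ∧ Y.sm (w.take t) ∈ boxF d R)) ≤ ε := by
  obtain ⟨C, hC, h1⟩ := UU_mass_le h hK (half_pos hε)
  obtain ⟨l, hl⟩ := transience h R (show 0 < ε / 2 / (C + 1) by positivity)
  refine ⟨l, fun n => (h1 n _).trans ?_⟩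
  have h2 := mul_le_mul_of_nonneg_left (hl n) hC
  have h3 : C * (ε / 2 / (C + 1)) ≤ ε / 2 := by
    rw [mul_div_assoc', div_le_iff₀ (by positivity)]
    nlinarith
  linarith

end

end Pool.Agent.SawM2
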