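import Pool.Agent.SawM2.End6
import Pool.Agent.SawM2.U8

/-!
# The last section: no large record
-/

set_option autoImplicit false

namespace Pool.Agent.SawM2

open Finset Filter Topology Pool.Agent.Bub4 Pool.Agent.SawDiff Pool.Agent.SawNice

variable {S : Type} [Fintype S] {d k : ℕ} {Y : Sys S (Zk d)} {π : Zk d →+ Zk k} {Λ K : ℝ}
  {ρ : List S → ℝ}

/-- near returns at distant times are unlikely -/
theorem ret_small (h : Bulk Y Λ ρ) (hr : Bulk Y Λ (rv ρ)) (R : ℕ) {ε : ℝ} (hε : 0 < ε) :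
    ∃ l : ℕ, ∀ τ r : ℕ, (Y.E (τ + r) fun ξ => rv ρ ξ * ind (Ret Y R l ξ τ)) ≤ ε := by
  obtain ⟨l₁, hl₁⟩ := transience hr R (half_pos hε)
  obtain ⟨l₂, hl₂⟩ := transience h R (half_pos hε)
  refine ⟨max l₁ l₂, fun τ r => ?_⟩
  set F : List S → Prop := fun y => ∃ t, l₁ ≤ t ∧ t ≤ r ∧ Y.sm (y.take t) ∈ boxF d R with hF
  set G : List S → Prop := fun w => ∃ t, l₂ ≤ t ∧ t ≤ τ ∧ Y.sm (w.take t) ∈ boxF d R with hG
  have h1 : (Y.E (τ + r) fun ξ => rv ρ ξ * ind (Ret Y R (max l₁ l₂) ξ τ)) ≤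
      Y.E τ fun x => Y.E r fun y => rv ρ (x ++ y) * ind (F y) + rv ρ (x ++ y) * ind (G x.reverse) := by
    rw [Y.E_add]
    refine Y.E_mono fun x hx => Y.E_mono fun y hy => ?_
    rw [← mul_add]
    refine mul_le_mul_of_nonneg_left ?_ (hr.nonneg _)
    refine le_trans (ind_mono ?_) (ind_or_le (F y) (G x.reverse))
    rintro ⟨τ', hτ', hcase, hbox⟩
    have e1 : (x ++ y).take τ = x := by rw [← hx, List.take_left]
    rw [e1] at hbox
    rw [List.length_append, hx, hy] at hτ'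
    rcases hcase with hc | hc
    · right
      refine ⟨τ - τ', by have := le_max_right l₁ l₂; omega, by omega, ?_⟩
      rw [mem_boxF]
      intro i
      have e2 : (x ++ y).take τ' = x.take τ' := by
        rw [List.take_append_of_le_length (by omega)]
      have e3 : Y.sm x = Y.sm (x.take τ') + Y.sm (x.drop τ') := by
        rw [← Y.sm_append, List.take_append_drop]
      have e4 : x.reverse.take (τ - τ') = (x.drop τ').reverse := by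
        rw [List.take_reverse]
        congr 2
        omega
      rw [e4, Y.sm_reverse]
      have h2 := hbox i
      rw [e2, e3, Pi.add_apply] at h2
      have e5 : Y.sm (x.take τ') i - (Y.sm (x.take τ') i + Y.sm (x.drop τ') i) =
          - Y.sm (x.drop τ') i := by ring
      rwa [e5, abs_neg] at h2
    · left
      refine ⟨τ' - τ, by have := le_max_left l₁ l₂; omega, by omega, ?_⟩
      rw [mem_boxF]
      intro i
      have e2 : (x ++ y).take τ' = x ++ y.take (τ' - τ) := by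
        have : τ' = x.length + (τ' - τ) := by omega
        rw [this, List.take_length_add_append]
        congr 2
        omega
      have h2 := hbox i
      rw [e2, Y.sm_append, Pi.add_apply] at h2
      have e5 : Y.sm x i + Y.sm (y.take (τ' - τ)) i - Y.sm x i = Y.sm (y.take (τ' - τ)) i := by
        ring
      rwa [e5] at h2
  refine h1.trans ?_
  simp only [Y.E_fadd]
  have h2 : (Y.E τ fun x => Y.E r fun y => rv ρ (x ++ y) * ind (F y)) ≤ ε / 2 := by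
    rw [Y.E_comm]
    simp only [Y.E_mul_right, hr.left]
    exact hl₁ r
  have h3 : (Y.E τ fun x => Y.E r fun y => rv ρ (x ++ y) * ind (G x.reverse)) ≤ ε / 2 := by
    simp only [Y.E_mul_right, hr.right]
    have h4 : (Y.E τ fun x => rv ρ x * ind (G x.reverse)) = Y.E τ fun w => ρ w * ind (G w) := by
      rw [← Y.E_reverse τ (fun w => ρ w * ind (G w))]
      rfl
    rw [h4]
    exact hl₂ τ
  linarith

theorem ret_small_UU (h : Bulk Y Λ ρ) (hr : Bulk Y Λ (rv ρ)) (hK : ∀ n, Y.a n ≤ K) (R : ℕ)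
    {ε : ℝ} (hε : 0 < ε) :
    ∃ l : ℕ, ∀ M τ : ℕ, τ ≤ M → (Y.E M fun ξ => UU Y (rv ρ) ξ * ind (Ret Y R l ξ τ)) ≤ ε := by
  obtain ⟨C, hC, h1⟩ := UU_mass_le hr hK (half_pos hε)
  obtain ⟨l, hl⟩ := ret_small h hr R (ε := ε / (2 * (C + 1))) (by positivity)
  refine ⟨l, fun M τ hτ => ?_⟩
  obtain ⟨r, rfl⟩ := Nat.exists_eq_add_of_le hτ
  refine (h1 (τ + r) (fun ξ => Ret Y R l ξ τ)).trans ?_
  have h2 := mul_le_mul_of_nonneg_left (hl τ r) hC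
  have h3 : C * (ε / (2 * (C + 1))) ≤ ε / 2 := by
    rw [mul_div_assoc', div_le_div_iff₀ (by positivity) (by norm_num)]
    nlinarith
  linarith

/-- some coordinate is far from the prediction by `π` -/
def TB (Y : Sys S (Zk d)) (π : Zk d →+ Zk k) (c : Fin d → Rk k) (B : ℝ) (x : List S) : Prop :=
  ∃ i, B < |(Y.sm x i : ℝ) - ∑ j, c i j * (π (Y.sm x) j : ℝ)|

theorem TB_reverse (c : Fin d → Rk k) (B : ℝ) (x : List S) :
    TB Y π c B x.reverse ↔ TB Y π c B x := by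
  unfold TB
  rw [Y.sm_reverse]

theorem TB_small (h : Bulk Y Λ ρ)
    (ht : ∀ i : Fin d, ∃ c : Rk k, ∀ ε : ℝ, 0 < ε → ∃ B : ℝ, ∀ n, (Y.E n fun w => ρ w *
      ind (B < |(Y.sm w i : ℝ) - ∑ j, c j * (π (Y.sm w) j : ℝ)|)) ≤ ε) :
    ∃ c : Fin d → Rk k, ∀ ε : ℝ, 0 < ε → ∃ B : ℝ, 0 ≤ B ∧
      ∀ n, (Y.E n fun w => ρ w * ind (TB Y π c B w)) ≤ ε := by
  classical
  choose c hc using ht
  refine ⟨c, fun ε hε => ?_⟩
  have h1 : ∀ i : Fin d, ∃ B : ℝ, ∀ n, (Y.E n fun w => ρ w *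
      ind (B < |(Y.sm w i : ℝ) - ∑ j, c i j * (π (Y.sm w) j : ℝ)|)) ≤ ε / (d + 1) :=
    fun i => hc i (ε / (d + 1)) (by positivity)
  choose B hB using h1
  refine ⟨∑ i, |B i|, Finset.sum_nonneg fun i _ => abs_nonneg _, fun n => ?_⟩
  have h2 : ∀ i, B i ≤ ∑ i, |B i| := fun i =>
    (le_abs_self _).trans (Finset.single_le_sum (f := fun i => |B i|) (fun _ _ => abs_nonneg _)
      (Finset.mem_univ i))
  have h3 : (Y.E n fun w => ρ w * ind (TB Y π c (∑ i, |B i|) w)) ≤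
      ∑ i, Y.E n fun w => ρ w *
        ind (B i < |(Y.sm w i : ℝ) - ∑ j, c i j * (π (Y.sm w) j : ℝ)|) := by
    rw [← Y.E_fsum]
    refine Y.E_mono fun w _ => ?_
    rw [← Finset.mul_sum]
    refine mul_le_mul_of_nonneg_left ?_ (h.nonneg w)
    by_cases hw : TB Y π c (∑ i, |B i|) w
    · obtain ⟨i, hi⟩ := hw
      have h4 : B i < |(Y.sm w i : ℝ) - ∑ j, c i j * (π (Y.sm w) j : ℝ)| := (h2 i).trans_lt hi
      refine (ind_le_one _).trans ?_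
      rw [← ind_of h4]
      exact Finset.single_le_sum (f := fun i =>
        ind (B i < |(Y.sm w i : ℝ) - ∑ j, c i j * (π (Y.sm w) j : ℝ)|))
        (fun _ _ => ind_nonneg _) (Finset.mem_univ i)
    · rw [ind_not hw]
      exact Finset.sum_nonneg fun _ _ => ind_nonneg _
  refine h3.trans ((Finset.sum_le_sum fun i _ => hB i n).trans ?_)
  rw [Finset.sum_const, Finset.card_univ, Fintype.card_fin, nsmul_eq_mul,
    mul_div_assoc', div_le_iff₀ (by positivity)]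
  nlinarith

theorem TB_small_UU {α : List S → ℝ} (h : Bulk Y Λ α) (hK : ∀ n, Y.a n ≤ K) {c : Fin d → Rk k}
    (ht : ∀ ε : ℝ, 0 < ε → ∃ B : ℝ, 0 ≤ B ∧ ∀ n, (Y.E n fun w => α w * ind (TB Y π c B w)) ≤ ε)
    {ε : ℝ} (hε : 0 < ε) : ∃ B : ℝ, 0 ≤ B ∧ ∀ B' ≥ B, ∀ n,
      (Y.E n fun w => UU Y α w * ind (TB Y π c B' w)) ≤ ε := by
  obtain ⟨C, hC, h1⟩ := UU_mass_le h hK (half_pos hε)
  obtain ⟨B, hB, h2⟩ := ht (ε / (2 * (C + 1))) (by positivity)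
  refine ⟨B, hB, fun B' hB' n => ?_⟩
  have h4 : (Y.E n fun w => UU Y α w * ind (TB Y π c B' w)) ≤
      Y.E n fun w => UU Y α w * ind (TB Y π c B w) := by
    refine Y.E_mono fun w _ => mul_le_mul_of_nonneg_left (ind_mono ?_) (UU_nonneg h hK w)
    rintro ⟨i, hi⟩
    exact ⟨i, hB'.trans_lt hi⟩
  refine h4.trans ((h1 n _).trans ?_)
  have h3 := mul_le_mul_of_nonneg_left (h2 n) hC
  have h5 : C * (ε / (2 * (C + 1))) ≤ ε / 2 := by
    rw [mul_div_assoc', div_le_div_iff₀ (by positivity) (by norm_num)]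
    nlinarith
  linarith

/-- the geometric estimate -/
theorem geo_bound (c : Fin d → Rk k) (R₁ : ℕ) (B : ℝ) : ∃ R₀ : ℕ, ∀ x y : List S,
    n1 (π (Y.sm x) + π (Y.sm y)) < R₁ → ¬ TB Y π c B x → ¬ TB Y π c B y →
      ∀ i, |Y.sm x i + Y.sm y i| ≤ R₀ := by
  set A : ℝ := ∑ i, ∑ j, |c i j| with hA
  obtain ⟨R₀, hR₀⟩ := exists_nat_gt (A * R₁ + 2 * B)
  refine ⟨R₀, fun x y h1 h2 h3 i => ?_⟩
  unfold TB at h2 h3
  push Not at h2 h3
  have h4 : ∀ j, |((π (Y.sm x) j : ℤ) : ℝ) + ((π (Y.sm y) j : ℤ) : ℝ)| ≤ R₁ := by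
    intro j
    have h5 := natAbs_le_n1 (π (Y.sm x) + π (Y.sm y)) j
    have h6 : ((π (Y.sm x) + π (Y.sm y)) j).natAbs ≤ R₁ := by omega
    have h7 : (((π (Y.sm x) + π (Y.sm y)) j).natAbs : ℝ) ≤ R₁ := by exact_mod_cast h6
    rw [Nat.cast_natAbs, Int.cast_abs, Pi.add_apply, Int.cast_add] at h7
    exact h7
  have h5 : |∑ j, c i j * (((π (Y.sm x) j : ℤ) : ℝ) + ((π (Y.sm y) j : ℤ) : ℝ))| ≤ A * R₁ := by
    refine (Finset.abs_sum_le_sum_abs _ _).trans ?_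
    have h6 : ∑ j, |c i j * (((π (Y.sm x) j : ℤ) : ℝ) + ((π (Y.sm y) j : ℤ) : ℝ))| ≤
        (∑ j, |c i j|) * R₁ := by
      rw [Finset.sum_mul]
      refine Finset.sum_le_sum fun j _ => ?_
      rw [abs_mul]
      exact mul_le_mul_of_nonneg_left (h4 j) (abs_nonneg _)
    refine h6.trans (mul_le_mul_of_nonneg_right ?_ (Nat.cast_nonneg _))
    exact Finset.single_le_sum (f := fun i => ∑ j, |c i j|)
      (fun i _ => Finset.sum_nonneg fun _ _ => abs_nonneg _) (Finset.mem_univ i)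
  have h6 : ∑ j, c i j * (((π (Y.sm x) j : ℤ) : ℝ) + ((π (Y.sm y) j : ℤ) : ℝ)) =
      ∑ j, c i j * ((π (Y.sm x) j : ℤ) : ℝ) + ∑ j, c i j * ((π (Y.sm y) j : ℤ) : ℝ) := by
    rw [← Finset.sum_add_distrib]
    exact Finset.sum_congr rfl fun j _ => mul_add _ _ _
  rw [h6] at h5
  have h7 := h2 i
  have h8 := h3 i
  have h9 : |((Y.sm x i : ℤ) : ℝ) + ((Y.sm y i : ℤ) : ℝ)| ≤ A * R₁ + 2 * B := by
    rw [abs_le] at h5 h7 h8 ⊢
    constructor <;> linarith [h5.1, h5.2, h7.1, h7.2, h8.1, h8.2]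
  have h10 : |((Y.sm x i : ℤ) : ℝ) + ((Y.sm y i : ℤ) : ℝ)| ≤ R₀ := h9.trans hR₀.le
  exact_mod_cast h10

theorem finset_diam (D : Finset (Zk d)) : ∃ R : ℕ, ∀ x ∈ D, ∀ y ∈ D, ∀ i, |x i - y i| ≤ R := by
  classical
  refine ⟨(D ×ˢ D).sup fun q => n1 (q.1 - q.2), fun x hx y hy i => ?_⟩
  have h1 : n1 (x - y) ≤ (D ×ˢ D).sup fun q => n1 (q.1 - q.2) :=
    Finset.le_sup (f := fun q : Zk d × Zk d => n1 (q.1 - q.2))
      (Finset.mem_product.2 ⟨hx, hy⟩ : (x, y) ∈ D ×ˢ D)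
  have h2 : (x i - y i).natAbs ≤ n1 (x - y) := natAbs_le_n1 (x - y) i
  have h3 : |x i - y i| = (((x i - y i).natAbs : ℕ) : ℤ) := (Int.natCast_natAbs _).symm
  rw [h3]
  exact_mod_cast h2.trans h1

/-- NO LARGE RECORD. -/
theorem no_record (h : Bulk Y Λ ρ) (hr : Bulk Y Λ (rv ρ)) (ha1 : ∀ n, 1 ≤ Y.a n)
    (hK : ∀ n, Y.a n ≤ K) (hstep : ∀ s i, |Y.vec s i| ≤ 1)
    (ht : ∀ i : Fin d, ∃ c : Rk k, ∀ ε : ℝ, 0 < ε → ∃ B : ℝ, ∀ n, (Y.E n fun w => ρ w *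
      ind (B < |(Y.sm w i : ℝ) - ∑ j, c j * (π (Y.sm w) j : ℝ)|)) ≤ ε)
    (hN : ∀ r : ℕ, ∃ D : Finset (Zk d), (∀ x : Zk d, (∀ i, |x i| ≤ r) → x ∈ D) ∧
      ∀ M : ℕ, ∃ C : ℝ, 0 ≤ C ∧ open Classical in ∀ n n', (Y.E n fun u => Y.E n' fun v =>
        Y.sv (u ++ v) * (((range (n' + 1)).filter fun t => Nice Y D M u v t).card : ℝ)) ≤ C)
    {κ c₃ C₁ C₃ T : ℝ} (hκ : 0 < κ) (hc₃ : 0 < c₃) (hC₁ : 0 < C₁) (hC₃ : 0 < C₃) (hT : 0 < T)
    {a : ℝ} (ha0 : 0 ≤ a) (ha : a < 1) {H m₀ : ℕ} (hH : 0 < H) {ε : ℝ}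
    (hε : ε ≤ c₃ ^ 2 * κ ^ 2 / (64 * C₁ ^ 2))
    (N3 : ∀ m ≥ m₀, ∀ (n : ℕ) (Ψ : List S → Zk k → List S → ℝ), (∀ u x v, |Ψ u x v| ≤ 1) →
      (∀ u v, Lip (1 - a)⁻¹ fun x => Ψ u x v) →
      |(H : ℝ)⁻¹ * (∑ j ∈ range H, Y.E n fun u => Y.E (m + j) fun b => Y.E n fun v =>
          ρ (u ++ b ++ v) * Ψ u (π (Y.sm b)) v) -
        Y.E n fun u => Y.E m fun b => Y.E n fun v =>
          ρ u * ρ b * ρ v * Ψ u (π (Y.sm b)) v| ≤ ε) :
    ∃ E₀ : ℝ, ∀ E ≥ E₀, ∀ N : ℝ, 0 < N → ∀ (n m : ℕ) (J : Finset ℕ) (Qm Qp : List S → Prop),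
      m₀ ≤ m → (∀ t ∈ J, 1 ≤ t ∧ t ≤ n) → (J.card : ℝ) ≤ T * N →
      (∀ x, Qm x → good Y (rv ρ) κ x) → (∀ x, Qp x → good Y ρ κ x) →
      (∀ z, ∑ s ∈ J, (Y.E s fun y => UU Y ρ y * ind (Qp y) * ker a (z + π (Y.sm y))) ≤
        C₃ * E / N) →
      (∀ z, ∑ t ∈ J, (Y.E t fun x => UU Y (rv ρ) x * ind (Qm x) *
        ker a (z + π (Y.sm x))) ≤ C₃ * E / N) →
      (∀ z, (GS Y (n + 1) fun x => GS Y (n + 1) fun y => gw Y (rv ρ) κ x * gw Y ρ κ y *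
        ker (Real.sqrt a) (π (Y.sm x) + z + π (Y.sm y))) ≤ C₁ * E) →
      (GS Y (n + 1) fun x => GS Y (n + 1) fun y => gw Y (rv ρ) κ x * gw Y ρ κ y *
        ker (Real.sqrt a) (π (Y.sm x) - π (Y.sm y))) ≤ C₁ * E →
      c₃ * E ≤ EP Y π ρ n m (HH Y π J Qm Qp a) → False := by
  have hK1 : 1 ≤ K := (ha1 0).trans (hK 0)
  have hK0 : 0 < K := by linarith
  have hΛ := h.pos
  -- constants
  set c₄ : ℝ := c₃ ^ 2 * κ ^ 2 / (16 * C₁ ^ 2) with hc₄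
  have hc₄0 : 0 < c₄ := by positivity
  have hε' : ε ≤ c₄ / 4 := by
    refine hε.trans (le_of_eq ?_)
    rw [hc₄, div_div]
    congr 1
    ring
  set κ₁ : ℝ := c₄ / (8 * K) with hκ₁
  have hκ₁0 : 0 < κ₁ := by positivity
  set q : ℝ := c₃ * κ ^ 2 / (8 * C₁ ^ 2) with hq
  have hq0 : 0 < q := by positivity
  -- far pairs
  have hs0 : 0 ≤ Real.sqrt a := Real.sqrt_nonneg a
  have hs1 : Real.sqrt a < 1 := by
    rw [Real.sqrt_lt' one_pos]
    linarith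
  obtain ⟨R₁, hR₁⟩ := exists_pow_lt_of_lt_one
    (show 0 < c₄ * κ₁ / (16 * q * K * C₁) by positivity) hs1
  set ε₁ : ℝ := c₄ * κ₁ / (16 * q * T * C₃ * (2 + K)) with hε₁
  have hε₁0 : 0 < ε₁ := by positivity
  -- tight coordinates
  obtain ⟨c, hc⟩ := TB_small (π := π) h ht
  have hcr : ∀ ε : ℝ, 0 < ε → ∃ B : ℝ, 0 ≤ B ∧
      ∀ n, (Y.E n fun w => rv ρ w * ind (TB Y π c B w)) ≤ ε := by
    intro ε hε
    obtain ⟨B, hB, h1⟩ := hc ε hε
    refine ⟨B, hB, fun n => ?_⟩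
    rw [← Y.E_reverse]
    refine le_trans (le_of_eq (Y.E_congr fun w _ => ?_)) (h1 n)
    rw [ind_congr (TB_reverse c B w)]
    simp [rv]
  obtain ⟨B₁, hB₁, hB₁'⟩ := TB_small_UU h hK hc hε₁0
  obtain ⟨B₂, hB₂, hB₂'⟩ := TB_small_UU hr hK hcr hε₁0
  set B : ℝ := max B₁ B₂ with hB
  obtain ⟨R₀, hR₀⟩ := geo_bound (Y := Y) (π := π) c R₁ B
  obtain ⟨D, hD1, hD⟩ := hN (R₀ + 1)
  obtain ⟨R, hD2⟩ := finset_diam D
  obtain ⟨l, hl⟩ := ret_small_UU h hr hK R hε₁0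
  obtain ⟨C, hC, hCN⟩ := hD (2 * l)
  refine ⟨8 * q * (Λ * (2 * l + 1 : ℕ) * C) / c₄ + 1, ?_⟩
  intro E hE N hN0 n m J Qm Qp hm hJ hJc hQm hQp S1p S1m S2 S2' S3
  have hE0 : 0 < E := by
    have : 0 ≤ 8 * q * (Λ * (2 * l + 1 : ℕ) * C) / c₄ := by positivity
    linarith
  have hM₃ : 0 ≤ C₃ * E / N := by positivity
  have main := main_ineq (π := π) h hr hK hstep hκ hκ₁0 hQm hQp hJ ha0 ha
    (m₁ := c₃ * E) (M₁ := C₁ * E) (M₃ := C₃ * E / N) (ε₁ := ε₁) (by positivity) (by positivity)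
    hM₃ hε₁0.le S1p S1m S2 S2' S3 hH (ε := ε) (fun Ψ h1 h2 => N3 m hm n Ψ h1 h2)
    (D := D) (R₀ := R₀) (R := R) (l := l) (R₁ := R₁)
    (fun x hx => hD1 x fun i => by
      have := hx i
      push_cast
      exact this) hD2 hCN (T := TB Y π c B) hR₀
    (fun j _ t ht => hl _ _ (by have := (hJ t ht).2; omega))
    (fun j _ t ht => by
      have h1 := E_take hr hK (t := m + j + t) (n := m + j + n)
        (by have := (hJ t ht).2; omega) [] (fun x => ind (TB Y π c B x))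
      simp only [List.nil_append] at h1
      rw [h1]
      exact hB₂' B (le_max_right _ _) _)
    (fun s _ => hB₁' B (le_max_left _ _) s)
  -- arithmetic
  have e1 : (c₃ * E) ^ 2 / (4 * (4 * κ⁻¹ ^ 2 * (C₁ * E) ^ 2)) = c₄ := by
    rw [hc₄]
    field_simp
    ring
  have e2 : (2 * (4 * κ⁻¹ ^ 2 * (C₁ * E) ^ 2) / (c₃ * E))⁻¹ = q / E := by
    rw [hq]
    field_simp
    ring
  rw [e1, e2] at main
  have t1 : κ₁ * K = c₄ / 8 := by
    rw [hκ₁]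
    field_simp
  have t2 : q / E * (Λ * (2 * l + 1 : ℕ) * C) ≤ c₄ / 8 := by
    rw [div_mul_eq_mul_div, div_le_div_iff₀ hE0 (by norm_num)]
    have h1 : 8 * q * (Λ * (2 * l + 1 : ℕ) * C) / c₄ ≤ E := by linarith
    rw [div_le_iff₀ hc₄0] at h1
    linarith
  have t3 : κ₁⁻¹ * (q / E) * (Real.sqrt a ^ R₁ * (K * (C₁ * E)) +
      J.card * (ε₁ * (C₃ * E / N)) + J.card * (ε₁ * (C₃ * E / N)) +
        J.card * (K * (ε₁ * (C₃ * E / N)))) ≤ c₄ / 8 := by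
    have u1 : Real.sqrt a ^ R₁ * (K * (C₁ * E)) ≤ c₄ * κ₁ / (16 * q) * E := by
      have := mul_le_mul_of_nonneg_right hR₁.le (show 0 ≤ K * (C₁ * E) by positivity)
      refine this.trans (le_of_eq ?_)
      field_simp
    have u2 : J.card * (ε₁ * (C₃ * E / N)) + J.card * (ε₁ * (C₃ * E / N)) +
        J.card * (K * (ε₁ * (C₃ * E / N))) ≤ c₄ * κ₁ / (16 * q) * E := by
      have h1 : J.card * (ε₁ * (C₃ * E / N)) + J.card * (ε₁ * (C₃ * E / N)) +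
        J.card * (K * (ε₁ * (C₃ * E / N))) = J.card * ((2 + K) * (ε₁ * (C₃ * E / N))) := by ring
      rw [h1]
      have h2 := mul_le_mul_of_nonneg_right hJc
        (show 0 ≤ (2 + K) * (ε₁ * (C₃ * E / N)) by positivity)
      refine h2.trans (le_of_eq ?_)
      rw [hε₁]
      field_simp
    have u3 : Real.sqrt a ^ R₁ * (K * (C₁ * E)) +
      J.card * (ε₁ * (C₃ * E / N)) + J.card * (ε₁ * (C₃ * E / N)) +
        J.card * (K * (ε₁ * (C₃ * E / N))) ≤ c₄ * κ₁ / (8 * q) * E := by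
      have h3 : c₄ * κ₁ / (8 * q) * E = c₄ * κ₁ / (16 * q) * E + c₄ * κ₁ / (16 * q) * E := by
        field_simp
        ring
      rw [h3]
      linarith
    have u4 := mul_le_mul_of_nonneg_left u3 (show 0 ≤ κ₁⁻¹ * (q / E) by positivity)
    refine u4.trans (le_of_eq ?_)
    field_simp
  rw [t1] at main
  linarith

end Pool.Agent.SawM2
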