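import Pool.Agent.SawM2.GInv

/-!
# The reversed law (section 4f)
-/

set_option autoImplicit false

namespace Pool.Agent.SawM2

open Finset Filter Pool.Agent.Bub4 Pool.Agent.SawDiff

variable {S V : Type} [Fintype S] [AddCommGroup V] {Y : Sys S V} {Λ K : ℝ} {ρ : List S → ℝ}
  {k : ℕ} {π : V →+ Zk k} {κ a : ℝ}

/-- the measure of the good regular words of a fixed length, against a bounded function -/
private theorem GRV_one (hρ : Bulk Y Λ ρ) (n l : ℕ) (f : Zk k → ℝ) (hf : ∀ x, |f x| ≤ 1)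
    {β c δ : ℝ} (hβ : 7 / 8 ≤ β)
    (hirr : (Y.E l fun w => ρ w * ind (¬ Rg Y ρ κ n w)) ≤ δ)
    (hg : |(Y.E l fun w => ρ w * ind (good Y ρ κ w) * f (π (Y.sm w))) - β * c| ≤ δ) :
    |β⁻¹ * (Y.E l fun w => ρ w * ind (good Y ρ κ w ∧ Rg Y ρ κ n w) * f (π (Y.sm w))) - c| ≤
      8 / 7 * (2 * δ) := by
  have hβ0 : 0 < β := by linarith
  have h1 : |(Y.E l fun w => ρ w * ind (good Y ρ κ w ∧ Rg Y ρ κ n w) * f (π (Y.sm w))) -
      Y.E l fun w => ρ w * ind (good Y ρ κ w) * f (π (Y.sm w))| ≤ δ := by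
    rw [← Y.E_fsub]
    refine (Y.E_abs _ _).trans (le_trans (Y.E_mono fun w _ => ?_) hirr)
    have hw := hρ.nonneg w
    have hfw := hf (π (Y.sm w))
    have he : ρ w * ind (good Y ρ κ w ∧ Rg Y ρ κ n w) * f (π (Y.sm w)) -
        ρ w * ind (good Y ρ κ w) * f (π (Y.sm w)) =
        ρ w * ((ind (good Y ρ κ w ∧ Rg Y ρ κ n w) - ind (good Y ρ κ w)) * f (π (Y.sm w))) := by
      ring
    rw [he, abs_mul, abs_of_nonneg hw]
    refine mul_le_mul_of_nonneg_left ?_ hw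
    rw [abs_mul]
    by_cases hR : Rg Y ρ κ n w
    · by_cases hG : good Y ρ κ w
      · rw [ind_of ⟨hG, hR⟩, ind_of hG, sub_self, abs_zero, zero_mul]
        exact ind_nonneg _
      · rw [ind_not fun hh => hG hh.1, ind_not hG, sub_self, abs_zero, zero_mul]
        exact ind_nonneg _
    · rw [ind_of hR, ind_not fun hh => hR hh.2, zero_sub, abs_neg, abs_of_nonneg (ind_nonneg _)]
      have hi : ind (good Y ρ κ w) ≤ 1 := ind_le_one _
      have hi0 : 0 ≤ ind (good Y ρ κ w) := ind_nonneg _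
      have := abs_nonneg (f (π (Y.sm w)))
      nlinarith
  have h2 : |(Y.E l fun w => ρ w * ind (good Y ρ κ w ∧ Rg Y ρ κ n w) * f (π (Y.sm w))) - β * c| ≤
      2 * δ := by
    have := abs_sub_le (Y.E l fun w => ρ w * ind (good Y ρ κ w ∧ Rg Y ρ κ n w) * f (π (Y.sm w)))
      (Y.E l fun w => ρ w * ind (good Y ρ κ w) * f (π (Y.sm w))) (β * c)
    linarith
  have h3 : β⁻¹ * (Y.E l fun w => ρ w * ind (good Y ρ κ w ∧ Rg Y ρ κ n w) * f (π (Y.sm w))) - c =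
      β⁻¹ * ((Y.E l fun w => ρ w * ind (good Y ρ κ w ∧ Rg Y ρ κ n w) * f (π (Y.sm w))) -
        β * c) := by
    field_simp
  rw [h3, abs_mul, abs_of_pos (inv_pos.2 hβ0)]
  have h4 : β⁻¹ ≤ 8 / 7 := by
    rw [inv_le_comm₀ hβ0 (by norm_num)]
    norm_num
    exact hβ
  exact mul_le_mul h4 h2 (abs_nonneg _) (by norm_num)

private theorem GRV_bb (hρ : Bulk Y Λ ρ) (hK : ∀ n, Y.a n ≤ K) (hκ : 0 < κ)
    (hκK : κ * K ≤ 1 / 8) : 7 / 8 ≤ 1 - bb Y ρ κ ∧ 1 - bb Y ρ κ ≤ 1 := by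
  have h1 := bb_le hρ hK hκ.le
  have h2 := (bn_nonneg hρ κ 0).trans (bn_le_bb hρ hK hκ.le 0)
  constructor <;> linarith

/-- GRV. (4f) the normalised measures of `ρ` and of the reversed law are close. Proof: `Fm.dual` with
`B = 8/7` times the bound of `sm_PR_le` (`bb_le`: `bb ≤ κ K ≤ 1/8`; for the reversed law `EE_rv`)
and `δ = T N ε'`: for every `l ∈ [4 n, T N)` both `(1 - bb)⁻¹ E l (ρ w ind (good w ∧ Rg n w) f)` and
the same for `rv ρ` differ from `E l (ρ w f)` by at most `ε' / 2` (`good_disp`, `good_disp_rv`,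
`irr_le` for `ρ` and for `rv ρ`). -/
theorem near_rv (h : Erg Y Λ K ρ) (hπ : Stp Y π) (hκ : 0 < κ) (hκK : κ * K ≤ 1 / 8) {D : ℕ}
    (hD : 4 ≤ D) (T : ℕ) {ε : ℝ} (hε : 0 < ε) :
    ∃ a₀ : ℝ, a₀ < 1 ∧ ∃ N₀ : ℕ, ∀ a : ℝ, a₀ ≤ a → 0 < a → a < 1 → ∀ N ≥ N₀,
      Fm.en a (Fm.sub (Fm.smul (1 - bb Y ρ κ)⁻¹ (PR Y π ρ κ (N / D) (T * N)))
          (Fm.smul (1 - bb Y (rv ρ) κ)⁻¹ (PR Y π (rv ρ) κ (N / D) (T * N))))
        (Fm.sub (Fm.smul (1 - bb Y ρ κ)⁻¹ (PR Y π ρ κ (N / D) (T * N)))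
          (Fm.smul (1 - bb Y (rv ρ) κ)⁻¹ (PR Y π (rv ρ) κ (N / D) (T * N)))) ≤
        ε * EE Y π ρ κ a N := by
  have hr : Erg Y Λ K (rv ρ) := h.rv
  obtain ⟨hβ, hβ1⟩ := GRV_bb h.bulk h.a_le hκ hκK
  obtain ⟨hβ', hβ1'⟩ := GRV_bb hr.bulk hr.a_le hκ hκK
  have hΛK : 0 ≤ Λ * K := (Y.E_nonneg' fun w => UU_nonneg h.bulk h.a_le w).trans
    (E_UU_le h.bulk h.a_le 0)
  have hq : 0 ≤ Λ * K / κ := div_nonneg hΛK hκ.le
  have hqT : 0 < (1 + Λ * K / κ) ^ T := pow_pos (by linarith) _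
  obtain ⟨C, hC, hCdef⟩ : ∃ C : ℝ, 0 < C ∧ C = 4 * D * (1 + Λ * K / κ) ^ T / κ := by
    refine ⟨_, ?_, rfl⟩
    have : (0 : ℝ) < D := by exact_mod_cast (by omega : 0 < D)
    positivity
  obtain ⟨δ, hδ, hδC⟩ : ∃ δ : ℝ, 0 < δ ∧ 8 / 7 * C * (T * (4 * (8 / 7) * δ)) ≤ ε := by
    refine ⟨ε / (8 / 7 * C * (T * (4 * (8 / 7))) + 1), by positivity, ?_⟩
    have hp : 0 ≤ 8 / 7 * C * (T * (4 * (8 / 7))) := by positivity
    have : 8 / 7 * C * (T * (4 * (8 / 7) * (ε / (8 / 7 * C * (T * (4 * (8 / 7))) + 1)))) =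
        ε * ((8 / 7 * C * (T * (4 * (8 / 7)))) / (8 / 7 * C * (T * (4 * (8 / 7))) + 1)) := by
      ring
    rw [this]
    have h2 : (8 / 7 * C * (T * (4 * (8 / 7)))) / (8 / 7 * C * (T * (4 * (8 / 7))) + 1) ≤ 1 := by
      rw [div_le_one (by linarith)]
      linarith
    calc _ ≤ ε * 1 := mul_le_mul_of_nonneg_left h2 hε.le
      _ = ε := mul_one _
  obtain ⟨L₁, hL₁, n₁, H₁⟩ := good_disp h hπ hκ.le hδ
  obtain ⟨L₂, hL₂, n₂, H₂⟩ := good_disp_rv h hπ hκ.le hδ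
  obtain ⟨n₃, H₃⟩ := irr_le h hκ.le hκK hδ
  obtain ⟨n₄, H₄⟩ := irr_le hr hκ.le hκK hδ
  have hL : 0 < max L₁ L₂ := lt_max_of_lt_left hL₁
  refine ⟨1 - 1 / (2 * max L₁ L₂), by
    have : 0 < 1 / (2 * max L₁ L₂) := by positivity
    linarith, D * (n₁ + n₂ + n₃ + n₄ + 1), ?_⟩
  intro a ha₀ ha0 ha1 N hN
  have hDpos : 0 < D := by omega
  have hn : n₁ + n₂ + n₃ + n₄ + 1 ≤ N / D := by
    rw [Nat.le_div_iff_mul_le hDpos, mul_comm]
    exact hN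
  have hND : D ≤ N := by
    refine le_trans ?_ hN
    exact Nat.le_mul_of_pos_right D (by omega)
  have hNpos : (0 : ℝ) < N := by exact_mod_cast (by omega : 0 < N)
  have hLa : max L₁ L₂ ≤ 1 / (2 * (1 - a)) := by
    have h1a : 0 < 1 - a := by linarith
    rw [le_div_iff₀ (by positivity)]
    have h5 : 1 - a ≤ 1 / (2 * max L₁ L₂) := by linarith
    have h6 := (le_div_iff₀ (by positivity)).1 h5
    linarith
  have hE0 : 0 ≤ EE Y π ρ κ a N := EE_nonneg ha0 ha1 N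
  have hinv : ∀ {β : ℝ}, 7 / 8 ≤ β → β⁻¹ ≤ 8 / 7 ∧ 0 ≤ β⁻¹ := by
    intro β hb
    have hb0 : 0 < β := by linarith
    refine ⟨?_, (inv_pos.2 hb0).le⟩
    rw [inv_le_comm₀ hb0 (by norm_num)]
    norm_num
    exact hb
  have hsm : ∀ {β : ℝ} {μ : Fm k} {z : Zk k}, 7 / 8 ≤ β → 0 ≤ Fm.sm a μ z →
      Fm.sm a μ z ≤ C * (EE Y π ρ κ a N / N) →
      Fm.sm a (Fm.smul β⁻¹ μ) z ≤ 8 / 7 * (C * (EE Y π ρ κ a N / N)) := by
    intro β μ z hb h0 hle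
    have h7 : Fm.sm a (Fm.smul β⁻¹ μ) z = β⁻¹ * Fm.sm a μ z := Fm.pr_smul _ _ _
    rw [h7]
    exact mul_le_mul (hinv hb).1 hle h0 (by norm_num)
  have hnn0 : ∀ {μ : Fm k} (z : Zk k), μ.Nn → 0 ≤ Fm.sm a μ z := fun z hμ =>
    hμ.pr_nonneg fun x => ker_nonneg ha0.le _
  have hfin := Fm.dual (a := a) ha0 ha1
    (μ := Fm.smul (1 - bb Y ρ κ)⁻¹ (PR Y π ρ κ (N / D) (T * N)))
    (ν := Fm.smul (1 - bb Y (rv ρ) κ)⁻¹ (PR Y π (rv ρ) κ (N / D) (T * N)))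
    ((nn_PR h.bulk _ _).smul (hinv hβ).2) ((nn_PR hr.bulk _ _).smul (hinv hβ').2)
    (B := 8 / 7 * (C * (EE Y π ρ κ a N / N))) (δ := (T * N) * (4 * (8 / 7) * δ))
    (fun z => hsm hβ (hnn0 z (nn_PR h.bulk _ _)) (by
      rw [hCdef]
      exact sm_PR_le h.bulk h.a_le hκ ha0 ha1 (by omega) hND T z))
    (fun z => hsm hβ' (hnn0 z (nn_PR hr.bulk _ _)) (by
      rw [hCdef, ← EE_rv (ρ := ρ)]
      exact sm_PR_le hr.bulk hr.a_le hκ ha0 ha1 (by omega) hND T z))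
    (by
      intro f hf hlip
      rw [Fm.pr_smul, Fm.pr_smul]
      unfold PR
      rw [Fm.pr_bs, Fm.pr_bs, Finset.mul_sum, Finset.mul_sum, ← Finset.sum_sub_distrib]
      have hterm : ∀ l ∈ Ico (4 * (N / D)) (T * N),
          (1 - bb Y ρ κ)⁻¹ * (lw Y π (fun w => ρ w * ind (good Y ρ κ w ∧ Rg Y ρ κ (N / D) w))
            l).pr f - (1 - bb Y (rv ρ) κ)⁻¹ * (lw Y π (fun w => rv ρ w *
              ind (good Y (rv ρ) κ w ∧ Rg Y (rv ρ) κ (N / D) w)) l).pr f ≤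
            4 * (8 / 7) * δ := by
        intro l hl
        have hl1 := (Finset.mem_Ico.1 hl).1
        rw [pr_lw, pr_lw]
        have g1 := GRV_one (π := π) h.bulk (N / D) l f hf (κ := κ)
          (c := Y.E l fun w => ρ w * f (π (Y.sm w))) hβ
          (H₃ (N / D) (by omega) l (by omega))
          (H₁ _ (le_trans (le_max_left _ _) hLa) l (by omega) f hf hlip)
        have g2 := GRV_one (π := π) hr.bulk (N / D) l f hf (κ := κ)
          (c := Y.E l fun w => ρ w * f (π (Y.sm w))) hβ'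
          (H₄ (N / D) (by omega) l (by omega))
          (H₂ _ (le_trans (le_max_right _ _) hLa) l (by omega) f hf hlip)
        have g3 := (abs_le.1 g1).2
        have g4 := (abs_le.1 g2).1
        linarith
      refine (Finset.sum_le_sum hterm).trans ?_
      rw [Finset.sum_const, nsmul_eq_mul, Nat.card_Ico]
      refine mul_le_mul_of_nonneg_right ?_ (by positivity)
      have : ((T * N - 4 * (N / D) : ℕ) : ℝ) ≤ ((T * N : ℕ) : ℝ) := by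
        exact_mod_cast Nat.sub_le _ _
      refine this.trans (le_of_eq ?_)
      push_cast
      ring)
  refine hfin.trans ?_
  have h8 : 8 / 7 * (C * (EE Y π ρ κ a N / N)) * ((T * N) * (4 * (8 / 7) * δ)) =
      (8 / 7 * C * (T * (4 * (8 / 7) * δ))) * EE Y π ρ κ a N := by
    field_simp
  rw [h8]
  exact mul_le_mul_of_nonneg_right hδC hE0

end Pool.Agent.SawM2
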