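import Pool.Agent.SawM2.NTwo

/-!
# Three words (module NTHR)
-/

set_option autoImplicit false

namespace Pool.Agent.SawM2

open Finset Filter Pool.Agent.Bub4 Pool.Agent.SawDiff

variable {S V : Type} [Fintype S] [AddCommGroup V] {Y : Sys S V} {Λ K : ℝ} {ρ : List S → ℝ}
  {k : ℕ} {π : V →+ Zk k}

theorem n1r_sm_le (hπ : Stp Y π) (w : List S) : (n1 (π (Y.sm w)) : ℝ) ≤ k * w.length := by
  exact_mod_cast n1_sm_le hπ w

/-! ### Conditional averages -/

/-- average over the words on the right of `γ` -/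
noncomputable def cR (Y : Sys S V) (ρ : List S → ℝ) (n : ℕ) (γ : List S) (F : List S → ℝ) : ℝ :=
  Y.E n fun v => ρ (γ ++ v) / ρ γ * F v

/-- average over the words on the left of `γ` -/
noncomputable def cL (Y : Sys S V) (ρ : List S → ℝ) (n : ℕ) (γ : List S) (F : List S → ℝ) : ℝ :=
  Y.E n fun v => ρ (v ++ γ) / ρ γ * F v

theorem cR_abs_le (h : Bulk Y Λ ρ) {n : ℕ} {γ : List S} {F : List S → ℝ} {c : ℝ} (hc : 0 ≤ c)
    (hF : ∀ v, |F v| ≤ c) : |cR Y ρ n γ F| ≤ c := by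
  have hw : (Y.E n fun v => ρ (γ ++ v) / ρ γ) ≤ 1 := by
    simp only [div_eq_mul_inv, Y.E_mul_right, h.right]
    by_cases h0 : ρ γ = 0
    · rw [h0]; norm_num
    · rw [mul_inv_cancel₀ h0]
  refine (Y.E_abs _ _).trans ?_
  calc (Y.E n fun v => |ρ (γ ++ v) / ρ γ * F v|) ≤ Y.E n fun v => ρ (γ ++ v) / ρ γ * c := by
        refine Y.E_mono fun v _ => ?_
        have hq : 0 ≤ ρ (γ ++ v) / ρ γ := div_nonneg (h.nonneg _) (h.nonneg _)
        rw [abs_mul, abs_of_nonneg hq]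
        exact mul_le_mul_of_nonneg_left (hF v) hq
    _ = (Y.E n fun v => ρ (γ ++ v) / ρ γ) * c := by rw [Y.E_mul_right]
    _ ≤ 1 * c := mul_le_mul_of_nonneg_right hw hc
    _ = c := one_mul _

theorem cL_abs_le (h : Bulk Y Λ ρ) {n : ℕ} {γ : List S} {F : List S → ℝ} {c : ℝ} (hc : 0 ≤ c)
    (hF : ∀ v, |F v| ≤ c) : |cL Y ρ n γ F| ≤ c := by
  have hw : (Y.E n fun v => ρ (v ++ γ) / ρ γ) ≤ 1 := by
    simp only [div_eq_mul_inv, Y.E_mul_right, h.left]
    by_cases h0 : ρ γ = 0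
    · rw [h0]; norm_num
    · rw [mul_inv_cancel₀ h0]
  refine (Y.E_abs _ _).trans ?_
  calc (Y.E n fun v => |ρ (v ++ γ) / ρ γ * F v|) ≤ Y.E n fun v => ρ (v ++ γ) / ρ γ * c := by
        refine Y.E_mono fun v _ => ?_
        have hq : 0 ≤ ρ (v ++ γ) / ρ γ := div_nonneg (h.nonneg _) (h.nonneg _)
        rw [abs_mul, abs_of_nonneg hq]
        exact mul_le_mul_of_nonneg_left (hF v) hq
    _ = (Y.E n fun v => ρ (v ++ γ) / ρ γ) * c := by rw [Y.E_mul_right]
    _ ≤ 1 * c := mul_le_mul_of_nonneg_right hw hc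
    _ = c := one_mul _

theorem cR_sub (n : ℕ) (γ : List S) (F G : List S → ℝ) :
    cR Y ρ n γ F - cR Y ρ n γ G = cR Y ρ n γ fun v => F v - G v := by
  unfold cR
  rw [← Y.E_fsub]
  exact Y.E_congr fun v _ => by ring

theorem cL_sub (n : ℕ) (γ : List S) (F G : List S → ℝ) :
    cL Y ρ n γ F - cL Y ρ n γ G = cL Y ρ n γ fun v => F v - G v := by
  unfold cL
  rw [← Y.E_fsub]
  exact Y.E_congr fun v _ => by ring

theorem mul_cR (h : Bulk Y Λ ρ) (n : ℕ) (γ : List S) (F : List S → ℝ) :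
    ρ γ * cR Y ρ n γ F = Y.E n fun v => ρ (γ ++ v) * F v := by
  unfold cR
  rw [← Y.E_mul_left]
  refine Y.E_congr fun v _ => ?_
  by_cases h0 : ρ γ = 0
  · rw [h.eq_zero_left h0, h0]; ring
  · field_simp

theorem mul_cL (h : Bulk Y Λ ρ) (n : ℕ) (γ : List S) (F : List S → ℝ) :
    ρ γ * cL Y ρ n γ F = Y.E n fun v => ρ (v ++ γ) * F v := by
  unfold cL
  rw [← Y.E_mul_left]
  refine Y.E_congr fun v _ => ?_
  by_cases h0 : ρ γ = 0
  · rw [h.eq_zero_right h0, h0]; ring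
  · field_simp

/-- near independence of the two sides of `γ` for bounded functions, conditioning the right
side -/
theorem dev_right (h : Bulk Y Λ ρ) (m g n : ℕ) {G : List S → List S → ℝ}
    (hG : ∀ u v, |G u v| ≤ 1) :
    |(Y.E (m + g) fun b => Y.E n fun v => ρ (b ++ v) * G b v) -
      Y.E (m + g) fun b => ρ b * cR Y ρ n (b.drop m) (G b)| ≤ dev Y ρ m g n := by
  rw [Y.E_add, Y.E_add, ← Y.E_fsub]
  unfold dev
  refine (Y.E_abs _ _).trans (Y.E_mono fun u hu => ?_)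
  rw [← Y.E_fsub]
  refine (Y.E_abs _ _).trans (Y.E_mono fun γ _ => ?_)
  have h1 : (u ++ γ).drop m = γ := by rw [← hu, List.drop_left]
  rw [h1]
  unfold cR
  rw [← Y.E_mul_left, ← Y.E_fsub]
  refine (Y.E_abs _ _).trans (Y.E_mono fun v _ => ?_)
  have h2 : ρ (u ++ γ ++ v) * G (u ++ γ) v - ρ (u ++ γ) * (ρ (γ ++ v) / ρ γ * G (u ++ γ) v) =
      (ρ (u ++ γ ++ v) - ρ (u ++ γ) * ρ (γ ++ v) / ρ γ) * G (u ++ γ) v := by ring
  rw [h2, abs_mul]
  exact mul_le_of_le_one_right (abs_nonneg _) (hG _ _)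

/-- near independence of the two sides of `γ` for bounded functions, conditioning the left
side -/
theorem dev_left (h : Bulk Y Λ ρ) (m g n : ℕ) {G : List S → List S → ℝ}
    (hG : ∀ u v, |G u v| ≤ 1) :
    |(Y.E m fun u => Y.E (g + n) fun b => ρ (u ++ b) * G u b) -
      Y.E (g + n) fun b => ρ b * cL Y ρ m (b.take g) (fun u => G u b)| ≤ dev Y ρ m g n := by
  have e1 : (Y.E (g + n) fun b => ρ b * cL Y ρ m (b.take g) (fun u => G u b)) =
      Y.E m fun u => Y.E g fun γ => Y.E n fun v =>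
        ρ (u ++ γ) * ρ (γ ++ v) / ρ γ * G u (γ ++ v) := by
    rw [Y.E_add]
    rw [Y.E_comm m g]
    refine Y.E_congr fun γ hγ => ?_
    rw [Y.E_comm m n]
    refine Y.E_congr fun v _ => ?_
    rw [← hγ, List.take_left]
    unfold cL
    rw [← Y.E_mul_left]
    exact Y.E_congr fun u _ => by ring
  rw [e1, ← Y.E_fsub]
  unfold dev
  refine (Y.E_abs _ _).trans (Y.E_mono fun u hu => ?_)
  rw [Y.E_add, ← Y.E_fsub]
  refine (Y.E_abs _ _).trans (Y.E_mono fun γ _ => ?_)
  rw [← Y.E_fsub]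
  refine (Y.E_abs _ _).trans (Y.E_mono fun v _ => ?_)
  rw [← sub_mul, abs_mul, ← List.append_assoc]
  exact mul_le_of_le_one_right (abs_nonneg _) (hG _ _)

/-- steps 1 and 2: conditioning on the first and on the last `g` letters of the middle word -/
theorem near3_a (h : Bulk Y Λ ρ) {g M : ℕ} (hM : g ≤ M) (n' n : ℕ) {D : ℝ}
    (hD : ∀ m n, dev Y ρ m g n ≤ D) {Ψ : List S → Zk k → List S → ℝ}
    (hΨ : ∀ u x v, |Ψ u x v| ≤ 1) :
    |(Y.E n' fun u => Y.E M fun b => Y.E n fun v =>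
        ρ (u ++ b ++ v) * Ψ u (π (Y.sm b)) v) -
      Y.E M fun b => ρ b * cR Y ρ n (b.drop (M - g)) (fun v =>
        cL Y ρ n' (b.take g) (fun u => Ψ u (π (Y.sm b)) v))| ≤ D + D := by
  obtain ⟨M', rfl⟩ : ∃ M', M = M' + g := ⟨M - g, by omega⟩
  rw [Nat.add_sub_cancel]
  -- middle expression
  have e1 : (Y.E n' fun u => Y.E (M' + g) fun b => Y.E n fun v =>
        ρ (u ++ b ++ v) * Ψ u (π (Y.sm b)) v) =
      Y.E n' fun u => Y.E (g + (M' + n)) fun B =>
        ρ (u ++ B) * Ψ u (π (Y.sm (B.take (M' + g)))) (B.drop (M' + g)) := by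
    refine Y.E_congr fun u _ => ?_
    rw [show g + (M' + n) = (M' + g) + n by ring, Y.E_add (M' + g) n]
    refine Y.E_congr fun b hb => Y.E_congr fun v _ => ?_
    rw [← hb, List.take_left, List.drop_left, List.append_assoc]
  have e2 : (Y.E (g + (M' + n)) fun B => ρ B * cL Y ρ n' (B.take g) (fun u =>
        Ψ u (π (Y.sm (B.take (M' + g)))) (B.drop (M' + g)))) =
      Y.E (M' + g) fun b => Y.E n fun v => ρ (b ++ v) *
        cL Y ρ n' (b.take g) (fun u => Ψ u (π (Y.sm b)) v) := by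
    rw [show g + (M' + n) = (M' + g) + n by ring, Y.E_add (M' + g) n]
    refine Y.E_congr fun b hb => Y.E_congr fun v _ => ?_
    rw [List.take_append_of_le_length (by omega : g ≤ b.length), ← hb, List.take_left,
      List.drop_left]
  have h1 := dev_left (Y := Y) h n' g (M' + n)
    (G := fun u B => Ψ u (π (Y.sm (B.take (M' + g)))) (B.drop (M' + g))) (fun u v => hΨ _ _ _)
  rw [← e1, e2] at h1
  have h2 := dev_right (Y := Y) h M' g n (G := fun b v =>
    cL Y ρ n' (b.take g) (fun u => Ψ u (π (Y.sm b)) v))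
    (fun b v => cL_abs_le h zero_le_one fun u => hΨ _ _ _)
  have h3 := hD n' (M' + n)
  have h4 := hD M' n
  exact (abs_sub_le _ _ _).trans (add_le_add (h1.trans h3) (h2.trans h4))

/-- step 3: the random length averages the last `g` letters -/
theorem near3_b (h : Bulk Y Λ ρ) (hπ : Stp Y π) {g m H : ℕ}
    (hg : g ≤ m) (hH : 0 < H) {L : ℝ} (hL : 0 < L) {Φ : List S → Zk k → List S → ℝ}
    (hΦ : ∀ u x v, |Φ u x v| ≤ 1) (hl : ∀ u v, Lip L fun x => Φ u x v) :
    |(H : ℝ)⁻¹ * ∑ j ∈ range H, (Y.E (m + j) fun b => ρ b * Φ (b.take g) (π (Y.sm b))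
        (b.drop (m + j - g))) -
      Y.E m fun b => ρ b * Y.E g fun γ => ρ γ * Φ (b.take g) (π (Y.sm b)) γ| ≤
      k * H / L + bet Y ρ g H := by
  have hH' : (0 : ℝ) < H := by exact_mod_cast hH
  have hk : (0 : ℝ) ≤ k := Nat.cast_nonneg k
  have e1 : ∀ j ∈ range H, (Y.E (m + j) fun b => ρ b * Φ (b.take g) (π (Y.sm b))
        (b.drop (m + j - g))) =
      Y.E (m + H) fun W => ρ W * Φ (W.take g) (π (Y.sm (W.take (m + j))))
        ((W.drop (m - g + j)).take g) := by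
    intro j hj
    rw [Finset.mem_range] at hj
    have e2 := h.win_left (m + j) (H - j) fun b => Φ (b.take g) (π (Y.sm b)) (b.drop (m + j - g))
    rw [← e2, show m + j + (H - j) = m + H by omega]
    refine Y.E_congr fun W _ => ?_
    rw [List.take_take, min_eq_left (by omega : g ≤ m + j), List.drop_take]
    congr 2
    rw [show m + j - (m + j - g) = g by omega, show m + j - g = m - g + j by omega]
  have e3 : (Y.E m fun b => ρ b * Y.E g fun γ => ρ γ * Φ (b.take g) (π (Y.sm b)) γ) =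
      Y.E (m + H) fun W => ρ W * Y.E g fun γ => ρ γ * Φ (W.take g) (π (Y.sm (W.take m))) γ := by
    rw [← h.win_left m H fun b => Y.E g fun γ => ρ γ * Φ (b.take g) (π (Y.sm b)) γ]
    refine Y.E_congr fun W _ => ?_
    rw [List.take_take, min_eq_left hg]
  rw [Finset.sum_congr rfl e1, ← Y.E_fsum, ← Y.E_mul_left, e3, ← Y.E_fsub]
  refine (Y.E_abs _ _).trans ?_
  have e9 : ∀ W : List S, W.length = m + H → |(H : ℝ)⁻¹ * ∑ j ∈ range H, ρ W *
        Φ (W.take g) (π (Y.sm (W.take (m + j)))) ((W.drop (m - g + j)).take g) -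
        ρ W * Y.E g fun γ => ρ γ * Φ (W.take g) (π (Y.sm (W.take m))) γ| ≤
      ρ W * (k * H / L) + ρ W * Y.E g fun γ => |(Y.z ^ g)⁻¹ * av γ H (W.drop (m - g)) - ρ γ| := by
    intro W hW
    rw [← Finset.mul_sum, ← mul_assoc, mul_comm ((H : ℝ)⁻¹) (ρ W), mul_assoc, ← mul_sub, abs_mul,
      abs_of_nonneg (h.nonneg W), ← mul_add]
    refine mul_le_mul_of_nonneg_left ?_ (h.nonneg W)
    have f1 : (H : ℝ)⁻¹ * ∑ j ∈ range H, Φ (W.take g) (π (Y.sm (W.take m)))
        ((W.drop (m - g + j)).take g) =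
        Y.E g fun γ => (Y.z ^ g)⁻¹ * av γ H (W.drop (m - g)) *
          Φ (W.take g) (π (Y.sm (W.take m))) γ := by
      have := sum_av Y g H (W.drop (m - g)) (by simp [hW]; omega) fun γ =>
        Φ (W.take g) (π (Y.sm (W.take m))) γ
      rw [← this]
      simp only [List.drop_drop]
    have f2 : |(H : ℝ)⁻¹ * ∑ j ∈ range H, Φ (W.take g) (π (Y.sm (W.take (m + j))))
          ((W.drop (m - g + j)).take g) -
        (H : ℝ)⁻¹ * ∑ j ∈ range H, Φ (W.take g) (π (Y.sm (W.take m)))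
          ((W.drop (m - g + j)).take g)| ≤ k * H / L := by
      rw [← mul_sub, ← Finset.sum_sub_distrib, abs_mul, abs_of_pos (inv_pos.2 hH'),
        inv_mul_le_iff₀ hH']
      refine (Finset.abs_sum_le_sum_abs _ _).trans ?_
      have := Finset.sum_le_card_nsmul (range H) (fun j =>
        |Φ (W.take g) (π (Y.sm (W.take (m + j)))) ((W.drop (m - g + j)).take g) -
          Φ (W.take g) (π (Y.sm (W.take m))) ((W.drop (m - g + j)).take g)|)
        (k * H / L) (fun j hj => by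
          rw [Finset.mem_range] at hj
          refine (hl _ _ _ _).trans ?_
          refine div_le_div_of_nonneg_right ?_ hL.le
          rw [← map_sub, List.take_add, Y.sm_append, add_sub_cancel_left]
          refine (n1r_sm_le hπ _).trans ?_
          have h6 : (((W.drop m).take j).length : ℝ) ≤ H := by
            have : ((W.drop m).take j).length ≤ j := by simp
            exact_mod_cast this.trans hj.le
          exact mul_le_mul_of_nonneg_left h6 hk)
      simpa using this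
    have f3 : |(Y.E g fun γ => (Y.z ^ g)⁻¹ * av γ H (W.drop (m - g)) *
          Φ (W.take g) (π (Y.sm (W.take m))) γ) -
        Y.E g fun γ => ρ γ * Φ (W.take g) (π (Y.sm (W.take m))) γ| ≤
        Y.E g fun γ => |(Y.z ^ g)⁻¹ * av γ H (W.drop (m - g)) - ρ γ| := by
      rw [← Y.E_fsub]
      refine (Y.E_abs _ _).trans (Y.E_mono fun γ _ => ?_)
      rw [← sub_mul, abs_mul]
      exact mul_le_of_le_one_right (abs_nonneg _) (hΦ _ _ _)
    rw [f1] at f2
    exact (abs_sub_le _ _ _).trans (add_le_add f2 f3)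
  refine (Y.E_mono e9).trans ?_
  rw [Y.E_fadd, Y.E_mul_right, h.mass, one_mul]
  have e10 := h.win_right (m - g) (H + g) fun w => Y.E g fun γ => |(Y.z ^ g)⁻¹ * av γ H w - ρ γ|
  rw [show m - g + (H + g) = m + H by omega] at e10
  rw [e10]
  exact le_rfl

/-- step 4: the first `g` letters decouple from the displacement -/
theorem near3_c (h : Bulk Y Λ ρ) (hπ : Stp Y π) {g m' : ℕ}
    {L ε : ℝ} (hL : 0 < L) {F : List S → Zk k → ℝ} (hl : ∀ u, Lip L (F u))
    (hn : |(Y.E g fun u => Y.E m' fun v => (ρ (u ++ v) - ρ u * ρ v) * F u (π (Y.sm v)))| ≤ ε) :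
    |(Y.E (g + m') fun b => ρ b * F (b.take g) (π (Y.sm b))) -
      Y.E g fun γ => ρ γ * Y.E (g + m') fun b => ρ b * F γ (π (Y.sm b))| ≤
      k * g / L + ε + k * g / L := by
  have hk : (0 : ℝ) ≤ k := Nat.cast_nonneg k
  have hg : ∀ (u v : List S), u.length = g → ∀ γ : List S,
      |F γ (π (Y.sm (u ++ v))) - F γ (π (Y.sm v))| ≤ k * g / L := by
    intro u v hu γ
    refine (hl _ _ _).trans ?_
    refine div_le_div_of_nonneg_right ?_ hL.le
    rw [← map_sub, Y.sm_append, add_sub_cancel_right]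
    refine (n1r_sm_le hπ _).trans ?_
    rw [hu]
  have a1 : |(Y.E (g + m') fun b => ρ b * F (b.take g) (π (Y.sm b))) -
      Y.E g fun u => Y.E m' fun v => ρ (u ++ v) * F u (π (Y.sm v))| ≤ k * g / L := by
    rw [Y.E_add, ← Y.E_fsub]
    refine (Y.E_abs _ _).trans ?_
    calc (Y.E g fun u => |(Y.E m' fun v => ρ (u ++ v) * F ((u ++ v).take g) (π (Y.sm (u ++ v)))) -
          Y.E m' fun v => ρ (u ++ v) * F u (π (Y.sm v))|)
        ≤ Y.E g fun u => Y.E m' fun v => ρ (u ++ v) * (k * g / L) := by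
          refine Y.E_mono fun u hu => ?_
          rw [← Y.E_fsub]
          refine (Y.E_abs _ _).trans (Y.E_mono fun v _ => ?_)
          have h2 : (u ++ v).take g = u := by rw [← hu, List.take_left]
          rw [h2, ← mul_sub, abs_mul, abs_of_nonneg (h.nonneg _)]
          exact mul_le_mul_of_nonneg_left (hg u v hu u) (h.nonneg _)
      _ = k * g / L := by
          simp only [Y.E_mul_right, h.right, h.mass, one_mul]
  have a2 : |(Y.E g fun u => Y.E m' fun v => ρ (u ++ v) * F u (π (Y.sm v))) -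
      Y.E g fun u => ρ u * Y.E m' fun v => ρ v * F u (π (Y.sm v))| ≤ ε := by
    have : (Y.E g fun u => Y.E m' fun v => (ρ (u ++ v) - ρ u * ρ v) * F u (π (Y.sm v))) =
        (Y.E g fun u => Y.E m' fun v => ρ (u ++ v) * F u (π (Y.sm v))) -
          Y.E g fun u => ρ u * Y.E m' fun v => ρ v * F u (π (Y.sm v)) := by
      rw [← Y.E_fsub]
      refine Y.E_congr fun u _ => ?_
      rw [← Y.E_mul_left, ← Y.E_fsub]
      exact Y.E_congr fun v _ => by ring
    rwa [this] at hn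
  have a3 : |(Y.E g fun u => ρ u * Y.E m' fun v => ρ v * F u (π (Y.sm v))) -
      Y.E g fun γ => ρ γ * Y.E (g + m') fun b => ρ b * F γ (π (Y.sm b))| ≤ k * g / L := by
    rw [← Y.E_fsub]
    refine (Y.E_abs _ _).trans ?_
    calc (Y.E g fun γ => |ρ γ * (Y.E m' fun v => ρ v * F γ (π (Y.sm v))) -
          ρ γ * Y.E (g + m') fun b => ρ b * F γ (π (Y.sm b))|)
        ≤ Y.E g fun γ => ρ γ * (k * g / L) := by
          refine Y.E_mono fun γ _ => ?_
          rw [← mul_sub, abs_mul, abs_of_nonneg (h.nonneg _)]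
          refine mul_le_mul_of_nonneg_left ?_ (h.nonneg _)
          rw [← h.win_right g m' fun v => F γ (π (Y.sm v)), ← Y.E_fsub]
          refine (Y.E_abs _ _).trans ?_
          calc (Y.E (g + m') fun b => |ρ b * F γ (π (Y.sm (b.drop g))) - ρ b * F γ (π (Y.sm b))|)
              ≤ Y.E (g + m') fun b => ρ b * (k * g / L) := by
                refine Y.E_mono fun b hb => ?_
                rw [← mul_sub, abs_mul, abs_of_nonneg (h.nonneg _)]
                refine mul_le_mul_of_nonneg_left ?_ (h.nonneg _)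
                have h3 := hg (b.take g) (b.drop g) (by simp [hb]) γ
                rw [List.take_append_drop] at h3
                rwa [abs_sub_comm] at h3
            _ = k * g / L := by rw [Y.E_mul_right, h.mass, one_mul]
      _ = k * g / L := by rw [Y.E_mul_right, h.mass, one_mul]
  calc |(Y.E (g + m') fun b => ρ b * F (b.take g) (π (Y.sm b))) -
      Y.E g fun γ => ρ γ * Y.E (g + m') fun b => ρ b * F γ (π (Y.sm b))|
      ≤ k * g / L + (ε + k * g / L) :=
        (abs_sub_le _ _ _).trans (add_le_add a1 ((abs_sub_le _ _ _).trans (add_le_add a2 a3)))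
    _ = _ := by ring

/-- NTHR. Three words, the middle one with a random length. -/
theorem near3 (h : Erg Y Λ K ρ) (hπ : Stp Y π) {ε : ℝ} (hε : 0 < ε) :
    ∃ H : ℕ, 0 < H ∧ ∃ (m₀ : ℕ) (L₀ : ℝ), 0 < L₀ ∧ ∀ L ≥ L₀, ∀ m ≥ m₀, ∀ (n' n : ℕ)
      (Ψ : List S → Zk k → List S → ℝ), (∀ u x v, |Ψ u x v| ≤ 1) →
      (∀ u v, Lip L fun x => Ψ u x v) →
      |(H : ℝ)⁻¹ * (∑ j ∈ range H, Y.E n' fun u => Y.E (m + j) fun b => Y.E n fun v =>
          ρ (u ++ b ++ v) * Ψ u (π (Y.sm b)) v) -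
        Y.E n' fun u => Y.E m fun b => Y.E n fun v =>
          ρ u * ρ b * ρ v * Ψ u (π (Y.sm b)) v| ≤ ε := by
  have hE := h
  replace h := hE.bulk
  set ε₁ : ℝ := ε / 7 with hε₁
  have hε₁0 : 0 < ε₁ := by positivity
  obtain ⟨g, hg⟩ := near_indep h hE.a_ge hE.a_le hε₁0
  have hdev : ∀ m n, dev Y ρ m g n ≤ ε₁ := fun m n => hg g le_rfl m n
  obtain ⟨H, hH0, hHb⟩ : ∃ H : ℕ, 0 < H ∧ bet Y ρ g H ≤ ε₁ := by
    obtain ⟨H₀, hH₀⟩ := bet_small hE g hε₁0
    exact ⟨H₀ + 1, by omega, hH₀ _ (by omega)⟩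
  obtain ⟨L₁, hL₁, hn⟩ := near2' (π := π) hE hπ hε₁0
  have hk : (0 : ℝ) ≤ k := Nat.cast_nonneg k
  refine ⟨H, hH0, g, L₁ + k * H / ε₁ + k * g / ε₁, by positivity, ?_⟩
  intro L hL m hm n' n Ψ hΨ hl
  have hH' : (0 : ℝ) < H := by exact_mod_cast hH0
  have hq1 : 0 ≤ k * H / ε₁ := by positivity
  have hq2 : 0 ≤ k * g / ε₁ := by positivity
  have hL0 : 0 < L := by linarith
  have hLH : k * H / L ≤ ε₁ := by
    rw [div_le_iff₀ hL0]
    have : k * H / ε₁ ≤ L := by linarith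
    rw [div_le_iff₀ hε₁0] at this
    linarith
  have hLg : k * g / L ≤ ε₁ := by
    rw [div_le_iff₀ hL0]
    have : k * g / ε₁ ≤ L := by linarith
    rw [div_le_iff₀ hε₁0] at this
    linarith
  set Ψ1 : List S → Zk k → List S → ℝ := fun γ x v => cL Y ρ n' γ fun u => Ψ u x v
    with hΨ1
  have hΨ1b : ∀ γ x v, |Ψ1 γ x v| ≤ 1 := fun γ x v => cL_abs_le h zero_le_one fun u => hΨ _ _ _
  have hΨ1l : ∀ γ v, Lip L fun x => Ψ1 γ x v := by
    intro γ v x y
    rw [hΨ1]
    simp only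
    rw [cL_sub]
    exact cL_abs_le h (div_nonneg (Nat.cast_nonneg _) hL0.le) fun u => hl u v x y
  set Φ : List S → Zk k → List S → ℝ := fun γ x γ' => cR Y ρ n γ' fun v => Ψ1 γ x v
    with hΦ
  have hΦb : ∀ γ x v, |Φ γ x v| ≤ 1 := fun γ x v => cR_abs_le h zero_le_one fun u => hΨ1b _ _ _
  have hΦl : ∀ γ v, Lip L fun x => Φ γ x v := by
    intro γ v x y
    rw [hΦ]
    simp only
    rw [cR_sub]
    exact cR_abs_le h (div_nonneg (Nat.cast_nonneg _) hL0.le) fun u => hΨ1l γ u x y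
  set F : List S → Zk k → ℝ := fun γ x => Y.E n fun v => ρ v * Ψ1 γ x v with hF
  have hmass : ∀ (c : ℝ) (f : List S → ℝ), (∀ v, |f v| ≤ c) → |Y.E n fun v => ρ v * f v| ≤ c := by
    intro c f hf
    refine (Y.E_abs _ _).trans ?_
    calc (Y.E n fun v => |ρ v * f v|) ≤ Y.E n fun v => ρ v * c := by
          refine Y.E_mono fun v _ => ?_
          rw [abs_mul, abs_of_nonneg (h.nonneg v)]
          exact mul_le_mul_of_nonneg_left (hf v) (h.nonneg v)
      _ = c := by rw [Y.E_mul_right, h.mass, one_mul]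
  have hFb : ∀ γ x, |F γ x| ≤ 1 := fun γ x => hmass 1 _ fun v => hΨ1b γ x v
  have hFl : ∀ γ, Lip L (F γ) := by
    intro γ x y
    rw [hF]
    simp only
    rw [← Y.E_fsub]
    have : (Y.E n fun w => ρ w * Ψ1 γ x w - ρ w * Ψ1 γ y w) =
        Y.E n fun v => ρ v * (Ψ1 γ x v - Ψ1 γ y v) := Y.E_congr fun v _ => by ring
    rw [this]
    exact hmass _ _ fun v => hΨ1l γ v x y
  -- steps 1 and 2
  have s1 : |(H : ℝ)⁻¹ * ∑ j ∈ range H, (Y.E n' fun u => Y.E (m + j) fun b => Y.E n fun v =>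
          ρ (u ++ b ++ v) * Ψ u (π (Y.sm b)) v) -
      (H : ℝ)⁻¹ * ∑ j ∈ range H, (Y.E (m + j) fun b => ρ b * Φ (b.take g) (π (Y.sm b))
        (b.drop (m + j - g)))| ≤ ε₁ + ε₁ := by
    rw [← mul_sub, ← Finset.sum_sub_distrib, abs_mul, abs_of_pos (inv_pos.2 hH'),
      inv_mul_le_iff₀ hH']
    refine (Finset.abs_sum_le_sum_abs _ _).trans ?_
    have := Finset.sum_le_card_nsmul (range H) (fun j =>
      |(Y.E n' fun u => Y.E (m + j) fun b => Y.E n fun v =>
          ρ (u ++ b ++ v) * Ψ u (π (Y.sm b)) v) -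
        (Y.E (m + j) fun b => ρ b * Φ (b.take g) (π (Y.sm b)) (b.drop (m + j - g)))|)
      (ε₁ + ε₁) (fun j _ => near3_a h (by omega : g ≤ m + j) n' n hdev hΨ)
    rwa [Finset.card_range, nsmul_eq_mul] at this
  have s2 := near3_b h hπ hm hH0 hL0 hΦb hΦl
  have s3 : (Y.E m fun b => ρ b * Y.E g fun γ => ρ γ * Φ (b.take g) (π (Y.sm b)) γ) =
      Y.E m fun b => ρ b * F (b.take g) (π (Y.sm b)) := by
    refine Y.E_congr fun b _ => ?_
    congr 1
    rw [hΦ, hF]
    simp only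
    have : (Y.E g fun γ => ρ γ * cR Y ρ n γ fun v => Ψ1 (b.take g) (π (Y.sm b)) v) =
        Y.E g fun γ => Y.E n fun v => ρ (γ ++ v) * Ψ1 (b.take g) (π (Y.sm b)) v :=
      Y.E_congr fun γ _ => mul_cR h _ _ _
    rw [this, Y.E_comm]
    refine Y.E_congr fun v _ => ?_
    rw [Y.E_mul_right, h.left]
  have s4 : |(Y.E m fun b => ρ b * F (b.take g) (π (Y.sm b))) -
      Y.E g fun γ => ρ γ * Y.E m fun b => ρ b * F γ (π (Y.sm b))| ≤ ε₁ + ε₁ + ε₁ := by
    obtain ⟨m', rfl⟩ : ∃ m', m = g + m' := ⟨m - g, by omega⟩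
    have := near3_c h hπ hL0 hFl (hn L (by linarith) g m' F hFb hFl)
    linarith
  have s5 : (Y.E g fun γ => ρ γ * Y.E m fun b => ρ b * F γ (π (Y.sm b))) =
      Y.E n' fun u => Y.E m fun b => Y.E n fun v =>
          ρ u * ρ b * ρ v * Ψ u (π (Y.sm b)) v := by
    have t1 : (Y.E g fun γ => ρ γ * Y.E m fun b => ρ b * F γ (π (Y.sm b))) =
        Y.E m fun b => ρ b * Y.E n fun v => ρ v * Y.E g fun γ =>
          ρ γ * Ψ1 γ (π (Y.sm b)) v := by
      have t2 : ∀ γ, ρ γ * (Y.E m fun b => ρ b * F γ (π (Y.sm b))) =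
          Y.E m fun b => Y.E n fun v => ρ b * (ρ v * (ρ γ * Ψ1 γ (π (Y.sm b)) v)) := by
        intro γ
        rw [← Y.E_mul_left]
        refine Y.E_congr fun b _ => ?_
        rw [hF]
        simp only
        rw [← Y.E_mul_left, ← Y.E_mul_left]
        exact Y.E_congr fun v _ => by ring
      simp only [t2]
      rw [Y.E_comm]
      refine Y.E_congr fun b _ => ?_
      rw [Y.E_comm, ← Y.E_mul_left]
      refine Y.E_congr fun v _ => ?_
      rw [← Y.E_mul_left, ← Y.E_mul_left]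
    have t3 : ∀ (x : Fin k → ℤ) (v : List S), (Y.E g fun γ => ρ γ * Ψ1 γ x v) =
        Y.E n' fun u => ρ u * Ψ u x v := by
      intro x v
      rw [hΨ1]
      simp only
      have : (Y.E g fun γ => ρ γ * cL Y ρ n' γ fun u => Ψ u x v) =
          Y.E g fun γ => Y.E n' fun u => ρ (u ++ γ) * Ψ u x v :=
        Y.E_congr fun γ _ => mul_cL h _ _ _
      rw [this, Y.E_comm]
      refine Y.E_congr fun u _ => ?_
      rw [Y.E_mul_right, h.right]
    rw [t1]
    simp only [t3]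
    rw [Y.E_comm n' m]
    refine Y.E_congr fun b _ => ?_
    rw [Y.E_comm n' n, ← Y.E_mul_left]
    refine Y.E_congr fun v _ => ?_
    rw [← Y.E_mul_left, ← Y.E_mul_left]
    exact Y.E_congr fun u _ => by ring
  rw [s3] at s2
  rw [s5] at s4
  have t1 := (abs_sub_le _ _ _).trans (add_le_add s1 ((abs_sub_le _ _ _).trans
    (add_le_add s2 s4)))
  refine t1.trans ?_
  have : ε = 7 * ε₁ := by rw [hε₁]; ring
  linarith

end Pool.Agent.SawM2
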