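import Pool.Agent.SawM2.End7
import Pool.Agent.SawM2.GRv
import Pool.Agent.SawM2.NThr
import Pool.Agent.SawM2.ErgR

/-!
# The last section: the measures on the lattice
-/

set_option autoImplicit false

namespace Pool.Agent.SawM2

open Finset Filter Topology Pool.Agent.Bub4 Pool.Agent.SawDiff Pool.Agent.SawNice

section pairing
variable {S V : Type} [Fintype S] [AddCommGroup V] {k : ℕ}
variable {Y : Sys S V} {π : V →+ Zk k} {Λ K κ a : ℝ} {ρ : List S → ℝ}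

theorem pr_GU (M : ℕ) (f : Zk k → ℝ) :
    (GU Y π ρ κ M).pr f = GS Y M fun x => gw Y ρ κ x * f (π (Y.sm x)) := by
  unfold GU GS gw
  rw [Fm.pr_bs]
  exact Finset.sum_congr rfl fun n _ => pr_lw _ _ _ _ _

theorem pr_PU (n M : ℕ) (f : Zk k → ℝ) : (PU Y π ρ κ n M).pr f = ∑ s ∈ Ico (4 * n) M,
    Y.E s fun y => UU Y ρ y * ind (good Y ρ κ y ∧ Rg Y ρ κ n y) * f (π (Y.sm y)) := by
  unfold PU
  rw [Fm.pr_bs]
  exact Finset.sum_congr rfl fun n _ => pr_lw _ _ _ _ _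

theorem pr_PR (n M : ℕ) (f : Zk k → ℝ) : (PR Y π ρ κ n M).pr f = ∑ s ∈ Ico (4 * n) M,
    Y.E s fun y => ρ y * ind (good Y ρ κ y ∧ Rg Y ρ κ n y) * f (π (Y.sm y)) := by
  unfold PR
  rw [Fm.pr_bs]
  exact Finset.sum_congr rfl fun n _ => pr_lw _ _ _ _ _

theorem S2_eq (M : ℕ) (b : ℝ) (z : Zk k) :
    (GS Y M fun x => GS Y M fun y => gw Y (rv ρ) κ x * gw Y ρ κ y *
      ker b (π (Y.sm x) + z + π (Y.sm y))) =
    Fm.sm b (Fm.conv (GU Y π (rv ρ) κ M) (GU Y π ρ κ M)) (-z) := by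
  unfold Fm.sm
  rw [Fm.pr_conv, pr_GU]
  refine GS_congr Y fun x => ?_
  rw [pr_GU, ← GS_mul_left]
  refine GS_congr Y fun y => ?_
  have e : -z - (π (Y.sm x) + π (Y.sm y)) = -(π (Y.sm x) + z + π (Y.sm y)) := by abel
  rw [e, ker_neg]
  ring

theorem S2'_eq (M : ℕ) (b : ℝ) :
    (GS Y M fun x => GS Y M fun y => gw Y (rv ρ) κ x * gw Y ρ κ y *
      ker b (π (Y.sm x) - π (Y.sm y))) = Fm.en b (GU Y π (rv ρ) κ M) (GU Y π ρ κ M) := by
  unfold Fm.en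
  rw [pr_GU]
  refine GS_congr Y fun x => ?_
  rw [pr_GU, ← GS_mul_left]
  refine GS_congr Y fun y => ?_
  ring

theorem S1_eq (n M : ℕ) (a : ℝ) (z : Zk k) :
    (∑ s ∈ Ico (4 * n) M, Y.E s fun y => UU Y ρ y * ind (good Y ρ κ y ∧ Rg Y ρ κ n y) *
      ker a (z + π (Y.sm y))) = Fm.sm a (PU Y π ρ κ n M) (-z) := by
  unfold Fm.sm
  rw [pr_PU]
  refine Finset.sum_congr rfl fun s _ => Y.E_congr fun y _ => ?_
  have e : -z - π (Y.sm y) = -(z + π (Y.sm y)) := by abel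
  rw [e, ker_neg]

theorem E_take_bulk (h : Bulk Y Λ ρ) {t n : ℕ} (htn : t ≤ n) (G : List S → ℝ) :
    (Y.E n fun p => ρ p * G (p.take t)) = Y.E t fun x => ρ x * G x := by
  obtain ⟨r, rfl⟩ := Nat.exists_eq_add_of_le htn
  rw [Y.E_add]
  refine Y.E_congr fun x hx => ?_
  have e : ∀ w : List S, (x ++ w).take t = x := by
    intro w
    rw [← hx, List.take_left]
  simp only [e]
  rw [Y.E_mul_right]
  congr 1
  exact h.right x r

theorem S3_eq (h : Bulk Y Λ ρ) (hr : Bulk Y Λ (rv ρ)) (n₀ M m n : ℕ) (hn : M ≤ n + 1) (a : ℝ) :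
    EP Y π ρ n m (HH Y π (Ico (4 * n₀) M) (fun x => good Y (rv ρ) κ x ∧ Rg Y (rv ρ) κ n₀ x)
      (fun x => good Y ρ κ x ∧ Rg Y ρ κ n₀ x) a) =
    Fm.sm a (Fm.conv (PR Y π (rv ρ) κ n₀ M) (Fm.conv (lw Y π ρ m) (PR Y π ρ κ n₀ M))) 0 := by
  set Qm : List S → Prop := fun x => good Y (rv ρ) κ x ∧ Rg Y (rv ρ) κ n₀ x with hQm
  set Qp : List S → Prop := fun x => good Y ρ κ x ∧ Rg Y ρ κ n₀ x with hQp
  have hJ : ∀ t ∈ Ico (4 * n₀) M, t ≤ n := fun t ht => by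
    have := (Finset.mem_Ico.1 ht).2
    omega
  -- the right-hand side
  have e1 : Fm.sm a (Fm.conv (PR Y π (rv ρ) κ n₀ M) (Fm.conv (lw Y π ρ m)
      (PR Y π ρ κ n₀ M))) 0 = ∑ t ∈ Ico (4 * n₀) M, Y.E t fun x => rv ρ x * ind (Qm x) *
        Y.E m fun b => ρ b * ∑ s ∈ Ico (4 * n₀) M, Y.E s fun y => ρ y * ind (Qp y) *
          ker a (π (Y.sm x) + π (Y.sm b) + π (Y.sm y)) := by
    unfold Fm.sm
    rw [Fm.pr_conv, pr_PR]
    refine Finset.sum_congr rfl fun t _ => Y.E_congr fun x _ => ?_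
    rw [Fm.pr_conv, pr_lw]
    refine congrArg _ (Y.E_congr fun b _ => ?_)
    rw [pr_PR]
    refine congrArg _ (Finset.sum_congr rfl fun s _ => Y.E_congr fun y _ => ?_)
    have e : 0 - (π (Y.sm x) + (π (Y.sm b) + π (Y.sm y))) =
        -(π (Y.sm x) + π (Y.sm b) + π (Y.sm y)) := by abel
    rw [e, ker_neg]
  rw [e1]
  -- the left-hand side
  have e2 : ∀ t ∈ Ico (4 * n₀) M, (Y.E t fun x => rv ρ x * ind (Qm x) *
        Y.E m fun b => ρ b * ∑ s ∈ Ico (4 * n₀) M, Y.E s fun y => ρ y * ind (Qp y) *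
          ker a (π (Y.sm x) + π (Y.sm b) + π (Y.sm y))) =
      Y.E n fun p => rv ρ p * (ind (Qm (p.take t)) *
        Y.E m fun b => ρ b * ∑ s ∈ Ico (4 * n₀) M, Y.E s fun y => ρ y * ind (Qp y) *
          ker a (π (Y.sm (p.take t)) + π (Y.sm b) + π (Y.sm y))) := by
    intro t ht
    rw [E_take_bulk hr (hJ t ht) (fun x => ind (Qm x) *
        Y.E m fun b => ρ b * ∑ s ∈ Ico (4 * n₀) M, Y.E s fun y => ρ y * ind (Qp y) *
          ker a (π (Y.sm x) + π (Y.sm b) + π (Y.sm y)))]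
    exact Y.E_congr fun x _ => by ring
  rw [Finset.sum_congr rfl e2, ← Y.E_fsum]
  unfold EP
  refine Y.E_congr fun p _ => ?_
  rw [← Finset.mul_sum]
  have e3 : ∀ (x b : List S), (∑ s ∈ Ico (4 * n₀) M, Y.E s fun y => ρ y * ind (Qp y) *
          ker a (π (Y.sm x) + π (Y.sm b) + π (Y.sm y))) =
      Y.E n fun v => ρ v * ∑ s ∈ Ico (4 * n₀) M, ind (Qp (v.take s)) *
        ker a (π (Y.sm x) + π (Y.sm b) + π (Y.sm (v.take s))) := by
    intro x b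
    simp only [Finset.mul_sum, Y.E_fsum]
    refine Finset.sum_congr rfl fun s hs => ?_
    rw [E_take_bulk h (hJ s hs) (fun y => ind (Qp y) *
      ker a (π (Y.sm x) + π (Y.sm b) + π (Y.sm y)))]
    exact Y.E_congr fun y _ => by ring
  simp only [e3]
  have e4 : ∀ t ∈ Ico (4 * n₀) M, ind (Qm (p.take t)) * (Y.E m fun b => ρ b * Y.E n fun v =>
      ρ v * ∑ s ∈ Ico (4 * n₀) M, ind (Qp (v.take s)) *
        ker a (π (Y.sm (p.take t)) + π (Y.sm b) + π (Y.sm (v.take s)))) =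
      Y.E m fun b => Y.E n fun v => ρ b * ρ v * ∑ s ∈ Ico (4 * n₀) M, ind (Qm (p.take t)) *
        ind (Qp (v.take s)) *
        ker a (π (Y.sm (p.take t)) + π (Y.sm b) + π (Y.sm (v.take s))) := by
    intro t _
    rw [← Y.E_mul_left]
    refine Y.E_congr fun b _ => ?_
    rw [← Y.E_mul_left, ← Y.E_mul_left]
    refine Y.E_congr fun v _ => ?_
    simp only [Finset.mul_sum]
    exact Finset.sum_congr rfl fun s _ => by ring
  rw [Finset.sum_congr rfl e4, ← Y.E_fsum, ← Y.E_mul_left]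
  refine Y.E_congr fun b _ => ?_
  rw [← Y.E_fsum, ← Y.E_mul_left]
  refine Y.E_congr fun v _ => ?_
  unfold HH
  simp only [Finset.mul_sum]
  exact Finset.sum_congr rfl fun t _ => Finset.sum_congr rfl fun s _ => by ring

end pairing

section bilinear
variable {k : ℕ} {a : ℝ}

theorem sm_conv_sub_right (μ ν σ : Fm k) (z : Zk k) :
    Fm.sm a (Fm.conv μ (Fm.sub ν σ)) z = Fm.sm a (Fm.conv μ ν) z - Fm.sm a (Fm.conv μ σ) z := by
  unfold Fm.sm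
  rw [Fm.pr_conv, Fm.pr_conv, Fm.pr_conv, ← Fm.pr_fsub]
  exact Fm.pr_congr _ fun x => Fm.pr_sub _ _ _

theorem sm_conv_sub_left (μ ν σ : Fm k) (z : Zk k) :
    Fm.sm a (Fm.conv (Fm.sub μ ν) σ) z = Fm.sm a (Fm.conv μ σ) z - Fm.sm a (Fm.conv ν σ) z := by
  unfold Fm.sm
  rw [Fm.pr_conv, Fm.pr_sub, Fm.pr_conv, Fm.pr_conv]

theorem sm_conv_smul_left (r : ℝ) (μ σ : Fm k) (z : Zk k) :
    Fm.sm a (Fm.conv (Fm.smul r μ) σ) z = r * Fm.sm a (Fm.conv μ σ) z := by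
  unfold Fm.sm
  rw [Fm.pr_conv, Fm.pr_smul, Fm.pr_conv]

/-- arithmetic of `lower_prod` -/
theorem lower_arith {b b' E c₂ s t u v w : ℝ} (hb : 0 ≤ b) (hb8 : b ≤ 1 / 8)
    (hb8' : b' ≤ 1 / 8) (hc : 0 ≤ c₂ * E) (ht : 0 ≤ t)
    (hst : s + t ≤ c₂ * E / 4) (h1 : c₂ * E ≤ u) (k1 : u - v ≤ s)
    (k2 : (1 - b)⁻¹ * v - (1 - b')⁻¹ * w ≤ t) : c₂ * E / 2 ≤ w := by
  have hb3 : 0 < 1 - b' := by linarith
  have hb1 : (1 : ℝ) ≤ (1 - b)⁻¹ := by
    rw [one_le_inv₀ (by linarith)]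
    linarith
  have hv : 3 / 4 * (c₂ * E) ≤ v - t := by linarith
  have hv0 : 0 ≤ v := by linarith
  have k3 : v ≤ (1 - b)⁻¹ * v := by
    have := mul_le_mul_of_nonneg_right hb1 hv0
    rwa [one_mul] at this
  have k4 : v - t ≤ w / (1 - b') := by
    rw [inv_mul_eq_div (1 - b') w] at k2
    linarith
  rw [le_div_iff₀ hb3] at k4
  have k5 : 7 / 8 * (v - t) ≤ (v - t) * (1 - b') := by
    have h6 : 7 / 8 ≤ 1 - b' := by linarith
    have h7 : 0 ≤ v - t := by linarith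
    calc 7 / 8 * (v - t) ≤ (1 - b') * (v - t) := mul_le_mul_of_nonneg_right h6 h7
      _ = (v - t) * (1 - b') := mul_comm _ _
  linarith

/-- lower bound for the mean number of near-misses under the product law -/
theorem lower_prod (ha0 : 0 < a) (ha1 : a < 1) {P P' p : Fm k} (hp : p.Nn) (hp1 : p.mass = 1)
    {b b' : ℝ} (hb : 0 ≤ b) (hb8 : b ≤ 1 / 8) (hb8' : b' ≤ 1 / 8)
    {E c₂ A x y : ℝ} (hE : 0 ≤ E) (hc : 0 ≤ c₂) (hA : 0 ≤ A) (hx : 0 ≤ x) (hy : 0 ≤ y)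
    (h1 : c₂ * E ≤ Fm.sm a (Fm.conv P P) 0)
    (h2 : Fm.nr a P ≤ A * Real.sqrt E)
    (h3 : Fm.nr a (Fm.sub P (Fm.conv p P)) ≤ x * Real.sqrt E)
    (h4 : Fm.nr a (Fm.sub (Fm.smul (1 - b)⁻¹ P) (Fm.smul (1 - b')⁻¹ P')) ≤ y * Real.sqrt E)
    (hxy : A * (x + y) ≤ c₂ / 4) :
    c₂ / 2 * E ≤ Fm.sm a (Fm.conv P' (Fm.conv p P)) 0 := by
  have hsE : Real.sqrt E * Real.sqrt E = E := Real.mul_self_sqrt hE
  have hs0 : 0 ≤ Real.sqrt E := Real.sqrt_nonneg E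
  have n1 : 0 ≤ Fm.nr a P := Real.sqrt_nonneg _
  have n2 : Fm.nr a (Fm.conv p P) ≤ A * Real.sqrt E := by
    refine (Fm.nr_conv_le ha0 ha1 hp P).trans ?_
    rw [hp1, one_mul]
    exact h2
  have n3 : 0 ≤ Fm.nr a (Fm.sub P (Fm.conv p P)) := Real.sqrt_nonneg _
  have n5 : 0 ≤ Fm.nr a (Fm.conv p P) := Real.sqrt_nonneg _
  have hAs : 0 ≤ A * Real.sqrt E := mul_nonneg hA hs0
  have hys : 0 ≤ y * Real.sqrt E := mul_nonneg hy hs0
  -- first replacement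
  have g1 := Fm.sm_conv_le ha0 ha1 P (Fm.sub P (Fm.conv p P)) 0
  rw [sm_conv_sub_right] at g1
  have g2 : Fm.nr a P * Fm.nr a (Fm.sub P (Fm.conv p P)) ≤ A * x * E := by
    refine (mul_le_mul h2 h3 n3 hAs).trans (le_of_eq ?_)
    have e : A * Real.sqrt E * (x * Real.sqrt E) = A * x * (Real.sqrt E * Real.sqrt E) := by ring
    rw [e, hsE]
  -- second replacement
  have g3 := Fm.sm_conv_le ha0 ha1
    (Fm.sub (Fm.smul (1 - b)⁻¹ P) (Fm.smul (1 - b')⁻¹ P')) (Fm.conv p P) 0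
  rw [sm_conv_sub_left, sm_conv_smul_left, sm_conv_smul_left] at g3
  have g4 : Fm.nr a (Fm.sub (Fm.smul (1 - b)⁻¹ P) (Fm.smul (1 - b')⁻¹ P')) *
      Fm.nr a (Fm.conv p P) ≤ A * y * E := by
    refine (mul_le_mul h4 n2 n5 hys).trans (le_of_eq ?_)
    have e : y * Real.sqrt E * (A * Real.sqrt E) = A * y * (Real.sqrt E * Real.sqrt E) := by ring
    rw [e, hsE]
  have hst : A * x * E + A * y * E ≤ c₂ * E / 4 := by
    have := mul_le_mul_of_nonneg_right hxy hE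
    linarith
  have fin := lower_arith hb hb8 hb8' (mul_nonneg hc hE) (mul_nonneg (mul_nonneg hA hy) hE) hst h1
    ((le_abs_self _).trans (g1.trans g2)) ((le_abs_self _).trans (g3.trans g4))
  linarith

end bilinear

section final
variable {S : Type} [Fintype S] {d k : ℕ} {Y : Sys S (Zk d)} {π : Zk d →+ Zk k}
  {Λ K κ : ℝ} {ρ : List S → ℝ}

/-- SECTION 8. The number of near-misses of two independent arms is not of the order of the energy,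
once the energy is large. -/
theorem no_pos (h : Erg Y Λ K ρ) (hπ : Stp Y π) (hstep : ∀ s i, |Y.vec s i| ≤ 1)
    (ht : ∀ i : Fin d, ∃ c : Rk k, ∀ ε : ℝ, 0 < ε → ∃ B : ℝ, ∀ n, (Y.E n fun w => ρ w *
      ind (B < |(Y.sm w i : ℝ) - ∑ j, c j * (π (Y.sm w) j : ℝ)|)) ≤ ε)
    (hN : ∀ r : ℕ, ∃ D : Finset (Zk d), (∀ x : Zk d, (∀ i, |x i| ≤ r) → x ∈ D) ∧
      ∀ M : ℕ, ∃ C : ℝ, 0 ≤ C ∧ open Classical in ∀ n n', (Y.E n fun u => Y.E n' fun v =>
        Y.sv (u ++ v) * (((range (n' + 1)).filter fun t => Nice Y D M u v t).card : ℝ)) ≤ C)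
    (hκ : 0 < κ) (hκK : κ * K ≤ 1 / 8) {D : ℕ} (hD : 4 ≤ D) {T : ℕ} (hT : 1 ≤ T) {c₂ : ℝ}
    (hc₂ : 0 < c₂) :
    ∃ a₀ : ℝ, a₀ < 1 ∧ ∀ a : ℝ, a₀ ≤ a → 0 < a → a < 1 → ∃ (N₁ : ℕ) (E₀ : ℝ), ∀ N ≥ N₁,
      E₀ ≤ EE Y π ρ κ a N →
      Fm.sm a (Fm.conv (PR Y π ρ κ (N / D) (T * N)) (PR Y π ρ κ (N / D) (T * N))) 0 <
        c₂ * EE Y π ρ κ a N := by
  have hb : Bulk Y Λ ρ := h.bulk
  have hrE : Erg Y Λ K (rv ρ) := h.rv
  have hr : Bulk Y Λ (rv ρ) := hrE.bulk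
  have hK := h.a_le
  have hK1 : 1 ≤ K := (h.a_ge 0).trans (h.a_le 0)
  have hΛ := hb.pos
  set q : ℝ := 1 + Λ * K / κ with hq
  have hq1 : 1 ≤ q := by
    rw [hq]
    have : 0 ≤ Λ * K / κ := by positivity
    linarith
  have hq0 : 0 < q := by linarith
  -- near invariance
  obtain ⟨C, hC, hinv⟩ := near_inv h hπ hκ hκK hD T
  set A : ℝ := q ^ T with hA
  have hA0 : 0 < A := pow_pos hq0 T
  set x : ℝ := c₂ / (8 * A) with hx
  have hx0 : 0 < x := by positivity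
  have hAx : A * (x + x) = c₂ / 4 := by
    rw [hx]
    field_simp
    ring
  obtain ⟨a₁, ha₁, N₁, hinv'⟩ := hinv (x ^ 2 / (2 * C)) (by positivity)
  obtain ⟨a₂, ha₂, N₂, hrv⟩ := near_rv h hπ hκ hκK hD T (ε := x ^ 2) (by positivity)
  obtain ⟨Q, hQ⟩ := exists_nat_gt (2 * C / x ^ 2)
  have hQ0 : 0 < (Q : ℝ) := lt_trans (by positivity) hQ
  have hQ1 : 1 ≤ Q := by exact_mod_cast hQ0
  -- constants
  set c₃ : ℝ := c₂ / 2 with hc₃
  have hc₃0 : 0 < c₃ := by positivity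
  set C₁ : ℝ := 4 ^ k * q ^ (2 * T) with hC₁
  have hC₁0 : 0 < C₁ := by positivity
  have hD0 : (0 : ℝ) < D := by exact_mod_cast (by omega : 0 < D)
  set C₃ : ℝ := 4 * D * q ^ T / κ with hC₃
  have hC₃0 : 0 < C₃ := by positivity
  have hT0 : (0 : ℝ) < T := by exact_mod_cast hT
  obtain ⟨H, hH, m₀, L₀, hL₀, hN3⟩ := near3 (π := π) h hπ
    (ε := c₃ ^ 2 * κ ^ 2 / (64 * C₁ ^ 2)) (by positivity)
  set a₃ : ℝ := 1 - L₀⁻¹ with ha₃
  have ha₃1 : a₃ < 1 := by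
    have : 0 < L₀⁻¹ := inv_pos.2 hL₀
    linarith
  refine ⟨max (max a₁ a₂) a₃, max_lt (max_lt ha₁ ha₂) ha₃1, fun a haa ha0 ha1 => ?_⟩
  have haa1 : a₁ ≤ a := ((le_max_left _ _).trans (le_max_left _ _)).trans haa
  have haa2 : a₂ ≤ a := ((le_max_right _ _).trans (le_max_left _ _)).trans haa
  have haa3 : a₃ ≤ a := (le_max_right _ _).trans haa
  have hLa : L₀ ≤ (1 - a)⁻¹ := by
    have h1 : 1 - a ≤ L₀⁻¹ := by linarith
    have h2 : 0 < 1 - a := by linarith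
    have h3 := inv_anti₀ h2 h1
    rwa [inv_inv] at h3
  obtain ⟨E₀, hE₀⟩ := no_record (π := π) hb hr h.a_ge hK hstep ht hN hκ hc₃0 hC₁0 hC₃0 hT0
    ha0.le ha1 hH (m₀ := m₀) (ε := c₃ ^ 2 * κ ^ 2 / (64 * C₁ ^ 2)) le_rfl
    (fun m hm n Ψ h1 h2 => hN3 _ hLa m hm n n Ψ h1 h2)
  refine ⟨max (max N₁ N₂) (max (Q * m₀) (max D Q)), max E₀ 0, fun N hNN hEE => ?_⟩
  have hN1 : N₁ ≤ N := ((le_max_left _ _).trans (le_max_left _ _)).trans hNN
  have hN2 : N₂ ≤ N := ((le_max_right _ _).trans (le_max_left _ _)).trans hNN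
  have hN3' : Q * m₀ ≤ N := ((le_max_left _ _).trans (le_max_right _ _)).trans hNN
  have hND : D ≤ N := (((le_max_left _ _).trans (le_max_right _ _)).trans
    (le_max_right _ _)).trans hNN
  have hN0 : 0 < N := by omega
  have hN0' : (0 : ℝ) < N := by exact_mod_cast hN0
  by_contra hcon
  push Not at hcon
  set E : ℝ := EE Y π ρ κ a N with hE
  have hE0 : 0 ≤ E := (le_max_right _ _).trans hEE
  set m : ℕ := N / Q with hm
  set P : Fm k := PR Y π ρ κ (N / D) (T * N) with hP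
  set P' : Fm k := PR Y π (rv ρ) κ (N / D) (T * N) with hP'
  -- norms
  have b1 : Fm.nr a P ≤ A * Real.sqrt E := by
    have h1 := en_PR_le (π := π) hb hK hκ ha0 ha1 (N / D) N T
    have h2 : Fm.nr a P = Real.sqrt (Fm.en a P P) := rfl
    rw [h2]
    refine (Real.sqrt_le_sqrt h1).trans (le_of_eq ?_)
    have h3 : q ^ (2 * T) = A ^ 2 := by
      rw [hA, ← pow_mul, mul_comm]
    rw [h3, Real.sqrt_mul (sq_nonneg A), Real.sqrt_sq hA0.le]
  have b2 : Fm.nr a (Fm.sub P (Fm.conv (lw Y π ρ m) P)) ≤ x * Real.sqrt E := by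
    have h1 := hinv' a haa1 ha0 ha1 N hN1 m
    have h2 : Fm.nr a (Fm.sub P (Fm.conv (lw Y π ρ m) P)) = Real.sqrt
      (Fm.en a (Fm.sub P (Fm.conv (lw Y π ρ m) P)) (Fm.sub P (Fm.conv (lw Y π ρ m) P))) := rfl
    rw [h2]
    have h4 : C * ((m : ℝ) / N + x ^ 2 / (2 * C)) ≤ x ^ 2 := by
      have h5 : (m : ℝ) / N ≤ 1 / Q := by
        rw [div_le_div_iff₀ hN0' hQ0, one_mul]
        have : N / Q * Q ≤ N := Nat.div_mul_le_self N Q
        exact_mod_cast this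
      have h6 : C * (1 / Q) ≤ x ^ 2 / 2 := by
        rw [mul_one_div, div_le_div_iff₀ hQ0 (by norm_num)]
        rw [div_lt_iff₀ (by positivity)] at hQ
        linarith
      have h7 : C * (x ^ 2 / (2 * C)) = x ^ 2 / 2 := by
        field_simp
      have h8 := mul_le_mul_of_nonneg_left h5 hC.le
      rw [mul_add, h7]
      linarith
    refine (Real.sqrt_le_sqrt (h1.trans (mul_le_mul_of_nonneg_right h4 hE0))).trans
      (le_of_eq ?_)
    rw [Real.sqrt_mul (sq_nonneg x), Real.sqrt_sq hx0.le]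
  have b3 : Fm.nr a (Fm.sub (Fm.smul (1 - bb Y ρ κ)⁻¹ P) (Fm.smul (1 - bb Y (rv ρ) κ)⁻¹ P')) ≤
      x * Real.sqrt E := by
    have h1 := hrv a haa2 ha0 ha1 N hN2
    have h2 : Fm.nr a (Fm.sub (Fm.smul (1 - bb Y ρ κ)⁻¹ P)
        (Fm.smul (1 - bb Y (rv ρ) κ)⁻¹ P')) = Real.sqrt
      (Fm.en a (Fm.sub (Fm.smul (1 - bb Y ρ κ)⁻¹ P) (Fm.smul (1 - bb Y (rv ρ) κ)⁻¹ P'))
        (Fm.sub (Fm.smul (1 - bb Y ρ κ)⁻¹ P) (Fm.smul (1 - bb Y (rv ρ) κ)⁻¹ P'))) := rfl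
    rw [h2]
    refine (Real.sqrt_le_sqrt h1).trans (le_of_eq ?_)
    rw [Real.sqrt_mul (sq_nonneg x), Real.sqrt_sq hx0.le]
  have hbb0 : ∀ {α : List S → ℝ}, Bulk Y Λ α → 0 ≤ bb Y α κ := fun hα =>
    (bn_nonneg hα κ 0).trans (bn_le_bb hα hK hκ.le 0)
  have key := lower_prod ha0 ha1 (P := P) (P' := P') (p := lw Y π ρ m)
    (nn_lw Y π hb.nonneg m) (by rw [mass_lw]; exact hb.mass m)
    (hbb0 hb) ((bb_le hb hK hκ.le).trans hκK) ((bb_le hr hK hκ.le).trans hκK)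
    hE0 hc₂.le hA0.le hx0.le hx0.le hcon b1 b2 b3 (le_of_eq hAx)
  -- apply the main theorem
  have hTN : 1 ≤ T * N := Nat.one_le_iff_ne_zero.2 (Nat.mul_ne_zero (by omega) (by omega))
  have hn1 : T * N - 1 + 1 = T * N := by omega
  have hND1 : 1 ≤ N / D := (Nat.one_le_div_iff (by omega)).2 hND
  refine hE₀ E ((le_max_left _ _).trans hEE) N hN0' (T * N - 1) m (Ico (4 * (N / D)) (T * N))
    (fun x => good Y (rv ρ) κ x ∧ Rg Y (rv ρ) κ (N / D) x)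
    (fun x => good Y ρ κ x ∧ Rg Y ρ κ (N / D) x) ?_ ?_ ?_ (fun x hx => hx.1) (fun x hx => hx.1)
    ?_ ?_ ?_ ?_ ?_
  · rw [hm, Nat.le_div_iff_mul_le (by omega)]
    rw [mul_comm]
    exact hN3'
  · intro t ht
    have h1 := Finset.mem_Ico.1 ht
    omega
  · rw [Nat.card_Ico]
    have h1 : T * N - 4 * (N / D) ≤ T * N := Nat.sub_le _ _
    exact_mod_cast h1
  · intro z
    rw [S1_eq]
    refine (sm_PU_le hb hK hκ ha0 ha1 (by omega) hND T (-z)).trans (le_of_eq ?_)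
    rw [hC₃]
    ring
  · intro z
    rw [S1_eq]
    refine (sm_PU_le hr hK hκ ha0 ha1 (by omega) hND T (-z)).trans (le_of_eq ?_)
    rw [hC₃, EE_rv]
    ring
  all_goals try rw [hn1]
  all_goals
    have w1 : ∀ {α : List S → ℝ}, Bulk Y Λ α → EE Y π α κ a N = E →
        Fm.nr (Real.sqrt a) (GU Y π α κ (T * N)) ≤ 2 ^ k * (q ^ T * Real.sqrt E) := by
      intro α hα hαE
      have h1 := Fm.en_wide ha0 ha1 (GU Y π α κ (T * N))
      have h2 : Fm.nr (Real.sqrt a) (GU Y π α κ (T * N)) ≤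
          2 ^ k * Fm.nr a (GU Y π α κ (T * N)) := by
        unfold Fm.nr
        refine (Real.sqrt_le_sqrt h1).trans (le_of_eq ?_)
        have h3 : (4 : ℝ) ^ k = (2 ^ k) ^ 2 := by
          rw [← pow_mul, mul_comm k 2, pow_mul]
          norm_num
        rw [h3, Real.sqrt_mul (sq_nonneg _), Real.sqrt_sq (by positivity)]
      refine h2.trans (mul_le_mul_of_nonneg_left ?_ (by positivity))
      refine (nr_GU_mul_le hα hK hκ ha0 ha1 N T).trans ?_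
      refine mul_le_mul_of_nonneg_left ?_ (by positivity)
      rw [← hαE]
      exact nr_GU_le ha0 ha1 N
    have w2 := w1 hb rfl
    have w3 := w1 hr (EE_rv (π := π) (ρ := ρ) (κ := κ) (a := a) N)
    have w4 : Fm.nr (Real.sqrt a) (GU Y π (rv ρ) κ (T * N)) *
        Fm.nr (Real.sqrt a) (GU Y π ρ κ (T * N)) ≤ C₁ * E := by
      have hs := Real.mul_self_sqrt hE0
      refine (mul_le_mul w3 w2 (Real.sqrt_nonneg _) (by positivity)).trans (le_of_eq ?_)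
      have h4 : (4 : ℝ) ^ k = 2 ^ k * 2 ^ k := by
        rw [← mul_pow]
        norm_num
      have e : 2 ^ k * (q ^ T * Real.sqrt E) * (2 ^ k * (q ^ T * Real.sqrt E)) =
          (2 ^ k * 2 ^ k) * (q ^ T * q ^ T) * (Real.sqrt E * Real.sqrt E) := by ring
      rw [e, hs, ← h4, hC₁, ← pow_add, ← two_mul]
    have hs0 : 0 < Real.sqrt a := Real.sqrt_pos.2 ha0
    have hs1 : Real.sqrt a < 1 := by
      rw [Real.sqrt_lt' one_pos]
      linarith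
  · intro z
    rw [S2_eq]
    exact ((le_abs_self _).trans (Fm.sm_conv_le hs0 hs1 _ _ _)).trans w4
  · rw [S2'_eq]
    exact ((le_abs_self _).trans (Fm.en_cs hs0 hs1 _ _)).trans w4
  · rw [S3_eq hb hr (N / D) (T * N) m (T * N - 1) (by omega) a]
    exact key

end final

end Pool.Agent.SawM2
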