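import Pool.Agent.SawM2.ErgL

/-!
# Ergodicity of the limiting law (module ERGM)
-/

set_option autoImplicit false

namespace Pool.Agent.SawM2

open Finset Filter Pool.Agent.Bub4 Pool.Agent.SawDiff

variable {S V : Type} [Fintype S] [AddCommGroup V] {Y : Sys S V} {Λ K : ℝ} {ρ : List S → ℝ}

variable {c₀ : ℝ} {H : ℕ → ℕ} {B : ℕ → List S → Prop} {a : ℕ → List S → ℝ}

/-- a shift by `h` places changes the mean over `n` places by at most `h / n` -/
private theorem erm_shift (f : ℕ → ℝ) (hf : ∀ i, 0 ≤ f i ∧ f i ≤ 1) {n : ℕ} (hn : 0 < n) (h : ℕ) :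
    |(n : ℝ)⁻¹ * ∑ p ∈ range n, f (p + h) - (n : ℝ)⁻¹ * ∑ p ∈ range n, f p| ≤ h / n := by
  have hn' : (0 : ℝ) < n := by exact_mod_cast hn
  have h1 : ∑ p ∈ range n, f (p + h) + ∑ p ∈ range h, f p =
      ∑ p ∈ range n, f p + ∑ p ∈ range h, f (n + p) := by
    rw [← Finset.sum_range_add, add_comm, Nat.add_comm n h, Finset.sum_range_add]
    congr 1
    exact Finset.sum_congr rfl fun p _ => by rw [Nat.add_comm]
  have h2 : ∀ g : ℕ → ℝ, (∀ i, 0 ≤ g i ∧ g i ≤ 1) → 0 ≤ ∑ p ∈ range h, g p ∧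
      ∑ p ∈ range h, g p ≤ h := by
    intro g hg
    refine ⟨Finset.sum_nonneg fun i _ => (hg i).1, ?_⟩
    have := Finset.sum_le_card_nsmul (range h) g 1 (fun i _ => (hg i).2)
    simpa using this
  have h3 := h2 f hf
  have h4 := h2 (fun p => f (n + p)) (fun i => hf _)
  rw [← mul_sub, abs_mul, abs_of_nonneg (inv_nonneg.2 hn'.le), div_eq_inv_mul]
  refine mul_le_mul_of_nonneg_left ?_ (inv_nonneg.2 hn'.le)
  rw [abs_le]
  constructor <;> linarith [h3.1, h3.2, h4.1, h4.2]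

/-- the mean of the frequencies in the windows of length `H'` is close to the frequency in the
window of length `n` -/
private theorem erm_mean (γ : List S) {n H' : ℕ} (hn : 0 < n) (hH' : 0 < H') (W : List S) :
    |(n : ℝ)⁻¹ * ∑ p ∈ range n, av γ H' (W.drop p) - av γ n W| ≤ H' / n := by
  have hn' : (0 : ℝ) < n := by exact_mod_cast hn
  have hH'' : (0 : ℝ) < H' := by exact_mod_cast hH'
  have h1 : (n : ℝ)⁻¹ * ∑ p ∈ range n, av γ H' (W.drop p) =
      (H' : ℝ)⁻¹ * ∑ h ∈ range H', (n : ℝ)⁻¹ * ∑ p ∈ range n, occ γ (p + h) W := by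
    unfold av
    simp only [occ_drop, Finset.mul_sum]
    rw [Finset.sum_comm]
    exact Finset.sum_congr rfl fun i _ => Finset.sum_congr rfl fun j _ => by ring
  have h2 : av γ n W = (H' : ℝ)⁻¹ * ∑ h ∈ range H', (n : ℝ)⁻¹ * ∑ p ∈ range n, occ γ p W := by
    rw [Finset.sum_const, Finset.card_range, nsmul_eq_mul, ← mul_assoc,
      inv_mul_cancel₀ hH''.ne', one_mul]
    rfl
  rw [h1, h2, ← mul_sub, ← Finset.sum_sub_distrib, abs_mul,
    abs_of_nonneg (inv_nonneg.2 hH''.le), inv_mul_le_iff₀ hH'']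
  refine (Finset.abs_sum_le_sum_abs _ _).trans ?_
  have h3 := Finset.sum_le_card_nsmul (range H')
    (fun h => |(n : ℝ)⁻¹ * ∑ p ∈ range n, occ γ (p + h) W - (n : ℝ)⁻¹ * ∑ p ∈ range n, occ γ p W|)
    (H' / n) (fun h hh => by
      rw [Finset.mem_range] at hh
      refine (erm_shift (fun p => occ γ p W)
        (fun i => ⟨occ_nonneg _ _ _, occ_le_one _ _ _⟩) hn h).trans ?_
      refine div_le_div_of_nonneg_right ?_ hn'.le
      exact_mod_cast hh.le)
  rw [Finset.card_range, nsmul_eq_mul] at h3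
  exact h3

/-- local variance -/
private noncomputable def erV (γ : List S) (H' n : ℕ) (W : List S) : ℝ :=
  (n : ℝ)⁻¹ * ∑ p ∈ range n, (av γ H' (W.drop p) - av γ n W) ^ 2

private theorem erV_eq (γ : List S) {n : ℕ} (hn : 0 < n) (H' : ℕ) (W : List S) :
    erV γ H' n W = (n : ℝ)⁻¹ * (∑ p ∈ range n, av γ H' (W.drop p) ^ 2) -
      2 * av γ n W * ((n : ℝ)⁻¹ * ∑ p ∈ range n, av γ H' (W.drop p)) + av γ n W ^ 2 := by
  have hn' : (0 : ℝ) < n := by exact_mod_cast hn
  unfold erV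
  have h1 : ∀ p, (av γ H' (W.drop p) - av γ n W) ^ 2 = av γ H' (W.drop p) ^ 2 -
      2 * av γ n W * av γ H' (W.drop p) + av γ n W ^ 2 := fun p => by ring
  simp only [h1, Finset.sum_add_distrib, Finset.sum_sub_distrib, ← Finset.mul_sum,
    Finset.sum_const, Finset.card_range, nsmul_eq_mul]
  field_simp

private theorem erV_nonneg (γ : List S) (H' n : ℕ) (W : List S) : 0 ≤ erV γ H' n W :=
  mul_nonneg (inv_nonneg.2 (Nat.cast_nonneg n)) (Finset.sum_nonneg fun _ _ => sq_nonneg _)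

private theorem erm_second (γ : List S) {n H' : ℕ} (hn : 0 < n) (hH' : 0 < H') (W : List S) :
    (n : ℝ)⁻¹ * ∑ p ∈ range n, av γ H' (W.drop p) ^ 2 ≤
      erV γ H' n W + av γ n W ^ 2 + 2 * (H' / n) := by
  have h1 := erV_eq γ hn H' W
  have h2 := abs_le.1 (erm_mean γ hn hH' W)
  have h3 := av_nonneg γ n W
  have h4 := av_le_one γ n W
  have h5 : (0 : ℝ) ≤ H' / n := by positivity
  nlinarith [h2.2]

private theorem erV_le (γ : List S) {n H' : ℕ} (hn : 0 < n) (hH' : 0 < H') (W : List S) :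
    erV γ H' n W ≤ (n : ℝ)⁻¹ * (∑ p ∈ range n, av γ H' (W.drop p) ^ 2) -
      av γ n W ^ 2 + 2 * (H' / n) := by
  have h1 := erV_eq γ hn H' W
  have h2 := abs_le.1 (erm_mean γ hn hH' W)
  have h3 := av_nonneg γ n W
  have h4 := av_le_one γ n W
  have h5 : (0 : ℝ) ≤ H' / n := by positivity
  nlinarith [h2.1]

/-- ERGM. Local variance in the big window: for `0 < H'`, `γ` and all large `k`,
`(H k)⁻¹ Σ_p (av γ H' (W.drop p))² ≤ V W + (av γ (H k) W)² + 4 H' / H k` where
`V W = (H k)⁻¹ Σ_p (av γ H' (W.drop p) - av γ (H k) W)²` has mean (under `ρ`, words of length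
`H k + k`, `H' + |γ| ≤ k`) at most `mf H' - mf (H k) + 4 H' / H k`
(the average of `av γ H' (W.drop p)` over `p < H k` differs from `av γ (H k) W` by at most
`H' / H k`; `mf_win`). Therefore
`cnd ((H k)⁻¹ Σ_p (av γ H' (W.drop p))²) ≤ c₀⁻¹ (mf H' - mf (H k) + 4 H' / H k) +
(a k γ + 1 / (k + 1))² + 4 H' / H k`. Let `k → ∞`: with `m = lim mf` (`mf_lim`),
`mf (eL) γ H' ≤ c₀⁻¹ (mf ρ γ H' - m) + (z^|γ| eL γ)²`; with `mf_ge` for `eL` and `mf_lim` for `ρ`
the claim follows. -/
theorem mf_eL (h : Bulk Y Λ ρ) (hc : 0 < c₀) (hC : Cen Y ρ c₀ H B a) (γ : List S) :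
    Tendsto (fun H' => mf Y (eL Y ρ H B) γ H') atTop
      (nhds ((Y.z ^ γ.length * eL Y ρ H B γ) ^ 2)) := by
  obtain ⟨m, hm, hmle⟩ := mf_lim h γ
  have hbulk := bulk_eL h hc hC
  have hHpos : ∀ k, 0 < H k := fun k => lt_of_lt_of_le (by positivity) (hC.H_ge k)
  have hHt : Tendsto H atTop atTop := by
    refine tendsto_atTop_mono (fun k => ?_) tendsto_id
    have := hC.H_ge k
    simp only [id]
    nlinarith
  have hHtR : Tendsto (fun k => (H k : ℝ)) atTop atTop :=
    tendsto_natCast_atTop_atTop.comp hHt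
  -- the main inequality
  have key : ∀ H' : ℕ, 0 < H' → mf Y (eL Y ρ H B) γ H' ≤
      c₀⁻¹ * (mf Y ρ γ H' - m) + (Y.z ^ γ.length * eL Y ρ H B γ) ^ 2 := by
    intro H' hH'
    have h1 := E_eL h hc hC (H' + γ.length) (G := fun w => av γ H' w ^ 2) (C := 1) (fun w => by
      rw [abs_of_nonneg (sq_nonneg _)]
      exact pow_le_one₀ (av_nonneg _ _ _) (av_le_one _ _ _))
    have h2 : mf Y (eL Y ρ H B) γ H' = Bubble.ul fun k => cnd Y ρ H B k fun W => ((H k : ℝ))⁻¹ *
        ∑ p ∈ range (H k), av γ H' (W.drop p) ^ 2 := by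
      unfold mf
      rw [h1]
      congr 1
      funext k
      congr 1
      funext W
      congr 1
      exact Finset.sum_congr rfl fun p _ => by rw [av_take γ le_rfl]
    rw [h2, eL_eq h hc hC γ]
    -- bounds
    have hin : ∀ (k : ℕ) (W : List S), 0 ≤ ((H k : ℝ))⁻¹ * ∑ p ∈ range (H k), av γ H' (W.drop p) ^ 2 ∧
        ((H k : ℝ))⁻¹ * ∑ p ∈ range (H k), av γ H' (W.drop p) ^ 2 ≤ 1 := by
      intro k W
      have hk' : (0 : ℝ) < H k := by exact_mod_cast hHpos k
      refine ⟨mul_nonneg (inv_nonneg.2 hk'.le) (Finset.sum_nonneg fun _ _ => sq_nonneg _), ?_⟩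
      rw [inv_mul_le_iff₀ hk', mul_one]
      have := Finset.sum_le_card_nsmul (range (H k)) (fun p => av γ H' (W.drop p) ^ 2) 1
        (fun p _ => pow_le_one₀ (av_nonneg _ _ _) (av_le_one _ _ _))
      simpa using this
    have hb1 : ∀ k, |cnd Y ρ H B k fun W => ((H k : ℝ))⁻¹ *
        ∑ p ∈ range (H k), av γ H' (W.drop p) ^ 2| ≤ 1 := by
      intro k
      rw [abs_le]
      constructor
      · have := cnd_mono h hc hC k (F := fun _ => -1) (G := fun W => ((H k : ℝ))⁻¹ *
          ∑ p ∈ range (H k), av γ H' (W.drop p) ^ 2) (fun W _ _ => by linarith [(hin k W).1])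
        rwa [cnd_const h hc hC] at this
      · have := cnd_mono h hc hC k (G := fun _ => 1) (F := fun W => ((H k : ℝ))⁻¹ *
          ∑ p ∈ range (H k), av γ H' (W.drop p) ^ 2) (fun W _ _ => (hin k W).2)
        rwa [cnd_const h hc hC] at this
    have hta : Tendsto (fun k => a k γ) (hyperfilter ℕ : Filter ℕ)
        (nhds (Bubble.ul fun k => a k γ)) :=
      Bubble.tendsto_ul (C := 1) fun k => by
        rw [abs_of_nonneg (hC.mem k γ).1]; exact (hC.mem k γ).2
    -- the estimate for one `k`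
    have hk : ∀ᶠ k in atTop, (cnd Y ρ H B k fun W => ((H k : ℝ))⁻¹ *
        ∑ p ∈ range (H k), av γ H' (W.drop p) ^ 2) ≤
        c₀⁻¹ * (mf Y ρ γ H' - mf Y ρ γ (H k) + 2 * (H' / H k)) + (a k γ + 1 / (k + 1)) ^ 2 +
          2 * (H' / H k) := by
      filter_upwards [eventually_ge_atTop (H' + γ.length)] with k hk
      have hp := hHpos k
      have hk' : (0 : ℝ) < H k := by exact_mod_cast hp
      have e1 : (cnd Y ρ H B k fun W => ((H k : ℝ))⁻¹ *
          ∑ p ∈ range (H k), av γ H' (W.drop p) ^ 2) ≤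
          cnd Y ρ H B k fun W => erV γ H' (H k) W + ((a k γ + 1 / (k + 1)) ^ 2 +
            2 * (H' / H k)) := by
        refine cnd_mono h hc hC k fun W hW hB => ?_
        refine (erm_second γ hp hH' W).trans ?_
        have e2 := (abs_le.1 (hC.close k W γ hB (by omega))).2
        have e3 := av_nonneg γ (H k) W
        have e4 : av γ (H k) W ^ 2 ≤ (a k γ + 1 / (k + 1)) ^ 2 :=
          pow_le_pow_left₀ e3 (by linarith) 2
        linarith
      refine e1.trans ?_
      rw [cnd_add, cnd_const h hc hC]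
      have e5 := cnd_le h hc hC k (F := erV γ H' (H k)) (erV_nonneg γ H' (H k))
      have e6 : (Y.E (H k + k) fun w => ρ w * erV γ H' (H k) w) ≤
          mf Y ρ γ H' - mf Y ρ γ (H k) + 2 * (H' / H k) := by
        have e7 : (Y.E (H k + k) fun w => ρ w * erV γ H' (H k) w) ≤ Y.E (H k + k) fun w =>
            ((H k : ℝ)⁻¹ * (∑ p ∈ range (H k), ρ w * av γ H' (w.drop p) ^ 2) -
              ρ w * av γ (H k) (w.drop 0) ^ 2) + ρ w * (2 * (H' / H k)) := by
          refine Y.E_mono fun w _ => ?_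
          have e8 := mul_le_mul_of_nonneg_left (erV_le γ hp hH' w) (h.nonneg w)
          refine e8.trans (le_of_eq ?_)
          rw [← Finset.mul_sum, List.drop_zero]
          ring
        refine e7.trans (le_of_eq ?_)
        rw [Y.E_fadd, Y.E_fsub, Y.E_mul_left, Y.E_fsum, Y.E_mul_right, h.mass, one_mul,
          mf_win h γ (by omega)]
        have e9 : ∀ p ∈ range (H k), (Y.E (H k + k) fun w => ρ w * av γ H' (w.drop p) ^ 2) =
            mf Y ρ γ H' := by
          intro p hp'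
          rw [Finset.mem_range] at hp'
          exact mf_win h γ (by omega)
        rw [Finset.sum_congr rfl e9, Finset.sum_const, Finset.card_range, nsmul_eq_mul,
          ← mul_assoc, inv_mul_cancel₀ hk'.ne', one_mul]
      have e10 := mul_le_mul_of_nonneg_left e6 (inv_nonneg.2 hc.le)
      linarith
    -- limit
    have hHi : Tendsto (fun k => (H' : ℝ) / H k) atTop (nhds 0) :=
      hHtR.const_div_atTop _
    have h1k : Tendsto (fun k : ℕ => 1 / ((k : ℝ) + 1)) atTop (nhds 0) :=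
      tendsto_one_div_add_atTop_nhds_zero_nat
    have hmf : Tendsto (fun k => mf Y ρ γ (H k)) atTop (nhds m) := hm.comp hHt
    have hlim : Tendsto (fun k => c₀⁻¹ * (mf Y ρ γ H' - mf Y ρ γ (H k) + 2 * (H' / H k)) +
        (a k γ + 1 / (k + 1)) ^ 2 + 2 * (H' / H k)) (hyperfilter ℕ : Filter ℕ)
        (nhds (c₀⁻¹ * (mf Y ρ γ H' - m + 2 * 0) + ((Bubble.ul fun k => a k γ) + 0) ^ 2 + 2 * 0)) := by
      have g1 := hHi.mono_left Bubble.hyp_le
      have g2 := h1k.mono_left Bubble.hyp_le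
      have g3 := hmf.mono_left Bubble.hyp_le
      exact (((tendsto_const_nhds.sub g3).add (g1.const_mul 2)).const_mul _ |>.add
        ((hta.add g2).pow 2)).add (g1.const_mul 2)
    have h5 := le_of_tendsto_of_tendsto (Bubble.tendsto_ul hb1) hlim
      (hk.filter_mono Bubble.hyp_le)
    simpa using h5
  -- squeeze
  have hup : Tendsto (fun H' => c₀⁻¹ * (mf Y ρ γ H' - m) + (Y.z ^ γ.length * eL Y ρ H B γ) ^ 2)
      atTop (nhds ((Y.z ^ γ.length * eL Y ρ H B γ) ^ 2)) := by
    have h1 : Tendsto (fun H' => mf Y ρ γ H' - m) atTop (nhds 0) := by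
      have := hm.sub_const m
      rwa [sub_self] at this
    have h2 := (h1.const_mul c₀⁻¹).add_const ((Y.z ^ γ.length * eL Y ρ H B γ) ^ 2)
    simpa using h2
  refine tendsto_of_tendsto_of_tendsto_of_le_of_le' tendsto_const_nhds hup ?_ ?_
  · filter_upwards [eventually_gt_atTop 0] with H' hH'
    exact mf_ge hbulk γ hH'
  · filter_upwards [eventually_gt_atTop 0] with H' hH'
    exact key H' hH'

end Pool.Agent.SawM2
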