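import Pool.Agent.SawM2.CmpD
import Pool.Agent.SawM2.End8

/-!
# Small displacements contradict a bounded amplitude: abstract form
-/

set_option autoImplicit false

namespace Pool.Agent.SawM2

open Finset Filter MeasureTheory Pool.Agent.Bub4 Pool.Agent.SawDiff Pool.Agent.SawNice

variable {S : Type} [Fintype S] {d : ℕ} {Y : Sys S (Fin d → ℤ)} {K : ℝ}

/-- choice of the exponent `c` -/
theorem exists_c {k d : ℕ} (hk : 1 ≤ k) (hkd : k ≤ d) {ν : ℝ} (hν0 : 0 ≤ ν) (hν1 : ν < 2 / d)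
    (hν2 : ν < (d + 1) / (2 * d)) :
    ∃ c : ℝ, 0 < c ∧ c < 2 - k * ν ∧ c ≤ 2 ∧ 2 * (2 - c) < k + 1 := by
  have hd : (0 : ℝ) < d := by exact_mod_cast (by omega : 0 < d)
  have hk' : (0 : ℝ) < k := by exact_mod_cast (by omega : 0 < k)
  have hkd' : (k : ℝ) ≤ d := by exact_mod_cast hkd
  have h1 : k * ν < 2 := by
    have h2 : (d : ℝ) * ν < 2 := by
      rw [lt_div_iff₀ hd] at hν1; linarith
    have h3 : (k : ℝ) * ν ≤ d * ν := mul_le_mul_of_nonneg_right hkd' hν0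
    linarith
  have h2 : k * ν < (k + 1) / 2 := by
    rw [lt_div_iff₀ (by positivity)] at hν2
    -- `2 d ν < d + 1`, so `2 k ν < k (d + 1) / d ≤ k + 1`
    have h3 : (k : ℝ) * (ν * (2 * d)) < k * (d + 1) := mul_lt_mul_of_pos_left hν2 hk'
    have h4 : (k : ℝ) * (d + 1) ≤ (k + 1) * d := by nlinarith
    have h5 : 2 * ((k : ℝ) * ν) * d < (k + 1) * d := by nlinarith
    have h6 := lt_of_mul_lt_mul_right h5 hd.le
    linarith
  set lo : ℝ := max 0 (2 - ((k : ℝ) + 1) / 2) with hlo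
  have h3 : lo < 2 - k * ν := by
    rw [hlo]
    exact max_lt (by linarith) (by linarith)
  have hlo0 : 0 ≤ lo := le_max_left _ _
  have hlo1 : 2 - ((k : ℝ) + 1) / 2 ≤ lo := le_max_right _ _
  refine ⟨(lo + (2 - k * ν)) / 2, by linarith, by linarith, ?_, by linarith⟩
  have : 0 ≤ k * ν := by positivity
  linarith

/-- choice of the denominator `D` -/
theorem exists_D {c : ℝ} (hc : 0 < c) : ∃ D : ℕ, 8 ≤ D ∧ (4 / (D : ℝ)) ^ c ≤ 1 / 16 := by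
  have h1 : Tendsto (fun D : ℕ => (4 / (D : ℝ))) atTop (nhds 0) :=
    tendsto_const_nhds.div_atTop tendsto_natCast_atTop_atTop
  have h2 : Tendsto (fun D : ℕ => (4 / (D : ℝ)) ^ c) atTop (nhds 0) := by
    have := h1.rpow_const (p := c) (Or.inr hc.le)
    rwa [Real.zero_rpow hc.ne'] at this
  obtain ⟨D, hD1, hD2⟩ := ((eventually_ge_atTop 8).and
    (h2.eventually_le_const (show (0 : ℝ) < 1 / 16 by norm_num))).exists
  exact ⟨D, hD1, hD2⟩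

/-- THEOREM M2', core. An ergodic bulk law with large records contradicts Lemma N. -/
theorem fin_core {Λ : ℝ} {ρ : List S → ℝ} (h : Erg Y Λ K ρ) (hstep : ∀ s i, |Y.vec s i| ≤ 1)
    (hN : ∀ r : ℕ, ∃ D : Finset (Zk d), (∀ x : Zk d, (∀ i, |x i| ≤ r) → x ∈ D) ∧
      ∀ M : ℕ, ∃ C : ℝ, 0 ≤ C ∧ open Classical in ∀ n n', (Y.E n fun u => Y.E n' fun v =>
        Y.sv (u ++ v) * (((range (n' + 1)).filter fun t => Nice Y D M u v t).card : ℝ)) ≤ C)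
    {κ : ℝ} (hκ : 0 < κ) (hκK : κ * K ≤ 1 / 8) {k : ℕ} {e : Fin k → Fin d} (hk : 1 ≤ k)
    (hNtg : Ntg Y (cI e) ρ)
    (htight : ∀ j : Fin d, ∃ c : Rk k, Tgt Y ρ fun v => (v j : ℝ) - ∑ i, c i * (v (e i) : ℝ))
    {c : ℝ} (hc0 : 0 < c) (hc2 : c ≤ 2) (hkc : 2 * (2 - c) < k + 1)
    (hrecs : ∀ a : ℝ, 0 < a → a < 1 → ∀ (B : ℝ) (N₀ : ℕ), ∃ N : ℕ, N₀ ≤ N ∧ 1 ≤ N ∧
      B * (N : ℝ) ^ c ≤ EE Y (cI e) ρ κ a N ∧ Rec Y (cI e) ρ κ a c N) : False := by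
  have hπ : Stp Y (cI e) := stp_cI e hstep
  obtain ⟨D, hD, hDc⟩ := exists_D hc0
  have hD4 : 4 ≤ D := by omega
  -- frequencies
  set r : ℝ := min (1 / 160000) (1 / (1200 * k)) with hr
  have hk' : (0 : ℝ) < k := by exact_mod_cast (by omega : 0 < k)
  have hr0 : 0 < r := lt_min (by norm_num) (by positivity)
  have hr1 : r ≤ 1 / 160000 := min_le_left _ _
  have hrk : 12 * r ≤ 1 / (100 * k) := by
    have h2 : r ≤ 1 / (1200 * k) := min_le_right _ _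
    calc 12 * r ≤ 12 * (1 / (1200 * k)) := by linarith
      _ = 1 / (100 * k) := by field_simp; norm_num
  obtain ⟨d', hf⟩ := exists_frq h hπ hNtg hr0 hr1
  -- the reversed law
  have h' : Erg Y Λ K (rv ρ) := h.rv
  have hf' := hf.rv
  have htt : ∀ i : Fin d, ∃ c : Rk k, ∀ ε : ℝ, 0 < ε → ∃ B : ℝ, ∀ n, (Y.E n fun w => ρ w *
      ind (B < |(Y.sm w i : ℝ) - ∑ j, c j * (cI e (Y.sm w) j : ℝ)|)) ≤ ε := by
    intro i
    obtain ⟨c', hc'⟩ := htight i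
    exact ⟨c', fun ε hε => hc' ε hε⟩
  have htt' : ∀ i : Fin d, ∃ c : Rk k, ∀ ε : ℝ, 0 < ε → ∃ B : ℝ, ∀ n, (Y.E n fun w => rv ρ w *
      ind (B < |(Y.sm w i : ℝ) - ∑ j, c j * (cI e (Y.sm w) j : ℝ)|)) ≤ ε := by
    intro i
    obtain ⟨c', hc'⟩ := htt i
    refine ⟨c', fun ε hε => ?_⟩
    obtain ⟨B, hB⟩ := hc' ε hε
    refine ⟨B, fun n => le_trans (le_of_eq ?_) (hB n)⟩
    rw [← Y.E_reverse]
    refine Y.E_congr fun w _ => ?_
    simp [rv]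
  -- positivity at records
  obtain ⟨T, c₂, hc₂, hpos⟩ := cmp h hπ hκ hκK hD hf hk hrk hc2 hkc hDc
  obtain ⟨T', c₂', hc₂', hpos'⟩ := cmp h' hπ hκ hκK hD hf' hk hrk hc2 hkc hDc
  -- we may assume `T ≥ 1`
  have hup : ∀ (σ : List S → ℝ) (hσ : Erg Y Λ K σ) (T : ℕ) (a : ℝ) (N : ℕ), 0 < a →
      Fm.sm a (Fm.conv (PR Y (cI e) σ κ (N / D) (T * N)) (PR Y (cI e) σ κ (N / D) (T * N))) 0 ≤
      Fm.sm a (Fm.conv (PR Y (cI e) σ κ (N / D) ((T + 1) * N))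
        (PR Y (cI e) σ κ (N / D) ((T + 1) * N))) 0 := by
    intro σ hσ T a N ha
    have hdom : (PR Y (cI e) σ κ (N / D) (T * N)).Dom (PR Y (cI e) σ κ (N / D) ((T + 1) * N)) := by
      refine dom_bs (fun i hi => ?_) (fun w => mul_nonneg (hσ.bulk.nonneg w) (ind_nonneg _))
        fun _ _ _ _ => le_rfl
      rw [Finset.mem_Ico] at hi ⊢
      exact ⟨hi.1, hi.2.trans_le (Nat.mul_le_mul_right _ (Nat.le_succ T))⟩
    have hn1 := nn_PR (π := cI e) (κ := κ) hσ.bulk (N / D) (T * N)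
    have hn2 := nn_PR (π := cI e) (κ := κ) hσ.bulk (N / D) ((T + 1) * N)
    refine Fm.sm_mono ha (fun f hf0 => ?_) 0
    rw [Fm.pr_conv, Fm.pr_conv]
    refine le_trans (hdom _ fun x => hn1.pr_nonneg fun y => hf0 _) ?_
    exact hn2.pr_mono fun x => hdom _ fun y => hf0 _
  -- no positivity
  obtain ⟨a₀, ha₀, hno⟩ := no_pos h hπ hstep htt hN hκ hκK hD4 (T := T + 1) (by omega) hc₂
  obtain ⟨a₀', ha₀', hno'⟩ := no_pos h' hπ hstep htt' hN hκ hκK hD4 (T := T' + 1) (by omega) hc₂'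
  -- choice of `L`
  obtain ⟨L, hL1, hL2, hL3, hL4, hL5⟩ := (hpos.and (hpos'.and ((par_ge ha₀).and
    ((par_ge ha₀').and (eventually_gt_atTop (1 : ℝ)))))).exists
  set a : ℝ := 1 - 1 / L with ha
  have ha0 : 0 < a := par_pos hL5
  have ha1 : a < 1 := par_lt (by linarith)
  obtain ⟨N₁, hN₁⟩ := eventually_atTop.1 hL1
  obtain ⟨N₂, hN₂⟩ := eventually_atTop.1 hL2
  obtain ⟨N₃, E₃, hN₃⟩ := hno a hL3 ha0 ha1
  obtain ⟨N₄, E₄, hN₄⟩ := hno' a hL4 ha0 ha1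
  -- a record
  obtain ⟨N, hNge, hNone, hEN, hrec⟩ := hrecs a ha0 ha1 (max 0 (max E₃ E₄))
    (max (max N₁ N₂) (max N₃ N₄))
  have hB : max E₃ E₄ ≤ EE Y (cI e) ρ κ a N := by
    refine le_trans ?_ hEN
    have h2 : (1 : ℝ) ≤ (N : ℝ) ^ c := Real.one_le_rpow (by exact_mod_cast hNone) hc0.le
    have h3 : max E₃ E₄ ≤ max 0 (max E₃ E₄) := le_max_right _ _
    have h4 : (0 : ℝ) ≤ max 0 (max E₃ E₄) := le_max_left _ _
    nlinarith
  have hge1 : N₁ ≤ N := le_trans ((le_max_left _ _).trans (le_max_left _ _)) hNge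
  have hge2 : N₂ ≤ N := le_trans ((le_max_right _ _).trans (le_max_left _ _)) hNge
  have hge3 : N₃ ≤ N := le_trans ((le_max_left _ _).trans (le_max_right _ _)) hNge
  have hge4 : N₄ ≤ N := le_trans ((le_max_right _ _).trans (le_max_right _ _)) hNge
  -- the sign
  rcases le_total (Fm.en a (GU Y (cI e) (rv ρ) κ N) (GU Y (cI e) (rv ρ) κ N))
    (Fm.en a (GU Y (cI e) ρ κ N) (GU Y (cI e) ρ κ N)) with hs | hs
  · have hE : EE Y (cI e) ρ κ a N = Fm.en a (GU Y (cI e) ρ κ N) (GU Y (cI e) ρ κ N) :=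
      max_eq_left hs
    have h2 := hN₁ N hge1 hrec hE
    have h3 := hN₃ N hge3 ((le_max_left _ _).trans hB)
    have h4 := hup ρ h T a N ha0
    linarith
  · have hE : EE Y (cI e) (rv ρ) κ a N =
        Fm.en a (GU Y (cI e) (rv ρ) κ N) (GU Y (cI e) (rv ρ) κ N) := by
      rw [EE_rv]
      exact max_eq_right hs
    have h2 := hN₂ N hge2 hrec.rv hE
    have h3 := hN₄ N hge4 (by rw [EE_rv]; exact (le_max_right _ _).trans hB)
    have h4 := hup (rv ρ) h' T' a N ha0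
    linarith

end Pool.Agent.SawM2
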