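import Pool.Agent.SawM2.FinQ
import Pool.Agent.SawNice.Box
import Pool.Agent.SawDiff.Main

/-!
# Lower bound for the displacement of a positive proportion of the walks: the lattice
-/

set_option autoImplicit false

namespace Pool.Agent.SawM2

open Finset Filter Pool.Agent.Bub4 Pool.Agent.SawDiff Pool.Agent.SubBall

open Classical in
/-- the lattice version of `fin_q` in terms of walks -/
theorem fin_words (m : ℕ) {μ A : ℝ} (hμ : 0 < μ) (h1 : ∀ n, 1 ≤ Bubble.an (stv m) μ n)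
    (hA : ∀ n, Bubble.an (stv m) μ n ≤ A) :
    ∃ η : ℝ, 0 < η ∧ ∀ ν : ℝ, 0 < ν → ν < 2 / ((m + 2 : ℕ) : ℝ) →
      ν < (((m + 2 : ℕ) : ℝ) + 1) / (2 * ((m + 2 : ℕ) : ℝ)) →
      ∀ᶠ N : ℕ in atTop, ∃ i : Fin (m + 2), η * ((saws (stv m) N).card : ℝ) ≤
        ((saws (stv m) N).filter fun w =>
          (N : ℝ) ^ ν < |((SubBall.pos (stv m) w N i : ℤ) : ℝ)|).card := by
  have hA1 : 1 ≤ A := (h1 0).trans (hA 0)
  set Y := lat m hμ with hY
  have ha1 : ∀ n, 1 ≤ Y.a n := fun n => by rw [hY, lat_a]; exact h1 n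
  have haA : ∀ n, Y.a n ≤ A := fun n => by rw [hY, lat_a]; exact hA n
  have hstep : ∀ (s : St m) (i : Fin (m + 2)), |Y.vec s i| ≤ 1 := by
    rintro ⟨j, b⟩ i
    show |stv m (j, b) i| ≤ 1
    unfold stv
    by_cases hij : i = j
    · subst hij
      cases b <;> simp
    · cases b <;> simp [hij]
  obtain ⟨η, hη, hm⟩ := fin_q (Y := Y) (K := A) (by omega) hstep ha1 haA (fun r => by
    obtain ⟨D, hD1, hD2⟩ := Pool.Agent.SawNice.lat_nice hμ haA r
    exact ⟨D, hD1, hD2⟩)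
  refine ⟨η / A, by positivity, fun ν hν hν1 hν2 => ?_⟩
  filter_upwards [hm ν hν hν1 hν2] with N hN
  obtain ⟨i, hi⟩ := hN
  refine ⟨i, ?_⟩
  rw [hY, lat_E m hμ N (fun x => ind ((N : ℝ) ^ ν < |((x i : ℤ) : ℝ)|))] at hi
  have h2 : (∑ w ∈ saws (stv m) N, ind ((N : ℝ) ^ ν < |((SubBall.pos (stv m) w N i : ℤ) : ℝ)|)) =
      ((saws (stv m) N).filter fun w =>
          (N : ℝ) ^ ν < |((SubBall.pos (stv m) w N i : ℤ) : ℝ)|).card := by
    rw [Finset.card_filter]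
    push_cast
    refine Finset.sum_congr rfl fun w _ => ?_
    by_cases h3 : (N : ℝ) ^ ν < |((SubBall.pos (stv m) w N i : ℤ) : ℝ)|
    · rw [ind_of h3, if_pos h3]
    · rw [ind_not h3, if_neg h3]
  rw [h2] at hi
  have h3 : (0 : ℝ) < μ ^ N := pow_pos hμ N
  rw [le_div_iff₀ h3] at hi
  refine le_trans ?_ hi
  have h4 := hA N
  unfold Bubble.an at h4
  rw [div_le_iff₀ h3] at h4
  calc η / A * ((saws (stv m) N).card : ℝ) ≤ η / A * (A * μ ^ N) :=
        mul_le_mul_of_nonneg_left h4 (by positivity)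
    _ = η * μ ^ N := by field_simp

end Pool.Agent.SawM2
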