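import Pool.Agent.SawM2.FinB

/-!
# Non-concentration of the endpoint excludes a bounded amplitude in dimensions two and three
-/

set_option autoImplicit false

namespace Pool.Agent.SawM2

open Finset Filter Pool.Agent.Bub4 Pool.Agent.SawDiff Pool.Agent.SubBall

open Classical in
/-- In dimensions two and three, a bounded amplitude is incompatible with the non-concentration of
the endpoint. -/
theorem fin_nc (m : ℕ) (hm : m ≤ 1) {μ A : ℝ} (hμ : 0 < μ)
    (h1 : ∀ n, 1 ≤ Bubble.an (stv m) μ n) (hA : ∀ n, Bubble.an (stv m) μ n ≤ A)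
    (hnc : ∀ η : ℝ, 0 < η → ∃ δ : ℝ, 0 < δ ∧ ∀ᶠ n in atTop,
      (((saws (stv m) n).filter (fun w => ∑ i : Fin (m + 2),
        ((SubBall.pos (stv m) w n i : ℤ) : ℝ) ^ 2 ≤ δ * ms m n)).card : ℝ) ≤
        η * (saws (stv m) n).card) : False := by
  obtain ⟨η, hη, hw⟩ := fin_words m hμ h1 hA
  have hlow := hw (3 / 5) (by norm_num) (by
    rcases Nat.le_one_iff_eq_zero_or_eq_one.1 hm with rfl | rfl <;> norm_num) (by
    rcases Nat.le_one_iff_eq_zero_or_eq_one.1 hm with rfl | rfl <;> norm_num)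
  have hup := SawDiff.main_words m hμ h1 (A := A) hA hnc (ε := 1 / 10) (by norm_num)
  have hpow : Tendsto (fun n : ℕ => (n : ℝ) ^ (1 / 10 : ℝ)) atTop atTop :=
    (tendsto_rpow_atTop (by norm_num)).comp tendsto_natCast_atTop_atTop
  obtain ⟨N, hN1, hN2, hN3, hN4⟩ := (hlow.and (hup.and
    ((hpow.eventually_gt_atTop (1 / η)).and (eventually_ge_atTop 1)))).exists
  obtain ⟨i, hi⟩ := hN1
  have hN0 : (0 : ℝ) < N := by exact_mod_cast hN4
  -- positive number of walks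
  have hcard : (0 : ℝ) < (saws (stv m) N).card := by
    have h2 := h1 N
    unfold Bubble.an at h2
    rw [le_div_iff₀ (pow_pos hμ N)] at h2
    have := pow_pos hμ N
    linarith
  -- lower bound for the sum of squares
  have h2 : η * ((saws (stv m) N).card : ℝ) * (N : ℝ) ^ (6 / 5 : ℝ) ≤
      ∑ w ∈ saws (stv m) N, ∑ j : Fin (m + 2), ((SubBall.pos (stv m) w N j : ℤ) : ℝ) ^ 2 := by
    have h3 : ((((saws (stv m) N).filter fun w =>
        (N : ℝ) ^ (3 / 5 : ℝ) < |((SubBall.pos (stv m) w N i : ℤ) : ℝ)|).card : ℝ)) *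
        (N : ℝ) ^ (6 / 5 : ℝ) ≤
        ∑ w ∈ saws (stv m) N, ∑ j : Fin (m + 2), ((SubBall.pos (stv m) w N j : ℤ) : ℝ) ^ 2 := by
      rw [← nsmul_eq_mul]
      refine le_trans (Finset.card_nsmul_le_sum _ (fun w => ∑ j : Fin (m + 2),
        ((SubBall.pos (stv m) w N j : ℤ) : ℝ) ^ 2) _ fun w hw => ?_) ?_
      · have h4 : (N : ℝ) ^ (3 / 5 : ℝ) < |((SubBall.pos (stv m) w N i : ℤ) : ℝ)| :=
          (Finset.mem_filter.1 hw).2
        have h5 : (N : ℝ) ^ (6 / 5 : ℝ) = ((N : ℝ) ^ (3 / 5 : ℝ)) ^ 2 := by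
          rw [← Real.rpow_natCast, ← Real.rpow_mul hN0.le]
          norm_num
        have h6 : ((N : ℝ) ^ (3 / 5 : ℝ)) ^ 2 ≤ ((SubBall.pos (stv m) w N i : ℤ) : ℝ) ^ 2 := by
          rw [← sq_abs ((SubBall.pos (stv m) w N i : ℤ) : ℝ)]
          exact pow_le_pow_left₀ (by positivity) h4.le 2
        rw [h5]
        exact h6.trans (Finset.single_le_sum
          (f := fun j => ((SubBall.pos (stv m) w N j : ℤ) : ℝ) ^ 2) (fun j _ => sq_nonneg _)
          (Finset.mem_univ i))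
      · exact Finset.sum_le_sum_of_subset_of_nonneg (Finset.filter_subset _ _)
          fun w _ _ => Finset.sum_nonneg fun j _ => sq_nonneg _
    exact (mul_le_mul_of_nonneg_right hi (by positivity)).trans h3
  -- comparison
  have h3 : ms m N = (∑ w ∈ saws (stv m) N, ∑ j : Fin (m + 2),
      ((SubBall.pos (stv m) w N j : ℤ) : ℝ) ^ 2) / ((saws (stv m) N).card : ℝ) := rfl
  have h4 : η * (N : ℝ) ^ (6 / 5 : ℝ) ≤ ms m N := by
    rw [h3, le_div_iff₀ hcard]
    calc η * (N : ℝ) ^ (6 / 5 : ℝ) * ((saws (stv m) N).card : ℝ) =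
        η * ((saws (stv m) N).card : ℝ) * (N : ℝ) ^ (6 / 5 : ℝ) := by ring
      _ ≤ _ := h2
  have h5 := h4.trans hN2.2
  have h6 : (N : ℝ) ^ (6 / 5 : ℝ) = (N : ℝ) ^ (1 / 10 : ℝ) * (N : ℝ) ^ (1 + 1 / 10 : ℝ) := by
    rw [← Real.rpow_add hN0]
    norm_num
  have h7 : (0 : ℝ) < (N : ℝ) ^ (1 + 1 / 10 : ℝ) := Real.rpow_pos_of_pos hN0 _
  rw [h6, ← mul_assoc] at h5
  have h8 : η * (N : ℝ) ^ (1 / 10 : ℝ) ≤ 1 := by
    by_contra h9
    push Not at h9
    have := mul_lt_mul_of_pos_right h9 h7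
    linarith
  rw [div_lt_iff₀ hη] at hN3
  linarith

end Pool.Agent.SawM2
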