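import Pool.Agent.SawM2.GRec

/-!
# Records from quantiles of the displacement (strong form of section 4a)
-/

set_option autoImplicit false

namespace Pool.Agent.SawM2

open Finset Filter Pool.Agent.Bub4 Pool.Agent.SawDiff

variable {S V : Type} [Fintype S] [AddCommGroup V] {Y : Sys S V} {Λ K : ℝ} {ρ : List S → ℝ}
  {k : ℕ} {π : V →+ Zk k} {κ a : ℝ}

private theorem GRecQ_pt {r u : ℝ} (hr : 0 ≤ r) (hu : r ≤ u) (P Q : Prop) :
    r - r * ind (¬ P) - r * ind (¬ Q) ≤ u * ind P * ind Q := by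
  by_cases hP : P
  · rw [ind_of hP, ind_not (not_not.2 hP), mul_zero, sub_zero, mul_one]
    by_cases hQ : Q
    · rw [ind_of hQ, ind_not (not_not.2 hQ), mul_zero, sub_zero, mul_one]
      exact hu
    · rw [ind_not hQ, ind_of hQ, mul_one, sub_self, mul_zero]
  · rw [ind_not hP, ind_of hP, mul_one, sub_self, mul_zero, zero_mul, zero_sub, neg_nonpos]
    exact mul_nonneg hr (ind_nonneg _)

/-- (4a) LOWER, quantile form: only lengths `n ∈ T` are used, and at these lengths the box is left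
with `ρ`-probability at most `3 / 4`. -/
theorem EE_ge_q (h : Bulk Y Λ ρ) (hK : ∀ n, Y.a n ≤ K) (hκ : 0 < κ) (hκK : κ * K ≤ 1 / 8)
    (ha0 : 0 < a) (_ha1 : a < 1) {N R : ℕ} (T : Finset ℕ) (hT : ∀ n ∈ T, n < N)
    (hX : ∀ n ∈ T, (Y.E n fun w => ρ w * ind (¬ ∀ i : Fin k, |π (Y.sm w) i| ≤ (R : ℤ))) ≤ 3 / 4) :
    ((T.card : ℝ) / 8) ^ 2 ≤ (2 * (R : ℝ) + 1) ^ k * EE Y π ρ κ a N := by
  have hbox := Fm.en_ge_box ha0 (nn_GU (π := π) (κ := κ) h hK N) R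
  have hmass : (T.card : ℝ) / 8 ≤ (GU Y π ρ κ N).pr fun x => ind (∀ i, |x i| ≤ (R : ℤ)) := by
    unfold GU
    rw [Fm.pr_bs]
    have h0 : ∀ n, 0 ≤ (lw Y π (fun w => UU Y ρ w * ind (good Y ρ κ w)) n).pr
        fun x => ind (∀ i, |x i| ≤ (R : ℤ)) := by
      intro n
      rw [pr_lw]
      exact Y.E_nonneg fun w _ => mul_nonneg (mul_nonneg (UU_nonneg h hK w) (ind_nonneg _))
        (ind_nonneg _)
    have h1 : ∀ n ∈ T, (1 / 8 : ℝ) ≤
        (lw Y π (fun w => UU Y ρ w * ind (good Y ρ κ w)) n).pr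
          fun x => ind (∀ i, |x i| ≤ (R : ℤ)) := by
      intro n hn
      rw [pr_lw]
      have h2 : (Y.E n fun w => ρ w - ρ w * ind (¬ good Y ρ κ w) -
          ρ w * ind (¬ ∀ i : Fin k, |π (Y.sm w) i| ≤ (R : ℤ))) ≤
          Y.E n fun w => UU Y ρ w * ind (good Y ρ κ w) *
            ind (∀ i, |π (Y.sm w) i| ≤ (R : ℤ)) :=
        Y.E_mono fun w _ => GRecQ_pt (h.nonneg w) (le_UU h hK w) _ _
      refine le_trans ?_ h2
      rw [Y.E_fsub, Y.E_fsub]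
      have h3 : Y.E n (fun w => ρ w) = 1 := h.mass n
      have h4 := bad_le h hK hκ.le n
      have h5 := hX n hn
      rw [h3]
      linarith
    have h2 := Finset.sum_le_sum h1
    rw [Finset.sum_const, nsmul_eq_mul] at h2
    have hsub : T ⊆ range N := fun n hn => Finset.mem_range.2 (hT n hn)
    have h3 := Finset.sum_le_sum_of_subset_of_nonneg hsub (fun n _ _ => h0 n)
    linarith
  have hsq : ((T.card : ℝ) / 8) ^ 2 ≤ (2 * (R : ℝ) + 1) ^ k *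
      Fm.en a (GU Y π ρ κ N) (GU Y π ρ κ N) :=
    (pow_le_pow_left₀ (by positivity) hmass 2).trans hbox
  refine hsq.trans ?_
  exact mul_le_mul_of_nonneg_left (le_max_left _ _) (by positivity)

/-- Records from quantiles: if for arbitrarily large `N` at least `δ N` of the lengths `n < N` are
such that the box of side `C N ^ ν` is left with `ρ`-probability at most `3 / 4`, and
`c < 2 - k ν`, there are arbitrarily large records at which the energy is as large as we like. -/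
theorem exists_rec_of_quantile (h : Bulk Y Λ ρ) (hK : ∀ n, Y.a n ≤ K) (hκ : 0 < κ)
    (hκK : κ * K ≤ 1 / 8) (ha0 : 0 < a) (ha1 : a < 1) {c ν C δ : ℝ} (hν : 0 ≤ ν) (hC : 0 ≤ C)
    (hδ : 0 < δ) (hc : c < 2 - k * ν)
    (hX : ∀ N₀ : ℕ, ∃ N ≥ N₀, ∃ T : Finset ℕ, (∀ n ∈ T, n < N) ∧ δ * N ≤ T.card ∧
      ∀ n ∈ T, (Y.E n fun w => ρ w *
        ind (¬ ∀ i : Fin k, |((π (Y.sm w) i : ℤ) : ℝ)| ≤ C * (N : ℝ) ^ ν)) ≤ 3 / 4)
    (B : ℝ) (N₀ : ℕ) :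
    ∃ N : ℕ, N₀ ≤ N ∧ 1 ≤ N ∧ B * (N : ℝ) ^ c ≤ EE Y π ρ κ a N ∧ Rec Y π ρ κ a c N := by
  refine exists_rec (fun B => ?_) B N₀
  obtain ⟨Q, hQ⟩ : ∃ Q : ℝ, Q = (2 * C + 3) ^ k := ⟨_, rfl⟩
  have hQ0 : 0 < Q := by rw [hQ]; positivity
  have ht : Tendsto (fun N : ℕ => (N : ℝ) ^ (2 - k * ν - c)) atTop atTop :=
    (tendsto_rpow_atTop (by linarith)).comp tendsto_natCast_atTop_atTop
  obtain ⟨N₁, hN₁⟩ := (ht.eventually_ge_atTop (64 * Q * B / δ ^ 2)).exists_forall_of_atTop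
  obtain ⟨N, hN, T, hT, hTc, hTX⟩ := hX (max N₁ 1)
  have hNge : N₁ ≤ N := (le_max_left _ _).trans hN
  have hN1 : 1 ≤ N := (le_max_right _ _).trans hN
  have hNr : (1 : ℝ) ≤ N := by exact_mod_cast hN1
  have hNpos : (0 : ℝ) < N := by linarith
  refine ⟨N, hN1, ?_⟩
  have hpow1 : (1 : ℝ) ≤ (N : ℝ) ^ ν := Real.one_le_rpow hNr hν
  have hCN : 0 ≤ C * (N : ℝ) ^ ν := by positivity
  obtain ⟨R, hR⟩ : ∃ R : ℕ, R = ⌈C * (N : ℝ) ^ ν⌉₊ := ⟨_, rfl⟩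
  have hR1 : C * (N : ℝ) ^ ν ≤ (R : ℝ) := by rw [hR]; exact Nat.le_ceil _
  have hR2 : (R : ℝ) < C * (N : ℝ) ^ ν + 1 := by rw [hR]; exact Nat.ceil_lt_add_one hCN
  have h1 := EE_ge_q (π := π) h hK hκ hκK ha0 ha1 (N := N) (R := R) T hT (by
    intro n hn
    refine le_trans ?_ (hTX n hn)
    refine Y.E_mono fun w _ => mul_le_mul_of_nonneg_left ?_ (h.nonneg w)
    apply ind_mono
    intro hne hall
    apply hne
    intro i
    have h2 := (hall i).trans hR1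
    have h3 : ((|π (Y.sm w) i| : ℤ) : ℝ) ≤ ((R : ℤ) : ℝ) := by
      push_cast
      exact h2
    exact_mod_cast h3)
  have hen := EE_nonneg (Y := Y) (π := π) (ρ := ρ) (κ := κ) ha0 ha1 N
  have h2 : (2 * (R : ℝ) + 1) ^ k ≤ Q * (N : ℝ) ^ (k * ν) := by
    have h3 : 2 * (R : ℝ) + 1 ≤ (2 * C + 3) * (N : ℝ) ^ ν := by nlinarith
    have h4 : (2 * (R : ℝ) + 1) ^ k ≤ ((2 * C + 3) * (N : ℝ) ^ ν) ^ k :=
      pow_le_pow_left₀ (by positivity) h3 k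
    refine h4.trans (le_of_eq ?_)
    rw [mul_pow, ← hQ, ← Real.rpow_natCast ((N : ℝ) ^ ν) k, ← Real.rpow_mul hNpos.le,
      mul_comm ν (k : ℝ)]
  have h3 : (δ * N / 8) ^ 2 ≤ Q * (N : ℝ) ^ (k * ν) * EE Y π ρ κ a N := by
    refine le_trans ?_ (h1.trans (mul_le_mul_of_nonneg_right h2 hen))
    exact pow_le_pow_left₀ (by positivity) (by linarith) 2
  have h4 : 64 * Q * B / δ ^ 2 ≤ (N : ℝ) ^ (2 - k * ν - c) := hN₁ N hNge
  have h5 : (N : ℝ) ^ (2 - k * ν - c) * (N : ℝ) ^ c * (N : ℝ) ^ (k * ν) = (N : ℝ) ^ 2 := by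
    rw [← Real.rpow_add hNpos, ← Real.rpow_add hNpos, ← Real.rpow_natCast (N : ℝ) 2]
    congr 1
    push_cast
    ring
  have hp1 : 0 < (N : ℝ) ^ c := Real.rpow_pos_of_pos hNpos c
  have hp2 : 0 < (N : ℝ) ^ (k * ν) := Real.rpow_pos_of_pos hNpos _
  have h6 : Q * B * (N : ℝ) ^ c * (N : ℝ) ^ (k * ν) ≤
      Q * (N : ℝ) ^ (k * ν) * EE Y π ρ κ a N := by
    have h7 : 64 * Q * B / δ ^ 2 * (N : ℝ) ^ c * (N : ℝ) ^ (k * ν) ≤
        (N : ℝ) ^ (2 - k * ν - c) * (N : ℝ) ^ c * (N : ℝ) ^ (k * ν) :=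
      mul_le_mul_of_nonneg_right (mul_le_mul_of_nonneg_right h4 hp1.le) hp2.le
    rw [h5] at h7
    have h8 : Q * B * (N : ℝ) ^ c * (N : ℝ) ^ (k * ν) =
        δ ^ 2 / 64 * (64 * Q * B / δ ^ 2 * (N : ℝ) ^ c * (N : ℝ) ^ (k * ν)) := by
      field_simp
    have h9 : (δ * N / 8) ^ 2 = δ ^ 2 / 64 * (N : ℝ) ^ 2 := by ring
    rw [h8]
    rw [h9] at h3
    exact (mul_le_mul_of_nonneg_left h7 (by positivity)).trans h3
  have hqp : 0 < Q * (N : ℝ) ^ (k * ν) := by positivity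
  refine le_of_mul_le_mul_left ?_ hqp
  calc Q * (N : ℝ) ^ (k * ν) * (B * (N : ℝ) ^ c) =
      Q * B * (N : ℝ) ^ c * (N : ℝ) ^ (k * ν) := by ring
    _ ≤ Q * (N : ℝ) ^ (k * ν) * EE Y π ρ κ a N := h6

end Pool.Agent.SawM2
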