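import Pool.Agent.SawM2.FinA
import Pool.Agent.SawM2.GRecQ
import Pool.Agent.SawM2.Cct

/-!
# Lower bound for the displacement of a positive proportion of the walks: abstract form
-/

set_option autoImplicit false

namespace Pool.Agent.SawM2

open Finset Filter MeasureTheory Pool.Agent.Bub4 Pool.Agent.SawDiff Pool.Agent.SawNice

variable {S : Type} [Fintype S] {d : ℕ} {Y : Sys S (Fin d → ℤ)} {K : ℝ}

/-- THEOREM M2'', for an ergodic bulk law: for every exponent `ν < min (2 / d) ((d + 1) / (2 d))`,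
every `C` and every `δ > 0`, if `N` is large then among any `δ N` lengths `n < N` there is one at
which the displacement leaves the box of side `C N ^ ν` with probability larger than `3 / 4`. -/
theorem fin_rho {Λ : ℝ} {ρ : List S → ℝ} (h : Erg Y Λ K ρ) (hstep : ∀ s i, |Y.vec s i| ≤ 1)
    (hN : ∀ r : ℕ, ∃ D : Finset (Zk d), (∀ x : Zk d, (∀ i, |x i| ≤ r) → x ∈ D) ∧
      ∀ M : ℕ, ∃ C : ℝ, 0 ≤ C ∧ open Classical in ∀ n n', (Y.E n fun u => Y.E n' fun v =>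
        Y.sv (u ++ v) * (((range (n' + 1)).filter fun t => Nice Y D M u v t).card : ℝ)) ≤ C)
    {ν C δ : ℝ} (hν : 0 ≤ ν) (hν1 : ν < 2 / d) (hν2 : ν < (d + 1) / (2 * d)) (hC : 0 ≤ C)
    (hδ : 0 < δ) :
    ∀ᶠ N : ℕ in atTop, ∀ T : Finset ℕ, (∀ n ∈ T, n < N) → δ * N ≤ T.card →
      ∃ n ∈ T, 3 / 4 < Y.E n fun w => ρ w *
        ind (¬ ∀ i : Fin d, |((Y.sm w i : ℤ) : ℝ)| ≤ C * (N : ℝ) ^ ν) := by
  have hb := h.bulk
  have hK1 : 1 ≤ K := (h.a_ge 0).trans (h.a_le 0)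
  by_contra hcon
  rw [Filter.not_eventually] at hcon
  -- coordinates
  obtain ⟨k, e, hinj, hk, hNtg, htight⟩ := exists_coord hb fun R ε hε => by
    obtain ⟨l, hl⟩ := transience hb R hε
    refine ⟨l, le_trans (Y.E_mono fun w hw => mul_le_mul_of_nonneg_left (ind_mono fun h2 => ?_)
      (hb.nonneg w)) (hl l)⟩
    refine ⟨l, le_rfl, le_rfl, ?_⟩
    rw [List.take_of_length_le hw.le, mem_boxF]
    exact h2
  have hkd : k ≤ d := by
    have := Fintype.card_le_of_injective e hinj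
    simpa using this
  set κ : ℝ := 1 / (8 * K) with hκ
  have hκ0 : 0 < κ := by positivity
  have hκK : κ * K ≤ 1 / 8 := by
    rw [hκ]
    field_simp
    norm_num
  obtain ⟨c, hc0, hc, hc2, hkc⟩ := exists_c hk hkd hν hν1 hν2
  refine fin_core h hstep hN hκ0 hκK hk hNtg htight hc0 hc2 hkc fun a ha0 ha1 B N₀ => ?_
  refine exists_rec_of_quantile hb h.a_le hκ0 hκK ha0 ha1 hν hC hδ hc (fun N₁ => ?_) B N₀
  obtain ⟨N, hNbad, hNge⟩ := (hcon.and_eventually (eventually_ge_atTop N₁)).exists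
  push Not at hNbad
  obtain ⟨T, hT1, hT2, hT3⟩ := hNbad
  refine ⟨N, hNge, T, hT1, hT2, fun n hn => le_trans (Y.E_mono fun w _ =>
    mul_le_mul_of_nonneg_left (ind_mono fun h2 => ?_) (hb.nonneg w)) (hT3 n hn)⟩
  push Not at h2
  obtain ⟨i, hi⟩ := h2
  exact ⟨e i, hi⟩

/-- THEOREM M2'', abstract form. If the amplitudes are bounded there is `η > 0` such that for every
exponent `ν < min (2 / d) ((d + 1) / (2 d))` and all large `N` some coordinate of the displacement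
is larger than `N ^ ν` on walks of weight at least `η`. -/
theorem fin_q (hd : 1 ≤ d) (hstep : ∀ s i, |Y.vec s i| ≤ 1) (h1 : ∀ n, 1 ≤ Y.a n)
    (hK : ∀ n, Y.a n ≤ K)
    (hN : ∀ r : ℕ, ∃ D : Finset (Zk d), (∀ x : Zk d, (∀ i, |x i| ≤ r) → x ∈ D) ∧
      ∀ M : ℕ, ∃ C : ℝ, 0 ≤ C ∧ open Classical in ∀ n n', (Y.E n fun u => Y.E n' fun v =>
        Y.sv (u ++ v) * (((range (n' + 1)).filter fun t => Nice Y D M u v t).card : ℝ)) ≤ C) :
    ∃ η : ℝ, 0 < η ∧ ∀ ν : ℝ, 0 < ν → ν < 2 / d → ν < (d + 1) / (2 * d) →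
      ∀ᶠ N : ℕ in atTop, ∃ i : Fin d,
        η ≤ Y.E N fun w => Y.sv w * ind ((N : ℝ) ^ ν < |((Y.sm w i : ℤ) : ℝ)|) := by
  obtain ⟨Λ, ρ, h⟩ := exists_erg h1 hK
  have hb := h.bulk
  have hK1 : 1 ≤ K := (h1 0).trans (hK 0)
  have hd' : (1 : ℝ) ≤ d := by exact_mod_cast hd
  -- `1 ≤ Λ`
  have hΛ : 1 ≤ Λ := by
    have h2 := hb.le []
    rw [hb.nil] at h2
    have h3 : Y.sv [] ≤ 1 := by unfold Sys.sv; split_ifs <;> norm_num
    have h4 : 0 ≤ Y.sv [] := by unfold Sys.sv; split_ifs <;> norm_num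
    rcases le_total 0 Λ with h5 | h5
    · exact h2.trans (mul_le_of_le_one_right h5 h3)
    · have h6 : Λ * Y.sv [] ≤ 0 := mul_nonpos_of_nonpos_of_nonneg h5 h4
      linarith
  set η₀ : ℝ := 1 / (8 * d) with hη₀
  have hη₀0 : 0 < η₀ := by positivity
  have hη₀1 : η₀ ≤ 1 / 8 := by
    rw [hη₀]
    exact one_div_le_one_div_of_le (by norm_num) (by linarith)
  refine ⟨η₀ / Λ, by positivity, fun ν hν hν1 hν2 => ?_⟩
  by_contra hcon
  rw [Filter.not_eventually] at hcon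
  have hid : Stp Y (AddMonoidHom.id (Zk d)) := fun s i => hstep s i
  obtain ⟨R₀, hR₀, hcon2⟩ := con (π := AddMonoidHom.id (Zk d)) h hid hη₀0 hη₀1
  have hrho := fin_rho h hstep hN hν.le hν1 hν2 (C := 23) (by norm_num) (δ := 1) one_pos
  -- a bad length
  have hbig : ∀ᶠ N : ℕ in atTop, R₀ ≤ (N : ℝ) ^ ν :=
    ((tendsto_rpow_atTop hν).comp tendsto_natCast_atTop_atTop).eventually_ge_atTop R₀
  obtain ⟨N, hNbad, hNbig, hNr⟩ := (hcon.and_eventually (hbig.and hrho)).exists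
  push Not at hNbad
  obtain ⟨n, hn, hn2⟩ := hNr (range N) (fun n hn => Finset.mem_range.1 hn) (by simp)
  rw [Finset.mem_range] at hn
  have h2 : ∀ i : Fin d, (Y.E N fun w => ρ w *
      ind ((N : ℝ) ^ ν < |tc Y (AddMonoidHom.id (Zk d)) i w|)) ≤ η₀ := by
    intro i
    have h3 := (hNbad i).le
    have h4 : (Y.E N fun w => ρ w * ind ((N : ℝ) ^ ν < |tc Y (AddMonoidHom.id (Zk d)) i w|)) ≤
        Λ * Y.E N fun w => Y.sv w * ind ((N : ℝ) ^ ν < |((Y.sm w i : ℤ) : ℝ)|) := by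
      rw [← Y.E_mul_left]
      refine Y.E_mono fun w _ => ?_
      rw [← mul_assoc]
      exact mul_le_mul_of_nonneg_right (hb.le w) (ind_nonneg _)
    refine h4.trans ((mul_le_mul_of_nonneg_left h3 (by linarith)).trans (le_of_eq ?_))
    field_simp
  have h5 : ∀ i : Fin d, (Y.E n fun w => ρ w *
      ind (23 * (N : ℝ) ^ ν < |tc Y (AddMonoidHom.id (Zk d)) i w|)) ≤
      2 * η₀ := fun i => hcon2 _ hNbig N i (h2 i) n hn.le
  have h6 : (Y.E n fun w => ρ w *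
      ind (¬ ∀ i : Fin d, |((Y.sm w i : ℤ) : ℝ)| ≤ 23 * (N : ℝ) ^ ν)) ≤
      ∑ i : Fin d, Y.E n fun w => ρ w *
        ind (23 * (N : ℝ) ^ ν < |tc Y (AddMonoidHom.id (Zk d)) i w|) := by
    rw [← Y.E_fsum]
    refine Y.E_mono fun w _ => ?_
    rw [← Finset.mul_sum]
    refine mul_le_mul_of_nonneg_left ?_ (hb.nonneg w)
    by_cases h7 : ∀ i : Fin d, |((Y.sm w i : ℤ) : ℝ)| ≤ 23 * (N : ℝ) ^ ν
    · rw [ind_not (not_not.2 h7)]
      exact Finset.sum_nonneg fun _ _ => ind_nonneg _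
    · rw [ind_of h7]
      push Not at h7
      obtain ⟨i, hi⟩ := h7
      have h8 : ind (23 * (N : ℝ) ^ ν < |tc Y (AddMonoidHom.id (Zk d)) i w|) = 1 := ind_of hi
      rw [← h8]
      exact Finset.single_le_sum
        (f := fun i => ind (23 * (N : ℝ) ^ ν < |tc Y (AddMonoidHom.id (Zk d)) i w|))
        (fun _ _ => ind_nonneg _) (Finset.mem_univ i)
  have h7 := h6.trans (Finset.sum_le_sum fun i _ => h5 i)
  rw [Finset.sum_const, Finset.card_univ, Fintype.card_fin, nsmul_eq_mul, hη₀] at h7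
  have hd0 : (0 : ℝ) < d := by linarith
  have h9 : (d : ℝ) * (2 * (1 / (8 * (d : ℝ)))) = 1 / 4 := by
    field_simp
    norm_num
  rw [h9] at h7
  linarith

end Pool.Agent.SawM2
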