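import Pool.Agent.SawM2.GDbl
import Pool.Agent.SawM2.EnD
import Pool.Agent.SawM2.U9

/-!
# Near invariance (section 4f)
-/

set_option autoImplicit false

namespace Pool.Agent.SawM2

open Finset Filter Pool.Agent.Bub4 Pool.Agent.SawDiff

variable {S V : Type} [Fintype S] [AddCommGroup V] {Y : Sys S V} {Λ K : ℝ} {ρ : List S → ℝ}
  {k : ℕ} {π : V →+ Zk k} {κ a : ℝ}

private theorem ginv_ind {P P' Q Q' : Prop} (hP : P' → P) :
    |ind (P' ∧ Q') - ind (P ∧ Q)| ≤ (ind P - ind P') + ind (¬ Q) + ind (¬ Q') := by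
  by_cases h2 : P'
  · have h1 := hP h2
    by_cases h3 : Q <;> by_cases h4 : Q' <;> norm_num [ind, h1, h2, h3, h4]
  · by_cases h1 : P <;> by_cases h3 : Q <;> by_cases h4 : Q' <;>
      norm_num [ind, h1, h2, h3, h4]

/-- GINV. (4f) functions of regular good words and their left extensions. Proof: `near2` with
`Ψ x v = ind (good v ∧ Rg n v) f (x + π (sm v))` replaces the product by `ρ (u ++ v)`; then
`|ind (good v ∧ Rg v) - ind (good (uv) ∧ Rg (uv))| ≤ (ind (good v) - ind (good (uv))) +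
ind (¬ Rg v) + ind (¬ Rg (uv))`, `bn_local`, `bn_le_bb`, `bn_tendsto`, `irr_le`. -/
theorem left_ext (h : Erg Y Λ K ρ) (hπ : Stp Y π) (hκ : 0 < κ) (hκK : κ * K ≤ 1 / 8) {ε : ℝ}
    (hε : 0 < ε) : ∃ L₀ : ℝ, 0 < L₀ ∧ ∃ n₀ : ℕ, ∀ L ≥ L₀, ∀ n ≥ n₀, ∀ l ≥ 4 * n, ∀ (m : ℕ)
      (f : Zk k → ℝ), (∀ x, |f x| ≤ 1) → Lip L f →
      |(Y.E (m + l) fun w => ρ w * ind (good Y ρ κ w ∧ Rg Y ρ κ n w) * f (π (Y.sm w))) -
        Y.E m fun u => ρ u * Y.E l fun v => ρ v * ind (good Y ρ κ v ∧ Rg Y ρ κ n v) *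
          f (π (Y.sm u) + π (Y.sm v))| ≤ ε := by
  have hb := h.bulk
  have hK := h.a_le
  obtain ⟨L₀, hL₀, hN⟩ := near2 h hπ (show 0 < ε / 5 by positivity)
  obtain ⟨n₁, hn₁⟩ := irr_le h hκ.le hκK (show 0 < ε / 5 by positivity)
  obtain ⟨j, hj⟩ := ((bn_tendsto hb hK hκ.le).eventually (lt_mem_nhds
    (show bb Y ρ κ - ε / 5 < bb Y ρ κ by linarith))).exists
  refine ⟨L₀, hL₀, max n₁ j, fun L hL n hn l hl m f hf hlip => ?_⟩
  have hn1 : n₁ ≤ n := (le_max_left _ _).trans hn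
  have hn2 : j ≤ n := (le_max_right _ _).trans hn
  set I : List S → ℝ := fun w => ind (good Y ρ κ w ∧ Rg Y ρ κ n w) with hI
  -- the three functionals
  set A : ℝ := Y.E m fun u => Y.E l fun v => ρ (u ++ v) * I (u ++ v) * f (π (Y.sm (u ++ v))) with hA
  set B : ℝ := Y.E m fun u => Y.E l fun v => ρ (u ++ v) * (I v * f (π (Y.sm u) + π (Y.sm v)))
    with hB
  set C : ℝ := Y.E m fun u => Y.E l fun v => ρ u * ρ v * (I v * f (π (Y.sm u) + π (Y.sm v)))
    with hC
  have e1 : (Y.E (m + l) fun w => ρ w * I w * f (π (Y.sm w))) = A := Y.E_add m l _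
  have e2 : (Y.E m fun u => ρ u * Y.E l fun v => ρ v * I v * f (π (Y.sm u) + π (Y.sm v))) = C := by
    rw [hC]
    refine Y.E_congr fun u _ => ?_
    rw [← Y.E_mul_left]
    exact Y.E_congr fun v _ => by ring
  change |(Y.E (m + l) fun w => ρ w * I w * f (π (Y.sm w))) -
    Y.E m fun u => ρ u * Y.E l fun v => ρ v * I v * f (π (Y.sm u) + π (Y.sm v))| ≤ ε
  rw [e1, e2]
  -- step B - C
  have hBC : |B - C| ≤ ε / 5 := by
    have h1 := hN L hL m l (fun x v => I v * f (x + π (Y.sm v))) (fun x v => by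
      rw [abs_mul, abs_of_nonneg (ind_nonneg _)]
      exact mul_le_one₀ (ind_le_one _) (abs_nonneg _) (hf _)) (fun v x y => by
      rw [← mul_sub, abs_mul, abs_of_nonneg (ind_nonneg _)]
      have h2 := hlip (x + π (Y.sm v)) (y + π (Y.sm v))
      rw [add_sub_add_right_eq_sub] at h2
      exact (mul_le_of_le_one_left (abs_nonneg _) (ind_le_one _)).trans h2)
    have h2 : (Y.E m fun u => Y.E l fun v => (ρ (u ++ v) - ρ u * ρ v) *
        (I v * f (π (Y.sm u) + π (Y.sm v)))) = B - C := by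
      rw [hB, hC, ← Y.E_fsub]
      refine Y.E_congr fun u _ => ?_
      rw [← Y.E_fsub]
      exact Y.E_congr fun v _ => by ring
    rw [← h2]
    exact h1
  -- step A - B
  have hAB : |A - B| ≤ ε / 5 + ε / 5 + ε / 5 := by
    have h1 : |A - B| ≤ Y.E m fun u => Y.E l fun v =>
        ρ (u ++ v) * (ind (good Y ρ κ v) - ind (good Y ρ κ (u ++ v))) +
          (ρ (u ++ v) * ind (¬ Rg Y ρ κ n v) + ρ (u ++ v) * ind (¬ Rg Y ρ κ n (u ++ v))) := by
      rw [hA, hB, ← Y.E_fsub]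
      refine (Y.E_abs _ _).trans (Y.E_mono fun u _ => ?_)
      rw [← Y.E_fsub]
      refine (Y.E_abs _ _).trans (Y.E_mono fun v _ => ?_)
      have h2 : ρ (u ++ v) * I (u ++ v) * f (π (Y.sm (u ++ v))) -
          ρ (u ++ v) * (I v * f (π (Y.sm u) + π (Y.sm v))) =
          ρ (u ++ v) * ((I (u ++ v) - I v) * f (π (Y.sm u) + π (Y.sm v))) := by
        rw [Y.sm_append, map_add]
        ring
      rw [h2, abs_mul, abs_of_nonneg (hb.nonneg _), abs_mul, ← mul_add, ← mul_add]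
      refine mul_le_mul_of_nonneg_left ?_ (hb.nonneg _)
      refine (mul_le_of_le_one_right (abs_nonneg _) (hf _)).trans ?_
      have h3 := ginv_ind (P := good Y ρ κ v) (P' := good Y ρ κ (u ++ v)) (Q := Rg Y ρ κ n v)
        (Q' := Rg Y ρ κ n (u ++ v)) (fun hg => good_suffix hb hK hg)
      rw [add_assoc] at h3
      exact h3
    refine h1.trans ?_
    simp only [Y.E_fadd]
    have g1 : (Y.E m fun u => Y.E l fun v =>
        ρ (u ++ v) * (ind (good Y ρ κ v) - ind (good Y ρ κ (u ++ v)))) ≤ ε / 5 := by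
      rw [bn_local hb hK κ m l]
      have g2 := bn_le_bb hb hK hκ.le (m + l)
      have g3 := bn_mono hb hK κ (show j ≤ l by omega)
      linarith
    have g4 : (Y.E m fun u => Y.E l fun v => ρ (u ++ v) * ind (¬ Rg Y ρ κ n v)) ≤ ε / 5 := by
      rw [Y.E_comm]
      have g5 : (Y.E l fun v => Y.E m fun u => ρ (u ++ v) * ind (¬ Rg Y ρ κ n v)) =
          Y.E l fun v => ρ v * ind (¬ Rg Y ρ κ n v) := by
        refine Y.E_congr fun v _ => ?_
        rw [Y.E_mul_right, hb.left]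
      rw [g5]
      exact hn₁ n hn1 l (by omega)
    have g6 : (Y.E m fun u => Y.E l fun v => ρ (u ++ v) * ind (¬ Rg Y ρ κ n (u ++ v))) ≤
        ε / 5 := by
      have g7 := hn₁ n hn1 (m + l) (by omega)
      rwa [Y.E_add] at g7
    linarith
  have h9 : A - C = (A - B) + (B - C) := by ring
  rw [h9]
  refine (abs_add_le _ _).trans ?_
  linarith

private theorem ginv_tel (F : ℕ → ℝ) (hF : ∀ l, |F l| ≤ 1) (s t m : ℕ) :
    |∑ l ∈ Ico s t, F l - ∑ l ∈ Ico s t, F (m + l)| ≤ 2 * m := by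
  induction m with
  | zero => simp
  | succ m ih =>
    have h1 : |∑ l ∈ Ico s t, F (m + l) - ∑ l ∈ Ico s t, F (m + 1 + l)| ≤ 2 := by
      rcases le_or_gt t s with hst | hst
      · rw [Finset.Ico_eq_empty_of_le hst]
        simp
      · have h2 : ∑ l ∈ Ico s t, F (m + 1 + l) = ∑ l ∈ Ico (s + 1) (t + 1), F (m + l) := by
          rw [← Finset.sum_Ico_add' (fun l => F (m + l)) s t 1]
          exact Finset.sum_congr rfl fun l _ => by rw [show m + 1 + l = m + (l + 1) by ring]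
        have h3 := Finset.sum_Ico_succ_top (show s ≤ t by omega) fun l => F (m + l)
        have h4 := Finset.sum_eq_sum_Ico_succ_bot (show s < t + 1 by omega) fun l => F (m + l)
        rw [h2]
        have h5 : ∑ l ∈ Ico s t, F (m + l) - ∑ l ∈ Ico (s + 1) (t + 1), F (m + l) =
            F (m + s) - F (m + t) := by linarith
        rw [h5]
        have h6 := abs_le.1 (hF (m + s))
        have h7 := abs_le.1 (hF (m + t))
        rw [abs_le]
        constructor <;> linarith [h6.1, h6.2, h7.1, h7.2]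
    have h8 : ∑ l ∈ Ico s t, F l - ∑ l ∈ Ico s t, F (m + 1 + l) =
        (∑ l ∈ Ico s t, F l - ∑ l ∈ Ico s t, F (m + l)) +
          (∑ l ∈ Ico s t, F (m + l) - ∑ l ∈ Ico s t, F (m + 1 + l)) := by ring
    rw [h8]
    refine (abs_add_le _ _).trans ?_
    push_cast
    linarith

/-- GINV. (4f) NEAR INVARIANCE under convolution with the law of a short word. The constant `C`
depends on `D`, `T`; the bound holds for all `m`. Proof: `Fm.dual` with `B` from `sm_PR_le` (the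
convolution with a probability law has the same bound), `L = 1 / (2 (1 - a)) ≥ L₀` for `a ≥ a₀`,
and `δ = 2 m + T N ε`: the sum over `l ∈ [4 n, T N)` of `left_ext`, and
`|Σ_l F l - Σ_l F (m + l)| ≤ 2 m` for `|F| ≤ 1`. `C = 4 D (1 + Λ K / κ)^T / κ * (2 + T)`. -/
theorem near_inv (h : Erg Y Λ K ρ) (hπ : Stp Y π) (hκ : 0 < κ) (hκK : κ * K ≤ 1 / 8) {D : ℕ}
    (hD : 4 ≤ D) (T : ℕ) :
    ∃ C : ℝ, 0 < C ∧ ∀ ε : ℝ, 0 < ε → ∃ a₀ : ℝ, a₀ < 1 ∧ ∃ N₀ : ℕ, ∀ a : ℝ, a₀ ≤ a → 0 < a →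
      a < 1 → ∀ N ≥ N₀, ∀ m : ℕ,
      Fm.en a (Fm.sub (PR Y π ρ κ (N / D) (T * N))
          (Fm.conv (lw Y π ρ m) (PR Y π ρ κ (N / D) (T * N))))
        (Fm.sub (PR Y π ρ κ (N / D) (T * N))
          (Fm.conv (lw Y π ρ m) (PR Y π ρ κ (N / D) (T * N)))) ≤
        C * ((m : ℝ) / N + ε) * EE Y π ρ κ a N := by
  have hb := h.bulk
  have hK := h.a_le
  have hΛ : 0 < Λ := hb.pos
  have hK0 : 0 < K := lt_of_lt_of_le one_pos ((h.a_ge 0).trans (h.a_le 0))
  have hD0 : (0 : ℝ) < D := by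
    have : 0 < D := by omega
    exact_mod_cast this
  set C₀ : ℝ := 4 * D * (1 + Λ * K / κ) ^ T / κ with hC₀
  have hC₀pos : 0 < C₀ := by positivity
  refine ⟨C₀ * (2 + T), by positivity, fun ε hε => ?_⟩
  obtain ⟨L₀, hL₀, n₀, hl⟩ := left_ext (π := π) h hπ hκ hκK hε
  have hL₀' : 0 < 1 / (2 * L₀) := by positivity
  refine ⟨1 - 1 / (2 * L₀), by linarith, D * (n₀ + 1), fun a haa ha0 ha1 N hN m => ?_⟩
  have hN1 : D ≤ N := le_trans (Nat.le_mul_of_pos_right D (Nat.succ_pos n₀)) hN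
  have hNpos : 0 < N := by omega
  have hNR : (0 : ℝ) < N := by exact_mod_cast hNpos
  have hn : n₀ ≤ N / D := by
    rw [Nat.le_div_iff_mul_le (by omega), Nat.mul_comm]
    exact le_trans (Nat.mul_le_mul_left D (Nat.le_succ n₀)) hN
  have ha1' : 0 < 1 - a := by linarith
  set n : ℕ := N / D with hndef
  set P : Fm k := PR Y π ρ κ n (T * N) with hP
  set L : ℝ := 1 / (2 * (1 - a)) with hL
  have hLL : L₀ ≤ L := by
    rw [hL, le_div_iff₀ (by positivity)]
    have h1 : 1 - a ≤ 1 / (2 * L₀) := by linarith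
    have h2 := mul_le_mul_of_nonneg_left h1 (show (0 : ℝ) ≤ 2 * L₀ by positivity)
    rw [mul_one_div_cancel (by positivity)] at h2
    linarith
  have hEE : 0 ≤ EE Y π ρ κ a N := EE_nonneg ha0 ha1 N
  have hPn : P.Nn := nn_PR hb n (T * N)
  have hpn : (lw Y π ρ m).Nn := nn_lw Y π hb.nonneg m
  have hBB : ∀ z, Fm.sm a P z ≤ C₀ * (EE Y π ρ κ a N / N) := fun z =>
    sm_PR_le hb hK hκ ha0 ha1 (by omega) hN1 T z
  have hBB' : ∀ z, Fm.sm a (Fm.conv (lw Y π ρ m) P) z ≤ C₀ * (EE Y π ρ κ a N / N) := by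
    intro z
    unfold Fm.sm
    rw [Fm.pr_conv]
    have h1 : ∀ x, (P.pr fun y => ker a (z - (x + y))) ≤ C₀ * (EE Y π ρ κ a N / N) := by
      intro x
      have h2 := hBB (z - x)
      unfold Fm.sm at h2
      have h3 : (P.pr fun y => ker a (z - (x + y))) = P.pr fun y => ker a (z - x - y) :=
        P.pr_congr fun y => by rw [sub_sub]
      rw [h3]
      exact h2
    have h4 := hpn.pr_le h1
    rw [mass_lw, hb.mass, one_mul] at h4
    exact h4
  have hmain := Fm.dual ha0 ha1 hPn (hpn.conv hPn) (B := C₀ * (EE Y π ρ κ a N / N))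
    (δ := 2 * m + T * N * ε) hBB hBB' ?_
  · refine hmain.trans ?_
    have h1 : C₀ * (EE Y π ρ κ a N / N) * (2 * m + T * N * ε) =
        C₀ * EE Y π ρ κ a N * (2 * (m / N) + T * ε) := by
      field_simp
    rw [h1]
    have h2 : (0 : ℝ) ≤ m / N := by positivity
    have h3 : 2 * ((m : ℝ) / N) + T * ε ≤ (2 + T) * (m / N + ε) := by
      have h4 : (0 : ℝ) ≤ T := Nat.cast_nonneg T
      nlinarith [mul_nonneg h4 h2]
    have h5 : 0 ≤ C₀ * EE Y π ρ κ a N := mul_nonneg hC₀pos.le hEE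
    calc C₀ * EE Y π ρ κ a N * (2 * (m / N) + T * ε)
        ≤ C₀ * EE Y π ρ κ a N * ((2 + T) * (m / N + ε)) := mul_le_mul_of_nonneg_left h3 h5
      _ = C₀ * (2 + T) * (m / N + ε) * EE Y π ρ κ a N := by ring
  · intro f hf hlip
    set F : ℕ → ℝ := fun l => Y.E l fun w =>
      ρ w * ind (good Y ρ κ w ∧ Rg Y ρ κ n w) * f (π (Y.sm w)) with hF
    set G : ℕ → ℝ := fun l => Y.E m fun u => ρ u * Y.E l fun v =>
      ρ v * ind (good Y ρ κ v ∧ Rg Y ρ κ n v) * f (π (Y.sm u) + π (Y.sm v)) with hG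
    have hF1 : ∀ l, |F l| ≤ 1 := by
      intro l
      refine (Y.E_abs _ _).trans ?_
      rw [← hb.mass l]
      refine Y.E_mono fun w _ => ?_
      rw [abs_mul, abs_mul, abs_of_nonneg (hb.nonneg w), abs_of_nonneg (ind_nonneg _), mul_assoc]
      exact mul_le_of_le_one_right (hb.nonneg w)
        (mul_le_one₀ (ind_le_one _) (abs_nonneg _) (hf _))
    have h1 : P.pr f = ∑ l ∈ Ico (4 * n) (T * N), F l := by
      rw [hP]
      unfold PR
      rw [Fm.pr_bs]
      refine Finset.sum_congr rfl fun l _ => ?_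
      rw [pr_lw]
    have h2 : (Fm.conv (lw Y π ρ m) P).pr f = ∑ l ∈ Ico (4 * n) (T * N), G l := by
      rw [Fm.pr_conv, pr_lw]
      have h3 : ∀ x : Zk k, (P.pr fun y => f (x + y)) = ∑ l ∈ Ico (4 * n) (T * N),
          Y.E l fun v => ρ v * ind (good Y ρ κ v ∧ Rg Y ρ κ n v) * f (x + π (Y.sm v)) := by
        intro x
        rw [hP]
        unfold PR
        rw [Fm.pr_bs]
        refine Finset.sum_congr rfl fun l _ => ?_
        rw [pr_lw]
      simp only [h3, Finset.mul_sum]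
      rw [Y.E_fsum]
    rw [h1, h2]
    have h4 := (abs_le.1 (ginv_tel F hF1 (4 * n) (T * N) m)).2
    have h5 : ∑ l ∈ Ico (4 * n) (T * N), F (m + l) - ∑ l ∈ Ico (4 * n) (T * N), G l ≤
        T * N * ε := by
      rw [← Finset.sum_sub_distrib]
      have h6 : ∀ l ∈ Ico (4 * n) (T * N), F (m + l) - G l ≤ ε := by
        intro l hl'
        rw [Finset.mem_Ico] at hl'
        exact (le_abs_self _).trans (hl L hLL n hn l hl'.1 m f hf hlip)
      have h7 := Finset.sum_le_card_nsmul _ _ _ h6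
      rw [Nat.card_Ico, nsmul_eq_mul] at h7
      refine h7.trans (mul_le_mul_of_nonneg_right ?_ hε.le)
      have h8 : T * N - 4 * n ≤ T * N := Nat.sub_le _ _
      have h9 : ((T * N - 4 * n : ℕ) : ℝ) ≤ ((T * N : ℕ) : ℝ) := by exact_mod_cast h8
      push_cast at h9
      exact h9
    linarith

end Pool.Agent.SawM2
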