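import Pool.Agent.SawM2.GAv
import Pool.Agent.SawM2.GInv

/-!
# The energy outside the set of small means (section 4g)
-/

set_option autoImplicit false

namespace Pool.Agent.SawM2

open Finset Filter MeasureTheory Pool.Agent.Bub4 Pool.Agent.SawDiff

variable {S V : Type} [Fintype S] [AddCommGroup V] {Y : Sys S V} {Λ K : ℝ} {ρ : List S → ℝ}
  {k : ℕ} {π : V →+ Zk k} {κ a : ℝ}

/-- GEAV. (4g) the energy outside `{Av ≤ r}`. Where `Av > r`: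
`1 ≤ r⁻² Av² ≤ r⁻² M⁻¹ Σ_{m < M} ‖1 - φ_m‖²` (Cauchy-Schwarz), so the integral is at most
`r⁻² M⁻¹ Σ_{m < M} ∫_{bx} hk ‖1 - φ_m‖² ‖P̂‖² = r⁻² M⁻¹ Σ_m (2π)^k en (P - p_m * P)`
(`Fm.en_sub_conv`, `ph` is `ft (lw ρ m)`), `near_inv` with `m ≤ M`. -/
theorem energy_av (h : Erg Y Λ K ρ) (hπ : Stp Y π) (hκ : 0 < κ) (hκK : κ * K ≤ 1 / 8) {D : ℕ}
    (hD : 4 ≤ D) (T : ℕ) {r : ℝ} (hr : 0 < r) :
    ∃ C : ℝ, 0 < C ∧ ∀ ε : ℝ, 0 < ε → ∃ a₀ : ℝ, a₀ < 1 ∧ ∃ N₀ : ℕ, ∀ a : ℝ, a₀ ≤ a → 0 < a →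
      a < 1 → ∀ N ≥ N₀, ∀ M : ℕ, 1 ≤ M →
      (∫ θ in bx k ∩ {θ | r < Av Y π ρ M θ},
        hk a θ * ‖(PR Y π ρ κ (N / D) (T * N)).ft θ‖ ^ 2) ≤
        C * ((M : ℝ) / N + ε) * EE Y π ρ κ a N := by
  obtain ⟨C1, hC1, h1⟩ := near_inv h hπ hκ hκK hD T
  refine ⟨(r ^ 2)⁻¹ * (2 * Real.pi) ^ k * C1, by positivity, fun ε hε => ?_⟩
  obtain ⟨a₀, ha₀, N₀, h2⟩ := h1 ε hε
  refine ⟨a₀, ha₀, N₀, fun a haa ha0 ha1 N hN M hM => ?_⟩
  set P : Fm k := PR Y π ρ κ (N / D) (T * N) with hP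
  have hMpos : (0 : ℝ) < M := by exact_mod_cast hM
  have hEE : 0 ≤ EE Y π ρ κ a N := EE_nonneg ha0 ha1 N
  have hcomp : IsCompact (bx k) := isCompact_univ_pi fun _ => isCompact_Icc
  have hph : ∀ m, Continuous (ph Y π ρ m) := fun m => (lw Y π ρ m).continuous_ft
  set A : Set (Rk k) := {θ | r < Av Y π ρ M θ} with hA
  have hAo : IsOpen A := isOpen_lt continuous_const (continuous_Av M)
  have hAm : MeasurableSet (bx k ∩ A) := hcomp.measurableSet.inter hAo.measurableSet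
  -- the integrands
  set F : ℕ → Rk k → ℝ := fun m θ => hk a θ * (‖1 - ph Y π ρ m θ‖ ^ 2 * ‖P.ft θ‖ ^ 2) with hF
  have hFc : ∀ m, Continuous (F m) := fun m =>
    (continuous_hk ha0 ha1).mul (((continuous_const.sub (hph m)).norm.pow 2).mul
      (P.continuous_ft.norm.pow 2))
  have hFi : ∀ m, IntegrableOn (F m) (bx k) volume := fun m =>
    (hFc m).continuousOn.integrableOn_compact hcomp
  have hF0 : ∀ m θ, 0 ≤ F m θ := fun m θ => mul_nonneg (hk_pos ha0 ha1 θ).le (by positivity)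
  have hLc : Continuous fun θ : Rk k => hk a θ * ‖P.ft θ‖ ^ 2 :=
    (continuous_hk ha0 ha1).mul (P.continuous_ft.norm.pow 2)
  have hLi : IntegrableOn (fun θ : Rk k => hk a θ * ‖P.ft θ‖ ^ 2) (bx k) volume :=
    hLc.continuousOn.integrableOn_compact hcomp
  have hSi : IntegrableOn (fun θ => (r ^ 2)⁻¹ * ((M : ℝ)⁻¹ * ∑ m ∈ range M, F m θ)) (bx k)
      volume := by
    have hc' : Continuous fun θ : Rk k => (r ^ 2)⁻¹ * ((M : ℝ)⁻¹ * ∑ m ∈ range M, F m θ) :=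
      continuous_const.mul (continuous_const.mul (continuous_finsetSum _ fun m _ => hFc m))
    exact hc'.continuousOn.integrableOn_compact hcomp
  have hpt : ∀ θ ∈ bx k ∩ A, hk a θ * ‖P.ft θ‖ ^ 2 ≤
      (r ^ 2)⁻¹ * ((M : ℝ)⁻¹ * ∑ m ∈ range M, F m θ) := by
    intro θ hθ
    have h3 : r < Av Y π ρ M θ := hθ.2
    have h4 : Av Y π ρ M θ ^ 2 ≤ (M : ℝ)⁻¹ * ∑ m ∈ range M, ‖1 - ph Y π ρ m θ‖ ^ 2 := by
      unfold Av
      have h5 := sq_sum_le_card_mul_sum_sq (s := range M) (f := fun m => ‖1 - ph Y π ρ m θ‖)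
      rw [Finset.card_range] at h5
      rw [mul_pow]
      have h6 : ((M : ℝ)⁻¹) ^ 2 * (∑ m ∈ range M, ‖1 - ph Y π ρ m θ‖) ^ 2 ≤
          ((M : ℝ)⁻¹) ^ 2 * ((M : ℝ) * ∑ m ∈ range M, ‖1 - ph Y π ρ m θ‖ ^ 2) :=
        mul_le_mul_of_nonneg_left h5 (by positivity)
      refine h6.trans (le_of_eq ?_)
      field_simp
    have h7 : 1 ≤ (r ^ 2)⁻¹ * ((M : ℝ)⁻¹ * ∑ m ∈ range M, ‖1 - ph Y π ρ m θ‖ ^ 2) := by
      have h8 : r ^ 2 ≤ Av Y π ρ M θ ^ 2 := pow_le_pow_left₀ hr.le h3.le 2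
      have h9 : r ^ 2 ≤ (M : ℝ)⁻¹ * ∑ m ∈ range M, ‖1 - ph Y π ρ m θ‖ ^ 2 := h8.trans h4
      have h10 := mul_le_mul_of_nonneg_left h9 (show 0 ≤ (r ^ 2)⁻¹ by positivity)
      rwa [inv_mul_cancel₀ (by positivity)] at h10
    have h11 : 0 ≤ hk a θ * ‖P.ft θ‖ ^ 2 := mul_nonneg (hk_pos ha0 ha1 θ).le (by positivity)
    have h12 := mul_le_mul_of_nonneg_left h7 h11
    rw [mul_one] at h12
    refine h12.trans (le_of_eq ?_)
    rw [hF]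
    simp only
    rw [Finset.mul_sum, Finset.mul_sum, Finset.mul_sum, Finset.mul_sum, Finset.mul_sum]
    exact Finset.sum_congr rfl fun m _ => by ring
  have h3 : (∫ θ in bx k ∩ A, hk a θ * ‖P.ft θ‖ ^ 2) ≤
      ∫ θ in bx k, (r ^ 2)⁻¹ * ((M : ℝ)⁻¹ * ∑ m ∈ range M, F m θ) := by
    refine (setIntegral_mono_on (hLi.mono_set Set.inter_subset_left)
      (hSi.mono_set Set.inter_subset_left) hAm hpt).trans ?_
    refine setIntegral_mono_set hSi ?_ Set.inter_subset_left.eventuallyLE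
    refine Eventually.of_forall fun θ => ?_
    have := Finset.sum_nonneg fun m (_ : m ∈ range M) => hF0 m θ
    positivity
  refine h3.trans ?_
  have h4 : (∫ θ in bx k, (r ^ 2)⁻¹ * ((M : ℝ)⁻¹ * ∑ m ∈ range M, F m θ)) =
      (r ^ 2)⁻¹ * ((M : ℝ)⁻¹ * ∑ m ∈ range M, (2 * Real.pi) ^ k *
        Fm.en a (Fm.sub P (Fm.conv (lw Y π ρ m) P)) (Fm.sub P (Fm.conv (lw Y π ρ m) P))) := by
    rw [integral_const_mul, integral_const_mul, integral_finsetSum _ fun m _ => hFi m]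
    congr 2
    refine Finset.sum_congr rfl fun m _ => ?_
    rw [Fm.en_sub_conv ha0 ha1]
    rfl
  rw [h4]
  have h5 : ∑ m ∈ range M, (2 * Real.pi) ^ k *
      Fm.en a (Fm.sub P (Fm.conv (lw Y π ρ m) P)) (Fm.sub P (Fm.conv (lw Y π ρ m) P)) ≤
      ∑ _m ∈ range M, (2 * Real.pi) ^ k * (C1 * ((M : ℝ) / N + ε) * EE Y π ρ κ a N) := by
    refine Finset.sum_le_sum fun m hm => mul_le_mul_of_nonneg_left ?_ (by positivity)
    refine (h2 a haa ha0 ha1 N hN m).trans ?_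
    refine mul_le_mul_of_nonneg_right ?_ hEE
    refine mul_le_mul_of_nonneg_left ?_ hC1.le
    have h6 : (m : ℝ) ≤ M := by exact_mod_cast (Finset.mem_range.1 hm).le
    have h7 : (m : ℝ) / N ≤ (M : ℝ) / N := div_le_div_of_nonneg_right h6 (Nat.cast_nonneg N)
    linarith
  rw [Finset.sum_const, Finset.card_range, nsmul_eq_mul] at h5
  have h8 := mul_le_mul_of_nonneg_left (mul_le_mul_of_nonneg_left h5
    (show 0 ≤ (M : ℝ)⁻¹ by positivity)) (show 0 ≤ (r ^ 2)⁻¹ by positivity)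
  refine h8.trans (le_of_eq ?_)
  field_simp

end Pool.Agent.SawM2
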