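import Pool.Agent.SawM2.GDbl

/-!
# Irregular words have small energy (section 4c)
-/

set_option autoImplicit false

namespace Pool.Agent.SawM2

open Finset Filter Pool.Agent.Bub4 Pool.Agent.SawDiff

variable {S V : Type} [Fintype S] [AddCommGroup V] {Y : Sys S V} {Λ K : ℝ} {ρ : List S → ℝ}
  {k : ℕ} {π : V →+ Zk k} {κ a : ℝ}

/-- GIRR. (4c) the good irregular words have small energy. `nr_stop` with
`B w = (2 n ≤ |w| ∧ ¬ Rg n w)` (stable by `Rg_append`), `m = 0`, and the masses from `irr_UU_le` for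
`δ = κ ε` (lengths less than `2 n`: mass `0`). -/
theorem nr_irr_le (h : Erg Y Λ K ρ) (hκ : 0 < κ) (hκK : κ * K ≤ 1 / 8) {ε : ℝ} (hε : 0 < ε) :
    ∃ n₀ : ℕ, ∀ n ≥ n₀, ∀ (M : ℕ) (a : ℝ), 0 < a → a < 1 →
      Fm.nr a (Fm.bs (range M) (lw Y π fun w => UU Y ρ w *
        ind (good Y ρ κ w ∧ (2 * n ≤ w.length ∧ ¬ Rg Y ρ κ n w)))) ≤
      ε * Fm.nr a (GU Y π ρ κ M) := by
  obtain ⟨n₀, hn₀⟩ := irr_UU_le h hκ.le hκK (show 0 < κ * ε by positivity)
  refine ⟨n₀, fun n hn M a ha0 ha1 => ?_⟩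
  have hB : ∀ (w : List S) (i : ℕ),
      (2 * n ≤ (w.take i).length ∧ ¬ Rg Y ρ κ n (w.take i)) →
        (2 * n ≤ w.length ∧ ¬ Rg Y ρ κ n w) := by
    rintro w i ⟨h1, h2⟩
    refine ⟨h1.trans (by rw [List.length_take]; exact min_le_right _ _), fun h3 => h2 ?_⟩
    rw [← List.take_append_drop i w] at h3
    exact (Rg_append h1 _).1 h3
  have hm : ∀ w : List S, (2 * n ≤ w.length ∧ ¬ Rg Y ρ κ n w) → 0 ≤ w.length :=
    fun w _ => Nat.zero_le _
  have hε' : ∀ n' < M, (Y.E n' fun w => UU Y ρ w *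
      ind (2 * n ≤ w.length ∧ ¬ Rg Y ρ κ n w)) ≤ κ * ε := by
    intro n' _
    by_cases h2 : 2 * n ≤ n'
    · refine le_trans (Y.E_mono fun w _ => ?_) (hn₀ n hn n' h2)
      exact mul_le_mul_of_nonneg_left (ind_mono fun hw => hw.2) (UU_nonneg h.bulk h.a_le w)
    · have h3 : (Y.E n' fun w => UU Y ρ w *
          ind (2 * n ≤ w.length ∧ ¬ Rg Y ρ κ n w)) = Y.E n' fun _ => 0 := by
        refine Y.E_congr fun w hw => ?_
        rw [ind_not (fun hc => h2 (hw ▸ hc.1)), mul_zero]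
      rw [h3, Y.E_zero_fun]
      positivity
  have key := nr_stop (π := π) h.bulk h.a_le hκ ha0 ha1 (m := 0) (M := M) (ε := κ * ε)
    (by positivity) hB hm hε'
  rw [Nat.sub_zero, inv_mul_cancel_left₀ hκ.ne'] at key
  exact key

/-- GIRR. (4c) the good words with a prefix for which `U` is much larger than `ρ` have small energy.
`nr_stop` with `B w = ∃ i ≤ |w|, C₁ ρ (w.take i) < U (w.take i)`, `m = 0`, and `UU_tau`. -/
theorem nr_tau_le (h : Bulk Y Λ ρ) (hK : ∀ n, Y.a n ≤ K) (hκ : 0 < κ) {ε : ℝ} (hε : 0 < ε) :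
    ∃ C₁ : ℝ, 1 ≤ C₁ ∧ ∀ (M : ℕ) (a : ℝ), 0 < a → a < 1 →
      Fm.nr a (Fm.bs (range M) (lw Y π fun w => UU Y ρ w *
        ind (good Y ρ κ w ∧ ∃ i ≤ w.length, C₁ * ρ (w.take i) < UU Y ρ (w.take i)))) ≤
      ε * Fm.nr a (GU Y π ρ κ M) := by
  obtain ⟨C₁, hC₁, h1⟩ := UU_tau h hK (show 0 < κ * ε by positivity)
  refine ⟨C₁, hC₁, fun M a ha0 ha1 => ?_⟩
  have hB : ∀ (w : List S) (j : ℕ),
      (∃ i ≤ (w.take j).length, C₁ * ρ ((w.take j).take i) < UU Y ρ ((w.take j).take i)) →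
        ∃ i ≤ w.length, C₁ * ρ (w.take i) < UU Y ρ (w.take i) := by
    rintro w j ⟨i, hi, h2⟩
    rw [List.length_take] at hi
    rw [List.take_take, min_eq_left (hi.trans (min_le_left _ _))] at h2
    exact ⟨i, hi.trans (min_le_right _ _), h2⟩
  have hm : ∀ w : List S, (∃ i ≤ w.length, C₁ * ρ (w.take i) < UU Y ρ (w.take i)) →
      0 ≤ w.length := fun w _ => Nat.zero_le _
  have hε' : ∀ n' < M, (Y.E n' fun w => UU Y ρ w *
      ind (∃ i ≤ w.length, C₁ * ρ (w.take i) < UU Y ρ (w.take i))) ≤ κ * ε := by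
    intro n' _
    refine le_trans (le_of_eq ?_) (h1 n')
    refine Y.E_congr fun w hw => ?_
    rw [hw]
  have key := nr_stop (π := π) h hK hκ ha0 ha1 (m := 0) (M := M) (ε := κ * ε)
    (by positivity) hB hm hε'
  rw [Nat.sub_zero, inv_mul_cancel_left₀ hκ.ne'] at key
  exact key

end Pool.Agent.SawM2
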