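import Pool.Agent.SawM2.GDbl

/-!
# Lower bound of the energies (section 4a)
-/

set_option autoImplicit false

namespace Pool.Agent.SawM2

open Finset Filter Pool.Agent.Bub4 Pool.Agent.SawDiff

variable {S V : Type} [Fintype S] [AddCommGroup V] {Y : Sys S V} {Λ K : ℝ} {ρ : List S → ℝ}
  {k : ℕ} {π : V →+ Zk k} {κ a : ℝ}

/-- the pointwise bound behind Markov's inequality -/
private theorem GLow_pt {r u : ℝ} (hr : 0 ≤ r) (hu : r ≤ u) (P : Prop) {R : ℕ} (x : Zk k) :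
    r - r * ind (¬ P) - ∑ i, r * |((x i : ℤ) : ℝ)| * ((R : ℝ) + 1)⁻¹ ≤
      u * ind P * ind (∀ i, |x i| ≤ (R : ℤ)) := by
  have hs : 0 ≤ ∑ i, r * |((x i : ℤ) : ℝ)| * ((R : ℝ) + 1)⁻¹ :=
    Finset.sum_nonneg fun i _ => by positivity
  by_cases hP : P
  · rw [ind_of hP, ind_not (not_not.2 hP), mul_zero, sub_zero, mul_one]
    by_cases hx : ∀ i, |x i| ≤ (R : ℤ)
    · rw [ind_of hx, mul_one]
      linarith
    · rw [ind_not hx, mul_zero]
      push Not at hx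
      obtain ⟨i, hi⟩ := hx
      have h1 : ((R : ℝ) + 1) ≤ |((x i : ℤ) : ℝ)| := by
        have h2 : (R : ℤ) + 1 ≤ |x i| := hi
        have h3 : (((R : ℤ) + 1 : ℤ) : ℝ) ≤ ((|x i| : ℤ) : ℝ) := by exact_mod_cast h2
        push_cast at h3
        exact h3
      have h2 : r * |((x i : ℤ) : ℝ)| * ((R : ℝ) + 1)⁻¹ ≤
          ∑ i, r * |((x i : ℤ) : ℝ)| * ((R : ℝ) + 1)⁻¹ :=
        Finset.single_le_sum (f := fun i => r * |((x i : ℤ) : ℝ)| * ((R : ℝ) + 1)⁻¹)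
          (fun i _ => by positivity) (Finset.mem_univ i)
      have h3 : r ≤ r * |((x i : ℤ) : ℝ)| * ((R : ℝ) + 1)⁻¹ := by
        rw [mul_assoc]
        refine le_mul_of_one_le_right hr ?_
        rw [← div_eq_mul_inv, one_le_div (by positivity)]
        exact h1
      linarith
  · rw [ind_not hP, ind_of hP, mul_one, sub_self, mul_zero, zero_mul]
    linarith

/-- GLOW. (4a) LOWER. If the coordinates of the displacement have mean absolute value at most `A` for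
all lengths less than `N`, the energy is large. Proof: `Fm.en_ge_box` for `GU N` with
`R = ⌈8 k A⌉₊`, `2 R + 1 ≤ 16 k A + 3`; the mass of `GU N` in the box is at least
`Σ_{n < N} E n ρ ind (good) ind (box)` (`le_UU`) `≥ N (1 - 1/8 - 1/8)`: `bad_le`, and by Markov
`P(|X_i| ≥ R + 1) ≤ A / (R + 1)`, sum over `i`: `k A / (R + 1) ≤ 1/8`. `(3/4)² ≥ 1/2`. -/
theorem EE_ge (h : Bulk Y Λ ρ) (hK : ∀ n, Y.a n ≤ K) (hκ : 0 < κ) (hκK : κ * K ≤ 1 / 8)
    (ha0 : 0 < a) (ha1 : a < 1) {N : ℕ} {A : ℝ} (hA : 0 ≤ A)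
    (hX : ∀ n < N, ∀ i : Fin k, (Y.E n fun w => ρ w * |((π (Y.sm w) i : ℤ) : ℝ)|) ≤ A) :
    1 / 2 * (N : ℝ) ^ 2 ≤ (16 * k * A + 3) ^ k * EE Y π ρ κ a N := by
  obtain ⟨R, hR⟩ : ∃ R : ℕ, R = ⌈8 * k * A⌉₊ := ⟨_, rfl⟩
  have hkA : 0 ≤ 8 * (k : ℝ) * A := by positivity
  have hR1 : 8 * k * A ≤ (R : ℝ) := by rw [hR]; exact Nat.le_ceil _
  have hR2 : (R : ℝ) < 8 * k * A + 1 := by rw [hR]; exact Nat.ceil_lt_add_one hkA
  have hbox := Fm.en_ge_box ha0 (nn_GU (π := π) (κ := κ) h hK N) R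
  -- the mass in the box
  have hmass : 3 / 4 * (N : ℝ) ≤
      (GU Y π ρ κ N).pr fun x => ind (∀ i, |x i| ≤ (R : ℤ)) := by
    unfold GU
    rw [Fm.pr_bs]
    have h1 : ∀ n ∈ range N, (3 / 4 : ℝ) ≤
        (lw Y π (fun w => UU Y ρ w * ind (good Y ρ κ w)) n).pr
          fun x => ind (∀ i, |x i| ≤ (R : ℤ)) := by
      intro n hn
      rw [Finset.mem_range] at hn
      rw [pr_lw]
      have h2 : (Y.E n fun w => ρ w - ρ w * ind (¬ good Y ρ κ w) -
          ∑ i, ρ w * |((π (Y.sm w) i : ℤ) : ℝ)| * ((R : ℝ) + 1)⁻¹) ≤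
          Y.E n fun w => UU Y ρ w * ind (good Y ρ κ w) *
            ind (∀ i, |π (Y.sm w) i| ≤ (R : ℤ)) :=
        Y.E_mono fun w _ => GLow_pt (h.nonneg w) (le_UU h hK w) _ _
      refine le_trans ?_ h2
      rw [Y.E_fsub, Y.E_fsub, Y.E_fsum_univ]
      have h3 : Y.E n (fun w => ρ w) = 1 := h.mass n
      have h4 := bad_le h hK hκ.le n
      have h5 : ∑ i : Fin k, (Y.E n fun w => ρ w * |((π (Y.sm w) i : ℤ) : ℝ)| *
          ((R : ℝ) + 1)⁻¹) ≤ 1 / 8 := by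
        have h6 : ∀ i ∈ (Finset.univ : Finset (Fin k)),
            (Y.E n fun w => ρ w * |((π (Y.sm w) i : ℤ) : ℝ)| * ((R : ℝ) + 1)⁻¹) ≤
              A * ((R : ℝ) + 1)⁻¹ := by
          intro i _
          rw [Y.E_mul_right]
          exact mul_le_mul_of_nonneg_right (hX n hn i) (by positivity)
        refine (Finset.sum_le_sum h6).trans ?_
        rw [Finset.sum_const, Finset.card_univ, Fintype.card_fin, nsmul_eq_mul,
          ← div_eq_mul_inv, ← mul_div_assoc, div_le_iff₀ (by positivity)]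
        linarith
      rw [h3]
      linarith
    have h2 := Finset.sum_le_sum h1
    rw [Finset.sum_const, Finset.card_range, nsmul_eq_mul] at h2
    linarith
  have hN : (0 : ℝ) ≤ N := Nat.cast_nonneg N
  have hsq : (3 / 4 * (N : ℝ)) ^ 2 ≤ (2 * (R : ℝ) + 1) ^ k *
      Fm.en a (GU Y π ρ κ N) (GU Y π ρ κ N) :=
    (pow_le_pow_left₀ (by positivity) hmass 2).trans hbox
  have hen : 0 ≤ Fm.en a (GU Y π ρ κ N) (GU Y π ρ κ N) := by
    unfold Fm.en
    exact (nn_GU h hK N).pr_nonneg fun x => (nn_GU h hK N).pr_nonneg fun y =>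
      ker_nonneg ha0.le _
  have hpow : (2 * (R : ℝ) + 1) ^ k ≤ (16 * k * A + 3) ^ k :=
    pow_le_pow_left₀ (by positivity) (by linarith) k
  have hfin : (2 * (R : ℝ) + 1) ^ k * Fm.en a (GU Y π ρ κ N) (GU Y π ρ κ N) ≤
      (16 * k * A + 3) ^ k * EE Y π ρ κ a N :=
    mul_le_mul hpow (le_max_left _ _) hen (by positivity)
  nlinarith

end Pool.Agent.SawM2
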