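import Pool.Agent.SawM2.EnC
import Pool.Agent.SawM2.U7

/-!
# Measures of the good words (section 4): first facts, stopping
-/

set_option autoImplicit false

namespace Pool.Agent.SawM2

open Finset Filter Pool.Agent.Bub4 Pool.Agent.SawDiff

variable {S V : Type} [Fintype S] [AddCommGroup V] {Y : Sys S V} {Λ K : ℝ} {ρ : List S → ℝ}
  {k : ℕ} {π : V →+ Zk k} {κ a : ℝ}

theorem nn_GU (h : Bulk Y Λ ρ) (hK : ∀ n, Y.a n ≤ K) (M : ℕ) : (GU Y π ρ κ M).Nn :=
  Fm.Nn.bs fun _ _ => nn_lw Y π (fun w => mul_nonneg (UU_nonneg h hK w) (ind_nonneg _)) _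

theorem nn_PU (h : Bulk Y Λ ρ) (hK : ∀ n, Y.a n ≤ K) (n M : ℕ) : (PU Y π ρ κ n M).Nn :=
  Fm.Nn.bs fun _ _ => nn_lw Y π (fun w => mul_nonneg (UU_nonneg h hK w) (ind_nonneg _)) _

theorem nn_PR (h : Bulk Y Λ ρ) (n M : ℕ) : (PR Y π ρ κ n M).Nn :=
  Fm.Nn.bs fun _ _ => nn_lw Y π (fun w => mul_nonneg (h.nonneg w) (ind_nonneg _)) _

/-- sums over sets of lengths are monotone in the set and in the weight -/
theorem dom_bs {s t : Finset ℕ} (hst : s ⊆ t) {F G : List S → ℝ} (hG : ∀ w, 0 ≤ G w)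
    (hFG : ∀ n ∈ s, ∀ w : List S, w.length = n → F w ≤ G w) :
    (Fm.bs s (lw Y π F)).Dom (Fm.bs t (lw Y π G)) := by
  intro f hf
  rw [Fm.pr_bs, Fm.pr_bs]
  refine (Finset.sum_le_sum fun n hn => dom_lw Y π n (hFG n hn) f hf).trans ?_
  exact Finset.sum_le_sum_of_subset_of_nonneg hst fun n _ _ => (nn_lw Y π hG n).pr_nonneg hf

theorem dom_GU (h : Bulk Y Λ ρ) (hK : ∀ n, Y.a n ≤ K) {M M' : ℕ} (hM : M ≤ M') :
    (GU Y π ρ κ M).Dom (GU Y π ρ κ M') :=
  dom_bs (fun _ hi => Finset.mem_range.2 ((Finset.mem_range.1 hi).trans_le hM))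
    (fun w => mul_nonneg (UU_nonneg h hK w) (ind_nonneg _)) fun _ _ _ _ => le_rfl

theorem dom_PR_PU (h : Bulk Y Λ ρ) (hK : ∀ n, Y.a n ≤ K) (n M : ℕ) :
    (PR Y π ρ κ n M).Dom (PU Y π ρ κ n M) :=
  dom_bs subset_rfl (fun w => mul_nonneg (UU_nonneg h hK w) (ind_nonneg _)) fun _ _ w _ =>
    mul_le_mul_of_nonneg_right (le_UU h hK w) (ind_nonneg _)

theorem dom_PU_GU (h : Bulk Y Λ ρ) (hK : ∀ n, Y.a n ≤ K) (n M : ℕ) :
    (PU Y π ρ κ n M).Dom (GU Y π ρ κ M) :=
  dom_bs (fun _ hi => Finset.mem_range.2 (Finset.mem_Ico.1 hi).2)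
    (fun w => mul_nonneg (UU_nonneg h hK w) (ind_nonneg _)) fun _ _ w _ =>
    mul_le_mul_of_nonneg_left (ind_mono fun hw => hw.1) (UU_nonneg h hK w)

/-- the mass of `U` is at most `Λ K` -/
theorem E_UU_le (h : Bulk Y Λ ρ) (hK : ∀ n, Y.a n ≤ K) (n : ℕ) :
    (Y.E n fun w => UU Y ρ w) ≤ Λ * K := by
  have h1 := UU_right h hK [] n
  simp only [List.nil_append] at h1
  rw [h1]
  have h2 := UU_le h hK []
  rwa [Y.sv_nil, mul_one] at h2

theorem mass_PR_le (h : Bulk Y Λ ρ) (n M : ℕ) : (PR Y π ρ κ n M).mass ≤ M := by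
  unfold PR
  rw [Fm.mass_bs]
  have h1 : ∀ i ∈ Ico (4 * n) M,
      (lw Y π (fun w => ρ w * ind (good Y ρ κ w ∧ Rg Y ρ κ n w)) i).mass ≤ 1 := by
    intro i _
    rw [mass_lw, ← h.mass i]
    exact Y.E_mono fun w _ => mul_le_of_le_one_right (h.nonneg w) (ind_le_one _)
  refine (Finset.sum_le_sum h1).trans ?_
  rw [Finset.sum_const, Nat.card_Ico, nsmul_eq_mul, mul_one]
  exact_mod_cast Nat.sub_le _ _

/-- GSTOP. Stopping at the first good prefix in a class `B` which is stable under extension to the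
right. Proof: `P u = good u ∧ B u`, `Q = bs (range M) (lw (UU u * ind (Fst P u u.length)))`. Mass:
`E_Fst` and `sum_Fst` at length `M - 1`, `B` is stable. Domination: for `|w| = n < M` with `P w`
the sum over `i ≤ n` of `ind (Fst P w i)` is `1` (`sum_Fst`), `E n = E i E (n - i)` (`Y.E_add`),
`Fst_append`, `UU_mul_le`, `good_suffix`; the terms with `i < m` vanish; reorder the sum over
`n < M`, `i ≤ n` (`Finset.sum_range_diag_flip`). -/
theorem stop (h : Bulk Y Λ ρ) (hK : ∀ n, Y.a n ≤ K) (hκ : 0 < κ) {B : List S → Prop}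
    {m M : ℕ} {ε : ℝ} (hε0 : 0 ≤ ε) (hB : ∀ (w : List S) (i : ℕ), B (w.take i) → B w)
    (hm : ∀ w, B w → m ≤ w.length)
    (hε : ∀ n < M, (Y.E n fun w => UU Y ρ w * ind (B w)) ≤ ε) :
    ∃ Q : Fm k, Q.Nn ∧ Q.mass ≤ ε ∧
      (Fm.bs (range M) (lw Y π fun w => UU Y ρ w * ind (good Y ρ κ w ∧ B w))).Dom
        (Fm.smul κ⁻¹ (Fm.conv Q (GU Y π ρ κ (M - m)))) := by
  set P : List S → Prop := fun u => good Y ρ κ u ∧ B u with hP
  have hUn : ∀ w, 0 ≤ UU Y ρ w := UU_nonneg h hK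
  refine ⟨Fm.bs (range M) (lw Y π fun u => UU Y ρ u * ind (Fst P u u.length)), ?_, ?_, ?_⟩
  · exact Fm.Nn.bs fun _ _ => nn_lw Y π (fun w => mul_nonneg (hUn w) (ind_nonneg _)) _
  · rw [Fm.mass_bs]
    rcases Nat.eq_zero_or_pos M with rfl | hM
    · simpa using hε0
    obtain ⟨N, rfl⟩ : ∃ N, M = N + 1 := ⟨M - 1, by omega⟩
    have h1 : ∀ i ∈ range (N + 1),
        (lw Y π (fun u => UU Y ρ u * ind (Fst P u u.length)) i).mass =
        Y.E N fun w => UU Y ρ w * ind (Fst P w i) := by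
      intro i hi
      rw [mass_lw, E_Fst Y P (fun x n => UU_right h hK x n)
        (Nat.lt_succ_iff.1 (Finset.mem_range.1 hi))]
      exact Y.E_congr fun u hu => by rw [hu]
    rw [Finset.sum_congr rfl h1, ← Y.E_fsum]
    refine le_trans (Y.E_mono fun w _ => ?_) (hε N (Nat.lt_succ_self N))
    rw [← Finset.mul_sum, sum_Fst]
    exact mul_le_mul_of_nonneg_left (ind_mono fun ⟨i, _, hi⟩ => hB w i hi.2) (hUn w)
  · intro f hf
    set T : ℕ → ℕ → ℝ := fun i j => Y.E i fun u => UU Y ρ u * ind (Fst P u i) *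
      Y.E j fun v => UU Y ρ v * ind (good Y ρ κ v) * f (π (Y.sm u) + π (Y.sm v)) with hT
    have hTn : ∀ i j, 0 ≤ T i j := fun i j => Y.E_nonneg' fun u =>
      mul_nonneg (mul_nonneg (hUn u) (ind_nonneg _)) (Y.E_nonneg' fun v =>
        mul_nonneg (mul_nonneg (hUn v) (ind_nonneg _)) (hf _))
    have hT0 : ∀ i j, i < m → T i j = 0 := by
      intro i j hi
      have : ∀ u : List S, u.length = i → UU Y ρ u * ind (Fst P u i) *
          (Y.E j fun v => UU Y ρ v * ind (good Y ρ κ v) * f (π (Y.sm u) + π (Y.sm v))) = 0 := by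
        intro u hu
        rw [ind_not, mul_zero, zero_mul]
        intro hF
        have h2 := hF.1.2
        rw [List.take_of_length_le hu.le] at h2
        have := hm u h2
        omega
      simp only [hT]
      rw [Y.E_congr this, Y.E_zero_fun]
    -- the right side
    have hR : (Fm.smul κ⁻¹ (Fm.conv
        (Fm.bs (range M) (lw Y π fun u => UU Y ρ u * ind (Fst P u u.length)))
        (GU Y π ρ κ (M - m)))).pr f = κ⁻¹ * ∑ i ∈ range M, ∑ j ∈ range (M - m), T i j := by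
      rw [Fm.pr_smul, Fm.pr_conv, Fm.pr_bs]
      congr 1
      refine Finset.sum_congr rfl fun i _ => ?_
      rw [pr_lw]
      simp only [hT]
      rw [← Y.E_fsum]
      refine Y.E_congr fun u hu => ?_
      rw [hu, ← Finset.mul_sum]
      congr 1
      unfold GU
      rw [Fm.pr_bs]
      refine Finset.sum_congr rfl fun j _ => ?_
      rw [pr_lw]
    -- one length
    have hL : ∀ n ∈ range M, (lw Y π (fun w => UU Y ρ w * ind (good Y ρ κ w ∧ B w)) n).pr f ≤
        κ⁻¹ * ∑ i ∈ range (n + 1), T i (n - i) := by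
      intro n _
      rw [pr_lw]
      have h1 : (Y.E n fun w => UU Y ρ w * ind (good Y ρ κ w ∧ B w) * f (π (Y.sm w))) =
          ∑ i ∈ range (n + 1), Y.E n fun w =>
            UU Y ρ w * ind (P w) * f (π (Y.sm w)) * ind (Fst P w i) := by
        rw [← Y.E_fsum]
        refine Y.E_congr fun w hw => ?_
        rw [← Finset.mul_sum, sum_Fst]
        by_cases hPw : P w
        · rw [ind_of (show ∃ i ≤ n, P (w.take i) from
            ⟨n, le_rfl, by rwa [List.take_of_length_le hw.le]⟩), mul_one]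
        · rw [ind_not hPw]
          simp
      rw [h1, Finset.mul_sum]
      refine Finset.sum_le_sum fun i hi => ?_
      have hin : i ≤ n := Nat.lt_succ_iff.1 (Finset.mem_range.1 hi)
      have h2 : i + (n - i) = n := by omega
      have h3 := Y.E_add i (n - i) fun w =>
        UU Y ρ w * ind (P w) * f (π (Y.sm w)) * ind (Fst P w i)
      rw [h2] at h3
      rw [h3]
      simp only [hT]
      rw [← Y.E_mul_left]
      refine Y.E_mono fun u hu => ?_
      rw [← mul_assoc, ← Y.E_mul_left]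
      refine Y.E_mono fun v _ => ?_
      have h4 : Fst P (u ++ v) i ↔ Fst P u i := by
        rw [← hu]; exact Fst_append P u v
      rw [ind_congr h4]
      by_cases hF : Fst P u i
      · rw [ind_of hF, mul_one, mul_one]
        have h5 : P u := by
          have := hF.1
          rwa [List.take_of_length_le hu.le] at this
        have h6 := UU_mul_le h hK hκ v h5.1
        have h7 : ind (P (u ++ v)) ≤ ind (good Y ρ κ v) :=
          ind_mono fun hx => good_suffix h hK hx.1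
        have h8 : f (π (Y.sm (u ++ v))) = f (π (Y.sm u) + π (Y.sm v)) := by
          rw [Y.sm_append, map_add]
        rw [h8]
        have h9 := hf (π (Y.sm u) + π (Y.sm v))
        have h10 := hUn (u ++ v)
        have h11 := ind_nonneg (P (u ++ v))
        have h12 := ind_nonneg (good Y ρ κ v)
        calc UU Y ρ (u ++ v) * ind (P (u ++ v)) * f (π (Y.sm u) + π (Y.sm v)) ≤
            (κ⁻¹ * (UU Y ρ u * UU Y ρ v)) * ind (good Y ρ κ v) *
              f (π (Y.sm u) + π (Y.sm v)) :=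
              mul_le_mul_of_nonneg_right
                (mul_le_mul h6 h7 h11 (h10.trans h6)) h9
          _ = κ⁻¹ * UU Y ρ u * (UU Y ρ v * ind (good Y ρ κ v) *
              f (π (Y.sm u) + π (Y.sm v))) := by ring
      · rw [ind_not hF]
        simp
    rw [hR, Fm.pr_bs]
    refine (Finset.sum_le_sum hL).trans ?_
    rw [← Finset.mul_sum]
    refine mul_le_mul_of_nonneg_left ?_ (inv_nonneg.2 hκ.le)
    rw [Finset.sum_range_diag_flip M T]
    refine Finset.sum_le_sum fun i hi => ?_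
    rcases lt_or_ge i m with him | him
    · rw [Finset.sum_eq_zero fun j _ => hT0 i j him]
      exact Finset.sum_nonneg fun j _ => hTn i j
    · refine Finset.sum_le_sum_of_subset_of_nonneg ?_ fun j _ _ => hTn i j
      intro j hj
      rw [Finset.mem_range] at hj ⊢
      omega

/-- STOP for the norms -/
theorem nr_stop (h : Bulk Y Λ ρ) (hK : ∀ n, Y.a n ≤ K) (hκ : 0 < κ) (ha0 : 0 < a) (ha1 : a < 1)
    {B : List S → Prop} {m M : ℕ} {ε : ℝ} (hε0 : 0 ≤ ε)
    (hB : ∀ (w : List S) (i : ℕ), B (w.take i) → B w) (hm : ∀ w, B w → m ≤ w.length)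
    (hε : ∀ n < M, (Y.E n fun w => UU Y ρ w * ind (B w)) ≤ ε) :
    Fm.nr a (Fm.bs (range M) (lw Y π fun w => UU Y ρ w * ind (good Y ρ κ w ∧ B w))) ≤
      κ⁻¹ * ε * Fm.nr a (GU Y π ρ κ (M - m)) := by
  obtain ⟨Q, hQ, hQm, hdom⟩ := stop (π := π) h hK hκ hε0 hB hm hε
  have h1 : (Fm.smul κ⁻¹ (Fm.conv Q (GU Y π ρ κ (M - m)))).Nn :=
    (hQ.conv (nn_GU h hK _)).smul (inv_nonneg.2 hκ.le)
  refine (Fm.nr_mono ha0 (Fm.Nn.bs fun _ _ => nn_lw Y π
    (fun w => mul_nonneg (UU_nonneg h hK w) (ind_nonneg _)) _) h1 hdom).trans ?_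
  rw [Fm.nr_smul, abs_of_pos (inv_pos.2 hκ), mul_assoc]
  refine mul_le_mul_of_nonneg_left ?_ (inv_nonneg.2 hκ.le)
  refine (Fm.nr_conv_le ha0 ha1 hQ _).trans ?_
  exact mul_le_mul_of_nonneg_right hQm (Real.sqrt_nonneg _)

end Pool.Agent.SawM2
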