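import Mathlib

/-!
# Open semigroups (module GEO)
-/

set_option autoImplicit false

namespace Pool.Agent.SawM2

open Finset MeasureTheory

private theorem nsmul_mem_of_add {E : Type} [AddCommGroup E] {W : Set E}
    (hadd : ∀ x ∈ W, ∀ y ∈ W, x + y ∈ W) {x : E} (hx : x ∈ W) (n : ℕ) (hn : 0 < n) :
    n • x ∈ W := by
  induction n with
  | zero => exact absurd hn (lt_irrefl 0)
  | succ n ih =>
    rcases Nat.eq_zero_or_pos n with rfl | h
    · simpa using hx
    · rw [succ_nsmul]
      exact hadd _ (ih h) _ hx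

/-- GEO. An open additive semigroup of `ℝ^k` which does not contain `0` lies in an open half-space.
Proof: `0 ∉ convexHull ℝ W`: otherwise `0 = Σ_{i ∈ s} λ_i w_i` with `λ_i > 0`, `Σ λ_i = 1`,
`w_i ∈ W` (`mem_convexHull_iff_exists_fintype` or `convexHull_eq`; drop the terms with
`λ_i = 0`). For a large natural number `q` put `n_i = ⌈q λ_i⌉ ≥ 1`; `e = Σ n_i w_i =
Σ (n_i - q λ_i) w_i` has norm at most `Σ ‖w_i‖`, and `n_0 ≥ q λ_0 → ∞`, so `w_0 - e / n_0 ∈ W` for
large `q` (`W` open), and `0 = n_0 (w_0 - e / n_0) + Σ_{i ≠ 0} n_i w_i ∈ W` since `W` is stable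
under addition and all `n_i ≥ 1`: contradiction. The convex hull of an open set is open
(`IsOpen.convexHull`), so `geometric_hahn_banach_open_point` gives a linear functional `f` with
`f w < f 0 = 0` on `W`; `u = (- f e_i)_i`; `u ≠ 0` since `W` is nonempty. -/
theorem semigroup_halfspace {k : ℕ} {W : Set (Fin k → ℝ)} (hW : IsOpen W) (hne : W.Nonempty)
    (hadd : ∀ x ∈ W, ∀ y ∈ W, x + y ∈ W) (h0 : (0 : Fin k → ℝ) ∉ W) :
    ∃ u : Fin k → ℝ, u ≠ 0 ∧ ∀ w ∈ W, 0 < ∑ i, u i * w i := by
  set C : Set (Fin k → ℝ) := {x | ∃ n : ℕ, 0 < n ∧ n • x ∈ W} with hC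
  have hWC : W ⊆ C := fun w hw => ⟨1, one_pos, by rwa [one_nsmul]⟩
  have hCo : IsOpen C := by
    have h1 : C = ⋃ n : {n : ℕ // 0 < n}, (fun x : Fin k → ℝ => n.1 • x) ⁻¹' W := by
      ext x
      rw [Set.mem_iUnion]
      constructor
      · rintro ⟨n, hn, hx⟩; exact ⟨⟨n, hn⟩, hx⟩
      · rintro ⟨⟨n, hn⟩, hx⟩; exact ⟨n, hn, hx⟩
    rw [h1]
    exact isOpen_iUnion fun n => hW.preimage (continuous_const_smul n.1)
  have hC0 : (0 : Fin k → ℝ) ∉ C := by
    rintro ⟨n, _, hn⟩
    rw [smul_zero] at hn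
    exact h0 hn
  have hCadd : ∀ x ∈ C, ∀ y ∈ C, x + y ∈ C := by
    rintro x ⟨n, hn, hx⟩ y ⟨m, hm, hy⟩
    refine ⟨n * m, Nat.mul_pos hn hm, ?_⟩
    have h1 : (n * m) • (x + y) = m • (n • x) + n • (m • y) := by
      rw [smul_smul, smul_smul, smul_add, mul_comm m n]
    rw [h1]
    exact hadd _ (nsmul_mem_of_add hadd hx m hm) _ (nsmul_mem_of_add hadd hy n hn)
  have hCr : ∀ x ∈ C, ∀ p n : ℕ, 0 < p → 0 < n → ((p : ℝ) / n) • x ∈ C := by
    rintro x ⟨m, hm, hx⟩ p n hp hn
    refine ⟨n * m, Nat.mul_pos hn hm, ?_⟩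
    have h1 : (n * m) • (((p : ℝ) / n) • x) = p • (m • x) := by
      rw [← Nat.cast_smul_eq_nsmul ℝ, ← Nat.cast_smul_eq_nsmul ℝ p, ← Nat.cast_smul_eq_nsmul ℝ m,
        smul_smul, smul_smul]
      congr 1
      have : (n : ℝ) ≠ 0 := by exact_mod_cast hn.ne'
      push_cast
      field_simp
    rw [h1]
    exact nsmul_mem_of_add hadd hx p hp
  have hCc : Convex ℝ C := by
    rw [convex_iff_forall_pos]
    intro x hx y hy a b ha hb hab
    have hg : ContinuousAt (fun q : ℝ => (a / q) • x + ((q - a) / q) • y) a := by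
      apply ContinuousAt.add
      · exact (continuousAt_const.div continuousAt_id ha.ne').smul continuousAt_const
      · exact ((continuousAt_id.sub continuousAt_const).div continuousAt_id ha.ne').smul
          continuousAt_const
    have hga : (a / a) • x + ((a - a) / a) • y = x := by
      rw [div_self ha.ne', one_smul, sub_self, zero_div, zero_smul, add_zero]
    have hev : ∀ᶠ q : ℝ in nhds a, (a / q) • x + ((q - a) / q) • y ∈ C := by
      apply hg
      have h1 : C ∈ nhds ((a / a) • x + ((a - a) / a) • y) := by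
        rw [hga]
        exact hCo.mem_nhds hx
      exact h1
    have hev2 : ∀ᶠ q : ℝ in nhds a, q < 1 := (isOpen_Iio.mem_nhds (by
      show a < 1; linarith))
    obtain ⟨ε, hε, hball⟩ := Metric.eventually_nhds_iff.1 (hev.and hev2)
    obtain ⟨q, hq1, hq2⟩ := exists_rat_btwn (show a < a + ε by linarith)
    obtain ⟨hqC, hq3⟩ := hball (y := (q : ℝ)) (by
      rw [Real.dist_eq, abs_of_pos (by linarith)]; linarith)
    have hq0 : (0 : ℝ) < q := ha.trans hq1
    have hq0' : (0 : ℚ) < q := by exact_mod_cast hq0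
    have hq1' : q < (1 : ℚ) := by exact_mod_cast hq3
    have hnum : 0 < q.num := Rat.num_pos.2 hq0'
    have hlt : q.num < q.den := by
      exact Rat.num_lt_denom_iff.2 hq1'
    obtain ⟨p, hp⟩ := Int.eq_ofNat_of_zero_le hnum.le
    have hp0 : 0 < p := by omega
    have hpn : p < q.den := by
      have : (p : ℤ) < q.den := by rw [← hp]; exact hlt
      exact_mod_cast this
    have hqe : (q : ℝ) = (p : ℝ) / q.den := by
      have h1 : (q : ℝ) = (q.num : ℝ) / q.den := by
        exact_mod_cast (Rat.num_div_den q).symm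
      rw [h1, hp]; push_cast; rfl
    have hden : (0 : ℝ) < q.den := by exact_mod_cast q.den_pos
    have h1q : (1 - (q : ℝ)) = ((q.den - p : ℕ) : ℝ) / q.den := by
      rw [hqe, Nat.cast_sub hpn.le]
      field_simp
    have key : a • x + b • y = (q : ℝ) • ((a / q) • x + (((q : ℝ) - a) / q) • y) +
        (1 - (q : ℝ)) • y := by
      rw [smul_add, smul_smul, smul_smul, mul_div_cancel₀ _ hq0.ne', mul_div_cancel₀ _ hq0.ne',
        add_assoc, ← add_smul]
      congr 2
      linarith
    rw [key]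
    refine hCadd _ ?_ _ ?_
    · rw [hqe]
      rw [← hqe]
      have := hCr _ hqC p q.den hp0 q.den_pos
      rwa [← hqe] at this
    · rw [h1q]
      exact hCr _ hy _ _ (Nat.sub_pos_of_lt hpn) q.den_pos
  obtain ⟨f, hf⟩ := geometric_hahn_banach_open_point hCc hCo hC0
  rw [map_zero] at hf
  have hfw : ∀ w : Fin k → ℝ, ∑ i, (-f (Pi.single i 1)) * w i = - f w := by
    intro w
    have h1 : w = ∑ i, w i • (Pi.single i (1 : ℝ) : Fin k → ℝ) := by
      ext j
      rw [Finset.sum_apply, Finset.sum_eq_single j]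
      · simp
      · intro i _ hij
        rw [Pi.smul_apply, Pi.single_eq_of_ne (Ne.symm hij), smul_zero]
      · intro h; exact absurd (Finset.mem_univ j) h
    conv_rhs => rw [h1]
    rw [map_sum, ← Finset.sum_neg_distrib]
    refine Finset.sum_congr rfl fun i _ => ?_
    rw [map_smul, smul_eq_mul]; ring
  refine ⟨fun i => -f (Pi.single i 1), ?_, ?_⟩
  · intro h
    obtain ⟨w, hw⟩ := hne
    have h1 := hfw w
    have h2 := hf w (hWC hw)
    have h3 : ∑ i, (-f (Pi.single i 1)) * w i = 0 := by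
      refine Finset.sum_eq_zero fun i _ => ?_
      have := congrFun h i
      simp only [Pi.zero_apply] at this
      rw [this, zero_mul]
    rw [h3] at h1
    linarith
  · intro w hw
    rw [hfw]
    have := hf w (hWC hw)
    linarith

end Pool.Agent.SawM2
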