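import Pool.Agent.SawM2.Basic
import Pool.Agent.SawDiff.Near

/-!
# Finite mutual information (module INFO)
-/

set_option autoImplicit false

namespace Pool.Agent.SawM2

open Finset Filter Pool.Agent.Bub4 Pool.Agent.SawDiff

variable {S V : Type} [Fintype S] [AddCommGroup V] {Y : Sys S V} {Λ K : ℝ} {ρ : List S → ℝ}

/-- INFO. Finite mutual information of left and right words. Proof: for words with
`ρ (u ++ v) > 0` let `f = ρ (u ++ v) / (ρ u * ρ v)` (then `ρ u, ρ v > 0`, `Bulk.eq_zero_left`,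
`Bulk.eq_zero_right`). `Σ ρ(uv) log f = et m + et n - et (m + n) ≤ 2 log K + log Λ`
(`Y.E_add`, `h.right`, `h.left`, `et_le`, `et_ge`). Pointwise `ρ(uv) log f ≥ ρ(uv) - ρ u ρ v ≥ - ρ u ρ v`
where `f < 1` (`log f ≥ 1 - 1/f`), so the sum over the words with `f ≥ 1` of `ρ(uv) log f` is at
most `2 log K + log Λ + 1`. Hence `Σ_{f > M} ρ(uv) ≤ (2 log K + log Λ + 1) / log M`, and
`ρ(uv) ≤ M ρ u ρ v` on the other words. -/
theorem info (h : Bulk Y Λ ρ) (h1 : ∀ n, 1 ≤ Y.a n) (hK : ∀ n, Y.a n ≤ K) {M : ℝ} (hM : 1 < M)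
    (m n : ℕ) (F : List S → List S → ℝ) (h0 : ∀ u v, 0 ≤ F u v) (hF : ∀ u v, F u v ≤ 1) :
    (Y.E m fun u => Y.E n fun v => ρ (u ++ v) * F u v) ≤
      M * (Y.E m fun u => Y.E n fun v => ρ u * ρ v * F u v) +
        (2 * Real.log K + Real.log Λ + 1) / Real.log M := by
  have hlM : 0 < Real.log M := Real.log_pos hM
  have hM0 : 0 < M := by linarith
  have hpt : ∀ u v, ρ (u ++ v) * F u v ≤ M * (ρ u * ρ v * F u v) +
      (Real.log M)⁻¹ * (ρ (u ++ v) * Real.log (ρ (u ++ v)) - ρ (u ++ v) * Real.log (ρ u) -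
        ρ (u ++ v) * Real.log (ρ v) + ρ u * ρ v) := by
    intro u v
    have hu := h.nonneg u
    have hv := h.nonneg v
    have hF0 := h0 u v
    have hF1 := hF u v
    rcases (h.nonneg (u ++ v)).eq_or_lt with hr | hr
    · rw [← hr]
      simp only [zero_mul, sub_zero, zero_add]
      positivity
    · have hu0 : 0 < ρ u := lt_of_le_of_ne hu fun h' => hr.ne' (h.eq_zero_left h'.symm)
      have hv0 : 0 < ρ v := lt_of_le_of_ne hv fun h' => hr.ne' (h.eq_zero_right h'.symm)
      have hs : 0 < ρ u * ρ v := mul_pos hu0 hv0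
      have hlog : ρ (u ++ v) * Real.log (ρ (u ++ v)) - ρ (u ++ v) * Real.log (ρ u) -
          ρ (u ++ v) * Real.log (ρ v) = ρ (u ++ v) * Real.log (ρ (u ++ v) / (ρ u * ρ v)) := by
        rw [Real.log_div hr.ne' hs.ne', Real.log_mul hu0.ne' hv0.ne']
        ring
      rw [hlog]
      rcases le_or_gt (ρ (u ++ v)) (M * (ρ u * ρ v)) with h2 | h2
      · have h3 : ρ (u ++ v) * F u v ≤ M * (ρ u * ρ v * F u v) := by
          calc ρ (u ++ v) * F u v ≤ M * (ρ u * ρ v) * F u v := by gcongr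
            _ = M * (ρ u * ρ v * F u v) := by ring
        have h4 : 0 ≤ ρ (u ++ v) * Real.log (ρ (u ++ v) / (ρ u * ρ v)) + ρ u * ρ v := by
          have h5 := Real.log_le_sub_one_of_pos (div_pos hs hr)
          rw [Real.log_div hs.ne' hr.ne'] at h5
          rw [Real.log_div hr.ne' hs.ne']
          have h6 := mul_le_mul_of_nonneg_left h5 hr.le
          have h7 : ρ (u ++ v) * (ρ u * ρ v / ρ (u ++ v) - 1) = ρ u * ρ v - ρ (u ++ v) := by
            field_simp
          rw [h7] at h6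
          nlinarith
        have h5 : 0 ≤ (Real.log M)⁻¹ * (ρ (u ++ v) * Real.log (ρ (u ++ v) / (ρ u * ρ v)) +
            ρ u * ρ v) := mul_nonneg (inv_nonneg.mpr hlM.le) h4
        linarith
      · have h3 : Real.log M ≤ Real.log (ρ (u ++ v) / (ρ u * ρ v)) := by
          apply Real.log_le_log hM0
          rw [le_div_iff₀ hs]
          exact h2.le
        have h4 : ρ (u ++ v) * F u v ≤ ρ (u ++ v) := mul_le_of_le_one_right hr.le hF1
        have h5 : ρ (u ++ v) ≤ (Real.log M)⁻¹ *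
            (ρ (u ++ v) * Real.log (ρ (u ++ v) / (ρ u * ρ v)) + ρ u * ρ v) := by
          rw [inv_mul_eq_div, le_div_iff₀ hlM]
          have := mul_le_mul_of_nonneg_left h3 hr.le
          linarith
        have h6 : 0 ≤ M * (ρ u * ρ v * F u v) := by positivity
        linarith
  have hadd : ∀ G H : List S → List S → ℝ,
      (Y.E m fun u => Y.E n fun v => G u v + H u v) =
        (Y.E m fun u => Y.E n fun v => G u v) + Y.E m fun u => Y.E n fun v => H u v := by
    intro G H
    rw [← Y.E_fadd]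
    exact Y.E_congr fun u _ => Y.E_fadd n _ _
  have hsub : ∀ G H : List S → List S → ℝ,
      (Y.E m fun u => Y.E n fun v => G u v - H u v) =
        (Y.E m fun u => Y.E n fun v => G u v) - Y.E m fun u => Y.E n fun v => H u v := by
    intro G H
    rw [← Y.E_fsub]
    exact Y.E_congr fun u _ => Y.E_fsub n _ _
  have hmul : ∀ (c : ℝ) (G : List S → List S → ℝ),
      (Y.E m fun u => Y.E n fun v => c * G u v) =
        c * Y.E m fun u => Y.E n fun v => G u v := by
    intro c G
    rw [← Y.E_mul_left]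
    exact Y.E_congr fun u _ => Y.E_mul_left n _ _
  have e1 : (Y.E m fun u => Y.E n fun v => ρ (u ++ v) * Real.log (ρ (u ++ v))) =
      - et Y ρ (m + n) := by
    unfold et
    rw [neg_neg, Y.E_add]
  have e2 : (Y.E m fun u => Y.E n fun v => ρ (u ++ v) * Real.log (ρ u)) = - et Y ρ m := by
    unfold et
    rw [neg_neg]
    refine Y.E_congr fun u _ => ?_
    rw [Y.E_mul_right, h.right]
  have e3 : (Y.E m fun u => Y.E n fun v => ρ (u ++ v) * Real.log (ρ v)) = - et Y ρ n := by
    unfold et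
    rw [neg_neg, Y.E_comm]
    refine Y.E_congr fun v _ => ?_
    rw [Y.E_mul_right, h.left]
  have e4 : (Y.E m fun u => Y.E n fun v => ρ u * ρ v) = 1 := by
    have : (Y.E m fun u => Y.E n fun v => ρ u * ρ v) = Y.E m fun u => ρ u := by
      refine Y.E_congr fun u _ => ?_
      rw [Y.E_mul_left]
      have := h.mass n
      rw [show (Y.E n fun v => ρ v) = Y.E n ρ from rfl, this, mul_one]
    rw [this]
    exact h.mass m
  have hsum : (Y.E m fun u => Y.E n fun v => ρ (u ++ v) * F u v) ≤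
      Y.E m fun u => Y.E n fun v => M * (ρ u * ρ v * F u v) +
      (Real.log M)⁻¹ * (ρ (u ++ v) * Real.log (ρ (u ++ v)) - ρ (u ++ v) * Real.log (ρ u) -
        ρ (u ++ v) * Real.log (ρ v) + ρ u * ρ v) :=
    Y.E_mono fun u _ => Y.E_mono fun v _ => hpt u v
  refine hsum.trans ?_
  rw [hadd, hmul, hmul, hadd, hsub, hsub, e1, e2, e3, e4]
  have g1 := et_ge h (m + n)
  have g2 := et_le h h1 hK m
  have g3 := et_le h h1 hK n
  have g4 : (Real.log M)⁻¹ * (-et Y ρ (m + n) - -et Y ρ m - -et Y ρ n + 1) ≤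
      (2 * Real.log K + Real.log Λ + 1) / Real.log M := by
    rw [inv_mul_eq_div]
    apply div_le_div_of_nonneg_right _ hlM.le
    linarith
  linarith

end Pool.Agent.SawM2
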