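import Pool.Agent.SawM2.Basic

/-!
# Fourier transform of the exponential kernel (module KERA)
-/

set_option autoImplicit false

namespace Pool.Agent.SawM2

open Finset MeasureTheory

variable {k : ℕ} {a : ℝ}

private theorem kerA_congr {ι M : Type} [AddCommMonoid M] [TopologicalSpace M] {f g : ι → M}
    {s : M} (h : ∀ i, f i = g i) (hg : HasSum g s) : HasSum f s := by
  rw [show f = g from funext h]
  exact hg

private theorem kerA_int (m : ℤ) :
    ∫ θ in Set.Icc (-Real.pi) Real.pi, Complex.exp (Complex.I * ((m : ℝ) * θ : ℝ)) =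
      if m = 0 then (2 * Real.pi : ℂ) else 0 := by
  rw [integral_Icc_eq_integral_Ioc, ← intervalIntegral.integral_of_le
    (by linarith [Real.pi_pos])]
  split_ifs with h
  · subst h
    simp
    ring
  · have hm : (Complex.I * (m : ℂ)) ≠ 0 := by
      simp [h]
    have h1 : (fun θ : ℝ => Complex.exp (Complex.I * ((m : ℝ) * θ : ℝ))) =
        fun θ : ℝ => Complex.exp (Complex.I * (m : ℂ) * θ) := by
      funext θ
      congr 1
      push_cast
      ring
    rw [h1, integral_exp_mul_complex hm]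
    have h2 : Complex.exp (Complex.I * (m : ℂ) * (Real.pi : ℝ)) =
        Complex.exp (Complex.I * (m : ℂ) * (-Real.pi : ℝ)) := by
      rw [Complex.exp_eq_exp_iff_exists_int]
      exact ⟨m, by push_cast; ring⟩
    rw [h2]
    simp

private theorem kerA_den (ha0 : 0 < a) (ha1 : a < 1) (t : ℝ) :
    0 < 1 - 2 * a * Real.cos t + a ^ 2 := by
  nlinarith [mul_nonneg ha0.le (sub_nonneg.2 (Real.cos_le_one t)), pow_pos (sub_pos.2 ha1) 2]

private theorem kerA_sum (ha0 : 0 < a) (ha1 : a < 1) (θ : ℝ) :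
    HasSum (fun m : ℤ => ((a ^ m.natAbs : ℝ) : ℂ) * Complex.exp (Complex.I * ((m : ℝ) * θ : ℝ)))
      (((1 - a ^ 2) / (1 - 2 * a * Real.cos θ + a ^ 2) : ℝ) : ℂ) := by
  set z : ℂ := (a : ℂ) * Complex.exp (Complex.I * θ) with hz
  set w : ℂ := (a : ℂ) * Complex.exp (-(Complex.I * θ)) with hw
  have nz : ‖z‖ < 1 := by
    rw [hz, norm_mul, Complex.norm_real, Real.norm_of_nonneg ha0.le,
      show Complex.I * (θ : ℂ) = (θ : ℂ) * Complex.I by ring, Complex.norm_exp_ofReal_mul_I, mul_one]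
    exact ha1
  have nw : ‖w‖ < 1 := by
    rw [hw, norm_mul, Complex.norm_real, Real.norm_of_nonneg ha0.le,
      show -(Complex.I * (θ : ℂ)) = ((-θ : ℝ) : ℂ) * Complex.I by push_cast; ring,
      Complex.norm_exp_ofReal_mul_I, mul_one]
    exact ha1
  have h1 := hasSum_geometric_of_norm_lt_one nz
  have h2 := (hasSum_geometric_of_norm_lt_one nw).mul_left w
  have hzw : z * w = (a : ℂ) ^ 2 := by
    rw [hz, hw]
    have : Complex.exp (Complex.I * θ) * Complex.exp (-(Complex.I * θ)) = 1 := by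
      rw [← Complex.exp_add]
      simp
    calc (a : ℂ) * Complex.exp (Complex.I * θ) * ((a : ℂ) * Complex.exp (-(Complex.I * θ)))
        = (a : ℂ) ^ 2 * (Complex.exp (Complex.I * θ) * Complex.exp (-(Complex.I * θ))) := by ring
      _ = (a : ℂ) ^ 2 := by rw [this, mul_one]
  have hzpw : z + w = 2 * a * Real.cos θ := by
    rw [hz, hw, Complex.ofReal_cos, Complex.cos]
    have e1 : (θ : ℂ) * Complex.I = Complex.I * θ := by ring
    have e2 : -(θ : ℂ) * Complex.I = -(Complex.I * θ) := by ring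
    rw [e1, e2]
    ring
  have z1 : 1 - z ≠ 0 := by
    intro h
    have : z = 1 := by linear_combination -h
    rw [this, norm_one] at nz
    exact lt_irrefl _ nz
  have w1 : 1 - w ≠ 0 := by
    intro h
    have : w = 1 := by linear_combination -h
    rw [this, norm_one] at nw
    exact lt_irrefl _ nw
  have hval : (1 - z)⁻¹ + w * (1 - w)⁻¹ =
      (((1 - a ^ 2) / (1 - 2 * a * Real.cos θ + a ^ 2) : ℝ) : ℂ) := by
    have hd : (1 - z) * (1 - w) = ((1 - 2 * a * Real.cos θ + a ^ 2 : ℝ) : ℂ) := by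
      push_cast
      have : (1 - z) * (1 - w) = 1 - (z + w) + z * w := by ring
      rw [this, hzw, hzpw]
      push_cast
      ring
    have hd0 : (1 - z) * (1 - w) ≠ 0 := mul_ne_zero z1 w1
    rw [Complex.ofReal_div, ← hd]
    field_simp
    push_cast
    linear_combination -hzw
  rw [← hval]
  refine HasSum.of_nat_of_neg_add_one ?_ ?_
  · refine kerA_congr (fun n => ?_) h1
    rw [hz, mul_pow, ← Complex.exp_nat_mul]
    push_cast
    simp only [Int.natAbs_natCast]
    congr 2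
    ring
  · refine kerA_congr (fun n => ?_) h2
    rw [← pow_succ', hw, mul_pow, ← Complex.exp_nat_mul]
    have e : (-((n : ℤ) + 1)).natAbs = n + 1 := by omega
    rw [e]
    push_cast
    congr 2
    ring

private theorem kerA_summable (ha0 : 0 < a) (ha1 : a < 1) :
    Summable fun m : ℤ => a ^ m.natAbs := by
  refine (HasSum.of_nat_of_neg_add_one (f := fun m : ℤ => a ^ m.natAbs)
    (m := (1 - a)⁻¹) (m' := a * (1 - a)⁻¹) ?_ ?_).summable
  · refine kerA_congr (fun n => ?_) (hasSum_geometric_of_lt_one ha0.le ha1)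
    simp
  · refine kerA_congr (fun n => ?_) ((hasSum_geometric_of_lt_one ha0.le ha1).mul_left a)
    rw [← pow_succ']
    congr 1

private theorem kerA_main (ha0 : 0 < a) (ha1 : a < 1) (n : ℤ) :
    ∫ θ in Set.Icc (-Real.pi) Real.pi,
      (((1 - a ^ 2) / (1 - 2 * a * Real.cos θ + a ^ 2) : ℝ) : ℂ) *
        Complex.exp (Complex.I * ((n : ℝ) * θ : ℝ)) = (2 * Real.pi : ℂ) * (a : ℂ) ^ n.natAbs := by
  set F : ℤ → ℝ → ℂ := fun m θ => ((a ^ m.natAbs : ℝ) : ℂ) *
    Complex.exp (Complex.I * ((m : ℝ) * θ : ℝ)) * Complex.exp (Complex.I * ((n : ℝ) * θ : ℝ))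
    with hF
  have hF2 : ∀ m θ, F m θ = ((a ^ m.natAbs : ℝ) : ℂ) *
      Complex.exp (Complex.I * (((m + n : ℤ) : ℝ) * θ : ℝ)) := by
    intro m θ
    rw [hF]
    show ((a ^ m.natAbs : ℝ) : ℂ) * Complex.exp (Complex.I * ((m : ℝ) * θ : ℝ)) *
      Complex.exp (Complex.I * ((n : ℝ) * θ : ℝ)) = _
    rw [mul_assoc, ← Complex.exp_add]
    congr 2
    push_cast
    ring
  have hint : ∀ m, Integrable (F m) (volume.restrict (Set.Icc (-Real.pi) Real.pi)) := by
    intro m
    have hc : Continuous (F m) := by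
      rw [hF]
      fun_prop
    exact hc.integrableOn_Icc
  have hnorm : ∀ m θ, ‖F m θ‖ = a ^ m.natAbs := by
    intro m θ
    rw [hF2, norm_mul, Complex.norm_real, Real.norm_of_nonneg (pow_nonneg ha0.le _),
      mul_comm Complex.I, Complex.norm_exp_ofReal_mul_I, mul_one]
  have hsum : Summable fun m => ∫ θ in Set.Icc (-Real.pi) Real.pi, ‖F m θ‖ := by
    simp_rw [hnorm]
    simp only [integral_const, smul_eq_mul]
    exact (kerA_summable ha0 ha1).mul_left _
  have h1 := hasSum_integral_of_summable_integral_norm hint hsum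
  have h2 : ∀ θ, ∑' m, F m θ = (((1 - a ^ 2) / (1 - 2 * a * Real.cos θ + a ^ 2) : ℝ) : ℂ) *
      Complex.exp (Complex.I * ((n : ℝ) * θ : ℝ)) := by
    intro θ
    exact ((kerA_sum ha0 ha1 θ).mul_right _).tsum_eq
  simp_rw [h2] at h1
  have h3 : HasSum (fun m => ∫ θ in Set.Icc (-Real.pi) Real.pi, F m θ)
      ((2 * Real.pi : ℂ) * (a : ℂ) ^ n.natAbs) := by
    have h4 : ∀ m, ∫ θ in Set.Icc (-Real.pi) Real.pi, F m θ =
        if m = -n then (2 * Real.pi : ℂ) * (a : ℂ) ^ n.natAbs else 0 := by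
      intro m
      simp_rw [hF2]
      rw [integral_const_mul, kerA_int]
      by_cases hm : m = -n
      · subst hm
        simp
        ring
      · rw [if_neg hm, if_neg, mul_zero]
        intro h
        exact hm (by omega)
    simp_rw [h4]
    exact hasSum_ite_eq (-n) _
  exact h1.unique h3

private theorem kerA_integrable (ha0 : 0 < a) (ha1 : a < 1) (n : ℤ) :
    Integrable (fun θ : ℝ =>
      (((1 - a ^ 2) / (1 - 2 * a * Real.cos θ + a ^ 2) : ℝ) : ℂ) *
        Complex.exp (Complex.I * ((n : ℝ) * θ : ℝ)))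
      (volume.restrict (Set.Icc (-Real.pi) Real.pi)) := by
  have hc : Continuous (fun θ : ℝ =>
      (((1 - a ^ 2) / (1 - 2 * a * Real.cos θ + a ^ 2) : ℝ) : ℂ) *
        Complex.exp (Complex.I * ((n : ℝ) * θ : ℝ))) := by
    refine Continuous.mul (Complex.continuous_ofReal.comp ?_) (by fun_prop)
    exact Continuous.div (by fun_prop) (by fun_prop) fun θ => (kerA_den ha0 ha1 _).ne'
  exact hc.integrableOn_Icc

/-- KERA. One dimensional Poisson kernel. Proof: for every `θ`,
`(1 - a²) / (1 - 2 a cos θ + a²) = 1 + 2 Σ_{m ≥ 1} a^m cos (m θ)` (real part of the geometric series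
`Σ (a e^{iθ})^m`, `Complex` `hasSum_geometric_of_norm_lt_one`), the series converges uniformly
(`Σ a^m`), multiply by `cos (n θ)` and integrate termwise
(`MeasureTheory.hasSum_integral_of_dominated_convergence` or `intervalIntegral` version);
`∫_{-π}^{π} cos (m θ) cos (n θ) dθ = 0` for `m ≠ |n|`, `= π` for `m = |n| ≥ 1`, `= 2π` for
`m = n = 0`. (Any other proof is welcome, e.g. the recursion: with `I n` the integral,
`I (n+1) + I (n-1) = 2 ∫ P cos θ cos nθ` and `2 a cos θ P = (1 + a²) P - (1 - a²)` give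
`a (I (n+1) + I (n-1)) = (1 + a²) I n - (1 - a²) ∫ cos n θ`; bounded solutions.) -/
theorem poisson (ha0 : 0 < a) (ha1 : a < 1) (n : ℤ) :
    ∫ θ in Set.Icc (-Real.pi) Real.pi,
      (1 - a ^ 2) / (1 - 2 * a * Real.cos θ + a ^ 2) * Real.cos (n * θ) =
      2 * Real.pi * a ^ n.natAbs := by
  have h := congrArg Complex.re (kerA_main ha0 ha1 n)
  have hi : Integrable (fun θ : ℝ =>
      (((1 - a ^ 2) / (1 - 2 * a * Real.cos θ + a ^ 2) : ℝ) : ℂ) *
        Complex.exp (Complex.I * ((n : ℝ) * θ : ℝ)))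
      (volume.restrict (Set.Icc (-Real.pi) Real.pi)) := kerA_integrable ha0 ha1 n
  have h1 := integral_re hi
  have h2 : (∫ θ in Set.Icc (-Real.pi) Real.pi,
      (((1 - a ^ 2) / (1 - 2 * a * Real.cos θ + a ^ 2) : ℝ) : ℂ) *
        Complex.exp (Complex.I * ((n : ℝ) * θ : ℝ))).re = ∫ θ in Set.Icc (-Real.pi) Real.pi,
      (1 - a ^ 2) / (1 - 2 * a * Real.cos θ + a ^ 2) * Real.cos (n * θ) := by
    refine Eq.trans h1.symm ?_
    congr 1
    funext θ
    show ((((1 - a ^ 2) / (1 - 2 * a * Real.cos θ + a ^ 2) : ℝ) : ℂ) *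
      Complex.exp (Complex.I * ((n : ℝ) * θ : ℝ))).re = _
    rw [Complex.re_ofReal_mul, mul_comm Complex.I, Complex.exp_ofReal_mul_I_re]
  rw [← h2, h, show (2 * (Real.pi : ℂ)) * (a : ℂ) ^ n.natAbs =
    ((2 * Real.pi * a ^ n.natAbs : ℝ) : ℂ) by push_cast; ring, Complex.ofReal_re]

/-- KERA. The sine part vanishes (odd integrand). -/
theorem poisson_sin (ha0 : 0 < a) (ha1 : a < 1) (n : ℤ) :
    ∫ θ in Set.Icc (-Real.pi) Real.pi,
      (1 - a ^ 2) / (1 - 2 * a * Real.cos θ + a ^ 2) * Real.sin (n * θ) = 0 := by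
  have h := congrArg Complex.im (kerA_main ha0 ha1 n)
  have hi : Integrable (fun θ : ℝ =>
      (((1 - a ^ 2) / (1 - 2 * a * Real.cos θ + a ^ 2) : ℝ) : ℂ) *
        Complex.exp (Complex.I * ((n : ℝ) * θ : ℝ)))
      (volume.restrict (Set.Icc (-Real.pi) Real.pi)) := kerA_integrable ha0 ha1 n
  have h1 := integral_im hi
  have h2 : (∫ θ in Set.Icc (-Real.pi) Real.pi,
      (((1 - a ^ 2) / (1 - 2 * a * Real.cos θ + a ^ 2) : ℝ) : ℂ) *
        Complex.exp (Complex.I * ((n : ℝ) * θ : ℝ))).im = ∫ θ in Set.Icc (-Real.pi) Real.pi,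
      (1 - a ^ 2) / (1 - 2 * a * Real.cos θ + a ^ 2) * Real.sin (n * θ) := by
    refine Eq.trans h1.symm ?_
    congr 1
    funext θ
    show ((((1 - a ^ 2) / (1 - 2 * a * Real.cos θ + a ^ 2) : ℝ) : ℂ) *
      Complex.exp (Complex.I * ((n : ℝ) * θ : ℝ))).im = _
    rw [Complex.im_ofReal_mul, mul_comm Complex.I, Complex.exp_ofReal_mul_I_im]
  rw [← h2, h, show (2 * (Real.pi : ℂ)) * (a : ℂ) ^ n.natAbs =
    ((2 * Real.pi * a ^ n.natAbs : ℝ) : ℂ) by push_cast; ring, Complex.ofReal_im]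

/-- KERB. Fourier representation of the kernel in dimension `k`. Proof: the integrand is a product
of functions of one coordinate (`exp (I Σ θ_i x_i) = ∏ exp (I θ_i x_i)`), the restriction of the
Lebesgue measure to `bx k` is the product of the restrictions
(`MeasureTheory.Measure.restrict_pi_pi`, `volume_pi`), so
`MeasureTheory.integral_fintype_prod_eq_prod` (or `integral_fin_nat_prod_eq_prod`) reduces it to
`poisson`, `poisson_sin`; the product of the numbers `2π a^{|x_i|}` is `(2π)^k a^{|x|}`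
(`Finset.prod_pow_eq_pow_sum`). -/
theorem ker_fourier (ha0 : 0 < a) (ha1 : a < 1) (x : Zk k) :
    ∫ θ in bx k, ((hk a θ : ℝ) : ℂ) * Complex.exp (Complex.I * (dt θ x : ℝ)) =
      (((2 * Real.pi) ^ k * ker a x : ℝ) : ℂ) := by
  have h1 : ∀ θ : Rk k, ((hk a θ : ℝ) : ℂ) * Complex.exp (Complex.I * (dt θ x : ℝ)) =
      ∏ i, ((((1 - a ^ 2) / (1 - 2 * a * Real.cos (θ i) + a ^ 2) : ℝ) : ℂ) *
        Complex.exp (Complex.I * (((x i : ℤ) : ℝ) * θ i : ℝ))) := by
    intro θ
    rw [Finset.prod_mul_distrib, ← Complex.exp_sum]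
    unfold hk dt
    rw [Complex.ofReal_prod]
    congr 2
    push_cast
    rw [Finset.mul_sum]
    refine Finset.sum_congr rfl fun i _ => ?_
    ring
  simp_rw [h1]
  unfold bx
  rw [volume_pi, Measure.restrict_pi_pi]
  rw [integral_fintype_prod_eq_prod (fun i (t : ℝ) =>
    (((1 - a ^ 2) / (1 - 2 * a * Real.cos t + a ^ 2) : ℝ) : ℂ) *
      Complex.exp (Complex.I * (((x i : ℤ) : ℝ) * t : ℝ)))]
  rw [Finset.prod_congr rfl fun i _ => kerA_main ha0 ha1 (x i)]
  rw [Finset.prod_mul_distrib, Finset.prod_pow_eq_pow_sum]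
  unfold ker n1
  push_cast
  simp

end Pool.Agent.SawM2
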