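import Pool.Agent.SawM2.Basic

/-!
# Sums of the kernel (module KERD)
-/

set_option autoImplicit false

namespace Pool.Agent.SawM2

open Finset MeasureTheory

variable {k : ℕ} {a : ℝ}

private theorem KerD_half (ha0 : 0 < a) (ha1 : a < 1) (S : Finset ℤ) (f : ℤ → ℕ)
    (hf : Set.InjOn f S) : ∑ m ∈ S, a ^ f m ≤ (1 - a)⁻¹ := by
  classical
  rw [← Finset.sum_image (g := f) (f := fun n => a ^ n) hf, ← tsum_geometric_of_lt_one ha0.le ha1]
  exact (summable_geometric_of_lt_one ha0.le ha1).sum_le_tsum _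
    (fun n _ => pow_nonneg ha0.le n)

private theorem KerD_one (ha0 : 0 < a) (ha1 : a < 1) (S : Finset ℤ) (p : ℤ) :
    ∑ m ∈ S, a ^ (m - p).natAbs ≤ 2 / (1 - a) := by
  classical
  rw [← Finset.sum_filter_add_sum_filter_not S (fun m => p ≤ m)]
  have h1 := KerD_half ha0 ha1 (S.filter fun m => p ≤ m) (fun m => (m - p).natAbs) (by
    intro x hx y hy hxy
    have hx1 := (Finset.mem_filter.1 hx).2
    have hy1 := (Finset.mem_filter.1 hy).2
    simp only at hxy
    omega)
  have h2 := KerD_half ha0 ha1 (S.filter fun m => ¬ p ≤ m) (fun m => (m - p).natAbs) (by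
    intro x hx y hy hxy
    have hx1 := (Finset.mem_filter.1 hx).2
    have hy1 := (Finset.mem_filter.1 hy).2
    simp only at hxy
    omega)
  have h3 : (2 : ℝ) / (1 - a) = (1 - a)⁻¹ + (1 - a)⁻¹ := by
    rw [← two_mul]; rfl
  rw [h3]
  exact add_le_add h1 h2

private theorem KerD_prod (x : Zk k) : ker a x = ∏ i, a ^ (x i).natAbs := by
  unfold ker n1
  rw [Finset.prod_pow_eq_pow_sum]

/-- KERD. Sum of the kernel over a finite set: at most the product of the one dimensional sums
`Σ_{m ∈ ℤ} a^|m| = (1 + a) / (1 - a) ≤ 2 / (1 - a)`. Proof: `Z ⊆ Fintype.piFinset` of the intervals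
`Icc (-R) R` for large `R`, and `Finset.prod_univ_sum`. -/
theorem ker_sum_le (ha0 : 0 < a) (ha1 : a < 1) (Z : Finset (Zk k)) (p : Zk k) :
    ∑ z ∈ Z, ker a (z - p) ≤ (2 / (1 - a)) ^ k := by
  classical
  obtain ⟨R, hR⟩ : ∃ R : ℕ, ∀ z ∈ Z, ∀ i, |z i - p i| ≤ (R : ℤ) := by
    refine ⟨∑ z ∈ Z, n1 (z - p), fun z hz i => ?_⟩
    have h1 : ((z - p) i).natAbs ≤ n1 (z - p) := natAbs_le_n1 _ _
    have h2 : n1 (z - p) ≤ ∑ z ∈ Z, n1 (z - p) :=
      Finset.single_le_sum (f := fun z => n1 (z - p)) (fun _ _ => Nat.zero_le _) hz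
    have h3 : (((z - p) i).natAbs : ℤ) = |z i - p i| := by
      rw [Int.natCast_natAbs, Pi.sub_apply]
    rw [← h3]
    exact_mod_cast h1.trans h2
  have hsub : Z ⊆ Fintype.piFinset fun i => Finset.Icc (p i - R) (p i + R) := by
    intro z hz
    rw [Fintype.mem_piFinset]
    intro i
    have h1 := abs_le.1 (hR z hz i)
    rw [Finset.mem_Icc]
    constructor <;> linarith [h1.1, h1.2]
  calc ∑ z ∈ Z, ker a (z - p)
      ≤ ∑ z ∈ Fintype.piFinset fun i => Finset.Icc (p i - R) (p i + R), ker a (z - p) :=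
        Finset.sum_le_sum_of_subset_of_nonneg hsub fun _ _ _ => ker_nonneg ha0.le _
    _ = ∑ z ∈ Fintype.piFinset fun i => Finset.Icc (p i - R) (p i + R),
          ∏ i, a ^ (z i - p i).natAbs := by
        refine Finset.sum_congr rfl fun z _ => ?_
        rw [KerD_prod]
        rfl
    _ = ∏ i, ∑ m ∈ Finset.Icc (p i - R) (p i + R), a ^ (m - p i).natAbs := by
        rw [Finset.prod_univ_sum]
    _ ≤ ∏ _i : Fin k, (2 / (1 - a)) := by
        refine Finset.prod_le_prod (fun i _ => Finset.sum_nonneg fun m _ => pow_nonneg ha0.le _)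
          fun i _ => KerD_one ha0 ha1 _ _
    _ = (2 / (1 - a)) ^ k := by
        rw [Finset.prod_const, Finset.card_univ, Fintype.card_fin]

/-- KERD. If `Z` contains all points at distance (maximum norm) at most `m` from `p` and
`1 ≤ m (1 - a)`... the `(2 m + 1)^k` points at distance at most `m` contribute each at least
`a^(k m)`. -/
theorem ker_sum_ge (ha0 : 0 < a) (ha1 : a < 1) (Z : Finset (Zk k)) (p : Zk k) (m : ℕ)
    (hZ : ∀ z : Zk k, (∀ i, |z i - p i| ≤ m) → z ∈ Z) :
    (2 * (m : ℝ) + 1) ^ k * a ^ (k * m) ≤ ∑ z ∈ Z, ker a (z - p) := by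
  classical
  have hsub : (Fintype.piFinset fun i => Finset.Icc (p i - m) (p i + m)) ⊆ Z := by
    intro z hz
    rw [Fintype.mem_piFinset] at hz
    refine hZ z fun i => ?_
    have h1 := Finset.mem_Icc.1 (hz i)
    rw [abs_le]
    constructor <;> linarith [h1.1, h1.2]
  have hcard : ((Fintype.piFinset fun i => Finset.Icc (p i - m) (p i + m)).card : ℝ) =
      (2 * (m : ℝ) + 1) ^ k := by
    rw [Fintype.card_piFinset]
    have h1 : ∀ i, (Finset.Icc (p i - (m : ℤ)) (p i + m)).card = 2 * m + 1 := by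
      intro i
      rw [Int.card_Icc]
      omega
    simp only [h1, Finset.prod_const, Finset.card_univ, Fintype.card_fin]
    push_cast
    ring
  calc (2 * (m : ℝ) + 1) ^ k * a ^ (k * m)
      = ∑ z ∈ Fintype.piFinset fun i => Finset.Icc (p i - m) (p i + m), a ^ (k * m) := by
        rw [Finset.sum_const, nsmul_eq_mul, hcard]
    _ ≤ ∑ z ∈ Fintype.piFinset fun i => Finset.Icc (p i - m) (p i + m), ker a (z - p) := by
        refine Finset.sum_le_sum fun z hz => ?_
        rw [Fintype.mem_piFinset] at hz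
        unfold ker
        refine pow_le_pow_of_le_one ha0.le ha1.le (n1_le_mul _ fun i => ?_)
        have h1 := Finset.mem_Icc.1 (hz i)
        rw [Pi.sub_apply]
        omega
    _ ≤ ∑ z ∈ Z, ker a (z - p) :=
        Finset.sum_le_sum_of_subset_of_nonneg hsub fun _ _ _ => ker_nonneg ha0.le _

end Pool.Agent.SawM2
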