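import Pool.Agent.SawM2.Basic

/-!
# Lattice points in parallelepipeds (module LATT)
-/

set_option autoImplicit false

namespace Pool.Agent.SawM2

open Finset MeasureTheory

/-- rescaled position: the numbers `T_i · z` -/
noncomputable def rs {k : ℕ} (T : Fin k → Rk k) (z : Zk k) : Fin k → ℝ := fun i => dt (T i) z

/-- the linear map with rows `T i` -/
private noncomputable def LATT_tau {k : ℕ} (T : Fin k → Rk k) : (Fin k → ℝ) →ₗ[ℝ] (Fin k → ℝ) :=
  Matrix.toLin' (Matrix.of T)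

private theorem LATT_tau_apply {k : ℕ} (T : Fin k → Rk k) (y : Fin k → ℝ) (i : Fin k) :
    LATT_tau T y i = ∑ j, T i j * y j := by
  unfold LATT_tau
  rw [Matrix.toLin'_apply]
  simp [Matrix.mulVec, dotProduct]

private theorem LATT_rs {k : ℕ} (T : Fin k → Rk k) (z : Zk k) (i : Fin k) :
    rs T z i = LATT_tau T (fun j => (z j : ℝ)) i := by
  rw [LATT_tau_apply]
  rfl

private theorem LATT_diff {k : ℕ} (T : Fin k → Rk k) {b c : ℝ} (hb : 0 ≤ b)
    (hT : ∀ i j, |T i j| ≤ b) (y y' : Fin k → ℝ) (h : ∀ j, |y j - y' j| ≤ c) (i : Fin k) :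
    |LATT_tau T y i - LATT_tau T y' i| ≤ k * (b * c) := by
  rw [LATT_tau_apply, LATT_tau_apply, ← Finset.sum_sub_distrib]
  refine (Finset.abs_sum_le_sum_abs _ _).trans ?_
  calc ∑ j, |T i j * y j - T i j * y' j| ≤ ∑ _j : Fin k, b * c := by
        refine Finset.sum_le_sum fun j _ => ?_
        rw [← mul_sub, abs_mul]
        exact mul_le_mul (hT i j) (h j) (abs_nonneg _) hb
    _ = k * (b * c) := by simp

/-- volume of a parallelepiped -/
private theorem LATT_vol {k : ℕ} {T : Fin k → Rk k} (hd : (Matrix.of T).det ≠ 0)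
    (lo hi : Fin k → ℝ) :
    volume (LATT_tau T ⁻¹' Set.Icc lo hi) =
      ENNReal.ofReal |((Matrix.of T).det)⁻¹| * ∏ i, ENNReal.ofReal (hi i - lo i) := by
  have h1 : LinearMap.det (LATT_tau T) ≠ 0 := by
    unfold LATT_tau
    rw [LinearMap.det_toLin']
    exact hd
  rw [MeasureTheory.Measure.addHaar_preimage_linearMap volume h1, Real.volume_Icc_pi]
  unfold LATT_tau
  rw [LinearMap.det_toLin']

private theorem LATT_fin {k : ℕ} {T : Fin k → Rk k} (hd : (Matrix.of T).det ≠ 0) (x : Fin k → ℝ)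
    (η : ℝ) : {z : Zk k | ∀ i, |rs T z i - x i| ≤ η}.Finite := by
  classical
  obtain ⟨G, hG⟩ : ∃ G : Matrix (Fin k) (Fin k) ℝ, G = (Matrix.of T)⁻¹ := ⟨_, rfl⟩
  have hGT : ∀ y : Fin k → ℝ, G.mulVec ((Matrix.of T).mulVec y) = y := by
    intro y
    rw [Matrix.mulVec_mulVec, hG, Matrix.nonsing_inv_mul _ (Ne.isUnit hd), Matrix.one_mulVec]
  obtain ⟨C, hC⟩ : ∃ C : ℝ, C = ∑ j, ∑ i, |G j i| * (|x i| + |η|) := ⟨_, rfl⟩
  have hCj : ∀ j, ∑ i, |G j i| * (|x i| + |η|) ≤ C := by
    intro j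
    rw [hC]
    exact Finset.single_le_sum (f := fun j => ∑ i, |G j i| * (|x i| + |η|))
      (fun j _ => Finset.sum_nonneg fun i _ => by positivity) (Finset.mem_univ j)
  refine Set.Finite.subset (Set.finite_Icc (fun _ : Fin k => -⌈C⌉) (fun _ => ⌈C⌉)) ?_
  intro z hz
  have hb : ∀ j, |(z j : ℝ)| ≤ C := by
    intro j
    have h1 := congrFun (hGT fun j => (z j : ℝ)) j
    have h2 : (z j : ℝ) = ∑ i, G j i * rs T z i := by
      rw [← h1]
      simp only [Matrix.mulVec, dotProduct]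
      rfl
    rw [h2]
    refine (Finset.abs_sum_le_sum_abs _ _).trans (le_trans ?_ (hCj j))
    refine Finset.sum_le_sum fun i _ => ?_
    rw [abs_mul]
    apply mul_le_mul_of_nonneg_left _ (abs_nonneg _)
    have h3 := hz i
    have h4 := abs_sub_abs_le_abs_sub (rs T z i) (x i)
    have h5 := le_abs_self η
    linarith
  have hb' : ∀ j, |z j| ≤ ⌈C⌉ := by
    intro j
    have h1 : ((|z j| : ℤ) : ℝ) ≤ (⌈C⌉ : ℝ) := by
      push_cast
      exact (hb j).trans (Int.le_ceil C)
    exact_mod_cast h1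
  exact ⟨fun j => (abs_le.mp (hb' j)).1, fun j => (abs_le.mp (hb' j)).2⟩

/-- LATT (lower bound). If the entries of `T` are at most `η / (k + 1)`, the number of lattice points
`z` with `|T_i · z - x_i| ≤ η` for all `i` is at least `η^k / |det T|`. Proof: the map
`τ : y ↦ (T_i · y)_i` of `ℝ^k` has determinant `det T`; the set
`Q = {y : ∀ i, |(τ y)_i - x_i| ≤ η / 2}` has volume `η^k / |det T|`; rounding
(`round`, coordinatewise) maps `Q` into the lattice points with `|T_i · z - x_i| ≤ η / 2 +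
k (η / (k+1)) / 2 ≤ η`; so `Q` is covered by the unit cubes around these points. Finiteness of the
set of such lattice points: `τ` is invertible. -/
theorem latt_ge {k : ℕ} {T : Fin k → Rk k} (hd : (Matrix.of T).det ≠ 0) {η : ℝ} (hη : 0 < η)
    (hT : ∀ i j, |T i j| ≤ η / (k + 1)) (x : Fin k → ℝ) :
    ∃ Z : Finset (Zk k), (∀ z, z ∈ Z ↔ ∀ i, |rs T z i - x i| ≤ η) ∧
      η ^ k ≤ Z.card * |(Matrix.of T).det| := by
  refine ⟨(LATT_fin hd x η).toFinset, fun z => Set.Finite.mem_toFinset _, ?_⟩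
  obtain ⟨Z, hZ⟩ : ∃ Z : Finset (Zk k), Z = (LATT_fin hd x η).toFinset := ⟨_, rfl⟩
  rw [← hZ]
  have hmem : ∀ z, z ∈ Z ↔ ∀ i, |rs T z i - x i| ≤ η := by
    intro z
    rw [hZ]
    exact Set.Finite.mem_toFinset _
  obtain ⟨c, hc⟩ : ∃ c : Zk k → Set (Fin k → ℝ), c = fun z =>
      Set.Icc (fun j => (z j : ℝ) - 1 / 2) (fun j => (z j : ℝ) + 1 / 2) := ⟨_, rfl⟩
  have hcv : ∀ z, volume (c z) = 1 := by
    intro z
    rw [hc]
    simp only
    rw [Real.volume_Icc_pi]
    refine Finset.prod_eq_one fun j _ => ?_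
    rw [show (z j : ℝ) + 1 / 2 - ((z j : ℝ) - 1 / 2) = 1 by ring, ENNReal.ofReal_one]
  have hk : (0 : ℝ) < (k : ℝ) + 1 := by positivity
  have hcov : LATT_tau T ⁻¹' Set.Icc (fun i => x i - η / 2) (fun i => x i + η / 2) ⊆
      ⋃ z ∈ Z, c z := by
    intro y hy
    obtain ⟨z, hz⟩ : ∃ z : Zk k, z = fun j => round (y j) := ⟨_, rfl⟩
    have hyz : ∀ j, |y j - (z j : ℝ)| ≤ 1 / 2 := by
      intro j
      rw [hz]
      exact abs_sub_round (y j)
    have hzZ : z ∈ Z := by
      rw [hmem]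
      intro i
      have h1 := LATT_diff T (by positivity) hT y (fun j => (z j : ℝ)) hyz i
      rw [← LATT_rs] at h1
      have h2 : (k : ℝ) * (η / (k + 1) * (1 / 2)) ≤ η / 2 := by
        have h3 : (k : ℝ) * (η / (k + 1) * (1 / 2)) = (k / (k + 1)) * (η / 2) := by
          field_simp
        rw [h3]
        apply mul_le_of_le_one_left (by positivity)
        rw [div_le_one hk]
        linarith
      have h4 : x i - η / 2 ≤ LATT_tau T y i := hy.1 i
      have h5 : LATT_tau T y i ≤ x i + η / 2 := hy.2 i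
      have h6 := abs_le.mp h1
      rw [abs_le]
      constructor <;> linarith [h6.1, h6.2]
    rw [Set.mem_iUnion₂]
    refine ⟨z, hzZ, ?_⟩
    rw [hc]
    constructor
    · intro j
      have := (abs_le.mp (hyz j)).1
      simp only
      linarith
    · intro j
      have := (abs_le.mp (hyz j)).2
      simp only
      linarith
  have h1 : volume (LATT_tau T ⁻¹' Set.Icc (fun i => x i - η / 2) (fun i => x i + η / 2)) ≤
      (Z.card : ENNReal) := by
    refine (measure_mono hcov).trans ((measure_biUnion_finset_le Z c).trans (le_of_eq ?_))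
    simp [hcv]
  rw [LATT_vol hd] at h1
  have h2 : ∏ i : Fin k, ENNReal.ofReal (x i + η / 2 - (x i - η / 2)) = ENNReal.ofReal (η ^ k) := by
    have h3 : ∀ i : Fin k, ENNReal.ofReal (x i + η / 2 - (x i - η / 2)) = ENNReal.ofReal η := by
      intro i
      congr 1
      ring
    simp only [h3, Finset.prod_const, Finset.card_univ, Fintype.card_fin]
    rw [ENNReal.ofReal_pow hη.le]
  rw [h2, ← ENNReal.ofReal_mul (abs_nonneg _), ← ENNReal.ofReal_natCast,
    ENNReal.ofReal_le_ofReal_iff (Nat.cast_nonneg _), abs_inv] at h1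
  have hD : 0 < |(Matrix.of T).det| := abs_pos.mpr hd
  rw [inv_mul_le_iff₀ hD] at h1
  linarith

/-- LATT (upper bound). The unit cubes around the points of `Z` are disjoint and contained in
`{y : ∀ i, |(τ y)_i| ≤ R + 1}`, which has volume `(2 (R + 1))^k / |det T|`. -/
theorem latt_le {k : ℕ} {T : Fin k → Rk k} (hd : (Matrix.of T).det ≠ 0) {R : ℝ} (hR : 0 ≤ R)
    (hT : ∀ i j, |T i j| ≤ 1 / (k + 1)) (Z : Finset (Zk k)) (hZ : ∀ z ∈ Z, ∀ i, |rs T z i| ≤ R) :
    Z.card * |(Matrix.of T).det| ≤ (2 * (R + 1)) ^ k := by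
  obtain ⟨c, hc⟩ : ∃ c : Zk k → Set (Fin k → ℝ), c = fun z =>
      Set.pi Set.univ fun j => Set.Ico (z j : ℝ) ((z j : ℝ) + 1) := ⟨_, rfl⟩
  have hcm : ∀ z y, y ∈ c z ↔ ∀ j, (z j : ℝ) ≤ y j ∧ y j < (z j : ℝ) + 1 := by
    intro z y
    rw [hc]
    simp only [Set.mem_univ_pi, Set.mem_Ico]
  have hcv : ∀ z, volume (c z) = 1 := by
    intro z
    rw [hc]
    simp only
    rw [Real.volume_pi_Ico]
    refine Finset.prod_eq_one fun j _ => ?_
    rw [show (z j : ℝ) + 1 - (z j : ℝ) = 1 by ring, ENNReal.ofReal_one]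
  have hk : (0 : ℝ) < (k : ℝ) + 1 := by positivity
  have hsub : ⋃ z ∈ Z, c z ⊆
      LATT_tau T ⁻¹' Set.Icc (fun _ => -(R + 1)) (fun _ => R + 1) := by
    intro y hy
    rw [Set.mem_iUnion₂] at hy
    obtain ⟨z, hz, hyz⟩ := hy
    rw [hcm] at hyz
    have h1 : ∀ j, |y j - (z j : ℝ)| ≤ 1 := by
      intro j
      rw [abs_le]
      constructor <;> linarith [(hyz j).1, (hyz j).2]
    have h2 : ∀ i, |LATT_tau T y i| ≤ R + 1 := by
      intro i
      have h3 := LATT_diff T (by positivity) hT y (fun j => (z j : ℝ)) h1 i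
      rw [← LATT_rs] at h3
      have h4 : (k : ℝ) * (1 / (k + 1) * 1) ≤ 1 := by
        rw [mul_one, mul_one_div, div_le_one hk]
        linarith
      have h5 := hZ z hz i
      have h6 := abs_sub_abs_le_abs_sub (LATT_tau T y i) (rs T z i)
      linarith
    exact ⟨fun i => (abs_le.mp (h2 i)).1, fun i => (abs_le.mp (h2 i)).2⟩
  have hdis : Set.PairwiseDisjoint (Z : Set (Zk k)) c := by
    intro z _ z' _ hne
    rw [Function.onFun, Set.disjoint_left]
    intro y hy hy'
    rw [hcm] at hy hy'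
    apply hne
    funext j
    have h1 : ⌊y j⌋ = z j := by
      rw [Int.floor_eq_iff]
      exact hy j
    have h2 : ⌊y j⌋ = z' j := by
      rw [Int.floor_eq_iff]
      exact hy' j
    rw [← h1, h2]
  have hmeas : ∀ z ∈ Z, MeasurableSet (c z) := by
    intro z _
    rw [hc]
    exact MeasurableSet.univ_pi fun _ => measurableSet_Ico
  have h1 : (Z.card : ENNReal) ≤
      volume (LATT_tau T ⁻¹' Set.Icc (fun _ => -(R + 1)) (fun _ => R + 1)) := by
    refine le_trans (le_of_eq ?_) (measure_mono hsub)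
    rw [measure_biUnion_finset hdis hmeas]
    simp [hcv]
  rw [LATT_vol hd] at h1
  have h2 : ∏ _i : Fin k, ENNReal.ofReal (R + 1 - -(R + 1)) =
      ENNReal.ofReal ((2 * (R + 1)) ^ k) := by
    rw [show R + 1 - -(R + 1) = 2 * (R + 1) by ring, Finset.prod_const, Finset.card_univ,
      Fintype.card_fin, ENNReal.ofReal_pow (by positivity)]
  rw [h2, ← ENNReal.ofReal_mul (abs_nonneg _), ← ENNReal.ofReal_natCast,
    ENNReal.ofReal_le_ofReal_iff (by positivity), abs_inv] at h1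
  have hD : 0 < |(Matrix.of T).det| := abs_pos.mpr hd
  rw [le_inv_mul_iff₀ hD] at h1
  linarith

end Pool.Agent.SawM2
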