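import Pool.Agent.SawM2.Basic

/-!
# Systems of maximal determinant (module MAXD)
-/

set_option autoImplicit false

namespace Pool.Agent.SawM2

open Finset MeasureTheory

/-- `T` is a system of `k` vectors of `A` with maximal determinant. -/
def MaxDet {k : ℕ} (A : Set (Rk k)) (T : Fin k → Rk k) : Prop :=
  (∀ i, T i ∈ A) ∧ ∀ T' : Fin k → Rk k, (∀ i, T' i ∈ A) →
    |(Matrix.of T').det| ≤ |(Matrix.of T).det|

/-- MAXD. Existence (continuity of the determinant on the compact set `A^k`,
`isCompact_univ_pi`, `IsCompact.exists_isMaxOn`). -/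
theorem exists_maxDet {k : ℕ} {A : Set (Rk k)} (hA : IsCompact A) (hne : A.Nonempty) :
    ∃ T, MaxDet A T := by
  have hc : IsCompact (Set.pi Set.univ fun _ : Fin k => A) := isCompact_univ_pi fun _ => hA
  have hn : (Set.pi Set.univ fun _ : Fin k => A).Nonempty := by
    obtain ⟨a, ha⟩ := hne
    exact ⟨fun _ => a, fun _ _ => ha⟩
  have hcont : Continuous fun T : Fin k → Rk k => |(Matrix.of T).det| := by
    have h1 : Continuous fun T : Fin k → Rk k => (Matrix.of T : Matrix (Fin k) (Fin k) ℝ) :=
      continuous_matrix fun i j => (continuous_apply j).comp (continuous_apply i)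
    exact h1.matrix_det.abs
  obtain ⟨T, hT, hmax⟩ := hc.exists_isMaxOn hn hcont.continuousOn
  refine ⟨T, fun i => hT i (Set.mem_univ i), fun T' hT' => ?_⟩
  exact hmax (show T' ∈ (Set.pi Set.univ fun _ : Fin k => A) from fun i _ => hT' i)

/-- MAXD. If `A` is a neighbourhood of `0` the determinant is not `0` (`ε e_i ∈ A`). -/
theorem MaxDet.det_ne_zero {k : ℕ} {A : Set (Rk k)} {T : Fin k → Rk k}
    (h : MaxDet A T) (h0 : A ∈ nhds 0) : (Matrix.of T).det ≠ 0 := by
  obtain ⟨ε, hε, hb⟩ := Metric.mem_nhds_iff.1 h0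
  intro hdet
  have hmem : ∀ i : Fin k, ((ε / 2) • (Pi.single i (1 : ℝ) : Rk k)) ∈ A := by
    intro i
    apply hb
    rw [mem_ball_zero_iff, norm_smul, Pi.norm_single, norm_one, mul_one, Real.norm_eq_abs,
      abs_of_pos (half_pos hε)]
    linarith
  have h1 := h.2 (fun i => (ε / 2) • (Pi.single i (1 : ℝ) : Rk k)) hmem
  have h2 : (Matrix.of fun i : Fin k => (ε / 2) • (Pi.single i (1 : ℝ) : Rk k)) =
      (ε / 2) • (1 : Matrix (Fin k) (Fin k) ℝ) := by
    ext i j
    simp only [Matrix.of_apply, Pi.smul_apply, Matrix.smul_apply, Matrix.one_apply,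
      Pi.single_apply, smul_eq_mul]
    congr 1
    by_cases hij : i = j
    · rw [if_pos hij, if_pos hij.symm]
    · rw [if_neg hij, if_neg (Ne.symm hij)]
  rw [h2, hdet, abs_zero, Matrix.det_smul, Matrix.det_one, mul_one] at h1
  have h3 : 0 < |(ε / 2) ^ Fintype.card (Fin k)| := abs_pos.2 (pow_ne_zero _ (half_pos hε).ne')
  exact absurd h1 (not_le.2 h3)

/-- MAXD. Coordinates in the basis `T` by Cramer's rule: if `θ` and the vectors of `T` lie in
`A'`, and `T'` is a system with maximal determinant of `A'`, then `θ = Σ c_i T_i` with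
`|c_i| ≤ |det T'| / |det T|` (`c_i = det (T with T_i replaced by θ) / det T`,
`Matrix.cramer`, `Matrix.updateRow`). -/
theorem MaxDet.coord {k : ℕ} {A' : Set (Rk k)} {T T' : Fin k → Rk k}
    (h' : MaxDet A' T') (hT : ∀ i, T i ∈ A') (hd : (Matrix.of T).det ≠ 0) {θ : Rk k}
    (hθ : θ ∈ A') : ∃ c : Rk k, (∀ i, |c i| ≤ |(Matrix.of T').det| / |(Matrix.of T).det|) ∧
      θ = ∑ i, c i • T i := by
  refine ⟨fun i => ((Matrix.of T).det)⁻¹ * ((Matrix.of T).updateRow i θ).det, fun i => ?_, ?_⟩
  · have h1 : |((Matrix.of T).updateRow i θ).det| ≤ |(Matrix.of T').det| := by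
      have h2 : (Matrix.of T).updateRow i θ = Matrix.of (Function.update T i θ) := rfl
      rw [h2]
      refine h'.2 _ fun l => ?_
      by_cases hl : l = i
      · rw [hl, Function.update_self]
        exact hθ
      · rw [Function.update_of_ne hl]
        exact hT l
    show |((Matrix.of T).det)⁻¹ * ((Matrix.of T).updateRow i θ).det| ≤ _
    rw [abs_mul, abs_inv, div_eq_inv_mul]
    exact mul_le_mul_of_nonneg_left h1 (by positivity)
  · have h1 := Matrix.mulVec_cramer (Matrix.of T).transpose θ
    have h2 : ∀ i, (Matrix.cramer (Matrix.of T).transpose θ) i =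
        ((Matrix.of T).updateRow i θ).det := fun i => Matrix.cramer_transpose_apply _ _ _
    ext j
    have h3 := congrFun h1 j
    rw [Matrix.det_transpose, Pi.smul_apply, smul_eq_mul] at h3
    have h4 : ((Matrix.of T).transpose.mulVec (Matrix.cramer (Matrix.of T).transpose θ)) j =
        ∑ i, T i j * ((Matrix.of T).updateRow i θ).det := by
      rw [Matrix.mulVec, dotProduct]
      refine Finset.sum_congr rfl fun i _ => ?_
      rw [h2]
      rfl
    rw [h4] at h3
    rw [Finset.sum_apply]
    have h5 : ∀ i, ((((Matrix.of T).det)⁻¹ * ((Matrix.of T).updateRow i θ).det) • T i) j =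
        ((Matrix.of T).det)⁻¹ * (T i j * ((Matrix.of T).updateRow i θ).det) := by
      intro i
      rw [Pi.smul_apply, smul_eq_mul]
      ring
    simp only [h5]
    rw [← Finset.mul_sum, h3, ← mul_assoc, inv_mul_cancel₀ hd, one_mul]

end Pool.Agent.SawM2
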