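import Pool.Agent.SawM2.Basic

/-!
# Second moments of frequencies (module MFL)
-/

set_option autoImplicit false

namespace Pool.Agent.SawM2

open Finset Filter Pool.Agent.Bub4 Pool.Agent.SawDiff

variable {S V : Type} [Fintype S] [AddCommGroup V] {Y : Sys S V} {Λ K : ℝ} {ρ : List S → ℝ}

/-- a function that vanishes outside of one word -/
private theorem mfl_single (Y : Sys S V) (γ : List S) (F : List S → ℝ)
    (hF : ∀ w, w.length = γ.length → w ≠ γ → F w = 0) :
    Y.E γ.length F = Y.z ^ γ.length * F γ := by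
  rw [Y.E_eq, Finset.sum_eq_single (fun i : Fin γ.length => γ.get i)]
  · rw [List.ofFn_get]
  · intro w _ hw
    rw [hF (List.ofFn w) (List.length_ofFn), mul_zero]
    intro h
    apply hw
    have h1 : List.ofFn w = List.ofFn (fun i : Fin γ.length => γ.get i) := by
      rw [List.ofFn_get]; exact h
    exact List.ofFn_injective h1
  · intro h
    exact absurd (Finset.mem_univ _) h

/-- mean of the indicator of an occurrence -/
private theorem mfl_occ (h : Bulk Y Λ ρ) (γ : List S) {i N : ℕ} (hN : i + γ.length ≤ N) :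
    (Y.E N fun w => ρ w * occ γ i w) = Y.z ^ γ.length * ρ γ := by
  have h1 := h.win i γ.length (N - i - γ.length) (fun w => occ γ 0 w)
  have e1 : i + γ.length + (N - i - γ.length) = N := by omega
  rw [e1] at h1
  have h2 : (Y.E N fun w => ρ w * occ γ i w) =
      Y.E N fun w => ρ w * occ γ 0 ((w.drop i).take γ.length) := by
    refine Y.E_congr fun w _ => ?_
    rw [occ_take γ (by omega), occ_drop, Nat.add_zero]
  rw [h2, h1, mfl_single Y γ]
  · have h3 : occ γ 0 γ = 1 := by
      unfold occ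
      rw [if_pos]
      simp
    rw [h3, mul_one]
  · intro w hw hne
    have h3 : occ γ 0 w = 0 := by
      unfold occ
      rw [if_neg]
      intro h4
      rw [List.drop_zero] at h4
      exact hne (h4.eq_of_length hw.symm).symm
    rw [h3, mul_zero]

/-- MFL. Mean of the frequency: every summand has mean `z^|γ| ρ γ` (`Bulk.win`; for `|w| = |γ|`,
`occ γ 0 w = 1` iff `w = γ`). -/
theorem mean_av (h : Bulk Y Λ ρ) (γ : List S) {H N : ℕ} (hH : 0 < H) (hN : H + γ.length ≤ N) :
    (Y.E N fun w => ρ w * av γ H w) = Y.z ^ γ.length * ρ γ := by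
  have h1 : (Y.E N fun w => ρ w * av γ H w) =
      Y.E N fun w => (H : ℝ)⁻¹ * ∑ i ∈ range H, ρ w * occ γ i w := by
    refine Y.E_congr fun w _ => ?_
    unfold av
    rw [← Finset.mul_sum]
    ring
  rw [h1, Y.E_mul_left, Y.E_fsum]
  have h2 : ∀ i ∈ range H, (Y.E N fun w => ρ w * occ γ i w) = Y.z ^ γ.length * ρ γ := by
    intro i hi
    rw [Finset.mem_range] at hi
    exact mfl_occ h γ (by omega)
  rw [Finset.sum_congr rfl h2, Finset.sum_const, Finset.card_range, nsmul_eq_mul, ← mul_assoc,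
    inv_mul_cancel₀ (by exact_mod_cast hH.ne'), one_mul]

/-- MFL. Second moment in a longer word and at another place. -/
theorem mf_win (h : Bulk Y Λ ρ) (γ : List S) {H N p : ℕ} (hN : p + H + γ.length ≤ N) :
    (Y.E N fun w => ρ w * av γ H (w.drop p) ^ 2) = mf Y ρ γ H := by
  have h1 := h.win p (H + γ.length) (N - p - (H + γ.length)) (fun w => av γ H w ^ 2)
  have e1 : p + (H + γ.length) + (N - p - (H + γ.length)) = N := by omega
  rw [e1] at h1
  unfold mf
  rw [← h1]
  refine Y.E_congr fun w _ => ?_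
  rw [av_take γ le_rfl]

/-- MFL. `mf γ H` is at least the square of the mean `z^|γ| ρ γ` (Cauchy-Schwarz `E_cs` and
stationarity `Bulk.win`). -/
theorem mf_ge (h : Bulk Y Λ ρ) (γ : List S) {H : ℕ} (hH : 0 < H) :
    (Y.z ^ γ.length * ρ γ) ^ 2 ≤ mf Y ρ γ H := by
  have h1 := E_cs Y (H + γ.length) h.nonneg (fun w => av γ H w) (fun _ => 1)
  simp only [mul_one, one_pow] at h1
  rw [mean_av h γ hH le_rfl, h.mass, mul_one] at h1
  exact h1

/-- monotonicity up to the relative size of the last incomplete block -/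
private theorem mfl_step (h : Bulk Y Λ ρ) (γ : List S) {H H' : ℕ} (hH : 0 < H) (hHH : H ≤ H') :
    mf Y ρ γ H' ≤ mf Y ρ γ H + 3 * (H : ℝ) / H' := by
  set q : ℕ := H' / H with hq
  have hq1 : 0 < q := Nat.div_pos hHH hH
  have hqH : q * H ≤ H' := Nat.div_mul_le_self H' H
  have hqH2 : H' < q * H + H := by
    have := Nat.lt_div_mul_add (a := H') hH
    exact this
  have hH' : (0 : ℝ) < H' := by
    have : 0 < H' := lt_of_lt_of_le hH hHH
    exact_mod_cast this
  have hHr : (0 : ℝ) < H := by exact_mod_cast hH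
  have hqHr : (0 : ℝ) < (q * H : ℕ) := by
    have : 0 < q * H := Nat.mul_pos hq1 hH
    exact_mod_cast this
  -- pointwise comparison
  have hpt : ∀ w : List S, av γ H' w ≤ av γ (q * H) w + (H : ℝ) / H' := by
    intro w
    have h1 : ∑ i ∈ range H', occ γ i w ≤ ∑ i ∈ range (q * H), occ γ i w + H := by
      have e1 : H' = q * H + (H' - q * H) := by omega
      rw [e1, Finset.sum_range_add]
      have h2 : ∑ i ∈ range (H' - q * H), occ γ (q * H + i) w ≤ ((H' - q * H : ℕ) : ℝ) := by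
        have := Finset.sum_le_card_nsmul (range (H' - q * H)) (fun i => occ γ (q * H + i) w) 1
          (fun i _ => occ_le_one γ _ w)
        simpa using this
      have h3 : ((H' - q * H : ℕ) : ℝ) ≤ H := by
        have : H' - q * H ≤ H := by omega
        exact_mod_cast this
      linarith
    have h4 : av γ H' w ≤ (H' : ℝ)⁻¹ * (∑ i ∈ range (q * H), occ γ i w) + (H : ℝ) / H' := by
      unfold av
      have h5 := mul_le_mul_of_nonneg_left h1 (inv_nonneg.2 hH'.le)
      refine h5.trans (le_of_eq ?_)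
      field_simp
    refine h4.trans ?_
    have h6 : (H' : ℝ)⁻¹ * (∑ i ∈ range (q * H), occ γ i w) ≤ av γ (q * H) w := by
      unfold av
      refine mul_le_mul_of_nonneg_right ?_ (Finset.sum_nonneg fun i _ => occ_nonneg _ _ _)
      have h7 : ((q * H : ℕ) : ℝ) ≤ H' := by exact_mod_cast hqH
      exact inv_anti₀ hqHr h7
    linarith
  have hr0 : 0 ≤ (H : ℝ) / H' := div_nonneg hHr.le hH'.le
  have hr1 : (H : ℝ) / H' ≤ 1 := by
    rw [div_le_one hH']
    exact_mod_cast hHH
  have hsq : ∀ w : List S, av γ H' w ^ 2 ≤ av γ (q * H) w ^ 2 + 3 * ((H : ℝ) / H') := by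
    intro w
    have h1 := hpt w
    have h2 := av_nonneg γ H' w
    have h3 := av_nonneg γ (q * H) w
    have h4 := av_le_one γ (q * H) w
    have h5 : av γ H' w ^ 2 ≤ (av γ (q * H) w + (H : ℝ) / H') ^ 2 := pow_le_pow_left₀ h2 h1 2
    have h6 : av γ (q * H) w * ((H : ℝ) / H') ≤ 1 * ((H : ℝ) / H') :=
      mul_le_mul_of_nonneg_right h4 hr0
    have h7 : ((H : ℝ) / H') * ((H : ℝ) / H') ≤ 1 * ((H : ℝ) / H') :=
      mul_le_mul_of_nonneg_right hr1 hr0
    have h8 : (av γ (q * H) w + (H : ℝ) / H') ^ 2 = av γ (q * H) w ^ 2 +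
      2 * (av γ (q * H) w * ((H : ℝ) / H')) + ((H : ℝ) / H') * ((H : ℝ) / H') := by ring
    linarith
  have h1 : mf Y ρ γ H' ≤ mf Y ρ γ (q * H) + 3 * ((H : ℝ) / H') := by
    have h2 : (Y.E (H' + γ.length) fun w => ρ w * av γ H' w ^ 2) ≤
        Y.E (H' + γ.length) fun w => ρ w * av γ (q * H) (w.drop 0) ^ 2 +
          ρ w * (3 * ((H : ℝ) / H')) := by
      refine Y.E_mono fun w _ => ?_
      rw [← mul_add]
      refine mul_le_mul_of_nonneg_left ?_ (h.nonneg w)
      rw [List.drop_zero]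
      exact hsq w
    rw [Y.E_fadd, mf_win h γ (by omega), Y.E_mul_right, h.mass, one_mul] at h2
    exact h2
  have h3 := block_var h γ hH hq1
  have h4 : 0 ≤ (q : ℝ)⁻¹ * ∑ j ∈ range q, (Y.E (q * H + γ.length) fun w =>
      ρ w * (av γ H (w.drop (j * H)) - av γ (q * H) w) ^ 2) := by
    refine mul_nonneg (inv_nonneg.2 (Nat.cast_nonneg _)) (Finset.sum_nonneg fun j _ => ?_)
    exact Y.E_nonneg' fun w => mul_nonneg (h.nonneg w) (sq_nonneg _)
  rw [mul_div_assoc]
  linarith

/-- MFL. The second moment of the frequency converges to its infimum. Proof: `mf (q H) ≤ mf H`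
(`block_var`, its left side is nonnegative); for `q H ≤ H' < (q + 1) H` the frequencies for the
windows `H'` and `q H` differ by at most `2 H / H'` (both in `[0, 1]`), so
`mf H' ≤ mf (q H) + 4 H / H'`; `0 ≤ mf ≤ 1`. (`mf γ 0 = 0` is excluded by `0 < H`.) -/
theorem mf_lim (h : Bulk Y Λ ρ) (γ : List S) :
    ∃ m : ℝ, Tendsto (fun H => mf Y ρ γ H) atTop (nhds m) ∧ ∀ H, 0 < H → m ≤ mf Y ρ γ H := by
  have h0 : ∀ H, 0 ≤ mf Y ρ γ H := fun H =>
    Y.E_nonneg' fun w => mul_nonneg (h.nonneg w) (sq_nonneg _)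
  set A : Set ℝ := {x | ∃ H : ℕ, 0 < H ∧ x = mf Y ρ γ H} with hA
  have hne : A.Nonempty := ⟨_, 1, one_pos, rfl⟩
  have hbd : BddBelow A := ⟨0, by
    rintro x ⟨H, -, rfl⟩
    exact h0 H⟩
  have hinf : ∀ H, 0 < H → sInf A ≤ mf Y ρ γ H := fun H hH => csInf_le hbd ⟨H, hH, rfl⟩
  refine ⟨sInf A, ?_, hinf⟩
  rw [Metric.tendsto_atTop]
  intro ε hε
  obtain ⟨x, ⟨H, hH, rfl⟩, hx⟩ := exists_lt_of_csInf_lt hne
    (show sInf A < sInf A + ε / 2 by linarith)
  obtain ⟨N, hN⟩ := exists_nat_gt (6 * (H : ℝ) / ε)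
  refine ⟨max N H, fun H' hH' => ?_⟩
  have h1 : H ≤ H' := (le_max_right _ _).trans hH'
  have h2 : N ≤ H' := (le_max_left _ _).trans hH'
  have h3 := mfl_step h γ hH h1
  have h4 : 0 < H' := lt_of_lt_of_le hH h1
  have h5 := hinf H' h4
  have h4' : (0 : ℝ) < H' := by exact_mod_cast h4
  have h6 : 3 * (H : ℝ) / H' < ε / 2 := by
    have h7 : 6 * (H : ℝ) / ε < H' := hN.trans_le (by exact_mod_cast h2)
    rw [div_lt_iff₀ hε] at h7
    rw [div_lt_iff₀ h4']
    linarith
  rw [Real.dist_eq, abs_lt]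
  constructor <;> linarith

end Pool.Agent.SawM2
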