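import Pool.Agent.SawM2.ErgR

/-!
# Characteristic functions (module PHA)
-/

set_option autoImplicit false

namespace Pool.Agent.SawM2

open Finset Filter Pool.Agent.Bub4 Pool.Agent.SawDiff

variable {S V : Type} [Fintype S] [AddCommGroup V] {Y : Sys S V} {Λ K : ℝ} {ρ : List S → ℝ}
  {k : ℕ} {π : V →+ Zk k}

/-- MULT. Elementary properties of the characteristic functions. -/
theorem norm_ph_le (h : Erg Y Λ K ρ) (n : ℕ) (θ : Rk k) : ‖ph Y π ρ n θ‖ ≤ 1 := by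
  have h1 := (nn_lw Y π h.bulk.nonneg n).norm_ft_le θ
  rw [mass_lw, h.bulk.mass] at h1
  exact h1

theorem ph_zero_right (h : Erg Y Λ K ρ) (n : ℕ) : ph Y π ρ n 0 = 1 := by
  unfold ph
  rw [Fm.ft_zero, mass_lw, h.bulk.mass]
  simp

theorem continuous_ph (n : ℕ) : Continuous (ph Y π ρ n) := Fm.continuous_ft _

theorem ph_neg (n : ℕ) (θ : Rk k) : ph Y π ρ n (-θ) = (starRingEnd ℂ) (ph Y π ρ n θ) :=
  Fm.ft_neg _ _

theorem ph_rv (n : ℕ) (θ : Rk k) : ph Y π (rv ρ) n θ = ph Y π ρ n θ := by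
  apply Complex.ext
  · unfold ph
    rw [Fm.re_ft, Fm.re_ft, pr_lw, pr_lw, ← Y.E_reverse]
    refine Y.E_congr fun w _ => ?_
    simp [rv]
  · unfold ph
    rw [Fm.im_ft, Fm.im_ft, pr_lw, pr_lw, ← Y.E_reverse]
    refine Y.E_congr fun w _ => ?_
    simp [rv]

end Pool.Agent.SawM2
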