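import Pool.Agent.SawM2.NTwo
import Pool.Agent.SawM2.PhA

/-!
# Almost multiplicativity (module MULT)
-/

set_option autoImplicit false

namespace Pool.Agent.SawM2

open Finset Filter Pool.Agent.Bub4 Pool.Agent.SawDiff

variable {S V : Type} [Fintype S] [AddCommGroup V] {Y : Sys S V} {Λ K : ℝ} {ρ : List S → ℝ}
  {k : ℕ} {π : V →+ Zk k}

private theorem mult_lip {δ L : ℝ} (hL : 0 < L) {θ : Rk k} (hθ : ∀ i, |θ i| ≤ δ)
    (hδ : δ * L ≤ 1) {F : ℝ → ℝ} (hF : ∀ s t, |F s - F t| ≤ |s - t|) {c : ℝ} (hc : |c| ≤ 1) :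
    Lip L fun x : Zk k => F (dt θ x) * c := by
  intro x y
  simp only
  rw [← sub_mul, abs_mul]
  refine (mul_le_of_le_one_right (abs_nonneg _) hc).trans ?_
  refine (hF _ _).trans ?_
  rw [← dt_sub_right]
  refine (abs_dt_le hθ _).trans ?_
  rw [le_div_iff₀ hL]
  have h0 : (0 : ℝ) ≤ n1 (x - y) := Nat.cast_nonneg _
  nlinarith

private theorem mult_cos (s t : ℝ) : |Real.cos s - Real.cos t| ≤ |s - t| :=
  Real.abs_cos_sub_cos_le s t

private theorem mult_sin (s t : ℝ) : |Real.sin s - Real.sin t| ≤ |s - t| :=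
  Real.abs_sin_sub_sin_le s t

/-- MULT. Almost multiplicativity of the characteristic functions at low frequency: `near2` with the
four functions `cos`/`sin` `(θ · x)` times `cos`/`sin` `(θ · π (sm v))`; `x ↦ cos (θ · x)` is
Lipschitz with constant `max |θ_i|` (`abs_dt_le`). -/
theorem ph_mul (h : Erg Y Λ K ρ) (hπ : Stp Y π) {ε : ℝ} (hε : 0 < ε) :
    ∃ δ : ℝ, 0 < δ ∧ ∀ θ : Rk k, (∀ i, |θ i| ≤ δ) → ∀ m n,
      ‖ph Y π ρ (m + n) θ - ph Y π ρ m θ * ph Y π ρ n θ‖ ≤ ε := by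
  obtain ⟨L₀, hL₀, hN⟩ := near2 (π := π) h hπ (show 0 < ε / 4 by positivity)
  refine ⟨L₀⁻¹, inv_pos.2 hL₀, fun θ hθ m n => ?_⟩
  have hδ : L₀⁻¹ * L₀ ≤ 1 := by rw [inv_mul_cancel₀ hL₀.ne']
  have key : ∀ F G : ℝ → ℝ, (∀ s t, |F s - F t| ≤ |s - t|) → (∀ s, |F s| ≤ 1) →
      (∀ s, |G s| ≤ 1) →
      |(Y.E m fun u => Y.E n fun v => ρ (u ++ v) *
        (F (dt θ (π (Y.sm u))) * G (dt θ (π (Y.sm v))))) -
        (Y.E m fun u => ρ u * F (dt θ (π (Y.sm u)))) *
          Y.E n fun v => ρ v * G (dt θ (π (Y.sm v)))| ≤ ε / 4 := by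
    intro F G hF hF1 hG1
    have h2 := hN L₀ le_rfl m n (fun x v => F (dt θ x) * G (dt θ (π (Y.sm v))))
      (fun x v => by
        rw [abs_mul]
        exact mul_le_one₀ (hF1 _) (abs_nonneg _) (hG1 _))
      (fun v => mult_lip hL₀ hθ hδ hF (hG1 _))
    refine le_trans (le_of_eq ?_) h2
    congr 1
    rw [← Y.E_mul_right, ← Y.E_fsub]
    refine Y.E_congr fun u _ => ?_
    rw [← Y.E_mul_left, ← Y.E_fsub]
    exact Y.E_congr fun v _ => by ring
  have hc1 : ∀ s, |Real.cos s| ≤ 1 := Real.abs_cos_le_one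
  have hs1 : ∀ s, |Real.sin s| ≤ 1 := Real.abs_sin_le_one
  have kcc := key _ _ mult_cos hc1 hc1
  have kss := key _ _ mult_sin hs1 hs1
  have kcs := key _ _ mult_cos hc1 hs1
  have ksc := key _ _ mult_sin hs1 hc1
  -- real and imaginary parts
  have hre : ∀ l, (ph Y π ρ l θ).re = Y.E l fun w => ρ w * Real.cos (dt θ (π (Y.sm w))) := by
    intro l
    unfold ph
    rw [Fm.re_ft, pr_lw]
  have him : ∀ l, (ph Y π ρ l θ).im = Y.E l fun w => ρ w * Real.sin (dt θ (π (Y.sm w))) := by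
    intro l
    unfold ph
    rw [Fm.im_ft, pr_lw]
  have e1 : (ph Y π ρ (m + n) θ).re = (Y.E m fun u => Y.E n fun v => ρ (u ++ v) *
        (Real.cos (dt θ (π (Y.sm u))) * Real.cos (dt θ (π (Y.sm v))))) -
      Y.E m fun u => Y.E n fun v => ρ (u ++ v) *
        (Real.sin (dt θ (π (Y.sm u))) * Real.sin (dt θ (π (Y.sm v)))) := by
    rw [hre, Y.E_add, ← Y.E_fsub]
    refine Y.E_congr fun u _ => ?_
    rw [← Y.E_fsub]
    refine Y.E_congr fun v _ => ?_
    rw [Y.sm_append, map_add, dt_add_right, Real.cos_add]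
    ring
  have e2 : (ph Y π ρ (m + n) θ).im = (Y.E m fun u => Y.E n fun v => ρ (u ++ v) *
        (Real.sin (dt θ (π (Y.sm u))) * Real.cos (dt θ (π (Y.sm v))))) +
      Y.E m fun u => Y.E n fun v => ρ (u ++ v) *
        (Real.cos (dt θ (π (Y.sm u))) * Real.sin (dt θ (π (Y.sm v)))) := by
    rw [him, Y.E_add, ← Y.E_fadd]
    refine Y.E_congr fun u _ => ?_
    rw [← Y.E_fadd]
    refine Y.E_congr fun v _ => ?_
    rw [Y.sm_append, map_add, dt_add_right, Real.sin_add]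
    ring
  refine (Complex.norm_le_abs_re_add_abs_im _).trans ?_
  rw [Complex.sub_re, Complex.sub_im, Complex.mul_re, Complex.mul_im, e1, e2, hre, hre, him, him]
  have f1 := abs_le.1 kcc
  have f2 := abs_le.1 kss
  have f3 := abs_le.1 kcs
  have f4 := abs_le.1 ksc
  have g1 : |((Y.E m fun u => Y.E n fun v => ρ (u ++ v) *
        (Real.cos (dt θ (π (Y.sm u))) * Real.cos (dt θ (π (Y.sm v))))) -
      Y.E m fun u => Y.E n fun v => ρ (u ++ v) *
        (Real.sin (dt θ (π (Y.sm u))) * Real.sin (dt θ (π (Y.sm v))))) -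
      ((Y.E m fun w => ρ w * Real.cos (dt θ (π (Y.sm w)))) *
        (Y.E n fun w => ρ w * Real.cos (dt θ (π (Y.sm w)))) -
      (Y.E m fun w => ρ w * Real.sin (dt θ (π (Y.sm w)))) *
        Y.E n fun w => ρ w * Real.sin (dt θ (π (Y.sm w))))| ≤ ε / 2 := by
    rw [abs_le]; constructor <;> linarith [f1.1, f1.2, f2.1, f2.2]
  have g2 : |((Y.E m fun u => Y.E n fun v => ρ (u ++ v) *
        (Real.sin (dt θ (π (Y.sm u))) * Real.cos (dt θ (π (Y.sm v))))) +
      Y.E m fun u => Y.E n fun v => ρ (u ++ v) *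
        (Real.cos (dt θ (π (Y.sm u))) * Real.sin (dt θ (π (Y.sm v))))) -
      ((Y.E m fun w => ρ w * Real.cos (dt θ (π (Y.sm w)))) *
        (Y.E n fun w => ρ w * Real.sin (dt θ (π (Y.sm w)))) +
      (Y.E m fun w => ρ w * Real.sin (dt θ (π (Y.sm w)))) *
        Y.E n fun w => ρ w * Real.cos (dt θ (π (Y.sm w))))| ≤ ε / 2 := by
    rw [abs_le]; constructor <;> linarith [f3.1, f3.2, f4.1, f4.2]
  linarith

/-- MULT. Products of bounded functions of the displacements of consecutive blocks of the same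
length `n`. Induction on `j` with `near2` (`u` = first block). -/
theorem near_prod (h : Erg Y Λ K ρ) (hπ : Stp Y π) {ε : ℝ} (hε : 0 < ε) :
    ∃ L₀ : ℝ, 0 < L₀ ∧ ∀ L ≥ L₀, ∀ (n j : ℕ) (f : Zk k → ℝ), (∀ x, 0 ≤ f x) → (∀ x, f x ≤ 1) →
      Lip L f →
      |(Y.E (j * n) fun w => ρ w * ∏ i ∈ range j, f (π (Y.sm ((w.drop (i * n)).take n)))) -
        (Y.E n fun w => ρ w * f (π (Y.sm w))) ^ j| ≤ j * ε := by
  obtain ⟨L₀, hL₀, hN⟩ := near2 (π := π) h hπ hε
  refine ⟨L₀, hL₀, fun L hL n j f hf hf1 hl => ?_⟩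
  have hb := h.bulk
  have hL0 : 0 < L := lt_of_lt_of_le hL₀ hL
  have hp0 : ∀ (j : ℕ) (w : List S),
      0 ≤ ∏ i ∈ range j, f (π (Y.sm ((w.drop (i * n)).take n))) := fun j w =>
    Finset.prod_nonneg fun i _ => hf _
  have hp1 : ∀ (j : ℕ) (w : List S),
      ∏ i ∈ range j, f (π (Y.sm ((w.drop (i * n)).take n))) ≤ 1 := fun j w =>
    Finset.prod_le_one (fun i _ => hf _) fun i _ => hf1 _
  induction j with
  | zero => simp [hb.nil]
  | succ j ih =>
    set a : ℝ := Y.E n fun w => ρ w * f (π (Y.sm w)) with ha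
    set P : ℝ := Y.E (j * n) fun w => ρ w *
      ∏ i ∈ range j, f (π (Y.sm ((w.drop (i * n)).take n))) with hP
    have ha0 : 0 ≤ a := Y.E_nonneg' fun w => mul_nonneg (hb.nonneg w) (hf _)
    have ha1 : a ≤ 1 := by
      rw [ha, ← hb.mass n]
      exact Y.E_mono fun w _ => mul_le_of_le_one_right (hb.nonneg w) (hf1 _)
    have e1 : (Y.E ((j + 1) * n) fun w => ρ w *
        ∏ i ∈ range (j + 1), f (π (Y.sm ((w.drop (i * n)).take n)))) =
        Y.E n fun u => Y.E (j * n) fun v => ρ (u ++ v) *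
          (f (π (Y.sm u)) * ∏ i ∈ range j, f (π (Y.sm ((v.drop (i * n)).take n)))) := by
      rw [show (j + 1) * n = n + j * n by ring, Y.E_add]
      refine Y.E_congr fun u hu => Y.E_congr fun v _ => ?_
      rw [Finset.prod_range_succ', mul_comm (∏ i ∈ range j, _)]
      congr 2
      · rw [Nat.zero_mul, List.drop_zero, ← hu, List.take_left]
      · refine Finset.prod_congr rfl fun i _ => ?_
        rw [show (i + 1) * n = u.length + i * n by rw [hu]; ring, ← List.drop_drop,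
          List.drop_left]
    have h2 := hN L hL n (j * n)
      (fun x v => f x * ∏ i ∈ range j, f (π (Y.sm ((v.drop (i * n)).take n))))
      (fun x v => by
        rw [abs_of_nonneg (mul_nonneg (hf x) (hp0 j v))]
        exact mul_le_one₀ (hf1 x) (hp0 j v) (hp1 j v))
      (fun v x y => by
        simp only
        rw [← sub_mul, abs_mul, abs_of_nonneg (hp0 j v)]
        exact (mul_le_of_le_one_right (abs_nonneg _) (hp1 j v)).trans (hl x y))
    have e2 : (Y.E n fun u => Y.E (j * n) fun v => (ρ (u ++ v) - ρ u * ρ v) *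
        (f (π (Y.sm u)) * ∏ i ∈ range j, f (π (Y.sm ((v.drop (i * n)).take n))))) =
        (Y.E ((j + 1) * n) fun w => ρ w *
          ∏ i ∈ range (j + 1), f (π (Y.sm ((w.drop (i * n)).take n)))) - a * P := by
      rw [e1, ha, ← Y.E_mul_right, ← Y.E_fsub]
      refine Y.E_congr fun u _ => ?_
      rw [hP, ← Y.E_mul_left, ← Y.E_fsub]
      exact Y.E_congr fun v _ => by ring
    rw [e2] at h2
    have e3 : |a * P - a ^ (j + 1)| ≤ j * ε := by
      rw [pow_succ', ← mul_sub, abs_mul, abs_of_nonneg ha0]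
      exact (mul_le_of_le_one_left (abs_nonneg _) ha1).trans ih
    have := (abs_sub_le _ _ _).trans (add_le_add h2 e3)
    push_cast
    linarith

end Pool.Agent.SawM2
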