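import Mathlib

/-!
# Almost multiplicative sequences (module SEQA)
-/

set_option autoImplicit false

namespace Pool.Agent.SawM2

open Finset

private theorem seqA_step {φ : ℕ → ℂ} {e : ℝ} (h : ∀ m n, ‖φ (m + n) - φ m * φ n‖ ≤ e)
    (h1 : ∀ n, ‖1 - φ n‖ ≤ 1 / 10) (n : ℕ) : 19 / 10 * ‖1 - φ n‖ ≤ ‖1 - φ (n + n)‖ + e := by
  have h2 : (1 : ℂ) - φ n * φ n = (1 - φ n) * (2 - (1 - φ n)) := by ring
  have h3 : ‖(1 : ℂ) - φ n * φ n‖ ≤ ‖1 - φ (n + n)‖ + e := by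
    have : (1 : ℂ) - φ n * φ n = (1 - φ (n + n)) + (φ (n + n) - φ n * φ n) := by ring
    rw [this]
    exact (norm_add_le _ _).trans (by linarith [h n n])
  have h4 : (19 / 10 : ℝ) ≤ ‖(2 : ℂ) - (1 - φ n)‖ := by
    have h5 := norm_sub_norm_le (2 : ℂ) (1 - φ n)
    have h6 : ‖(2 : ℂ)‖ = 2 := by norm_num
    linarith [h1 n]
  rw [h2, norm_mul] at h3
  have h7 := mul_le_mul_of_nonneg_left h4 (norm_nonneg (1 - φ n))
  linarith

private theorem seqA_iter {φ : ℕ → ℂ} {e : ℝ} (h : ∀ m n, ‖φ (m + n) - φ m * φ n‖ ≤ e)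
    (h1 : ∀ n, ‖1 - φ n‖ ≤ 1 / 10) (k : ℕ) :
    ∀ n, ‖1 - φ n‖ ≤ 1 / 10 * (10 / 19) ^ k + 10 / 9 * e := by
  have he : 0 ≤ e := (norm_nonneg _).trans (h 0 0)
  induction k with
  | zero => intro n; simp only [pow_zero, mul_one]; linarith [h1 n]
  | succ k ih =>
    intro n
    have h2 := seqA_step h h1 n
    have h3 := ih (n + n)
    rw [pow_succ]
    linarith

/-- SEQA (no fixed clusters, elementary step). Proof: put `s = sup ‖1 - φ n‖ ≤ 1/10`. For every `n`,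
`1 - φ n ^ 2 = (1 - φ n) (2 - (1 - φ n))`, so `‖1 - φ (n + n)‖ ≥ (2 - 1/10) ‖1 - φ n‖ - e`, hence
`‖1 - φ n‖ ≤ (s + e) / 1.9` for all `n`, `s ≤ (s + e) / 1.9`, `s ≤ e / 0.9 ≤ 2 e`. (Without
suprema: iterate `‖1 - φ n‖ ≤ (‖1 - φ (2 n)‖ + e) / 1.9` `j` times and let `j → ∞`:
`‖1 - φ n‖ ≤ 1.9^(-j) / 10 + e Σ 1.9^(-i)`.) -/
theorem cl_seq {φ : ℕ → ℂ} {e : ℝ} (h : ∀ m n, ‖φ (m + n) - φ m * φ n‖ ≤ e)
    (h1 : ∀ n, ‖1 - φ n‖ ≤ 1 / 10) (n : ℕ) : ‖1 - φ n‖ ≤ 2 * e := by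
  have he : 0 ≤ e := (norm_nonneg _).trans (h 0 0)
  have h2 : Filter.Tendsto (fun k : ℕ => (1 / 10 : ℝ) * (10 / 19) ^ k + 10 / 9 * e) Filter.atTop
      (nhds (1 / 10 * 0 + 10 / 9 * e)) :=
    ((tendsto_pow_atTop_nhds_zero_of_lt_one (by norm_num) (by norm_num)).const_mul _).add_const _
  have h3 := ge_of_tendsto' h2 (fun k => seqA_iter h h1 k n)
  linarith

private theorem seqA_pow {φ : ℕ → ℂ} {e : ℝ} (h : ∀ m n, ‖φ (m + n) - φ m * φ n‖ ≤ e)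
    (h0 : ∀ n, ‖φ n‖ ≤ 1) (n j : ℕ) : ‖φ ((j + 1) * n) - φ n ^ (j + 1)‖ ≤ (j + 1 : ℕ) * e := by
  have he : 0 ≤ e := (norm_nonneg _).trans (h 0 0)
  induction j with
  | zero => simp only [zero_add, one_mul, pow_one, sub_self, norm_zero]; positivity
  | succ j ih =>
    have h1 : φ ((j + 1 + 1) * n) - φ n ^ (j + 1 + 1)
        = (φ ((j + 1) * n + n) - φ ((j + 1) * n) * φ n)
          + (φ ((j + 1) * n) - φ n ^ (j + 1)) * φ n := by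
      rw [show (j + 1 + 1) * n = (j + 1) * n + n by ring]; ring
    rw [h1]
    refine (norm_add_le _ _).trans ?_
    rw [norm_mul]
    have h2 := h ((j + 1) * n) n
    have h3 : ‖φ ((j + 1) * n) - φ n ^ (j + 1)‖ * ‖φ n‖ ≤ (j + 1 : ℕ) * e :=
      (mul_le_of_le_one_right (norm_nonneg _) (h0 n)).trans ih
    push_cast at h3 ⊢
    linarith

/-- SEQA (small times). Proof: `z = φ n`; by induction `‖φ (j n) - z ^ j‖ ≤ j e` for `1 ≤ j`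
(`‖z‖ ≤ 1`), so `‖1 - z ^ j‖ ≤ r + q e ≤ 1/2` for `1 ≤ j ≤ q`;
`1 - z ^ q = (1 - z) Σ_{j < q} z ^ j` (`mul_neg_geom_sum` / `geom_sum`), the real part of the sum is
at least `q / 2`. -/
theorem small_seq {φ : ℕ → ℂ} {e r : ℝ} (h : ∀ m n, ‖φ (m + n) - φ m * φ n‖ ≤ e)
    (h0 : ∀ n, ‖φ n‖ ≤ 1) {q n : ℕ} (hq : 1 ≤ q) (hr : r ≤ 1 / 4) (he : q * e ≤ 1 / 4)
    (h1 : ∀ j, 1 ≤ j → j ≤ q → ‖1 - φ (j * n)‖ ≤ r) : ‖1 - φ n‖ ≤ 2 * (r + q * e) / q := by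
  have he0 : 0 ≤ e := (norm_nonneg _).trans (h 0 0)
  have hb : ∀ j, 1 ≤ j → j ≤ q → ‖1 - φ n ^ j‖ ≤ r + q * e := by
    intro j hj hjq
    obtain ⟨i, rfl⟩ : ∃ i, j = i + 1 := ⟨j - 1, by omega⟩
    have h2 := seqA_pow h h0 n i
    have h3 := h1 (i + 1) hj hjq
    have h4 : (1 : ℂ) - φ n ^ (i + 1)
        = (1 - φ ((i + 1) * n)) + (φ ((i + 1) * n) - φ n ^ (i + 1)) := by ring
    rw [h4]
    refine (norm_add_le _ _).trans ?_
    have h5 : ((i + 1 : ℕ) : ℝ) * e ≤ q * e :=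
      mul_le_mul_of_nonneg_right (by exact_mod_cast hjq) he0
    linarith
  have hre : ∀ j ∈ range q, (1 / 2 : ℝ) ≤ (φ n ^ j).re := by
    intro j hj
    rcases Nat.eq_zero_or_pos j with hj0 | hj0
    · subst hj0; simp only [pow_zero, Complex.one_re]; norm_num
    · have h2 := hb j hj0 (mem_range.1 hj).le
      have h3 := (Complex.abs_re_le_norm (1 - φ n ^ j)).trans h2
      rw [Complex.sub_re, Complex.one_re] at h3
      have h4 := (le_abs_self _).trans h3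
      linarith
  have hsum : (q : ℝ) / 2 ≤ ‖∑ j ∈ range q, φ n ^ j‖ := by
    refine le_trans ?_ (Complex.re_le_norm _)
    rw [Complex.re_sum]
    calc (q : ℝ) / 2 = ∑ _j ∈ range q, (1 / 2 : ℝ) := by
            rw [sum_const, card_range, nsmul_eq_mul]; ring
      _ ≤ _ := sum_le_sum hre
  have hq0 : (0 : ℝ) < q := by exact_mod_cast hq
  have h6 : (1 - φ n) * ∑ j ∈ range q, φ n ^ j = 1 - φ n ^ q := mul_neg_geom_sum _ _
  have h7 := hb q hq le_rfl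
  rw [← h6, norm_mul] at h7
  rw [le_div_iff₀ hq0]
  have h8 := mul_le_mul_of_nonneg_left hsum (norm_nonneg (1 - φ n))
  linarith

end Pool.Agent.SawM2
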