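import Pool.Agent.SawM2.ErgR

/-!
# The displacement of a word and the patch beside it (module SHIFT)
-/

set_option autoImplicit false

namespace Pool.Agent.SawM2

open Finset Filter Pool.Agent.Bub4 Pool.Agent.SawDiff

variable {S V : Type} [Fintype S] [AddCommGroup V] {Y : Sys S V} {Λ K : ℝ} {ρ : List S → ℝ}
  {k : ℕ} {π : V →+ Zk k}

/-- SHIFT. `n1 (π (sm w)) ≤ k |w|`. -/
theorem n1_sm_le (hπ : Stp Y π) (w : List S) : n1 (π (Y.sm w)) ≤ k * w.length := by
  induction w with
  | nil => simp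
  | cons s w ih =>
    rw [Y.sm_cons, map_add, List.length_cons]
    refine (n1_add_le _ _).trans ?_
    have h1 : n1 (π (Y.vec s)) ≤ k * 1 := by
      refine n1_le_mul _ fun i => ?_
      have := abs_le.1 (hπ s i)
      omega
    rw [mul_add]
    omega

/-- shifting a window by `j` places changes the displacement by at most `2 k j` -/
theorem n1_shift_le (hπ : Stp Y π) (W : List S) (m j : ℕ) :
    n1 (π (Y.sm ((W.drop j).take m)) - π (Y.sm (W.take m))) ≤ 2 * k * j := by
  have h1 : Y.sm (W.take (j + m)) = Y.sm (W.take j) + Y.sm ((W.drop j).take m) := by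
    rw [List.take_add, Y.sm_append]
  have h2 : Y.sm (W.take (j + m)) = Y.sm (W.take m) + Y.sm ((W.drop m).take j) := by
    rw [add_comm j m, List.take_add, Y.sm_append]
  have h3 : Y.sm ((W.drop j).take m) - Y.sm (W.take m) =
      Y.sm ((W.drop m).take j) - Y.sm (W.take j) := by
    have := h1.symm.trans h2
    rw [sub_eq_sub_iff_add_eq_add, add_comm, this, add_comm]
  rw [← map_sub, h3, map_sub]
  refine (n1_sub_le _ _).trans ?_
  have h4 := n1_sm_le hπ ((W.drop m).take j)
  have h5 := n1_sm_le hπ (W.take j)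
  have h6 : ((W.drop m).take j).length ≤ j := by simp
  have h7 : (W.take j).length ≤ j := by simp
  have h8 := Nat.mul_le_mul_left k h6
  have h9 := Nat.mul_le_mul_left k h7
  calc n1 (π (Y.sm ((W.drop m).take j))) + n1 (π (Y.sm (W.take j)))
      ≤ k * j + k * j := add_le_add (h4.trans h8) (h5.trans h9)
    _ = 2 * k * j := by ring

/-- the dependence of `Ψ u v` on the word `u` changes by at most `ε` when the word is shifted by at
most `H` places inside a longer word -/
def Slow (H : ℕ) (ε : ℝ) (m : ℕ) (Ψ : List S → List S → ℝ) : Prop :=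
  ∀ W v : List S, W.length = m + H → ∀ j < H, |Ψ ((W.drop j).take m) v - Ψ (W.take m) v| ≤ ε

theorem Slow.mono {H H' : ℕ} {ε : ℝ} {m : ℕ} {Ψ : List S → List S → ℝ} (h : Slow H ε m Ψ)
    (hH : H' ≤ H) (hS : Nonempty S) : Slow H' ε m Ψ := by
  intro W v hW j hj
  obtain ⟨s⟩ := hS
  have h1 := h (W ++ List.replicate (H - H') s) v (by simp [hW]; omega) j (by omega)
  have h2 : ((W ++ List.replicate (H - H') s).drop j).take m = (W.drop j).take m := by
    rw [List.drop_append_of_le_length (by omega), List.take_append_of_le_length (by simp; omega)]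
  have h3 : (W ++ List.replicate (H - H') s).take m = W.take m := by
    rw [List.take_append_of_le_length (by omega)]
  rwa [h2, h3] at h1

theorem slow_of_lip (hπ : Stp Y π) {L ε : ℝ} (hL : 0 < L)
    {H m : ℕ} (hH : 2 * k * H ≤ ε * L) {Ψ : Zk k → List S → ℝ}
    (hΨ : ∀ v, Lip L fun x => Ψ x v) : Slow H ε m fun u v => Ψ (π (Y.sm u)) v := by
  intro W v _ j hj
  refine (hΨ v _ _).trans ?_
  rw [div_le_iff₀ hL]
  refine le_trans ?_ hH
  have h1 : (n1 (π (Y.sm ((W.drop j).take m)) - π (Y.sm (W.take m))) : ℝ) ≤ 2 * k * j := by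
    exact_mod_cast n1_shift_le hπ W m j
  refine h1.trans ?_
  have : (j : ℝ) ≤ H := by exact_mod_cast hj.le
  have hk : (0 : ℝ) ≤ k := Nat.cast_nonneg k
  exact mul_le_mul_of_nonneg_left this (by positivity)

/-- the sum over all words of a given length of the frequencies -/
theorem sum_av (Y : Sys S V) (g H : ℕ) (w : List S) (hw : H + g ≤ w.length) (f : List S → ℝ) :
    (H : ℝ)⁻¹ * ∑ j ∈ range H, f ((w.drop j).take g) =
      Y.E g fun γ => (Y.z ^ g)⁻¹ * av γ H w * f γ := by
  classical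
  have hz : Y.z ^ g ≠ 0 := (pow_pos Y.z_pos g).ne'
  have key : ∀ j ∈ range H, f ((w.drop j).take g) =
      Y.E g fun γ => (Y.z ^ g)⁻¹ * occ γ j w * f γ := by
    intro j hj
    rw [Finset.mem_range] at hj
    rw [Y.E_eq]
    set u := (w.drop j).take g with hu
    have hul : u.length = g := by simp [hu]; omega
    have h1 : ∀ γ : Fin g → S, occ (List.ofFn γ) j w = if List.ofFn γ = u then 1 else 0 := by
      intro γ
      unfold occ
      have : List.ofFn γ <+: w.drop j ↔ List.ofFn γ = u := by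
        constructor
        · intro h
          have := List.prefix_iff_eq_take.1 h
          rw [List.length_ofFn] at this
          exact this
        · intro h
          rw [h, hu]
          exact List.take_prefix _ _
      simp only [this]
    simp only [h1]
    have h2 : ∃ γ₀ : Fin g → S, List.ofFn γ₀ = u := by
      refine ⟨fun i => u.get (i.cast hul.symm), ?_⟩
      apply List.ext_get
      · simp [hul]
      · intro n h3 h4
        simp
    obtain ⟨γ₀, hγ₀⟩ := h2
    rw [Finset.sum_eq_single γ₀]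
    · rw [if_pos hγ₀, hγ₀]
      field_simp
    · intro b _ hb
      rw [if_neg]
      · ring
      · intro hb2
        apply hb
        apply List.ofFn_injective
        rw [hb2, hγ₀]
    · intro h; exact absurd (Finset.mem_univ _) h
  rw [Finset.sum_congr rfl key, ← Y.E_fsum, ← Y.E_mul_left]
  refine Y.E_congr fun γ _ => ?_
  unfold av
  rw [← Finset.sum_mul, ← Finset.mul_sum]
  ring

/-- mean deviation of the frequencies of the words of length `g` -/
noncomputable def bet (Y : Sys S V) (ρ : List S → ℝ) (g H : ℕ) : ℝ :=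
  Y.E (H + g) fun w => ρ w * Y.E g fun γ => |(Y.z ^ g)⁻¹ * av γ H w - ρ γ|

theorem bet_small (h : Erg Y Λ K ρ) (g : ℕ) {ε : ℝ} (hε : 0 < ε) :
    ∃ H₀ : ℕ, ∀ H ≥ H₀, bet Y ρ g H ≤ ε := by
  obtain ⟨H₀, hH⟩ := h.freq g hε
  refine ⟨H₀, fun H hH2 => le_trans (le_of_eq ?_) (hH H hH2 0 (H + g) (by omega))⟩
  have hz : 0 < Y.z ^ g := pow_pos Y.z_pos g
  unfold bet
  have e1 : (Y.E (H + g) fun w => ρ w * Y.E g fun γ => |(Y.z ^ g)⁻¹ * av γ H w - ρ γ|) =
      Y.E (H + g) fun w => Y.E g fun γ => ρ w * |(Y.z ^ g)⁻¹ * av γ H w - ρ γ| := by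
    refine Y.E_congr fun w _ => ?_
    rw [← Y.E_mul_left]
  rw [e1, Y.E_comm]
  refine Y.E_congr fun γ _ => ?_
  rw [← Y.E_mul_left]
  refine Y.E_congr fun w _ => ?_
  have h2 : |av γ H w - Y.z ^ g * ρ γ| = Y.z ^ g * |(Y.z ^ g)⁻¹ * av γ H w - ρ γ| := by
    rw [← abs_of_pos hz, ← abs_mul, abs_of_pos hz]
    congr 1
    field_simp
  rw [List.drop_zero, h2]
  field_simp

/-- N2 for short words on the right -/
theorem near_short (h : Bulk Y Λ ρ) {m g H : ℕ} (hH : 0 < H) {ε : ℝ} {Φ : List S → List S → ℝ}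
    (h1 : ∀ u v, |Φ u v| ≤ 1) (hs : Slow H ε m Φ) :
    |(Y.E m fun u => Y.E g fun γ => (ρ (u ++ γ) - ρ u * ρ γ) * Φ u γ)| ≤ ε + bet Y ρ g H := by
  have hH' : (0 : ℝ) < H := by exact_mod_cast hH
  have hz : Y.z ^ g ≠ 0 := (pow_pos Y.z_pos g).ne'
  -- the first term as an average over shifts
  have e1 : ∀ j ∈ range H, (Y.E m fun u => Y.E g fun γ => ρ (u ++ γ) * Φ u γ) =
      Y.E (m + (H + g)) fun W => ρ W * Φ ((W.drop j).take m) ((W.drop (m + j)).take g) := by
    intro j hj
    rw [Finset.mem_range] at hj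
    have e2 : (Y.E m fun u => Y.E g fun γ => ρ (u ++ γ) * Φ u γ) =
        Y.E (m + g) fun w => ρ w * Φ (w.take m) (w.drop m) := by
      rw [Y.E_add]
      refine Y.E_congr fun u hu => Y.E_congr fun γ _ => ?_
      rw [← hu, List.take_left, List.drop_left]
    have e3 := h.win j (m + g) (H - j) fun w => Φ (w.take m) (w.drop m)
    have e4 : j + (m + g) + (H - j) = m + (H + g) := by omega
    rw [e2, ← e3, e4]
    refine Y.E_congr fun W _ => ?_
    congr 2
    · rw [List.take_take, min_eq_left (by omega)]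
    · rw [List.drop_take, List.drop_drop, Nat.add_sub_cancel_left, add_comm j m]
  have e5 : (Y.E m fun u => Y.E g fun γ => ρ (u ++ γ) * Φ u γ) =
      Y.E (m + (H + g)) fun W => ρ W * ((H : ℝ)⁻¹ *
        ∑ j ∈ range H, Φ ((W.drop j).take m) ((W.drop (m + j)).take g)) := by
    have : (Y.E m fun u => Y.E g fun γ => ρ (u ++ γ) * Φ u γ) =
        (H : ℝ)⁻¹ * ∑ j ∈ range H, Y.E m fun u => Y.E g fun γ => ρ (u ++ γ) * Φ u γ := by
      rw [Finset.sum_const, Finset.card_range, nsmul_eq_mul, ← mul_assoc,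
        inv_mul_cancel₀ hH'.ne', one_mul]
    rw [this, Finset.sum_congr rfl e1, ← Y.E_fsum, ← Y.E_mul_left]
    refine Y.E_congr fun W _ => ?_
    rw [← Finset.mul_sum]
    ring
  -- the second term
  have e6 : (Y.E m fun u => Y.E g fun γ => ρ u * ρ γ * Φ u γ) =
      Y.E (m + (H + g)) fun W => ρ W * Y.E g fun γ => ρ γ * Φ (W.take m) γ := by
    have e7 := h.win_left m (H + g) fun u => Y.E g fun γ => ρ γ * Φ u γ
    rw [e7]
    refine Y.E_congr fun u _ => ?_
    rw [← Y.E_mul_left]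
    exact Y.E_congr fun γ _ => by ring
  have e8 : (Y.E m fun u => Y.E g fun γ => (ρ (u ++ γ) - ρ u * ρ γ) * Φ u γ) =
      Y.E (m + (H + g)) fun W => ρ W * ((H : ℝ)⁻¹ *
        ∑ j ∈ range H, Φ ((W.drop j).take m) ((W.drop (m + j)).take g) -
          Y.E g fun γ => ρ γ * Φ (W.take m) γ) := by
    have : (Y.E m fun u => Y.E g fun γ => (ρ (u ++ γ) - ρ u * ρ γ) * Φ u γ) =
        (Y.E m fun u => Y.E g fun γ => ρ (u ++ γ) * Φ u γ) -
          (Y.E m fun u => Y.E g fun γ => ρ u * ρ γ * Φ u γ) := by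
      rw [← Y.E_fsub]
      refine Y.E_congr fun u _ => ?_
      rw [← Y.E_fsub]
      exact Y.E_congr fun γ _ => by ring
    rw [this, e5, e6, ← Y.E_fsub]
    exact Y.E_congr fun W _ => by ring
  rw [e8]
  refine (Y.E_abs _ _).trans ?_
  have e9 : ∀ W : List S, W.length = m + (H + g) → |ρ W * ((H : ℝ)⁻¹ *
        ∑ j ∈ range H, Φ ((W.drop j).take m) ((W.drop (m + j)).take g) -
          Y.E g fun γ => ρ γ * Φ (W.take m) γ)| ≤
      ρ W * ε + ρ W * Y.E g fun γ => |(Y.z ^ g)⁻¹ * av γ H (W.drop m) - ρ γ| := by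
    intro W hW
    rw [abs_mul, abs_of_nonneg (h.nonneg W), ← mul_add]
    refine mul_le_mul_of_nonneg_left ?_ (h.nonneg W)
    have f1 : (H : ℝ)⁻¹ * ∑ j ∈ range H, Φ (W.take m) ((W.drop (m + j)).take g) =
        Y.E g fun γ => (Y.z ^ g)⁻¹ * av γ H (W.drop m) * Φ (W.take m) γ := by
      have := sum_av Y g H (W.drop m) (by simp [hW]) fun γ => Φ (W.take m) γ
      rw [← this]
      simp only [List.drop_drop]
    have f2 : |(H : ℝ)⁻¹ * ∑ j ∈ range H, Φ ((W.drop j).take m) ((W.drop (m + j)).take g) -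
        (H : ℝ)⁻¹ * ∑ j ∈ range H, Φ (W.take m) ((W.drop (m + j)).take g)| ≤ ε := by
      rw [← mul_sub, ← Finset.sum_sub_distrib, abs_mul, abs_of_pos (inv_pos.2 hH'),
        inv_mul_le_iff₀ hH']
      refine (Finset.abs_sum_le_sum_abs _ _).trans ?_
      have := Finset.sum_le_card_nsmul (range H) (fun j =>
        |Φ ((W.drop j).take m) ((W.drop (m + j)).take g) - Φ (W.take m) ((W.drop (m + j)).take g)|)
        ε (fun j hj => by
          rw [Finset.mem_range] at hj
          have h2 := hs (W.take (m + H)) ((W.drop (m + j)).take g) (by simp [hW]) j hj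
          have h3 : ((W.take (m + H)).drop j).take m = (W.drop j).take m := by
            rw [List.drop_take, List.take_take, min_eq_left (by omega)]
          have h4 : (W.take (m + H)).take m = W.take m := by
            rw [List.take_take, min_eq_left (by omega)]
          rwa [h3, h4] at h2)
      simpa using this
    have f3 : |(Y.E g fun γ => (Y.z ^ g)⁻¹ * av γ H (W.drop m) * Φ (W.take m) γ) -
        Y.E g fun γ => ρ γ * Φ (W.take m) γ| ≤
        Y.E g fun γ => |(Y.z ^ g)⁻¹ * av γ H (W.drop m) - ρ γ| := by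
      rw [← Y.E_fsub]
      refine (Y.E_abs _ _).trans (Y.E_mono fun γ _ => ?_)
      rw [← sub_mul, abs_mul]
      exact mul_le_of_le_one_right (abs_nonneg _) (h1 _ _)
    rw [f1] at f2
    exact (abs_sub_le _ _ _).trans (add_le_add f2 f3)
  refine (Y.E_mono e9).trans ?_
  rw [Y.E_fadd, Y.E_mul_right, h.mass, one_mul]
  have e10 := h.win_right m (H + g) fun w => Y.E g fun γ => |(Y.z ^ g)⁻¹ * av γ H w - ρ γ|
  rw [e10]
  exact le_rfl

/-- SHIFT. The displacement of a word and the patch to its right (`near_short`). -/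
theorem shift (h : Erg Y Λ K ρ) (hπ : Stp Y π) (g : ℕ) {ε : ℝ} (hε : 0 < ε) :
    ∃ L₀ : ℝ, 0 < L₀ ∧ ∀ L ≥ L₀, ∀ (m : ℕ) (Ψ : List S → Zk k → ℝ),
      (∀ γ x, |Ψ γ x| ≤ 1) → (∀ γ, Lip L (Ψ γ)) →
      |Y.E m fun u => Y.E g fun γ => (ρ (u ++ γ) - ρ u * ρ γ) * Ψ γ (π (Y.sm u))| ≤ ε := by
  obtain ⟨H₀, hH⟩ := bet_small h g (show 0 < ε / 2 by positivity)
  set H : ℕ := H₀ + 1 with hHd
  have hb := hH H (by omega)
  refine ⟨2 * k * H / (ε / 2) + 1, by positivity, fun L hL m Ψ hΨ hl => ?_⟩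
  have hL0 : 0 < L := lt_of_lt_of_le (by positivity) hL
  have h2 : 2 * (k : ℝ) * H ≤ ε / 2 * L := by
    have h3 : 2 * (k : ℝ) * H / (ε / 2) ≤ L := by linarith
    rw [div_le_iff₀ (by positivity)] at h3
    linarith
  have h4 := near_short (m := m) (g := g) h.bulk (show 0 < H by omega) (Φ := fun u γ => Ψ γ (π (Y.sm u)))
    (fun u v => hΨ _ _) (slow_of_lip (Ψ := fun x γ => Ψ γ x) hπ hL0 h2 hl)
  linarith

end Pool.Agent.SawM2
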