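import Pool.Agent.SawM2.MaxD
import Pool.Agent.SawM2.ParV

/-!
# No holes (module STAR)
-/

set_option autoImplicit false

namespace Pool.Agent.SawM2

open Finset MeasureTheory Pool.Agent.SawHole

/-- STAR. If the `13 j`-fold sumset of `A` has volume less than `j^(k+1) vol A`, then for a system
`T` of maximal determinant `A ⊆ pp T 1 ⊆ ms A (20 j k)`. Proof: contrapositive of `SawHole.hole`
(`Module.finrank ℝ (Rk k) = k`): `x θ ∈ ms A (20 j)` for `θ ∈ A`, `x ∈ [0,1]`, by symmetry for
`x ∈ [-1,1]`; sum over the `k` vectors (`ms_ms` or `add_mem_ms`); `MaxDet.coord` with `A' = A`,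
`T' = T`. -/
theorem star {k : ℕ} {A : Set (Rk k)} (hA : IsCompact A) (hs : ∀ x ∈ A, -x ∈ A)
    (h0 : A ∈ nhds 0) {j : ℕ} (hj1 : 1 ≤ j)
    (hj : volume (ms A (13 * j)) < (j : ENNReal) ^ (k + 1) * volume A)
    {T : Fin k → Rk k} (hT : MaxDet A T) :
    A ⊆ pp T 1 ∧ pp T 1 ⊆ ms A (20 * j * k) := by
  have hd : (Matrix.of T).det ≠ 0 := hT.det_ne_zero h0
  have h0A : (0 : Rk k) ∈ A := mem_of_mem_nhds h0
  constructor
  · intro θ hθ
    obtain ⟨c, hc, hcθ⟩ := MaxDet.coord hT hT.1 hd hθ
    refine ⟨c, fun i => ?_, hcθ⟩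
    have h1 := hc i
    rwa [div_self (abs_ne_zero.2 hd)] at h1
  · rintro θ ⟨c, hc, rfl⟩
    have hpos : ∀ i, ∀ x : ℝ, 0 ≤ x → x ≤ 1 → x • T i ∈ ms A (20 * j) := by
      intro i x hx0 hx1
      by_contra hcon
      have h1 := hole (volume : Measure (Rk k)) hA hs h0 (hT.1 i) hx0 hx1 hj1 hcon
      rw [Module.finrank_fin_fun] at h1
      exact absurd h1 (not_le.2 hj)
    have hall : ∀ i, c i • T i ∈ ms A (20 * j) := by
      intro i
      obtain ⟨h1, h2⟩ := abs_le.1 (hc i)
      rcases le_total 0 (c i) with h3 | h3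
      · exact hpos i _ h3 h2
      · have h4 := neg_mem_ms hs _ (hpos i (-c i) (by linarith) (by linarith))
        rwa [← neg_smul, neg_neg] at h4
    have hsum : ∀ s : Finset (Fin k), ∑ i ∈ s, c i • T i ∈ ms A (20 * j * s.card) := by
      intro s
      induction s using Finset.induction_on with
      | empty =>
        rw [Finset.sum_empty]
        exact zero_mem_ms h0A _
      | insert a s ha ih =>
        rw [Finset.sum_insert ha, Finset.card_insert_of_notMem ha, Nat.mul_succ,
          add_comm (20 * j * s.card)]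
        exact add_mem_ms (hall a) ih
    have h1 := hsum Finset.univ
    rwa [Finset.card_univ, Fintype.card_fin] at h1

end Pool.Agent.SawM2
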