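import Pool.Agent.SawM2.Basic

/-!
# Truncation inequality (module SUMB)
-/

set_option autoImplicit false

namespace Pool.Agent.SawM2

open Finset MeasureTheory

variable {k : ℕ}

namespace Fm

private theorem SumB_int (y : ℝ) :
    ind (2 ≤ |y|) ≤ 2 * ∫ s in (0 : ℝ)..1, (1 - Real.cos (s * y)) := by
  by_cases hy : 2 ≤ |y|
  · rw [ind_of hy]
    have hy0 : y ≠ 0 := by
      rintro rfl
      simp at hy
      linarith
    have h1 : (∫ s in (0 : ℝ)..1, (1 - Real.cos (s * y))) = 1 - Real.sin y / y := by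
      rw [intervalIntegral.integral_sub (by simp)
        ((by fun_prop : Continuous fun s : ℝ => Real.cos (s * y)).intervalIntegrable _ _)]
      rw [intervalIntegral.integral_comp_mul_right (fun u => Real.cos u) hy0, integral_cos]
      simp
      field_simp
    rw [h1]
    have h2 : Real.sin y / y ≤ 1 / 2 := by
      have h3 : |Real.sin y / y| ≤ 1 / 2 := by
        rw [abs_div, div_le_div_iff₀ (abs_pos.2 hy0) (by norm_num)]
        have := Real.abs_sin_le_one y
        linarith
      exact (le_abs_self _).trans h3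
    linarith
  · rw [ind_not hy]
    have : 0 ≤ ∫ s in (0 : ℝ)..1, (1 - Real.cos (s * y)) :=
      intervalIntegral.integral_nonneg (by norm_num) fun s _ => by
        have := Real.cos_le_one (s * y)
        linarith
    linarith

/-- SUMB. Truncation inequality. For every real `y` with `|y| ≥ 2`:
`∫_0^1 (1 - cos (s y)) ds = 1 - sin y / y ≥ 1/2`. Hence
`ind (2 ≤ |y|) ≤ 2 ∫_0^1 (1 - cos (s y)) ds` for all `y`; exchange the finite sum with the integral
(`intervalIntegral.integral_finset_sum`), `μ.pr (1 - cos (s dt ξ x)) = re (1 - ft (s ξ)) ≤ r`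
(`re_ft`, `dt_smul_left`). -/
theorem trunc {μ : Fm k} (hμ : μ.Nn) (h1 : μ.mass = 1) {ξ : Rk k} {r : ℝ}
    (h : ∀ s : ℝ, 0 ≤ s → s ≤ 1 → ‖1 - μ.ft (s • ξ)‖ ≤ r) :
    (μ.pr fun x => ind (2 ≤ |dt ξ x|)) ≤ 2 * r := by
  have a1 : (μ.pr fun x => ind (2 ≤ |dt ξ x|)) ≤
      μ.pr fun x => 2 * ∫ s in (0 : ℝ)..1, (1 - Real.cos (s * dt ξ x)) :=
    hμ.pr_mono fun x => SumB_int _
  have a2 : (μ.pr fun x => 2 * ∫ s in (0 : ℝ)..1, (1 - Real.cos (s * dt ξ x))) =
      2 * ∫ s in (0 : ℝ)..1, (1 - (μ.ft (s • ξ)).re) := by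
    rw [pr_mul_left]
    congr 1
    have e1 : ∀ s : ℝ, (1 - (μ.ft (s • ξ)).re) = ∑ i, μ.c i * (1 - Real.cos (s * dt ξ (μ.x i))) := by
      intro s
      rw [re_ft]
      have : (μ.pr fun x => Real.cos (dt (s • ξ) x)) = μ.pr fun x => Real.cos (s * dt ξ x) :=
        pr_congr μ fun x => by rw [dt_smul_left]
      rw [this]
      have e2 : (∑ i, μ.c i * (1 - Real.cos (s * dt ξ (μ.x i)))) =
          μ.pr fun x => 1 - Real.cos (s * dt ξ x) := rfl
      rw [e2, pr_fsub, pr_const, h1, one_mul]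
    simp only [e1]
    rw [intervalIntegral.integral_finsetSum]
    · unfold pr
      refine Finset.sum_congr rfl fun i _ => ?_
      rw [intervalIntegral.integral_const_mul]
    · intro i _
      exact (by fun_prop : Continuous fun s : ℝ =>
        μ.c i * (1 - Real.cos (s * dt ξ (μ.x i)))).intervalIntegrable _ _
  have a3 : (∫ s in (0 : ℝ)..1, (1 - (μ.ft (s • ξ)).re)) ≤ ∫ _s in (0 : ℝ)..1, r := by
    refine intervalIntegral.integral_mono_on (by norm_num) ?_ (by simp) ?_
    · have hc : Continuous fun s : ℝ => (1 - (μ.ft (s • ξ)).re) := by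
        have := μ.continuous_ft
        fun_prop
      exact hc.intervalIntegrable _ _
    · intro s hs
      have h2 := h s hs.1 hs.2
      have h3 := Complex.re_le_norm (1 - μ.ft (s • ξ))
      rw [Complex.sub_re, Complex.one_re] at h3
      linarith
  rw [intervalIntegral.integral_const] at a3
  simp at a3
  linarith [a1, a2, a3]

end Fm

end Pool.Agent.SawM2
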