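import Pool.Agent.SawM2.Dg
import Pool.Agent.SawM2.KerD

/-!
# Continuity of the smoothed convolution (module SVA)
-/

set_option autoImplicit false

namespace Pool.Agent.SawM2

open Finset Filter MeasureTheory

variable {k : ℕ} {a : ℝ}

/-- SVA. Elementary. -/
theorem dt_cmb (T : Fin k → Rk k) (c : Rk k) (z : Zk k) : dt (cmb T c) z = ip c (rs T z) := by
  unfold dt cmb ip rs dt
  simp only [Finset.sum_apply, Pi.smul_apply, smul_eq_mul, Finset.sum_mul, Finset.mul_sum]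
  rw [Finset.sum_comm]
  refine Finset.sum_congr rfl fun i _ => Finset.sum_congr rfl fun j _ => ?_
  ring

theorem rs_zero (T : Fin k → Rk k) : rs T 0 = 0 := by
  funext i
  simp [rs]

theorem rs_add (T : Fin k → Rk k) (x y : Zk k) : rs T (x + y) = rs T x + rs T y := by
  funext i
  simp [rs, dt_add_right]

theorem rs_sub (T : Fin k → Rk k) (x y : Zk k) : rs T (x - y) = rs T x - rs T y := by
  funext i
  simp [rs, dt_sub_right]

theorem rs_sum (T : Fin k → Rk k) {J : Type} (s : Finset J) (x : J → Zk k) :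
    rs T (∑ j ∈ s, x j) = ∑ j ∈ s, rs T (x j) := by
  classical
  induction s using Finset.induction_on with
  | empty => simp [rs_zero]
  | insert j s hj ih => rw [Finset.sum_insert hj, Finset.sum_insert hj, rs_add, ih]

theorem abs_rs_le {T : Fin k → Rk k} {δ : ℝ} (h : ∀ l m, |T l m| ≤ δ) (z : Zk k) (l : Fin k) :
    |rs T z l| ≤ δ * n1 z := abs_dt_le (h l) z

theorem abs_cmb_le {T : Fin k → Rk k} {δ R : ℝ} (h : ∀ l m, |T l m| ≤ δ) {c : Rk k}
    (hc : ∀ l, |c l| ≤ R) (m : Fin k) : |cmb T c m| ≤ k * R * δ := by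
  have hR : 0 ≤ R := (abs_nonneg _).trans (hc m)
  unfold cmb
  rw [Finset.sum_apply]
  refine (Finset.abs_sum_le_sum_abs _ _).trans ?_
  calc ∑ i, |(c i • T i) m| ≤ ∑ _i : Fin k, R * δ := by
        refine Finset.sum_le_sum fun i _ => ?_
        rw [Pi.smul_apply, smul_eq_mul, abs_mul]
        exact mul_le_mul (hc i) (h i m) (abs_nonneg _) hR
    _ = k * R * δ := by simp; ring

/-- SVA. `pp T R` is compact (image of a compact set under a continuous map). -/
theorem measurableSet_pp (T : Fin k → Rk k) (R : ℝ) : MeasurableSet (pp T R) := by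
  have h1 : pp T R = (fun c : Rk k => ∑ i, c i • T i) ''
      Set.pi Set.univ (fun _ : Fin k => Set.Icc (-R) R) := by
    ext x
    constructor
    · rintro ⟨c, hc, rfl⟩
      exact ⟨c, fun i _ => abs_le.1 (hc i), rfl⟩
    · rintro ⟨c, hc, rfl⟩
      exact ⟨c, fun i => abs_le.2 (hc i (Set.mem_univ i)), rfl⟩
  have h2 : Continuous fun c : Rk k => ∑ i, c i • T i := by fun_prop
  rw [h1]
  exact ((isCompact_univ_pi fun _ => isCompact_Icc).image h2).isClosed.measurableSet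

/-- splitting an integral over the box -/
private theorem SVA_split {F G : Rk k → ℝ} (hF : Continuous F) (hG : Continuous G)
    (hG0 : ∀ θ, 0 ≤ G θ) {Q : Set (Rk k)} (hQ : MeasurableSet Q) {α β : ℝ} (hα : 0 ≤ α)
    (h1 : ∀ θ ∈ Q, |F θ| ≤ α * G θ) (h2 : ∀ θ, |F θ| ≤ β * G θ) :
    |∫ θ in bx k, F θ| ≤ α * (∫ θ in bx k, G θ) + β * ∫ θ in bx k \ Q, G θ := by
  have hc : IsCompact (bx k) := isCompact_univ_pi fun _ => isCompact_Icc
  have hm : MeasurableSet (bx k) := hc.isClosed.measurableSet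
  have iF : IntegrableOn (fun θ => |F θ|) (bx k) := hF.abs.continuousOn.integrableOn_compact hc
  have iG : IntegrableOn G (bx k) := hG.continuousOn.integrableOn_compact hc
  have e1 : |∫ θ in bx k, F θ| ≤ ∫ θ in bx k, |F θ| := abs_integral_le_integral_abs
  have e2 := integral_inter_add_sdiff hQ iF
  have e3 : ∫ θ in bx k ∩ Q, |F θ| ≤ ∫ θ in bx k ∩ Q, α * G θ := by
    refine setIntegral_mono_on (iF.mono_set Set.inter_subset_left)
      ((iG.mono_set Set.inter_subset_left).const_mul α) (hm.inter hQ) fun θ hθ => h1 θ hθ.2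
  have e4 : ∫ θ in bx k \ Q, |F θ| ≤ ∫ θ in bx k \ Q, β * G θ := by
    refine setIntegral_mono_on (iF.mono_set Set.sdiff_subset)
      ((iG.mono_set Set.sdiff_subset).const_mul β) (hm.diff hQ) fun θ _ => h2 θ
  rw [integral_const_mul] at e3 e4
  have e5 : ∫ θ in bx k ∩ Q, G θ ≤ ∫ θ in bx k, G θ :=
    setIntegral_mono_set iG (Filter.Eventually.of_forall hG0)
      (Filter.Eventually.of_forall fun x hx => hx.1)
  have e6 := mul_le_mul_of_nonneg_left e5 hα
  linarith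

namespace Fm

/-- SVA. If `K * μ ≤ B` everywhere and `ν` is nonnegative, then `K * μ * ν ≤ B mass ν`. -/
theorem sm_conv_le_mass {μ ν : Fm k} (hν : ν.Nn) {B : ℝ} (h : ∀ z, sm a μ z ≤ B) (z : Zk k) :
    sm a (conv μ ν) z ≤ B * ν.mass := by
  have h1 : sm a (conv μ ν) z = ν.pr fun y => sm a μ (z - y) := by
    unfold sm
    rw [pr_conv, pr_comm]
    refine pr_congr _ fun y => pr_congr _ fun x => ?_
    congr 1
    abel
  rw [h1, mul_comm]
  exact hν.pr_le fun y => h _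

private theorem SVA_norm_exp (x : ℝ) : ‖Complex.exp (-(Complex.I * (x : ℝ)))‖ = 1 := by
  rw [show -(Complex.I * (x : ℝ)) = ((-x : ℝ) : ℂ) * Complex.I by push_cast; ring]
  exact Complex.norm_exp_ofReal_mul_I _

private theorem SVA_exp_sub (x y : ℝ) : ‖Complex.exp (-(Complex.I * (x : ℝ))) -
    Complex.exp (-(Complex.I * (y : ℝ)))‖ ≤ |x - y| := by
  have h1 : Complex.exp (-(Complex.I * (x : ℝ))) - Complex.exp (-(Complex.I * (y : ℝ))) =
      Complex.exp (-(Complex.I * (y : ℝ))) * (Complex.exp (Complex.I * ((y - x : ℝ) : ℂ)) - 1) := by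
    rw [mul_sub, mul_one, ← Complex.exp_add]
    congr 2
    push_cast
    ring
  rw [h1, norm_mul, SVA_norm_exp, one_mul, abs_sub_comm]
  exact Real.norm_exp_I_mul_ofReal_sub_one_le

private theorem SVA_cont (μ : Fm k) (z : Zk k) :
    Continuous fun θ : Rk k => (μ.ft θ * μ.ft θ * Complex.exp (-(Complex.I * (dt θ z : ℝ)))).re := by
  have h1 := μ.continuous_ft
  have h2 : Continuous fun θ : Rk k => (dt θ z : ℝ) := by
    unfold dt
    fun_prop
  fun_prop

private theorem SVA_cG (ha0 : 0 < a) (ha1 : a < 1) (μ : Fm k) :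
    Continuous fun θ : Rk k => hk a θ * ‖μ.ft θ‖ ^ 2 :=
  (continuous_hk ha0 ha1).mul (μ.continuous_ft.norm.pow 2)

/-- SVA. The convolution at two points with nearby rescaled positions. By `sm_conv_fourier` the
difference is at most `∫ hk ‖ft‖² |e^{-iθ·z} - e^{-iθ·z'}|`; for `θ = Σ c_l A_l ∈ pp A R`:
`|θ · (z - z')| ≤ Σ |c_l| |rs A (z - z') l| ≤ k R η` (`dt_cmb`); elsewhere the factor is at most
`2`. `en_self_fourier`. -/
theorem equi (ha0 : 0 < a) (ha1 : a < 1) (μ : Fm k) (A : Fin k → Rk k) {R η : ℝ} (hR : 0 ≤ R)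
    (hη : 0 ≤ η) {z z' : Zk k} (h : ∀ l, |rs A z l - rs A z' l| ≤ η) :
    (2 * Real.pi) ^ k * |sm a (conv μ μ) z - sm a (conv μ μ) z'| ≤
      k * R * η * ((2 * Real.pi) ^ k * en a μ μ) +
        2 * ∫ θ in bx k \ pp A R, hk a θ * ‖μ.ft θ‖ ^ 2 := by
  have hc : IsCompact (bx k) := isCompact_univ_pi fun _ => isCompact_Icc
  have hpi : (0 : ℝ) ≤ (2 * Real.pi) ^ k := by positivity
  have hchk := continuous_hk (k := k) ha0 ha1
  have c1 := SVA_cont μ z
  have c2 := SVA_cont μ z'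
  have h1 : (2 * Real.pi) ^ k * |sm a (conv μ μ) z - sm a (conv μ μ) z'| =
      |∫ θ in bx k, hk a θ *
        ((μ.ft θ * μ.ft θ * Complex.exp (-(Complex.I * (dt θ z : ℝ)))).re -
        (μ.ft θ * μ.ft θ * Complex.exp (-(Complex.I * (dt θ z' : ℝ)))).re)| := by
    have e0 : (2 * Real.pi) ^ k * |sm a (conv μ μ) z - sm a (conv μ μ) z'| =
        |(2 * Real.pi) ^ k * (sm a (conv μ μ) z - sm a (conv μ μ) z')| := by
      rw [abs_mul, abs_of_nonneg hpi]
    rw [e0, mul_sub, sm_conv_fourier ha0 ha1, sm_conv_fourier ha0 ha1, ← integral_sub]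
    · congr 1
      refine integral_congr_ae (Filter.Eventually.of_forall fun θ => ?_)
      simp only
      ring
    · exact (hchk.mul c1).continuousOn.integrableOn_compact hc
    · exact (hchk.mul c2).continuousOn.integrableOn_compact hc
  rw [h1, en_self_fourier ha0 ha1]
  have key : ∀ θ : Rk k, |hk a θ *
        ((μ.ft θ * μ.ft θ * Complex.exp (-(Complex.I * (dt θ z : ℝ)))).re -
        (μ.ft θ * μ.ft θ * Complex.exp (-(Complex.I * (dt θ z' : ℝ)))).re)| ≤
      ‖Complex.exp (-(Complex.I * (dt θ z : ℝ))) - Complex.exp (-(Complex.I * (dt θ z' : ℝ)))‖ *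
        (hk a θ * ‖μ.ft θ‖ ^ 2) := by
    intro θ
    rw [abs_mul, abs_of_nonneg (hk_pos ha0 ha1 θ).le, ← Complex.sub_re, ← mul_sub]
    have h2 := Complex.abs_re_le_norm (μ.ft θ * μ.ft θ *
      (Complex.exp (-(Complex.I * (dt θ z : ℝ))) - Complex.exp (-(Complex.I * (dt θ z' : ℝ)))))
    rw [norm_mul, norm_mul] at h2
    have h3 := mul_le_mul_of_nonneg_left h2 (hk_pos ha0 ha1 θ).le
    refine h3.trans (le_of_eq ?_)
    ring
  refine SVA_split (hchk.mul (c1.sub c2)) (SVA_cG ha0 ha1 μ)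
    (fun θ => mul_nonneg (hk_pos ha0 ha1 θ).le (sq_nonneg _)) (measurableSet_pp A R)
    (by positivity) ?_ ?_
  · intro θ hθ
    refine (key θ).trans (mul_le_mul_of_nonneg_right ?_
      (mul_nonneg (hk_pos ha0 ha1 θ).le (sq_nonneg _)))
    refine (SVA_exp_sub _ _).trans ?_
    obtain ⟨c, hcR, rfl⟩ := hθ
    have e1 : ∀ w : Zk k, dt (∑ i, c i • A i) w = ip c (rs A w) := fun w => dt_cmb A c w
    rw [e1, e1]
    unfold ip
    rw [← Finset.sum_sub_distrib]
    refine (Finset.abs_sum_le_sum_abs _ _).trans ?_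
    calc ∑ i, |c i * rs A z i - c i * rs A z' i| ≤ ∑ _i : Fin k, R * η := by
          refine Finset.sum_le_sum fun i _ => ?_
          rw [← mul_sub, abs_mul]
          exact mul_le_mul (hcR i) (h i) (abs_nonneg _) hR
      _ = k * R * η := by simp; ring
  · intro θ
    refine (key θ).trans (mul_le_mul_of_nonneg_right ?_
      (mul_nonneg (hk_pos ha0 ha1 θ).le (sq_nonneg _)))
    refine (norm_sub_le _ _).trans (le_of_eq ?_)
    rw [SVA_norm_exp, SVA_norm_exp]
    norm_num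

/-- SVA. The wide kernel at one point. Put `s = √a`, `κ = hk s 0 / hk a 0 ≤ 4^k` (`hk_wide`). On
`pp A R` all coordinates of `θ` are at most `e (1 - a) ≤ 2 e (1 - s)` (`abs_cmb_le`), so by
`hk_flat`, `hk_le_zero`: `|hk s θ - κ hk a θ| ≤ 8 k e² κ hk a θ` (upper: `hk s θ ≤ κ hk a 0 ≤
κ (1 + 2 k e²) hk a θ`; lower: `κ hk a θ ≤ hk s 0 ≤ hk s θ + 4 k e² hk s 0`, `hk s 0 = κ hk a 0 ≤
2 κ hk a θ`); elsewhere `|hk s θ - κ hk a θ| ≤ 4^k hk a θ` (`hk_wide`). Apply `sm_conv_fourier` for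
`s` and for `a`; `sm a (conv μ μ) z ≥ 0`, so `κ sm ≤ 4^k sm`. -/
theorem equi' (ha0 : 0 < a) (ha1 : a < 1) {μ : Fm k} (hμ : μ.Nn) (A : Fin k → Rk k) {R e δ : ℝ}
    (hR : 0 ≤ R) (he0 : 0 ≤ e) (he1 : e ≤ 1 / 2) (he : k * e ^ 2 ≤ 1 / 8)
    (hA : ∀ l m, |A l m| ≤ δ) (hδ : k * R * δ ≤ e * (1 - a)) (z : Zk k) :
    (2 * Real.pi) ^ k * sm (Real.sqrt a) (conv μ μ) z ≤
      4 ^ k * ((2 * Real.pi) ^ k * sm a (conv μ μ) z) +
        8 * 4 ^ k * k * e ^ 2 * ((2 * Real.pi) ^ k * en a μ μ) +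
          2 * 4 ^ k * ∫ θ in bx k \ pp A R, hk a θ * ‖μ.ft θ‖ ^ 2 := by
  have hc : IsCompact (bx k) := isCompact_univ_pi fun _ => isCompact_Icc
  have hm : MeasurableSet (bx k) := hc.isClosed.measurableSet
  obtain ⟨s, hs⟩ : ∃ s : ℝ, s = Real.sqrt a := ⟨_, rfl⟩
  have hs0 : 0 < s := by rw [hs]; exact Real.sqrt_pos.2 ha0
  have hss : s * s = a := by rw [hs]; exact Real.mul_self_sqrt ha0.le
  have hs1 : s < 1 := by nlinarith
  rw [← hs]
  obtain ⟨κ, hκ⟩ : ∃ κ : ℝ, κ = hk s (0 : Rk k) / hk a (0 : Rk k) := ⟨_, rfl⟩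
  have ha00 : 0 < hk a (0 : Rk k) := hk_pos ha0 ha1 0
  have hs00 : 0 < hk s (0 : Rk k) := hk_pos hs0 hs1 0
  have hκ0 : 0 ≤ κ := by rw [hκ]; positivity
  have hκa : κ * hk a (0 : Rk k) = hk s (0 : Rk k) := by
    rw [hκ]; field_simp
  have hκ4 : κ ≤ 4 ^ k := by
    rw [hκ, div_le_iff₀ ha00, hs]
    exact hk_wide ha0 ha1 0
  have hcs := continuous_hk (k := k) hs0 hs1
  have hca := continuous_hk (k := k) ha0 ha1
  have c1 := SVA_cont μ z
  have hsm0 : 0 ≤ sm a (conv μ μ) z :=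
    (hμ.conv hμ).pr_nonneg fun x => ker_nonneg ha0.le _
  have hpi : (0 : ℝ) ≤ (2 * Real.pi) ^ k := by positivity
  have h1 : (2 * Real.pi) ^ k * sm s (conv μ μ) z = κ * ((2 * Real.pi) ^ k * sm a (conv μ μ) z) +
      ∫ θ in bx k, (hk s θ - κ * hk a θ) *
        (μ.ft θ * μ.ft θ * Complex.exp (-(Complex.I * (dt θ z : ℝ)))).re := by
    rw [sm_conv_fourier hs0 hs1, sm_conv_fourier ha0 ha1, ← integral_const_mul, ← integral_add]
    · refine integral_congr_ae (Filter.Eventually.of_forall fun θ => ?_)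
      simp only
      ring
    · exact (continuous_const.mul (hca.mul c1)).continuousOn.integrableOn_compact hc
    · exact ((hcs.sub (continuous_const.mul hca)).mul c1).continuousOn.integrableOn_compact hc
  have hre : ∀ θ : Rk k,
      |(μ.ft θ * μ.ft θ * Complex.exp (-(Complex.I * (dt θ z : ℝ)))).re| ≤ ‖μ.ft θ‖ ^ 2 := by
    intro θ
    refine (Complex.abs_re_le_norm _).trans (le_of_eq ?_)
    rw [norm_mul, norm_mul, SVA_norm_exp]
    ring
  have key : ∀ θ : Rk k, ∀ B : ℝ, |hk s θ - κ * hk a θ| ≤ B * hk a θ →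
      |(hk s θ - κ * hk a θ) *
        (μ.ft θ * μ.ft θ * Complex.exp (-(Complex.I * (dt θ z : ℝ)))).re| ≤
        B * (hk a θ * ‖μ.ft θ‖ ^ 2) := by
    intro θ B hB
    rw [abs_mul, ← mul_assoc]
    exact mul_le_mul hB (hre θ) (abs_nonneg _) ((abs_nonneg _).trans hB)
  have h2 : |∫ θ in bx k, (hk s θ - κ * hk a θ) *
        (μ.ft θ * μ.ft θ * Complex.exp (-(Complex.I * (dt θ z : ℝ)))).re| ≤
      (8 * 4 ^ k * k * e ^ 2) * (∫ θ in bx k, hk a θ * ‖μ.ft θ‖ ^ 2) +
        4 ^ k * ∫ θ in bx k \ pp A R, hk a θ * ‖μ.ft θ‖ ^ 2 := by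
    refine SVA_split ((hcs.sub (continuous_const.mul hca)).mul c1) (SVA_cG ha0 ha1 μ)
      (fun θ => mul_nonneg (hk_pos ha0 ha1 θ).le (sq_nonneg _)) (measurableSet_pp A R)
      (by positivity) ?_ ?_
    · intro θ hθ
      refine key θ _ ?_
      obtain ⟨c, hcR, rfl⟩ := hθ
      have e1 : ∀ m, |(∑ i, c i • A i) m| ≤ e * (1 - a) := fun m =>
        (abs_cmb_le hA hcR m).trans hδ
      have e2 : ∀ m, |(∑ i, c i • A i) m| ≤ (2 * e) * (1 - s) := by
        intro m
        refine (e1 m).trans ?_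
        have : 1 - a ≤ 2 * (1 - s) := by nlinarith
        nlinarith
      have f1 := hk_flat ha0 ha1 he0 (by linarith) e1
      have f2 := hk_flat hs0 hs1 (by linarith : 0 ≤ 2 * e) (by linarith) e2
      have f3 := hk_le_zero hs0 hs1 (∑ i, c i • A i)
      have f4 := hk_le_zero ha0 ha1 (∑ i, c i • A i)
      obtain ⟨X, hX⟩ : ∃ X : ℝ, X = hk a (∑ i, c i • A i) := ⟨_, rfl⟩
      obtain ⟨W, hW⟩ : ∃ W : ℝ, W = hk s (∑ i, c i • A i) := ⟨_, rfl⟩
      obtain ⟨t, ht⟩ : ∃ t : ℝ, t = k * e ^ 2 := ⟨_, rfl⟩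
      have ht0 : 0 ≤ t := by rw [ht]; positivity
      have hX0 : 0 < X := by rw [hX]; exact hk_pos ha0 ha1 _
      rw [← hX] at f1 f4 ⊢
      rw [← hW] at f2 f3 ⊢
      rw [← ht] at f1 he
      have f2' : (1 - 4 * t) * hk s (0 : Rk k) ≤ W := by
        rw [ht]
        refine le_trans (le_of_eq ?_) f2
        ring
      rw [← hκa] at f2' f3
      -- `κ hk a 0 ≤ (1 + 2 t) κ X ≤ 2 κ X`
      have g1 : hk a (0 : Rk k) ≤ (1 + 2 * t) * X := by
        have : (1 + 2 * t) * ((1 - t) * hk a (0 : Rk k)) ≤ (1 + 2 * t) * X :=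
          mul_le_mul_of_nonneg_left f1 (by linarith)
        have h5 : hk a (0 : Rk k) ≤ (1 + 2 * t) * ((1 - t) * hk a (0 : Rk k)) := by
          have : (0 : ℝ) ≤ (t - 2 * t * t) * hk a (0 : Rk k) := by
            refine mul_nonneg ?_ ha00.le
            nlinarith
          nlinarith
        linarith
      have g2 : κ * hk a (0 : Rk k) ≤ (1 + 2 * t) * (κ * X) := by
        have := mul_le_mul_of_nonneg_left g1 hκ0
        linarith
      have g3 : κ * X ≤ κ * hk a (0 : Rk k) := mul_le_mul_of_nonneg_left f4 hκ0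
      have g4 : 0 ≤ κ * X := mul_nonneg hκ0 hX0.le
      have g5 : |W - κ * X| ≤ 8 * t * (κ * X) := by
        rw [abs_le]
        constructor
        · have : t * (κ * hk a (0 : Rk k)) ≤ t * ((1 + 2 * t) * (κ * X)) :=
            mul_le_mul_of_nonneg_left g2 ht0
          have h6 : t * ((1 + 2 * t) * (κ * X)) ≤ t * (2 * (κ * X)) :=
            mul_le_mul_of_nonneg_left (mul_le_mul_of_nonneg_right (by linarith) g4) ht0
          nlinarith
        · have : 0 ≤ t * (κ * X) := mul_nonneg ht0 g4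
          nlinarith
      refine g5.trans ?_
      have g6 : κ * X ≤ 4 ^ k * X := mul_le_mul_of_nonneg_right hκ4 hX0.le
      have g7 := mul_le_mul_of_nonneg_left g6 (by linarith : 0 ≤ 8 * t)
      refine g7.trans (le_of_eq ?_)
      rw [ht]
      ring
    · intro θ
      refine key θ _ ?_
      have g0 := hk_pos ha0 ha1 θ
      have g1 : hk s θ ≤ 4 ^ k * hk a θ := by
        rw [hs]
        exact hk_wide ha0 ha1 θ
      have g2 : κ * hk a θ ≤ 4 ^ k * hk a θ := mul_le_mul_of_nonneg_right hκ4 g0.le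
      have g3 := hk_pos hs0 hs1 θ
      have g4 : 0 ≤ κ * hk a θ := mul_nonneg hκ0 g0.le
      rw [abs_le]
      constructor <;> linarith
  have h3 : 0 ≤ ∫ θ in bx k \ pp A R, hk a θ * ‖μ.ft θ‖ ^ 2 :=
    setIntegral_nonneg (hm.diff (measurableSet_pp A R)) fun θ _ =>
      mul_nonneg (hk_pos ha0 ha1 θ).le (sq_nonneg _)
  have h4 : κ * ((2 * Real.pi) ^ k * sm a (conv μ μ) z) ≤
      4 ^ k * ((2 * Real.pi) ^ k * sm a (conv μ μ) z) :=
    mul_le_mul_of_nonneg_right hκ4 (mul_nonneg hpi hsm0)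
  have h5 := le_of_abs_le h2
  have h6 : (0 : ℝ) ≤ 4 ^ k * ∫ θ in bx k \ pp A R, hk a θ * ‖μ.ft θ‖ ^ 2 :=
    mul_nonneg (by positivity) h3
  rw [h1, en_self_fourier ha0 ha1]
  linarith

end Fm

end Pool.Agent.SawM2
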