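import Pool.Agent.SawM2.SvA

/-!
# Flatness of the rescaled density (module SVB)
-/

set_option autoImplicit false

namespace Pool.Agent.SawM2

open Finset Filter MeasureTheory

variable {I : Type} {k : ℕ} {F : Ultrafilter I} {p : ℕ → Fm k} {a : I → ℝ} {N : I → ℕ}
  {E : I → ℝ} {P : ℕ → I → Fm k} {A : I → Fin k → Rk k} {r t g d : ℝ}

/-- SVB. `Fm.equi`, `Dg.tail` (error `ε / 8`... then `η` small compared with `R`), `Dg.P_en`. -/
theorem flat (hD : Dg k F p a N E P A r t g d) (T : ℕ) {ε : ℝ} (hε : 0 < ε) :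
    ∃ η : ℝ, 0 < η ∧ ∀ᶠ i in (F : Filter I), ∀ z z' : Zk k,
      (∀ l, |rs (A i) z l - rs (A i) z' l| ≤ η) →
        |Fm.sm (a i) (Fm.conv (P T i) (P T i)) z - Fm.sm (a i) (Fm.conv (P T i) (P T i)) z'| ≤
          ε * E i := by
  have hW : (0 : ℝ) < (2 * Real.pi) ^ k := by positivity
  obtain ⟨R, hR, hRt⟩ := hD.tail T ((2 * Real.pi) ^ k * ε / 4) (by positivity)
  obtain ⟨C, hC, hCe⟩ := hD.P_en T
  refine ⟨ε / (2 * (k * R * C + 1)), by positivity, ?_⟩
  filter_upwards [hRt, hCe, hD.a_pos, hD.a_lt, hD.E_pos] with i h1 h2 h3 h4 h5 z z' hz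
  have h6 := Fm.equi (by linarith : 0 < a i) h4 (P T i) (A i) hR.le
    (by positivity : 0 ≤ ε / (2 * (k * R * C + 1))) hz
  have h7 : k * R * (ε / (2 * (k * R * C + 1))) * ((2 * Real.pi) ^ k * Fm.en (a i) (P T i) (P T i)) ≤
      (2 * Real.pi) ^ k * (ε / 2 * E i) := by
    have h8 : k * R * (ε / (2 * (k * R * C + 1))) *
        ((2 * Real.pi) ^ k * Fm.en (a i) (P T i) (P T i)) ≤
        k * R * (ε / (2 * (k * R * C + 1))) * ((2 * Real.pi) ^ k * (C * E i)) :=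
      mul_le_mul_of_nonneg_left (mul_le_mul_of_nonneg_left h2 hW.le) (by positivity)
    refine h8.trans ?_
    have h9 : k * R * (ε / (2 * (k * R * C + 1))) * ((2 * Real.pi) ^ k * (C * E i)) =
        (2 * Real.pi) ^ k * ((k * R * C / (k * R * C + 1)) * (ε / 2 * E i)) := by
      field_simp
    rw [h9]
    refine mul_le_mul_of_nonneg_left ?_ hW.le
    refine mul_le_of_le_one_left (by positivity) ?_
    rw [div_le_one (by positivity)]
    linarith
  have h10 : (2 * Real.pi) ^ k *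
      |Fm.sm (a i) (Fm.conv (P T i) (P T i)) z - Fm.sm (a i) (Fm.conv (P T i) (P T i)) z'| ≤
      (2 * Real.pi) ^ k * (ε * E i) := by
    refine h6.trans ?_
    have : (2 * Real.pi) ^ k * (ε * E i) = (2 * Real.pi) ^ k * (ε / 2 * E i) +
        2 * ((2 * Real.pi) ^ k * ε / 4 * E i) := by ring
    rw [this]
    linarith
  exact le_of_mul_le_mul_left h10 hW

/-- SVB. `Fm.equi'`, `Dg.tail`, `Dg.P_en`, `Dg.A_lim`. -/
theorem flat' (hD : Dg k F p a N E P A r t g d) (T : ℕ) {ε : ℝ} (hε : 0 < ε) :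
    ∀ᶠ i in (F : Filter I), ∀ z : Zk k,
      Fm.sm (Real.sqrt (a i)) (Fm.conv (P T i) (P T i)) z ≤
        4 ^ k * Fm.sm (a i) (Fm.conv (P T i) (P T i)) z + ε * E i := by
  have hW : (0 : ℝ) < (2 * Real.pi) ^ k := by positivity
  have h4k : (0 : ℝ) < 4 ^ k := by positivity
  obtain ⟨R, hR, hRt⟩ := hD.tail T ((2 * Real.pi) ^ k * ε / (4 * 4 ^ k)) (by positivity)
  obtain ⟨C, hC, hCe⟩ := hD.P_en T
  -- the parameter `e`
  obtain ⟨e, he0, he1, he2, he3⟩ : ∃ e : ℝ, 0 < e ∧ e ≤ 1 / 2 ∧ k * e ^ 2 ≤ 1 / 8 ∧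
      8 * 4 ^ k * k * e ^ 2 * C ≤ ε / 2 := by
    obtain ⟨M, hM⟩ : ∃ M : ℝ, M = 2 + 8 * k + 16 * 4 ^ k * k * C / ε := ⟨_, rfl⟩
    have hM1 : 2 ≤ M := by
      rw [hM]
      have h1 : (0 : ℝ) ≤ 8 * k := by positivity
      have h2 : (0 : ℝ) ≤ 16 * 4 ^ k * k * C / ε := by positivity
      linarith
    have hM0 : 0 < M := by linarith
    have hi2 : (1 / M) ^ 2 ≤ 1 / M := by
      have : 1 / M ≤ 1 := by rw [div_le_one hM0]; linarith
      have h0 : 0 ≤ 1 / M := by positivity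
      nlinarith
    have hMk : 8 * (k : ℝ) ≤ M := by
      rw [hM]
      have h2 : (0 : ℝ) ≤ 16 * 4 ^ k * k * C / ε := by positivity
      linarith
    have hMC : 16 * 4 ^ k * k * C / ε ≤ M := by
      rw [hM]
      have h1 : (0 : ℝ) ≤ 8 * k := by positivity
      linarith
    refine ⟨1 / M, by positivity, ?_, ?_, ?_⟩
    · rw [div_le_div_iff₀ hM0 (by norm_num)]
      linarith
    · refine (mul_le_mul_of_nonneg_left hi2 (Nat.cast_nonneg k)).trans ?_
      rw [mul_one_div, div_le_div_iff₀ hM0 (by norm_num)]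
      linarith
    · have h1 : 8 * 4 ^ k * k * (1 / M) ^ 2 * C ≤ 8 * 4 ^ k * k * (1 / M) * C :=
        mul_le_mul_of_nonneg_right (mul_le_mul_of_nonneg_left hi2 (by positivity)) hC.le
      refine h1.trans ?_
      rw [div_le_iff₀ hε] at hMC
      have h2 : 8 * 4 ^ k * (k : ℝ) * (1 / M) * C = 8 * 4 ^ k * k * C / M := by ring
      rw [h2, div_le_div_iff₀ hM0 (by norm_num)]
      linarith
  filter_upwards [hRt, hCe, hD.a_pos, hD.a_lt, hD.E_pos, hD.A_lim (e / (k * R + 1)) (by positivity)]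
    with i h1 h2 h3 h4 h5 h6 z
  have h7 : k * R * (e / (k * R + 1) * (1 - a i)) ≤ e * (1 - a i) := by
    have h8 : k * R * (e / (k * R + 1) * (1 - a i)) = (k * R / (k * R + 1)) * (e * (1 - a i)) := by
      field_simp
    rw [h8]
    refine mul_le_of_le_one_left (mul_nonneg he0.le (by linarith)) ?_
    rw [div_le_one (by positivity)]
    linarith
  have h8 := Fm.equi' (by linarith : 0 < a i) h4 (hD.P_nn T i) (A i) hR.le he0.le he1 he2 h6 h7 z
  have h9 : 8 * 4 ^ k * k * e ^ 2 * ((2 * Real.pi) ^ k * Fm.en (a i) (P T i) (P T i)) ≤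
      (2 * Real.pi) ^ k * (ε / 2 * E i) := by
    have h10 : 8 * 4 ^ k * k * e ^ 2 * ((2 * Real.pi) ^ k * Fm.en (a i) (P T i) (P T i)) ≤
        8 * 4 ^ k * k * e ^ 2 * ((2 * Real.pi) ^ k * (C * E i)) :=
      mul_le_mul_of_nonneg_left (mul_le_mul_of_nonneg_left h2 hW.le) (by positivity)
    refine h10.trans ?_
    have h11 := mul_le_mul_of_nonneg_left (mul_le_mul_of_nonneg_right he3 h5.le) hW.le
    refine le_trans (le_of_eq ?_) h11
    ring
  have h12 : 2 * 4 ^ k * ∫ θ in bx k \ pp (A i) R, hk (a i) θ * ‖(P T i).ft θ‖ ^ 2 ≤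
      (2 * Real.pi) ^ k * (ε / 2 * E i) := by
    refine (mul_le_mul_of_nonneg_left h1 (by positivity)).trans (le_of_eq ?_)
    field_simp
    ring
  have h13 : (2 * Real.pi) ^ k * Fm.sm (Real.sqrt (a i)) (Fm.conv (P T i) (P T i)) z ≤
      (2 * Real.pi) ^ k * (4 ^ k * Fm.sm (a i) (Fm.conv (P T i) (P T i)) z + ε * E i) := by
    refine h8.trans ?_
    have : (2 * Real.pi) ^ k * (4 ^ k * Fm.sm (a i) (Fm.conv (P T i) (P T i)) z + ε * E i) =
        4 ^ k * ((2 * Real.pi) ^ k * Fm.sm (a i) (Fm.conv (P T i) (P T i)) z) +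
        (2 * Real.pi) ^ k * (ε / 2 * E i) + (2 * Real.pi) ^ k * (ε / 2 * E i) := by ring
    rw [this]
    linarith
  exact le_of_mul_le_mul_left h13 hW

end Pool.Agent.SawM2
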