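import Pool.Agent.SawM2.SvA

/-!
# Sums of the smoothed measures over lattice points (module SVC)
-/

set_option autoImplicit false

namespace Pool.Agent.SawM2

open Finset Filter MeasureTheory

variable {k : ℕ} {a : ℝ}

namespace Fm

private theorem SvC_one_sub (ha0 : 0 < a) (ha1 : a < 1) :
    2 / (1 - Real.sqrt a) ≤ 4 / (1 - a) := by
  have hs0 : 0 ≤ Real.sqrt a := Real.sqrt_nonneg a
  have hs1 : Real.sqrt a < 1 := by
    rw [Real.sqrt_lt' one_pos]
    linarith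
  have hs2 : Real.sqrt a ^ 2 = a := Real.sq_sqrt ha0.le
  rw [div_le_div_iff₀ (by linarith) (by linarith)]
  nlinarith

private theorem SvC_pr_mul (μ ν : Fm k) (f g : Zk k → ℝ) :
    μ.pr f * ν.pr g = μ.pr fun x => ν.pr fun y => f x * g y := by
  rw [← pr_mul_right]
  refine pr_congr _ fun x => ?_
  rw [pr_mul_left]

/-- SVC. With `p = z' - x`, `q = z - z' - y`, `p + q = z - x - y`: `ker a p * ker a q ≤
ker (√a) p * ker (√a) (p + q)` (`ker_mul_ker_le` with `-p` and `p + q`), and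
`Σ_{z'} ker (√a) (z' - x) ≤ (2 / (1 - √a))^k ≤ (4 / (1 - a))^k` (`ker_sum_le`,
`1 - a ≤ 2 (1 - √a)`). -/
theorem four (ha0 : 0 < a) (ha1 : a < 1) {μ ν : Fm k} (hμ : μ.Nn) (hν : ν.Nn)
    (Z : Finset (Zk k)) (z : Zk k) :
    ∑ z' ∈ Z, sm a μ z' * sm a ν (z - z') ≤
      (4 / (1 - a)) ^ k * sm (Real.sqrt a) (conv μ ν) z := by
  have hs0 : 0 < Real.sqrt a := Real.sqrt_pos.mpr ha0
  have hs1 : Real.sqrt a < 1 := by
    rw [Real.sqrt_lt' one_pos]
    linarith
  have h1 : ∀ z' : Zk k, sm a μ z' * sm a ν (z - z') ≤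
      μ.pr fun x => ν.pr fun y =>
        ker (Real.sqrt a) (z' - x) * ker (Real.sqrt a) (z - (x + y)) := by
    intro z'
    unfold sm
    rw [SvC_pr_mul]
    refine hμ.pr_mono fun x => hν.pr_mono fun y => ?_
    have h2 := ker_mul_ker_le ha0.le ha1.le (x - z') (z - (x + y))
    have e1 : x - z' + (z - (x + y)) = z - z' - y := by abel
    rw [e1, ker_sub_comm a x z', ker_sub_comm (Real.sqrt a) x z'] at h2
    exact h2
  refine (Finset.sum_le_sum fun z' _ => h1 z').trans ?_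
  rw [← pr_fsum]
  have h3 : ∀ x : Zk k, (∑ z' ∈ Z, ν.pr fun y =>
      ker (Real.sqrt a) (z' - x) * ker (Real.sqrt a) (z - (x + y))) ≤
      (4 / (1 - a)) ^ k * ν.pr fun y => ker (Real.sqrt a) (z - (x + y)) := by
    intro x
    have h4 : (∑ z' ∈ Z, ν.pr fun y =>
        ker (Real.sqrt a) (z' - x) * ker (Real.sqrt a) (z - (x + y))) =
        (∑ z' ∈ Z, ker (Real.sqrt a) (z' - x)) *
          ν.pr fun y => ker (Real.sqrt a) (z - (x + y)) := by
      rw [Finset.sum_mul]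
      exact Finset.sum_congr rfl fun z' _ => pr_mul_left _ _ _
    rw [h4]
    refine mul_le_mul_of_nonneg_right ?_ (hν.pr_nonneg fun y => ker_nonneg hs0.le _)
    refine (ker_sum_le hs0 hs1 Z x).trans ?_
    exact pow_le_pow_left₀ (div_nonneg zero_le_two (by linarith)) (SvC_one_sub ha0 ha1) _
  refine (hμ.pr_mono h3).trans ?_
  rw [pr_mul_left]
  unfold sm
  rw [pr_conv]

/-- SVC. `Σ_{z ∈ Z} ker a (z - x)` is at least the left factor if `Q x` (`ker_sum_ge`), and `≥ 0`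
otherwise. -/
theorem sum_sm_ge (ha0 : 0 < a) (ha1 : a < 1) {μ : Fm k} (hμ : μ.Nn) (Z : Finset (Zk k)) (m : ℕ)
    (Q : Zk k → Prop) (hZ : ∀ x, Q x → ∀ z : Zk k, (∀ i, |z i - x i| ≤ m) → z ∈ Z) :
    (2 * (m : ℝ) + 1) ^ k * a ^ (k * m) * (μ.pr fun x => ind (Q x)) ≤ ∑ z ∈ Z, sm a μ z := by
  have h1 : ∑ z ∈ Z, sm a μ z = μ.pr fun x => ∑ z ∈ Z, ker a (z - x) := by
    rw [pr_fsum]
    rfl
  rw [h1, ← pr_mul_left]
  refine hμ.pr_mono fun x => ?_
  by_cases hQ : Q x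
  · rw [ind_of hQ, mul_one]
    exact ker_sum_ge ha0 ha1 Z x m (hZ x hQ)
  · rw [ind_not hQ, mul_zero]
    exact Finset.sum_nonneg fun z _ => ker_nonneg ha0.le _

/-- SVC. `m = ⌈1 / (1 - a)⌉`: `(2 m + 1)^k ≥ (2 / (1 - a))^k` and `a^m ≥ a a^{1/(1-a)} ≥ 1/16` for
`a ≥ 1/2` (`log a ≥ - (1 - a) / a ≥ - 2 (1 - a)`: `a^{1/(1-a)} ≥ e^{-2}`). -/
theorem ker_const (ha0 : 1 / 2 < a) (ha1 : a < 1) :
    (1 / (8 * (1 - a))) ^ k ≤
      (2 * ((⌈1 / (1 - a)⌉₊ : ℕ) : ℝ) + 1) ^ k * a ^ (k * ⌈1 / (1 - a)⌉₊) := by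
  have ha : 0 < a := by linarith
  have h1a : 0 < 1 - a := by linarith
  obtain ⟨m, hm⟩ : ∃ m : ℕ, m = ⌈1 / (1 - a)⌉₊ := ⟨_, rfl⟩
  rw [← hm]
  have hm1 : 1 / (1 - a) ≤ m := by rw [hm]; exact Nat.le_ceil _
  have hm2 : (m : ℝ) < 1 / (1 - a) + 1 := by
    rw [hm]; exact Nat.ceil_lt_add_one (by positivity)
  have hlog0 : Real.log a < 0 := Real.log_neg ha ha1
  have hlog1 : 1 - a⁻¹ ≤ Real.log a := Real.one_sub_inv_le_log_of_pos ha
  have h2 : -2 ≤ 1 / (1 - a) * Real.log a := by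
    have h3 : 1 / (1 - a) * (1 - a⁻¹) ≤ 1 / (1 - a) * Real.log a :=
      mul_le_mul_of_nonneg_left hlog1 (by positivity)
    have h4 : 1 / (1 - a) * (1 - a⁻¹) = -(1 / a) := by
      field_simp
      ring
    have h5 : 1 / a ≤ 2 := by
      rw [div_le_iff₀ ha]
      linarith
    linarith
  have h3 : (1 / 16 : ℝ) ≤ a ^ m := by
    have h4 : a ^ m = Real.exp (m * Real.log a) := by
      rw [mul_comm, Real.exp_mul, Real.exp_log ha, Real.rpow_natCast]
    have h5 : Real.log a + -2 ≤ m * Real.log a := by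
      have h6 : (1 / (1 - a) + 1) * Real.log a ≤ m * Real.log a :=
        mul_le_mul_of_nonpos_right hm2.le hlog0.le
      linarith
    have h6 : a * Real.exp (-2) ≤ a ^ m := by
      rw [h4]
      calc a * Real.exp (-2) = Real.exp (Real.log a + -2) := by
            rw [Real.exp_add, Real.exp_log ha]
        _ ≤ _ := Real.exp_le_exp.2 h5
    have h7 : (1 / 8 : ℝ) ≤ Real.exp (-2) := by
      have h8 : Real.exp 2 ≤ 8 := by
        have h9 : Real.exp 2 = Real.exp 1 * Real.exp 1 := by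
          rw [← Real.exp_add]; norm_num
        have h10 := Real.exp_one_lt_d9
        have h11 := Real.exp_pos 1
        rw [h9]
        nlinarith
      rw [Real.exp_neg, one_div]
      exact inv_anti₀ (Real.exp_pos 2) h8
    nlinarith
  rw [pow_mul', ← mul_pow]
  refine pow_le_pow_left₀ (by positivity) ?_ _
  have h4 : 2 / (1 - a) ≤ 2 * (m : ℝ) + 1 := by
    have : 2 / (1 - a) = 2 * (1 / (1 - a)) := by ring
    linarith
  have h5 : 1 / (8 * (1 - a)) = 2 / (1 - a) * (1 / 16) := by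
    field_simp
    ring
  rw [h5]
  exact mul_le_mul h4 h3 (by norm_num) (by positivity)

end Fm

end Pool.Agent.SawM2
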