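import Pool.Agent.SawM2.SvB
import Pool.Agent.SawM2.SvC

/-!
# The semigroup of positive points (module SVD)
-/

set_option autoImplicit false

namespace Pool.Agent.SawM2

open Finset Filter MeasureTheory

variable {I : Type} {k : ℕ} {F : Ultrafilter I} {p : ℕ → Fm k} {a : I → ℝ} {N : I → ℕ}
  {E : I → ℝ} {P : ℕ → I → Fm k} {A : I → Fin k → Rk k} {r t g d : ℝ}

private theorem SvD_conv_mono {μ μ' ν ν' : Fm k} (hμ' : μ'.Nn) (hν : ν.Nn) (h : μ.Dom μ')
    (h' : ν.Dom ν') : (Fm.conv μ ν).Dom (Fm.conv μ' ν') := by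
  intro f hf
  rw [Fm.pr_conv, Fm.pr_conv]
  calc (μ.pr fun x => ν.pr fun y => f (x + y)) ≤ μ'.pr fun x => ν.pr fun y => f (x + y) :=
        h _ fun x => hν.pr_nonneg fun y => hf _
    _ ≤ μ'.pr fun x => ν'.pr fun y => f (x + y) := hμ'.pr_mono fun x => h' _ fun y => hf _

private theorem SvD_N_pos (hD : Dg k F p a N E P A r t g d) :
    ∀ᶠ i in (F : Filter I), 0 < (N i : ℝ) := by
  filter_upwards [hD.N_lim.eventually_ge_atTop 1] with i hi
  exact_mod_cast hi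

/-- one application of (D5) with a bounded slowly varying function -/
private theorem SvD_conv_slo {μ μ2 : Fm k} {s c T N ε B : ℝ} (hs0 : 0 ≤ s) (hs1 : s ≤ 1)
    (hcs : c ≤ s) (_hc1 : c < 1) (hB : 0 < B)
    (hconv : ∀ f : Zk k → ℝ, (∀ x, 0 ≤ f x) → (∀ x, f x ≤ 1) → Lip (1 / (1 - c)) f →
      (Fm.conv μ μ).pr f ≤ T * N * μ2.pr f + ε * N ^ 2)
    {h : Zk k → ℝ} (h0 : ∀ x, 0 ≤ h x) (hle : ∀ x, h x ≤ B) (hslo : Slo s h) :
    (Fm.conv μ μ).pr h ≤ T * N * μ2.pr h + ε * N ^ 2 * B := by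
  have hlip : Lip (1 / (1 - c)) fun x => B⁻¹ * h x := by
    intro x y
    have h1 := hslo.lip hs0 hs1 h0 hle x y
    rw [← mul_sub, abs_mul, abs_of_pos (inv_pos.2 hB), div_div_eq_mul_div, div_one]
    calc B⁻¹ * |h x - h y| ≤ B⁻¹ * (B * (n1 (x - y) * (1 - s))) :=
          mul_le_mul_of_nonneg_left h1 (inv_pos.2 hB).le
      _ = n1 (x - y) * (1 - s) := by rw [← mul_assoc, inv_mul_cancel₀ hB.ne', one_mul]
      _ ≤ n1 (x - y) * (1 - c) :=
          mul_le_mul_of_nonneg_left (by linarith) (Nat.cast_nonneg _)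
  have h2 := hconv (fun x => B⁻¹ * h x) (fun x => mul_nonneg (inv_pos.2 hB).le (h0 x))
    (fun x => by
      rw [inv_mul_le_iff₀ hB, mul_one]
      exact hle x) hlip
  rw [Fm.pr_mul_left, Fm.pr_mul_left] at h2
  have h3 := mul_le_mul_of_nonneg_left h2 hB.le
  have e1 : B * (B⁻¹ * (Fm.conv μ μ).pr h) = (Fm.conv μ μ).pr h := by
    rw [← mul_assoc, mul_inv_cancel₀ hB.ne', one_mul]
  have e2 : B * (T * N * (B⁻¹ * μ2.pr h) + ε * N ^ 2) = T * N * μ2.pr h + ε * N ^ 2 * B := by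
    have : B * (T * N * (B⁻¹ * μ2.pr h) + ε * N ^ 2) =
        (B * B⁻¹) * (T * N * μ2.pr h) + ε * N ^ 2 * B := by ring
    rw [this, mul_inv_cancel₀ hB.ne', one_mul]
  rw [e1, e2] at h3
  exact h3

/-- SVD. Halve `η`. -/
theorem isOpen_Wt (T : ℕ) : IsOpen (Wt F a E P A T) := by
  rw [isOpen_iff_mem_nhds]
  rintro x ⟨c, hc, η, hη, h⟩
  refine Filter.mem_of_superset (Metric.ball_mem_nhds x (half_pos hη)) fun y hy => ?_
  refine ⟨c, hc, η / 2, half_pos hη, ?_⟩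
  filter_upwards [h] with i hi z hz
  refine hi z fun l => ?_
  have h1 : |y l - x l| < η / 2 := by
    have h2 := (dist_pi_lt_iff (half_pos hη)).1 (Metric.mem_ball.1 hy) l
    rwa [Real.dist_eq] at h2
  calc |rs (A i) z l - x l| = |(rs (A i) z l - y l) + (y l - x l)| := by congr 1; ring
    _ ≤ |rs (A i) z l - y l| + |y l - x l| := abs_add_le _ _
    _ ≤ η := by linarith [hz l]

/-- SVD. `Dg.P_mono` twice (`pr_conv`), `sm`. -/
theorem Wt_mono (hD : Dg k F p a N E P A r t g d) {T T' : ℕ} (h : T ≤ T') :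
    Wt F a E P A T ⊆ Wt F a E P A T' := by
  rintro x ⟨c, hc, η, hη, hx⟩
  refine ⟨c, hc, η, hη, ?_⟩
  filter_upwards [hx, hD.a_pos] with i hi ha z hz
  refine (hi z hz).trans ?_
  have hdom := hD.P_mono T T' i h
  exact Fm.sm_mono (by linarith) (SvD_conv_mono (hD.P_nn T' i) (hD.P_nn T i) hdom hdom) z

/-- SVD. It is enough to find one point close to `x` for most `i`: `flat` with `ε = c / 2`. -/
theorem mem_Wt (hD : Dg k F p a N E P A r t g d) (T : ℕ) (x : Rk k) {c : ℝ} (hc : 0 < c)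
    (h : ∀ η : ℝ, 0 < η → ∀ᶠ i in (F : Filter I), ∃ z : Zk k, (∀ l, |rs (A i) z l - x l| ≤ η) ∧
      c * E i ≤ Fm.sm (a i) (Fm.conv (P T i) (P T i)) z) :
    x ∈ Wt F a E P A T := by
  obtain ⟨η0, hη0, hfl⟩ := flat hD T (ε := c / 2) (half_pos hc)
  refine ⟨c / 2, half_pos hc, η0 / 2, half_pos hη0, ?_⟩
  filter_upwards [hfl, h (η0 / 2) (half_pos hη0)] with i h1 h2 z hz
  obtain ⟨z1, hz1, hz2⟩ := h2
  have h3 := h1 z z1 fun l => by
    calc |rs (A i) z l - rs (A i) z1 l| =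
          |(rs (A i) z l - x l) - (rs (A i) z1 l - x l)| := by congr 1; ring
      _ ≤ |rs (A i) z l - x l| + |rs (A i) z1 l - x l| := abs_sub _ _
      _ ≤ η0 := by linarith [hz l, hz1 l]
  have h4 := (abs_le.1 h3).1
  linarith

/-- SVD. Twice `Dg.P_conv`, with functions normalised by their upper bounds. For
`h x = Σ_{y} (P*P)(y) ker √a (z - x - y)` we have `0 ≤ h ≤ B = T N (C E / N)` (`Dg.P_sup`,
`Dg.P_mass`), and `h` is Lipschitz with constant `B (1 - √a) ≤ B (1 - a)` (`Slo.lip`,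
`Nn.slo_pr`), so `(P*P).pr h ≤ T N (P (2T)).pr h + ε N² B`. Then
`(P (2T)).pr h = (P*P).pr h'`, `h' y = Σ_x P(2T)(x) ker √a (z - x - y) ≤ C E / N`, again
`≤ T N (P (2T)).pr h' + ε N² (C E / N)`. -/
theorem conv_four (hD : Dg k F p a N E P A r t g d) (T : ℕ) {ε : ℝ} (hε : 0 < ε) :
    ∀ᶠ i in (F : Filter I), ∀ z : Zk k,
      Fm.sm (Real.sqrt (a i)) (Fm.conv (Fm.conv (P T i) (P T i)) (Fm.conv (P T i) (P T i))) z ≤
        (T * N i : ℝ) ^ 2 * Fm.sm (Real.sqrt (a i)) (Fm.conv (P (2 * T) i) (P (2 * T) i)) z +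
          ε * (N i : ℝ) ^ 2 * E i := by
  obtain ⟨C1, hC1, hs1⟩ := hD.P_sup T
  obtain ⟨C2, hC2, hs2⟩ := hD.P_sup (2 * T)
  obtain ⟨C, hCdef⟩ : ∃ C : ℝ, C = C1 + C2 := ⟨_, rfl⟩
  have hC : 0 < C := by rw [hCdef]; linarith
  have hT : (0 : ℝ) ≤ T := Nat.cast_nonneg T
  obtain ⟨δ, hδdef⟩ : ∃ δ : ℝ, δ = ε / ((2 * T + 1) * C) := ⟨_, rfl⟩
  have hδ : 0 < δ := by rw [hδdef]; positivity
  filter_upwards [hs1, hs2, hD.P_conv T δ hδ, hD.a_pos, hD.a_lt, hD.E_pos, SvD_N_pos hD] with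
    i h1 h2 hcv ha0 ha1 hE hN z
  have ha : 0 < a i := by linarith
  have hsa0 : 0 ≤ Real.sqrt (a i) := Real.sqrt_nonneg _
  have hsa1 : Real.sqrt (a i) ≤ 1 := by rw [Real.sqrt_le_one]; exact ha1.le
  have hsa2 : a i ≤ Real.sqrt (a i) := by
    have e : Real.sqrt (a i) * Real.sqrt (a i) = a i := Real.mul_self_sqrt ha.le
    nlinarith
  have hnn := hD.P_nn T i
  have hnn2 := hD.P_nn (2 * T) i
  have hEN : 0 < E i / N i := div_pos hE hN
  have hk : ∀ x : Zk k, 0 ≤ ker (Real.sqrt (a i)) x := fun x => ker_nonneg hsa0 x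
  -- the first function
  have hb1 : ∀ x, (Fm.conv (P T i) (P T i)).pr (fun y => ker (Real.sqrt (a i)) (z - (x + y))) ≤
      (T + 1) * C * E i := by
    intro x
    rw [Fm.pr_conv]
    have h3 : ∀ u, ((P T i).pr fun v => ker (Real.sqrt (a i)) (z - (x + (u + v)))) ≤
        C1 * E i / N i := by
      intro u
      have h4 := h1 (z - x - u)
      unfold Fm.sm at h4
      refine le_trans (le_of_eq ?_) h4
      refine Fm.pr_congr _ fun v => ?_
      congr 1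
      abel
    refine (hnn.pr_le h3).trans ?_
    have h5 := hD.P_mass T i
    have h6 : 0 ≤ C1 * E i / N i := by positivity
    calc (P T i).mass * (C1 * E i / N i) ≤ (T * N i) * (C1 * E i / N i) :=
          mul_le_mul_of_nonneg_right h5 h6
      _ = T * C1 * E i := by field_simp
      _ ≤ (T + 1) * C * E i := by
          have h7 : (T : ℝ) * C1 ≤ (T + 1) * C := by
            rw [hCdef]
            nlinarith
          exact mul_le_mul_of_nonneg_right h7 hE.le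
  have e1 : Fm.sm (Real.sqrt (a i))
      (Fm.conv (Fm.conv (P T i) (P T i)) (Fm.conv (P T i) (P T i))) z =
      (Fm.conv (P T i) (P T i)).pr fun x =>
        (Fm.conv (P T i) (P T i)).pr fun y => ker (Real.sqrt (a i)) (z - (x + y)) := by
    unfold Fm.sm
    rw [Fm.pr_conv]
  have hB1 : 0 < (T + 1) * C * E i := by positivity
  have hslo1 : Slo (Real.sqrt (a i)) fun x =>
      (Fm.conv (P T i) (P T i)).pr fun y => ker (Real.sqrt (a i)) (z - (x + y)) := by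
    refine Fm.Nn.slo_pr (hnn.conv hnn) (F := fun x y => ker (Real.sqrt (a i)) (z - (x + y)))
      fun y => ?_
    intro x x'
    have h3 := ker_slo hsa0 hsa1 (z - y) x x'
    have e3 : z - y - x = z - (x + y) := by abel
    have e4 : z - y - x' = z - (x' + y) := by abel
    simp only [e3, e4] at h3
    exact h3
  have h4 := SvD_conv_slo (μ := P T i) (μ2 := P (2 * T) i) (T := T) (N := N i) (ε := δ)
    hsa0 hsa1 hsa2 ha1 hB1 hcv
    (fun x => (hnn.conv hnn).pr_nonneg fun y => hk _) hb1 hslo1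
  -- the second function
  have e2 : (P (2 * T) i).pr (fun x =>
      (Fm.conv (P T i) (P T i)).pr fun y => ker (Real.sqrt (a i)) (z - (x + y))) =
      (Fm.conv (P T i) (P T i)).pr fun y =>
        (P (2 * T) i).pr fun x => ker (Real.sqrt (a i)) (z - (x + y)) := Fm.pr_comm _ _ _
  have hb2 : ∀ y, (P (2 * T) i).pr (fun x => ker (Real.sqrt (a i)) (z - (x + y))) ≤
      C * E i / N i := by
    intro y
    have h5 := h2 (z - y)
    unfold Fm.sm at h5
    have e3 : ((P (2 * T) i).pr fun x => ker (Real.sqrt (a i)) (z - (x + y))) =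
        (P (2 * T) i).pr fun x => ker (Real.sqrt (a i)) (z - y - x) := by
      refine Fm.pr_congr _ fun x => ?_
      congr 1
      abel
    rw [e3]
    refine h5.trans ?_
    have h6 : C2 * (E i / N i) ≤ C * (E i / N i) :=
      mul_le_mul_of_nonneg_right (by rw [hCdef]; linarith) hEN.le
    rw [mul_div_assoc, mul_div_assoc]
    exact h6
  have hB2 : 0 < C * E i / N i := by positivity
  have hslo2 : Slo (Real.sqrt (a i)) fun y =>
      (P (2 * T) i).pr fun x => ker (Real.sqrt (a i)) (z - (x + y)) := by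
    refine Fm.Nn.slo_pr hnn2 (F := fun y x => ker (Real.sqrt (a i)) (z - (x + y))) fun x => ?_
    intro y y'
    have h3 := ker_slo hsa0 hsa1 (z - x) y y'
    have e3 : z - x - y = z - (x + y) := by abel
    have e4 : z - x - y' = z - (x + y') := by abel
    simp only [e3, e4] at h3
    exact h3
  have h5 := SvD_conv_slo (μ := P T i) (μ2 := P (2 * T) i) (T := T) (N := N i) (ε := δ)
    hsa0 hsa1 hsa2 ha1 hB2 hcv
    (fun y => hnn2.pr_nonneg fun x => hk _) hb2 hslo2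
  have e3 : (P (2 * T) i).pr (fun y =>
      (P (2 * T) i).pr fun x => ker (Real.sqrt (a i)) (z - (x + y))) =
      Fm.sm (Real.sqrt (a i)) (Fm.conv (P (2 * T) i) (P (2 * T) i)) z := by
    unfold Fm.sm
    rw [Fm.pr_conv]
    exact Fm.pr_comm _ _ _
  rw [e1]
  rw [e2] at h4
  rw [e3] at h5
  have h6 : (T : ℝ) * N i * (Fm.conv (P T i) (P T i)).pr (fun y =>
        (P (2 * T) i).pr fun x => ker (Real.sqrt (a i)) (z - (x + y))) ≤
      T * N i * (T * N i * Fm.sm (Real.sqrt (a i)) (Fm.conv (P (2 * T) i) (P (2 * T) i)) z +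
        δ * (N i : ℝ) ^ 2 * (C * E i / N i)) :=
    mul_le_mul_of_nonneg_left h5 (mul_nonneg hT hN.le)
  refine h4.trans ((add_le_add_left h6 _).trans (le_of_eq ?_))
  have e4 : δ * ((2 * T + 1) * C) = ε := by
    rw [hδdef]
    field_simp
  have e5 : δ * (N i : ℝ) ^ 2 * (C * E i / N i) * (N i : ℝ) =
      δ * (N i : ℝ) ^ 2 * (C * E i) := by
    field_simp
  have e6 : (T : ℝ) * N i * (T * N i *
        Fm.sm (Real.sqrt (a i)) (Fm.conv (P (2 * T) i) (P (2 * T) i)) z +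
        δ * (N i : ℝ) ^ 2 * (C * E i / N i)) + δ * (N i : ℝ) ^ 2 * ((T + 1) * C * E i) =
      (T * N i) ^ 2 * Fm.sm (Real.sqrt (a i)) (Fm.conv (P (2 * T) i) (P (2 * T) i)) z +
        T * (δ * (N i : ℝ) ^ 2 * (C * E i / N i) * (N i : ℝ)) +
          δ * (N i : ℝ) ^ 2 * ((T + 1) * C * E i) := by ring
  rw [e6, e5]
  have e7 : (T : ℝ) * (δ * (N i : ℝ) ^ 2 * (C * E i)) +
      δ * (N i : ℝ) ^ 2 * ((T + 1) * C * E i) =
      (δ * ((2 * T + 1) * C)) * (N i : ℝ) ^ 2 * E i := by ring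
  rw [add_assoc, e7, e4]

/-- SVD. Let `c`, `η` serve for `x` and `y`. For `z` with `|rs z - (x + y)| ≤ η / 2` and the finite
set `Z` of the lattice points `z'` with `|rs z' - x| ≤ η / 2` (`latt_ge`: `#Z |det A| ≥ (η/2)^k`;
its hypothesis follows from `Dg.A_lim`) all products `sm z' * sm (z - z')` are at least `(c E)²`. By
`Fm.four`, `conv_four`, `det_cmp`, `flat'`: `sm (P (2T)) z ≥ c' E` with `c' > 0`. -/
theorem add_mem (hD : Dg k F p a N E P A r t g d) (T : ℕ) {x y : Rk k}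
    (hx : x ∈ Wt F a E P A T) (hy : y ∈ Wt F a E P A T) : x + y ∈ Wt F a E P A (2 * T) := by
  obtain ⟨c1, hc1, η1, hη1, h1⟩ := hx
  obtain ⟨c2, hc2, η2, hη2, h2⟩ := hy
  obtain ⟨C, hC, hdet⟩ := hD.det_cmp
  obtain ⟨η, hηdef⟩ : ∃ η : ℝ, η = min η1 η2 := ⟨_, rfl⟩
  have hη : 0 < η := by rw [hηdef]; exact lt_min hη1 hη2
  have hηle1 : η ≤ η1 := by rw [hηdef]; exact min_le_left _ _
  have hηle2 : η ≤ η2 := by rw [hηdef]; exact min_le_right _ _
  obtain ⟨κ, hκdef⟩ : ∃ κ : ℝ, κ = (η / 2) ^ k * (c1 * c2) / C := ⟨_, rfl⟩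
  have hκ : 0 < κ := by rw [hκdef]; positivity
  obtain ⟨ε1, hε1def⟩ : ∃ ε1 : ℝ, ε1 = κ / (4 * 4 ^ k) := ⟨_, rfl⟩
  have hε1 : 0 < ε1 := by rw [hε1def]; positivity
  obtain ⟨ε2, hε2def⟩ : ∃ ε2 : ℝ, ε2 = κ / (4 * 4 ^ k * ((T : ℝ) ^ 2 + 1)) := ⟨_, rfl⟩
  have hε2 : 0 < ε2 := by rw [hε2def]; positivity
  refine ⟨κ / (2 * (4 ^ k * (4 ^ k * ((T : ℝ) ^ 2 + 1)))), by positivity, η / 2, half_pos hη, ?_⟩
  have hA : ∀ᶠ i in (F : Filter I), ∀ l m, |A i l m| ≤ η / 2 / (k + 1) * (1 - a i) :=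
    hD.A_lim _ (by positivity)
  filter_upwards [h1, h2, hdet, hD.det_ne, hA, conv_four hD T hε1, flat' hD (2 * T) hε2, hD.a_pos,
    hD.a_lt, hD.E_pos, SvD_N_pos hD] with i h1 h2 hdet hne hA h4 h5 ha0 ha1 hE hN z hz
  have ha : 0 < a i := by linarith
  have h1a : 0 < 1 - a i := by linarith
  obtain ⟨Z, hZ, hZc⟩ := latt_ge hne (half_pos hη) (fun l m => (hA l m).trans (by
    have : 0 ≤ η / 2 / ((k : ℝ) + 1) := by positivity
    nlinarith)) x
  obtain ⟨s, hs⟩ : ∃ s : ℝ, s = Fm.sm (a i) (Fm.conv (P (2 * T) i) (P (2 * T) i)) z := ⟨_, rfl⟩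
  have hs0 : 0 ≤ s := by
    rw [hs]
    exact ((hD.P_nn _ i).conv (hD.P_nn _ i)).pr_nonneg fun x => ker_nonneg ha.le _
  have hnn := (hD.P_nn T i).conv (hD.P_nn T i)
  have hlow : (Z.card : ℝ) * (c1 * c2 * (E i) ^ 2) ≤
      ∑ z' ∈ Z, Fm.sm (a i) (Fm.conv (P T i) (P T i)) z' *
        Fm.sm (a i) (Fm.conv (P T i) (P T i)) (z - z') := by
    rw [← nsmul_eq_mul]
    refine Finset.card_nsmul_le_sum _ _ _ fun z' hz' => ?_
    have hz1 := (hZ z').1 hz'
    have h6 := h1 z' fun l => (hz1 l).trans (by linarith)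
    have h7 := h2 (z - z') fun l => by
      rw [rs_sub]
      have e : (rs (A i) z - rs (A i) z') l - y l =
          (rs (A i) z l - (x + y) l) - (rs (A i) z' l - x l) := by
        simp only [Pi.sub_apply, Pi.add_apply]
        ring
      rw [e]
      refine (abs_sub _ _).trans ?_
      linarith [hz l, hz1 l]
    calc c1 * c2 * (E i) ^ 2 = (c1 * E i) * (c2 * E i) := by ring
      _ ≤ _ := mul_le_mul h6 h7 (by positivity) (by
        exact hnn.pr_nonneg fun x => ker_nonneg ha.le _)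
  have h6 := hlow.trans (Fm.four ha ha1 hnn hnn Z z)
  have h7 := h4 z
  have h8 := h5 z
  rw [← hs] at h8
  have hN2 : 0 < (N i : ℝ) ^ 2 := by positivity
  have hpk : 0 < (1 - a i) ^ k := by positivity
  -- lower bound for the number of points
  have h9 : κ * C * (N i : ℝ) ^ 2 * E i ≤ (Z.card : ℝ) * (c1 * c2 * (E i) ^ 2) *
      (C * (1 - a i) ^ k) := by
    have h10 : (η / 2) ^ k ≤ Z.card * (C * ((1 - a i) ^ k * E i / (N i : ℝ) ^ 2)) :=
      hZc.trans (mul_le_mul_of_nonneg_left hdet.1 (Nat.cast_nonneg _))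
    have h11 : (η / 2) ^ k * (N i : ℝ) ^ 2 ≤ Z.card * (C * ((1 - a i) ^ k * E i)) := by
      have h12 := mul_le_mul_of_nonneg_right h10 hN2.le
      refine h12.trans (le_of_eq ?_)
      field_simp
    have e1 : κ * C = (η / 2) ^ k * (c1 * c2) := by
      rw [hκdef]
      field_simp
    calc κ * C * (N i : ℝ) ^ 2 * E i = ((η / 2) ^ k * (N i : ℝ) ^ 2) * (c1 * c2 * E i) := by
          rw [e1]; ring
      _ ≤ (Z.card * (C * ((1 - a i) ^ k * E i))) * (c1 * c2 * E i) :=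
          mul_le_mul_of_nonneg_right h11 (by positivity)
      _ = _ := by ring
  have h10 : (Z.card : ℝ) * (c1 * c2 * (E i) ^ 2) * (C * (1 - a i) ^ k) ≤
      4 ^ k * C * ((T * N i) ^ 2 * (4 ^ k * s + ε2 * E i) + ε1 * (N i : ℝ) ^ 2 * E i) := by
    have h11 : (Z.card : ℝ) * (c1 * c2 * (E i) ^ 2) ≤ (4 / (1 - a i)) ^ k *
        ((T * N i) ^ 2 * (4 ^ k * s + ε2 * E i) + ε1 * (N i : ℝ) ^ 2 * E i) := by
      refine h6.trans (mul_le_mul_of_nonneg_left (h7.trans ?_) (by positivity))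
      exact add_le_add_left (mul_le_mul_of_nonneg_left h8 (by positivity)) _
    have h12 := mul_le_mul_of_nonneg_right h11 (mul_nonneg hC.le hpk.le)
    refine h12.trans (le_of_eq ?_)
    rw [div_pow]
    field_simp
  have h11 : κ * E i ≤ 4 ^ k * ((T : ℝ) ^ 2 * (4 ^ k * s + ε2 * E i) + ε1 * E i) := by
    have h12 := h9.trans h10
    have e1 : κ * C * (N i : ℝ) ^ 2 * E i = (κ * E i) * (C * (N i : ℝ) ^ 2) := by ring
    have e2 : 4 ^ k * C * (((T : ℝ) * N i) ^ 2 * (4 ^ k * s + ε2 * E i) +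
        ε1 * (N i : ℝ) ^ 2 * E i) =
        (4 ^ k * ((T : ℝ) ^ 2 * (4 ^ k * s + ε2 * E i) + ε1 * E i)) *
          (C * (N i : ℝ) ^ 2) := by ring
    rw [e1, e2] at h12
    exact le_of_mul_le_mul_right h12 (by positivity)
  have e1 : (4 : ℝ) ^ k * ε1 = κ / 4 := by
    rw [hε1def]
    field_simp
  have e2 : (4 : ℝ) ^ k * (((T : ℝ) ^ 2 + 1) * ε2) = κ / 4 := by
    rw [hε2def]
    field_simp
  have h12 : κ / 2 * E i ≤ 4 ^ k * (4 ^ k * ((T : ℝ) ^ 2 + 1)) * s := by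
    have h13 : (4 : ℝ) ^ k * ((T : ℝ) ^ 2 * (4 ^ k * s + ε2 * E i) + ε1 * E i) ≤
        4 ^ k * (4 ^ k * ((T : ℝ) ^ 2 + 1)) * s + κ / 4 * E i + κ / 4 * E i := by
      have h14 : (4 : ℝ) ^ k * ((T : ℝ) ^ 2 * (4 ^ k * s + ε2 * E i) + ε1 * E i) =
          4 ^ k * (4 ^ k * (T : ℝ) ^ 2) * s + (4 ^ k * ((T : ℝ) ^ 2 * ε2)) * E i +
            (4 ^ k * ε1) * E i := by ring
      rw [h14, e1, ← e2]
      have h15 : (0 : ℝ) ≤ 4 ^ k * 4 ^ k * s := by positivity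
      have h16 : (0 : ℝ) ≤ 4 ^ k * ε2 * E i := by positivity
      nlinarith
    linarith
  rw [← hs, div_mul_eq_mul_div, div_le_iff₀ (by positivity)]
  linarith

end Pool.Agent.SawM2
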