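import Pool.Agent.SawM2.SvA
import Pool.Agent.SawM2.SumB

/-!
# Displacements stay bounded (module SVE)
-/

set_option autoImplicit false

namespace Pool.Agent.SawM2

open Finset Filter MeasureTheory

variable {I : Type} {k : ℕ} {F : Ultrafilter I} {p : ℕ → Fm k} {a : I → ℝ} {N : I → ℕ}
  {E : I → ℝ} {P : ℕ → I → Fm k} {A : I → Fin k → Rk k} {r t g d : ℝ}

/-- SVE. `near_one` with the coefficient vectors `s e_l`, `Fm.trunc` for `ξ = A_l`, union over
`l`, `r ≤ 1 / (100 k)`. -/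
theorem escape (hD : Dg k F p a N E P A r t g d) {q : ℕ} (hq : 1 ≤ q) :
    ∀ᶠ i in (F : Filter I), ∀ n : ℕ, (n * q : ℝ) ≤ t * N i →
      ((p n).pr fun z => ind (∃ l, 2 ≤ |rs (A i) z l|)) ≤ 6 / (100 * q) := by
  filter_upwards [hD.near_one q hq] with i hi n hn
  have hq0 : (0 : ℝ) < q := by exact_mod_cast hq
  have hk0 : (0 : ℝ) < k := by exact_mod_cast hD.k_pos
  have h1 : ∀ l, ((p n).pr fun z => ind (2 ≤ |dt (A i l) z|)) ≤ 2 * (3 * r / q) := by
    intro l
    refine Fm.trunc (hD.p_nn n) (hD.p_mass n) fun s hs0 hs1 => ?_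
    have h2 := hi (fun m => if m = l then s else 0) (fun m => by
      by_cases hm : m = l
      · simp only [hm, if_true]
        rw [abs_of_nonneg hs0]
        exact hs1
      · simp only [hm, if_false, abs_zero]
        exact zero_le_one) n hn
    have h3 : cmb (A i) (fun m => if m = l then s else 0) = s • A i l := by
      unfold cmb
      simp [ite_smul]
    rwa [h3] at h2
  calc ((p n).pr fun z => ind (∃ l, 2 ≤ |rs (A i) z l|))
      ≤ (p n).pr fun z => ∑ l : Fin k, ind (2 ≤ |dt (A i l) z|) := by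
        refine (hD.p_nn n).pr_mono fun z => ?_
        by_cases h : ∃ l, 2 ≤ |rs (A i) z l|
        · obtain ⟨l, hl⟩ := h
          refine (ind_le_one _).trans ?_
          rw [← ind_of hl]
          exact Finset.single_le_sum (f := fun l => ind (2 ≤ |dt (A i l) z|))
            (fun l _ => ind_nonneg _) (Finset.mem_univ l)
        · rw [ind_not h]
          exact Finset.sum_nonneg fun l _ => ind_nonneg _
    _ = ∑ l : Fin k, (p n).pr fun z => ind (2 ≤ |dt (A i l) z|) := Fm.pr_fsum _ _ _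
    _ ≤ ∑ _l : Fin k, 2 * (3 * r / q) := Finset.sum_le_sum fun l _ => h1 l
    _ = 6 * (k * r) / q := by
        rw [Finset.sum_const, Finset.card_univ, Fintype.card_fin, nsmul_eq_mul]
        ring
    _ ≤ 6 * (1 / 100) / q := by
        have h4 : k * r ≤ 1 / 100 := by
          calc (k : ℝ) * r ≤ k * (1 / (100 * k)) := mul_le_mul_of_nonneg_left hD.r_le hk0.le
            _ = 1 / 100 := by field_simp
        have h5 : 6 * (k * r) ≤ 6 * (1 / 100) := by linarith
        exact div_le_div_of_nonneg_right h5 hq0.le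
    _ = 6 / (100 * q) := by
        field_simp

/-- cut-off function: `1` for `|rs| ≤ R`, `0` for `|rs| ≥ R + 1` -/
noncomputable def cut (T : Fin k → Rk k) (R : ℝ) (z : Zk k) : ℝ :=
  max 0 (min 1 (R + 1 - ‖rs T z‖))

theorem cut_nonneg (T : Fin k → Rk k) (R : ℝ) (z : Zk k) : 0 ≤ cut T R z := by
  exact le_max_left _ _

theorem cut_le_one (T : Fin k → Rk k) (R : ℝ) (z : Zk k) : cut T R z ≤ 1 := by
  exact max_le zero_le_one (min_le_left _ _)

theorem ind_le_cut (T : Fin k → Rk k) {R : ℝ} (hR : 0 ≤ R) (z : Zk k) :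
    ind (∀ l, |rs T z l| ≤ R) ≤ cut T R z := by
  by_cases h : ∀ l, |rs T z l| ≤ R
  · rw [ind_of h]
    have h1 : ‖rs T z‖ ≤ R := (pi_norm_le_iff_of_nonneg hR).mpr fun l => by
      rw [Real.norm_eq_abs]; exact h l
    exact le_max_of_le_right (le_min le_rfl (by linarith))
  · rw [ind_not h]
    exact cut_nonneg _ _ _

theorem cut_le_ind (T : Fin k → Rk k) (R : ℝ) (z : Zk k) :
    cut T R z ≤ ind (∀ l, |rs T z l| ≤ R + 1) := by
  by_cases h : ∀ l, |rs T z l| ≤ R + 1
  · rw [ind_of h]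
    exact cut_le_one _ _ _
  · rw [ind_not h]
    push Not at h
    obtain ⟨l, hl⟩ := h
    have h1 : |rs T z l| ≤ ‖rs T z‖ := by
      have := norm_le_pi_norm (rs T z) l
      rwa [Real.norm_eq_abs] at this
    exact max_le le_rfl ((min_le_right _ _).trans (by linarith))

/-- SVE. `|‖rs z‖ - ‖rs z'‖| ≤ ‖rs (z - z')‖ ≤ δ n1 (z - z')`. -/
theorem lip_cut {T : Fin k → Rk k} {δ : ℝ} (hδ : 0 < δ) (h : ∀ l m, |T l m| ≤ δ) (R : ℝ) :
    Lip (1 / δ) (cut T R) := by
  intro z z'
  have h1 : |cut T R z - cut T R z'| ≤ |‖rs T z‖ - ‖rs T z'‖| := by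
    unfold cut
    have e1 := abs_sup_sub_sup_le_abs (min 1 (R + 1 - ‖rs T z‖)) (min 1 (R + 1 - ‖rs T z'‖)) (0 : ℝ)
    have e2 := abs_inf_sub_inf_le_abs (R + 1 - ‖rs T z‖) (R + 1 - ‖rs T z'‖) (1 : ℝ)
    rw [max_comm 0 _, max_comm 0 _]
    refine e1.trans ?_
    rw [min_comm 1 _, min_comm 1 _]
    refine e2.trans (le_of_eq ?_)
    rw [show R + 1 - ‖rs T z‖ - (R + 1 - ‖rs T z'‖) = -(‖rs T z‖ - ‖rs T z'‖) by ring, abs_neg]
  refine h1.trans ((abs_norm_sub_norm_le _ _).trans ?_)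
  rw [← rs_sub]
  have h2 : ‖rs T (z - z')‖ ≤ δ * n1 (z - z') :=
    (pi_norm_le_iff_of_nonneg (mul_nonneg hδ.le (Nat.cast_nonneg _))).mpr fun l => by
      rw [Real.norm_eq_abs]; exact abs_rs_le h _ l
  refine h2.trans (le_of_eq ?_)
  field_simp

/-- SVE. Let `j ≥ (T + 1) / t` be fixed and `n = j m + s`, `s < j` (`m = n / j`, so `m ≤ t N`). By
`escape` (`q = 1`) `P(|rs X_m| ≤ 2) ≥ 94/100`; `p_ind'` with `h = cut A 2`, `G = ind (|rs| ≤ 3 j)`
(if `|rs x_l| > 3` for one `l` the product is `0`): `P(|rs X_{jm}| ≤ 3 j) ≥ 0.94^j - j ε`. The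
last `s` steps: `p_step` with `cut A (3 j)`, whose Lipschitz constant is at most `1 - a i` → 0
(`A_lim`). `R = 3 j + 1`. (`j ≥ 1`.) -/
theorem stay (hD : Dg k F p a N E P A r t g d) (T : ℕ) :
    ∃ R : ℝ, 0 < R ∧ ∃ c : ℝ, 0 < c ∧ ∀ᶠ i in (F : Filter I), ∀ n : ℕ, n ≤ T * N i →
      c ≤ (p n).pr fun z => ind (∀ l, |rs (A i) z l| ≤ R) := by
  obtain ⟨j, hj⟩ : ∃ j : ℕ, j = ⌈((T : ℝ) + 1) / t⌉₊ + 1 := ⟨_, rfl⟩
  have hj1 : 1 ≤ j := by omega
  have hj0 : (0 : ℝ) < j := by exact_mod_cast hj1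
  have ht := hD.t_pos
  have hjT : (T : ℝ) ≤ t * j := by
    have h1 : ((T : ℝ) + 1) / t ≤ j := by
      rw [hj]
      push_cast
      exact (Nat.le_ceil _).trans (by linarith)
    rw [div_le_iff₀ ht] at h1
    linarith
  obtain ⟨c0, hc0⟩ : ∃ c0 : ℝ, c0 = (94 / 100 : ℝ) ^ j := ⟨_, rfl⟩
  have hc0p : 0 < c0 := by rw [hc0]; positivity
  have hε : 0 < c0 / (4 * j) := by positivity
  have hkj : 0 < c0 / (4 * (k * j + 1)) := by positivity
  have hsmall : ∀ᶠ i in (F : Filter I), 1 - c0 / (4 * (k * j + 1)) < a i :=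
    hD.a_lim.eventually (lt_mem_nhds (by linarith))
  refine ⟨3 * j + 1, by positivity, c0 / 2, by positivity, ?_⟩
  filter_upwards [escape hD (le_refl 1), hD.p_ind' _ hε, hD.A_lim 1 one_pos, hD.a_lt, hsmall]
    with i h1 h2 h3 h4 h5 n hn
  have hδ : 0 < 1 - a i := by linarith
  have hA : ∀ l m, |A i l m| ≤ 1 - a i := fun l m => by simpa using h3 l m
  obtain ⟨m, hm⟩ : ∃ m : ℕ, m = n / j := ⟨_, rfl⟩
  obtain ⟨s, hs⟩ : ∃ s : ℕ, s = n % j := ⟨_, rfl⟩
  have hn1 : n = j * m + s := by rw [hm, hs]; exact (Nat.div_add_mod n j).symm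
  have hsj : s ≤ j := by rw [hs]; exact (Nat.mod_lt _ hj1).le
  have hmN : (m : ℝ) * (1 : ℕ) ≤ t * N i := by
    have e1 : (j * m : ℝ) ≤ T * N i := by
      have : ((j * m : ℕ) : ℝ) ≤ ((T * N i : ℕ) : ℝ) := by
        exact_mod_cast (by omega : j * m ≤ T * N i)
      push_cast at this
      exact this
    have e2 : (T : ℝ) * N i ≤ (t * j) * N i := mul_le_mul_of_nonneg_right hjT (Nat.cast_nonneg _)
    have e3 : (j : ℝ) * m ≤ j * (t * N i) := by
      calc (j : ℝ) * m ≤ T * N i := e1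
        _ ≤ (t * j) * N i := e2
        _ = j * (t * N i) := by ring
    have e4 := le_of_mul_le_mul_left e3 hj0
    simpa using e4
  have h94 : 94 / 100 ≤ (p m).pr (cut (A i) 2) := by
    have e1 := h1 m hmN
    have e2 : (p m).pr (fun _ => (1 : ℝ)) ≤
        (p m).pr fun z => cut (A i) 2 z + ind (∃ l, 2 ≤ |rs (A i) z l|) := by
      refine (hD.p_nn m).pr_mono fun z => ?_
      by_cases h : ∃ l, 2 ≤ |rs (A i) z l|
      · rw [ind_of h]
        have := cut_nonneg (A i) 2 z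
        linarith
      · have h' : ∀ l, |rs (A i) z l| ≤ 2 := fun l => by
          by_contra hl
          exact h ⟨l, by push Not at hl; exact hl.le⟩
        have := ind_le_cut (A i) (R := 2) (by norm_num) z
        rw [ind_of h'] at this
        have := ind_nonneg (∃ l, 2 ≤ |rs (A i) z l|)
        linarith
    rw [← Fm.mass_eq, hD.p_mass, Fm.pr_fadd] at e2
    have e3 : (6 : ℝ) / (100 * (1 : ℕ)) = 6 / 100 := by norm_num
    rw [e3] at e1
    linarith
  have hG : c0 ≤ (p (j * m)).pr (fun z => ind (∀ l, |rs (A i) z l| ≤ 3 * j)) +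
      j * (c0 / (4 * j)) := by
    have e1 := h2 m j (cut (A i) 2) (fun z => ind (∀ l, |rs (A i) z l| ≤ 3 * j))
      (fun x => cut_nonneg _ _ _) (fun x => cut_le_one _ _ _) (lip_cut hδ hA 2) (fun x => by
        by_cases h : ∀ q : Fin j, ∀ l, |rs (A i) (x q) l| ≤ 2 + 1
        · have h6 : ∀ l, |rs (A i) (∑ q, x q) l| ≤ 3 * j := by
            intro l
            rw [rs_sum, Finset.sum_apply]
            refine (Finset.abs_sum_le_sum_abs _ _).trans ?_
            calc ∑ q, |rs (A i) (x q) l| ≤ ∑ _q : Fin j, (3 : ℝ) :=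
                  Finset.sum_le_sum fun q _ => (h q l).trans (by norm_num)
              _ = 3 * j := by
                  rw [Finset.sum_const, Finset.card_univ, Fintype.card_fin, nsmul_eq_mul]
                  ring
          rw [ind_of h6]
          exact Finset.prod_le_one (fun q _ => cut_nonneg _ _ _) (fun q _ => cut_le_one _ _ _)
        · push Not at h
          obtain ⟨q, l, hl⟩ := h
          have h7 : cut (A i) 2 (x q) = 0 := by
            refine le_antisymm ((cut_le_ind (A i) 2 (x q)).trans (le_of_eq (ind_not ?_)))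
              (cut_nonneg _ _ _)
            intro h8
            exact absurd (h8 l) (not_le.mpr hl)
          rw [Finset.prod_eq_zero (Finset.mem_univ q) h7]
          exact ind_nonneg _)
    have e2 : c0 ≤ ((p m).pr (cut (A i) 2)) ^ j := by
      rw [hc0]
      exact pow_le_pow_left₀ (by norm_num) h94 j
    exact e2.trans e1
  have hje : (j : ℝ) * (c0 / (4 * j)) = c0 / 4 := by field_simp
  rw [hje] at hG
  have hstep := hD.p_step (j * m) s (1 / (1 - a i)) (cut (A i) (3 * j)) (by positivity)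
    (lip_cut hδ hA _)
  rw [← hn1] at hstep
  have h8 : (k : ℝ) * s / (1 / (1 - a i)) ≤ c0 / 4 := by
    have e0 : (k : ℝ) * s / (1 / (1 - a i)) = (k * s) * (1 - a i) := by
      rw [div_div_eq_mul_div, div_one]
    rw [e0]
    have e1 : (k : ℝ) * s ≤ k * j + 1 := by
      have : (k : ℝ) * s ≤ k * j :=
        mul_le_mul_of_nonneg_left (by exact_mod_cast hsj) (Nat.cast_nonneg _)
      linarith
    have e2 : 1 - a i ≤ c0 / (4 * (k * j + 1)) := by linarith
    calc ((k : ℝ) * s) * (1 - a i) ≤ (k * j + 1) * (c0 / (4 * (k * j + 1))) :=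
          mul_le_mul e1 e2 hδ.le (by positivity)
      _ = c0 / 4 := by field_simp
  have h9 : (p (j * m)).pr (fun z => ind (∀ l, |rs (A i) z l| ≤ 3 * j)) ≤
      (p (j * m)).pr (cut (A i) (3 * j)) :=
    (hD.p_nn _).pr_mono fun z => ind_le_cut (A i) (by positivity) z
  have h10 : (p n).pr (cut (A i) (3 * j)) ≤
      (p n).pr fun z => ind (∀ l, |rs (A i) z l| ≤ 3 * j + 1) :=
    (hD.p_nn _).pr_mono fun z => cut_le_ind (A i) _ z
  have h11 := (abs_le.mp hstep).1
  linarith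

end Pool.Agent.SawM2
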