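import Pool.Agent.SawM2.SvD
import Pool.Agent.SawM2.SvE

/-!
# The semigroup is not empty (module SVF)
-/

set_option autoImplicit false

namespace Pool.Agent.SawM2

open Finset Filter MeasureTheory

variable {I : Type} {k : ℕ} {F : Ultrafilter I} {p : ℕ → Fm k} {a : I → ℝ} {N : I → ℕ}
  {E : I → ℝ} {P : ℕ → I → Fm k} {A : I → Fin k → Rk k} {r t g d : ℝ}

/-- SVF. `stay` (`T = 1`) and `P_ge` with `f = cut A R`, whose sum over `n ∈ [N/2, N)` is at least
`c N / 2`: `(P 1).pr (ind (|rs| ≤ R + 1)) ≥ c N / 8` for most `i`. Hence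
`(conv P P).pr (ind (|rs| ≤ 2 R + 2)) ≥ (c N / 8)²`. Let `Z` be the set of the lattice points with
`|rs z| ≤ 2 R + 3` (finite and of cardinality `≤ (2 (2 R + 4))^k / |det|`: `latt_ge` gives finiteness
(with `x = 0`, `η = 2 R + 3`), `latt_le` the cardinality). `Fm.sum_sm_ge` with
`m = ⌈1/(1-a)⌉` (`Fm.ker_const`; all points at distance `≤ m` of a point with `|rs| ≤ 2 R + 2` are in
`Z`, since `|rs (z - x)| ≤ max|A| k m ≤ 1` by `A_lim`): `Σ_{z ∈ Z} sm z ≥ c₂ (1 - a)^{-k} N²`, so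
some `z ∈ Z` has `sm z ≥ c₃ (1-a)^{-k} N² |det| ≥ c₄ E` (`det_cmp`). -/
theorem exists_dense (hD : Dg k F p a N E P A r t g d) :
    ∃ c : ℝ, 0 < c ∧ ∃ R : ℝ, 0 < R ∧ ∀ᶠ i in (F : Filter I), ∃ z : Zk k,
      (∀ l, |rs (A i) z l| ≤ R) ∧ c * E i ≤ Fm.sm (a i) (Fm.conv (P 1 i) (P 1 i)) z := by
  obtain ⟨R0, hR0, c0, hc0, hstay⟩ := stay hD 1
  obtain ⟨C, hC, hdet⟩ := hD.det_cmp
  have hk0 : (0 : ℝ) < k := by exact_mod_cast hD.k_pos
  obtain ⟨V, hV⟩ : ∃ V : ℝ, V = (2 * (2 * R0 + 3 + 1)) ^ k := ⟨_, rfl⟩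
  have hVp : 0 < V := by rw [hV]; positivity
  obtain ⟨w, hw⟩ : ∃ w : ℝ, w = (1 / 8 : ℝ) ^ k * (c0 / 8) ^ 2 / C := ⟨_, rfl⟩
  have hwp : 0 < w := by rw [hw]; positivity
  refine ⟨w / (2 * V), by positivity, 2 * R0 + 3, by positivity, ?_⟩
  have hε1 : (0 : ℝ) < 1 / (2 * (k + 1)) := by positivity
  filter_upwards [hstay, hdet, hD.det_ne, hD.A_lim _ hε1, hD.P_ge (c0 / 8) (by positivity),
    hD.E_pos, hD.N_lim.eventually (eventually_ge_atTop 1), hD.a_pos, hD.a_lt]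
    with i h1 h2 h3 h4 h5 hE hN ha0 ha1
  have ha0' : 0 < a i := by linarith
  have hN0 : (0 : ℝ) < N i := by exact_mod_cast hN
  obtain ⟨u, hu⟩ : ∃ u : ℝ, u = 1 - a i := ⟨_, rfl⟩
  have hu0 : 0 < u := by rw [hu]; linarith
  have hu1 : u ≤ 1 := by rw [hu]; linarith
  rw [← hu] at h2 h4 h5
  have hAu : ∀ l m, |A i l m| ≤ u := fun l m => by
    refine (h4 l m).trans ?_
    have e1 : 1 / (2 * ((k : ℝ) + 1)) ≤ 1 := by
      rw [div_le_one (by positivity)]
      linarith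
    calc 1 / (2 * ((k : ℝ) + 1)) * u ≤ 1 * u := mul_le_mul_of_nonneg_right e1 hu0.le
      _ = u := one_mul u
  have hAk : ∀ l m, |A i l m| ≤ 1 / ((k : ℝ) + 1) := fun l m => by
    refine (h4 l m).trans ?_
    have e1 : 1 / (2 * ((k : ℝ) + 1)) ≤ 1 / ((k : ℝ) + 1) :=
      one_div_le_one_div_of_le (by positivity) (by linarith)
    calc 1 / (2 * ((k : ℝ) + 1)) * u ≤ 1 / ((k : ℝ) + 1) * 1 :=
          mul_le_mul e1 hu1 hu0.le (by positivity)
      _ = _ := mul_one _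
  -- mass of `P 1` near the origin
  have hP : c0 * N i / 8 ≤ (P 1 i).pr fun z => ind (∀ l, |rs (A i) z l| ≤ R0 + 1) := by
    have e1 := h5 (cut (A i) R0) (fun x => cut_nonneg _ _ _) (fun x => cut_le_one _ _ _)
      (lip_cut hu0 hAu R0)
    have e2 : ((N i : ℝ) / 2) * c0 ≤ ∑ n ∈ Ico (N i / 2) (N i), (p n).pr (cut (A i) R0) := by
      calc ((N i : ℝ) / 2) * c0 ≤ ((Ico (N i / 2) (N i)).card : ℝ) * c0 := by
            refine mul_le_mul_of_nonneg_right ?_ hc0.le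
            rw [Nat.card_Ico]
            have e3 : N i ≤ 2 * (N i - N i / 2) := by omega
            have e4 : (N i : ℝ) ≤ 2 * ((N i - N i / 2 : ℕ) : ℝ) := by exact_mod_cast e3
            linarith
        _ = ∑ _n ∈ Ico (N i / 2) (N i), c0 := by rw [Finset.sum_const, nsmul_eq_mul]
        _ ≤ _ := by
            refine Finset.sum_le_sum fun n hn => ?_
            rw [Finset.mem_Ico] at hn
            exact (h1 n (by omega)).trans
              ((hD.p_nn n).pr_mono fun z => ind_le_cut (A i) hR0.le z)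
    have e3 : (P 1 i).pr (cut (A i) R0) ≤
        (P 1 i).pr fun z => ind (∀ l, |rs (A i) z l| ≤ R0 + 1) :=
      (hD.P_nn 1 i).pr_mono fun z => cut_le_ind (A i) R0 z
    linarith
  obtain ⟨μ, hμ⟩ : ∃ μ : Fm k, μ = Fm.conv (P 1 i) (P 1 i) := ⟨_, rfl⟩
  have hμn : μ.Nn := by rw [hμ]; exact (hD.P_nn 1 i).conv (hD.P_nn 1 i)
  have hμ2 : (c0 * N i / 8) ^ 2 ≤ μ.pr fun z => ind (∀ l, |rs (A i) z l| ≤ 2 * R0 + 2) := by
    rw [hμ, Fm.pr_conv]
    calc (c0 * N i / 8) ^ 2 ≤ ((P 1 i).pr fun z => ind (∀ l, |rs (A i) z l| ≤ R0 + 1)) ^ 2 :=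
          pow_le_pow_left₀ (by positivity) hP 2
      _ = (P 1 i).pr fun x => (P 1 i).pr fun y => ind (∀ l, |rs (A i) x l| ≤ R0 + 1) *
            ind (∀ l, |rs (A i) y l| ≤ R0 + 1) := by
          rw [sq, ← Fm.pr_mul_right]
          refine Fm.pr_congr _ fun x => ?_
          rw [Fm.pr_mul_left]
      _ ≤ _ := by
          refine (hD.P_nn 1 i).pr_mono fun x => (hD.P_nn 1 i).pr_mono fun y => ?_
          rw [← ind_and]
          refine ind_mono fun h l => ?_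
          rw [rs_add, Pi.add_apply]
          refine (abs_add_le _ _).trans ?_
          linarith [h.1 l, h.2 l]
  obtain ⟨Z, hZm, -⟩ := latt_ge h3 (η := 2 * R0 + 3) (by positivity) (fun l m => by
    refine (hAk l m).trans ?_
    exact div_le_div_of_nonneg_right (by linarith) (by positivity)) 0
  have hZm' : ∀ z, z ∈ Z ↔ ∀ l, |rs (A i) z l| ≤ 2 * R0 + 3 := fun z => by
    rw [hZm]
    simp only [Pi.zero_apply, sub_zero]
  have hZc := latt_le h3 (R := 2 * R0 + 3) (by positivity) hAk Z (fun z hz => (hZm' z).mp hz)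
  rw [← hV] at hZc
  have hm : ∀ x : Zk k, (∀ l, |rs (A i) x l| ≤ 2 * R0 + 2) → ∀ z : Zk k,
      (∀ j, |z j - x j| ≤ (⌈1 / u⌉₊ : ℕ)) → z ∈ Z := by
    intro x hx z hz
    rw [hZm']
    intro l
    have e1 : rs (A i) z l = rs (A i) x l + rs (A i) (z - x) l := by
      rw [rs_sub, Pi.sub_apply]
      ring
    have e2 := abs_rs_le h4 (z - x) l
    have e3 : n1 (z - x) ≤ k * ⌈1 / u⌉₊ := n1_le_mul _ fun j => by
      have h := hz j
      rw [← Int.natCast_natAbs] at h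
      rw [Pi.sub_apply]
      exact_mod_cast h
    have e4 : ((⌈1 / u⌉₊ : ℕ) : ℝ) ≤ 1 / u + 1 := (Nat.ceil_lt_add_one (by positivity)).le
    have e5 : 1 / (2 * ((k : ℝ) + 1)) * u * n1 (z - x) ≤ 1 := by
      have e6 : (n1 (z - x) : ℝ) ≤ k * (1 / u + 1) := by
        calc (n1 (z - x) : ℝ) ≤ ((k * ⌈1 / u⌉₊ : ℕ) : ℝ) := by exact_mod_cast e3
          _ = k * ((⌈1 / u⌉₊ : ℕ) : ℝ) := by push_cast; ring
          _ ≤ _ := mul_le_mul_of_nonneg_left e4 hk0.le
      calc 1 / (2 * ((k : ℝ) + 1)) * u * n1 (z - x)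
          ≤ 1 / (2 * ((k : ℝ) + 1)) * u * (k * (1 / u + 1)) :=
            mul_le_mul_of_nonneg_left e6 (by positivity)
        _ = k * (1 + u) / (2 * (k + 1)) := by field_simp
        _ ≤ 1 := by
            rw [div_le_one (by positivity)]
            nlinarith
    rw [e1]
    refine (abs_add_le _ _).trans ?_
    linarith [hx l]
  have hsum := Fm.sum_sm_ge ha0' ha1 hμn Z ⌈1 / u⌉₊ (fun x => ∀ l, |rs (A i) x l| ≤ 2 * R0 + 2) hm
  have hkc := Fm.ker_const (k := k) ha0 ha1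
  rw [← hu] at hkc
  have hlow : (1 / (8 * u)) ^ k * (c0 * N i / 8) ^ 2 ≤ ∑ z ∈ Z, Fm.sm (a i) μ z :=
    le_trans (mul_le_mul hkc hμ2 (by positivity) (by positivity)) hsum
  by_contra hcon
  push Not at hcon
  have hup : ∑ z ∈ Z, Fm.sm (a i) μ z ≤ Z.card * (w / (2 * V) * E i) := by
    calc ∑ z ∈ Z, Fm.sm (a i) μ z ≤ ∑ _z ∈ Z, w / (2 * V) * E i := by
          refine Finset.sum_le_sum fun z hz => ?_
          have := hcon z ((hZm' z).mp hz)
          rw [← hμ] at this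
          exact this.le
      _ = _ := by rw [Finset.sum_const, nsmul_eq_mul]
  obtain ⟨D, hDd⟩ : ∃ D : ℝ, D = |(Matrix.of (A i)).det| := ⟨_, rfl⟩
  rw [← hDd] at h2 hZc
  have hDp : 0 < D := by rw [hDd]; exact abs_pos.mpr h3
  have h6 : (1 / (8 * u)) ^ k * (c0 * N i / 8) ^ 2 * D ≤ w / 2 * E i := by
    calc (1 / (8 * u)) ^ k * (c0 * N i / 8) ^ 2 * D
        ≤ (Z.card * (w / (2 * V) * E i)) * D := mul_le_mul_of_nonneg_right (hlow.trans hup) hDp.le
      _ = (Z.card * D) * (w / (2 * V) * E i) := by ring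
      _ ≤ V * (w / (2 * V) * E i) := mul_le_mul_of_nonneg_right hZc (by positivity)
      _ = w / 2 * E i := by field_simp
  have h7 : w * E i ≤ (1 / (8 * u)) ^ k * (c0 * N i / 8) ^ 2 * D := by
    have e1 : u ^ k * E i / (N i : ℝ) ^ 2 / C ≤ D := by
      rw [div_le_iff₀ hC]
      linarith [h2.2]
    calc w * E i = (1 / (8 * u)) ^ k * (c0 * N i / 8) ^ 2 * (u ^ k * E i / (N i : ℝ) ^ 2 / C) := by
          have e2 : (1 / (8 * u)) ^ k = (1 / 8 : ℝ) ^ k / u ^ k := by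
            rw [← div_pow]
            congr 1
            field_simp
          rw [hw, e2]
          field_simp
      _ ≤ _ := mul_le_mul_of_nonneg_left e1 (by positivity)
  have h8 : 0 < w * E i := by positivity
  linarith

/-- SVF. Choose `z i` by `exists_dense`; `rs (A i) (z i)` lies in a compact box for most `i`, so it
converges along the ultrafilter to a point `x` (`IsCompact.ultrafilter_le_nhds`,
`Ultrafilter.map`), and `mem_Wt`. -/
theorem nonempty_Wt (hD : Dg k F p a N E P A r t g d) : (Wt F a E P A 1).Nonempty := by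
  classical
  obtain ⟨c, hc, R, hR, h⟩ := exists_dense hD
  obtain ⟨z, hz⟩ : ∃ z : I → Zk k, ∀ᶠ i in (F : Filter I),
      (∀ l, |rs (A i) (z i) l| ≤ R) ∧
        c * E i ≤ Fm.sm (a i) (Fm.conv (P 1 i) (P 1 i)) (z i) := by
    refine ⟨fun i => if hi : ∃ z : Zk k, (∀ l, |rs (A i) z l| ≤ R) ∧
      c * E i ≤ Fm.sm (a i) (Fm.conv (P 1 i) (P 1 i)) z then hi.choose else 0, ?_⟩
    filter_upwards [h] with i hi
    rw [dif_pos hi]
    exact hi.choose_spec
  have hcomp : IsCompact (Metric.closedBall (0 : Rk k) R) := isCompact_closedBall _ _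
  have hle : ((F.map fun i => rs (A i) (z i) : Ultrafilter (Rk k)) : Filter (Rk k)) ≤
      Filter.principal (Metric.closedBall (0 : Rk k) R) := by
    rw [Ultrafilter.coe_map, Filter.le_principal_iff, Filter.mem_map]
    filter_upwards [hz] with i hi
    rw [Set.mem_preimage, mem_closedBall_zero_iff, pi_norm_le_iff_of_nonneg hR.le]
    intro l
    rw [Real.norm_eq_abs]
    exact hi.1 l
  obtain ⟨x, -, hx⟩ := hcomp.ultrafilter_le_nhds _ hle
  refine ⟨x, mem_Wt hD 1 x hc fun η hη => ?_⟩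
  have hball : Metric.closedBall x η ∈ nhds x := Metric.closedBall_mem_nhds x hη
  have h2 := hx hball
  rw [Ultrafilter.coe_map, Filter.mem_map] at h2
  filter_upwards [hz, h2] with i hi hi2
  refine ⟨z i, fun l => ?_, hi.2⟩
  rw [Set.mem_preimage, Metric.mem_closedBall, dist_eq_norm, pi_norm_le_iff_of_nonneg hη.le] at hi2
  have := hi2 l
  rwa [Real.norm_eq_abs, Pi.sub_apply] at this

end Pool.Agent.SawM2
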