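import Pool.Agent.SawM2.SvD

/-!
# Adding charged points (module SVG)
-/

set_option autoImplicit false

namespace Pool.Agent.SawM2

open Finset Filter MeasureTheory

variable {I : Type} {k : ℕ} {F : Ultrafilter I} {p : ℕ → Fm k} {a : I → ℝ} {N : I → ℕ}
  {E : I → ℝ} {P : ℕ → I → Fm k} {A : I → Fin k → Rk k} {r t g d : ℝ}

/-- SVG. Let `c`, `η` belong to `x`, and `c'` to `y` and `η / 2`. For `|rs z - (x + y)| ≤ η / 2`:
`sm (conv P2 P2) z ≥ sm (conv P1 P2) z` (`P1 = P T i`, `P2 = P (2 T) i`, `P_mono`)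
`= P2.pr h`, `h u = sm a P1 (z - u)`, `0 ≤ h ≤ B = C E / N` (`P_sup`, `ker a ≤ ker √a`), Lipschitz
with constant `B (1 - a)` (`Slo.lip`). `P_shift` with `f = h / B`: `P2.pr h ≥
(conv P1 (p n)).pr h - ε N B = (p n).pr (fun v => sm a (conv P1 P1) (z - v)) - ε C E ≥
c' (c E) - ε C E` because `|rs (z - v) - x| ≤ η` if `|rs v - y| ≤ η / 2`. -/
theorem add_chg (hD : Dg k F p a N E P A r t g d) (T : ℕ) {n : I → ℕ}
    (hn : ∀ᶠ i in (F : Filter I), n i ≤ T * N i) {x y : Rk k}
    (hx : x ∈ Wt F a E P A T) (hy : Chg F p A n y) : x + y ∈ Wt F a E P A (2 * T) := by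
  obtain ⟨c, hc, η, hη, hW⟩ := hx
  obtain ⟨c', hc', hCh⟩ := hy (η / 2) (by positivity)
  obtain ⟨C, hC0, hsup⟩ := hD.P_sup T
  have hε : 0 < c * c' / (2 * C) := by positivity
  refine ⟨c * c' / 2, by positivity, η / 2, by positivity, ?_⟩
  filter_upwards [hW, hCh, hsup, hD.P_shift T _ hε, hD.E_pos,
    hD.N_lim.eventually (eventually_ge_atTop 1), hD.a_pos, hD.a_lt, hn]
    with i h1 h2 h3 h4 hE hN ha0 ha1 hni z hz
  have ha0' : 0 < a i := by linarith
  have hN0 : (0 : ℝ) < N i := by exact_mod_cast hN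
  have hB : 0 < C * E i / N i := by positivity
  have hNB : (N i : ℝ) * (C * E i / N i) = C * E i := by field_simp
  obtain ⟨B, hBd⟩ : ∃ B : ℝ, B = C * E i / N i := ⟨_, rfl⟩
  rw [← hBd] at hB hNB
  obtain ⟨h, hh⟩ : ∃ h : Zk k → ℝ, h = fun u => (P T i).pr fun w => ker (a i) (z - u - w) := ⟨_, rfl⟩
  have hh0 : ∀ u, 0 ≤ h u := fun u => by
    rw [hh]
    exact (hD.P_nn T i).pr_nonneg fun w => ker_nonneg ha0'.le _
  have hhB : ∀ u, h u ≤ B := fun u => by
    rw [hh, hBd]
    refine le_trans ((hD.P_nn T i).pr_mono fun w => ?_) (h3 (z - u))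
    unfold ker
    refine pow_le_pow_left₀ ha0'.le ?_ _
    exact Real.le_sqrt_of_sq_le (by nlinarith)
  have hslo : Slo (a i) h := by
    rw [hh]
    refine (hD.P_nn T i).slo_pr (F := fun u w => ker (a i) (z - u - w)) fun w => ?_
    have e := ker_slo ha0'.le ha1.le (z - w)
    intro u u'
    have e2 := e u u'
    simp only at e2 ⊢
    rw [show z - u - w = z - w - u by abel, show z - u' - w = z - w - u' by abel]
    exact e2
  have hlip := hslo.lip ha0'.le ha1.le hh0 hhB
  have hf : Lip (1 / (1 - a i)) fun u => h u / B := by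
    intro u u'
    have e := hlip u u'
    have e2 : |h u / B - h u' / B| = |h u - h u'| / B := by
      rw [← sub_div, abs_div, abs_of_pos hB]
    rw [e2, div_div_eq_mul_div, div_one, div_le_iff₀ hB]
    linarith
  have h5 := h4 (n i) hni (fun u => h u / B) (fun u => div_nonneg (hh0 u) hB.le)
    (fun u => (div_le_one hB).mpr (hhB u)) hf
  have h6 : (Fm.conv (P T i) (p (n i))).pr h - c * c' / (2 * C) * N i * B ≤ (P (2 * T) i).pr h := by
    have e1 : ∀ μ : Fm k, (μ.pr fun u => h u / B) = μ.pr h / B := by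
      intro μ
      have := μ.pr_mul_right (1 / B) h
      simp only [mul_one_div] at this
      exact this
    rw [e1, e1] at h5
    have e2 := mul_le_mul_of_nonneg_right h5 hB.le
    rw [add_mul, div_mul_cancel₀ _ hB.ne', div_mul_cancel₀ _ hB.ne'] at e2
    linarith
  have h7 : (P (2 * T) i).pr h ≤ Fm.sm (a i) (Fm.conv (P (2 * T) i) (P (2 * T) i)) z := by
    unfold Fm.sm
    rw [Fm.pr_conv]
    refine (hD.P_nn _ i).pr_mono fun u => ?_
    rw [hh]
    refine le_trans (hD.P_mono T (2 * T) i (by omega) _ fun w => ker_nonneg ha0'.le _) (le_of_eq ?_)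
    refine Fm.pr_congr _ fun w => ?_
    rw [show z - u - w = z - (u + w) by abel]
  have h8 : (Fm.conv (P T i) (p (n i))).pr h =
      (p (n i)).pr fun v => Fm.sm (a i) (Fm.conv (P T i) (P T i)) (z - v) := by
    rw [Fm.pr_conv, Fm.pr_comm]
    refine Fm.pr_congr _ fun v => ?_
    unfold Fm.sm
    rw [Fm.pr_conv]
    refine Fm.pr_congr _ fun u => ?_
    rw [hh]
    refine Fm.pr_congr _ fun w => ?_
    rw [show z - (u + v) - w = z - v - (u + w) by abel]
  have h9 : c * E i * c' ≤ (p (n i)).pr fun v => Fm.sm (a i) (Fm.conv (P T i) (P T i)) (z - v) := by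
    calc c * E i * c' ≤ c * E i * (p (n i)).pr fun v => ind (∀ l, |rs (A i) v l - y l| ≤ η / 2) :=
          mul_le_mul_of_nonneg_left h2 (by positivity)
      _ = (p (n i)).pr fun v => c * E i * ind (∀ l, |rs (A i) v l - y l| ≤ η / 2) :=
          (Fm.pr_mul_left _ _ _).symm
      _ ≤ _ := by
          refine (hD.p_nn _).pr_mono fun v => ?_
          by_cases hv : ∀ l, |rs (A i) v l - y l| ≤ η / 2
          · rw [ind_of hv, mul_one]
            refine h1 (z - v) fun l => ?_
            have e1 := hz l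
            have e2 := hv l
            rw [rs_sub, Pi.sub_apply]
            rw [Pi.add_apply] at e1
            have e3 : rs (A i) z l - rs (A i) v l - x l =
                (rs (A i) z l - (x l + y l)) - (rs (A i) v l - y l) := by ring
            rw [e3]
            refine (abs_sub _ _).trans ?_
            linarith
          · rw [ind_not hv, mul_zero]
            exact ((hD.P_nn T i).conv (hD.P_nn T i)).pr_nonneg fun w => ker_nonneg ha0'.le _
  have h10 : c * c' / (2 * C) * N i * B = c * c' / 2 * E i := by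
    rw [mul_assoc, hNB]
    field_simp
  rw [h10, h8] at h6
  have h11 : c * c' / 2 * E i = c * E i * c' - c * c' / 2 * E i := by ring
  rw [h11]
  linarith

end Pool.Agent.SawM2
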