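import Pool.Agent.SawM2.SvF
import Pool.Agent.SawM2.SvG
import Pool.Agent.SawM2.Geo

/-!
# The half-space (module SVH)
-/

set_option autoImplicit false

namespace Pool.Agent.SawM2

open Finset Filter MeasureTheory

variable {I : Type} {k : ℕ} {F : Ultrafilter I} {p : ℕ → Fm k} {a : I → ℝ} {N : I → ℕ}
  {E : I → ℝ} {P : ℕ → I → Fm k} {A : I → Fin k → Rk k} {r t g d : ℝ}

private theorem SVH_ip_add (u x y : Rk k) : ip u (x + y) = ip u x + ip u y := by
  unfold ip
  rw [← Finset.sum_add_distrib]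
  refine Finset.sum_congr rfl fun i _ => ?_
  rw [Pi.add_apply]
  ring

private theorem SVH_ip_nsmul (u x : Rk k) (j : ℕ) : ip u (j • x) = j * ip u x := by
  unfold ip
  rw [Finset.mul_sum]
  refine Finset.sum_congr rfl fun i _ => ?_
  rw [Pi.smul_apply, nsmul_eq_mul]
  ring

private theorem SVH_continuous_ip (u : Rk k) : Continuous fun x : Rk k => ip u x := by
  unfold ip
  exact continuous_finsetSum _ fun i _ => continuous_const.mul (continuous_apply i)

/-- SVH. `W = ⋃ T, Wt T` is an open additive semigroup (`isOpen_Wt`, `Wt_mono`, `add_mem`), not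
empty, without `0`; `semigroup_halfspace` gives `u ≠ 0` with `ip u w > 0` on `W`. If `y` is charged
along `n ≤ T N`, then `w + j y ∈ W` for all `j` (`add_chg`, `Wt_mono`), so `ip u y ≥ 0`. -/
theorem exists_normal (hD : Dg k F p a N E P A r t g d) (h0 : ∀ T, (0 : Rk k) ∉ Wt F a E P A T) :
    ∃ u : Rk k, u ≠ 0 ∧ ∀ (T : ℕ) (n : I → ℕ), (∀ᶠ i in (F : Filter I), n i ≤ T * N i) →
      ∀ y, Chg F p A n y → 0 ≤ ip u y := by
  obtain ⟨u, hu0, hu⟩ := semigroup_halfspace (W := ⋃ T, Wt F a E P A T)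
    (isOpen_iUnion fun T => isOpen_Wt T)
    (by
      obtain ⟨x, hx⟩ := nonempty_Wt hD
      exact ⟨x, Set.mem_iUnion.2 ⟨1, hx⟩⟩)
    (by
      intro x hx y hy
      obtain ⟨T, hT⟩ := Set.mem_iUnion.1 hx
      obtain ⟨T', hT'⟩ := Set.mem_iUnion.1 hy
      exact Set.mem_iUnion.2 ⟨2 * max T T', add_mem hD _ (Wt_mono hD (le_max_left T T') hT)
        (Wt_mono hD (le_max_right T T') hT')⟩)
    (by
      intro h
      obtain ⟨T, hT⟩ := Set.mem_iUnion.1 h
      exact h0 T hT)
  refine ⟨u, hu0, fun T n hn y hy => ?_⟩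
  by_contra hc
  push Not at hc
  obtain ⟨w, hw⟩ := nonempty_Wt hD
  have hj : ∀ j : ℕ, ∃ T', w + j • y ∈ Wt F a E P A T' := by
    intro j
    induction j with
    | zero => exact ⟨1, by simpa using hw⟩
    | succ j ih =>
      obtain ⟨T', hT'⟩ := ih
      have h1 : w + j • y ∈ Wt F a E P A (max T' T) := Wt_mono hD (le_max_left _ _) hT'
      have h2 : ∀ᶠ i in (F : Filter I), n i ≤ max T' T * N i := by
        filter_upwards [hn] with i hi
        exact hi.trans (Nat.mul_le_mul_right _ (le_max_right _ _))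
      have h3 := add_chg hD (max T' T) h2 h1 hy
      refine ⟨2 * max T' T, ?_⟩
      rw [succ_nsmul, ← add_assoc]
      exact h3
  obtain ⟨j, hj'⟩ := exists_nat_gt (ip u w / -(ip u y))
  rw [div_lt_iff₀ (by linarith)] at hj'
  obtain ⟨T', hT'⟩ := hj j
  have h4 := hu _ (Set.mem_iUnion.2 ⟨T', hT'⟩)
  have h5 : ip u (w + j • y) = ip u w + j * ip u y := by
    rw [SVH_ip_add, SVH_ip_nsmul]
  change 0 < ip u (w + j • y) at h4
  rw [h5] at h4
  nlinarith

/-- SVH. If not: for some `T R η ε` and most `i` there is `n i ≤ T N i` with probability `> ε`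
(ultrafilter: `Ultrafilter.frequently_iff_eventually`, choice). The points `x` of the compact set
`{|x_l| ≤ R, ip u x ≤ - η}` are not charged along `n`: there is `η_x > 0` such that for every
`c > 0`, for most `i`, the probability of `|rs - x| ≤ η_x` is less than `c`. Finitely many of the
open boxes `|y_l - x_l| < η_x` cover the compact set, `c = ε / (number + 1)`: contradiction. -/
theorem hlf (hD : Dg k F p a N E P A r t g d) {u : Rk k}
    (hu : ∀ (T : ℕ) (n : I → ℕ), (∀ᶠ i in (F : Filter I), n i ≤ T * N i) →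
      ∀ y, Chg F p A n y → 0 ≤ ip u y) : Hlf F p N A u := by
  classical
  intro T R η ε hη hε
  by_contra hc
  have hc1 : ∀ᶠ i in (F : Filter I), ¬ ∀ n : ℕ, n ≤ T * N i →
      ((p n).pr fun z => ind ((∀ l, |rs (A i) z l| ≤ R) ∧ ip u (rs (A i) z) ≤ -η)) ≤ ε :=
    Ultrafilter.eventually_not.2 hc
  have hc2 : ∀ i, ∃ n : ℕ, (¬ ∀ n : ℕ, n ≤ T * N i →
      ((p n).pr fun z => ind ((∀ l, |rs (A i) z l| ≤ R) ∧ ip u (rs (A i) z) ≤ -η)) ≤ ε) →
      n ≤ T * N i ∧
        ε < (p n).pr fun z => ind ((∀ l, |rs (A i) z l| ≤ R) ∧ ip u (rs (A i) z) ≤ -η) := by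
    intro i
    by_cases h : ∀ n : ℕ, n ≤ T * N i →
      ((p n).pr fun z => ind ((∀ l, |rs (A i) z l| ≤ R) ∧ ip u (rs (A i) z) ≤ -η)) ≤ ε
    · exact ⟨0, fun h' => absurd h h'⟩
    · have h1 := h
      push Not at h1
      obtain ⟨n, hn, hn'⟩ := h1
      exact ⟨n, fun _ => ⟨hn, hn'⟩⟩
  choose n hn using hc2
  have hn1 : ∀ᶠ i in (F : Filter I), n i ≤ T * N i := by
    filter_upwards [hc1] with i hi
    exact (hn i hi).1
  have hn2 : ∀ᶠ i in (F : Filter I),
      ε < (p (n i)).pr fun z => ind ((∀ l, |rs (A i) z l| ≤ R) ∧ ip u (rs (A i) z) ≤ -η) := by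
    filter_upwards [hc1] with i hi
    exact (hn i hi).2
  obtain ⟨K, hK⟩ : ∃ K : Set (Rk k), K = {x | (∀ l, |x l| ≤ R) ∧ ip u x ≤ -η} := ⟨_, rfl⟩
  have hKc : IsCompact K := by
    refine Metric.isCompact_of_isClosed_isBounded ?_ ?_
    · rw [hK]
      have h1 : {x : Rk k | (∀ l, |x l| ≤ R) ∧ ip u x ≤ -η} =
          (⋂ l, {x : Rk k | |x l| ≤ R}) ∩ {x : Rk k | ip u x ≤ -η} := by
        ext x
        simp
      rw [h1]
      exact (isClosed_iInter fun l => isClosed_le (continuous_apply l).abs continuous_const).inter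
        (isClosed_le (SVH_continuous_ip u) continuous_const)
    · refine (Metric.isBounded_closedBall (x := (0 : Rk k)) (r := max R 0)).subset ?_
      intro x hx
      rw [hK] at hx
      rw [mem_closedBall_zero_iff]
      refine (pi_norm_le_iff_of_nonneg (le_max_right R 0)).2 fun l => ?_
      rw [Real.norm_eq_abs]
      exact (hx.1 l).trans (le_max_left R 0)
  have hx : ∀ x : Rk k, ∃ e : ℝ, x ∈ K → 0 < e ∧ ∀ c : ℝ, 0 < c → ∀ᶠ i in (F : Filter I),
      ((p (n i)).pr fun z => ind (∀ l, |rs (A i) z l - x l| ≤ e)) < c := by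
    intro x
    by_cases hxK : x ∈ K
    · have h1 : ¬ Chg F p A n x := by
        intro h2
        have h3 := hu T n hn1 x h2
        rw [hK] at hxK
        linarith [hxK.2]
      unfold Chg at h1
      push Not at h1
      obtain ⟨e, he, h4⟩ := h1
      refine ⟨e, fun _ => ⟨he, fun c hc => ?_⟩⟩
      exact h4 c hc
    · exact ⟨1, fun h => absurd h hxK⟩
  choose e he using hx
  obtain ⟨s, hsK, hs⟩ := hKc.elim_nhds_subcover (fun x => Metric.ball x (if x ∈ K then e x else 1))
    (fun x hx => Metric.ball_mem_nhds x (by rw [if_pos hx]; exact (he x hx).1))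
  obtain ⟨c, hcdef⟩ : ∃ c : ℝ, c = ε / ((s.card : ℝ) + 1) := ⟨_, rfl⟩
  have hcpos : 0 < c := by rw [hcdef]; positivity
  have hall : ∀ᶠ i in (F : Filter I), ∀ x ∈ s,
      ((p (n i)).pr fun z => ind (∀ l, |rs (A i) z l - x l| ≤ e x)) < c := by
    rw [Filter.eventually_all_finset]
    intro x hx
    exact (he x (hsK x hx)).2 c hcpos
  obtain ⟨i, hi1, hi2⟩ := (hn2.and hall).exists
  have hbound : ((p (n i)).pr fun z =>
      ind ((∀ l, |rs (A i) z l| ≤ R) ∧ ip u (rs (A i) z) ≤ -η)) ≤ s.card * c := by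
    calc ((p (n i)).pr fun z => ind ((∀ l, |rs (A i) z l| ≤ R) ∧ ip u (rs (A i) z) ≤ -η))
        ≤ (p (n i)).pr fun z => ∑ x ∈ s, ind (∀ l, |rs (A i) z l - x l| ≤ e x) := by
          refine (hD.p_nn (n i)).pr_mono fun z => ?_
          by_cases hz : (∀ l, |rs (A i) z l| ≤ R) ∧ ip u (rs (A i) z) ≤ -η
          · have hzK : rs (A i) z ∈ K := by rw [hK]; exact hz
            obtain ⟨x, hxs, hxz⟩ := Set.mem_iUnion₂.1 (hs hzK)
            have hxz' : dist (rs (A i) z) x < e x := by
              have := Metric.mem_ball.1 hxz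
              rwa [if_pos (hsK x hxs)] at this
            have h6 : ∀ l, |rs (A i) z l - x l| ≤ e x := by
              intro l
              rw [← Real.dist_eq]
              exact (dist_le_pi_dist _ _ l).trans hxz'.le
            rw [ind_of hz]
            refine le_trans ?_ (Finset.single_le_sum
              (f := fun x : Rk k => ind (∀ l, |rs (A i) z l - x l| ≤ e x))
              (fun x _ => ind_nonneg _) hxs)
            rw [ind_of h6]
          · rw [ind_not hz]
            exact Finset.sum_nonneg fun x _ => ind_nonneg _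
      _ = ∑ x ∈ s, (p (n i)).pr fun z => ind (∀ l, |rs (A i) z l - x l| ≤ e x) := by
          rw [Fm.pr_fsum]
      _ ≤ ∑ _x ∈ s, c := Finset.sum_le_sum fun x hx => (hi2 x hx).le
      _ = s.card * c := by rw [Finset.sum_const, nsmul_eq_mul]
  have h7 : (s.card : ℝ) * c < ε := by
    have h8 : ((s.card : ℝ) + 1) * c = ε := by
      rw [hcdef]; field_simp
    nlinarith
  linarith

end Pool.Agent.SawM2
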