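import Pool.Agent.SawM2.SvE

/-!
# Laplace transform (module SVI)
-/

set_option autoImplicit false

namespace Pool.Agent.SawM2

open Finset Filter MeasureTheory

variable {I : Type} {k : ℕ} {F : Ultrafilter I} {p : ℕ → Fm k} {a : I → ℝ} {N : I → ℕ}
  {E : I → ℝ} {P : ℕ → I → Fm k} {A : I → Fin k → Rk k} {r t g d : ℝ}

private theorem SVI_ip_sum {J : Type} (s : Finset J) (u : Rk k) (x : J → Rk k) :
    ip u (∑ j ∈ s, x j) = ∑ j ∈ s, ip u (x j) := by
  unfold ip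
  rw [Finset.sum_comm]
  refine Finset.sum_congr rfl fun i _ => ?_
  rw [Finset.sum_apply, Finset.mul_sum]

private theorem SVI_abs_ip_le (u x : Rk k) {b : ℝ} (hb : ∀ l, |x l| ≤ b) :
    |ip u x| ≤ (∑ l, |u l|) * b := by
  unfold ip
  refine (Finset.abs_sum_le_sum_abs _ _).trans ?_
  rw [Finset.sum_mul]
  refine Finset.sum_le_sum fun l _ => ?_
  rw [abs_mul]
  exact mul_le_mul_of_nonneg_left (hb l) (abs_nonneg _)

private theorem SVI_ip_sub (u x y : Rk k) : ip u (x - y) = ip u x - ip u y := by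
  unfold ip
  rw [← Finset.sum_sub_distrib]
  refine Finset.sum_congr rfl fun i _ => ?_
  rw [Pi.sub_apply]
  ring

private theorem SVI_exp_lip {x y : ℝ} (hx : 0 ≤ x) (hy : 0 ≤ y) :
    |Real.exp (-x) - Real.exp (-y)| ≤ |x - y| := by
  wlog h : x ≤ y generalizing x y
  · rw [abs_sub_comm, abs_sub_comm x y]
    exact this hy hx (le_of_not_ge h)
  have h1 : Real.exp (-y) ≤ Real.exp (-x) := Real.exp_le_exp.2 (by linarith)
  rw [abs_of_nonneg (by linarith), abs_sub_comm, abs_of_nonneg (by linarith)]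
  have h2 : Real.exp (-x) * (1 - (y - x)) ≤ Real.exp (-y) := by
    have h3 : Real.exp (-y) = Real.exp (-x) * Real.exp (-(y - x)) := by
      rw [← Real.exp_add]; congr 1; ring
    rw [h3]
    refine mul_le_mul_of_nonneg_left ?_ (Real.exp_pos _).le
    have := Real.add_one_le_exp (-(y - x))
    linarith
  have h4 : Real.exp (-x) ≤ 1 := Real.exp_le_one_iff.2 (by linarith)
  nlinarith

/-- SVI. Let `U = Σ |u_l|`, `β = 1 / (10 (2 U + 1))`, `h x = exp (- β max 0 (ip u (rs x)))`: values in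
`[0, 1]`, Lipschitz with constant `β U max|A| ≤ 1 - a` (`A_lim`, `|e^{-x} - e^{-y}| ≤ |x - y|` on
`x, y ≥ 0`). Take `G y = 3/4 ind (|rs y| ≤ 2)` (more precisely `ind (∀ l, |rs y l| < 2)`),
`bad x = ind (∃ l, 2 ≤ |rs x l|) + ind ((∀ l, |rs x l| ≤ 2) ∧ ip u (rs x) ≤ - 1 / j)`: if no block
is bad, `Σ max 0 (ip u (rs x_l)) ≤ Σ (ip u (rs x_l) + 1/j) ≤ 2 U + 1`, so
`Π h ≥ exp (- 1/10) ≥ 3/4`. `p_ind`: `3/4 P(|rs X_{jn}| < 2) ≤ (E h)^j + j P(bad) + j ε`; with
`escape` (`q = 1` for `jn`, `q = j` for `n`) and `Hlf` (`T = 1`, `R = 2`, `η = 1/j`) the right side is at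
most `(E h)^j + 6/100 + 2/100`, the left side at least `3/4 · 94/100 ≥ 7/10`. So `(E h)^j ≥ 1/2 ≥
e^{-1} ≥ (1 - 1/j)^j`, `E h ≥ 1 - 1/j`. -/
theorem laplace (hD : Dg k F p a N E P A r t g d) {u : Rk k} (hu : Hlf F p N A u) :
    ∃ β : ℝ, 0 < β ∧ ∀ j : ℕ, 1 ≤ j → ∀ᶠ i in (F : Filter I), ∀ n : ℕ, (n * j : ℝ) ≤ t * N i →
      ((p n).pr fun z => 1 - Real.exp (-(β * max 0 (ip u (rs (A i) z))))) ≤ 1 / j := by
  classical
  obtain ⟨U, hU⟩ : ∃ U : ℝ, U = ∑ l, |u l| := ⟨_, rfl⟩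
  have hU0 : 0 ≤ U := by rw [hU]; exact Finset.sum_nonneg fun l _ => abs_nonneg _
  obtain ⟨β, hβ⟩ : ∃ β : ℝ, β = 1 / (10 * (2 * U + 1)) := ⟨_, rfl⟩
  have hβ0 : 0 < β := by rw [hβ]; positivity
  have hβ1 : β * (2 * U + 1) = 1 / 10 := by rw [hβ]; field_simp
  have hβU : β * U ≤ 1 := by nlinarith
  refine ⟨β, hβ0, fun j hj => ?_⟩
  have hj0 : (0 : ℝ) < j := by exact_mod_cast hj
  have hj1 : (1 : ℝ) ≤ j := by exact_mod_cast hj
  have hε : (0 : ℝ) < 1 / (100 * j) := by positivity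
  filter_upwards [escape hD (le_refl 1), escape hD hj,
    hu 1 2 (1 / j) (1 / (100 * j)) (by positivity) hε, hD.p_ind _ hε, hD.A_lim 1 one_pos,
    hD.a_lt] with i e1 e2 e3 e4 e5 e6 n hn
  have hnn : 0 ≤ (n : ℝ) := Nat.cast_nonneg n
  have hN0 : 0 ≤ (N i : ℝ) := Nat.cast_nonneg _
  have hnN : n ≤ 1 * N i := by
    have h1 : (n : ℝ) ≤ n * j := by nlinarith
    have h2 : t * (N i : ℝ) ≤ N i := by nlinarith [hD.t_le]
    have h3 : (n : ℝ) ≤ N i := h1.trans (hn.trans h2)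
    have h4 : n ≤ N i := by exact_mod_cast h3
    omega
  -- the functions
  obtain ⟨v, hv⟩ : ∃ v : Zk k → ℝ, v = fun z => ip u (rs (A i) z) := ⟨_, rfl⟩
  obtain ⟨h, hh⟩ : ∃ h : Zk k → ℝ, h = fun z => Real.exp (-(β * max 0 (v z))) := ⟨_, rfl⟩
  obtain ⟨G, hG⟩ : ∃ G : Zk k → ℝ, G = fun z => 3 / 4 * ind (∀ l, |rs (A i) z l| < 2) := ⟨_, rfl⟩
  obtain ⟨b1, hb1⟩ : ∃ b1 : Zk k → ℝ, b1 = fun z => ind (∃ l, 2 ≤ |rs (A i) z l|) := ⟨_, rfl⟩
  obtain ⟨b2, hb2⟩ : ∃ b2 : Zk k → ℝ,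
      b2 = fun z => ind ((∀ l, |rs (A i) z l| ≤ 2) ∧ v z ≤ -(1 / j)) := ⟨_, rfl⟩
  have hm0 : ∀ z, 0 ≤ β * max 0 (v z) := fun z => mul_nonneg hβ0.le (le_max_left _ _)
  have h0 : ∀ z, 0 ≤ h z := fun z => by rw [hh]; exact (Real.exp_pos _).le
  have h1 : ∀ z, h z ≤ 1 := fun z => by
    rw [hh]; exact Real.exp_le_one_iff.2 (neg_nonpos.2 (hm0 z))
  have hlip : Lip (1 / (1 - a i)) h := by
    intro x y
    have ha : 0 < 1 - a i := by linarith
    have q1 : |h x - h y| ≤ |β * max 0 (v x) - β * max 0 (v y)| := by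
      rw [hh]; exact SVI_exp_lip (hm0 x) (hm0 y)
    have q2 : |β * max 0 (v x) - β * max 0 (v y)| = β * |max 0 (v x) - max 0 (v y)| := by
      rw [← mul_sub, abs_mul, abs_of_pos hβ0]
    have q3 : |max 0 (v x) - max 0 (v y)| ≤ |v x - v y| := by
      refine (abs_max_sub_max_le_max 0 (v x) 0 (v y)).trans ?_
      rw [sub_zero, abs_zero, max_eq_right (abs_nonneg _)]
    have q4 : v x - v y = ip u (rs (A i) (x - y)) := by
      rw [hv, rs_sub, SVI_ip_sub]
    have q5 : |ip u (rs (A i) (x - y))| ≤ U * ((1 * (1 - a i)) * n1 (x - y)) := by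
      rw [hU]
      exact SVI_abs_ip_le u _ fun l => abs_rs_le (fun l m => e5 l m) (x - y) l
    have q6 : |h x - h y| ≤ β * (U * ((1 * (1 - a i)) * n1 (x - y))) := by
      refine q1.trans (q2.le.trans (mul_le_mul_of_nonneg_left ?_ hβ0.le))
      exact q3.trans (by rw [q4]; exact q5)
    refine q6.trans ?_
    rw [div_div_eq_mul_div, div_one]
    have q7 : 0 ≤ (n1 (x - y) : ℝ) * (1 - a i) := by positivity
    calc β * (U * ((1 * (1 - a i)) * n1 (x - y))) = (β * U) * (n1 (x - y) * (1 - a i)) := by ring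
      _ ≤ 1 * (n1 (x - y) * (1 - a i)) := mul_le_mul_of_nonneg_right hβU q7
      _ = n1 (x - y) * (1 - a i) := one_mul _
  have hbad0 : ∀ z, 0 ≤ b1 z + b2 z := fun z => by
    rw [hb1, hb2]; exact add_nonneg (ind_nonneg _) (ind_nonneg _)
  have hkey : ∀ x : Fin j → Zk k, G (∑ l, x l) ≤ (∏ l, h (x l)) + ∑ l, (b1 (x l) + b2 (x l)) := by
    intro x
    have hG1 : G (∑ l, x l) ≤ 3 / 4 := by
      rw [hG]
      have := ind_le_one (∀ l, |rs (A i) (∑ l, x l) l| < 2)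
      simp only
      linarith
    have hP0 : 0 ≤ ∏ l, h (x l) := Finset.prod_nonneg fun l _ => h0 _
    by_cases hbd : ∃ l, (∃ m, 2 ≤ |rs (A i) (x l) m|) ∨
        ((∀ m, |rs (A i) (x l) m| ≤ 2) ∧ v (x l) ≤ -(1 / j))
    · obtain ⟨l, hl⟩ := hbd
      have hs : 1 ≤ ∑ l, (b1 (x l) + b2 (x l)) := by
        refine le_trans ?_ (Finset.single_le_sum (f := fun l => b1 (x l) + b2 (x l))
          (fun l _ => hbad0 _) (Finset.mem_univ l))
        simp only [hb1, hb2]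
        rcases hl with hl | hl
        · rw [ind_of hl]; linarith [ind_nonneg ((∀ m, |rs (A i) (x l) m| ≤ 2) ∧ v (x l) ≤ -(1 / j))]
        · rw [ind_of hl]; linarith [ind_nonneg (∃ m, 2 ≤ |rs (A i) (x l) m|)]
      linarith
    · push Not at hbd
      have hs0 : 0 ≤ ∑ l, (b1 (x l) + b2 (x l)) := Finset.sum_nonneg fun l _ => hbad0 _
      by_cases hin : ∀ m, |rs (A i) (∑ l, x l) m| < 2
      · have g1 : ∀ l, -(1 / (j : ℝ)) < v (x l) := fun l =>
          (hbd l).2 fun m => ((hbd l).1 m).le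
        have g2 : ∀ l, max 0 (v (x l)) ≤ v (x l) + 1 / j := fun l =>
          max_le (by linarith [g1 l]) (by linarith [show (0 : ℝ) < 1 / j by positivity])
        have g3 : ∑ l, v (x l) = ip u (rs (A i) (∑ l, x l)) := by
          rw [hv, rs_sum, SVI_ip_sum]
        have g4 : ip u (rs (A i) (∑ l, x l)) ≤ U * 2 := by
          refine (le_abs_self _).trans ?_
          rw [hU]
          exact SVI_abs_ip_le u _ fun l => (hin l).le
        have g5 : ∑ l, max 0 (v (x l)) ≤ 2 * U + 1 := by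
          calc ∑ l, max 0 (v (x l)) ≤ ∑ l, (v (x l) + 1 / j) := Finset.sum_le_sum fun l _ => g2 l
            _ = ip u (rs (A i) (∑ l, x l)) + 1 := by
                rw [Finset.sum_add_distrib, g3, Finset.sum_const, Finset.card_univ,
                  Fintype.card_fin, nsmul_eq_mul]
                field_simp
            _ ≤ 2 * U + 1 := by linarith
        have g6 : ∏ l, h (x l) = Real.exp (-(β * ∑ l, max 0 (v (x l)))) := by
          rw [hh, ← Real.exp_sum, Finset.sum_neg_distrib, Finset.mul_sum]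
        have g7 : (9 : ℝ) / 10 ≤ ∏ l, h (x l) := by
          rw [g6]
          have g8 : β * ∑ l, max 0 (v (x l)) ≤ 1 / 10 := by
            rw [← hβ1]; exact mul_le_mul_of_nonneg_left g5 hβ0.le
          have := Real.add_one_le_exp (-(β * ∑ l, max 0 (v (x l))))
          linarith
        linarith
      · have : G (∑ l, x l) = 0 := by
          rw [hG]; simp only; rw [ind_not hin, mul_zero]
        rw [this]
        exact add_nonneg hP0 hs0
  have e7 := e4 n j h G (fun z => b1 z + b2 z) h0 h1 hlip hbad0 hkey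
  -- left side
  have hl : (705 : ℝ) / 1000 ≤ (p (j * n)).pr G := by
    have q1 : ((j * n : ℕ) : ℝ) * ((1 : ℕ) : ℝ) ≤ t * N i := by
      push_cast
      linarith [mul_comm (j : ℝ) n]
    have q2 := e1 (j * n) q1
    have q3 : (p (j * n)).pr G =
        3 / 4 * ((p (j * n)).mass - (p (j * n)).pr fun z => ind (∃ l, 2 ≤ |rs (A i) z l|)) := by
      rw [Fm.mass_eq, ← Fm.pr_fsub, hG, Fm.pr_mul_left]
      congr 1
      refine Fm.pr_congr _ fun z => ?_
      rw [← ind_compl]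
      refine ind_congr ⟨fun hz => ?_, fun hz => ?_⟩
      · rintro ⟨l, hl⟩; exact absurd (hz l) (not_lt.2 hl)
      · intro l
        by_contra hc
        exact hz ⟨l, not_lt.1 hc⟩
    rw [q3, hD.p_mass]
    have q4 : (6 : ℝ) / (100 * ((1 : ℕ) : ℝ)) = 6 / 100 := by norm_num
    rw [q4] at q2
    linarith
  -- right side
  have hr : (p n).pr (fun z => b1 z + b2 z) ≤ 7 / (100 * j) := by
    rw [Fm.pr_fadd]
    have q1 := e2 n hn
    have q2 := e3 n hnN
    have q3 : (p n).pr b2 ≤ 1 / (100 * j) := by rw [hb2, hv]; exact q2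
    have q4 : (p n).pr b1 ≤ 6 / (100 * j) := by rw [hb1]; exact q1
    calc (p n).pr b1 + (p n).pr b2 ≤ 6 / (100 * j) + 1 / (100 * j) := add_le_add q4 q3
      _ = 7 / (100 * j) := by ring
  have hjr : (j : ℝ) * (p n).pr (fun z => b1 z + b2 z) ≤ 7 / 100 := by
    calc (j : ℝ) * (p n).pr (fun z => b1 z + b2 z) ≤ j * (7 / (100 * j)) :=
          mul_le_mul_of_nonneg_left hr hj0.le
      _ = 7 / 100 := by field_simp
  have hje : (j : ℝ) * (1 / (100 * j)) = 1 / 100 := by field_simp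
  have hpow : (1 : ℝ) / 2 ≤ ((p n).pr h) ^ j := by
    rw [hje] at e7
    linarith
  have hE0 : 0 ≤ (p n).pr h := (hD.p_nn n).pr_nonneg h0
  have hfin : 1 - 1 / (j : ℝ) ≤ (p n).pr h := by
    by_contra hc
    push Not at hc
    have q0 : 1 - 1 / (j : ℝ) ≤ Real.exp (-(1 / (j : ℝ))) := by
      have := Real.add_one_le_exp (-(1 / (j : ℝ)))
      linarith
    have q1 : ((p n).pr h) ^ j ≤ (Real.exp (-(1 / (j : ℝ)))) ^ j :=
      pow_le_pow_left₀ hE0 (hc.le.trans q0) j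
    rw [← Real.exp_nat_mul] at q1
    have q2 : (j : ℝ) * -(1 / (j : ℝ)) = -1 := by field_simp
    rw [q2] at q1
    have q3 : Real.exp (-1) < 1 / 2 := by
      rw [Real.exp_neg, ← one_div]
      refine one_div_lt_one_div_of_lt two_pos ?_
      have := Real.exp_one_gt_d9
      linarith
    linarith
  have hgoal : ((p n).pr fun z => 1 - Real.exp (-(β * max 0 (ip u (rs (A i) z))))) =
      1 - (p n).pr h := by
    rw [Fm.pr_fsub, ← Fm.mass_eq, hD.p_mass, hh, hv]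
  rw [hgoal]
  linarith

end Pool.Agent.SawM2
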