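import Pool.Agent.SawM2.SvI
import Pool.Agent.SawM2.SumA

/-!
# Many frequencies (module SVJ)
-/

set_option autoImplicit false

namespace Pool.Agent.SawM2

open Finset Filter MeasureTheory

variable {I : Type} {k : ℕ} {F : Ultrafilter I} {p : ℕ → Fm k} {a : I → ℝ} {N : I → ℕ}
  {E : I → ℝ} {P : ℕ → I → Fm k} {A : I → Fin k → Rk k} {r t g d : ℝ}

private theorem svj_exp (s : ℝ) (hs : 0 ≤ s) : min 1 s ≤ 2 * (1 - Real.exp (-s)) := by
  rcases le_total s 1 with h | h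
  · rw [min_eq_right h]
    have h1 := Real.exp_bound' (x := s) hs h (n := 2) (by norm_num)
    have h2 : Real.exp (-s) ≤ 1 - s / 2 := by
      have h3 : 1 + s ≤ Real.exp s := by linarith [Real.add_one_le_exp s]
      have h4 : Real.exp (-s) = (Real.exp s)⁻¹ := Real.exp_neg s
      rw [h4, inv_le_comm₀ (Real.exp_pos s) (by linarith)]
      refine le_trans ?_ h3
      rw [inv_le_iff_one_le_mul₀ (by linarith)]
      nlinarith
    linarith
  · rw [min_eq_left h]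
    have h2 : Real.exp (-s) ≤ Real.exp (-1) := Real.exp_le_exp.2 (by linarith)
    have h3 : Real.exp (-1) ≤ 1 / 2 := by
      have h4 := Real.add_one_le_exp (1 : ℝ)
      rw [Real.exp_neg, inv_le_comm₀ (Real.exp_pos 1) (by norm_num)]
      norm_num at h4 ⊢
      exact h4
    linarith

private theorem svj_norm_two (y : ℝ) : ‖(1 : ℂ) - Complex.exp (Complex.I * (y : ℝ))‖ ≤ 2 := by
  refine (norm_sub_le _ _).trans ?_
  rw [norm_one, mul_comm, Complex.norm_exp_ofReal_mul_I]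
  norm_num

private theorem svj_norm_abs (y : ℝ) : ‖(1 : ℂ) - Complex.exp (Complex.I * (y : ℝ))‖ ≤ |y| := by
  rw [norm_sub_rev]
  have h := Real.norm_exp_I_mul_ofReal_sub_one_le (x := y)
  rwa [Real.norm_eq_abs] at h

/-- the pointwise bound -/
private theorem svj_point {β b y η : ℝ} (hβ : 0 < β) (hη : 0 ≤ η) {Q R : Prop}
    (hQ : ¬ Q → y ≤ -η → R) :
    ‖(1 : ℂ) - Complex.exp (Complex.I * ((b * y : ℝ) : ℝ))‖ ≤
      (4 + 2 * |b| / β) * (1 - Real.exp (-(β * max 0 y))) + |b| * η + 2 * ind Q + 2 * ind R := by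
  have h0 : 0 ≤ 1 - Real.exp (-(β * max 0 y)) := by
    have : Real.exp (-(β * max 0 y)) ≤ 1 := Real.exp_le_one_iff.2 (by
      have := mul_nonneg hβ.le (le_max_left 0 y)
      linarith)
    linarith
  have hb : 0 ≤ |b| / β := div_nonneg (abs_nonneg _) hβ.le
  have hb2 : 2 * |b| / β = 2 * (|b| / β) := by ring
  have hQ0 := ind_nonneg Q
  have hR0 := ind_nonneg R
  have hbη : 0 ≤ |b| * η := mul_nonneg (abs_nonneg _) hη
  have hA : 0 ≤ (4 + 2 * |b| / β) * (1 - Real.exp (-(β * max 0 y))) := by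
    rw [hb2]; positivity
  rcases le_or_gt 0 y with hy | hy
  · -- `y ≥ 0`
    have h1 := svj_exp (β * y) (mul_nonneg hβ.le hy)
    rw [max_eq_right hy] at hA h0 ⊢
    have h2 : ‖(1 : ℂ) - Complex.exp (Complex.I * ((b * y : ℝ) : ℝ))‖ ≤
        (2 + |b| / β) * min 1 (β * y) := by
      rcases le_total (β * y) 1 with h | h
      · rw [min_eq_right h]
        refine (svj_norm_abs _).trans ?_
        rw [abs_mul, abs_of_nonneg hy]
        have h3 : |b| * y = |b| / β * (β * y) := by field_simp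
        rw [h3]
        refine mul_le_mul_of_nonneg_right (by linarith) (mul_nonneg hβ.le hy)
      · rw [min_eq_left h, mul_one]
        refine (svj_norm_two _).trans (by linarith)
    have h3 : (2 + |b| / β) * min 1 (β * y) ≤
        (2 + |b| / β) * (2 * (1 - Real.exp (-(β * y)))) :=
      mul_le_mul_of_nonneg_left h1 (by linarith)
    have h4 : (2 + |b| / β) * (2 * (1 - Real.exp (-(β * y)))) =
        (4 + 2 * |b| / β) * (1 - Real.exp (-(β * y))) := by rw [hb2]; ring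
    linarith
  · rcases le_or_gt y (-η) with h | h
    · by_cases hq : Q
      · have := svj_norm_two (b * y)
        rw [ind_of hq]
        linarith
      · have := svj_norm_two (b * y)
        rw [ind_of (hQ hq h)]
        linarith
    · have h1 := svj_norm_abs (b * y)
      rw [abs_mul, abs_of_neg hy] at h1
      have h2 : |b| * (-y) ≤ |b| * η := mul_le_mul_of_nonneg_left (by linarith) (abs_nonneg _)
      linarith

/-- SVJ. For all real `y`, `b` with `|b| ≤ a₀ j`: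
`|1 - e^{i b y}| ≤ 2 (1 - e^{-1})⁻¹ max 1 (|b| / β) (1 - e^{- β max 0 y})` if `y ≥ 0` (for
`β y ≤ 1`: `|b| y ≤ (|b|/β) (β y)` and `β y ≤ (1 - e^{-1})⁻¹ (1 - e^{-βy})`), `≤ |b| η` if
`- η ≤ y ≤ 0`, `≤ 2` always. Take the mean over `y = ip u (rs X_n)` with `η = 1 / j²`: parts
`y ≥ 0` (`laplace`), `- η ≤ y ≤ 0`, `|rs| ≤ 2 ∧ y ≤ - η` (`Hlf`), and `∃ l, 2 ≤ |rs l|`
(`escape`, `q = j`): total at most `4 (1 + a₀ j / β) / j + a₀ / j + 1 / j + 1 / j ≤ r / 2` if
`a₀ = β r / 16`, and `j` is large. -/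
theorem dv_normal (hD : Dg k F p a N E P A r t g d) {u : Rk k} (hu : Hlf F p N A u) :
    ∃ a₀ : ℝ, 0 < a₀ ∧ ∀ᶠ j : ℕ in atTop, ∀ᶠ i in (F : Filter I), ∀ n : ℕ,
      (n * j : ℝ) ≤ t * N i → ∀ b : ℝ, |b| ≤ a₀ * j → (p n).dv (cmb (A i) (b • u)) ≤ r / 2 := by
  obtain ⟨β, hβ, hlap⟩ := laplace hD hu
  have hr := hD.r_pos
  have ha₀ : 0 < β * r / 16 := by positivity
  refine ⟨β * r / 16, ha₀, ?_⟩
  obtain ⟨j₀, hj₀⟩ := exists_nat_ge (4 * (7 + β * r / 16) / r)
  filter_upwards [eventually_ge_atTop (max 1 j₀)] with j hj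
  have hj1 : 1 ≤ j := (le_max_left _ _).trans hj
  have hjj : (j₀ : ℝ) ≤ j := by exact_mod_cast (le_max_right _ _).trans hj
  have hj0 : (0 : ℝ) < j := by exact_mod_cast hj1
  have hj1' : (1 : ℝ) ≤ j := by exact_mod_cast hj1
  have hbig : 4 * (7 + β * r / 16) ≤ r * j := by
    have h1 : 4 * (7 + β * r / 16) / r ≤ j := hj₀.trans hjj
    rw [div_le_iff₀ hr] at h1
    linarith
  have hη : (0 : ℝ) < 1 / (j : ℝ) ^ 2 := by positivity
  have hε : (0 : ℝ) < 1 / (j : ℝ) := by positivity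
  filter_upwards [hlap j hj1, escape hD hj1, hu 1 2 (1 / (j : ℝ) ^ 2) (1 / (j : ℝ)) hη hε]
    with i h1 h2 h3
  intro n hn b hb
  have hnN : n ≤ 1 * N i := by
    have h4 : (n : ℝ) ≤ N i := by
      have h5 : (n : ℝ) ≤ n * j := le_mul_of_one_le_right (Nat.cast_nonneg n) hj1'
      have h6 : t * N i ≤ 1 * N i := mul_le_mul_of_nonneg_right hD.t_le (Nat.cast_nonneg _)
      linarith
    rw [one_mul]
    exact_mod_cast h4
  have e1 := h1 n hn
  have e2 := h2 n hn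
  have e3 := h3 n hnN
  have hdt : ∀ z : Zk k, dt (cmb (A i) (b • u)) z = b * ip u (rs (A i) z) := by
    intro z
    rw [dt_cmb]
    unfold ip
    rw [Finset.mul_sum]
    refine Finset.sum_congr rfl fun l _ => ?_
    rw [Pi.smul_apply, smul_eq_mul]; ring
  have hmain : (p n).dv (cmb (A i) (b • u)) ≤
      (4 + 2 * |b| / β) * ((p n).pr fun z => 1 - Real.exp (-(β * max 0 (ip u (rs (A i) z))))) +
      |b| * (1 / (j : ℝ) ^ 2) + 2 * ((p n).pr fun z => ind (∃ l, 2 ≤ |rs (A i) z l|)) +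
      2 * ((p n).pr fun z => ind ((∀ l, |rs (A i) z l| ≤ 2) ∧
        ip u (rs (A i) z) ≤ -(1 / (j : ℝ) ^ 2))) := by
    have h4 : (p n).dv (cmb (A i) (b • u)) ≤ (p n).pr fun z =>
        (((4 + 2 * |b| / β) * (1 - Real.exp (-(β * max 0 (ip u (rs (A i) z))))) +
        |b| * (1 / (j : ℝ) ^ 2)) + 2 * ind (∃ l, 2 ≤ |rs (A i) z l|)) +
        2 * ind ((∀ l, |rs (A i) z l| ≤ 2) ∧ ip u (rs (A i) z) ≤ -(1 / (j : ℝ) ^ 2)) := by
      unfold Fm.dv
      refine (hD.p_nn n).pr_mono fun z => ?_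
      rw [hdt z]
      refine svj_point hβ hη.le fun hq hy => ⟨fun l => ?_, hy⟩
      by_contra hlt
      push Not at hlt
      exact hq ⟨l, hlt.le⟩
    refine h4.trans (le_of_eq ?_)
    rw [Fm.pr_fadd, Fm.pr_fadd, Fm.pr_fadd, Fm.pr_mul_left, Fm.pr_mul_left, Fm.pr_const,
      hD.p_mass, one_mul, Fm.pr_mul_left]
    congr 1
    exact Fm.pr_mul_left _ _ _
  have hb0 : 0 ≤ |b| / β := div_nonneg (abs_nonneg _) hβ.le
  have hb1 : |b| / β ≤ r * j / 16 := by
    rw [div_le_iff₀ hβ]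
    refine hb.trans (le_of_eq ?_)
    ring
  have hcoef : 0 ≤ 4 + 2 * |b| / β := by
    rw [mul_div_assoc]; positivity
  have g1 : (4 + 2 * |b| / β) *
      ((p n).pr fun z => 1 - Real.exp (-(β * max 0 (ip u (rs (A i) z))))) ≤
      (4 + r * j / 8) * (1 / j) := by
    have h5 : 4 + 2 * |b| / β ≤ 4 + r * j / 8 := by
      rw [mul_div_assoc]; linarith
    exact (mul_le_mul_of_nonneg_left e1 hcoef).trans
      (mul_le_mul_of_nonneg_right h5 hε.le)
  have g2 : |b| * (1 / (j : ℝ) ^ 2) ≤ β * r / 16 * (1 / j) := by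
    calc |b| * (1 / (j : ℝ) ^ 2) ≤ (β * r / 16 * j) * (1 / (j : ℝ) ^ 2) :=
          mul_le_mul_of_nonneg_right hb hη.le
      _ = β * r / 16 * (1 / j) := by field_simp
  have g3 : 6 / (100 * (j : ℝ)) ≤ 1 / 2 * (1 / j) := by
    rw [show 6 / (100 * (j : ℝ)) = 6 / 100 * (1 / j) by field_simp]
    exact mul_le_mul_of_nonneg_right (by norm_num) hε.le
  have g4 : (4 + r * j / 8) * (1 / (j : ℝ)) = 4 * (1 / j) + r / 8 := by
    field_simp
  have g5 : (7 + β * r / 16) * (1 / (j : ℝ)) ≤ r / 4 := by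
    rw [mul_one_div, div_le_iff₀ hj0]
    linarith
  have h7 := hmain
  nlinarith [h7, g1, g2, g3, g4, g5, e2, e3, hε]

/-- multiples of a frequency -/
private theorem svj_mult {μ : Fm k} (hμ : μ.Nn) (ξ : Rk k) {s D : ℝ} (hs : 0 ≤ s)
    (hD : ∀ f : ℝ, 0 ≤ f → f ≤ 1 → μ.dv (f • ξ) ≤ D) : μ.dv (s • ξ) ≤ (s + 1) * D := by
  have hD0 : 0 ≤ D := (Fm.dv_nonneg hμ _).trans (hD 0 le_rfl zero_le_one)
  have h1 : s • ξ = (∑ _i ∈ Finset.range ⌊s⌋₊, (1 : ℝ) • ξ) + (s - ⌊s⌋₊) • ξ := by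
    rw [Finset.sum_const, Finset.card_range, one_smul, ← Nat.cast_smul_eq_nsmul ℝ, ← add_smul]
    congr 1
    ring
  have hfl := Nat.floor_le hs
  have hfl2 := Nat.lt_floor_add_one s
  have h2 : μ.dv (∑ _i ∈ Finset.range ⌊s⌋₊, (1 : ℝ) • ξ) ≤ ⌊s⌋₊ * D := by
    refine (Fm.dv_sum_le hμ _ _).trans ?_
    refine (Finset.sum_le_sum fun i _ => hD 1 zero_le_one le_rfl).trans (le_of_eq ?_)
    rw [Finset.sum_const, Finset.card_range, nsmul_eq_mul]
  have h3 : μ.dv ((s - ⌊s⌋₊) • ξ) ≤ D := hD _ (by linarith) (by linarith)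
  rw [h1]
  refine (Fm.dv_add_le hμ _ _).trans ?_
  have h4 : (⌊s⌋₊ : ℝ) * D ≤ s * D := mul_le_mul_of_nonneg_right hfl hD0
  linarith

/-- SVJ. `dv (y_l A_l) ≤ (|y_l| + 1) sqrt (6 r / j)`: `m = ⌊y_l⌋` copies of `A_l` (sign!) and the
fractional part, `Fm.dv_sum_le`, `Fm.dv_le`, `near_one` (`q = j`). Sum over `l`:
`k (c √j + 1) sqrt (6 r / j) ≤ r / 2` if `c = r / (4 k sqrt (6 r))` and `j` is large. -/
theorem dv_box (hD : Dg k F p a N E P A r t g d) :
    ∃ c : ℝ, 0 < c ∧ ∀ᶠ j : ℕ in atTop, ∀ᶠ i in (F : Filter I), ∀ n : ℕ,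
      (n * j : ℝ) ≤ t * N i → ∀ y : Rk k, (∀ l, |y l| ≤ c * Real.sqrt j) →
        (p n).dv (cmb (A i) y) ≤ r / 2 := by
  have hr := hD.r_pos
  have hk : (0 : ℝ) < k := by exact_mod_cast hD.k_pos
  have hs6 : 0 < Real.sqrt (6 * r) := Real.sqrt_pos.2 (by positivity)
  set c : ℝ := r / (4 * k * Real.sqrt (6 * r)) with hc
  have hc0 : 0 < c := by positivity
  refine ⟨c, hc0, ?_⟩
  -- `j` large
  obtain ⟨j₀, hj₀⟩ := exists_nat_ge ((4 * k * Real.sqrt (6 * r) / r) ^ 2)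
  filter_upwards [eventually_ge_atTop (max 1 j₀)] with j hj
  have hj1 : 1 ≤ j := (le_max_left _ _).trans hj
  have hjj : (j₀ : ℝ) ≤ j := by exact_mod_cast (le_max_right _ _).trans hj
  have hj0 : (0 : ℝ) < j := by exact_mod_cast hj1
  have hsj : 0 < Real.sqrt j := Real.sqrt_pos.2 hj0
  have hbig : 4 * k * Real.sqrt (6 * r) / r ≤ Real.sqrt j := by
    refine Real.le_sqrt_of_sq_le (hj₀.trans hjj)
  filter_upwards [hD.near_one j hj1] with i hi
  intro n hn y hy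
  have hnn := hD.p_nn n
  have hmass := hD.p_mass n
  set Dj : ℝ := Real.sqrt (6 * r / j) with hDj
  have hDj' : Dj = Real.sqrt (6 * r) / Real.sqrt j := Real.sqrt_div (by positivity) _
  have hone : ∀ (l : Fin k) (f : ℝ), |f| ≤ 1 → (p n).dv (f • A i l) ≤ Dj := by
    intro l f hf
    have h1 : f • A i l = cmb (A i) (Pi.single l f) := by
      unfold cmb
      rw [Finset.sum_eq_single l]
      · simp
      · intro m _ hm
        rw [Pi.single_eq_of_ne hm, zero_smul]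
      · intro h; exact absurd (Finset.mem_univ _) h
    rw [h1]
    refine (Fm.dv_le hnn hmass _).trans (Real.sqrt_le_sqrt ?_)
    have h2 := hi (Pi.single l f) (fun m => by
      by_cases hm : m = l
      · subst hm; rw [Pi.single_eq_same]; exact hf
      · rw [Pi.single_eq_of_ne hm, abs_zero]; exact zero_le_one) n hn
    calc 2 * ‖1 - (p n).ft (cmb (A i) (Pi.single l f))‖ ≤ 2 * (3 * r / j) :=
          mul_le_mul_of_nonneg_left h2 (by norm_num)
      _ = 6 * r / j := by ring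
  have hterm : ∀ l : Fin k, (p n).dv (y l • A i l) ≤ (c * Real.sqrt j + 1) * Dj := by
    intro l
    have hDj0 : 0 ≤ Dj := Real.sqrt_nonneg _
    have h1 : (p n).dv (|y l| • A i l) ≤ (|y l| + 1) * Dj :=
      svj_mult hnn _ (abs_nonneg _) fun f hf0 hf1 => hone l f (by rw [abs_of_nonneg hf0]; exact hf1)
    have h2 : (p n).dv (y l • A i l) = (p n).dv (|y l| • A i l) := by
      rcases le_total 0 (y l) with h | h
      · rw [abs_of_nonneg h]
      · rw [abs_of_nonpos h, neg_smul, Fm.dv_neg]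
    rw [h2]
    refine h1.trans (mul_le_mul_of_nonneg_right ?_ hDj0)
    linarith [hy l]
  have hsum : (p n).dv (cmb (A i) y) ≤ k * ((c * Real.sqrt j + 1) * Dj) := by
    unfold cmb
    refine (Fm.dv_sum_le hnn _ _).trans ((Finset.sum_le_sum fun l _ => hterm l).trans
      (le_of_eq ?_))
    rw [Finset.sum_const, Finset.card_univ, Fintype.card_fin, nsmul_eq_mul]
  refine hsum.trans ?_
  have e1 : k * ((c * Real.sqrt j + 1) * Dj) =
      k * c * Real.sqrt (6 * r) + k * Real.sqrt (6 * r) / Real.sqrt j := by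
    rw [hDj']
    field_simp
  have e2 : k * c * Real.sqrt (6 * r) = r / 4 := by
    rw [hc]
    field_simp
  have e3 : k * Real.sqrt (6 * r) / Real.sqrt j ≤ r / 4 := by
    rw [div_le_iff₀ hsj]
    rw [div_le_iff₀ hr] at hbig
    linarith
  rw [e1, e2]
  linarith

end Pool.Agent.SawM2
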