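import Mathlib

/-!
# Volume of a wedge (module WEDGE)
-/

set_option autoImplicit false

namespace Pool.Agent.SawM2

open Finset MeasureTheory

/-- WEDGE. Volume of the set of vectors `s u + y`, `|s| ≤ a`, `|y_i| ≤ l`: at least
`|u|_∞ a l^(k-1) ` (times `2^k`). Proof: let `i₀` be a coordinate with `|u i₀|` maximal; the linear
map `(s, (y_i)_{i ≠ i₀}) ↦ s u + y` (with `y i₀ = 0`) has determinant `± u i₀`. -/
theorem wedge {k : ℕ} (u : Fin k → ℝ) {a l : ℝ} (ha : 0 ≤ a) (hl : 0 ≤ l) (i₀ : Fin k) :
    ENNReal.ofReal (|u i₀| * (2 * a) * (2 * l) ^ (k - 1)) ≤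
      volume {x : Fin k → ℝ | ∃ s : ℝ, ∃ y : Fin k → ℝ, |s| ≤ a ∧ (∀ i, |y i| ≤ l) ∧
        x = s • u + y} := by
  classical
  set M : Matrix (Fin k) (Fin k) ℝ := (1 : Matrix (Fin k) (Fin k) ℝ).updateCol i₀ u with hM
  have hdet : LinearMap.det (Matrix.toLin' M) = u i₀ := by
    rw [LinearMap.det_toLin', hM, ← Matrix.cramer_apply, Matrix.cramer_one]
    rfl
  set c : Fin k → ℝ := fun i => if i = i₀ then a else l with hc
  have hcn : ∀ i, 0 ≤ c i := by
    intro i
    simp only [hc]
    split_ifs
    · exact ha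
    · exact hl
  have hvol : volume (Set.Icc (fun i => - c i) c) = ENNReal.ofReal ((2 * a) * (2 * l) ^ (k - 1)) := by
    rw [Real.volume_Icc_pi, ← ENNReal.ofReal_prod_of_nonneg]
    · congr 1
      rw [← Finset.mul_prod_erase Finset.univ _ (Finset.mem_univ i₀)]
      have h1 : ∀ i ∈ Finset.univ.erase i₀, c i - -c i = 2 * l := by
        intro i hi
        have : i ≠ i₀ := Finset.ne_of_mem_erase hi
        simp only [hc, if_neg this]
        ring
      rw [Finset.prod_congr rfl h1, Finset.prod_const, Finset.card_erase_of_mem (Finset.mem_univ _),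
        Finset.card_univ, Fintype.card_fin]
      congr 1
      simp only [hc, if_true]
      ring
    · intro i _
      have := hcn i
      linarith
  have hsub : (Matrix.toLin' M) '' (Set.Icc (fun i => - c i) c) ⊆
      {x : Fin k → ℝ | ∃ s : ℝ, ∃ y : Fin k → ℝ, |s| ≤ a ∧ (∀ i, |y i| ≤ l) ∧ x = s • u + y} := by
    rintro x ⟨z, hz, rfl⟩
    refine ⟨z i₀, Function.update z i₀ 0, ?_, ?_, ?_⟩
    · have h1 := hz.1 i₀
      have h2 := hz.2 i₀
      simp only [hc, if_true] at h1 h2
      exact abs_le.2 ⟨h1, h2⟩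
    · intro i
      by_cases h : i = i₀
      · subst h
        simp only [Function.update_self, abs_zero]
        exact hl
      · have h1 := hz.1 i
        have h2 := hz.2 i
        simp only [hc, if_neg h] at h1 h2
        rw [Function.update_of_ne h]
        exact abs_le.2 ⟨h1, h2⟩
    · ext i
      rw [Matrix.toLin'_apply]
      simp only [Matrix.mulVec, dotProduct, Pi.add_apply, Pi.smul_apply, smul_eq_mul]
      rw [← Finset.add_sum_erase Finset.univ _ (Finset.mem_univ i₀)]
      have h1 : M i i₀ * z i₀ = z i₀ * u i := by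
        rw [hM, Matrix.updateCol_self]
        ring
      rw [h1]
      congr 1
      have h2 : ∀ j ∈ Finset.univ.erase i₀, M i j * z j = (1 : Matrix (Fin k) (Fin k) ℝ) i j * z j := by
        intro j hj
        rw [hM, Matrix.updateCol_ne (Finset.ne_of_mem_erase hj)]
      rw [Finset.sum_congr rfl h2]
      by_cases h : i = i₀
      · subst h
        rw [Function.update_self]
        refine Finset.sum_eq_zero fun j hj => ?_
        rw [Matrix.one_apply_ne (Finset.ne_of_mem_erase hj).symm, zero_mul]
      · rw [Function.update_of_ne h, Finset.sum_eq_single i]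
        · rw [Matrix.one_apply_eq, one_mul]
        · intro j _ hj
          rw [Matrix.one_apply_ne (Ne.symm hj), zero_mul]
        · intro h'
          exact absurd (Finset.mem_erase.2 ⟨h, Finset.mem_univ _⟩) h'
  refine le_trans ?_ (measure_mono hsub)
  rw [Measure.addHaar_image_linearMap, hdet, hvol, ← ENNReal.ofReal_mul (abs_nonneg _), mul_assoc]

end Pool.Agent.SawM2
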