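import Pool.Agent.SawM2.SvH
import Pool.Agent.SawM2.SvJ
import Pool.Agent.SawM2.Wedge

/-!
# Positivity (module SVK)
-/

set_option autoImplicit false

namespace Pool.Agent.SawM2

open Finset Filter MeasureTheory

variable {I : Type} {k : ℕ} {F : Ultrafilter I} {p : ℕ → Fm k} {a : I → ℝ} {N : I → ℕ}
  {E : I → ℝ} {P : ℕ → I → Fm k} {A : I → Fin k → Rk k} {r t g d : ℝ}

private theorem svk_cmb_add (T : Fin k → Rk k) (x y : Rk k) :
    cmb T (x + y) = cmb T x + cmb T y := by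
  unfold cmb
  rw [← Finset.sum_add_distrib]
  exact Finset.sum_congr rfl fun i _ => by rw [Pi.add_apply, add_smul]

/-- the wedge is contained in the set of frequencies of `Dg.vol` -/
private theorem svk_incl (hD : Dg k F p a N E P A r t g d) {u : Rk k} (hu : Hlf F p N A u) :
    ∃ a₀ : ℝ, 0 < a₀ ∧ ∃ c : ℝ, 0 < c ∧ ∀ᶠ j : ℕ in atTop, ∀ᶠ i in (F : Filter I),
      (fun x : Rk k => ∑ l, x l • A i l) '' {x : Fin k → ℝ | ∃ s : ℝ, ∃ y : Fin k → ℝ,
          |s| ≤ a₀ * j ∧ (∀ l, |y l| ≤ c * Real.sqrt j) ∧ x = s • u + y} ⊆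
        {θ : Rk k | (∀ l, |θ l| ≤ d) ∧ ∀ n : ℕ, (n * j : ℝ) ≤ t * N i →
          ‖1 - (p n).ft θ‖ ≤ r} := by
  obtain ⟨a₀, ha₀, h1⟩ := dv_normal hD hu
  obtain ⟨c, hc, h2⟩ := dv_box hD
  refine ⟨a₀, ha₀, c, hc, ?_⟩
  filter_upwards [h1, h2] with j hj1 hj2
  set U : ℝ := ∑ l, |u l| with hU
  have hU0 : 0 ≤ U := Finset.sum_nonneg fun _ _ => abs_nonneg _
  have hul : ∀ l, |u l| ≤ U := fun l =>
    Finset.single_le_sum (f := fun l => |u l|) (fun _ _ => abs_nonneg _) (Finset.mem_univ l)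
  set R : ℝ := a₀ * j * U + c * Real.sqrt j with hR
  have hR0 : 0 ≤ R := by positivity
  have hd := hD.d_pos
  have hε : 0 < d / (k * R + 1) := by positivity
  filter_upwards [hj1, hj2, hD.A_lim _ hε, hD.a_pos, hD.a_lt] with i g1 g2 g3 g4 g5
  rintro θ ⟨x, ⟨s, y, hs, hy, rfl⟩, rfl⟩
  have hA : ∀ l m, |A i l m| ≤ d / (k * R + 1) := by
    intro l m
    refine (g3 l m).trans (mul_le_of_le_one_right hε.le (by linarith))
  have hx : ∀ l, |(s • u + y) l| ≤ R := by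
    intro l
    rw [Pi.add_apply, Pi.smul_apply, smul_eq_mul]
    refine (abs_add_le _ _).trans ?_
    rw [abs_mul]
    have h3 : |s| * |u l| ≤ a₀ * j * U :=
      mul_le_mul hs (hul l) (abs_nonneg _) (by positivity)
    linarith [hy l]
  refine ⟨fun m => ?_, fun n hn => ?_⟩
  · have h3 := abs_cmb_le hA hx m
    have h4 : k * R * (d / (k * R + 1)) ≤ d := by
      rw [mul_div_assoc', div_le_iff₀ (by positivity)]
      nlinarith
    exact h3.trans h4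
  · have h3 : (fun x : Rk k => ∑ l, x l • A i l) (s • u + y) =
        cmb (A i) (s • u) + cmb (A i) y := svk_cmb_add _ _ _
    rw [h3]
    refine (Fm.norm_le_dv (hD.p_nn n) (hD.p_mass n) _).trans ?_
    refine (Fm.dv_add_le (hD.p_nn n) _ _).trans ?_
    linarith [g1 n hn s hs, g2 n hn y hy]

/-- SVK. For fixed large `j` and most `i` the set of `Dg.vol` contains the vectors
`cmb (A i) (b • u + y)`, `|b| ≤ a₀ j`, `|y_l| ≤ c √j` (`dv_normal`, `dv_box`, `Fm.dv_add_le`,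
`Fm.norm_le_dv`; `|θ_l| ≤ d` by `A_lim`, `abs_cmb_le`), so by `volume_comb` and `wedge` (`i₀` with
`u i₀ ≠ 0`) its volume is at least `|u i₀| 2 a₀ j (2 c √j)^(k-1) |det|`, and
`C j^g < |u i₀| 2 a₀ j (2 c √j)^(k-1)` for large `j` as `g < (k+1)/2`; `det ≠ 0`. -/
theorem not_hlf (hD : Dg k F p a N E P A r t g d) {u : Rk k} (hu0 : u ≠ 0) :
    ¬ Hlf F p N A u := by
  intro hu
  obtain ⟨a₀, ha₀, c, hc, hincl⟩ := svk_incl hD hu
  obtain ⟨C, hC, hvol⟩ := hD.vol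
  obtain ⟨i₀, hi₀⟩ : ∃ i₀, u i₀ ≠ 0 := by
    by_contra hcon
    push Not at hcon
    exact hu0 (funext hcon)
  have hui : 0 < |u i₀| := abs_pos.2 hi₀
  -- `j` large
  have hk1 := hD.k_pos
  have hlim : Tendsto (fun j : ℕ => ((j : ℝ)) ^ (((k : ℝ) + 1) / 2 - g)) atTop atTop :=
    (tendsto_rpow_atTop (by linarith [hD.g_lt])).comp tendsto_natCast_atTop_atTop
  set c₁ : ℝ := |u i₀| * (2 * a₀) * (2 * c) ^ (k - 1) with hc₁
  have hc₁0 : 0 < c₁ := by positivity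
  obtain ⟨j, ⟨hj, hjbig⟩, hj1⟩ := ((hincl.and (hlim.eventually_gt_atTop (C / c₁))).and
    (eventually_ge_atTop 1)).exists
  have hj0 : (0 : ℝ) < j := by exact_mod_cast hj1
  obtain ⟨i, ⟨hi, hiv⟩, hdet⟩ := ((hj.and (hvol j hj1)).and hD.det_ne).exists
  have hdet0 : 0 < |(Matrix.of (A i)).det| := abs_pos.2 hdet
  have h1 := (measure_mono (μ := volume) hi).trans hiv
  rw [volume_comb] at h1
  have h2 := wedge u (a := a₀ * j) (l := c * Real.sqrt j) (by positivity) (by positivity) i₀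
  have h3 : ENNReal.ofReal |(Matrix.of (A i)).det| *
      ENNReal.ofReal (|u i₀| * (2 * (a₀ * j)) * (2 * (c * Real.sqrt j)) ^ (k - 1)) ≤
      ENNReal.ofReal (C * (j : ℝ) ^ g * |(Matrix.of (A i)).det|) :=
    (mul_le_mul_right h2 _).trans h1
  rw [← ENNReal.ofReal_mul hdet0.le] at h3
  have h4 := (ENNReal.ofReal_le_ofReal_iff (by positivity)).1 h3
  have h5 : |u i₀| * (2 * (a₀ * j)) * (2 * (c * Real.sqrt j)) ^ (k - 1) ≤ C * (j : ℝ) ^ g := by
    have h6 : |(Matrix.of (A i)).det| *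
        (|u i₀| * (2 * (a₀ * j)) * (2 * (c * Real.sqrt j)) ^ (k - 1)) ≤
        |(Matrix.of (A i)).det| * (C * (j : ℝ) ^ g) := by
      refine h4.trans (le_of_eq (by ring))
    exact le_of_mul_le_mul_left h6 hdet0
  have h6 : |u i₀| * (2 * (a₀ * j)) * (2 * (c * Real.sqrt j)) ^ (k - 1) =
      c₁ * (j : ℝ) ^ (((k : ℝ) + 1) / 2) := by
    have h7 : (j : ℝ) ^ (((k : ℝ) + 1) / 2) = j * Real.sqrt j ^ (k - 1) := by
      rw [Real.sqrt_eq_rpow, ← Real.rpow_natCast, ← Real.rpow_mul hj0.le]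
      nth_rewrite 2 [← Real.rpow_one (j : ℝ)]
      rw [← Real.rpow_add hj0]
      congr 1
      have h8 : ((k - 1 : ℕ) : ℝ) = (k : ℝ) - 1 := by
        rw [Nat.cast_sub hk1]; simp
      rw [h8]
      ring
    rw [h7, hc₁, show 2 * (c * Real.sqrt j) = (2 * c) * Real.sqrt j by ring, mul_pow]
    ring
  rw [h6] at h5
  have h7 : (j : ℝ) ^ (((k : ℝ) + 1) / 2) =
      (j : ℝ) ^ (((k : ℝ) + 1) / 2 - g) * (j : ℝ) ^ g := by
    rw [← Real.rpow_add hj0]
    congr 1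
    ring
  have hjg : 0 < (j : ℝ) ^ g := Real.rpow_pos_of_pos hj0 _
  rw [h7, ← mul_assoc] at h5
  have h8 := le_of_mul_le_mul_right h5 hjg
  rw [div_lt_iff₀ hc₁0] at hjbig
  linarith

/-- SVK. If `0 ∈ Wt T` for some `T` take `z = 0` (`rs_zero`); otherwise `exists_normal`, `hlf`,
`not_hlf`. -/
theorem pos (hD : Dg k F p a N E P A r t g d) :
    ∃ (T : ℕ) (c : ℝ), 0 < c ∧ ∀ᶠ i in (F : Filter I),
      c * E i ≤ Fm.sm (a i) (Fm.conv (P T i) (P T i)) 0 := by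
  by_cases h0 : ∀ T, (0 : Rk k) ∉ Wt F a E P A T
  · obtain ⟨u, hu0, hu⟩ := exists_normal hD h0
    exact absurd (hlf hD hu) (not_hlf hD hu0)
  · push Not at h0
    obtain ⟨T, c, hc, η, hη, hT⟩ := h0
    refine ⟨T, c, hc, ?_⟩
    filter_upwards [hT] with i hi
    refine hi 0 fun l => ?_
    rw [rs_zero]
    simp only [Pi.zero_apply, sub_self, abs_zero]
    exact hη.le

end Pool.Agent.SawM2
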