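import Pool.Agent.SawM2.Mult
import Pool.Agent.SawM2.SeqA
import Pool.Agent.SawM2.SumA
import Pool.Agent.SawM2.SumB

/-!
# Tight directions, no fixed clusters, shrinking of the sets `Th` (section 5)
-/

set_option autoImplicit false

namespace Pool.Agent.SawM2

open Finset Filter Topology Pool.Agent.Bub4 Pool.Agent.SawDiff

section
variable {S V : Type} [Fintype S] [AddCommGroup V] {Y : Sys S V} {Λ K : ℝ} {ρ : List S → ℝ}
  {k : ℕ} {π : V →+ Zk k}

/-- the function `f` of the displacement is tight, uniformly in the length -/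
def Tgt (Y : Sys S V) (ρ : List S → ℝ) (f : V → ℝ) : Prop :=
  ∀ ε : ℝ, 0 < ε → ∃ R : ℝ, ∀ n, (Y.E n fun w => ρ w * ind (R < |f (Y.sm w)|)) ≤ ε

/-- no linear functional of the displacement is tight -/
def Ntg (Y : Sys S V) (π : V →+ Zk k) (ρ : List S → ℝ) : Prop :=
  ∀ a : Rk k, a ≠ 0 → ¬ Tgt Y ρ fun v => dt a (π v)

/-- if the characteristic functions of all lengths are near `1` in the direction `w`, then the
displacement in this direction is tight -/
theorem tgt_of_ph (h : Erg Y Λ K ρ) {w : Rk k}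
    (hw : ∀ ε : ℝ, 0 < ε → ∃ δ : ℝ, 0 < δ ∧ ∀ x : ℝ, 0 ≤ x → x ≤ δ → ∀ n,
      ‖1 - ph Y π ρ n (x • w)‖ ≤ ε) : Tgt Y ρ fun v => dt w (π v) := by
  intro ε hε
  obtain ⟨δ, hδ, h1⟩ := hw (ε / 2) (by positivity)
  refine ⟨2 / δ, fun n => ?_⟩
  have h2 := Fm.trunc (μ := lw Y π ρ n) (nn_lw Y π h.bulk.nonneg n)
    (by rw [mass_lw]; exact h.bulk.mass n) (ξ := δ • w) (r := ε / 2) (fun s hs0 hs1 => by
      have h3 := h1 (s * δ) (by positivity) (by nlinarith) n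
      rwa [smul_smul])
  rw [pr_lw] at h2
  refine le_trans (Y.E_mono fun v _ => mul_le_mul_of_nonneg_left (ind_mono fun h4 => ?_)
    (h.bulk.nonneg v)) (h2.trans (le_of_eq (by ring)))
  rw [dt_smul_left, abs_mul, abs_of_pos hδ]
  rw [div_lt_iff₀ hδ] at h4
  linarith

/-- multiples of a frequency on which all characteristic functions are near `1` -/
theorem ph_mult_small (h : Erg Y Λ K ρ) {e δ : ℝ} (he : 0 ≤ e) (he1 : e ≤ 1 / 1600)
    (hm : ∀ θ : Rk k, (∀ i, |θ i| ≤ δ) → ∀ m n,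
      ‖ph Y π ρ (m + n) θ - ph Y π ρ m θ * ph Y π ρ n θ‖ ≤ e)
    {θ : Rk k} (hθ : ∀ n, ‖1 - ph Y π ρ n θ‖ ≤ 1 / 10) (j : ℕ) (hj : (j : ℝ) * ‖θ‖ ≤ δ) (n : ℕ) :
    ‖1 - ph Y π ρ n ((j : ℝ) • θ)‖ ≤ 2 * e := by
  have hcoord : ∀ i : ℕ, i ≤ j → ∀ l, |((i : ℝ) • θ) l| ≤ δ := by
    intro i hi l
    have h1 : |((i : ℝ) • θ) l| ≤ ‖(i : ℝ) • θ‖ := by
      rw [← Real.norm_eq_abs]; exact norm_le_pi_norm _ _
    rw [norm_smul, Real.norm_of_nonneg (Nat.cast_nonneg i)] at h1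
    have h2 : (i : ℝ) * ‖θ‖ ≤ j * ‖θ‖ :=
      mul_le_mul_of_nonneg_right (by exact_mod_cast hi) (norm_nonneg _)
    linarith
  have hmass : ∀ n, (lw Y π ρ n).mass = 1 := fun n => by rw [mass_lw]; exact h.bulk.mass n
  have hnn : ∀ n, (lw Y π ρ n).Nn := fun n => nn_lw Y π h.bulk.nonneg n
  have key : ∀ i : ℕ, i ≤ j → ∀ n, ‖1 - ph Y π ρ n ((i : ℝ) • θ)‖ ≤ 2 * e := by
    intro i
    induction i with
    | zero =>
      intro _ n
      simp only [Nat.cast_zero, zero_smul]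
      rw [ph_zero_right h, sub_self, norm_zero]
      linarith
    | succ i ih =>
      intro hi n
      have hcl := cl_seq (φ := fun n => ph Y π ρ n (((i + 1 : ℕ) : ℝ) • θ)) (e := e)
        (hm _ (hcoord (i + 1) hi))
      rcases Nat.eq_zero_or_pos i with rfl | hi0
      · refine hcl (fun n => ?_) n
        simp only [zero_add, Nat.cast_one, one_smul]
        exact hθ n
      · refine hcl (fun n => ?_) n
        have h3 := ih (by omega)
        -- the bound for `θ` itself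
        have h4 : ∀ n, ‖1 - ph Y π ρ n θ‖ ≤ 2 * e := by
          refine cl_seq (φ := fun n => ph Y π ρ n θ) (hm θ fun l => ?_) hθ
          have := hcoord 1 (by omega) l
          simpa using this
        have h5 : (((i + 1 : ℕ) : ℝ)) • θ = (i : ℝ) • θ + θ := by
          push_cast; rw [add_smul, one_smul]
        have h6 : ‖1 - ph Y π ρ n (((i + 1 : ℕ) : ℝ) • θ)‖ ≤
            Real.sqrt (2 * (2 * e)) + Real.sqrt (2 * (2 * e)) := by
          refine (Fm.norm_le_dv (hnn n) (hmass n) _).trans ?_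
          rw [h5]
          refine (Fm.dv_add_le (hnn n) _ _).trans (add_le_add ?_ ?_)
          · exact (Fm.dv_le (hnn n) (hmass n) _).trans (Real.sqrt_le_sqrt
              (mul_le_mul_of_nonneg_left (h3 n) (by norm_num)))
          · exact (Fm.dv_le (hnn n) (hmass n) _).trans (Real.sqrt_le_sqrt
              (mul_le_mul_of_nonneg_left (h4 n) (by norm_num)))
        refine h6.trans ?_
        have h7 : Real.sqrt (2 * (2 * e)) ≤ 1 / 20 := by
          rw [Real.sqrt_le_iff]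
          constructor <;> linarith
        linarith
  exact key j le_rfl n

/-- NO FIXED CLUSTERS: near `0` there is no frequency except `0` on which the characteristic
functions of all lengths are near `1`. -/
theorem no_cluster (h : Erg Y Λ K ρ) (hπ : Stp Y π) (hN : Ntg Y π ρ) :
    ∃ δ : ℝ, 0 < δ ∧ ∀ θ : Rk k, θ ≠ 0 → ‖θ‖ ≤ δ → ∃ n, 1 / 10 < ‖1 - ph Y π ρ n θ‖ := by
  by_contra hcon
  push Not at hcon
  have hcon' : ∀ i : ℕ, ∃ θ : Rk k, θ ≠ 0 ∧ ‖θ‖ ≤ 1 / ((i : ℝ) + 1) ∧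
      ∀ n, ‖1 - ph Y π ρ n θ‖ ≤ 1 / 10 := fun i => hcon _ (by positivity)
  choose θ hθ0 hθs hθb using hcon'
  have hpos : ∀ i, 0 < ‖θ i‖ := fun i => norm_pos_iff.2 (hθ0 i)
  -- limit direction
  have hsph : ∀ i, (‖θ i‖⁻¹ • θ i) ∈ Metric.sphere (0 : Rk k) 1 := by
    intro i
    rw [mem_sphere_zero_iff_norm, norm_smul, norm_inv, norm_norm, inv_mul_cancel₀ (hpos i).ne']
  obtain ⟨w, hw, φ, hφ, hlim⟩ := (isCompact_sphere (0 : Rk k) 1).tendsto_subseq hsph
  rw [mem_sphere_zero_iff_norm] at hw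
  have hw0 : w ≠ 0 := by
    intro h0; rw [h0, norm_zero] at hw; exact zero_ne_one hw
  refine hN w hw0 (tgt_of_ph h fun ε hε => ?_)
  set e : ℝ := min (ε / 2) (1 / 1600) with he
  have he0 : 0 < e := lt_min (by positivity) (by norm_num)
  have he1 : e ≤ 1 / 1600 := min_le_right _ _
  have he2 : 2 * e ≤ ε := by
    have := min_le_left (ε / 2) (1 / 1600 : ℝ)
    linarith
  obtain ⟨δ, hδ, hm⟩ := ph_mul (π := π) h hπ he0
  refine ⟨δ, hδ, fun x hx0 hx1 n => ?_⟩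
  -- norms along the subsequence tend to zero
  have hs0 : Tendsto (fun i => ‖θ (φ i)‖) atTop (𝓝 0) := by
    have h1 : Tendsto (fun i : ℕ => 1 / ((i : ℝ) + 1)) atTop (𝓝 0) :=
      tendsto_one_div_add_atTop_nhds_zero_nat
    exact squeeze_zero (fun i => norm_nonneg _) (fun i => hθs (φ i)) (h1.comp hφ.tendsto_atTop)
  -- multiples close to `x`
  have hfl : Tendsto (fun i => (⌊x / ‖θ (φ i)‖⌋₊ : ℝ) * ‖θ (φ i)‖) atTop (𝓝 x) := by
    have hlow : ∀ i, x - ‖θ (φ i)‖ ≤ (⌊x / ‖θ (φ i)‖⌋₊ : ℝ) * ‖θ (φ i)‖ := by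
      intro i
      have h1 := (Nat.lt_floor_add_one (x / ‖θ (φ i)‖)).le
      rw [div_le_iff₀ (hpos _)] at h1
      linarith
    have hup : ∀ i, (⌊x / ‖θ (φ i)‖⌋₊ : ℝ) * ‖θ (φ i)‖ ≤ x := by
      intro i
      have h1 := Nat.floor_le (div_nonneg hx0 (hpos (φ i)).le)
      rwa [le_div_iff₀ (hpos _)] at h1
    have h2 : Tendsto (fun i => x - ‖θ (φ i)‖) atTop (𝓝 x) := by
      have := hs0.const_sub x
      rwa [sub_zero] at this
    exact tendsto_of_tendsto_of_tendsto_of_le_of_le h2 tendsto_const_nhds hlow hup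
  have hvec : Tendsto (fun i => (⌊x / ‖θ (φ i)‖⌋₊ : ℝ) • θ (φ i)) atTop (𝓝 (x • w)) := by
    have h1 := hfl.smul hlim
    refine h1.congr fun i => ?_
    simp only [Function.comp]
    rw [smul_smul, mul_assoc, mul_inv_cancel₀ (hpos (φ i)).ne', mul_one]
  have hcont : Tendsto (fun i => ‖1 - ph Y π ρ n ((⌊x / ‖θ (φ i)‖⌋₊ : ℝ) • θ (φ i))‖) atTop
      (𝓝 ‖1 - ph Y π ρ n (x • w)‖) := by
    have h1 : Continuous fun θ : Rk k => ‖1 - ph Y π ρ n θ‖ :=
      (continuous_const.sub (continuous_ph n)).norm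
    exact (h1.tendsto _).comp hvec
  refine le_trans ?_ he2
  refine le_of_tendsto' hcont fun i => ?_
  refine ph_mult_small h he0.le he1 hm (hθb (φ i)) _ ?_ n
  have h1 := Nat.floor_le (div_nonneg hx0 (hpos (φ i)).le)
  rw [le_div_iff₀ (hpos _)] at h1
  linarith

/-- compactness: the sets `Th` shrink to `0` -/
theorem th_shrink (h : Erg Y Λ K ρ) (hπ : Stp Y π) (hN : Ntg Y π ρ) :
    ∃ d₀ : ℝ, 0 < d₀ ∧ ∀ d : ℝ, d ≤ d₀ → ∀ η : ℝ, 0 < η → ∃ N₀ : ℕ, ∀ M ≥ N₀, ∀ r : ℝ,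
      r ≤ 1 / 10 → ∀ θ ∈ Th Y π ρ d M r, ∀ i, |θ i| ≤ η := by
  obtain ⟨d₀, hd₀, hnc⟩ := no_cluster h hπ hN
  refine ⟨d₀, hd₀, fun d hd η hη => ?_⟩
  -- the compact set of the frequencies between `η` and `d₀`
  set C : Set (Rk k) := Metric.closedBall 0 d₀ ∩ {θ | η ≤ ‖θ‖} with hC
  have hCc : IsCompact C :=
    (isCompact_closedBall _ _).inter_right (isClosed_le continuous_const continuous_norm)
  have hopen : ∀ n : ℕ, IsOpen {θ : Rk k | 1 / 10 < ‖1 - ph Y π ρ n θ‖} := fun n =>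
    isOpen_lt continuous_const (continuous_const.sub (continuous_ph n)).norm
  have hcov : C ⊆ ⋃ n : ℕ, {θ : Rk k | 1 / 10 < ‖1 - ph Y π ρ n θ‖} := by
    intro θ hθ
    rw [hC] at hθ
    obtain ⟨h1, h2⟩ := hθ
    rw [Metric.mem_closedBall, dist_zero_right] at h1
    have h3 : θ ≠ 0 := by
      intro h0
      rw [Set.mem_setOf_eq, h0, norm_zero] at h2
      linarith
    obtain ⟨n, hn⟩ := hnc θ h3 h1
    exact Set.mem_iUnion.2 ⟨n, hn⟩
  obtain ⟨t, ht⟩ := hCc.elim_finite_subcover _ hopen hcov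
  refine ⟨t.sup id, fun M hM r hr θ hθ i => ?_⟩
  by_contra hlt
  push Not at hlt
  have h1 : ‖θ‖ ≤ d := (pi_norm_le_iff_of_nonneg (by
    have := hθ.1 i
    exact (abs_nonneg _).trans this)).2 fun j => by
      rw [Real.norm_eq_abs]; exact hθ.1 j
  have h2 : η ≤ ‖θ‖ := hlt.le.trans (by rw [← Real.norm_eq_abs]; exact norm_le_pi_norm θ i)
  have h3 : θ ∈ C := by
    rw [hC]
    refine ⟨?_, h2⟩
    rw [Metric.mem_closedBall, dist_zero_right]
    exact h1.trans hd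
  have h4 := ht h3
  rw [Set.mem_iUnion₂] at h4
  obtain ⟨n, hn, hn2⟩ := h4
  have h5 : n ≤ M := le_trans (Finset.le_sup (f := id) hn) hM
  have h6 := hθ.2 n h5
  rw [Set.mem_setOf_eq] at hn2
  linarith

end

end Pool.Agent.SawM2
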