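import Pool.Agent.SawM2.Mult
import Pool.Agent.SawM2.Star
import Pool.Agent.SawM2.SeqA
import Pool.Agent.SawM2.SumA

/-!
# The sets `Th`: elementary facts and sums (section 6a)
-/

set_option autoImplicit false

namespace Pool.Agent.SawM2

open Finset MeasureTheory Pool.Agent.SawHole Pool.Agent.Bub4 Pool.Agent.SawDiff

variable {S V : Type} [Fintype S] [AddCommGroup V] {Y : Sys S V} {Λ K : ℝ} {ρ : List S → ℝ}
  {k : ℕ} {π : V →+ Zk k}

theorem Th_isClosed (d : ℝ) (M : ℕ) (r : ℝ) : IsClosed (Th Y π ρ d M r) := by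
  have h1 : Th Y π ρ d M r = (⋂ i, {θ : Rk k | |θ i| ≤ d}) ∩
      ⋂ n ∈ Set.Iic M, {θ : Rk k | ‖1 - ph Y π ρ n θ‖ ≤ r} := by
    ext θ
    constructor
    · intro hθ
      refine ⟨Set.mem_iInter.2 fun i => hθ.1 i, Set.mem_iInter₂.2 fun n hn => hθ.2 n hn⟩
    · intro hθ
      exact ⟨fun i => Set.mem_iInter.1 hθ.1 i, fun n hn => Set.mem_iInter₂.1 hθ.2 n hn⟩
  rw [h1]
  refine IsClosed.inter (isClosed_iInter fun i => ?_) (isClosed_biInter fun n _ => ?_)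
  · exact isClosed_le (continuous_abs.comp (continuous_apply i)) continuous_const
  · exact isClosed_le (continuous_norm.comp (continuous_const.sub (continuous_ph n)))
      continuous_const

theorem Th_isCompact (d : ℝ) (M : ℕ) (r : ℝ) : IsCompact (Th Y π ρ d M r) := by
  refine (isCompact_Icc (a := fun _ : Fin k => -d) (b := fun _ : Fin k => d)).of_isClosed_subset
    (Th_isClosed d M r) ?_
  intro θ hθ
  exact ⟨fun i => (abs_le.1 (hθ.1 i)).1, fun i => (abs_le.1 (hθ.1 i)).2⟩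

theorem Th_neg {d : ℝ} {M : ℕ} {r : ℝ} {θ : Rk k} (hθ : θ ∈ Th Y π ρ d M r) :
    -θ ∈ Th Y π ρ d M r := by
  refine ⟨fun i => by rw [Pi.neg_apply, abs_neg]; exact hθ.1 i, fun n hn => ?_⟩
  rw [ph_neg]
  have h1 : (1 : ℂ) - (starRingEnd ℂ) (ph Y π ρ n θ) =
      (starRingEnd ℂ) (1 - ph Y π ρ n θ) := by
    rw [map_sub, map_one]
  rw [h1, RCLike.norm_conj]
  exact hθ.2 n hn

theorem Th_zero (h : Erg Y Λ K ρ) {d : ℝ} (hd : 0 ≤ d) (M : ℕ) {r : ℝ} (hr : 0 ≤ r) :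
    (0 : Rk k) ∈ Th Y π ρ d M r := by
  refine ⟨fun i => by rw [Pi.zero_apply, abs_zero]; exact hd, fun n _ => ?_⟩
  rw [ph_zero_right h, sub_self, norm_zero]
  exact hr

theorem Th_mem_nhds (h : Erg Y Λ K ρ) {d : ℝ} (hd : 0 < d) (M : ℕ) {r : ℝ} (hr : 0 < r) :
    Th Y π ρ d M r ∈ nhds (0 : Rk k) := by
  have h1 : ∀ᶠ θ : Rk k in nhds 0, ∀ i, |θ i| ≤ d := by
    rw [Filter.eventually_all]
    intro i
    have hc : Continuous fun θ : Rk k => |θ i| := continuous_abs.comp (continuous_apply i)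
    have := hc.continuousAt (x := (0 : Rk k))
    have h2 : |(0 : Rk k) i| < d := by rw [Pi.zero_apply, abs_zero]; exact hd
    exact (this.eventually (gt_mem_nhds h2)).mono fun θ hθ => le_of_lt hθ
  have h2 : ∀ᶠ θ : Rk k in nhds 0, ∀ n ∈ Finset.range (M + 1), ‖1 - ph Y π ρ n θ‖ ≤ r := by
    rw [Filter.eventually_all_finset]
    intro n _
    have hc : Continuous fun θ : Rk k => ‖1 - ph Y π ρ n θ‖ :=
      continuous_norm.comp (continuous_const.sub (continuous_ph n))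
    have := hc.continuousAt (x := (0 : Rk k))
    have h2 : ‖1 - ph Y π ρ n (0 : Rk k)‖ < r := by
      rw [ph_zero_right h, sub_self, norm_zero]; exact hr
    exact (this.eventually (gt_mem_nhds h2)).mono fun θ hθ => le_of_lt hθ
  filter_upwards [h1, h2] with θ hθ1 hθ2
  exact ⟨hθ1, fun n hn => hθ2 n (Finset.mem_range.2 (Nat.lt_succ_of_le hn))⟩

theorem Th_anti {d : ℝ} {M M' : ℕ} (hM : M ≤ M') (r : ℝ) :
    Th Y π ρ d M' r ⊆ Th Y π ρ d M r := fun _ hθ =>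
  ⟨hθ.1, fun n hn => hθ.2 n (hn.trans hM)⟩

theorem Th_mono {d : ℝ} (M : ℕ) {r r' : ℝ} (hr : r ≤ r') :
    Th Y π ρ d M r ⊆ Th Y π ρ d M r' := fun _ hθ =>
  ⟨hθ.1, fun n hn => (hθ.2 n hn).trans hr⟩

/-- (6a), small times. -/
theorem Th_small (h : Erg Y Λ K ρ) {d e r : ℝ} {M q : ℕ} (hq : 1 ≤ q) (hr : r ≤ 1 / 4)
    (he : q * e ≤ 1 / 4) {θ : Rk k} (hθ : θ ∈ Th Y π ρ d M r)
    (hm : ∀ m n, ‖ph Y π ρ (m + n) θ - ph Y π ρ m θ * ph Y π ρ n θ‖ ≤ e) {n : ℕ}
    (hn : n ≤ M / q) : ‖1 - ph Y π ρ n θ‖ ≤ 2 * (r + q * e) / q := by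
  refine small_seq (φ := fun n => ph Y π ρ n θ) hm (fun n => norm_ph_le h n θ) hq hr he ?_
  intro j _ hj
  apply hθ.2
  calc j * n ≤ q * n := Nat.mul_le_mul_right n hj
    _ = n * q := mul_comm _ _
    _ ≤ M := (Nat.le_div_iff_mul_le hq).1 hn

/-- the mass of the law of the displacement -/
theorem mass_lw_one (h : Erg Y Λ K ρ) (n : ℕ) : (lw Y π ρ n).mass = 1 := by
  rw [mass_lw]
  have := h.bulk.right [] n
  simpa [h.bulk.nil] using this

/-- (6a), sums: `j`-fold sums of elements of `Th d M r` lie in `Th d (M / q) r`, `q = O (j² / r)`. -/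
theorem ms_Th (h : Erg Y Λ K ρ) (hπ : Stp Y π) {d r : ℝ} (hd : 0 < d) (hr : 0 < r)
    (hr1 : r ≤ 1 / 10) (j : ℕ) {q : ℕ} (hq1 : 1 ≤ q) (hq : 6 * (j : ℝ) ^ 2 / r ≤ q) :
    ∃ η : ℝ, 0 < η ∧ ∀ M : ℕ, (∀ θ ∈ Th Y π ρ d M r, ∀ i, |θ i| ≤ η) →
      ms (Th Y π ρ d M r) j ⊆ Th Y π ρ d (M / q) r := by
  have hq0 : (0 : ℝ) < q := by exact_mod_cast hq1
  obtain ⟨δ, hδ, hmul⟩ := ph_mul (π := π) h hπ (ε := r / (2 * q)) (by positivity)
  refine ⟨min δ (d / (j + 1)), lt_min hδ (by positivity), fun M hM => ?_⟩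
  have hnn : ∀ n, (lw Y π ρ n).Nn := fun n => nn_lw Y π h.bulk.nonneg n
  -- each element of `Th` is good
  have h1 : ∀ θ ∈ Th Y π ρ d M r, ∀ n ≤ M / q,
      (lw Y π ρ n).dv θ ≤ Real.sqrt (6 * r / q) := by
    intro θ hθ n hn
    refine (Fm.dv_le (hnn n) (mass_lw_one h n) θ).trans (Real.sqrt_le_sqrt ?_)
    have hqe : (q : ℝ) * (r / (2 * q)) = r / 2 := by field_simp
    have h2 := Th_small h (e := r / (2 * q)) hq1 (by linarith) (by rw [hqe]; linarith) hθ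
      (hmul θ fun i => (hM θ hθ i).trans (min_le_left _ _)) hn
    rw [hqe] at h2
    have h3 : ‖1 - (lw Y π ρ n).ft θ‖ ≤ 2 * (r + r / 2) / q := h2
    calc 2 * ‖1 - (lw Y π ρ n).ft θ‖ ≤ 2 * (2 * (r + r / 2) / q) := by linarith
      _ = 6 * r / q := by ring
  have h2 : ∀ i : ℕ, ∀ θ ∈ ms (Th Y π ρ d M r) i, (∀ l, |θ l| ≤ i * min δ (d / (j + 1))) ∧
      ∀ n ≤ M / q, (lw Y π ρ n).dv θ ≤ i * Real.sqrt (6 * r / q) := by
    intro i
    induction i with
    | zero =>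
      intro θ hθ
      rw [mem_ms_zero] at hθ
      subst hθ
      refine ⟨fun l => by simp, fun n _ => ?_⟩
      have : (lw Y π ρ n).dv (0 : Rk k) = 0 := by
        unfold Fm.dv Fm.pr
        refine Finset.sum_eq_zero fun w _ => ?_
        simp
      rw [this]; simp
    | succ i ih =>
      rintro θ ⟨θ₁, h₁, θ₂, h₂, rfl⟩
      obtain ⟨ha, hb⟩ := ih θ₁ h₁
      constructor
      · intro l
        rw [Pi.add_apply]
        refine (abs_add_le _ _).trans ?_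
        push_cast
        have := hM θ₂ h₂ l
        linarith [ha l]
      · intro n hn
        refine (Fm.dv_add_le (hnn n) _ _).trans ?_
        push_cast
        have := h1 θ₂ h₂ n hn
        linarith [hb n hn]
  intro θ hθ
  obtain ⟨ha, hb⟩ := h2 j θ hθ
  have hj : (0 : ℝ) ≤ j := Nat.cast_nonneg j
  constructor
  · intro l
    refine (ha l).trans ?_
    calc (j : ℝ) * min δ (d / (j + 1)) ≤ j * (d / (j + 1)) :=
          mul_le_mul_of_nonneg_left (min_le_right _ _) hj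
      _ = (j / (j + 1)) * d := by ring
      _ ≤ 1 * d := by
          apply mul_le_mul_of_nonneg_right _ hd.le
          rw [div_le_one (by positivity)]; linarith
      _ = d := one_mul d
  · intro n hn
    refine (Fm.norm_le_dv (hnn n) (mass_lw_one h n) θ).trans ((hb n hn).trans ?_)
    have h3 : (j : ℝ) * Real.sqrt (6 * r / q) = Real.sqrt ((j : ℝ) ^ 2 * (6 * r / q)) := by
      rw [Real.sqrt_mul (by positivity), Real.sqrt_sq hj]
    rw [h3]
    apply Real.sqrt_le_iff.2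
    refine ⟨hr.le, ?_⟩
    rw [div_le_iff₀ hr] at hq
    rw [show (j : ℝ) ^ 2 * (6 * r / q) = (6 * (j : ℝ) ^ 2) * r / q by ring,
      div_le_iff₀ hq0]
    nlinarith

end Pool.Agent.SawM2
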