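import Pool.Agent.SawDiff.Near

/-!
# The join of the laws of the arms
-/

set_option autoImplicit false

namespace Pool.Agent.SawM2

open Finset Filter Topology Pool.Agent.Bub4 Pool.Agent.SawDiff

variable {S V : Type} [Fintype S] [AddCommGroup V]

/-- supremum of `ρ` over the left extensions -/
noncomputable def ss (ρ : List S → ℝ) (x : List S) : ℝ := ⨆ a : List S, ρ (a ++ x)

/-- the smallest right consistent weight above all `ρ (a ++ ·)` -/
noncomputable def UU (Y : Sys S V) (ρ : List S → ℝ) (x : List S) : ℝ :=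
  ⨆ n : ℕ, Y.E n fun v => ss ρ (x ++ v)

variable {Y : Sys S V} {Λ K : ℝ} {ρ : List S → ℝ}

theorem sv_append_right_le (Y : Sys S V) (a x : List S) : Y.sv (a ++ x) ≤ Y.sv x := by
  unfold Sys.sv
  by_cases h : Y.Saw (a ++ x)
  · rw [if_pos h, if_pos (h.fac (List.infix_append' a x []|>.trans (by simp)))]
  · rw [if_neg h]
    split_ifs <;> norm_num

theorem ss_bdd (h : Bulk Y Λ ρ) (x : List S) : BddAbove (Set.range fun a : List S => ρ (a ++ x)) :=
  ⟨Λ * Y.sv x, by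
    rintro _ ⟨a, rfl⟩
    exact (h.le _).trans (mul_le_mul_of_nonneg_left (sv_append_right_le Y a x) h.pos.le)⟩

theorem le_ss (h : Bulk Y Λ ρ) (a x : List S) : ρ (a ++ x) ≤ ss ρ x :=
  le_ciSup (ss_bdd h x) a

theorem self_le_ss (h : Bulk Y Λ ρ) (x : List S) : ρ x ≤ ss ρ x := le_ss h [] x

theorem ss_nonneg (h : Bulk Y Λ ρ) (x : List S) : 0 ≤ ss ρ x := (h.nonneg x).trans (self_le_ss h x)

theorem ss_le (h : Bulk Y Λ ρ) (x : List S) : ss ρ x ≤ Λ * Y.sv x :=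
  ciSup_le fun a => (h.le _).trans (mul_le_mul_of_nonneg_left (sv_append_right_le Y a x) h.pos.le)

/-- left extension decreases `ss` -/
theorem ss_append (h : Bulk Y Λ ρ) (y x : List S) : ss ρ (y ++ x) ≤ ss ρ x :=
  ciSup_le fun a => by
    rw [← List.append_assoc]
    exact le_ss h (a ++ y) x

theorem ss_le_E (h : Bulk Y Λ ρ) (x : List S) (n : ℕ) : ss ρ x ≤ Y.E n fun v => ss ρ (x ++ v) :=
  ciSup_le fun a => by
    rw [← h.right (a ++ x) n]
    refine Y.E_mono fun v _ => ?_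
    rw [List.append_assoc]
    exact le_ss h a (x ++ v)

theorem E_ss_mono (h : Bulk Y Λ ρ) (x : List S) : Monotone fun n => Y.E n fun v => ss ρ (x ++ v) := by
  intro m n hmn
  obtain ⟨k, rfl⟩ := Nat.exists_eq_add_of_le hmn
  show (Y.E m fun v => ss ρ (x ++ v)) ≤ Y.E (m + k) fun v => ss ρ (x ++ v)
  rw [Y.E_add]
  refine Y.E_mono fun u _ => ?_
  have := ss_le_E h (x ++ u) k
  simpa only [List.append_assoc] using this

theorem sv_append_le' (Y : Sys S V) (x v : List S) : Y.sv (x ++ v) ≤ Y.sv x * Y.sv v := by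
  unfold Sys.sv
  by_cases h : Y.Saw (x ++ v)
  · rw [if_pos h, if_pos (h.fac (List.prefix_append x v).isInfix),
      if_pos (h.fac (List.suffix_append x v).isInfix)]
    norm_num
  · rw [if_neg h]
    split_ifs <;> norm_num

theorem E_ss_le (h : Bulk Y Λ ρ) (hK : ∀ n, Y.a n ≤ K) (x : List S) (n : ℕ) :
    (Y.E n fun v => ss ρ (x ++ v)) ≤ Λ * K * Y.sv x := by
  have h1 : (Y.E n fun v => ss ρ (x ++ v)) ≤ Y.E n fun v => Λ * Y.sv x * Y.sv v := by
    refine Y.E_mono fun v _ => (ss_le h _).trans ?_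
    rw [mul_assoc]
    exact mul_le_mul_of_nonneg_left (sv_append_le' Y x v) h.pos.le
  rw [Y.E_mul_left] at h1
  refine h1.trans ?_
  have h2 : Y.E n Y.sv ≤ K := hK n
  have h3 : 0 ≤ Λ * Y.sv x := mul_nonneg h.pos.le (Y.sv_nonneg x)
  nlinarith

theorem UU_bdd (h : Bulk Y Λ ρ) (hK : ∀ n, Y.a n ≤ K) (x : List S) :
    BddAbove (Set.range fun n => Y.E n fun v => ss ρ (x ++ v)) :=
  ⟨_, by rintro _ ⟨n, rfl⟩; exact E_ss_le h hK x n⟩

theorem UU_tendsto (h : Bulk Y Λ ρ) (hK : ∀ n, Y.a n ≤ K) (x : List S) :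
    Tendsto (fun n => Y.E n fun v => ss ρ (x ++ v)) atTop (𝓝 (UU Y ρ x)) :=
  tendsto_atTop_ciSup (E_ss_mono h x) (UU_bdd h hK x)

theorem ss_le_UU (h : Bulk Y Λ ρ) (hK : ∀ n, Y.a n ≤ K) (x : List S) : ss ρ x ≤ UU Y ρ x := by
  have h1 : (Y.E 0 fun v => ss ρ (x ++ v)) ≤ UU Y ρ x := le_ciSup (UU_bdd h hK x) 0
  rwa [Y.E_zero, List.append_nil] at h1

theorem le_UU (h : Bulk Y Λ ρ) (hK : ∀ n, Y.a n ≤ K) (x : List S) : ρ x ≤ UU Y ρ x :=
  (self_le_ss h x).trans (ss_le_UU h hK x)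

theorem UU_nonneg (h : Bulk Y Λ ρ) (hK : ∀ n, Y.a n ≤ K) (x : List S) : 0 ≤ UU Y ρ x :=
  (h.nonneg x).trans (le_UU h hK x)

/-- (U1) -/
theorem UU_le (h : Bulk Y Λ ρ) (hK : ∀ n, Y.a n ≤ K) (x : List S) : UU Y ρ x ≤ Λ * K * Y.sv x :=
  ciSup_le fun n => E_ss_le h hK x n

/-- finite sums commute with limits -/
theorem E_tendsto (Y : Sys S V) (m : ℕ) {f : ℕ → List S → ℝ} {g : List S → ℝ}
    (hf : ∀ w, Tendsto (fun n => f n w) atTop (𝓝 (g w))) :
    Tendsto (fun n => Y.E m (f n)) atTop (𝓝 (Y.E m g)) := by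
  simp only [Y.E_eq]
  exact tendsto_finsetSum _ fun w _ => (hf _).const_mul _

/-- (U2) -/
theorem UU_right (h : Bulk Y Λ ρ) (hK : ∀ n, Y.a n ≤ K) (x : List S) (m : ℕ) :
    (Y.E m fun u => UU Y ρ (x ++ u)) = UU Y ρ x := by
  have h1 : Tendsto (fun n => Y.E m fun u => Y.E n fun v => ss ρ (x ++ u ++ v)) atTop
      (𝓝 (Y.E m fun u => UU Y ρ (x ++ u))) := E_tendsto Y m fun u => UU_tendsto h hK (x ++ u)
  have h2 : Tendsto (fun n => Y.E (m + n) fun v => ss ρ (x ++ v)) atTop (𝓝 (UU Y ρ x)) :=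
    (UU_tendsto h hK x).comp (tendsto_add_atTop_nat m |>.congr fun n => by ring)
  refine tendsto_nhds_unique h1 (h2.congr fun n => ?_)
  rw [Y.E_add]
  simp only [List.append_assoc]

/-- (U3) -/
theorem UU_append_le (h : Bulk Y Λ ρ) (hK : ∀ n, Y.a n ≤ K) (y x : List S) :
    UU Y ρ (y ++ x) ≤ UU Y ρ x :=
  ciSup_le fun n => by
    refine le_trans ?_ (le_ciSup (UU_bdd h hK x) n)
    refine Y.E_mono fun v _ => ?_
    rw [List.append_assoc]
    exact ss_append h y (x ++ v)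

theorem UU_append_le' (h : Bulk Y Λ ρ) (hK : ∀ n, Y.a n ≤ K) (y x : List S) :
    UU Y ρ (y ++ x) ≤ Y.sv y * UU Y ρ x := by
  by_cases hy : Y.Saw y
  · have : Y.sv y = 1 := by simp [Sys.sv, hy]
    rw [this, one_mul]
    exact UU_append_le h hK y x
  · have h0 : Y.sv (y ++ x) = 0 := by
      unfold Sys.sv
      rw [if_neg]
      intro h1
      exact hy (h1.fac (List.prefix_append y x).isInfix)
    have h1 := UU_le h hK (y ++ x)
    rw [h0, mul_zero] at h1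
    refine h1.trans ?_
    exact mul_nonneg (Y.sv_nonneg y) (UU_nonneg h hK x)

end Pool.Agent.SawM2
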