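import Pool.Agent.SawM2.UArm

/-!
# The join of the laws of the arms: domination up to small mass
-/

set_option autoImplicit false

namespace Pool.Agent.SawM2

open Finset Filter Topology Pool.Agent.Bub4 Pool.Agent.SawDiff

variable {S V : Type} [Fintype S] [AddCommGroup V] {Y : Sys S V} {Λ K : ℝ} {ρ : List S → ℝ}

/-- a single term of a sum of nonnegative terms -/
theorem single_le_E (Y : Sys S V) {F : List S → ℝ} (hF : ∀ w, 0 ≤ F w) (w : List S) :
    Y.z ^ w.length * F w ≤ Y.E w.length F := by
  rw [Y.E_eq]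
  have h1 : List.ofFn (fun i => w.get i) = w := List.ofFn_get w
  have h2 : Y.z ^ w.length * F w =
      (fun u : Fin w.length → S => Y.z ^ w.length * F (List.ofFn u)) (fun i => w.get i) := by
    simp only [h1]
  rw [h2]
  exact Finset.single_le_sum (f := fun u : Fin w.length → S => Y.z ^ w.length * F (List.ofFn u))
    (fun u _ => mul_nonneg (pow_pos Y.z_pos _).le (hF _)) (Finset.mem_univ _)

theorem left_le (h : Bulk Y Λ ρ) (a w : List S) :
    ρ (a ++ w) ≤ (Y.z ^ a.length)⁻¹ * ρ w := by
  have h1 := single_le_E Y (F := fun b => ρ (b ++ w)) (fun b => h.nonneg _) a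
  rw [h.left w a.length] at h1
  have hz := pow_pos Y.z_pos a.length
  rw [inv_mul_eq_div, le_div_iff₀ hz, mul_comm]
  exact h1

/-- (U4) up to a small mass `U` is dominated by a multiple of `ρ` -/
theorem UU_split (h : Bulk Y Λ ρ) (hK : ∀ n, Y.a n ≤ K) {ε : ℝ} (hε : 0 < ε) :
    ∃ (U' : List S → ℝ) (C : ℝ), 0 ≤ C ∧ (∀ x, 0 ≤ U' x) ∧ (∀ x, U' x ≤ UU Y ρ x) ∧
      (∀ x n, (Y.E n fun v => U' (x ++ v)) = U' x) ∧ (∀ x, U' x ≤ C * ρ x) ∧
      UU Y ρ [] - U' [] ≤ ε := by
  have h1 : ∃ n : ℕ, UU Y ρ [] - ε / 2 < Y.E n fun v => ss ρ v := by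
    have h2 := UU_tendsto h hK []
    have h3 := h2.eventually (lt_mem_nhds (show UU Y ρ [] - ε / 2 < UU Y ρ [] by linarith))
    obtain ⟨n, hn⟩ := h3.exists
    exact ⟨n, by simpa using hn⟩
  obtain ⟨n, hn⟩ := h1
  set Z : ℝ := Y.E n (fun _ => 1) with hZ
  have hZ0 : 0 ≤ Z := Y.E_nonneg' fun _ => zero_le_one
  have hδ : 0 < ε / 2 / (Z + 1) := by positivity
  have h4 : ∀ x : List S, ∃ a : List S, ss ρ x - ε / 2 / (Z + 1) < ρ (a ++ x) := fun x =>
    exists_lt_of_lt_ciSup (show ss ρ x - ε / 2 / (Z + 1) < ⨆ a : List S, ρ (a ++ x) by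
      have : ss ρ x = ⨆ a : List S, ρ (a ++ x) := rfl
      rw [← this]
      linarith)
  choose a ha using h4
  set C : ℝ := ∑ x : Fin n → S, (Y.z ^ (a (List.ofFn x)).length)⁻¹ with hC
  have hC0 : 0 ≤ C := Finset.sum_nonneg fun x _ => (inv_pos.2 (pow_pos Y.z_pos _)).le
  have hCle : ∀ x : List S, x.length = n → (Y.z ^ (a x).length)⁻¹ ≤ C := by
    intro x hx
    subst hx
    have h5 : List.ofFn (fun i => x.get i) = x := List.ofFn_get x
    have h6 : (Y.z ^ (a x).length)⁻¹ =
      (fun u : Fin x.length → S => (Y.z ^ (a (List.ofFn u)).length)⁻¹) (fun i => x.get i) := by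
      simp only [h5]
    rw [h6]
    exact Finset.single_le_sum
      (f := fun u : Fin x.length → S => (Y.z ^ (a (List.ofFn u)).length)⁻¹)
      (fun u _ => (inv_pos.2 (pow_pos Y.z_pos _)).le) (Finset.mem_univ _)
  set U' : List S → ℝ := fun w =>
    Y.E (n - w.length) fun v => ρ (a ((w ++ v).take n) ++ (w ++ v)) with hU'
  have hlong : ∀ w : List S, n ≤ w.length → U' w = ρ (a (w.take n) ++ w) := by
    intro w hw
    simp only [hU', Nat.sub_eq_zero_of_le hw, Y.E_zero, List.append_nil]
  have hlongE : ∀ (w : List S) (m : ℕ), n ≤ w.length → (Y.E m fun v => U' (w ++ v)) = U' w := by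
    intro w m hw
    rw [hlong w hw, ← h.right (a (w.take n) ++ w) m]
    refine Y.E_congr fun v _ => ?_
    rw [hlong _ (hw.trans (by simp)), List.take_append_of_le_length hw, List.append_assoc]
  refine ⟨U', C, hC0, fun x => Y.E_nonneg' fun v => h.nonneg _, fun x => ?_, fun x m => ?_,
    fun x => ?_, ?_⟩
  · refine le_trans (Y.E_mono fun v _ => le_ss h _ _) ?_
    exact le_ciSup (UU_bdd h hK x) (n - x.length)
  · rcases le_or_gt n x.length with hx | hx
    · exact hlongE x m hx
    · rcases le_or_gt m (n - x.length) with hm | hm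
      · obtain ⟨k, hk⟩ := Nat.exists_eq_add_of_le hm
        have e1 : U' x = Y.E (m + k) fun v => ρ (a ((x ++ v).take n) ++ (x ++ v)) := by
          simp only [hU', hk]
        rw [e1, Y.E_add]
        refine Y.E_congr fun u hu => ?_
        have e2 : n - (x ++ u).length = k := by
          rw [List.length_append, hu]
          omega
        simp only [hU', e2, List.append_assoc]
      · obtain ⟨k, hk⟩ := Nat.exists_eq_add_of_le hm.le
        rw [hk, Y.E_add]
        have e1 : U' x = Y.E (n - x.length) fun u => U' (x ++ u) := by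
          have e0 : U' x = Y.E (n - x.length) fun v => ρ (a ((x ++ v).take n) ++ (x ++ v)) := rfl
          rw [e0]
          refine Y.E_congr fun u hu => ?_
          rw [hlong]
          rw [List.length_append, hu]
          omega
        rw [e1]
        refine Y.E_congr fun u hu => ?_
        have e3 : n ≤ (x ++ u).length := by
          rw [List.length_append, hu]
          omega
        rw [← hlongE (x ++ u) k e3]
        simp only [List.append_assoc]
  · have h7 : ∀ v : List S, v.length = n - x.length →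
        ρ (a ((x ++ v).take n) ++ (x ++ v)) ≤ C * ρ (x ++ v) := by
      intro v hv
      refine (left_le h _ _).trans ?_
      refine mul_le_mul_of_nonneg_right (hCle _ ?_) (h.nonneg _)
      rw [List.length_take, List.length_append, hv]
      omega
    refine (Y.E_mono h7).trans (le_of_eq ?_)
    rw [Y.E_mul_left, h.right]
  · have h8 : U' [] = Y.E n fun v => ρ (a v ++ v) := by
      have e0 : U' [] = Y.E n fun v => ρ (a (([] ++ v).take n) ++ ([] ++ v)) := rfl
      rw [e0]
      refine Y.E_congr fun v hv => ?_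
      rw [List.nil_append, List.take_of_length_le hv.le]
    have h9 : (Y.E n fun v => ss ρ v) - ε / 2 / (Z + 1) * Z ≤ U' [] := by
      rw [h8, hZ, ← Y.E_mul_left, ← Y.E_fsub]
      refine Y.E_mono fun v _ => ?_
      rw [mul_one]
      exact (ha v).le
    have h10 : ε / 2 / (Z + 1) * Z ≤ ε / 2 := by
      rw [div_mul_eq_mul_div, div_le_iff₀ (by positivity)]
      nlinarith
    linarith

end Pool.Agent.SawM2
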